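import Pool.Agent.Helper27.Har.Base0

set_option autoImplicit false

open MeasureTheory Set Real Filter Topology
open scoped ENNReal NNReal

namespace Haraux



/-- completeness of the sine functions on `(0,π)` -/
theorem sine_complete_1d (h : ℝ → ℝ) (hh : MemLp h 2 (volume.restrict (Ioo 0 π)))
    (h0 : ∀ n : ℕ, ∫ x in Ioo (0:ℝ) π, h x * Real.sin (((n : ℝ) + 1) * x) = 0) :
    h =ᵐ[volume.restrict (Ioo 0 π)] 0 := by
  have hI : IntegrableOn h (Ioo 0 π) := hh.integrable (by norm_num)
  have hmul : ∀ φ : ℝ → ℝ, Continuous φ → IntegrableOn (fun x => h x * φ x) (Ioo 0 π) :=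
    fun φ hφ => hI.mul_continuousOn_of_subset hφ.continuousOn measurableSet_Ioo isCompact_Icc
      Ioo_subset_Icc_self
  have h1 : ∀ k n : ℕ,
      ∫ x in Ioo (0:ℝ) π, h x * (Real.sin (((n : ℝ) + 1) * x) * Real.cos x ^ k) = 0 := by
    intro k
    induction k with
    | zero =>
      intro n
      simpa using h0 n
    | succ k ih =>
      intro n
      have i1 : IntegrableOn (fun x => h x * (Real.sin ((((n + 1 : ℕ) : ℝ) + 1) * x) *
          Real.cos x ^ k)) (Ioo 0 π) := hmul _ (by fun_prop)
      have hA : ∫ x in Ioo (0:ℝ) π, h x * (Real.sin ((n : ℝ) * x) * Real.cos x ^ k) = 0 := by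
        cases n with
        | zero => simp
        | succ n =>
          have := ih n
          push_cast at this ⊢
          exact this
      have i2 : IntegrableOn (fun x => h x * (Real.sin ((n : ℝ) * x) * Real.cos x ^ k))
          (Ioo 0 π) := hmul _ (by fun_prop)
      have hs : (fun x => h x * (Real.sin (((n : ℝ) + 1) * x) * Real.cos x ^ (k + 1))) =
          fun x => (1 / 2 : ℝ) * (h x * (Real.sin ((((n + 1 : ℕ) : ℝ) + 1) * x) * Real.cos x ^ k) +
            h x * (Real.sin ((n : ℝ) * x) * Real.cos x ^ k)) := by
        funext x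
        have e1 : Real.sin ((((n + 1 : ℕ) : ℝ) + 1) * x) =
            Real.sin (((n : ℝ) + 1) * x) * Real.cos x + Real.cos (((n : ℝ) + 1) * x) * Real.sin x := by
          rw [← Real.sin_add]; congr 1; push_cast; ring
        have e2 : Real.sin ((n : ℝ) * x) =
            Real.sin (((n : ℝ) + 1) * x) * Real.cos x - Real.cos (((n : ℝ) + 1) * x) * Real.sin x := by
          rw [← Real.sin_sub]; congr 1; ring
        rw [e1, e2, pow_succ]
        ring
      rw [hs, integral_const_mul, integral_add i1 i2, hA, ih (n + 1)]
      ring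
  have h2 : ∀ P : Polynomial ℝ,
      ∫ x in Ioo (0:ℝ) π, h x * (Real.sin x * P.eval (Real.cos x)) = 0 := by
    intro P
    induction P using Polynomial.induction_on' with
    | add p q hp hq =>
      have i1 : IntegrableOn (fun x => h x * (Real.sin x * p.eval (Real.cos x))) (Ioo 0 π) :=
        hmul _ (Real.continuous_sin.mul (p.continuous.comp Real.continuous_cos))
      have i2 : IntegrableOn (fun x => h x * (Real.sin x * q.eval (Real.cos x))) (Ioo 0 π) :=
        hmul _ (Real.continuous_sin.mul (q.continuous.comp Real.continuous_cos))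
      have e : (fun x => h x * (Real.sin x * (p + q).eval (Real.cos x))) = fun x =>
          h x * (Real.sin x * p.eval (Real.cos x)) + h x * (Real.sin x * q.eval (Real.cos x)) := by
        funext x
        rw [Polynomial.eval_add]
        ring
      rw [e, integral_add i1 i2, hp, hq, add_zero]
    | monomial n a =>
      have e : (fun x => h x * (Real.sin x * (Polynomial.monomial n a).eval (Real.cos x))) =
          fun x => a * (h x * (Real.sin ((((0 : ℕ) : ℝ) + 1) * x) * Real.cos x ^ n)) := by
        funext x
        rw [Polynomial.eval_monomial]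
        simp
        ring
      rw [e, integral_const_mul, h1 n 0, mul_zero]
  have h3 : ∀ g : ℝ → ℝ, Continuous g → ∫ x in Ioo (0:ℝ) π, h x * (Real.sin x * g x) = 0 := by
    intro g hg
    set C : ℝ := ∫ x in Ioo (0:ℝ) π, |h x * Real.sin x| with hC
    have hC0 : 0 ≤ C := integral_nonneg fun x => abs_nonneg _
    have key : ∀ ε : ℝ, 0 < ε → |∫ x in Ioo (0:ℝ) π, h x * (Real.sin x * g x)| ≤ ε * C := by
      intro ε hε
      obtain ⟨P, hP⟩ := exists_polynomial_near_of_continuousOn (-1) 1 (fun y => g (Real.arccos y))
        (hg.comp Real.continuous_arccos).continuousOn ε hε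
      have i1 : IntegrableOn (fun x => h x * (Real.sin x * g x)) (Ioo 0 π) :=
        hmul _ (Real.continuous_sin.mul hg)
      have i2 : IntegrableOn (fun x => h x * (Real.sin x * P.eval (Real.cos x))) (Ioo 0 π) :=
        hmul _ (Real.continuous_sin.mul (P.continuous.comp Real.continuous_cos))
      have i3 : IntegrableOn (fun x => |h x * Real.sin x|) (Ioo 0 π) :=
        (hmul _ Real.continuous_sin).abs
      have e : ∫ x in Ioo (0:ℝ) π, h x * (Real.sin x * g x) =
          ∫ x in Ioo (0:ℝ) π, (h x * (Real.sin x * g x) -
            h x * (Real.sin x * P.eval (Real.cos x))) := by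
        rw [integral_sub i1 i2, h2 P, sub_zero]
      rw [e]
      have hb : ∀ᵐ x ∂(volume.restrict (Ioo (0:ℝ) π)), ‖h x * (Real.sin x * g x) -
            h x * (Real.sin x * P.eval (Real.cos x))‖ ≤ ε * |h x * Real.sin x| := by
        rw [ae_restrict_iff' measurableSet_Ioo]
        refine Filter.Eventually.of_forall fun x hx => ?_
        have h5 := hP (Real.cos x) ⟨Real.neg_one_le_cos x, Real.cos_le_one x⟩
        rw [Real.arccos_cos hx.1.le hx.2.le] at h5
        have h6 : h x * (Real.sin x * g x) - h x * (Real.sin x * P.eval (Real.cos x)) =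
            -((P.eval (Real.cos x) - g x) * (h x * Real.sin x)) := by ring
        rw [h6, norm_neg, norm_mul, Real.norm_eq_abs, Real.norm_eq_abs]
        exact mul_le_mul_of_nonneg_right h5.le (abs_nonneg _)
      have h7 := norm_integral_le_of_norm_le (i3.const_mul ε) hb
      rw [Real.norm_eq_abs, integral_const_mul] at h7
      exact h7
    have hle : |∫ x in Ioo (0:ℝ) π, h x * (Real.sin x * g x)| ≤ 0 := by
      refine le_of_forall_pos_le_add fun δ hδ => ?_
      have h8 := key (δ / (C + 1)) (by positivity)
      have h9 : δ / (C + 1) * C ≤ δ := by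
        rw [div_mul_eq_mul_div, div_le_iff₀ (by positivity)]
        nlinarith
      linarith
    exact abs_nonpos_iff.1 hle
  have hL : LocallyIntegrableOn (fun x => h x * Real.sin x) (Ioo 0 π) :=
    (hmul _ Real.continuous_sin).locallyIntegrableOn
  have hfin := isOpen_Ioo.ae_eq_zero_of_integral_contDiff_smul_eq_zero hL (by
    intro g hg _ hsupp
    have hz : ∀ x, x ∉ Ioo (0:ℝ) π → g x • (h x * Real.sin x) = 0 := by
      intro x hx
      have : g x = 0 := by
        by_contra hne
        exact hx (hsupp (subset_tsupport g hne))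
      rw [this, zero_smul]
    rw [← setIntegral_eq_integral_of_forall_compl_eq_zero hz]
    have h12 : (fun x => g x • (h x * Real.sin x)) = fun x => h x * (Real.sin x * g x) := by
      funext x
      rw [smul_eq_mul]
      ring
    rw [h12]
    exact h3 g hg.continuous)
  rw [Filter.EventuallyEq, ae_restrict_iff' measurableSet_Ioo]
  filter_upwards [hfin] with x hx hxm
  have h10 := hx hxm
  have hs := Real.sin_pos_of_mem_Ioo hxm
  rcases mul_eq_zero.1 h10 with h11 | h11
  · exact h11
  · exact absurd h11 hs.ne'

end Haraux
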