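import Pool.Agent.Helper27.Har.Base0
import Pool.Agent.Helper27.Har.P_sine_complete_1d

set_option autoImplicit false

open MeasureTheory Set Real Filter Topology
open scoped ENNReal NNReal

namespace Haraux



private theorem sine_complete_2d_cs (μ : Measure ℝ) [IsFiniteMeasure μ] (hμ : μ.real univ ≤ π)
    (f s : ℝ → ℝ) (hf : MemLp f 2 μ) (hs : Continuous s) (hs1 : ∀ x, |s x| ≤ 1) :
    (∫ x, f x * s x ∂μ) ^ 2 ≤ π * ∫ x, f x ^ 2 ∂μ := by
  have hf1 : Integrable f μ := hf.integrable (by norm_num)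
  have hf2 : Integrable (fun x => f x ^ 2) μ := hf.integrable_sq
  have hfs : Integrable (fun x => f x * s x) μ := by
    refine hf1.mul_bdd (c := 1) hs.aestronglyMeasurable (Eventually.of_forall fun x => ?_)
    rw [Real.norm_eq_abs]
    exact hs1 x
  have hs3 : ∀ x, s x ^ 2 ≤ 1 := by
    intro x
    rw [← sq_abs]
    exact pow_le_one₀ (abs_nonneg _) (hs1 x)
  have hs2 : Integrable (fun x => s x ^ 2) μ := by
    refine Integrable.of_bound (hs.pow 2).aestronglyMeasurable 1 (Eventually.of_forall fun x => ?_)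
    change ‖s x ^ 2‖ ≤ 1
    rw [Real.norm_eq_abs, abs_of_nonneg (sq_nonneg _)]
    exact hs3 x
  have hC : ∫ x, s x ^ 2 ∂μ ≤ π := by
    have h1 : ∫ x, s x ^ 2 ∂μ ≤ ∫ x, (1:ℝ) ∂μ :=
      integral_mono hs2 (integrable_const _) hs3
    rw [integral_const, smul_eq_mul, mul_one] at h1
    linarith
  obtain ⟨A, hA⟩ : ∃ A : ℝ, A = ∫ x, f x ^ 2 ∂μ := ⟨_, rfl⟩
  obtain ⟨B, hB⟩ : ∃ B : ℝ, B = ∫ x, f x * s x ∂μ := ⟨_, rfl⟩
  obtain ⟨C, hC'⟩ : ∃ C : ℝ, C = ∫ x, s x ^ 2 ∂μ := ⟨_, rfl⟩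
  rw [← hA, ← hB]
  rw [← hC'] at hC
  have h3 : 0 ≤ ∫ x, (f x - (B / π) * s x) ^ 2 ∂μ := integral_nonneg (fun x => sq_nonneg _)
  have h4 : ∫ x, (f x - (B / π) * s x) ^ 2 ∂μ = A - 2 * (B / π) * B + (B / π) ^ 2 * C := by
    have e : (fun x => (f x - (B / π) * s x) ^ 2)
        = fun x => (f x ^ 2 - 2 * (B / π) * (f x * s x)) + (B / π) ^ 2 * (s x ^ 2) := by
      funext x
      ring
    have i0 : Integrable (fun x => 2 * (B / π) * (f x * s x)) μ := hfs.const_mul _
    have i1 : Integrable (fun x => f x ^ 2 - 2 * (B / π) * (f x * s x)) μ := hf2.sub i0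
    have i2 : Integrable (fun x => (B / π) ^ 2 * (s x ^ 2)) μ := hs2.const_mul _
    rw [e, integral_add i1 i2, integral_sub hf2 i0, integral_const_mul, integral_const_mul,
      ← hA, ← hB, ← hC']
  have hπ := Real.pi_pos
  have h5 : 0 ≤ A * π ^ 2 - 2 * B ^ 2 * π + B ^ 2 * C := by
    have e : A * π ^ 2 - 2 * B ^ 2 * π + B ^ 2 * C
        = π ^ 2 * (A - 2 * (B / π) * B + (B / π) ^ 2 * C) := by
      field_simp
    rw [e, ← h4]
    positivity
  have h6 : B ^ 2 * C ≤ B ^ 2 * π := mul_le_mul_of_nonneg_left hC (sq_nonneg _)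
  have h8 : π * (B ^ 2) ≤ π * (π * A) := by nlinarith
  exact le_of_mul_le_mul_left h8 hπ

/-- completeness of the products of sines on the square -/
theorem sine_complete_2d (h : ℝ × ℝ → ℝ) (hh : MemLp h 2 (volume.restrict sq))
    (h0 : ∀ i : ℕ × ℕ, ∫ q in sq, h q * sfun i q = 0) :
    h =ᵐ[volume.restrict sq] 0 := by
  obtain ⟨μ, hμ⟩ : ∃ μ : Measure ℝ, μ = volume.restrict (Ioo 0 π) := ⟨_, rfl⟩
  have hsq : (volume : Measure (ℝ × ℝ)).restrict sq = μ.prod μ := by
    rw [hμ, Measure.prod_restrict, Measure.volume_eq_prod]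
  have hπ := Real.pi_pos
  have hfin : IsFiniteMeasure μ := by
    rw [hμ]
    infer_instance
  have hμr : μ.real univ ≤ π := by
    rw [hμ, measureReal_def, Measure.restrict_apply_univ, Real.volume_Ioo, sub_zero,
      ENNReal.toReal_ofReal hπ.le]
  have hc1 : ∀ h : ℝ → ℝ, MemLp h 2 μ →
      (∀ n : ℕ, ∫ x, h x * Real.sin (((n : ℝ) + 1) * x) ∂μ = 0) → h =ᵐ[μ] 0 := by
    rw [hμ]
    exact sine_complete_1d
  rw [hsq] at hh ⊢
  simp only [hsq] at h0
  have hint : Integrable h (μ.prod μ) := hh.integrable (by norm_num)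
  have hint2 : Integrable (fun q => h q ^ 2) (μ.prod μ) := hh.integrable_sq
  have h1 : ∀ᵐ x ∂μ, Integrable (fun y => h (x, y)) μ := hint.prod_right_ae
  have h2 : ∀ᵐ x ∂μ, Integrable (fun y => h (x, y) ^ 2) μ := hint2.prod_right_ae
  have h3 : ∀ᵐ x ∂μ, MemLp (fun y => h (x, y)) 2 μ := by
    filter_upwards [h1, h2] with x e1 e2
    exact (memLp_two_iff_integrable_sq e1.aestronglyMeasurable).mpr e2
  have hG : Integrable (fun x => ∫ y, h (x, y) ^ 2 ∂μ) μ := hint2.integral_prod_left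
  have hH : ∀ l : ℕ, ∀ᵐ x ∂μ, ∫ y, h (x, y) * Real.sin (((l : ℝ) + 1) * y) ∂μ = 0 := by
    intro l
    have hi : Integrable (fun q : ℝ × ℝ => h q * Real.sin (((l : ℝ) + 1) * q.2)) (μ.prod μ) := by
      refine hint.mul_bdd (c := 1) (Continuous.aestronglyMeasurable (by fun_prop))
        (Eventually.of_forall fun q => ?_)
      rw [Real.norm_eq_abs]
      exact Real.abs_sin_le_one _
    have hHi : Integrable (fun x => ∫ y, h (x, y) * Real.sin (((l : ℝ) + 1) * y) ∂μ) μ :=
      hi.integral_prod_left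
    have hHL : MemLp (fun x => ∫ y, h (x, y) * Real.sin (((l : ℝ) + 1) * y) ∂μ) 2 μ := by
      rw [memLp_two_iff_integrable_sq hHi.aestronglyMeasurable]
      refine Integrable.mono' (hG.const_mul π) (hHi.aestronglyMeasurable.pow 2) ?_
      filter_upwards [h3] with x e3
      rw [Real.norm_eq_abs, abs_of_nonneg (sq_nonneg _)]
      exact sine_complete_2d_cs μ hμr _ _ e3 (by fun_prop) (fun y => Real.abs_sin_le_one _)
    have hz := hc1 _ hHL (by
      intro n
      have e1 := h0 (n, l)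
      have hi2 : Integrable (fun q : ℝ × ℝ => h q * sfun (n, l) q) (μ.prod μ) := by
        refine hint.mul_bdd (c := 2 / π) (Continuous.aestronglyMeasurable ?_)
          (Eventually.of_forall fun q => ?_)
        · unfold sfun
          fun_prop
        · unfold sfun
          rw [Real.norm_eq_abs, abs_mul, abs_of_pos (by positivity : 0 < 2 / π), abs_mul]
          have e3 : |Real.sin ((((n, l) : ℕ × ℕ).1 + 1 : ℝ) * q.1)| *
              |Real.sin ((((n, l) : ℕ × ℕ).2 + 1 : ℝ) * q.2)| ≤ 1 :=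
            mul_le_one₀ (Real.abs_sin_le_one _) (abs_nonneg _) (Real.abs_sin_le_one _)
          have e4 := mul_le_mul_of_nonneg_left e3 (by positivity : 0 ≤ 2 / π)
          rw [mul_one] at e4
          exact e4
      rw [integral_prod _ hi2] at e1
      have e2 : ∀ x, ∫ y, h (x, y) * sfun (n, l) (x, y) ∂μ
          = (2 / π) * ((∫ y, h (x, y) * Real.sin (((l : ℝ) + 1) * y) ∂μ)
            * Real.sin (((n : ℝ) + 1) * x)) := by
        intro x
        rw [← integral_mul_const, ← integral_const_mul]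
        congr 1
        funext y
        unfold sfun
        ring
      simp only [e2] at e1
      rw [integral_const_mul] at e1
      have e5 : (2 / π : ℝ) ≠ 0 := by positivity
      exact (mul_eq_zero.mp e1).resolve_left e5)
    exact hz
  have h4 : ∀ᵐ x ∂μ, ∀ l : ℕ, ∫ y, h (x, y) * Real.sin (((l : ℝ) + 1) * y) ∂μ = 0 :=
    ae_all_iff.mpr hH
  have h5 : ∀ᵐ x ∂μ, ∫ y, h (x, y) ^ 2 ∂μ = 0 := by
    filter_upwards [h3, h4] with x e3 e4
    have e5 := hc1 _ e3 e4
    have e6 : (fun y => h (x, y) ^ 2) =ᵐ[μ] fun _ => (0 : ℝ) := by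
      filter_upwards [e5] with y hy
      rw [hy]
      simp
    rw [integral_congr_ae e6, integral_zero]
  have h6 : ∫ q, h q ^ 2 ∂(μ.prod μ) = 0 := by
    rw [integral_prod _ hint2, integral_congr_ae h5, integral_zero]
  rw [integral_eq_zero_iff_of_nonneg (fun q => sq_nonneg _) hint2] at h6
  filter_upwards [h6] with q hq
  simpa using hq

end Haraux
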