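import Pool.Agent.Helper27.Har.Base0
import Pool.Agent.Helper27.Har.P_sine_complete_2d

set_option autoImplicit false

open MeasureTheory Set Real Filter Topology
open scoped ENNReal NNReal

namespace Haraux



private theorem sfun_cont (i : ℕ × ℕ) : Continuous (sfun i) := by
  unfold sfun; fun_prop

private theorem sfun_bdd (i : ℕ × ℕ) (q : ℝ × ℝ) : ‖sfun i q‖ ≤ 2 / π := by
  unfold sfun
  rw [norm_mul, norm_mul, Real.norm_eq_abs, Real.norm_eq_abs, Real.norm_eq_abs,
    abs_of_pos (show (0:ℝ) < 2 / π by positivity)]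
  have h1 := Real.abs_sin_le_one (((i.1 : ℝ) + 1) * q.1)
  have h2 := Real.abs_sin_le_one (((i.2 : ℝ) + 1) * q.2)
  have h3 : |Real.sin (((i.1 : ℝ) + 1) * q.1)| * |Real.sin (((i.2 : ℝ) + 1) * q.2)| ≤ 1 :=
    mul_le_one₀ h1 (abs_nonneg _) h2
  have h4 : (0:ℝ) < 2 / π := by positivity
  nlinarith

private theorem sq_fin : IsFiniteMeasure (volume.restrict sq) := by
  constructor
  rw [Measure.restrict_apply MeasurableSet.univ, univ_inter]
  rw [show (volume : Measure (ℝ × ℝ)) = (volume : Measure ℝ).prod volume from rfl,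
    Measure.prod_prod, Real.volume_Ioo]
  exact ENNReal.mul_lt_top ENNReal.ofReal_lt_top ENNReal.ofReal_lt_top

private theorem sfun_memLp (i : ℕ × ℕ) : MemLp (sfun i) 2 (volume.restrict sq) := by
  have := sq_fin
  exact MemLp.of_bound (sfun_cont i).aestronglyMeasurable (2 / π)
    (Filter.Eventually.of_forall (sfun_bdd i))

private theorem int_cos (k : ℤ) (hk : k ≠ 0) : ∫ x in (0:ℝ)..π, Real.cos ((k : ℝ) * x) = 0 := by
  have hk' : (k : ℝ) ≠ 0 := by exact_mod_cast hk
  rw [intervalIntegral.integral_comp_mul_left (fun x => Real.cos x) hk', integral_cos]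
  simp [Real.sin_int_mul_pi]

private theorem int_sin_sin (n m : ℕ) :
    ∫ x in Ioo (0:ℝ) π, Real.sin (((n : ℝ) + 1) * x) * Real.sin (((m : ℝ) + 1) * x)
      = if n = m then π / 2 else 0 := by
  rw [← integral_Ioc_eq_integral_Ioo, ← intervalIntegral.integral_of_le Real.pi_pos.le]
  have h : ∀ x : ℝ, Real.sin (((n : ℝ) + 1) * x) * Real.sin (((m : ℝ) + 1) * x)
      = (1/2) * Real.cos ((((n : ℤ) - m : ℤ) : ℝ) * x)
        - (1/2) * Real.cos ((((n : ℤ) + m + 2 : ℤ) : ℝ) * x) := by
    intro x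
    have e1 : (((n : ℤ) - m : ℤ) : ℝ) * x = ((n : ℝ) + 1) * x - ((m : ℝ) + 1) * x := by
      push_cast; ring
    have e2 : (((n : ℤ) + m + 2 : ℤ) : ℝ) * x = ((n : ℝ) + 1) * x + ((m : ℝ) + 1) * x := by
      push_cast; ring
    rw [e1, e2, Real.cos_sub, Real.cos_add]
    ring
  simp_rw [h]
  rw [intervalIntegral.integral_sub
    (by apply Continuous.intervalIntegrable; fun_prop)
    (by apply Continuous.intervalIntegrable; fun_prop),
    intervalIntegral.integral_const_mul, intervalIntegral.integral_const_mul,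
    int_cos ((n : ℤ) + m + 2) (by positivity)]
  by_cases hnm : n = m
  · subst hnm
    simp
    ring
  · rw [int_cos ((n : ℤ) - m) (by omega)]
    simp [hnm]

private theorem int_sfun (i j : ℕ × ℕ) :
    ∫ q in sq, sfun i q * sfun j q = if i = j then 1 else 0 := by
  have h : ∀ q : ℝ × ℝ, sfun i q * sfun j q
      = (2 / π) ^ 2 * ((Real.sin (((i.1 : ℝ) + 1) * q.1) * Real.sin (((j.1 : ℝ) + 1) * q.1))
        * (Real.sin (((i.2 : ℝ) + 1) * q.2) * Real.sin (((j.2 : ℝ) + 1) * q.2))) := by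
    intro q; unfold sfun; ring
  simp_rw [h]
  rw [integral_const_mul]
  have hp := setIntegral_prod_mul (μ := (volume : Measure ℝ)) (ν := (volume : Measure ℝ))
    (fun x : ℝ => Real.sin (((i.1 : ℝ) + 1) * x) * Real.sin (((j.1 : ℝ) + 1) * x))
    (fun y : ℝ => Real.sin (((i.2 : ℝ) + 1) * y) * Real.sin (((j.2 : ℝ) + 1) * y))
    (Ioo 0 π) (Ioo 0 π)
  rw [show (volume : Measure (ℝ × ℝ)) = (volume : Measure ℝ).prod volume from rfl, hp,
    int_sin_sin, int_sin_sin]
  have hpi : π ≠ 0 := Real.pi_ne_zero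
  by_cases h1 : i.1 = j.1
  · by_cases h2 : i.2 = j.2
    · rw [if_pos h1, if_pos h2, if_pos (Prod.ext h1 h2)]
      field_simp
    · have hij : ¬ i = j := fun h => h2 (by rw [h])
      rw [if_neg h2, if_neg hij]; ring
  · have hij : ¬ i = j := fun h => h1 (by rw [h])
    rw [if_neg h1, if_neg hij]; ring

/-- the products of sines form a Hilbert basis (to replace the GIVEN statement of the header) -/
theorem exists_sineB' : ∃ b : HilbertBasis (ℕ × ℕ) ℝ KK,
    ∀ i, ((b i : KK) : ℝ × ℝ → ℝ) =ᵐ[volume.restrict sq] sfun i := by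
  have hinner : ∀ (i : ℕ × ℕ) (h : KK),
      inner ℝ ((sfun_memLp i).toLp (sfun i)) h = ∫ q in sq, h q * sfun i q := by
    intro i h
    rw [MeasureTheory.L2.inner_def]
    apply integral_congr_ae
    filter_upwards [(sfun_memLp i).coeFn_toLp] with q hq
    rw [hq]
    simp [mul_comm]
  have horth : Orthonormal ℝ (fun i : ℕ × ℕ => ((sfun_memLp i).toLp (sfun i) : KK)) := by
    rw [orthonormal_iff_ite]
    intro i j
    rw [hinner]
    rw [← int_sfun i j]
    apply integral_congr_ae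
    filter_upwards [(sfun_memLp j).coeFn_toLp] with q hq
    rw [hq, mul_comm]
  have hcomp : (Submodule.span ℝ
      (Set.range (fun i : ℕ × ℕ => ((sfun_memLp i).toLp (sfun i) : KK))))ᗮ = ⊥ := by
    rw [eq_bot_iff]
    intro h hh
    rw [Submodule.mem_orthogonal] at hh
    have h0 : ∀ i : ℕ × ℕ, ∫ q in sq, h q * sfun i q = 0 := by
      intro i
      rw [← hinner]
      exact hh _ (Submodule.subset_span ⟨i, rfl⟩)
    have := sine_complete_2d h (Lp.memLp h) h0
    rw [Submodule.mem_bot]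
    exact Lp.eq_zero_iff_ae_eq_zero.2 this
  refine ⟨HilbertBasis.mkOfOrthogonalEqBot horth hcomp, fun i => ?_⟩
  rw [HilbertBasis.coe_mkOfOrthogonalEqBot]
  exact (sfun_memLp i).coeFn_toLp

end Haraux
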