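import Pool.Agent.Helper27.Har.Base0
import Pool.Agent.Helper27.Har.P_exists_sineBp

set_option autoImplicit false

open MeasureTheory Set Real Filter Topology
open scoped ENNReal NNReal

namespace Haraux

/-- the functions `sfun i` form a Hilbert basis of `L²((0,π)²)` -/
theorem exists_sineB : ∃ b : HilbertBasis (ℕ × ℕ) ℝ KK,
    ∀ i, ((b i : KK) : ℝ × ℝ → ℝ) =ᵐ[volume.restrict sq] sfun i := exists_sineB'

/-- the sine basis -/
noncomputable def sineB : HilbertBasis (ℕ × ℕ) ℝ KK := exists_sineB.choose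

theorem sineB_ae (i : ℕ × ℕ) : ((sineB i : KK) : ℝ × ℝ → ℝ) =ᵐ[volume.restrict sq] sfun i :=
  exists_sineB.choose_spec i

theorem kick_mem (h : KK) : Memℓp (fun i : ℕ × ℕ => Complex.I * ((sineB.repr h i : ℝ) : ℂ)) 2 := by
  have := lp.memℓp (sineB.repr h)
  rw [memℓp_gen_iff (by norm_num)] at this ⊢
  simpa using this

/-- the velocity kick: coordinates `I * h_i` -/
noncomputable def kick (h : KK) : HZ :=
  ⟨fun i => Complex.I * ((sineB.repr h i : ℝ) : ℂ), kick_mem h⟩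

theorem vel_mem (z : HZ) : Memℓp (fun i : ℕ × ℕ => (z i).im) 2 := by
  have := lp.memℓp z
  rw [memℓp_gen_iff (by norm_num)] at this ⊢
  refine Summable.of_nonneg_of_le (fun i => by positivity) (fun i => ?_) this
  gcongr
  exact Complex.abs_im_le_norm (z i)

/-- the velocity of a state: coordinates `Im z_i` -/
noncomputable def vel (z : HZ) : KK :=
  sineB.repr.symm ⟨fun i => (z i).im, vel_mem z⟩

/-- the real inner product of `HZ` (twice the energy product) -/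
noncomputable def rin (z w : HZ) : ℝ := (inner ℂ z w).re

/-- `z` solves `z_i' = - I ω_i z_i - I (N(t, vel z))_i` for every `i` -/
def IsSol (N : ℝ → KK → KK) (z : ℝ → HZ) : Prop :=
  Continuous z ∧ ∀ (t : ℝ) (i : ℕ × ℕ),
    HasDerivAt (fun s => z s i) (-(Complex.I * (om i : ℂ)) * z t i - kick (N t (vel (z t))) i) t

/-- the nonlinearity: truncation at `±1` -/
noncomputable def clip (v : ℝ) : ℝ := max (-1) (min v 1)

theorem clip_lipschitz : LipschitzWith 1 clip := by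
  have h : LipschitzWith 1 (fun v : ℝ => min v 1) := by
    simpa using LipschitzWith.id.min_const (1:ℝ)
  have h2 : LipschitzWith 1 (fun v : ℝ => max (-1) (min v 1)) := h.const_max (-1)
  exact h2

theorem clip_zero : clip 0 = 0 := by simp [clip]

theorem clip_mono : Monotone clip := by
  intro a b h
  unfold clip
  gcongr

/-- `v ↦ clip ∘ v` on `L²` -/
noncomputable def gL (v : KK) : KK := clip_lipschitz.compLp clip_zero v

open Classical in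
/-- the class in `L²((0,π)²)` of a function (zero if it is not square integrable) -/
noncomputable def toK (F : ℝ × ℝ → ℝ) : KK :=
  if h : MemLp F 2 (volume.restrict sq) then h.toLp F else 0

/-- bounded measurable `2π`-periodic functions on the line -/
structure BP (φ : ℝ → ℝ) : Prop where
  meas : Measurable φ
  bdd : ∃ C : ℝ, ∀ x, |φ x| ≤ C
  per : Function.Periodic φ (2 * π)

/-- `Φ` is a bounded, `2π`-periodic, continuous primitive of `φ` -/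
structure IsPrim (φ Φ : ℝ → ℝ) : Prop where
  bp : BP Φ
  cont : Continuous Φ
  prim : ∀ a b : ℝ, ∫ x in a..b, φ x = Φ b - Φ a

/-- a `C²` profile in the variable `y`, vanishing at `0` and `π` -/
structure Prof (ψ ψ1 ψ2 : ℝ → ℝ) : Prop where
  d1 : ∀ y, HasDerivAt ψ (ψ1 y) y
  d2 : ∀ y, HasDerivAt ψ1 (ψ2 y) y
  cont : Continuous ψ2
  zero : ψ 0 = 0
  pi : ψ π = 0

/-- `∫_T φ cos((n+1)(ξ-t)) dξ / (n+1)` -/
noncomputable def Ec (n : ℕ) (t : ℝ) (φ : ℝ → ℝ) : ℝ :=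
  (∫ x in (0:ℝ)..(2 * π), φ x * Real.cos (((n : ℝ) + 1) * (x - t))) / ((n : ℝ) + 1)

/-- `∫_T φ sin((n+1)(ξ-t)) dξ` -/
noncomputable def Vc (n : ℕ) (t : ℝ) (φ : ℝ → ℝ) : ℝ :=
  ∫ x in (0:ℝ)..(2 * π), φ x * Real.sin (((n : ℝ) + 1) * (x - t))

/-- sine coefficients of a profile -/
noncomputable def psc (ψ : ℝ → ℝ) (l : ℕ) : ℝ :=
  (2 / π) * ∫ y in (0:ℝ)..π, ψ y * Real.sin (((l : ℝ) + 1) * y)

open Classical in
/-- the state `(ψ(y)(Φ(t+x) - Φ(t-x)), ψ(y)(φ(t+x)-φ(t-x)))`, `Φ' = φ`, in coordinates -/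
noncomputable def glift (ψ : ℝ → ℝ) (t : ℝ) (φ : ℝ → ℝ) : HZ :=
  if h : Memℓp (fun i : ℕ × ℕ => ((psc ψ i.2 * (om i * Ec i.1 t φ) : ℝ) : ℂ)
      + Complex.I * ((psc ψ i.2 * Vc i.1 t φ : ℝ) : ℂ)) 2
  then ⟨_, h⟩ else 0

/-- the lift with the first mode `sin y` -/
noncomputable def lift (t : ℝ) (φ : ℝ → ℝ) : HZ := glift Real.sin t φ

open Classical in
/-- `(0, Σ_n Ec n t φ · sfun (n,0))` -/
noncomputable def mkick (t : ℝ) (φ : ℝ → ℝ) : HZ :=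
  if h : Memℓp (fun i : ℕ × ℕ => Complex.I * (((if i.2 = 0 then Ec i.1 t φ else 0 : ℝ)) : ℂ)) 2
  then ⟨_, h⟩ else 0

/-! ## Patterns (levels) -/

/-- sign of a Boolean -/
noncomputable def sg (s : Bool) : ℝ := if s then 1 else -1

/-- `ξ` lies in `[z, z+L)` modulo `2π` -/
def zone (z L ξ : ℝ) : Prop := ∃ m : ℤ, ξ - 2 * π * m ∈ Ico z (z + L)

/-- The pattern of one level. `iU true, iU false, iV true, iV false` are the indicators of four
disjoint `2π`-periodic sets `U⁺, U⁻, V⁺, V⁻`, `w` and `x` are the primitives (vanishing off the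
pattern) of `1_{U⁺} - 1_{U⁻}` and of `1_{V⁺} - 1_{V⁻}`. -/
structure LevelProps (z μ ν : ℝ) (n : ℕ) (iU iV : Bool → ℝ → ℝ) (w x : ℝ → ℝ) : Prop where
  bU : ∀ s, BP (iU s)
  bV : ∀ s, BP (iV s)
  zoU : ∀ s ξ, iU s ξ = 0 ∨ iU s ξ = 1
  zoV : ∀ s ξ, iV s ξ = 0 ∨ iV s ξ = 1
  disj : ∀ ξ, iU true ξ + iU false ξ + iV true ξ + iV false ξ ≤ 1
  supp : ∀ ξ, ¬ zone z (n * (8 * μ + 4 * ν)) ξ →
    iU true ξ + iU false ξ + iV true ξ + iV false ξ = 0
  off : ∀ ξ, iU true ξ + iU false ξ + iV true ξ + iV false ξ = 0 → w ξ = 0 ∧ x ξ = 0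
  intU : ∀ s, ∫ ξ in (0:ℝ)..(2 * π), iU s ξ = 4 * μ * n
  intV : ∀ s, ∫ ξ in (0:ℝ)..(2 * π), iV s ξ = 2 * ν * n
  primw : IsPrim (fun ξ => iU true ξ - iU false ξ) w
  primx : IsPrim (fun ξ => iV true ξ - iV false ξ) x
  wle : ∀ ξ, |w ξ| ≤ μ
  xle : ∀ ξ, |x ξ| ≤ ν
  wV : ∀ s ξ, iV s ξ = 1 → w ξ = -(sg s * μ)
  Uw : ∀ s, ∫ ξ in (0:ℝ)..(2 * π), iU s ξ * w ξ = 0
  Ux : ∀ s, ∫ ξ in (0:ℝ)..(2 * π), iU s ξ * x ξ = sg s * (2 * μ * ν * n)
  Vx : ∀ s, ∫ ξ in (0:ℝ)..(2 * π), iV s ξ * x ξ = 0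
  w0 : ∫ ξ in (0:ℝ)..(2 * π), w ξ = 0
  x0 : ∫ ξ in (0:ℝ)..(2 * π), x ξ = 0

/-- auxiliary: a finite pattern on the line, without periodicity; the four integrals with signs
are parameters -/
structure LineProps (z L μ aU aV : ℝ) (bU bV : Bool → ℝ) (c : ℝ) (iU iV : Bool → ℝ → ℝ)
    (w x : ℝ → ℝ) (ν : ℝ) : Prop where
  mU : ∀ s, Measurable (iU s)
  mV : ∀ s, Measurable (iV s)
  zoU : ∀ s ξ, iU s ξ = 0 ∨ iU s ξ = 1
  zoV : ∀ s ξ, iV s ξ = 0 ∨ iV s ξ = 1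
  disj : ∀ ξ, iU true ξ + iU false ξ + iV true ξ + iV false ξ ≤ 1
  supp : ∀ ξ, ξ ∉ Ico z (z + L) → iU true ξ + iU false ξ + iV true ξ + iV false ξ = 0
  off : ∀ ξ, iU true ξ + iU false ξ + iV true ξ + iV false ξ = 0 → w ξ = 0 ∧ x ξ = 0
  intU : ∀ s, ∫ ξ, iU s ξ = aU
  intV : ∀ s, ∫ ξ, iV s ξ = aV
  contw : Continuous w
  contx : Continuous x
  primw : ∀ a b : ℝ, ∫ ξ in a..b, (iU true ξ - iU false ξ) = w b - w a
  primx : ∀ a b : ℝ, ∫ ξ in a..b, (iV true ξ - iV false ξ) = x b - x a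
  wle : ∀ ξ, |w ξ| ≤ μ
  xle : ∀ ξ, |x ξ| ≤ ν
  wV : ∀ s ξ, iV s ξ = 1 → w ξ = -(sg s * μ)
  Uw : ∀ s, ∫ ξ, iU s ξ * w ξ = 0
  Ux : ∀ s, ∫ ξ, iU s ξ * x ξ = bU s
  Vx : ∀ s, ∫ ξ, iV s ξ * x ξ = bV s
  w0 : ∫ ξ, w ξ = 0
  x0 : ∫ ξ, x ξ = c

/-- the profile in `y` with boundary layers of width `d` -/
noncomputable def prof (d y : ℝ) : ℝ := 1 - (max 0 (1 - y / d)) ^ 3 - (max 0 (1 - (π - y) / d)) ^ 3
/-- its derivative -/
noncomputable def prof1 (d y : ℝ) : ℝ :=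
  3 / d * (max 0 (1 - y / d)) ^ 2 - 3 / d * (max 0 (1 - (π - y) / d)) ^ 2
/-- its second derivative -/
noncomputable def prof2 (d y : ℝ) : ℝ :=
  -(6 / d ^ 2 * max 0 (1 - y / d)) - 6 / d ^ 2 * max 0 (1 - (π - y) / d)

/-- all the data of the construction -/
structure World where
  z : ℕ → ℝ
  mu : ℕ → ℝ
  nu : ℕ → ℝ
  n : ℕ → ℕ
  La : ℕ → ℝ
  d : ℕ → ℝ
  ep : ℕ → ℝ
  iU : ℕ → Bool → ℝ → ℝ
  iV : ℕ → Bool → ℝ → ℝ
  w : ℕ → ℝ → ℝ
  x : ℕ → ℝ → ℝ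

namespace World
variable (W : World)

/-- `λ_j = |U_j^±|` -/
noncomputable def lam (j : ℕ) : ℝ := 4 * W.mu j * W.n j
/-- `κ_j = |V_j^±|` -/
noncomputable def kap (j : ℕ) : ℝ := 2 * W.nu j * W.n j
/-- amplitude of the state number `j` -/
noncomputable def al (j : ℕ) : ℝ := 1 / √(2 * W.lam j)
/-- amplitude during the stage `j` on `U_{j+1} ∪ V_j` -/
noncomputable def as (j : ℕ) : ℝ := 1 / √(2 * (W.lam (j + 1) + W.kap j))
/-- angular velocity of the stage `j` -/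
noncomputable def om0 (j : ℕ) : ℝ := W.as j * W.nu j / (4 * W.al j)
/-- size of the correctors -/
noncomputable def mm (j : ℕ) : ℝ := W.al j * W.mu j / 2
/-- bound for the duration of the stage `j` -/
noncomputable def Tm (j : ℕ) : ℝ := π / (2 * W.om0 j)
/-- `1_{U⁺} - 1_{U⁻}` -/
noncomputable def u (j : ℕ) (ξ : ℝ) : ℝ := W.iU j true ξ - W.iU j false ξ
/-- `1_{V⁺} - 1_{V⁻}` -/
noncomputable def v (j : ℕ) (ξ : ℝ) : ℝ := W.iV j true ξ - W.iV j false ξ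
/-- profile of the forcing solution at level `j` -/
noncomputable def bl (j : ℕ) (ξ : ℝ) : ℝ := W.La j * W.u j ξ + (W.La (j + 1) - 1) * W.v j ξ
/-- its primitive -/
noncomputable def Bl (j : ℕ) (ξ : ℝ) : ℝ := W.La j * W.w j ξ + (W.La (j + 1) - 1) * W.x j ξ

/-- coordinates of the `j`-th part of the particular solution -/
noncomputable def zpj (j : ℕ) (t : ℝ) : HZ := glift (prof (W.d j)) t (W.bl j)
/-- the `j`-th part of the forcing (linear part) -/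
noncomputable def hj (j : ℕ) (t : ℝ) : KK :=
  toK (fun q => -prof2 (W.d j) q.2 * (W.Bl j (t + q.1) - W.Bl j (t - q.1)))
/-- the particular periodic solution -/
noncomputable def zp (t : ℝ) : HZ := ∑' j, W.zpj j t
/-- the linear part of the forcing -/
noncomputable def hp (t : ℝ) : KK := ∑' j, W.hj j t
/-- the forcing term -/
noncomputable def f (t : ℝ) : KK := W.hp t + gL (vel (W.zp t))
/-- the nonlinearity of the abstract equation -/
noncomputable def NN (t : ℝ) (v : KK) : KK := gL v - W.f t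

/-- numerical conditions on the data -/
structure RegN : Prop where
  mu_pos : ∀ j, 0 < W.mu j
  nu_pos : ∀ j, 0 < W.nu j
  n_pos : ∀ j, 1 ≤ W.n j
  z0 : ∀ j, 0 ≤ W.z j
  z1 : ∀ j, W.z j + W.n j * (8 * W.mu j + 4 * W.nu j) ≤ W.z (j + 1)
  z2 : ∀ j, W.z j ≤ 2 * π
  d_pos : ∀ j, 0 < W.d j
  d_le : ∀ j, W.d j ≤ 1
  d_anti : Antitone W.d
  ep_pos : ∀ j, 0 < W.ep j
  ep_le : ∀ j, W.ep j ≤ 1 / 1000
  ep_anti : Antitone W.ep
  La0 : 1 ≤ W.La 0
  La1 : ∀ j, W.La j + 2 + W.al j / W.ep j ≤ W.La (j + 1)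
  summ : Summable (fun j => W.La j * √(W.lam j) + W.La (j + 1) * √(W.kap j)
    + W.La (j + 1) * (W.mu j + W.nu j) / (W.d j) ^ 2)

/-- general conditions on the data: numerical conditions, and the functions are the patterns -/
structure Reg : Prop where
  num : W.RegN
  lev : ∀ j, LevelProps (W.z j) (W.mu j) (W.nu j) (W.n j) (W.iU j) (W.iV j) (W.w j) (W.x j)

/-- smallness conditions for the stage `k` -/
structure Small (k : ℕ) : Prop where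
  c1 : W.kap k ≤ (W.ep k) ^ 2 * W.lam (k + 1)
  c2 : W.lam (k + 1) ≤ W.lam k
  c3 : W.lam k ≤ 1
  c4 : W.as k * W.nu k ≤ W.ep k / 2 * (W.al k * W.mu k) * (W.lam (k + 1) / (W.lam (k + 1) + W.kap k))
  c5 : 2 * π * W.om0 k ≤ W.ep k
  c6 : W.mm k ≤ W.ep k / 100
  c7 : 36 * W.mm k / W.lam (k + 1) ≤ W.ep k
  c8 : W.Tm k * (W.as k) ^ 2 * (W.d k) ^ 3 ≤ (W.ep k) ^ 2 / 100
  c9 : W.Tm k * (W.mm k) ^ 2 / (W.lam (k + 1)) ^ 2 ≤ (W.ep k) ^ 2 / 20000
  c10 : W.Tm k * W.mm k * √(W.d k) / W.lam (k + 1) ≤ W.ep k / 200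
  c11 : W.Tm k * W.mm k * W.lam k ≤ W.ep k / 200
  c12 : W.Tm k * W.as k * W.mu (k + 1) ≤ W.ep k / 20

/-! ### the pseudo-orbit of stage `k` -/

/-- leading order forces, cosine part -/
noncomputable def r1 (k : ℕ) (ξ : ℝ) : ℝ := -(W.om0 k * W.as k) * W.v k ξ - W.al k / 2 * W.w k ξ
/-- leading order forces, sine part -/
noncomputable def r2 (k : ℕ) (ξ : ℝ) : ℝ := W.om0 k * W.al k * W.u k ξ - W.as k / 2 * W.x k ξ
/-- values on `U_{k+1}^s` of the cosine part -/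
noncomputable def q1 (k : ℕ) (s : Bool) : ℝ := -(W.om0 k * W.as k) * sg s

/-- periodic primitive of `1/2 - (π/λ_j) 1_{U_j^s}` -/
noncomputable def Ph (j : ℕ) (s : Bool) (η : ℝ) : ℝ :=
  ∫ y in (0:ℝ)..η, (1 / 2 - π / W.lam j * W.iU j s y)
/-- periodic primitive of `1_{U_k^s} r` -/
noncomputable def Ps (k : ℕ) (r : ℝ → ℝ) (s : Bool) (η : ℝ) : ℝ :=
  ∫ y in (0:ℝ)..η, W.iU k s y * r y
/-- periodic primitive of `q/2 + (π/λ_{k+1}) 1_{V_k^s} r` -/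
noncomputable def Xi (k : ℕ) (r : ℝ → ℝ) (q : Bool → ℝ) (s : Bool) (η : ℝ) : ℝ :=
  ∫ y in (0:ℝ)..η, (q s / 2 + π / W.lam (k + 1) * (W.iV k s y * r y))
/-- the corrector -/
noncomputable def cc (k : ℕ) (r : ℝ → ℝ) (q : Bool → ℝ) (ξ η : ℝ) : ℝ :=
  ∑ s : Bool, (W.iU k s ξ * (r ξ * W.Ph k s η + π / W.lam k * W.Ps k r s η)
    + W.iV k s ξ * (r ξ * W.Ph (k + 1) s η) + W.iU (k + 1) s ξ * W.Xi k r q s η)
/-- the constraint force -/
noncomputable def Gg (k : ℕ) (r : ℝ → ℝ) (ξ η : ℝ) : ℝ :=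
  ∑ s : Bool, (4 * π / W.lam k * (W.iU k s ξ * W.iU k s η * (r ξ - r η))
    + 4 * π / W.lam (k + 1) * (W.iV k s ξ * W.iU (k + 1) s η * r ξ
      - W.iU (k + 1) s ξ * W.iV k s η * r η))
/-- primitive of `w k` -/
noncomputable def w2 (k : ℕ) (η : ℝ) : ℝ := ∫ y in (0:ℝ)..η, W.w k y
/-- primitive of `x k` -/
noncomputable def x2 (k : ℕ) (η : ℝ) : ℝ := ∫ y in (0:ℝ)..η, W.x k y

/-- corrector, cosine part -/
noncomputable def K1 (k : ℕ) (ξ η : ℝ) : ℝ :=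
  W.cc k (W.r1 k) (W.q1 k) ξ η + W.al k / 4 * W.w2 k η
/-- corrector, sine part -/
noncomputable def K2 (k : ℕ) (ξ η : ℝ) : ℝ :=
  W.cc k (W.r2 k) (fun _ => 0) ξ η + W.as k / 4 * W.x2 k η

/-- leading part of the pseudo-orbit -/
noncomputable def B0 (k : ℕ) (t ξ : ℝ) : ℝ :=
  Real.cos (W.om0 k * t) * (W.al k * W.u k ξ)
    + Real.sin (W.om0 k * t) * (W.as k * (W.u (k + 1) ξ + W.v k ξ))
/-- corrector of the pseudo-orbit -/
noncomputable def Co (k : ℕ) (t ξ : ℝ) : ℝ :=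
  Real.cos (W.om0 k * t) * W.K1 k ξ (2 * t - ξ) + Real.sin (W.om0 k * t) * W.K2 k ξ (2 * t - ξ)
/-- the pseudo-orbit -/
noncomputable def Bt (k : ℕ) (t ξ : ℝ) : ℝ := W.B0 k t ξ + W.Co k t ξ
/-- primitive of the part of `B0` at level `k` -/
noncomputable def Ff (k : ℕ) (t ξ : ℝ) : ℝ :=
  Real.cos (W.om0 k * t) * (W.al k * W.w k ξ) + Real.sin (W.om0 k * t) * (W.as k * W.x k ξ)
/-- the constraint force along the pseudo-orbit -/
noncomputable def Gh (k : ℕ) (t ξ η : ℝ) : ℝ :=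
  Real.cos (W.om0 k * t) * W.Gg k (W.r1 k) ξ η + Real.sin (W.om0 k * t) * W.Gg k (W.r2 k) ξ η
/-- the small part of the time derivative (divided by `ω`) -/
noncomputable def Rs (k : ℕ) (t ξ : ℝ) : ℝ :=
  -Real.sin (W.om0 k * t) * W.K1 k ξ (2 * t - ξ) + Real.cos (W.om0 k * t) * W.K2 k ξ (2 * t - ξ)
/-- the time derivative of the pseudo-orbit -/
noncomputable def Dt (k : ℕ) (t ξ : ℝ) : ℝ :=
  -(1 / 2) * (W.Ff k t ξ - W.Ff k t (2 * t - ξ)) - 1 / 2 * W.Gh k t ξ (2 * t - ξ)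
    + W.om0 k * W.Rs k t ξ

/-- velocity field of the pseudo-orbit -/
noncomputable def fB (k : ℕ) (t : ℝ) : KK :=
  toK (fun q => (W.Bt k t (t + q.1) - W.Bt k t (t - q.1)) * Real.sin q.2)
/-- constraint force field -/
noncomputable def fG (k : ℕ) (t : ℝ) : KK :=
  toK (fun q => W.Gh k t (t + q.1) (t - q.1) * Real.sin q.2)
/-- the field created by the fine pattern of `U_{k+1}` -/
noncomputable def fW (k : ℕ) (t : ℝ) : KK :=
  toK (fun q => W.as k * Real.sin (W.om0 k * t) * (W.w (k + 1) (t + q.1) - W.w (k + 1) (t - q.1))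
    * Real.sin q.2)

end World

end Haraux
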