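import Pool.Agent.Helper27.Har.Defs

set_option autoImplicit false

open MeasureTheory Set Real Filter Topology
open scoped ENNReal NNReal

namespace Haraux

/-! ## Internal definitions: the square, the sine basis, the space `HZ` of coordinates -/

/-- the open square `(0,π)²` -/
abbrev sq : Set (ℝ × ℝ) := Ioo 0 π ×ˢ Ioo 0 π

/-- `L²((0,π)²)` -/
noncomputable abbrev KK := L2 sq

/-- coordinates of a state: `z_i = ω_i u_i + I v_i` -/
noncomputable abbrev HZ := lp (fun _ : ℕ × ℕ => ℂ) 2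

/-- frequencies -/
noncomputable def om (i : ℕ × ℕ) : ℝ := √(((i.1 : ℝ) + 1) ^ 2 + ((i.2 : ℝ) + 1) ^ 2)

/-- the normalized eigenfunctions -/
noncomputable def sfun (i : ℕ × ℕ) (q : ℝ × ℝ) : ℝ :=
  (2 / π) * (Real.sin (((i.1 : ℝ) + 1) * q.1) * Real.sin (((i.2 : ℝ) + 1) * q.2))

end Haraux
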