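import Mathlib

set_option autoImplicit false

open MeasureTheory Set Real Filter Topology
open scoped ENNReal NNReal

namespace Haraux

/-! ## Definitions used in the final statement -/

/-- `L²(Ω)` for a subset `Ω` of the plane, with Lebesgue measure. -/
noncomputable abbrev L2 (Ω : Set (ℝ × ℝ)) := Lp ℝ 2 (volume.restrict Ω)

/-- Test functions on `Ω`: smooth, with compact support contained in `Ω`. -/
def IsTest (Ω : Set (ℝ × ℝ)) (φ : ℝ × ℝ → ℝ) : Prop :=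
  ContDiff ℝ (⊤ : ℕ∞) φ ∧ HasCompactSupport φ ∧ tsupport φ ⊆ Ω

/-- first partial derivative -/
noncomputable def pdx (φ : ℝ × ℝ → ℝ) (q : ℝ × ℝ) : ℝ := fderiv ℝ φ q (1, 0)

/-- second partial derivative -/
noncomputable def pdy (φ : ℝ × ℝ → ℝ) (q : ℝ × ℝ) : ℝ := fderiv ℝ φ q (0, 1)

/-- `H¹₀(Ω)`: the closure, in the norm of `u ↦ (u, ∂ₓu, ∂_y u)` in `L²(Ω)³`, of the set of test
functions on `Ω`. -/
def H10 (Ω : Set (ℝ × ℝ)) : Set (L2 Ω × L2 Ω × L2 Ω) :=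
  closure {w | ∃ φ : ℝ × ℝ → ℝ, IsTest Ω φ ∧ w.1 =ᵐ[volume.restrict Ω] φ ∧
    w.2.1 =ᵐ[volume.restrict Ω] pdx φ ∧ w.2.2 =ᵐ[volume.restrict Ω] pdy φ}

/-- `U t = (u, ∂ₓu, ∂_y u, ∂ₜu)` is, for `t ≥ 0`, a solution in the energy space of
`∂ₜ²u - Δu + g(∂ₜu) = f(t)` on `Ω`, `u = 0` on `∂Ω`. -/
structure IsSolution (Ω : Set (ℝ × ℝ)) (g : ℝ → ℝ) (f : ℝ → L2 Ω)
    (U : ℝ → L2 Ω × L2 Ω × L2 Ω × L2 Ω) : Prop where
  cont : ContinuousOn U (Ici 0)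
  mem : ∀ t : ℝ, 0 ≤ t → ((U t).1, (U t).2.1, (U t).2.2.1) ∈ H10 Ω
  deriv : ∀ t : ℝ, 0 ≤ t → HasDerivWithinAt (fun s => (U s).1) (U t).2.2.2 (Ici 0) t
  weak : ∀ φ : ℝ × ℝ → ℝ, IsTest Ω φ → ∀ t : ℝ, 0 ≤ t →
    HasDerivWithinAt (fun s => ∫ q in Ω, (U s).2.2.2 q * φ q)
      (-(∫ q in Ω, ((U t).2.1 q * pdx φ q + (U t).2.2.1 q * pdy φ q))
        - (∫ q in Ω, g ((U t).2.2.2 q) * φ q) + (∫ q in Ω, f t q * φ q)) (Ici 0) t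

end Haraux
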