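import Pool.Agent.Helper27.Har.Base

set_option autoImplicit false

open MeasureTheory Set Real Filter Topology
open scoped ENNReal NNReal

namespace Haraux



/-- primitives of bounded periodic functions of mean zero -/
theorem prim_facts (f : ℝ → ℝ) (hf : BP f) (C : ℝ) (hC : ∀ x, |f x| ≤ C)
    (h0 : ∫ x in (0:ℝ)..(2 * π), f x = 0) :
    IsPrim f (fun η => ∫ y in (0:ℝ)..η, f y) ∧
    (∀ a b, |(∫ y in (0:ℝ)..a, f y) - (∫ y in (0:ℝ)..b, f y)| ≤ C * |a - b|) ∧
    (∀ η, |∫ y in (0:ℝ)..η, f y| ≤ ∫ y in (0:ℝ)..(2 * π), |f y|) ∧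
    (∀ᵐ η : ℝ, HasDerivAt (fun η => ∫ y in (0:ℝ)..η, f y) (f η) η) := by
  have hloc : LocallyIntegrable f volume :=
    (locallyIntegrable_const C).mono hf.meas.aestronglyMeasurable
      (Eventually.of_forall fun x => by
        rw [Real.norm_eq_abs, Real.norm_eq_abs]
        exact (hC x).trans (le_abs_self C))
  have hii : ∀ a b, IntervalIntegrable f volume a b := fun a b =>
    intervalIntegrable_iff.mpr ((hloc.integrableOn_isCompact isCompact_uIcc).mono_set
      uIoc_subset_uIcc)
  have hcont : Continuous (fun η => ∫ y in (0:ℝ)..η, f y) :=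
    intervalIntegral.continuous_primitive hii 0
  have hper : Function.Periodic (fun η => ∫ y in (0:ℝ)..η, f y) (2 * π) := by
    intro η
    change ∫ y in (0:ℝ)..(η + 2 * π), f y = ∫ y in (0:ℝ)..η, f y
    rw [← intervalIntegral.integral_add_adjacent_intervals (hii 0 η) (hii η (η + 2 * π)),
      hf.per.intervalIntegral_add_eq η 0, zero_add, h0, add_zero]
  have hbd : ∀ η, |∫ y in (0:ℝ)..η, f y| ≤ ∫ y in (0:ℝ)..(2 * π), |f y| := by
    intro η
    obtain ⟨y, hy, hy'⟩ := hper.exists_mem_Ico₀ (by positivity) η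
    change ∫ y in (0:ℝ)..η, f y = ∫ z in (0:ℝ)..y, f z at hy'
    rw [hy']
    refine (intervalIntegral.abs_integral_le_integral_abs hy.1).trans ?_
    refine intervalIntegral.integral_mono_interval le_rfl hy.1 hy.2.le
      (Eventually.of_forall fun x => abs_nonneg _) (hii 0 (2 * π)).abs
  refine ⟨⟨⟨hcont.measurable, ⟨_, hbd⟩, hper⟩, hcont, ?_⟩, ?_, hbd, ?_⟩
  · intro a b
    exact (intervalIntegral.integral_interval_sub_left (hii 0 b) (hii 0 a)).symm
  · intro a b
    rw [intervalIntegral.integral_interval_sub_left (hii 0 a) (hii 0 b)]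
    have := intervalIntegral.norm_integral_le_of_norm_le_const (a := b) (b := a) (f := f)
      (C := C) fun x _ => by
        rw [Real.norm_eq_abs]
        exact hC x
    rwa [Real.norm_eq_abs] at this
  · filter_upwards [LocallyIntegrable.ae_hasDerivAt_integral hloc] with x hx
    exact hx 0

end Haraux
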