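import Pool.Agent.Helper27.Har.Base

set_option autoImplicit false

open MeasureTheory Set Real Filter Topology
open scoped ENNReal NNReal

namespace Haraux



/-- elementary consequences of the numerical conditions -/
theorem world_basic (W : World) (h : W.RegN) :
    (∀ j, 0 < W.lam j) ∧ (∀ j, 0 < W.kap j) ∧ (∀ j, 0 < W.al j) ∧ (∀ j, 0 < W.as j) ∧
    (∀ j, 0 < W.om0 j) ∧ (∀ j, 0 < W.mm j) ∧ (∀ j, 0 < W.Tm j) ∧
    (∀ j, W.lam j * W.nu j = 2 * W.mu j * W.kap j) ∧
    (∀ j, (W.al j) ^ 2 * W.lam j = 1 / 2) ∧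
    (∀ j, (W.as j) ^ 2 * (W.lam (j + 1) + W.kap j) = 1 / 2) ∧
    (∀ j, W.om0 j * W.al j = W.as j * W.nu j / 4) ∧
    (∀ j, W.om0 j * W.as j * (W.lam (j + 1) + W.kap j) = W.mm j * W.kap j) ∧
    (∀ j, W.as j ≤ W.al (j + 1)) ∧
    (∀ j, W.La j + 2 ≤ W.La (j + 1)) ∧ (∀ j, 1 ≤ W.La j) ∧
    (∀ i j, i ≤ j → W.La i ≤ W.La j) := by
  have hn : ∀ j, (0 : ℝ) < W.n j := fun j => by
    have := h.n_pos j
    exact_mod_cast lt_of_lt_of_le Nat.zero_lt_one this
  have hmu := h.mu_pos
  have hnu := h.nu_pos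
  have hlam : ∀ j, 0 < W.lam j := fun j => by
    have h1 := hmu j
    have h2 := hn j
    unfold World.lam
    positivity
  have hkap : ∀ j, 0 < W.kap j := fun j => by
    have h1 := hnu j
    have h2 := hn j
    unfold World.kap
    positivity
  have hal : ∀ j, 0 < W.al j := fun j => by
    have h1 := hlam j
    unfold World.al
    positivity
  have has : ∀ j, 0 < W.as j := fun j => by
    have h1 := hlam (j + 1)
    have h2 := hkap j
    unfold World.as
    positivity
  have hom : ∀ j, 0 < W.om0 j := fun j => by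
    have h1 := hal j
    have h2 := has j
    have h3 := hnu j
    unfold World.om0
    positivity
  have hmm : ∀ j, 0 < W.mm j := fun j => by
    have h1 := hal j
    have h3 := hmu j
    unfold World.mm
    positivity
  have hTm : ∀ j, 0 < W.Tm j := fun j => by
    have h1 := hom j
    unfold World.Tm
    positivity
  have h8 : ∀ j, W.lam j * W.nu j = 2 * W.mu j * W.kap j := fun j => by
    unfold World.lam World.kap
    ring
  have hsq : ∀ x : ℝ, 0 < x → (1 / √(2 * x)) ^ 2 * x = 1 / 2 := fun x hx => by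
    rw [div_pow, Real.sq_sqrt (by positivity)]
    field_simp
  have h9 : ∀ j, (W.al j) ^ 2 * W.lam j = 1 / 2 := fun j => hsq _ (hlam j)
  have h10 : ∀ j, (W.as j) ^ 2 * (W.lam (j + 1) + W.kap j) = 1 / 2 := fun j =>
    hsq _ (add_pos (hlam (j + 1)) (hkap j))
  have h11 : ∀ j, W.om0 j * W.al j = W.as j * W.nu j / 4 := fun j => by
    have h1 := (hal j).ne'
    unfold World.om0
    field_simp
  have h12 : ∀ j, W.om0 j * W.as j * (W.lam (j + 1) + W.kap j) = W.mm j * W.kap j := fun j => by
    have h1 := (hal j).ne'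
    have e1 : W.om0 j * W.as j * (W.lam (j + 1) + W.kap j) * W.al j =
        W.mm j * W.kap j * W.al j := by
      have e2 : W.om0 j * W.as j * (W.lam (j + 1) + W.kap j) * W.al j =
          (W.om0 j * W.al j) * W.as j * (W.lam (j + 1) + W.kap j) := by ring
      have e3 : W.mm j * W.kap j * W.al j = (W.al j) ^ 2 * (2 * W.mu j * W.kap j) / 4 := by
        unfold World.mm
        ring
      rw [e2, h11, e3, ← h8 j]
      have e4 : W.as j * W.nu j / 4 * W.as j * (W.lam (j + 1) + W.kap j) =
          W.nu j / 4 * ((W.as j) ^ 2 * (W.lam (j + 1) + W.kap j)) := by ring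
      have e5 : (W.al j) ^ 2 * (W.lam j * W.nu j) / 4 =
          W.nu j / 4 * ((W.al j) ^ 2 * W.lam j) := by ring
      rw [e4, e5, h9, h10]
    exact mul_right_cancel₀ h1 e1
  have h13 : ∀ j, W.as j ≤ W.al (j + 1) := fun j => by
    have h1 := hlam (j + 1)
    have h2 := hkap j
    unfold World.as World.al
    apply one_div_le_one_div_of_le (by positivity)
    apply Real.sqrt_le_sqrt
    linarith
  have h14 : ∀ j, W.La j + 2 ≤ W.La (j + 1) := fun j => by
    have h1 := h.La1 j
    have h2 : 0 < W.al j / W.ep j := div_pos (hal j) (h.ep_pos j)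
    linarith
  have h16 : Monotone W.La := monotone_nat_of_le_succ (fun j => by linarith [h14 j])
  have h15 : ∀ j, 1 ≤ W.La j := fun j => h.La0.trans (h16 (Nat.zero_le j))
  exact ⟨hlam, hkap, hal, has, hom, hmm, hTm, h8, h9, h10, h11, h12, h13, h14, h15,
    fun i j hij => h16 hij⟩

end Haraux
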