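import Pool.Agent.Helper27.Har.Base
import Pool.Agent.Helper27.Har.P_world_basic
import Pool.Agent.Helper27.Har.P_prim_facts

set_option autoImplicit false

open MeasureTheory Set Real Filter Topology
open scoped ENNReal NNReal

namespace Haraux



private theorem Ph_facts_int {φ : ℝ → ℝ} (hφ : BP φ) (a b : ℝ) : IntervalIntegrable φ volume a b := by
  obtain ⟨C, hC⟩ := hφ.bdd
  rw [intervalIntegrable_iff]
  have : IsFiniteMeasure (volume.restrict (Set.uIoc a b)) := by
    refine ⟨?_⟩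
    rw [Measure.restrict_apply_univ, Set.uIoc]
    exact measure_Ioc_lt_top
  exact Integrable.of_bound hφ.meas.aestronglyMeasurable C
    (Filter.Eventually.of_forall fun x => by rw [Real.norm_eq_abs]; exact hC x)

/-- the primitive `Ph` -/
theorem Ph_facts (W : World) (h : W.Reg) (j : ℕ) (s : Bool) :
    Function.Periodic (W.Ph j s) (2 * π) ∧ Continuous (W.Ph j s) ∧ (∀ η, |W.Ph j s η| ≤ π) ∧
    (∃ L, ∀ a b, |W.Ph j s a - W.Ph j s b| ≤ L * |a - b|) ∧
    (∀ᵐ η : ℝ, HasDerivAt (W.Ph j s) (1 / 2 - π / W.lam j * W.iU j s η) η) := by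
  have hlam : 0 < W.lam j := (world_basic W h.num).1 j
  have hL := h.lev j
  have hU := hL.bU s
  have hU01 : ∀ ξ, 0 ≤ W.iU j s ξ ∧ W.iU j s ξ ≤ 1 := by
    intro ξ
    rcases hL.zoU s ξ with h1 | h1 <;> rw [h1] <;> norm_num
  have hf : BP (fun y => 1 / 2 - π / W.lam j * W.iU j s y) := by
    refine ⟨?_, ⟨1 / 2 + π / W.lam j, fun x => ?_⟩, fun x => ?_⟩
    · exact (hU.meas.const_mul _).const_sub _
    · have h1 := hU01 x
      have h2 : 0 ≤ π / W.lam j := by positivity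
      rw [abs_le]
      constructor <;> nlinarith [mul_nonneg h2 h1.1, mul_le_mul_of_nonneg_left h1.2 h2]
    · show 1 / 2 - π / W.lam j * W.iU j s (x + 2 * π) = _
      rw [hU.per x]
  have hintU : ∫ ξ in (0:ℝ)..(2 * π), W.iU j s ξ = W.lam j := by
    rw [hL.intU s]
    rfl
  have hPh : ∀ η, ∫ y in (0:ℝ)..η, (1 / 2 - π / W.lam j * W.iU j s y) =
      η / 2 - π / W.lam j * ∫ y in (0:ℝ)..η, W.iU j s y := by
    intro η
    rw [intervalIntegral.integral_sub (by simp)
      ((Ph_facts_int hU 0 η).const_mul _), intervalIntegral.integral_const,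
      intervalIntegral.integral_const_mul]
    simp only [smul_eq_mul]
    ring
  have h0 : ∫ y in (0:ℝ)..(2 * π), (1 / 2 - π / W.lam j * W.iU j s y) = 0 := by
    rw [hPh, hintU]
    field_simp
    ring
  obtain ⟨C, hC⟩ := hf.bdd
  obtain ⟨h1, h2, _, h4⟩ := prim_facts _ hf C hC h0
  have hPheq : W.Ph j s = fun η => ∫ y in (0:ℝ)..η, (1 / 2 - π / W.lam j * W.iU j s y) := rfl
  rw [hPheq]
  refine ⟨h1.bp.per, h1.cont, ?_, ⟨C, h2⟩, h4⟩
  intro η
  obtain ⟨y, hy, hηy⟩ := h1.bp.per.exists_mem_Ico₀ (by positivity) η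
  have hηy' : (∫ y in (0:ℝ)..η, (1 / 2 - π / W.lam j * W.iU j s y)) =
      ∫ y in (0:ℝ)..y, (1 / 2 - π / W.lam j * W.iU j s y) := hηy
  beta_reduce
  rw [hηy', hPh]
  have e1 : 0 ≤ ∫ z in (0:ℝ)..y, W.iU j s z :=
    intervalIntegral.integral_nonneg hy.1 fun z _ => (hU01 z).1
  have e2 : ∫ z in (0:ℝ)..y, W.iU j s z ≤ W.lam j := by
    rw [← hintU]
    have e3 := intervalIntegral.integral_add_adjacent_intervals (Ph_facts_int hU 0 y)
      (Ph_facts_int hU y (2 * π))
    have e4 : 0 ≤ ∫ z in y..(2 * π), W.iU j s z :=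
      intervalIntegral.integral_nonneg hy.2.le fun z _ => (hU01 z).1
    linarith
  have e5 : 0 ≤ π / W.lam j * ∫ z in (0:ℝ)..y, W.iU j s z := by positivity
  have e6 : π / W.lam j * ∫ z in (0:ℝ)..y, W.iU j s z ≤ π := by
    calc π / W.lam j * ∫ z in (0:ℝ)..y, W.iU j s z ≤ π / W.lam j * W.lam j :=
          mul_le_mul_of_nonneg_left e2 (by positivity)
      _ = π := by field_simp
  have e7 := hy.1
  have e8 := hy.2
  rw [abs_le]
  constructor <;> linarith

end Haraux
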