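import Pool.Agent.Helper27.Har.Base
import Pool.Agent.Helper27.Har.P_world_basic

set_option autoImplicit false

open MeasureTheory Set Real Filter Topology
open scoped ENNReal NNReal

namespace Haraux



private theorem lf_lin {φ ψ : ℝ → ℝ} (hφ : BP φ) (hψ : BP ψ) (a b : ℝ) :
    BP (fun x => a * φ x + b * ψ x) := by
  obtain ⟨C, hC⟩ := hφ.bdd
  obtain ⟨D, hD⟩ := hψ.bdd
  refine ⟨(hφ.meas.const_mul a).add (hψ.meas.const_mul b), ⟨|a| * C + |b| * D, fun x => ?_⟩,
    fun x => ?_⟩
  · refine (abs_add_le _ _).trans (add_le_add ?_ ?_)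
    · rw [abs_mul]
      exact mul_le_mul_of_nonneg_left (hC x) (abs_nonneg a)
    · rw [abs_mul]
      exact mul_le_mul_of_nonneg_left (hD x) (abs_nonneg b)
  · simp only [hφ.per x, hψ.per x]

private theorem lf_ii {φ : ℝ → ℝ} (h : BP φ) (a b : ℝ) : IntervalIntegrable φ volume a b := by
  obtain ⟨C, hC⟩ := h.bdd
  refine IntervalIntegrable.mono_fun' (g := fun _ => C) intervalIntegrable_const
    h.meas.aestronglyMeasurable (ae_of_all _ fun x => ?_)
  exact hC x

/-- facts about the level functions -/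
theorem level_facts (W : World) (h : W.Reg) (j : ℕ) :
    BP (W.u j) ∧ BP (W.v j) ∧ BP (W.bl j) ∧ IsPrim (W.u j) (W.w j) ∧ IsPrim (W.v j) (W.x j) ∧
    IsPrim (W.bl j) (W.Bl j) ∧
    (∫ ξ in (0:ℝ)..(2 * π), (W.bl j ξ) ^ 2)
      = 2 * ((W.La j) ^ 2 * W.lam j + (W.La (j + 1) - 1) ^ 2 * W.kap j) ∧
    (∀ ξ, |W.Bl j ξ| ≤ W.La (j + 1) * (W.mu j + W.nu j)) ∧
    (∀ ξ, W.bl j ξ ≠ 0 → zone (W.z j) (W.n j * (8 * W.mu j + 4 * W.nu j)) ξ) := by
  obtain ⟨-, -, -, -, -, -, -, -, -, -, -, -, -, hLa1, hLa2, -⟩ := world_basic W h.num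
  have hmu := h.num.mu_pos j
  have hnu := h.num.nu_pos j
  have hl := h.lev j
  have hu : BP (W.u j) := by
    have e : W.u j = fun ξ => 1 * W.iU j true ξ + (-1) * W.iU j false ξ := by
      funext ξ
      unfold World.u
      ring
    rw [e]
    exact lf_lin (hl.bU true) (hl.bU false) _ _
  have hv : BP (W.v j) := by
    have e : W.v j = fun ξ => 1 * W.iV j true ξ + (-1) * W.iV j false ξ := by
      funext ξ
      unfold World.v
      ring
    rw [e]
    exact lf_lin (hl.bV true) (hl.bV false) _ _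
  have hbl : BP (W.bl j) := lf_lin hu hv _ _
  have hpu : IsPrim (W.u j) (W.w j) := hl.primw
  have hpv : IsPrim (W.v j) (W.x j) := hl.primx
  have hBl : IsPrim (W.bl j) (W.Bl j) := by
    refine ⟨lf_lin hpu.bp hpv.bp _ _, (hpu.cont.const_mul _).add (hpv.cont.const_mul _),
      fun a b => ?_⟩
    have e : ∫ x in a..b, W.bl j x =
        ∫ x in a..b, (W.La j * W.u j x + (W.La (j + 1) - 1) * W.v j x) := rfl
    rw [e, intervalIntegral.integral_add ((lf_ii hu a b).const_mul _)
      ((lf_ii hv a b).const_mul _), intervalIntegral.integral_const_mul,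
      intervalIntegral.integral_const_mul, hpu.prim, hpv.prim]
    unfold World.Bl
    ring
  have hsq : ∀ ξ, (W.bl j ξ) ^ 2 = (W.La j) ^ 2 * (W.iU j true ξ + W.iU j false ξ) +
      (W.La (j + 1) - 1) ^ 2 * (W.iV j true ξ + W.iV j false ξ) := by
    intro ξ
    have hd := hl.disj ξ
    unfold World.bl World.u World.v
    rcases hl.zoU true ξ with h1 | h1 <;> rcases hl.zoU false ξ with h2 | h2 <;>
      rcases hl.zoV true ξ with h3 | h3 <;> rcases hl.zoV false ξ with h4 | h4 <;>
      rw [h1, h2, h3, h4] at hd ⊢ <;> first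
        | (exfalso; norm_num at hd; done)
        | ring
  refine ⟨hu, hv, hbl, hpu, hpv, hBl, ?_, ?_, ?_⟩
  · have e : ∫ ξ in (0:ℝ)..(2 * π), (W.bl j ξ) ^ 2 =
        ∫ ξ in (0:ℝ)..(2 * π), ((W.La j) ^ 2 * (W.iU j true ξ + W.iU j false ξ) +
      (W.La (j + 1) - 1) ^ 2 * (W.iV j true ξ + W.iV j false ξ)) := by
      congr 1
      funext ξ
      exact hsq ξ
    have iU := fun s => lf_ii (hl.bU s) 0 (2 * π)
    have iV := fun s => lf_ii (hl.bV s) 0 (2 * π)
    rw [e, intervalIntegral.integral_add (((iU true).add (iU false)).const_mul _)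
      (((iV true).add (iV false)).const_mul _), intervalIntegral.integral_const_mul,
      intervalIntegral.integral_const_mul, intervalIntegral.integral_add (iU true) (iU false),
      intervalIntegral.integral_add (iV true) (iV false), hl.intU, hl.intU, hl.intV, hl.intV]
    unfold World.lam World.kap
    ring
  · intro ξ
    have a1 := hLa1 j
    have a2 := hLa2 j
    unfold World.Bl
    calc |W.La j * W.w j ξ + (W.La (j + 1) - 1) * W.x j ξ| ≤
          |W.La j * W.w j ξ| + |(W.La (j + 1) - 1) * W.x j ξ| := abs_add_le _ _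
      _ = W.La j * |W.w j ξ| + (W.La (j + 1) - 1) * |W.x j ξ| := by
          rw [abs_mul, abs_mul, abs_of_nonneg (by linarith : (0:ℝ) ≤ W.La j),
            abs_of_nonneg (by linarith : (0:ℝ) ≤ W.La (j + 1) - 1)]
      _ ≤ W.La (j + 1) * W.mu j + W.La (j + 1) * W.nu j := by
          refine add_le_add ?_ ?_
          · exact mul_le_mul (by linarith) (hl.wle ξ) (abs_nonneg _) (by linarith)
          · exact mul_le_mul (by linarith) (hl.xle ξ) (abs_nonneg _) (by linarith)
      _ = W.La (j + 1) * (W.mu j + W.nu j) := by ring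
  · intro ξ hξ
    by_contra hz
    apply hξ
    have hs := hl.supp ξ hz
    have hsq' := hsq ξ
    have hU : W.iU j true ξ + W.iU j false ξ = 0 := by
      rcases hl.zoU true ξ with h1 | h1 <;> rcases hl.zoU false ξ with h2 | h2 <;>
      rcases hl.zoV true ξ with h3 | h3 <;> rcases hl.zoV false ξ with h4 | h4 <;>
      linarith
    have hV : W.iV j true ξ + W.iV j false ξ = 0 := by linarith
    rw [hU, hV, mul_zero, mul_zero, add_zero] at hsq'
    exact pow_eq_zero_iff (two_ne_zero) |>.1 hsq'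

end Haraux
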