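import Pool.Agent.Helper27.Har.Base

set_option autoImplicit false

open MeasureTheory Set Real Filter Topology
open scoped ENNReal NNReal

namespace Haraux



/-- the zones of different levels are disjoint -/
theorem zone_disj (W : World) (h : W.RegN) (i j : ℕ) (ξ : ℝ)
    (hi : zone (W.z i) (W.n i * (8 * W.mu i + 4 * W.nu i)) ξ)
    (hj : zone (W.z j) (W.n j * (8 * W.mu j + 4 * W.nu j)) ξ) : i = j := by
  have hL : ∀ k, 0 ≤ (W.n k : ℝ) * (8 * W.mu k + 4 * W.nu k) := fun k => by
    have h1 := h.mu_pos k
    have h2 := h.nu_pos k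
    positivity
  have hmono : Monotone W.z := monotone_nat_of_le_succ (fun k => by
    have h1 := h.z1 k
    have h2 := hL k
    linarith)
  have hpi := Real.pi_pos
  obtain ⟨m, hm1, hm2⟩ := hi
  obtain ⟨m', hm1', hm2'⟩ := hj
  have e1 : W.z i + W.n i * (8 * W.mu i + 4 * W.nu i) ≤ 2 * π := le_trans (h.z1 i) (h.z2 (i + 1))
  have e2 : W.z j + W.n j * (8 * W.mu j + 4 * W.nu j) ≤ 2 * π := le_trans (h.z1 j) (h.z2 (j + 1))
  have f1 := h.z0 i
  have f2 := h.z0 j
  have hmm : m = m' := by
    have a1 : (m : ℝ) - m' < 1 := by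
      have : 2 * π * ((m : ℝ) - m') < 2 * π * 1 := by
        have : 2 * π * ((m : ℝ) - m') = 2 * π * m - 2 * π * m' := by ring
        rw [this]; linarith
      exact lt_of_mul_lt_mul_left this (by positivity)
    have a2 : (m' : ℝ) - m < 1 := by
      have : 2 * π * ((m' : ℝ) - m) < 2 * π * 1 := by
        have : 2 * π * ((m' : ℝ) - m) = 2 * π * m' - 2 * π * m := by ring
        rw [this]; linarith
      exact lt_of_mul_lt_mul_left this (by positivity)
    have b1 : m - m' < 1 := by exact_mod_cast a1
    have b2 : m' - m < 1 := by exact_mod_cast a2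
    omega
  subst hmm
  rcases lt_trichotomy i j with hij | hij | hij
  · have g1 := h.z1 i
    have g2 := hmono (Nat.succ_le_of_lt hij)
    simp only [Nat.succ_eq_add_one] at g2
    linarith
  · exact hij
  · have g1 := h.z1 j
    have g2 := hmono (Nat.succ_le_of_lt hij)
    simp only [Nat.succ_eq_add_one] at g2
    linarith

end Haraux
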