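import Pool.Agent.Helper27.Har.Base
import Pool.Agent.Helper27.Har.P_zone_disj
import Pool.Agent.Helper27.Har.P_world_basic

set_option autoImplicit false

open MeasureTheory Set Real Filter Topology
open scoped ENNReal NNReal

namespace Haraux



/-- at stage `k` the six sets `U_k^±, V_k^±, U_{k+1}^±` are disjoint, and `w k`, `x k` vanish off `U_k ∪ V_k` -/
theorem stage_disj (W : World) (h : W.Reg) (k : ℕ) (ξ : ℝ) :
    W.iU k true ξ + W.iU k false ξ + W.iV k true ξ + W.iV k false ξ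
      + W.iU (k + 1) true ξ + W.iU (k + 1) false ξ ≤ 1 ∧
    (W.iU k true ξ + W.iU k false ξ + W.iV k true ξ + W.iV k false ξ = 0 →
      W.w k ξ = 0 ∧ W.x k ξ = 0) ∧
    (∀ s, W.iU (k + 1) s ξ = 1 → W.w k ξ = 0 ∧ W.x k ξ = 0 ∧ W.u k ξ = 0 ∧ W.v k ξ = 0) := by
  have hk := h.lev k
  have hk1 := h.lev (k + 1)
  have nU : ∀ j s, 0 ≤ W.iU j s ξ := fun j s => by
    rcases (h.lev j).zoU s ξ with h1 | h1 <;> rw [h1] <;> norm_num
  have nV : ∀ j s, 0 ≤ W.iV j s ξ := fun j s => by
    rcases (h.lev j).zoV s ξ with h1 | h1 <;> rw [h1] <;> norm_num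
  have a1 := nU k true
  have a2 := nU k false
  have a3 := nV k true
  have a4 := nV k false
  have b1 := nU (k + 1) true
  have b2 := nU (k + 1) false
  have b3 := nV (k + 1) true
  have b4 := nV (k + 1) false
  have d1 := hk.disj ξ
  have d2 := hk1.disj ξ
  refine ⟨?_, hk.off ξ, ?_⟩
  · by_cases hz : zone (W.z (k + 1)) (W.n (k + 1) * (8 * W.mu (k + 1) + 4 * W.nu (k + 1))) ξ
    · have hz' : ¬ zone (W.z k) (W.n k * (8 * W.mu k + 4 * W.nu k)) ξ := fun hz' => by
        have := zone_disj W h.num k (k + 1) ξ hz' hz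
        omega
      have := hk.supp ξ hz'
      linarith
    · have := hk1.supp ξ hz
      linarith
  · intro s hs
    have hz : zone (W.z (k + 1)) (W.n (k + 1) * (8 * W.mu (k + 1) + 4 * W.nu (k + 1))) ξ := by
      by_contra hz
      have h1 := hk1.supp ξ hz
      cases s
      · rw [hs] at h1; linarith
      · rw [hs] at h1; linarith
    have hz' : ¬ zone (W.z k) (W.n k * (8 * W.mu k + 4 * W.nu k)) ξ := fun hz' => by
      have := zone_disj W h.num k (k + 1) ξ hz' hz
      omega
    have h0 := hk.supp ξ hz'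
    obtain ⟨h1, h2⟩ := hk.off ξ h0
    refine ⟨h1, h2, ?_, ?_⟩
    · rw [World.u]
      linarith
    · rw [World.v]
      linarith

end Haraux
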