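import Pool.Agent.Helper27.Har.Base
import Pool.Agent.Helper27.Har.P_world_basic

set_option autoImplicit false

open MeasureTheory Set Real Filter Topology
open scoped ENNReal NNReal

namespace Haraux



/-- consequences of the smallness conditions -/
theorem stage_ineq (W : World) (h : W.RegN) (k : ℕ) (hs : W.Small k) :
    W.kap k ≤ W.lam (k + 1) ∧ W.kap k ≤ W.lam k ∧ W.lam (k + 1) ≤ 1 ∧
    W.om0 k * W.as k ≤ W.mm k ∧
    W.as k * W.nu k ≤ W.ep k * W.mm k * (W.lam (k + 1) / (W.lam (k + 1) + W.kap k)) ∧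
    W.as k * W.nu k ≤ W.ep k * W.mm k ∧
    W.mm k - W.om0 k * W.as k = W.mm k * (W.lam (k + 1) / (W.lam (k + 1) + W.kap k)) ∧
    W.al k ≤ 101 / 100 * W.as k := by
  obtain ⟨hl, hk, ha, has, ho, hm, -, -, h1, h2, -, h3, -⟩ := world_basic W h
  have e0 := h.ep_pos k
  have e1 := h.ep_le k
  have c1 := hs.c1
  have c2 := hs.c2
  have c3 := hs.c3
  have c4 := hs.c4
  have hlk := hl k
  have hlk' := hl (k + 1)
  have hkk := hk k
  have hak := ha k
  have hask := has k
  have hok := ho k
  have hmk := hm k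
  have h1k := h1 k
  have h2k := h2 k
  have h3k := h3 k
  have hmu : W.al k * W.mu k = 2 * W.mm k := by unfold World.mm; ring
  rw [hmu] at c4
  generalize W.kap k = κ at *
  generalize W.lam (k + 1) = l' at *
  generalize W.lam k = l at *
  generalize W.al k = a at *
  generalize W.as k = s at *
  generalize W.om0 k = o at *
  generalize W.mm k = m at *
  generalize W.ep k = e at *
  have he2 : e ^ 2 ≤ 1 / 1000000 := by nlinarith
  have hkl : κ ≤ 1 / 1000000 * l' := c1.trans (mul_le_mul_of_nonneg_right he2 hlk'.le)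
  have hsum : 0 < l' + κ := by linarith
  have hr : l' / (l' + κ) ≤ 1 := by rw [div_le_one hsum]; linarith
  have hr0 : 0 ≤ l' / (l' + κ) := by positivity
  have hos : o * s = m * (κ / (l' + κ)) := by
    field_simp
    linarith
  have hr1 : κ / (l' + κ) = 1 - l' / (l' + κ) := by
    field_simp
    ring
  refine ⟨by linarith, by linarith, by linarith, ?_, by linarith, ?_, ?_, ?_⟩
  · rw [hos, hr1]
    nlinarith
  · have h5 : e * m * (l' / (l' + κ)) ≤ e * m * 1 :=
      mul_le_mul_of_nonneg_left hr (by positivity)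
    linarith
  · rw [hos, hr1]; ring
  · have h6 : a ^ 2 * l' ≤ a ^ 2 * l := mul_le_mul_of_nonneg_left c2 (by positivity)
    have h7 : s ^ 2 * (l' + κ) ≤ s ^ 2 * (1000001 / 1000000 * l') :=
      mul_le_mul_of_nonneg_left (by linarith) (by positivity)
    have h8 : a ^ 2 * l' ≤ (s ^ 2 * (1000001 / 1000000)) * l' := by linarith
    have h9 : a ^ 2 ≤ s ^ 2 * (1000001 / 1000000) := le_of_mul_le_mul_right h8 hlk'
    have h10 : a ^ 2 ≤ (101 / 100 * s) ^ 2 := by nlinarith [sq_nonneg s]
    exact (pow_le_pow_iff_left₀ hak.le (by positivity) (by norm_num)).1 h10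

end Haraux
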