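import Pool.Agent.Helper27.Har.Base
import Pool.Agent.Helper27.Har.P_world_basic
import Pool.Agent.Helper27.Har.P_stage_ineq
import Pool.Agent.Helper27.Har.P_stage_disj
import Pool.Agent.Helper27.Har.P_level_facts

set_option autoImplicit false

open MeasureTheory Set Real Filter Topology
open scoped ENNReal NNReal

namespace Haraux



/-- bounds and signs of the forces -/
theorem r_bounds (W : World) (h : W.Reg) (k : ℕ) (hs : W.Small k) :
    (∀ ξ, |W.r1 k ξ| ≤ W.mm k) ∧ (∀ ξ, |W.r2 k ξ| ≤ W.mm k) ∧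
    Measurable (W.r1 k) ∧ Measurable (W.r2 k) ∧ Function.Periodic (W.r1 k) (2 * π) ∧
    Function.Periodic (W.r2 k) (2 * π) ∧
    (∀ ξ s c c', W.iV k s ξ = 1 → W.ep k / 2 ≤ c → 0 ≤ c' → c' ≤ 1 →
      0 ≤ sg s * (c * W.r1 k ξ + c' * W.r2 k ξ)) ∧
    (∀ ξ, W.iU k true ξ + W.iU k false ξ + W.iV k true ξ + W.iV k false ξ = 0 →
      W.r1 k ξ = 0 ∧ W.r2 k ξ = 0) := by
  obtain ⟨b1, b2, b3, b4, b5, b6, -, -, -, -, b11, -⟩ := world_basic W h.num
  obtain ⟨-, -, -, s4, s5, s6, s7, -⟩ := stage_ineq W h.num k hs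
  obtain ⟨l1, l2, -, l4, l5, -⟩ := level_facts W h k
  have lev := h.lev k
  have hμ := h.num.mu_pos k
  have hν := h.num.nu_pos k
  have hep := h.num.ep_pos k
  have hep' := h.num.ep_le k
  have hal := b3 k
  have has := b4 k
  have hom := b5 k
  have hmm := b6 k
  have hb11 := b11 k
  have hmmdef : W.al k / 2 * W.mu k = W.mm k := by unfold World.mm; ring
  have hoa : 0 < W.om0 k * W.as k := mul_pos hom has
  have hepm : W.ep k * W.mm k ≤ 1 / 1000 * W.mm k := mul_le_mul_of_nonneg_right hep' hmm.le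
  have hasn : 0 < W.as k * W.nu k := mul_pos has hν
  -- bound of the x-part
  have hx : ∀ ξ, |W.as k / 2 * W.x k ξ| ≤ W.as k * W.nu k / 2 := by
    intro ξ
    rw [abs_mul, abs_of_pos (by positivity : 0 < W.as k / 2)]
    have := mul_le_mul_of_nonneg_left (lev.xle ξ) (by positivity : 0 ≤ W.as k / 2)
    linarith
  have hw : ∀ ξ, |W.al k / 2 * W.w k ξ| ≤ W.mm k := by
    intro ξ
    rw [abs_mul, abs_of_pos (by positivity : 0 < W.al k / 2), ← hmmdef]
    exact mul_le_mul_of_nonneg_left (lev.wle ξ) (by positivity : 0 ≤ W.al k / 2)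
  -- values on V
  have hV : ∀ s ξ, W.iV k s ξ = 1 → W.r1 k ξ = sg s * (W.mm k - W.om0 k * W.as k) ∧
      W.r2 k ξ = -(W.as k / 2 * W.x k ξ) := by
    intro s ξ hsξ
    have hd := lev.disj ξ
    have hwv := lev.wV s ξ hsξ
    have e1 := lev.zoU true ξ
    have e2 := lev.zoU false ξ
    have e3 := lev.zoV true ξ
    have e4 := lev.zoV false ξ
    have p1 : 0 ≤ W.iU k true ξ := by rcases e1 with e | e <;> rw [e] <;> norm_num
    have p2 : 0 ≤ W.iU k false ξ := by rcases e2 with e | e <;> rw [e] <;> norm_num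
    have p3 : 0 ≤ W.iV k true ξ := by rcases e3 with e | e <;> rw [e] <;> norm_num
    have p4 : 0 ≤ W.iV k false ξ := by rcases e4 with e | e <;> rw [e] <;> norm_num
    have hu : W.u k ξ = 0 := by
      unfold World.u
      cases s <;> linarith
    have hv : W.v k ξ = sg s := by
      unfold World.v sg
      cases s
      · simp only [Bool.false_eq_true, if_false]; linarith
      · simp only [if_true]; linarith
    constructor
    · unfold World.r1
      rw [hv, hwv, ← hmmdef]; ring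
    · unfold World.r2
      rw [hu]; ring
  have hsg : ∀ s, sg s = 1 ∨ sg s = -1 := by
    intro s; cases s <;> simp [sg]
  have hsg2 : ∀ s, sg s * sg s = 1 := by
    intro s; rcases hsg s with e | e <;> rw [e] <;> norm_num
  have habs : ∀ s, |sg s| = 1 := by
    intro s; rcases hsg s with e | e <;> rw [e] <;> norm_num
  have hle : 0 ≤ W.mm k - W.om0 k * W.as k := by linarith
  -- cases
  have hcases : ∀ ξ, (∃ s, W.iV k s ξ = 1) ∨ (W.v k ξ = 0) := by
    intro ξ
    rcases lev.zoV true ξ with e3 | e3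
    · rcases lev.zoV false ξ with e4 | e4
      · right; unfold World.v; rw [e3, e4]; norm_num
      · left; exact ⟨false, e4⟩
    · left; exact ⟨true, e3⟩
  have hu1 : ∀ ξ, |W.u k ξ| ≤ 1 := by
    intro ξ
    unfold World.u
    rcases lev.zoU true ξ with e1 | e1 <;> rcases lev.zoU false ξ with e2 | e2 <;>
      rw [e1, e2] <;> norm_num
  refine ⟨?_, ?_, ?_, ?_, ?_, ?_, ?_, ?_⟩
  · intro ξ
    rcases hcases ξ with ⟨s, hsξ⟩ | hv
    · rw [(hV s ξ hsξ).1, abs_mul, habs, one_mul, abs_of_nonneg hle]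
      linarith
    · unfold World.r1
      rw [hv, mul_zero, zero_sub, abs_neg]
      exact hw ξ
  · intro ξ
    unfold World.r2
    have h1 : |W.om0 k * W.al k * W.u k ξ| ≤ W.as k * W.nu k / 4 := by
      rw [hb11, abs_mul, abs_of_pos (by positivity : 0 < W.as k * W.nu k / 4)]
      have := mul_le_mul_of_nonneg_left (hu1 ξ) (by positivity : 0 ≤ W.as k * W.nu k / 4)
      linarith
    have h2 := hx ξ
    have h3 := abs_sub (W.om0 k * W.al k * W.u k ξ) (W.as k / 2 * W.x k ξ)
    linarith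
  · exact (l2.meas.const_mul _).sub (l4.bp.meas.const_mul _)
  · exact (l1.meas.const_mul _).sub (l5.bp.meas.const_mul _)
  · intro ξ
    unfold World.r1
    rw [l2.per ξ, l4.bp.per ξ]
  · intro ξ
    unfold World.r2
    rw [l1.per ξ, l5.bp.per ξ]
  · intro ξ s c c' hsξ hc hc0 hc1
    obtain ⟨v1, v2⟩ := hV s ξ hsξ
    rw [v1, v2, s7]
    have hx' := hx ξ
    set R := W.mm k * (W.lam (k + 1) / (W.lam (k + 1) + W.kap k)) with hR
    have hR0 : 0 ≤ R := by rw [← s7]; exact hle
    have hs5 : W.as k * W.nu k ≤ W.ep k * R := by rw [hR, ← mul_assoc]; exact s5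
    have hk : sg s * (c * (sg s * R) + c' * -(W.as k / 2 * W.x k ξ))
        = c * R * (sg s * sg s) - c' * (sg s * (W.as k / 2 * W.x k ξ)) := by ring
    rw [hk, hsg2, mul_one]
    have h1 : W.ep k / 2 * R ≤ c * R := mul_le_mul_of_nonneg_right hc hR0
    have h2 : |c' * (sg s * (W.as k / 2 * W.x k ξ))| ≤ W.as k * W.nu k / 2 := by
      rw [abs_mul, abs_mul, habs, one_mul, abs_of_nonneg hc0]
      calc c' * |W.as k / 2 * W.x k ξ| ≤ 1 * |W.as k / 2 * W.x k ξ| :=
            mul_le_mul_of_nonneg_right hc1 (abs_nonneg _)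
        _ ≤ _ := by rw [one_mul]; exact hx'
    have h3 := le_abs_self (c' * (sg s * (W.as k / 2 * W.x k ξ)))
    linarith
  · intro ξ h0
    have e1 := lev.zoU true ξ
    have e2 := lev.zoU false ξ
    have e3 := lev.zoV true ξ
    have e4 := lev.zoV false ξ
    have p1 : 0 ≤ W.iU k true ξ := by rcases e1 with e | e <;> rw [e] <;> norm_num
    have p2 : 0 ≤ W.iU k false ξ := by rcases e2 with e | e <;> rw [e] <;> norm_num
    have p3 : 0 ≤ W.iV k true ξ := by rcases e3 with e | e <;> rw [e] <;> norm_num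
    have p4 : 0 ≤ W.iV k false ξ := by rcases e4 with e | e <;> rw [e] <;> norm_num
    obtain ⟨hw0, hx0⟩ := lev.off ξ h0
    have hu : W.u k ξ = 0 := by unfold World.u; linarith
    have hv : W.v k ξ = 0 := by unfold World.v; linarith
    unfold World.r1 World.r2
    rw [hw0, hx0, hu, hv]
    constructor <;> ring

end Haraux
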