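import Pool.Agent.Helper27.Har.Base
import Pool.Agent.Helper27.Har.P_world_basic
import Pool.Agent.Helper27.Har.P_stage_ineq
import Pool.Agent.Helper27.Har.P_stage_disj
import Pool.Agent.Helper27.Har.P_level_facts

set_option autoImplicit false

open MeasureTheory Set Real Filter Topology
open scoped ENNReal NNReal

namespace Haraux



/-- the solvability conditions (integrals over a period) -/
theorem r_integrals (W : World) (h : W.Reg) (k : ℕ) (hs : W.Small k) (s : Bool) :
    (∫ y in (0:ℝ)..(2 * π), W.iU k s y * W.r1 k y) = 0 ∧
    (∫ y in (0:ℝ)..(2 * π), W.iU k s y * W.r2 k y) = 0 ∧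
    (∫ y in (0:ℝ)..(2 * π), W.iV k s y * W.r1 k y) = -(W.q1 k s * W.lam (k + 1)) ∧
    (∫ y in (0:ℝ)..(2 * π), W.iV k s y * W.r2 k y) = 0 := by
  classical
  have hl := h.lev k
  obtain ⟨_, _, _, _, _, _, _, _, _, _, h11, h12, _, _, _, _⟩ := world_basic W h.num
  have e11 := h11 k
  have e12 := h12 k
  -- integrability
  have hbp : ∀ φ : ℝ → ℝ, BP φ → IntervalIntegrable φ volume 0 (2 * π) := by
    intro φ hφ
    obtain ⟨C, hC⟩ := hφ.bdd
    refine (intervalIntegrable_const (c := C)).mono_fun hφ.meas.aestronglyMeasurable ?_
    filter_upwards with y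
    rw [Real.norm_eq_abs, Real.norm_eq_abs]
    exact (hC y).trans (le_abs_self C)
  have hmul : ∀ φ ψ : ℝ → ℝ, BP φ → BP ψ →
      IntervalIntegrable (fun y => φ y * ψ y) volume 0 (2 * π) := by
    intro φ ψ hφ hψ
    obtain ⟨C, hC⟩ := hφ.bdd
    obtain ⟨D, hD⟩ := hψ.bdd
    refine (intervalIntegrable_const (c := C * D)).mono_fun
      (hφ.meas.mul hψ.meas).aestronglyMeasurable ?_
    filter_upwards with y
    rw [Real.norm_eq_abs, Real.norm_eq_abs, abs_mul]
    have h1 := hC y
    have h2 := hD y
    have h3 : |φ y| * |ψ y| ≤ C * D :=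
      mul_le_mul h1 h2 (abs_nonneg _) ((abs_nonneg _).trans h1)
    exact h3.trans (le_abs_self _)
  have iUi := hbp _ (hl.bU s)
  have iUw := hmul _ _ (hl.bU s) hl.primw.bp
  have iUx := hmul _ _ (hl.bU s) hl.primx.bp
  have iVx := hmul _ _ (hl.bV s) hl.primx.bp
  refine ⟨?_, ?_, ?_, ?_⟩
  · have e : ∀ y, W.iU k s y * W.r1 k y = -(W.al k / 2) * (W.iU k s y * W.w k y) := by
      intro y
      have hd := hl.disj y
      unfold World.r1 World.v
      rcases hl.zoU true y with a | a <;> rcases hl.zoU false y with b | b <;>
        rcases hl.zoV true y with c | c <;> rcases hl.zoV false y with d | d <;>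
        rw [a, b, c, d] at hd <;> cases s <;> simp only [a, b, c, d] <;>
        first | ring1 | (exfalso; norm_num at hd; done)
    rw [intervalIntegral.integral_congr (fun y _ => e y), intervalIntegral.integral_const_mul,
      hl.Uw s, mul_zero]
  · have e : ∀ y, W.iU k s y * W.r2 k y = W.om0 k * W.al k * sg s * W.iU k s y
        + (-(W.as k / 2)) * (W.iU k s y * W.x k y) := by
      intro y
      have hd := hl.disj y
      unfold World.r2 World.u
      rcases hl.zoU true y with a | a <;> rcases hl.zoU false y with b | b <;>
        rcases hl.zoV true y with c | c <;> rcases hl.zoV false y with d | d <;>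
        rw [a, b, c, d] at hd <;> cases s <;> simp only [a, b, c, d, sg] <;>
        first | (simp; done) | (exfalso; norm_num at hd; done) | (simp; ring1)
    rw [intervalIntegral.integral_congr (fun y _ => e y),
      intervalIntegral.integral_add (iUi.const_mul _) (iUx.const_mul _),
      intervalIntegral.integral_const_mul, intervalIntegral.integral_const_mul,
      hl.intU s, hl.Ux s, e11]
    ring
  · have e : ∀ y, W.iV k s y * W.r1 k y = sg s * (W.mm k - W.om0 k * W.as k) * W.iV k s y := by
      intro y
      have hd := hl.disj y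
      have hw : W.iV k s y = 1 → W.w k y = -(sg s * W.mu k) := hl.wV s y
      unfold World.r1 World.v World.mm
      rcases hl.zoV s y with h0 | h0
      · rw [h0]; ring
      · rw [h0, hw h0]
        rcases hl.zoU true y with a | a <;> rcases hl.zoU false y with b | b <;>
          rcases hl.zoV true y with c | c <;> rcases hl.zoV false y with d | d <;>
          rw [a, b, c, d] at hd <;> cases s <;> simp only [a, b, c, d, sg] at h0 ⊢ <;>
          first | (exfalso; norm_num at h0; done) | (exfalso; norm_num at hd; done) | (simp; ring1)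
    have e3 : W.lam (k + 1) * (W.om0 k * W.as k) = (W.mm k - W.om0 k * W.as k) * W.kap k := by
      linarith
    rw [intervalIntegral.integral_congr (fun y _ => e y), intervalIntegral.integral_const_mul,
      hl.intV s]
    unfold World.q1
    have : (2 * W.nu k * (W.n k : ℝ)) = W.kap k := rfl
    rw [this]
    linear_combination (-(sg s)) * e3
  · have e : ∀ y, W.iV k s y * W.r2 k y = -(W.as k / 2) * (W.iV k s y * W.x k y) := by
      intro y
      have hd := hl.disj y
      unfold World.r2 World.u
      rcases hl.zoU true y with a | a <;> rcases hl.zoU false y with b | b <;>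
        rcases hl.zoV true y with c | c <;> rcases hl.zoV false y with d | d <;>
        rw [a, b, c, d] at hd <;> cases s <;> simp only [a, b, c, d] <;>
        first | ring1 | (exfalso; norm_num at hd; done)
    rw [intervalIntegral.integral_congr (fun y _ => e y), intervalIntegral.integral_const_mul,
      hl.Vx s, mul_zero]

end Haraux
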