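import Pool.Agent.Helper27.Har.Base
import Pool.Agent.Helper27.Har.P_world_basic
import Pool.Agent.Helper27.Har.P_prim_facts
import Pool.Agent.Helper27.Har.P_r_bounds
import Pool.Agent.Helper27.Har.P_r_integrals

set_option autoImplicit false

open MeasureTheory Set Real Filter Topology
open scoped ENNReal NNReal

namespace Haraux



private theorem Ps_facts_ii (f : ℝ → ℝ) (hf : Measurable f) (C : ℝ) (hC : ∀ x, |f x| ≤ C)
    (a b : ℝ) : IntervalIntegrable f volume a b := by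
  rw [intervalIntegrable_iff]
  refine Measure.integrableOn_of_bounded (M := C) ?_ hf.aestronglyMeasurable
    (Filter.Eventually.of_forall fun x => ?_)
  · rw [uIoc, Real.volume_Ioc]
    exact ENNReal.ofReal_ne_top
  · rw [Real.norm_eq_abs]
    exact hC x

/-- the primitive `Ps` -/
theorem Ps_facts (W : World) (h : W.Reg) (k : ℕ) (hs : W.Small k) (r : ℝ → ℝ)
    (hr : r = W.r1 k ∨ r = W.r2 k) (s : Bool) :
    Function.Periodic (W.Ps k r s) (2 * π) ∧ Continuous (W.Ps k r s) ∧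
    (∀ η, |W.Ps k r s η| ≤ W.mm k * W.lam k) ∧
    (∃ L, ∀ a b, |W.Ps k r s a - W.Ps k r s b| ≤ L * |a - b|) ∧
    (∀ᵐ η : ℝ, HasDerivAt (W.Ps k r s) (W.iU k s η * r η) η) := by
  obtain ⟨b1, b2, m1, m2, p1, p2, -, -⟩ := r_bounds W h k hs
  obtain ⟨i1, i2, -, -⟩ := r_integrals W h k hs s
  have hrb : (∀ ξ, |r ξ| ≤ W.mm k) ∧ Measurable r ∧ Function.Periodic r (2 * π) ∧
      (∫ y in (0:ℝ)..(2 * π), W.iU k s y * r y) = 0 := by
    rcases hr with rfl | rfl
    · exact ⟨b1, m1, p1, i1⟩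
    · exact ⟨b2, m2, p2, i2⟩
  obtain ⟨hb, hm, hp, hi⟩ := hrb
  have hlev := h.lev k
  have hU01 : ∀ y, 0 ≤ W.iU k s y ∧ W.iU k s y ≤ 1 := by
    intro y
    rcases hlev.zoU s y with h | h <;> rw [h] <;> norm_num
  have hmm : 0 ≤ W.mm k := (abs_nonneg _).trans (hb 0)
  have hfle : ∀ y, |W.iU k s y * r y| ≤ W.iU k s y * W.mm k := by
    intro y
    rw [abs_mul, abs_of_nonneg (hU01 y).1]
    exact mul_le_mul_of_nonneg_left (hb y) (hU01 y).1
  have hfC : ∀ y, |W.iU k s y * r y| ≤ W.mm k := by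
    intro y
    refine (hfle y).trans ?_
    have := mul_le_mul_of_nonneg_right (hU01 y).2 hmm
    rwa [one_mul] at this
  have hfm : Measurable (fun y => W.iU k s y * r y) := (hlev.bU s).meas.mul hm
  have hbp : BP (fun y => W.iU k s y * r y) :=
    { meas := hfm
      bdd := ⟨W.mm k, hfC⟩
      per := by
        intro y
        simp only
        rw [(hlev.bU s).per y, hp y] }
  obtain ⟨q1, q2, q3, q4⟩ := prim_facts _ hbp (W.mm k) hfC hi
  refine ⟨q1.bp.per, q1.cont, ?_, ⟨W.mm k, q2⟩, q4⟩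
  intro η
  refine (q3 η).trans ?_
  have hpi : (0 : ℝ) ≤ 2 * π := by positivity
  have hmono : ∫ y in (0:ℝ)..(2 * π), |W.iU k s y * r y| ≤
      ∫ y in (0:ℝ)..(2 * π), W.iU k s y * W.mm k := by
    apply intervalIntegral.integral_mono hpi
    · exact Ps_facts_ii _ hfm.abs (W.mm k) (fun x => by rw [abs_abs]; exact hfC x) _ _
    · refine Ps_facts_ii _ ((hlev.bU s).meas.mul_const _) (W.mm k) (fun x => ?_) _ _
      rw [abs_mul, abs_of_nonneg (hU01 x).1, abs_of_nonneg hmm]
      have := mul_le_mul_of_nonneg_right (hU01 x).2 hmm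
      rwa [one_mul] at this
    · exact hfle
  refine hmono.trans (le_of_eq ?_)
  rw [intervalIntegral.integral_mul_const, hlev.intU s, World.lam, mul_comm]

end Haraux
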