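import Pool.Agent.Helper27.Har.Base
import Pool.Agent.Helper27.Har.P_world_basic
import Pool.Agent.Helper27.Har.P_stage_ineq
import Pool.Agent.Helper27.Har.P_prim_facts
import Pool.Agent.Helper27.Har.P_r_bounds
import Pool.Agent.Helper27.Har.P_r_integrals

set_option autoImplicit false

open MeasureTheory Set Real Filter Topology
open scoped ENNReal NNReal

namespace Haraux



private theorem Xi_facts_ii {g : ℝ → ℝ} (hm : Measurable g) (C : ℝ) (hC : ∀ x, |g x| ≤ C) (a b : ℝ) :
    IntervalIntegrable g volume a b := by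
  rw [intervalIntegrable_iff]
  exact Measure.integrableOn_of_bounded (by simp) hm.aestronglyMeasurable (ae_of_all _ hC)

/-- the primitive `Xi` -/
theorem Xi_facts (W : World) (h : W.Reg) (k : ℕ) (hs : W.Small k) (r : ℝ → ℝ) (q : Bool → ℝ)
    (hr : (r = W.r1 k ∧ q = W.q1 k) ∨ (r = W.r2 k ∧ q = fun _ => 0)) (s : Bool) :
    Function.Periodic (W.Xi k r q s) (2 * π) ∧ Continuous (W.Xi k r q s) ∧
    (∀ η, |W.Xi k r q s η| ≤ 2 * π * W.mm k * W.kap k / W.lam (k + 1)) ∧
    (∃ L, ∀ a b, |W.Xi k r q s a - W.Xi k r q s b| ≤ L * |a - b|) ∧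
    (∀ᵐ η : ℝ, HasDerivAt (W.Xi k r q s) (q s / 2 + π / W.lam (k + 1) * (W.iV k s η * r η)) η) := by
  obtain ⟨hlam, hkap, hal, has, hom, hmm, hTm, e1, e2, e3, e4, e5, e6, e7, e8, e9⟩ :=
    world_basic W h.num
  obtain ⟨b1, b2, m1, m2, p1, p2, -, -⟩ := r_bounds W h k hs
  obtain ⟨I1, I2, I3, I4⟩ := r_integrals W h k hs s
  have hL := h.lev k
  obtain ⟨rb, rm, rp, rI, qb⟩ : (∀ ξ, |r ξ| ≤ W.mm k) ∧ Measurable r ∧
      Function.Periodic r (2 * π) ∧
      (∫ y in (0:ℝ)..(2 * π), W.iV k s y * r y) = -(q s * W.lam (k + 1)) ∧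
      |q s| ≤ W.om0 k * W.as k := by
    rcases hr with ⟨rfl, rfl⟩ | ⟨rfl, rfl⟩
    · refine ⟨b1, m1, p1, I3, ?_⟩
      unfold World.q1
      rw [abs_mul, abs_neg, abs_of_pos (mul_pos (hom k) (has k))]
      cases s <;> simp [sg]
    · refine ⟨b2, m2, p2, by rw [I4]; ring, ?_⟩
      simpa using (mul_pos (hom k) (has k)).le
  have hlp : 0 < W.lam (k + 1) := hlam _
  have hcpos : 0 < π / W.lam (k + 1) := div_pos Real.pi_pos hlp
  have hmp := hmm k
  have hV0 : ∀ y, 0 ≤ W.iV k s y := fun y => by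
    rcases hL.zoV s y with h0 | h0 <;> rw [h0] <;> norm_num
  have hV1 : ∀ y, W.iV k s y ≤ 1 := fun y => by
    rcases hL.zoV s y with h0 | h0 <;> rw [h0] <;> norm_num
  have hVr : ∀ y, |W.iV k s y * r y| ≤ W.mm k * W.iV k s y := fun y => by
    rw [abs_mul, abs_of_nonneg (hV0 y), mul_comm]
    exact mul_le_mul_of_nonneg_right (rb y) (hV0 y)
  have hVr' : ∀ y, |W.iV k s y * r y| ≤ W.mm k := fun y =>
    (hVr y).trans (by nlinarith [hV1 y, hV0 y])
  have hVm : Measurable (W.iV k s) := (hL.bV s).meas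
  have hVrm : Measurable (fun y => W.iV k s y * r y) := hVm.mul rm
  obtain ⟨f, hfdef⟩ : ∃ f : ℝ → ℝ, f = fun y => q s / 2 + π / W.lam (k + 1) * (W.iV k s y * r y) :=
    ⟨_, rfl⟩
  have hfy : ∀ y, f y = q s / 2 + π / W.lam (k + 1) * (W.iV k s y * r y) := fun y => by
    rw [hfdef]
  have hfm : Measurable f := by
    rw [hfdef]; exact measurable_const.add (hVrm.const_mul _)
  have hfpt : ∀ y, |f y| ≤ |q s| / 2 + π / W.lam (k + 1) * (W.mm k * W.iV k s y) := fun y => by
    rw [hfy]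
    refine (abs_add_le _ _).trans ?_
    rw [abs_div, abs_mul, abs_of_pos hcpos]
    have h1 := mul_le_mul_of_nonneg_left (hVr y) hcpos.le
    have h2 : |(2:ℝ)| = 2 := by norm_num
    rw [h2]; linarith
  have hfb : ∀ y, |f y| ≤ |q s| / 2 + π / W.lam (k + 1) * W.mm k := fun y => by
    refine (hfpt y).trans ?_
    have h1 : W.mm k * W.iV k s y ≤ W.mm k := by nlinarith [hV1 y, hV0 y]
    have h2 := mul_le_mul_of_nonneg_left h1 hcpos.le
    linarith
  have hf : BP f := by
    refine ⟨hfm, ⟨_, hfb⟩, ?_⟩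
    intro y
    rw [hfy, hfy, (hL.bV s).per y, rp y]
  have hint : IntervalIntegrable (fun y => π / W.lam (k + 1) * (W.iV k s y * r y)) volume 0
      (2 * π) := (Xi_facts_ii hVrm _ hVr' 0 (2 * π)).const_mul _
  have h0 : ∫ x in (0:ℝ)..(2 * π), f x = 0 := by
    have e : ∫ x in (0:ℝ)..(2 * π), f x =
        ∫ x in (0:ℝ)..(2 * π), (q s / 2 + π / W.lam (k + 1) * (W.iV k s x * r x)) := by
      rw [hfdef]
    rw [e, intervalIntegral.integral_add (by simp) hint, intervalIntegral.integral_const,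
      intervalIntegral.integral_const_mul, rI, smul_eq_mul]
    field_simp
    ring
  obtain ⟨c1, c2, c3, c4⟩ := prim_facts f hf _ hfb h0
  have hXi : W.Xi k r q s = fun η => ∫ y in (0:ℝ)..η, f y := by
    funext η
    unfold World.Xi
    rw [hfdef]
  rw [hXi]
  refine ⟨c1.bp.per, c1.cont, ?_, ⟨_, c2⟩, ?_⟩
  · intro η
    refine (c3 η).trans ?_
    have hVi : IntervalIntegrable (fun y => π / W.lam (k + 1) * (W.mm k * W.iV k s y)) volume 0
        (2 * π) := ((Xi_facts_ii hVm 1 (fun y => by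
          rw [abs_of_nonneg (hV0 y)]; exact hV1 y) 0 (2 * π)).const_mul _).const_mul _
    have h2 : ∫ y in (0:ℝ)..(2 * π), |f y| ≤
        ∫ y in (0:ℝ)..(2 * π), (|q s| / 2 + π / W.lam (k + 1) * (W.mm k * W.iV k s y)) := by
      apply intervalIntegral.integral_mono_on (by positivity)
      · exact (Xi_facts_ii hfm _ hfb 0 (2 * π)).abs
      · exact intervalIntegrable_const.add hVi
      · intro y _
        exact hfpt y
    refine h2.trans ?_
    rw [intervalIntegral.integral_add (by simp) hVi, intervalIntegral.integral_const,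
      intervalIntegral.integral_const_mul, intervalIntegral.integral_const_mul, hL.intV s,
      smul_eq_mul]
    have hk : 2 * W.nu k * W.n k = W.kap k := rfl
    rw [hk]
    have h5 := e5 k
    have h6 : W.om0 k * W.as k ≤ W.mm k * W.kap k / W.lam (k + 1) := by
      rw [le_div_iff₀ hlp, ← h5]
      have := mul_pos (mul_pos (hom k) (has k)) (hkap k)
      nlinarith
    have h7 : π * |q s| ≤ π * (W.mm k * W.kap k / W.lam (k + 1)) :=
      mul_le_mul_of_nonneg_left (qb.trans h6) Real.pi_pos.le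
    have h8 : (2 * π - 0) * (|q s| / 2) = π * |q s| := by ring
    rw [h8]
    have h9 : π / W.lam (k + 1) * (W.mm k * W.kap k) =
        π * (W.mm k * W.kap k / W.lam (k + 1)) := by ring
    have h10 : 2 * π * W.mm k * W.kap k / W.lam (k + 1) =
        π * (W.mm k * W.kap k / W.lam (k + 1)) + π * (W.mm k * W.kap k / W.lam (k + 1)) := by ring
    rw [h9, h10]
    linarith
  · filter_upwards [c4] with η hη
    rw [← hfy]
    exact hη

end Haraux
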