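import Pool.Agent.Helper27.Har.Base
import Pool.Agent.Helper27.Har.P_Ph_facts
import Pool.Agent.Helper27.Har.P_Ps_facts
import Pool.Agent.Helper27.Har.P_Xi_facts

set_option autoImplicit false

open MeasureTheory Set Real Filter Topology
open scoped ENNReal NNReal

namespace Haraux



/-- derivative of the corrector in the second variable -/
theorem cc_deriv (W : World) (h : W.Reg) (k : ℕ) (hs : W.Small k) (r : ℝ → ℝ) (q : Bool → ℝ)
    (hr : (r = W.r1 k ∧ q = W.q1 k) ∨ (r = W.r2 k ∧ q = fun _ => 0)) :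
    ∀ᵐ η : ℝ, ∀ ξ, HasDerivAt (fun η => W.cc k r q ξ η)
      (1 / 2 * (∑ s : Bool, ((W.iU k s ξ + W.iV k s ξ) * r ξ + W.iU (k + 1) s ξ * q s))
        - 1 / 4 * W.Gg k r ξ η) η := by
  have hr' : r = W.r1 k ∨ r = W.r2 k := by
    rcases hr with h1 | h1
    · exact Or.inl h1.1
    · exact Or.inr h1.1
  have e1 : ∀ᵐ η : ℝ, ∀ s : Bool,
      HasDerivAt (W.Ph k s) (1 / 2 - π / W.lam k * W.iU k s η) η := by
    rw [ae_all_iff]
    intro s
    exact (Ph_facts W h k s).2.2.2.2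
  have e2 : ∀ᵐ η : ℝ, ∀ s : Bool,
      HasDerivAt (W.Ph (k + 1) s) (1 / 2 - π / W.lam (k + 1) * W.iU (k + 1) s η) η := by
    rw [ae_all_iff]
    intro s
    exact (Ph_facts W h (k + 1) s).2.2.2.2
  have e3 : ∀ᵐ η : ℝ, ∀ s : Bool, HasDerivAt (W.Ps k r s) (W.iU k s η * r η) η := by
    rw [ae_all_iff]
    intro s
    exact (Ps_facts W h k hs r hr' s).2.2.2.2
  have e4 : ∀ᵐ η : ℝ, ∀ s : Bool, HasDerivAt (W.Xi k r q s)
      (q s / 2 + π / W.lam (k + 1) * (W.iV k s η * r η)) η := by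
    rw [ae_all_iff]
    intro s
    exact (Xi_facts W h k hs r q hr s).2.2.2.2
  filter_upwards [e1, e2, e3, e4] with η h1 h2 h3 h4 ξ
  have hd : ∀ s : Bool, HasDerivAt (fun η =>
      W.iU k s ξ * (r ξ * W.Ph k s η + π / W.lam k * W.Ps k r s η)
        + W.iV k s ξ * (r ξ * W.Ph (k + 1) s η) + W.iU (k + 1) s ξ * W.Xi k r q s η)
      (W.iU k s ξ * (r ξ * (1 / 2 - π / W.lam k * W.iU k s η) + π / W.lam k * (W.iU k s η * r η))
        + W.iV k s ξ * (r ξ * (1 / 2 - π / W.lam (k + 1) * W.iU (k + 1) s η))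
        + W.iU (k + 1) s ξ * (q s / 2 + π / W.lam (k + 1) * (W.iV k s η * r η))) η := by
    intro s
    exact (((((h1 s).const_mul (r ξ)).add ((h3 s).const_mul (π / W.lam k))).const_mul
      (W.iU k s ξ)).add (((h2 s).const_mul (r ξ)).const_mul (W.iV k s ξ))).add
      ((h4 s).const_mul (W.iU (k + 1) s ξ))
  have hsum := (hd true).add (hd false)
  have hfun : (fun η => W.cc k r q ξ η) = fun η =>
      (W.iU k true ξ * (r ξ * W.Ph k true η + π / W.lam k * W.Ps k r true η)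
        + W.iV k true ξ * (r ξ * W.Ph (k + 1) true η) + W.iU (k + 1) true ξ * W.Xi k r q true η) +
      (W.iU k false ξ * (r ξ * W.Ph k false η + π / W.lam k * W.Ps k r false η)
        + W.iV k false ξ * (r ξ * W.Ph (k + 1) false η) +
        W.iU (k + 1) false ξ * W.Xi k r q false η) := by
    funext η
    unfold World.cc
    rw [Fintype.sum_bool]
  rw [hfun]
  refine hsum.congr_deriv ?_
  unfold World.Gg
  simp only [Fintype.sum_bool]
  ring

end Haraux
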