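import Pool.Agent.Helper27.Har.Base
import Pool.Agent.Helper27.Har.P_stage_disj
import Pool.Agent.Helper27.Har.P_r_bounds

set_option autoImplicit false

open MeasureTheory Set Real Filter Topology
open scoped ENNReal NNReal

namespace Haraux



/-- the algebraic identity behind the pseudo-orbit -/
theorem cell_identity (W : World) (h : W.Reg) (k : ℕ) (hs : W.Small k) (ξ : ℝ) :
    W.om0 k * W.as k * (W.u (k + 1) ξ + W.v k ξ)
      + (∑ s : Bool, ((W.iU k s ξ + W.iV k s ξ) * W.r1 k ξ + W.iU (k + 1) s ξ * W.q1 k s))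
      = -(W.al k / 2 * W.w k ξ) ∧
    -(W.om0 k * W.al k * W.u k ξ)
      + (∑ s : Bool, ((W.iU k s ξ + W.iV k s ξ) * W.r2 k ξ + W.iU (k + 1) s ξ * (0:ℝ)))
      = -(W.as k / 2 * W.x k ξ) := by
  have hr := (r_bounds W h k hs).2.2.2.2.2.2.2 ξ
  have hoff := (h.lev k).off ξ
  have hd := (h.lev k).disj ξ
  have a := (h.lev k).zoU true ξ
  have b := (h.lev k).zoU false ξ
  have c := (h.lev k).zoV true ξ
  have d := (h.lev k).zoV false ξ
  have hS : (W.iU k true ξ = 0 ∧ W.iU k false ξ = 0 ∧ W.iV k true ξ = 0 ∧ W.iV k false ξ = 0) ∨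
      W.iU k true ξ + W.iU k false ξ + W.iV k true ξ + W.iV k false ξ = 1 := by
    rcases a with a | a <;> rcases b with b | b <;> rcases c with c | c <;> rcases d with d | d <;>
      rw [a, b, c, d] at hd ⊢ <;> first | (left; norm_num; done) | (right; norm_num; done) | (exfalso; linarith)
  rw [Fintype.sum_bool, Fintype.sum_bool]
  rcases hS with ⟨a0, b0, c0, d0⟩ | hS
  · have hz : W.iU k true ξ + W.iU k false ξ + W.iV k true ξ + W.iV k false ξ = 0 := by
      rw [a0, b0, c0, d0]; norm_num
    obtain ⟨e1, e2⟩ := hr hz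
    obtain ⟨e3, e4⟩ := hoff hz
    rw [e1, e2, e3, e4]
    simp only [World.u, World.v, World.q1, sg, a0, b0, c0, d0]
    constructor
    · simp
      ring
    · simp
  · have e1 : W.iU k true ξ = 1 - W.iU k false ξ - W.iV k true ξ - W.iV k false ξ := by linarith
    simp only [World.r1, World.r2, World.u, World.v, World.q1, sg]
    rw [e1]
    constructor
    · simp
      ring
    · simp
      ring

end Haraux
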