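import Pool.Agent.Helper27.Har.Base
import Pool.Agent.Helper27.Har.P_world_basic
import Pool.Agent.Helper27.Har.P_stage_ineq
import Pool.Agent.Helper27.Har.P_stage_disj
import Pool.Agent.Helper27.Har.P_level_facts
import Pool.Agent.Helper27.Har.P_prim_facts

set_option autoImplicit false

open MeasureTheory Set Real Filter Topology
open scoped ENNReal NNReal

namespace Haraux



private theorem BP_ii {f : ℝ → ℝ} (hf : BP f) (a b : ℝ) : IntervalIntegrable f volume a b := by
  obtain ⟨C, hC⟩ := hf.bdd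
  have h1 : IntervalIntegrable (fun _ : ℝ => C) volume a b := intervalIntegrable_const
  refine h1.mono_fun hf.meas.aestronglyMeasurable (Filter.Eventually.of_forall fun x => ?_)
  show ‖f x‖ ≤ ‖C‖
  rw [Real.norm_eq_abs, Real.norm_eq_abs]
  exact (hC x).trans (le_abs_self C)

private theorem abs_int_le (W : World) (h : W.Reg) (k : ℕ) {g : ℝ → ℝ} (hg : BP g) {c : ℝ}
    (hc : 0 ≤ c) (hle : ∀ ξ, |g ξ| ≤ c)
    (h0 : ∀ ξ, W.iU k true ξ + W.iU k false ξ + W.iV k true ξ + W.iV k false ξ = 0 → g ξ = 0) :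
    ∫ y in (0:ℝ)..(2 * π), |g y| ≤ c * (2 * W.lam k + 2 * W.kap k) := by
  have L := h.lev k
  have hπ := Real.pi_pos
  have i1 := BP_ii (L.bU true) 0 (2 * π)
  have i2 := BP_ii (L.bU false) 0 (2 * π)
  have i3 := BP_ii (L.bV true) 0 (2 * π)
  have i4 := BP_ii (L.bV false) 0 (2 * π)
  have hsum : ∫ y in (0:ℝ)..(2 * π),
      c * (W.iU k true y + W.iU k false y + W.iV k true y + W.iV k false y) =
      c * (2 * W.lam k + 2 * W.kap k) := by
    rw [intervalIntegral.integral_const_mul, intervalIntegral.integral_add ((i1.add i2).add i3) i4,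
      intervalIntegral.integral_add (i1.add i2) i3, intervalIntegral.integral_add i1 i2,
      L.intU, L.intU, L.intV, L.intV]
    unfold World.lam World.kap
    ring
  rw [← hsum]
  refine intervalIntegral.integral_mono_on (by positivity) (BP_ii hg 0 (2 * π)).abs
    ((((i1.add i2).add i3).add i4).const_mul c) fun y _ => ?_
  rcases L.zoU true y with a1 | a1 <;> rcases L.zoU false y with a2 | a2 <;>
    rcases L.zoV true y with a3 | a3 <;> rcases L.zoV false y with a4 | a4
  · have := h0 y (by rw [a1, a2, a3, a4]; norm_num)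
    rw [this, a1, a2, a3, a4]; simp
  all_goals
    rw [a1, a2, a3, a4]
    refine (hle y).trans ?_
    nlinarith

/-- the second primitives -/
theorem wx2_facts (W : World) (h : W.Reg) (k : ℕ) (hs : W.Small k) :
    Function.Periodic (W.w2 k) (2 * π) ∧ Function.Periodic (W.x2 k) (2 * π) ∧
    Continuous (W.w2 k) ∧ Continuous (W.x2 k) ∧
    (∀ η, W.al k / 4 * |W.w2 k η| ≤ 2 * W.mm k * W.lam k) ∧
    (∀ η, W.as k / 4 * |W.x2 k η| ≤ 2 * W.mm k * W.lam k) ∧
    (∃ L, ∀ a b, |W.w2 k a - W.w2 k b| ≤ L * |a - b|) ∧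
    (∃ L, ∀ a b, |W.x2 k a - W.x2 k b| ≤ L * |a - b|) ∧
    (∀ η : ℝ, HasDerivAt (W.w2 k) (W.w k η) η) ∧ (∀ η : ℝ, HasDerivAt (W.x2 k) (W.x k η) η) := by
  have L := h.lev k
  obtain ⟨b1, b2, b3, b4, b5, b6, b7, b8, -⟩ := world_basic W h.num
  obtain ⟨s1, s2, s3, s4, s5, s6, s7, s8⟩ := stage_ineq W h.num k hs
  have hmu := h.num.mu_pos k
  have hnu := h.num.nu_pos k
  have hep := h.num.ep_le k
  have hep0 := h.num.ep_pos k
  obtain ⟨p1, p2, p3, p4⟩ := prim_facts (W.w k) L.primw.bp _ L.wle L.w0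
  obtain ⟨q1, q2, q3, q4⟩ := prim_facts (W.x k) L.primx.bp _ L.xle L.x0
  have c1 := abs_int_le W h k L.primw.bp hmu.le L.wle (fun ξ h0 => (L.off ξ h0).1)
  have c2 := abs_int_le W h k L.primx.bp hnu.le L.xle (fun ξ h0 => (L.off ξ h0).2)
  have hal := b3 k
  have has := b4 k
  have hmm := b6 k
  have hlam := b1 k
  refine ⟨p1.bp.per, q1.bp.per, p1.cont, q1.cont, fun η => ?_, fun η => ?_, ⟨_, p2⟩, ⟨_, q2⟩,
    fun η => ?_, fun η => ?_⟩
  · have h1 : |W.w2 k η| ≤ W.mu k * (4 * W.lam k) := by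
      refine (p3 η).trans (c1.trans ?_)
      apply mul_le_mul_of_nonneg_left _ hmu.le
      linarith
    have h2 : W.al k / 4 * |W.w2 k η| ≤ W.al k / 4 * (W.mu k * (4 * W.lam k)) :=
      mul_le_mul_of_nonneg_left h1 (by positivity)
    refine h2.trans (le_of_eq ?_)
    unfold World.mm
    ring
  · have h1 : |W.x2 k η| ≤ W.nu k * (4 * W.lam k) := by
      refine (q3 η).trans (c2.trans ?_)
      apply mul_le_mul_of_nonneg_left _ hnu.le
      linarith
    have h2 : W.as k / 4 * |W.x2 k η| ≤ W.as k / 4 * (W.nu k * (4 * W.lam k)) :=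
      mul_le_mul_of_nonneg_left h1 (by positivity)
    refine h2.trans ?_
    have h3 : W.as k / 4 * (W.nu k * (4 * W.lam k)) = W.as k * W.nu k * W.lam k := by ring
    rw [h3]
    apply mul_le_mul_of_nonneg_right _ hlam.le
    refine s6.trans ?_
    nlinarith
  · exact intervalIntegral.integral_hasDerivAt_right (BP_ii L.primw.bp 0 η)
      (L.primw.cont.stronglyMeasurableAtFilter _ _) L.primw.cont.continuousAt
  · exact intervalIntegral.integral_hasDerivAt_right (BP_ii L.primx.bp 0 η)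
      (L.primx.cont.stronglyMeasurableAtFilter _ _) L.primx.cont.continuousAt

end Haraux
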