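import Pool.Agent.Helper27.Har.Base
import Pool.Agent.Helper27.Har.P_cc_deriv
import Pool.Agent.Helper27.Har.P_cell_identity
import Pool.Agent.Helper27.Har.P_wx2_facts

set_option autoImplicit false

open MeasureTheory Set Real Filter Topology
open scoped ENNReal NNReal

namespace Haraux



private theorem comp13609 {f : ℝ → ℝ} {f' t ξ : ℝ} (hf : HasDerivAt f f' (2 * t - ξ)) :
    HasDerivAt (fun s => f (2 * s - ξ)) (f' * 2) t := by
  have hin : HasDerivAt (fun s : ℝ => 2 * s - ξ) 2 t := by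
    simpa using ((hasDerivAt_id t).const_mul (2:ℝ)).sub_const ξ
  exact HasDerivAt.comp (h₂ := f) (h := fun s : ℝ => 2 * s - ξ) t hf hin

/-- time derivative of the pseudo-orbit -/
theorem Bt_deriv (W : World) (h : W.Reg) (k : ℕ) (hs : W.Small k) (t : ℝ) :
    ∀ᵐ ξ : ℝ, HasDerivAt (fun s => W.Bt k s ξ) (W.Dt k t ξ) t := by
  obtain ⟨-, -, -, -, -, -, -, -, hw, hx⟩ := wx2_facts W h k hs
  have hmp := (Measure.measurePreserving_sub_left (volume : Measure ℝ) (2 * t)).quasiMeasurePreserving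
  have h1 := hmp.ae (cc_deriv W h k hs (W.r1 k) (W.q1 k) (Or.inl ⟨rfl, rfl⟩))
  have h2 := hmp.ae (cc_deriv W h k hs (W.r2 k) (fun _ => 0) (Or.inr ⟨rfl, rfl⟩))
  filter_upwards [h1, h2] with ξ e1 e2
  obtain ⟨c1, c2⟩ := cell_identity W h k hs ξ
  have f1 := e1 ξ
  have f2 := e2 ξ
  have g1 := comp13609 (f := fun η => W.cc k (W.r1 k) (W.q1 k) ξ η) f1
  have g2 := comp13609 (f := fun η => W.cc k (W.r2 k) (fun _ => 0) ξ η) f2
  have g3 := comp13609 (f := W.w2 k) (hw (2 * t - ξ))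
  have g4 := comp13609 (f := W.x2 k) (hx (2 * t - ξ))
  have hom : HasDerivAt (fun s : ℝ => W.om0 k * s) (W.om0 k) t := by
    simpa using (hasDerivAt_id t).const_mul (W.om0 k)
  have hc := hom.cos
  have hsn := hom.sin
  have k1 := g1.add (g3.const_mul (W.al k / 4))
  have k2 := g2.add (g4.const_mul (W.as k / 4))
  have hB := ((hc.mul_const (W.al k * W.u k ξ)).add
    (hsn.mul_const (W.as k * (W.u (k + 1) ξ + W.v k ξ)))).add ((hc.mul k1).add (hsn.mul k2))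
  refine HasDerivAt.congr_deriv (f := fun s => W.Bt k s ξ) hB ?_
  obtain ⟨S1, hS1⟩ : ∃ S1, S1 = (∑ s : Bool, ((W.iU k s ξ + W.iV k s ξ) * W.r1 k ξ +
    W.iU (k + 1) s ξ * W.q1 k s)) := ⟨_, rfl⟩
  obtain ⟨S2, hS2⟩ : ∃ S2, S2 = (∑ s : Bool, ((W.iU k s ξ + W.iV k s ξ) * W.r2 k ξ +
    W.iU (k + 1) s ξ * (0:ℝ))) := ⟨_, rfl⟩
  rw [← hS1] at c1 ⊢
  rw [← hS2] at c2 ⊢
  have d1 : S1 = -(W.al k / 2 * W.w k ξ) - W.om0 k * W.as k * (W.u (k + 1) ξ + W.v k ξ) := by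
    linarith
  have d2 : S2 = -(W.as k / 2 * W.x k ξ) + W.om0 k * W.al k * W.u k ξ := by
    linarith
  rw [d1, d2]
  unfold World.Dt World.Ff World.Gh World.Rs World.K1 World.K2
  simp only [Pi.add_apply]
  ring

end Haraux
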