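import Pool.Agent.Helper27.Har.Base
import Pool.Agent.Helper27.Har.P_world_basic
import Pool.Agent.Helper27.Har.P_stage_ineq
import Pool.Agent.Helper27.Har.P_stage_disj
import Pool.Agent.Helper27.Har.P_r_bounds

set_option autoImplicit false

open MeasureTheory Set Real Filter Topology
open scoped ENNReal NNReal

namespace Haraux



private theorem Gh_six (a b c d e f : ℝ) (ha : a = 0 ∨ a = 1) (hb : b = 0 ∨ b = 1) (hc : c = 0 ∨ c = 1)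
    (hd : d = 0 ∨ d = 1) (he : e = 0 ∨ e = 1) (hf : f = 0 ∨ f = 1) (h : a + b + c + d + e + f ≤ 1) :
    (a = 0 ∧ b = 0 ∧ c = 0 ∧ d = 0 ∧ e = 0 ∧ f = 0) ∨
    (a = 1 ∧ b = 0 ∧ c = 0 ∧ d = 0 ∧ e = 0 ∧ f = 0) ∨
    (a = 0 ∧ b = 1 ∧ c = 0 ∧ d = 0 ∧ e = 0 ∧ f = 0) ∨
    (a = 0 ∧ b = 0 ∧ c = 1 ∧ d = 0 ∧ e = 0 ∧ f = 0) ∨
    (a = 0 ∧ b = 0 ∧ c = 0 ∧ d = 1 ∧ e = 0 ∧ f = 0) ∨
    (a = 0 ∧ b = 0 ∧ c = 0 ∧ d = 0 ∧ e = 1 ∧ f = 0) ∨
    (a = 0 ∧ b = 0 ∧ c = 0 ∧ d = 0 ∧ e = 0 ∧ f = 1) := by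
  rcases ha with rfl | rfl <;> rcases hb with rfl | rfl <;> rcases hc with rfl | rfl <;>
    rcases hd with rfl | rfl <;> rcases he with rfl | rfl <;> rcases hf with rfl | rfl <;>
    first
      | (exfalso; norm_num at h; done)
      | simp

private theorem Gh_pqr (a b c d e f a' b' c' d' e' f' : ℝ)
    (h : (a = 0 ∧ b = 0 ∧ c = 0 ∧ d = 0 ∧ e = 0 ∧ f = 0) ∨
    (a = 1 ∧ b = 0 ∧ c = 0 ∧ d = 0 ∧ e = 0 ∧ f = 0) ∨
    (a = 0 ∧ b = 1 ∧ c = 0 ∧ d = 0 ∧ e = 0 ∧ f = 0) ∨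
    (a = 0 ∧ b = 0 ∧ c = 1 ∧ d = 0 ∧ e = 0 ∧ f = 0) ∨
    (a = 0 ∧ b = 0 ∧ c = 0 ∧ d = 1 ∧ e = 0 ∧ f = 0) ∨
    (a = 0 ∧ b = 0 ∧ c = 0 ∧ d = 0 ∧ e = 1 ∧ f = 0) ∨
    (a = 0 ∧ b = 0 ∧ c = 0 ∧ d = 0 ∧ e = 0 ∧ f = 1))
    (h' : (a' = 0 ∧ b' = 0 ∧ c' = 0 ∧ d' = 0 ∧ e' = 0 ∧ f' = 0) ∨
    (a' = 1 ∧ b' = 0 ∧ c' = 0 ∧ d' = 0 ∧ e' = 0 ∧ f' = 0) ∨
    (a' = 0 ∧ b' = 1 ∧ c' = 0 ∧ d' = 0 ∧ e' = 0 ∧ f' = 0) ∨
    (a' = 0 ∧ b' = 0 ∧ c' = 1 ∧ d' = 0 ∧ e' = 0 ∧ f' = 0) ∨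
    (a' = 0 ∧ b' = 0 ∧ c' = 0 ∧ d' = 1 ∧ e' = 0 ∧ f' = 0) ∨
    (a' = 0 ∧ b' = 0 ∧ c' = 0 ∧ d' = 0 ∧ e' = 1 ∧ f' = 0) ∨
    (a' = 0 ∧ b' = 0 ∧ c' = 0 ∧ d' = 0 ∧ e' = 0 ∧ f' = 1)) :
    (a * a' + b * b' = 0 ∧ c * e' + d * f' = 0 ∧ e * c' + f * d' = 0) ∨
    (a * a' + b * b' = 1 ∧ c * e' + d * f' = 0 ∧ e * c' + f * d' = 0 ∧
      ((a = 1 ∧ a' = 1) ∨ (b = 1 ∧ b' = 1))) ∨
    (a * a' + b * b' = 0 ∧ c * e' + d * f' = 1 ∧ e * c' + f * d' = 0 ∧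
      ((c = 1 ∧ e' = 1) ∨ (d = 1 ∧ f' = 1))) ∨
    (a * a' + b * b' = 0 ∧ c * e' + d * f' = 0 ∧ e * c' + f * d' = 1 ∧
      ((e = 1 ∧ c' = 1) ∨ (f = 1 ∧ d' = 1))) := by
  rcases h with ⟨rfl, rfl, rfl, rfl, rfl, rfl⟩ | ⟨rfl, rfl, rfl, rfl, rfl, rfl⟩ |
    ⟨rfl, rfl, rfl, rfl, rfl, rfl⟩ | ⟨rfl, rfl, rfl, rfl, rfl, rfl⟩ |
    ⟨rfl, rfl, rfl, rfl, rfl, rfl⟩ | ⟨rfl, rfl, rfl, rfl, rfl, rfl⟩ |
    ⟨rfl, rfl, rfl, rfl, rfl, rfl⟩ <;>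
  rcases h' with ⟨rfl, rfl, rfl, rfl, rfl, rfl⟩ | ⟨rfl, rfl, rfl, rfl, rfl, rfl⟩ |
    ⟨rfl, rfl, rfl, rfl, rfl, rfl⟩ | ⟨rfl, rfl, rfl, rfl, rfl, rfl⟩ |
    ⟨rfl, rfl, rfl, rfl, rfl, rfl⟩ | ⟨rfl, rfl, rfl, rfl, rfl, rfl⟩ |
    ⟨rfl, rfl, rfl, rfl, rfl, rfl⟩ <;>
  simp

private theorem Gg_eq (W : World) (k : ℕ) (r : ℝ → ℝ) (ξ η : ℝ) :
    W.Gg k r ξ η = 4 * π / W.lam k *
      ((W.iU k true ξ * W.iU k true η + W.iU k false ξ * W.iU k false η) * (r ξ - r η)) +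
      4 * π / W.lam (k + 1) *
      ((W.iV k true ξ * W.iU (k + 1) true η + W.iV k false ξ * W.iU (k + 1) false η) * r ξ -
        (W.iU (k + 1) true ξ * W.iV k true η + W.iU (k + 1) false ξ * W.iV k false η) * r η) := by
  unfold World.Gg
  rw [Fintype.sum_bool]
  ring

/-- classification -/
private theorem Gh_cases (W : World) (h : W.Reg) (k : ℕ) (ξ η : ℝ) :
    (∀ r : ℝ → ℝ, W.Gg k r ξ η = 0) ∨
    ((∀ r : ℝ → ℝ, W.Gg k r ξ η = 4 * π / W.lam k * (r ξ - r η)) ∧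
      ∃ s, W.iU k s ξ = 1 ∧ W.iU k s η = 1) ∨
    ((∀ r : ℝ → ℝ, W.Gg k r ξ η = 4 * π / W.lam (k + 1) * r ξ) ∧
      ∃ s, W.iV k s ξ = 1 ∧ W.iU (k + 1) s η = 1) ∨
    ((∀ r : ℝ → ℝ, W.Gg k r ξ η = -(4 * π / W.lam (k + 1) * r η)) ∧
      ∃ s, W.iU (k + 1) s ξ = 1 ∧ W.iV k s η = 1) := by
  have hU := fun j s ξ => (h.lev j).zoU s ξ
  have hV := fun j s ξ => (h.lev j).zoV s ξ
  have six : ∀ ξ, _ := fun ξ => Gh_six (W.iU k true ξ) (W.iU k false ξ) (W.iV k true ξ)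
    (W.iV k false ξ) (W.iU (k + 1) true ξ) (W.iU (k + 1) false ξ) (hU k true ξ) (hU k false ξ)
    (hV k true ξ) (hV k false ξ) (hU (k + 1) true ξ) (hU (k + 1) false ξ) (stage_disj W h k ξ).1
  rcases Gh_pqr _ _ _ _ _ _ _ _ _ _ _ _ (six ξ) (six η) with ⟨h1, h2, h3⟩ | ⟨h1, h2, h3, h4⟩ |
    ⟨h1, h2, h3, h4⟩ | ⟨h1, h2, h3, h4⟩
  · left
    intro r
    rw [Gg_eq, h1, h2, h3]; ring
  · right; left
    refine ⟨fun r => ?_, ?_⟩
    · rw [Gg_eq, h1, h2, h3]; ring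
    · rcases h4 with h4 | h4
      exacts [⟨true, h4⟩, ⟨false, h4⟩]
  · right; right; left
    refine ⟨fun r => ?_, ?_⟩
    · rw [Gg_eq, h1, h2, h3]; ring
    · rcases h4 with h4 | h4
      exacts [⟨true, h4⟩, ⟨false, h4⟩]
  · right; right; right
    refine ⟨fun r => ?_, ?_⟩
    · rw [Gg_eq, h1, h2, h3]; ring
    · rcases h4 with h4 | h4
      exacts [⟨true, h4⟩, ⟨false, h4⟩]

private theorem Gh_cs (c s : ℝ) (h : c ^ 2 + s ^ 2 = 1) : |c| + |s| ≤ 1.4143 := by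
  have h1 : (|c| + |s|) ^ 2 ≤ 2 := by
    nlinarith [sq_nonneg (|c| - |s|), sq_abs c, sq_abs s]
  have h2 : 0 ≤ |c| + |s| := by positivity
  nlinarith

private theorem Gg_anti (W : World) (k : ℕ) (r : ℝ → ℝ) (ξ η : ℝ) : W.Gg k r η ξ = -W.Gg k r ξ η := by
  rw [Gg_eq, Gg_eq]; ring

private theorem Gg_meas (W : World) (h : W.Reg) (k : ℕ) (r : ℝ → ℝ) (hr : Measurable r) :
    Measurable (fun p : ℝ × ℝ => W.Gg k r p.1 p.2) := by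
  have mU := fun j s => ((h.lev j).bU s).meas
  have mV := fun j s => ((h.lev j).bV s).meas
  simp only [Gg_eq]
  have mU1 : ∀ j s, Measurable (fun p : ℝ × ℝ => W.iU j s p.1) :=
    fun j s => (mU j s).comp measurable_fst
  have mU2 : ∀ j s, Measurable (fun p : ℝ × ℝ => W.iU j s p.2) :=
    fun j s => (mU j s).comp measurable_snd
  have mV1 : ∀ j s, Measurable (fun p : ℝ × ℝ => W.iV j s p.1) :=
    fun j s => (mV j s).comp measurable_fst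
  have mV2 : ∀ j s, Measurable (fun p : ℝ × ℝ => W.iV j s p.2) :=
    fun j s => (mV j s).comp measurable_snd
  have mr1 : Measurable (fun p : ℝ × ℝ => r p.1) := hr.comp measurable_fst
  have mr2 : Measurable (fun p : ℝ × ℝ => r p.2) := hr.comp measurable_snd
  exact ((((mU1 k true).mul (mU2 k true)).add ((mU1 k false).mul (mU2 k false))).mul
    (mr1.sub mr2)).const_mul _ |>.add
    ((((((mV1 k true).mul (mU2 (k + 1) true)).add ((mV1 k false).mul (mU2 (k + 1) false))).mul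
    mr1).sub ((((mU1 (k + 1) true).mul (mV2 k true)).add
      ((mU1 (k + 1) false).mul (mV2 k false))).mul mr2)).const_mul _)

private theorem Gg_per (W : World) (h : W.Reg) (k : ℕ) (r : ℝ → ℝ) (hr : Function.Periodic r (2 * π))
    (ξ η : ℝ) : W.Gg k r (ξ + 2 * π) η = W.Gg k r ξ η := by
  have pU := fun j s => ((h.lev j).bU s).per
  have pV := fun j s => ((h.lev j).bV s).per
  rw [Gg_eq, Gg_eq, pU k true ξ, pU k false ξ, pV k true ξ, pV k false ξ, pU (k + 1) true ξ,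
    pU (k + 1) false ξ, hr ξ]

private theorem Gg_per' (W : World) (h : W.Reg) (k : ℕ) (r : ℝ → ℝ) (hr : Function.Periodic r (2 * π))
    (ξ η : ℝ) : W.Gg k r ξ (η + 2 * π) = W.Gg k r ξ η := by
  rw [Gg_anti, Gg_per W h k r hr, ← Gg_anti]

private theorem Gg_bound (W : World) (h : W.Reg) (k : ℕ) (hs : W.Small k) (r : ℝ → ℝ)
    (hr : ∀ ξ, |r ξ| ≤ W.mm k) (ξ η : ℝ) :
    |W.Gg k r ξ η| ≤ 8 * π * (W.mm k / W.lam (k + 1)) := by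
  obtain ⟨hl, -, -, -, -, hm, -⟩ := world_basic W h.num
  have hl1 := hl (k + 1)
  have hl0 := hl k
  have hm0 := hm k
  have hq : 0 < W.mm k / W.lam (k + 1) := div_pos hm0 hl1
  have hq2 : W.mm k / W.lam k ≤ W.mm k / W.lam (k + 1) :=
    div_le_div_of_nonneg_left hm0.le hl1 hs.c2
  have hpi := Real.pi_pos
  rcases Gh_cases W h k ξ η with h1 | ⟨h1, -⟩ | ⟨h1, -⟩ | ⟨h1, -⟩
  · rw [h1, abs_zero]; positivity
  · rw [h1, abs_mul, abs_of_pos (by positivity : 0 < 4 * π / W.lam k)]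
    have h2 : |r ξ - r η| ≤ 2 * W.mm k := by
      have := abs_sub (r ξ) (r η)
      linarith [hr ξ, hr η]
    calc 4 * π / W.lam k * |r ξ - r η| ≤ 4 * π / W.lam k * (2 * W.mm k) :=
          mul_le_mul_of_nonneg_left h2 (by positivity)
      _ = 8 * π * (W.mm k / W.lam k) := by ring
      _ ≤ _ := mul_le_mul_of_nonneg_left hq2 (by positivity)
  · rw [h1, abs_mul, abs_of_pos (by positivity : 0 < 4 * π / W.lam (k + 1))]
    calc 4 * π / W.lam (k + 1) * |r ξ| ≤ 4 * π / W.lam (k + 1) * (W.mm k) :=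
          mul_le_mul_of_nonneg_left (hr ξ) (by positivity)
      _ = 4 * π * (W.mm k / W.lam (k + 1)) := by ring
      _ ≤ _ := by nlinarith [mul_pos hpi hq]
  · rw [h1, abs_neg, abs_mul, abs_of_pos (by positivity : 0 < 4 * π / W.lam (k + 1))]
    calc 4 * π / W.lam (k + 1) * |r η| ≤ 4 * π / W.lam (k + 1) * (W.mm k) :=
          mul_le_mul_of_nonneg_left (hr η) (by positivity)
      _ = 4 * π * (W.mm k / W.lam (k + 1)) := by ring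
      _ ≤ _ := by nlinarith [mul_pos hpi hq]

/-- facts about the constraint force -/
theorem Gh_facts (W : World) (h : W.Reg) (k : ℕ) (hs : W.Small k) (t : ℝ) :
    (∀ ξ η, |W.Gh k t ξ η| ≤ 36 * W.mm k / W.lam (k + 1)) ∧
    (∀ ξ η, W.Gh k t η ξ = -W.Gh k t ξ η) ∧
    Measurable (fun p : ℝ × ℝ => W.Gh k t p.1 p.2) ∧
    (∀ ξ η, W.Gh k t (ξ + 2 * π) η = W.Gh k t ξ η) ∧ (∀ ξ η, W.Gh k t ξ (η + 2 * π) = W.Gh k t ξ η) ∧
    (W.ep k / 2 ≤ Real.cos (W.om0 k * t) → 0 ≤ Real.sin (W.om0 k * t) → ∀ ξ η,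
      W.Gh k t ξ η = 0 ∨ (∃ s, W.iU k s ξ = 1 ∧ W.iU k s η = 1) ∨
      (∃ s, W.iV k s ξ = 1 ∧ W.iU (k + 1) s η = 1 ∧ 0 ≤ sg s * W.Gh k t ξ η) ∨
      (∃ s, W.iU (k + 1) s ξ = 1 ∧ W.iV k s η = 1 ∧ sg s * W.Gh k t ξ η ≤ 0)) := by
  obtain ⟨hr1, hr2, mr1, mr2, pr1, pr2, hsign, -⟩ := r_bounds W h k hs
  obtain ⟨hl, -, -, -, -, hm, -⟩ := world_basic W h.num
  have hl1 := hl (k + 1)
  have hm0 := hm k
  have hq : 0 < W.mm k / W.lam (k + 1) := div_pos hm0 hl1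
  have hpi := Real.pi_pos
  refine ⟨?_, ?_, ?_, ?_, ?_, ?_⟩
  · intro ξ η
    have b1 := Gg_bound W h k hs (W.r1 k) hr1 ξ η
    have b2 := Gg_bound W h k hs (W.r2 k) hr2 ξ η
    have hcs := Gh_cs _ _ (Real.cos_sq_add_sin_sq (W.om0 k * t))
    have e : 36 * W.mm k / W.lam (k + 1) = 36 * (W.mm k / W.lam (k + 1)) := by ring
    rw [e]
    unfold World.Gh
    calc |Real.cos (W.om0 k * t) * W.Gg k (W.r1 k) ξ η +
          Real.sin (W.om0 k * t) * W.Gg k (W.r2 k) ξ η|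
        ≤ |Real.cos (W.om0 k * t) * W.Gg k (W.r1 k) ξ η| +
          |Real.sin (W.om0 k * t) * W.Gg k (W.r2 k) ξ η| := abs_add_le _ _
      _ = |Real.cos (W.om0 k * t)| * |W.Gg k (W.r1 k) ξ η| +
          |Real.sin (W.om0 k * t)| * |W.Gg k (W.r2 k) ξ η| := by rw [abs_mul, abs_mul]
      _ ≤ |Real.cos (W.om0 k * t)| * (8 * π * (W.mm k / W.lam (k + 1))) +
          |Real.sin (W.om0 k * t)| * (8 * π * (W.mm k / W.lam (k + 1))) :=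
          add_le_add (mul_le_mul_of_nonneg_left b1 (abs_nonneg _))
            (mul_le_mul_of_nonneg_left b2 (abs_nonneg _))
      _ = (|Real.cos (W.om0 k * t)| + |Real.sin (W.om0 k * t)|) *
          (8 * π * (W.mm k / W.lam (k + 1))) := by ring
      _ ≤ 1.4143 * (8 * π * (W.mm k / W.lam (k + 1))) :=
          mul_le_mul_of_nonneg_right hcs (by positivity)
      _ = (1.4143 * 8 * π) * (W.mm k / W.lam (k + 1)) := by ring
      _ ≤ 36 * (W.mm k / W.lam (k + 1)) := by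
          refine mul_le_mul_of_nonneg_right ?_ hq.le
          have := Real.pi_lt_d4
          norm_num at this ⊢
          linarith
  · intro ξ η
    unfold World.Gh
    rw [Gg_anti W k (W.r1 k) ξ η, Gg_anti W k (W.r2 k) ξ η]; ring
  · unfold World.Gh
    exact ((Gg_meas W h k _ mr1).const_mul _).add ((Gg_meas W h k _ mr2).const_mul _)
  · intro ξ η
    unfold World.Gh
    rw [Gg_per W h k _ pr1, Gg_per W h k _ pr2]
  · intro ξ η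
    unfold World.Gh
    rw [Gg_per' W h k _ pr1, Gg_per' W h k _ pr2]
  · intro hc hsn ξ η
    have hs1 : Real.sin (W.om0 k * t) ≤ 1 := Real.sin_le_one _
    have hf : 0 < 4 * π / W.lam (k + 1) := by positivity
    rcases Gh_cases W h k ξ η with h1 | ⟨h1, h2⟩ | ⟨h1, s, h2, h3⟩ | ⟨h1, s, h2, h3⟩
    · left
      unfold World.Gh
      rw [h1, h1]; ring
    · right; left
      exact h2
    · right; right; left
      refine ⟨s, h2, h3, ?_⟩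
      have h4 := mul_nonneg hf.le (hsign ξ s _ _ h2 hc hsn hs1)
      unfold World.Gh
      rw [h1, h1]
      calc (0 : ℝ) ≤ _ := h4
        _ = _ := by ring
    · right; right; right
      refine ⟨s, h2, h3, ?_⟩
      have h4 := mul_nonneg hf.le (hsign η s _ _ h3 hc hsn hs1)
      unfold World.Gh
      rw [h1, h1]
      have e : sg s * (Real.cos (W.om0 k * t) * -(4 * π / W.lam (k + 1) * W.r1 k η) +
          Real.sin (W.om0 k * t) * -(4 * π / W.lam (k + 1) * W.r2 k η)) =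
          -(4 * π / W.lam (k + 1) * (sg s * (Real.cos (W.om0 k * t) * W.r1 k η +
            Real.sin (W.om0 k * t) * W.r2 k η))) := by ring
      rw [e]
      linarith

end Haraux
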