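import Pool.Agent.Helper27.Har.Base
import Pool.Agent.Helper27.Har.P_world_basic
import Pool.Agent.Helper27.Har.P_stage_ineq
import Pool.Agent.Helper27.Har.P_stage_disj
import Pool.Agent.Helper27.Har.P_r_bounds
import Pool.Agent.Helper27.Har.P_Ph_facts
import Pool.Agent.Helper27.Har.P_Ps_facts
import Pool.Agent.Helper27.Har.P_Xi_facts

set_option autoImplicit false

open MeasureTheory Set Real Filter Topology
open scoped ENNReal NNReal

namespace Haraux



private lemma cc_aux_term {i j l R P S Q X M B C : ℝ} (hi : i = 0 ∨ i = 1) (hj : j = 0 ∨ j = 1)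
    (hl : l = 0 ∨ l = 1) (h1 : |R * P + S| ≤ M) (h2 : |R * Q| ≤ B) (h3 : |X| ≤ C) :
    |i * (R * P + S) + j * (R * Q) + l * X| ≤ M * i + B * j + C * l := by
  have e1 : |i * (R * P + S)| ≤ M * i := by
    rcases hi with h | h <;> rw [h]
    · simp
    · simpa using h1
  have e2 : |j * (R * Q)| ≤ B * j := by
    rcases hj with h | h <;> rw [h]
    · simp
    · rw [one_mul, mul_one]; exact h2
  have e3 : |l * X| ≤ C * l := by
    rcases hl with h | h <;> rw [h]
    · simp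
    · simpa using h3
  have e4 := abs_add_le (i * (R * P + S) + j * (R * Q)) (l * X)
  have e5 := abs_add_le (i * (R * P + S)) (j * (R * Q))
  linarith

private lemma cc_aux_lip {f : ℝ → ℝ} (h : ∃ L, ∀ a b, |f a - f b| ≤ L * |a - b|) :
    ∃ L, 0 ≤ L ∧ ∀ a b, |f a - f b| ≤ L * |a - b| := by
  obtain ⟨L, hL⟩ := h
  refine ⟨|L|, abs_nonneg _, fun a b => (hL a b).trans ?_⟩
  exact mul_le_mul_of_nonneg_right (le_abs_self L) (abs_nonneg _)

private lemma cc_aux_ind {i x C : ℝ} (hi : i = 0 ∨ i = 1) (hx : |x| ≤ C) : |i * x| ≤ C := by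
  have hC : 0 ≤ C := (abs_nonneg x).trans hx
  rcases hi with h | h <;> rw [h]
  · simpa using hC
  · simpa using hx

/-- bounds and regularity of the corrector `cc` -/
theorem cc_facts (W : World) (h : W.Reg) (k : ℕ) (hs : W.Small k) (r : ℝ → ℝ) (q : Bool → ℝ)
    (hr : (r = W.r1 k ∧ q = W.q1 k) ∨ (r = W.r2 k ∧ q = fun _ => 0)) :
    (∀ ξ η, |W.cc k r q ξ η| ≤ 2 * π * W.mm k * (W.iU k true ξ + W.iU k false ξ)
      + π * W.mm k * (W.iV k true ξ + W.iV k false ξ)
      + 2 * π * W.mm k * W.kap k / W.lam (k + 1) * (W.iU (k + 1) true ξ + W.iU (k + 1) false ξ)) ∧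
    (∀ t, Measurable (fun ξ => W.cc k r q ξ (2 * t - ξ))) ∧
    (∀ ξ η, W.cc k r q (ξ + 2 * π) η = W.cc k r q ξ η) ∧
    (∀ ξ η, W.cc k r q ξ (η + 2 * π) = W.cc k r q ξ η) ∧
    (∃ L, ∀ ξ a b, |W.cc k r q ξ a - W.cc k r q ξ b| ≤ L * |a - b|) := by
  have hb := world_basic W h.num
  have hlam : 0 < W.lam k := hb.1 k
  have hmm : 0 < W.mm k := hb.2.2.2.2.2.1 k
  have hrb := r_bounds W h k hs
  have hr' : r = W.r1 k ∨ r = W.r2 k := hr.imp (fun h => h.1) (fun h => h.1)
  have hrle : ∀ ξ, |r ξ| ≤ W.mm k := by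
    rcases hr' with e | e <;> rw [e]
    · exact hrb.1
    · exact hrb.2.1
  have hrm : Measurable r := by
    rcases hr' with e | e <;> rw [e]
    · exact hrb.2.2.1
    · exact hrb.2.2.2.1
  have hrp : Function.Periodic r (2 * π) := by
    rcases hr' with e | e <;> rw [e]
    · exact hrb.2.2.2.2.1
    · exact hrb.2.2.2.2.2.1
  have hP := fun s => Ph_facts W h k s
  have hP' := fun s => Ph_facts W h (k + 1) s
  have hS := fun s => Ps_facts W h k hs r hr' s
  have hX := fun s => Xi_facts W h k hs r q hr s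
  have hl := h.lev k
  have hl' := h.lev (k + 1)
  have hpi := Real.pi_pos
  have hSb : ∀ s η, |π / W.lam k * W.Ps k r s η| ≤ π * W.mm k := by
    intro s η
    rw [abs_mul, abs_of_pos (div_pos hpi hlam)]
    have h1 := mul_le_mul_of_nonneg_left ((hS s).2.2.1 η) (div_pos hpi hlam).le
    have h2 : π / W.lam k * (W.mm k * W.lam k) = π * W.mm k := by
      field_simp
    linarith
  have hPb : ∀ s ξ η, |r ξ * W.Ph k s η| ≤ π * W.mm k := by
    intro s ξ η
    rw [abs_mul, mul_comm π]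
    exact mul_le_mul (hrle ξ) ((hP s).2.2.1 η) (abs_nonneg _) hmm.le
  have hPb' : ∀ s ξ η, |r ξ * W.Ph (k + 1) s η| ≤ π * W.mm k := by
    intro s ξ η
    rw [abs_mul, mul_comm π]
    exact mul_le_mul (hrle ξ) ((hP' s).2.2.1 η) (abs_nonneg _) hmm.le
  refine ⟨?_, ?_, ?_, ?_, ?_⟩
  · intro ξ η
    unfold World.cc
    rw [Fintype.sum_bool]
    have key : ∀ s : Bool, |W.iU k s ξ * (r ξ * W.Ph k s η + π / W.lam k * W.Ps k r s η)
        + W.iV k s ξ * (r ξ * W.Ph (k + 1) s η) + W.iU (k + 1) s ξ * W.Xi k r q s η| ≤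
        2 * π * W.mm k * W.iU k s ξ + π * W.mm k * W.iV k s ξ +
          2 * π * W.mm k * W.kap k / W.lam (k + 1) * W.iU (k + 1) s ξ := by
      intro s
      apply cc_aux_term (hl.zoU s ξ) (hl.zoV s ξ) (hl'.zoU s ξ) _ (hPb' s ξ η) ((hX s).2.2.1 η)
      have h1 := abs_add_le (r ξ * W.Ph k s η) (π / W.lam k * W.Ps k r s η)
      have h2 := hPb s ξ η
      have h3 := hSb s η
      linarith
    have h1 := key true
    have h2 := key false
    refine (abs_add_le _ _).trans ?_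
    linarith
  · intro t
    unfold World.cc
    simp only [Fintype.sum_bool]
    have mη : Measurable fun ξ : ℝ => 2 * t - ξ := by fun_prop
    have key : ∀ s : Bool, Measurable fun ξ =>
        W.iU k s ξ * (r ξ * W.Ph k s (2 * t - ξ) + π / W.lam k * W.Ps k r s (2 * t - ξ))
        + W.iV k s ξ * (r ξ * W.Ph (k + 1) s (2 * t - ξ))
        + W.iU (k + 1) s ξ * W.Xi k r q s (2 * t - ξ) := by
      intro s
      have m1 : Measurable fun ξ => W.Ph k s (2 * t - ξ) := (hP s).2.1.measurable.comp mη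
      have m2 : Measurable fun ξ => W.Ph (k + 1) s (2 * t - ξ) := (hP' s).2.1.measurable.comp mη
      have m3 : Measurable fun ξ => W.Ps k r s (2 * t - ξ) := (hS s).2.1.measurable.comp mη
      have m4 : Measurable fun ξ => W.Xi k r q s (2 * t - ξ) := (hX s).2.1.measurable.comp mη
      exact (((hl.bU s).meas.mul ((hrm.mul m1).add (m3.const_mul _))).add
        ((hl.bV s).meas.mul (hrm.mul m2))).add ((hl'.bU s).meas.mul m4)
    exact (key true).add (key false)
  · intro ξ η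
    unfold World.cc
    apply Finset.sum_congr rfl
    intro s _
    rw [(hl.bU s).per ξ, (hl.bV s).per ξ, (hl'.bU s).per ξ, hrp ξ]
  · intro ξ η
    unfold World.cc
    apply Finset.sum_congr rfl
    intro s _
    rw [(hP s).1 η, (hP' s).1 η, (hS s).1 η, (hX s).1 η]
  · have key : ∀ s : Bool, ∃ L, ∀ ξ a b,
        |(W.iU k s ξ * (r ξ * W.Ph k s a + π / W.lam k * W.Ps k r s a)
        + W.iV k s ξ * (r ξ * W.Ph (k + 1) s a) + W.iU (k + 1) s ξ * W.Xi k r q s a) -
        (W.iU k s ξ * (r ξ * W.Ph k s b + π / W.lam k * W.Ps k r s b)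
        + W.iV k s ξ * (r ξ * W.Ph (k + 1) s b) + W.iU (k + 1) s ξ * W.Xi k r q s b)| ≤
          L * |a - b| := by
      intro s
      obtain ⟨L1, hL1, h1⟩ := cc_aux_lip (hP s).2.2.2.1
      obtain ⟨L2, hL2, h2⟩ := cc_aux_lip (hP' s).2.2.2.1
      obtain ⟨L3, hL3, h3⟩ := cc_aux_lip (hS s).2.2.2.1
      obtain ⟨L4, hL4, h4⟩ := cc_aux_lip (hX s).2.2.2.1
      refine ⟨W.mm k * L1 + π / W.lam k * L3 + W.mm k * L2 + L4, fun ξ a b => ?_⟩
      have e1 : |r ξ * (W.Ph k s a - W.Ph k s b)| ≤ W.mm k * (L1 * |a - b|) := by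
        rw [abs_mul]
        exact mul_le_mul (hrle ξ) (h1 a b) (abs_nonneg _) hmm.le
      have e2 : |r ξ * (W.Ph (k + 1) s a - W.Ph (k + 1) s b)| ≤ W.mm k * (L2 * |a - b|) := by
        rw [abs_mul]
        exact mul_le_mul (hrle ξ) (h2 a b) (abs_nonneg _) hmm.le
      have e3 : |π / W.lam k * (W.Ps k r s a - W.Ps k r s b)| ≤ π / W.lam k * (L3 * |a - b|) := by
        rw [abs_mul, abs_of_pos (div_pos hpi hlam)]
        exact mul_le_mul_of_nonneg_left (h3 a b) (div_pos hpi hlam).le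
      have f1 : |W.iU k s ξ * (r ξ * (W.Ph k s a - W.Ph k s b) +
          π / W.lam k * (W.Ps k r s a - W.Ps k r s b))| ≤
          W.mm k * (L1 * |a - b|) + π / W.lam k * (L3 * |a - b|) :=
        cc_aux_ind (hl.zoU s ξ) ((abs_add_le _ _).trans (add_le_add e1 e3))
      have f2 : |W.iV k s ξ * (r ξ * (W.Ph (k + 1) s a - W.Ph (k + 1) s b))| ≤
          W.mm k * (L2 * |a - b|) := cc_aux_ind (hl.zoV s ξ) e2
      have f3 : |W.iU (k + 1) s ξ * (W.Xi k r q s a - W.Xi k r q s b)| ≤ L4 * |a - b| :=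
        cc_aux_ind (hl'.zoU s ξ) (h4 a b)
      have e5 : (W.iU k s ξ * (r ξ * W.Ph k s a + π / W.lam k * W.Ps k r s a)
        + W.iV k s ξ * (r ξ * W.Ph (k + 1) s a) + W.iU (k + 1) s ξ * W.Xi k r q s a) -
        (W.iU k s ξ * (r ξ * W.Ph k s b + π / W.lam k * W.Ps k r s b)
        + W.iV k s ξ * (r ξ * W.Ph (k + 1) s b) + W.iU (k + 1) s ξ * W.Xi k r q s b) =
        W.iU k s ξ * (r ξ * (W.Ph k s a - W.Ph k s b) +
          π / W.lam k * (W.Ps k r s a - W.Ps k r s b)) +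
        W.iV k s ξ * (r ξ * (W.Ph (k + 1) s a - W.Ph (k + 1) s b)) +
        W.iU (k + 1) s ξ * (W.Xi k r q s a - W.Xi k r q s b) := by ring
      rw [e5]
      refine (abs_add_le _ _).trans ?_
      have g1 := abs_add_le (W.iU k s ξ * (r ξ * (W.Ph k s a - W.Ph k s b) +
          π / W.lam k * (W.Ps k r s a - W.Ps k r s b)))
        (W.iV k s ξ * (r ξ * (W.Ph (k + 1) s a - W.Ph (k + 1) s b)))
      linarith
    obtain ⟨L, hL⟩ := key true
    obtain ⟨L', hL'⟩ := key false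
    refine ⟨L + L', fun ξ a b => ?_⟩
    unfold World.cc
    rw [Fintype.sum_bool, Fintype.sum_bool]
    have g1 := hL ξ a b
    have g2 := hL' ξ a b
    rw [add_sub_add_comm, add_mul]
    exact (abs_add_le _ _).trans (add_le_add g1 g2)

end Haraux
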