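import Pool.Agent.Helper27.Har.Base
import Pool.Agent.Helper27.Har.P_world_basic
import Pool.Agent.Helper27.Har.P_stage_ineq
import Pool.Agent.Helper27.Har.P_stage_disj
import Pool.Agent.Helper27.Har.P_cc_facts
import Pool.Agent.Helper27.Har.P_wx2_facts

set_option autoImplicit false

open MeasureTheory Set Real Filter Topology
open scoped ENNReal NNReal

namespace Haraux



private theorem kb_bp_ii {φ : ℝ → ℝ} (h : BP φ) (a b : ℝ) : IntervalIntegrable φ volume a b := by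
  obtain ⟨C, hC⟩ := h.bdd
  refine (intervalIntegrable_const (c := C)).mono_fun' h.meas.aestronglyMeasurable
    (ae_of_all _ fun x => ?_)
  simpa using hC x

private theorem kb_cs (θ : ℝ) : |Real.cos θ| + |Real.sin θ| ≤ 1.415 := by
  have h1 := Real.cos_sq_add_sin_sq θ
  have h2 : (|Real.cos θ| + |Real.sin θ|) ^ 2 ≤ 1.415 ^ 2 := by
    nlinarith [sq_abs (Real.cos θ), sq_abs (Real.sin θ),
      sq_nonneg (|Real.cos θ| - |Real.sin θ|)]
  exact le_of_sq_le_sq h2 (by norm_num)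

private theorem kb_comb {c s x y M : ℝ} (h : |c| + |s| ≤ 1.415) (hx : |x| ≤ M) (hy : |y| ≤ M) :
    |c * x + s * y| ≤ 1.415 * M := by
  have hM : 0 ≤ M := le_trans (abs_nonneg _) hx
  calc |c * x + s * y| ≤ |c * x| + |s * y| := abs_add_le _ _
    _ = |c| * |x| + |s| * |y| := by rw [abs_mul, abs_mul]
    _ ≤ |c| * M + |s| * M := by gcongr
    _ = (|c| + |s|) * M := by ring
    _ ≤ 1.415 * M := by gcongr

/-- the common bound for `K1` and `K2` -/
private noncomputable def kbM (W : World) (k : ℕ) (ξ : ℝ) : ℝ :=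
  2 * π * W.mm k * (W.iU k true ξ + W.iU k false ξ)
      + π * W.mm k * (W.iV k true ξ + W.iV k false ξ)
      + 2 * π * W.mm k * W.kap k / W.lam (k + 1) * (W.iU (k + 1) true ξ + W.iU (k + 1) false ξ)
      + 2 * W.mm k * W.lam k

private theorem kb_K (W : World) (h : W.Reg) (k : ℕ) (hs : W.Small k) (ξ η : ℝ) :
    |W.K1 k ξ η| ≤ kbM W k ξ ∧ |W.K2 k ξ η| ≤ kbM W k ξ := by
  obtain ⟨-, -, hal, has, -⟩ := world_basic W h.num
  have h1 := (cc_facts W h k hs _ _ (Or.inl ⟨rfl, rfl⟩)).1 ξ η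
  have h2 := (cc_facts W h k hs _ _ (Or.inr ⟨rfl, rfl⟩)).1 ξ η
  obtain ⟨-, -, -, -, w1, w2, -⟩ := wx2_facts W h k hs
  have w1 := w1 η
  have w2 := w2 η
  have a1 := hal k
  have a2 := has k
  unfold World.K1 World.K2 kbM
  constructor
  · refine (abs_add_le _ _).trans (add_le_add h1 ?_)
    rw [abs_mul, abs_of_pos (by positivity : (0:ℝ) < W.al k / 4)]
    exact w1
  · refine (abs_add_le _ _).trans (add_le_add h2 ?_)
    rw [abs_mul, abs_of_pos (by positivity : (0:ℝ) < W.as k / 4)]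
    exact w2

private theorem kb_nn (W : World) (h : W.Reg) (j : ℕ) (s : Bool) (ξ : ℝ) :
    0 ≤ W.iU j s ξ ∧ 0 ≤ W.iV j s ξ := by
  constructor
  · rcases (h.lev j).zoU s ξ with e | e <;> rw [e]; norm_num
  · rcases (h.lev j).zoV s ξ with e | e <;> rw [e]; norm_num

private theorem kb_M (W : World) (h : W.Reg) (k : ℕ) (hs : W.Small k) (ξ : ℝ) :
    kbM W k ξ ≤ 9 * W.mm k := by
  obtain ⟨hlam, hkap, hal, has, -, hmm, -⟩ := world_basic W h.num
  obtain ⟨s1, s2, s3, -⟩ := stage_ineq W h.num k hs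
  have s4 := hs.c3
  have d := (stage_disj W h k ξ).1
  have m0 := hmm k
  have hpi := Real.pi_pos
  have hpi2 := Real.pi_lt_d2
  have l0 := hlam (k + 1)
  have n1 := (kb_nn W h k true ξ).1
  have n2 := (kb_nn W h k false ξ).1
  have n3 := (kb_nn W h k true ξ).2
  have n4 := (kb_nn W h k false ξ).2
  have n5 := (kb_nn W h (k + 1) true ξ).1
  have n6 := (kb_nn W h (k + 1) false ξ).1
  have hr : 2 * π * W.mm k * W.kap k / W.lam (k + 1) ≤ 2 * π * W.mm k := by
    rw [div_le_iff₀ l0]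
    gcongr
  unfold kbM
  have e1 : 2 * π * W.mm k * W.kap k / W.lam (k + 1)
      * (W.iU (k + 1) true ξ + W.iU (k + 1) false ξ)
      ≤ 2 * π * W.mm k * (W.iU (k + 1) true ξ + W.iU (k + 1) false ξ) := by
    gcongr
  have e2 : π * W.mm k * (W.iV k true ξ + W.iV k false ξ)
      ≤ 2 * π * W.mm k * (W.iV k true ξ + W.iV k false ξ) := by
    have : 0 ≤ π * W.mm k * (W.iV k true ξ + W.iV k false ξ) := by positivity
    linarith
  have e3 : 2 * W.mm k * W.lam k ≤ 2 * W.mm k * 1 := by gcongr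
  have e4 : 2 * π * W.mm k * (W.iU k true ξ + W.iU k false ξ + W.iV k true ξ + W.iV k false ξ
      + W.iU (k + 1) true ξ + W.iU (k + 1) false ξ) ≤ 2 * π * W.mm k * 1 := by gcongr
  have e5 : 2 * π * W.mm k ≤ 2 * 3.15 * W.mm k := by gcongr
  nlinarith

private theorem kb_per (W : World) (h : W.Reg) (k : ℕ) (hs : W.Small k) (t : ℝ) :
    Function.Periodic (fun ξ => W.K1 k ξ (2 * t - ξ)) (2 * π) ∧
    Function.Periodic (fun ξ => W.K2 k ξ (2 * t - ξ)) (2 * π) := by
  obtain ⟨p1, p2, -⟩ := wx2_facts W h k hs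
  obtain ⟨-, -, a1, a2, -⟩ := cc_facts W h k hs _ _ (Or.inl ⟨rfl, rfl⟩)
  obtain ⟨-, -, b1, b2, -⟩ := cc_facts W h k hs _ _ (Or.inr ⟨rfl, rfl⟩)
  constructor
  · intro ξ
    have e : 2 * t - ξ = 2 * t - (ξ + 2 * π) + 2 * π := by ring
    simp only [World.K1]
    rw [a1, ← a2 ξ (2 * t - (ξ + 2 * π)), ← p1 (2 * t - (ξ + 2 * π)), ← e]
  · intro ξ
    have e : 2 * t - ξ = 2 * t - (ξ + 2 * π) + 2 * π := by ring
    simp only [World.K2]
    rw [b1, ← b2 ξ (2 * t - (ξ + 2 * π)), ← p2 (2 * t - (ξ + 2 * π)), ← e]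

private theorem kb_meas (W : World) (h : W.Reg) (k : ℕ) (hs : W.Small k) (t : ℝ) :
    Measurable (fun ξ => W.K1 k ξ (2 * t - ξ)) ∧
    Measurable (fun ξ => W.K2 k ξ (2 * t - ξ)) := by
  obtain ⟨-, -, p1, p2, -⟩ := wx2_facts W h k hs
  obtain ⟨-, a1, -⟩ := cc_facts W h k hs _ _ (Or.inl ⟨rfl, rfl⟩)
  obtain ⟨-, b1, -⟩ := cc_facts W h k hs _ _ (Or.inr ⟨rfl, rfl⟩)
  constructor
  · simp only [World.K1]
    have : Measurable (fun ξ : ℝ => W.w2 k (2 * t - ξ)) :=
      (p1.comp (by fun_prop : Continuous fun ξ : ℝ => 2 * t - ξ)).measurable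
    exact (a1 t).add (this.const_mul _)
  · simp only [World.K2]
    have : Measurable (fun ξ : ℝ => W.x2 k (2 * t - ξ)) :=
      (p2.comp (by fun_prop : Continuous fun ξ : ℝ => 2 * t - ξ)).measurable
    exact (b1 t).add (this.const_mul _)

private theorem kb_Mint (W : World) (h : W.Reg) (k : ℕ) (hs : W.Small k) :
    IntervalIntegrable (kbM W k) volume 0 (2 * π) ∧
    ∫ ξ in (0:ℝ)..(2 * π), kbM W k ξ ≤ 14 * π * (W.mm k * W.lam k) := by
  obtain ⟨hlam, hkap, hal, has, -, hmm, -⟩ := world_basic W h.num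
  obtain ⟨s1, s2, s3, -⟩ := stage_ineq W h.num k hs
  have iU : ∀ j s, IntervalIntegrable (W.iU j s) volume 0 (2 * π) := fun j s =>
    kb_bp_ii ((h.lev j).bU s) _ _
  have iV : ∀ j s, IntervalIntegrable (W.iV j s) volume 0 (2 * π) := fun j s =>
    kb_bp_ii ((h.lev j).bV s) _ _
  have i1 : IntervalIntegrable (fun ξ => 2 * π * W.mm k * (W.iU k true ξ + W.iU k false ξ))
      volume 0 (2 * π) := ((iU k true).add (iU k false)).const_mul _
  have i2 : IntervalIntegrable (fun ξ => π * W.mm k * (W.iV k true ξ + W.iV k false ξ))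
      volume 0 (2 * π) := ((iV k true).add (iV k false)).const_mul _
  have i3 : IntervalIntegrable (fun ξ => 2 * π * W.mm k * W.kap k / W.lam (k + 1)
      * (W.iU (k + 1) true ξ + W.iU (k + 1) false ξ))
      volume 0 (2 * π) := ((iU (k + 1) true).add (iU (k + 1) false)).const_mul _
  have i4 : IntervalIntegrable (fun _ : ℝ => 2 * W.mm k * W.lam k) volume 0 (2 * π) :=
    intervalIntegrable_const
  have eM : kbM W k = fun ξ => 2 * π * W.mm k * (W.iU k true ξ + W.iU k false ξ)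
      + π * W.mm k * (W.iV k true ξ + W.iV k false ξ)
      + 2 * π * W.mm k * W.kap k / W.lam (k + 1) * (W.iU (k + 1) true ξ + W.iU (k + 1) false ξ)
      + 2 * W.mm k * W.lam k := rfl
  refine ⟨?_, ?_⟩
  · rw [eM]; exact ((i1.add i2).add i3).add i4
  rw [eM, intervalIntegral.integral_add ((i1.add i2).add i3) i4,
    intervalIntegral.integral_add (i1.add i2) i3,
    intervalIntegral.integral_add i1 i2,
    intervalIntegral.integral_const_mul, intervalIntegral.integral_const_mul,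
    intervalIntegral.integral_const_mul,
    intervalIntegral.integral_add (iU k true) (iU k false),
    intervalIntegral.integral_add (iV k true) (iV k false),
    intervalIntegral.integral_add (iU (k + 1) true) (iU (k + 1) false),
    (h.lev k).intU, (h.lev k).intU, (h.lev k).intV, (h.lev k).intV,
    (h.lev (k + 1)).intU, (h.lev (k + 1)).intU, intervalIntegral.integral_const]
  have l1 : 4 * W.mu k * (W.n k : ℝ) = W.lam k := rfl
  have l2 : 4 * W.mu (k + 1) * (W.n (k + 1) : ℝ) = W.lam (k + 1) := rfl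
  have l3 : 2 * W.nu k * (W.n k : ℝ) = W.kap k := rfl
  rw [l1, l2, l3]
  have l0 := hlam (k + 1)
  have e : 2 * π * W.mm k * W.kap k / W.lam (k + 1) * (W.lam (k + 1) + W.lam (k + 1))
      = 4 * π * W.mm k * W.kap k := by
    field_simp
    ring
  rw [e]
  have m0 := hmm k
  have hpi := Real.pi_pos
  have f : 6 * π * W.mm k * W.kap k ≤ 6 * π * W.mm k * W.lam k := by gcongr
  simp only [sub_zero, smul_eq_mul]
  nlinarith

/-- bounds for the correctors -/
theorem K_bounds (W : World) (h : W.Reg) (k : ℕ) (hs : W.Small k) :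
    (∀ t ξ, |W.Co k t ξ| ≤ 13 * W.mm k) ∧ (∀ t ξ, |W.Rs k t ξ| ≤ 13 * W.mm k) ∧
    (∀ t, BP (W.Co k t)) ∧ (∀ t, BP (W.Rs k t)) ∧
    (∀ t, ∫ ξ in (0:ℝ)..(2 * π), |W.Co k t ξ| ≤ 63 * W.mm k * W.lam k) := by
  have m0 : 0 < W.mm k := (world_basic W h.num).2.2.2.2.2.1 k
  have l0 : 0 < W.lam k := (world_basic W h.num).1 k
  have hCo : ∀ t ξ, |W.Co k t ξ| ≤ 1.415 * kbM W k ξ := fun t ξ =>
    kb_comb (kb_cs _) (kb_K W h k hs _ _).1 (kb_K W h k hs _ _).2
  have hRs : ∀ t ξ, |W.Rs k t ξ| ≤ 1.415 * kbM W k ξ := fun t ξ =>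
    kb_comb (by rw [abs_neg, add_comm]; exact kb_cs _) (kb_K W h k hs _ _).1
      (kb_K W h k hs _ _).2
  have c1 : ∀ t ξ, |W.Co k t ξ| ≤ 13 * W.mm k := fun t ξ => by
    have := kb_M W h k hs ξ
    refine (hCo t ξ).trans ?_
    nlinarith
  have c2 : ∀ t ξ, |W.Rs k t ξ| ≤ 13 * W.mm k := fun t ξ => by
    have := kb_M W h k hs ξ
    refine (hRs t ξ).trans ?_
    nlinarith
  have c3 : ∀ t, BP (W.Co k t) := fun t => by
    obtain ⟨p1, p2⟩ := kb_per W h k hs t
    obtain ⟨q1, q2⟩ := kb_meas W h k hs t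
    refine ⟨?_, ⟨_, c1 t⟩, fun ξ => ?_⟩
    · exact (q1.const_mul _).add (q2.const_mul _)
    · have p1 := p1 ξ
      have p2 := p2 ξ
      simp only [World.Co] at p1 p2 ⊢
      rw [p1, p2]
  have c4 : ∀ t, BP (W.Rs k t) := fun t => by
    obtain ⟨p1, p2⟩ := kb_per W h k hs t
    obtain ⟨q1, q2⟩ := kb_meas W h k hs t
    refine ⟨?_, ⟨_, c2 t⟩, fun ξ => ?_⟩
    · exact (q1.const_mul _).add (q2.const_mul _)
    · have p1 := p1 ξ
      have p2 := p2 ξ
      simp only [World.Rs] at p1 p2 ⊢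
      rw [p1, p2]
  refine ⟨c1, c2, c3, c4, fun t => ?_⟩
  obtain ⟨i1, i2⟩ := kb_Mint W h k hs
  have hpi := Real.pi_pos
  have hpi2 := Real.pi_lt_d2
  have hle : ∫ ξ in (0:ℝ)..(2 * π), |W.Co k t ξ| ≤ ∫ ξ in (0:ℝ)..(2 * π), 1.415 * kbM W k ξ := by
    refine intervalIntegral.integral_mono_on (by positivity) (kb_bp_ii (c3 t) _ _).abs
      (i1.const_mul _) (fun ξ _ => hCo t ξ)
  rw [intervalIntegral.integral_const_mul] at hle
  refine hle.trans ?_
  have hml : 0 < W.mm k * W.lam k := by positivity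
  calc 1.415 * ∫ ξ in (0:ℝ)..(2 * π), kbM W k ξ ≤ 1.415 * (14 * π * (W.mm k * W.lam k)) := by gcongr
    _ ≤ 1.415 * (14 * 3.15 * (W.mm k * W.lam k)) := by gcongr
    _ ≤ 63 * W.mm k * W.lam k := by nlinarith

end Haraux
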