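import Pool.Agent.Helper27.Har.Base
import Pool.Agent.Helper27.Har.P_world_basic
import Pool.Agent.Helper27.Har.P_stage_ineq
import Pool.Agent.Helper27.Har.P_level_facts
import Pool.Agent.Helper27.Har.P_cc_facts
import Pool.Agent.Helper27.Har.P_wx2_facts
import Pool.Agent.Helper27.Har.P_K_bounds
import Pool.Agent.Helper27.Har.P_Gh_facts

set_option autoImplicit false

open MeasureTheory Set Real Filter Topology
open scoped ENNReal NNReal

namespace Haraux



private theorem Btf_add {f g : ℝ → ℝ} (hf : BP f) (hg : BP g) : BP (fun x => f x + g x) := by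
  obtain ⟨C, hC⟩ := hf.bdd
  obtain ⟨D, hD⟩ := hg.bdd
  refine ⟨hf.meas.add hg.meas, ⟨C + D, fun x => (abs_add_le _ _).trans (add_le_add (hC x) (hD x))⟩,
    fun x => ?_⟩
  show f (x + 2 * π) + g (x + 2 * π) = f x + g x
  rw [hf.per x, hg.per x]

private theorem Btf_cmul {f : ℝ → ℝ} (c : ℝ) (hf : BP f) : BP (fun x => c * f x) := by
  obtain ⟨C, hC⟩ := hf.bdd
  refine ⟨hf.meas.const_mul c, ⟨|c| * C, fun x => ?_⟩, fun x => ?_⟩
  · rw [abs_mul]
    exact mul_le_mul_of_nonneg_left (hC x) (abs_nonneg c)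
  · show c * f (x + 2 * π) = c * f x
    rw [hf.per x]

private theorem Btf_sub {f g : ℝ → ℝ} (hf : BP f) (hg : BP g) : BP (fun x => f x - g x) := by
  have := Btf_add hf (Btf_cmul (-1) hg)
  simpa [sub_eq_add_neg] using this

private theorem Btf_refl {f : ℝ → ℝ} (t : ℝ) (hf : BP f) : BP (fun x => f (2 * t - x)) := by
  obtain ⟨C, hC⟩ := hf.bdd
  refine ⟨hf.meas.comp (measurable_const.sub measurable_id), ⟨C, fun x => hC _⟩, fun x => ?_⟩
  show f (2 * t - (x + 2 * π)) = f (2 * t - x)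
  have h1 := hf.per (2 * t - (x + 2 * π))
  rw [← h1]
  congr 1
  ring

private theorem Btf_ii {f : ℝ → ℝ} (hf : BP f) (a b : ℝ) : IntervalIntegrable f volume a b := by
  obtain ⟨C, hC⟩ := hf.bdd
  have h1 : IntegrableOn f (Set.uIoc a b) := by
    refine Measure.integrableOn_of_bounded (M := C) ?_ hf.meas.aestronglyMeasurable ?_
    · rw [Set.uIoc]; exact measure_Ioc_lt_top.ne
    · exact Filter.Eventually.of_forall (fun x => by simpa [Real.norm_eq_abs] using hC x)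
  exact intervalIntegrable_iff.2 h1

/-- zones of consecutive levels are disjoint -/
private theorem Btf_zone (W : World) (h : W.RegN) (k : ℕ) (ξ : ℝ)
    (h1 : zone (W.z k) (W.n k * (8 * W.mu k + 4 * W.nu k)) ξ)
    (h2 : zone (W.z (k + 1)) (W.n (k + 1) * (8 * W.mu (k + 1) + 4 * W.nu (k + 1))) ξ) : False := by
  obtain ⟨m, hm⟩ := h1
  obtain ⟨m', hm'⟩ := h2
  have e1 := h.z0 k
  have e2 := h.z1 k
  have e3 := h.z2 (k + 1)
  have e4 := h.z1 (k + 1)
  have e5 := h.z2 (k + 1 + 1)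
  have e6 := h.z0 (k + 1)
  have hpi := Real.pi_pos
  obtain ⟨a1, a2⟩ := hm
  obtain ⟨b1, b2⟩ := hm'
  have c1 : 2 * π * ((m : ℝ) - m') < 2 * π * 1 := by nlinarith
  have c2 : 2 * π * ((m' : ℝ) - m) < 2 * π * 1 := by nlinarith
  have d1 : (m : ℝ) - m' < 1 := lt_of_mul_lt_mul_left c1 (by positivity)
  have d2 : (m' : ℝ) - m < 1 := lt_of_mul_lt_mul_left c2 (by positivity)
  have f1 : m - m' < 1 := by exact_mod_cast d1
  have f2 : m' - m < 1 := by exact_mod_cast d2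
  have f3 : m = m' := by omega
  subst f3
  linarith

/-- values of a level at a point -/
private theorem Btf_lev {z μ ν : ℝ} {n : ℕ} {iU iV : Bool → ℝ → ℝ} {w x : ℝ → ℝ}
    (h : LevelProps z μ ν n iU iV w x) (ξ : ℝ) :
    (iU true ξ - iU false ξ) ^ 2 = iU true ξ + iU false ξ ∧
    (iV true ξ - iV false ξ) ^ 2 = iV true ξ + iV false ξ ∧
    (iU true ξ - iU false ξ) * (iV true ξ - iV false ξ) = 0 ∧
    |iU true ξ - iU false ξ| ≤ 1 ∧ |iV true ξ - iV false ξ| ≤ 1 ∧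
    0 ≤ iU true ξ + iU false ξ ∧ iU true ξ + iU false ξ ≤ 1 ∧
    0 ≤ iV true ξ + iV false ξ ∧ iV true ξ + iV false ξ ≤ 1 := by
  have h1 := h.disj ξ
  rcases h.zoU true ξ with a | a <;> rcases h.zoU false ξ with b | b <;>
    rcases h.zoV true ξ with c | c <;> rcases h.zoV false ξ with d | d <;>
    rw [a, b, c, d] at h1 ⊢ <;>
    first
      | (exfalso; norm_num at h1; done)
      | norm_num

/-- two consecutive levels at a point -/
private theorem Btf_two (W : World) (h : W.Reg) (k : ℕ) (ξ : ℝ) :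
    W.u k ξ * W.u (k + 1) ξ = 0 ∧ W.v k ξ * W.u (k + 1) ξ = 0 := by
  by_cases hz : zone (W.z k) (W.n k * (8 * W.mu k + 4 * W.nu k)) ξ
  · have hz2 : ¬ zone (W.z (k + 1)) (W.n (k + 1) * (8 * W.mu (k + 1) + 4 * W.nu (k + 1))) ξ :=
      fun h2 => Btf_zone W h.num k ξ hz h2
    have h3 := (h.lev (k + 1)).supp ξ hz2
    obtain ⟨e1, -, -, -, -, e6, -, e8, -⟩ := Btf_lev (h.lev (k + 1)) ξ
    have h4 : W.iU (k + 1) true ξ + W.iU (k + 1) false ξ = 0 := by linarith
    rw [h4] at e1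
    have h5 : W.u (k + 1) ξ = 0 := pow_eq_zero_iff (n := 2) (by norm_num) |>.1 e1
    rw [h5]; simp
  · have h3 := (h.lev k).supp ξ hz
    obtain ⟨e1, e2, -, -, -, e6, -, e8, -⟩ := Btf_lev (h.lev k) ξ
    have h4 : W.iU k true ξ + W.iU k false ξ = 0 := by linarith
    have h4' : W.iV k true ξ + W.iV k false ξ = 0 := by linarith
    rw [h4] at e1
    rw [h4'] at e2
    have h5 : W.u k ξ = 0 := pow_eq_zero_iff (n := 2) (by norm_num) |>.1 e1
    have h6 : W.v k ξ = 0 := pow_eq_zero_iff (n := 2) (by norm_num) |>.1 e2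
    rw [h5, h6]; simp

private theorem Btf_lip {g f : ℝ → ℝ} {M L ω : ℝ} (hg1 : ∀ a, |g a| ≤ 1)
    (hg2 : ∀ a b, |g a - g b| ≤ ω * |a - b|) (hf1 : ∀ a, |f a| ≤ M)
    (hf2 : ∀ a b, |f a - f b| ≤ L * |a - b|) (a b : ℝ) :
    |g a * f a - g b * f b| ≤ (ω * M + L) * |a - b| := by
  have e : g a * f a - g b * f b = (g a - g b) * f a + g b * (f a - f b) := by ring
  rw [e]
  refine (abs_add_le _ _).trans ?_
  rw [abs_mul, abs_mul]
  have h1 : |g a - g b| * |f a| ≤ ω * |a - b| * M :=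
    mul_le_mul (hg2 a b) (hf1 a) (abs_nonneg _) ((abs_nonneg _).trans (hg2 a b))
  have h2 : |g b| * |f a - f b| ≤ 1 * (L * |a - b|) :=
    mul_le_mul (hg1 b) (hf2 a b) (abs_nonneg _) zero_le_one
  nlinarith

private theorem Btf_cos (ω : ℝ) (hω : 0 ≤ ω) : (∀ a, |Real.cos (ω * a)| ≤ 1) ∧
    (∀ a b, |Real.cos (ω * a) - Real.cos (ω * b)| ≤ ω * |a - b|) := by
  refine ⟨fun a => Real.abs_cos_le_one _, fun a b => (Real.abs_cos_sub_cos_le _ _).trans ?_⟩
  rw [← mul_sub, abs_mul, abs_of_nonneg hω]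

private theorem Btf_sin (ω : ℝ) (hω : 0 ≤ ω) : (∀ a, |Real.sin (ω * a)| ≤ 1) ∧
    (∀ a b, |Real.sin (ω * a) - Real.sin (ω * b)| ≤ ω * |a - b|) := by
  refine ⟨fun a => Real.abs_sin_le_one _, fun a b => (Real.abs_sin_sub_sin_le _ _).trans ?_⟩
  rw [← mul_sub, abs_mul, abs_of_nonneg hω]

set_option maxHeartbeats 4000000 in
/-- regularity of the pseudo-orbit -/
theorem Bt_facts (W : World) (h : W.Reg) (k : ℕ) (hs : W.Small k) :
    (∀ t, BP (W.Bt k t)) ∧ (∀ t, BP (W.Dt k t)) ∧ (∀ t, BP (W.B0 k t)) ∧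
    (∃ L : NNReal, ∀ ξ, LipschitzWith L (fun t => W.Bt k t ξ)) ∧
    (∃ M : ℝ, ∀ t ξ, |W.Bt k t ξ| ≤ M) ∧
    (∃ M : ℝ, ∀ t ξ, |W.Dt k t ξ| ≤ M) ∧
    (∀ t ξ, |W.B0 k t ξ| ≤ 101 / 100 * W.as k) ∧
    (∀ t, ∫ ξ in (0:ℝ)..(2 * π), (W.B0 k t ξ) ^ 2 = 1) := by
  obtain ⟨hlam, hkap, hal, has, hom, hmm, hTm, -, hal2, has2, -, -, -, -, -, -⟩ :=
    world_basic W h.num
  obtain ⟨hu, hv, -, hw, hx, -, -, -, -⟩ := level_facts W h k
  obtain ⟨hu1, -, -, -, -, -, -, -, -⟩ := level_facts W h (k + 1)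
  obtain ⟨hKC, hKR, hCo, hRs, -⟩ := K_bounds W h k hs
  obtain ⟨-, -, -, -, -, -, -, hals⟩ := stage_ineq W h.num k hs
  have hω : 0 ≤ W.om0 k := (hom k).le
  -- B0 pointwise bound
  have hB0 : ∀ t ξ, |W.B0 k t ξ| ≤ 101 / 100 * W.as k := by
    intro t ξ
    obtain ⟨-, -, e3, e4, e5, -⟩ := Btf_lev (h.lev k) ξ
    obtain ⟨-, -, -, e4', -, -⟩ := Btf_lev (h.lev (k + 1)) ξ
    obtain ⟨f1, f2⟩ := Btf_two W h k ξ
    change W.u k ξ * W.v k ξ = 0 at e3
    change |W.u k ξ| ≤ 1 at e4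
    change |W.v k ξ| ≤ 1 at e5
    change |W.u (k + 1) ξ| ≤ 1 at e4'
    have hc := Real.abs_cos_le_one (W.om0 k * t)
    have hsn := Real.abs_sin_le_one (W.om0 k * t)
    have ha : 0 < W.as k := has k
    have hb : 0 < W.al k := hal k
    unfold World.B0
    rcases eq_or_ne (W.u k ξ) 0 with hu0 | hu0
    · have h7 : |W.u (k + 1) ξ + W.v k ξ| ≤ 1 := by
        rcases mul_eq_zero.1 f2 with h8 | h8
        · rw [h8, add_zero]; exact e4'
        · rw [h8, zero_add]; exact e5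
      rw [hu0, mul_zero, mul_zero, zero_add, abs_mul, abs_mul, abs_of_pos ha]
      have h9 : W.as k * |W.u (k + 1) ξ + W.v k ξ| ≤ W.as k * 1 :=
        mul_le_mul_of_nonneg_left h7 ha.le
      have h10 : |Real.sin (W.om0 k * t)| * (W.as k * |W.u (k + 1) ξ + W.v k ξ|) ≤
          1 * (W.as k * 1) := mul_le_mul hsn h9 (by positivity) zero_le_one
      linarith
    · have h7 : W.u (k + 1) ξ = 0 := (mul_eq_zero.1 f1).resolve_left hu0
      have h8 : W.v k ξ = 0 := (mul_eq_zero.1 e3).resolve_left hu0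
      rw [h7, h8, add_zero, mul_zero, mul_zero, add_zero, abs_mul, abs_mul, abs_of_pos hb]
      have h9 : W.al k * |W.u k ξ| ≤ W.al k * 1 := mul_le_mul_of_nonneg_left e4 hb.le
      have h10 : |Real.cos (W.om0 k * t)| * (W.al k * |W.u k ξ|) ≤ 1 * (W.al k * 1) :=
        mul_le_mul hc h9 (by positivity) zero_le_one
      linarith
  have hB0BP : ∀ t, BP (W.B0 k t) := fun t =>
    Btf_add (Btf_cmul _ (Btf_cmul _ hu)) (Btf_cmul _ (Btf_cmul _ (Btf_add hu1 hv)))
  have hBtBP : ∀ t, BP (W.Bt k t) := fun t => Btf_add (hB0BP t) (hCo t)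
  have hFf : ∀ t, BP (W.Ff k t) := fun t =>
    Btf_add (Btf_cmul _ (Btf_cmul _ hw.bp)) (Btf_cmul _ (Btf_cmul _ hx.bp))
  have hGBP : ∀ t, BP (fun ξ => W.Gh k t ξ (2 * t - ξ)) := by
    intro t
    obtain ⟨g1, -, g3, g4, g5, -⟩ := Gh_facts W h k hs t
    refine ⟨g3.comp (measurable_id.prodMk (measurable_const.sub measurable_id)),
      ⟨_, fun ξ => g1 ξ _⟩, fun ξ => ?_⟩
    show W.Gh k t (ξ + 2 * π) (2 * t - (ξ + 2 * π)) = W.Gh k t ξ (2 * t - ξ)
    rw [g4, ← g5 ξ (2 * t - (ξ + 2 * π))]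
    congr 1
    ring
  have hDtBP : ∀ t, BP (W.Dt k t) := fun t =>
    Btf_add (Btf_sub (Btf_cmul _ (Btf_sub (hFf t) (Btf_refl t (hFf t)))) (Btf_cmul _ (hGBP t)))
      (Btf_cmul _ (hRs t))
  have hFb : ∀ t ξ, |W.Ff k t ξ| ≤ W.al k * W.mu k + W.as k * W.nu k := by
    intro t ξ
    unfold World.Ff
    refine (abs_add_le _ _).trans ?_
    rw [abs_mul, abs_mul, abs_mul, abs_mul, abs_of_pos (hal k), abs_of_pos (has k)]
    have h1 : W.al k * |W.w k ξ| ≤ W.al k * W.mu k :=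
      mul_le_mul_of_nonneg_left ((h.lev k).wle ξ) (hal k).le
    have h2 : W.as k * |W.x k ξ| ≤ W.as k * W.nu k :=
      mul_le_mul_of_nonneg_left ((h.lev k).xle ξ) (has k).le
    have p1 : 0 ≤ W.al k * |W.w k ξ| := mul_nonneg (hal k).le (abs_nonneg _)
    have p2 : 0 ≤ W.as k * |W.x k ξ| := mul_nonneg (has k).le (abs_nonneg _)
    have h3 := mul_le_mul (Real.abs_cos_le_one (W.om0 k * t)) h1 p1 zero_le_one
    have h4 := mul_le_mul (Real.abs_sin_le_one (W.om0 k * t)) h2 p2 zero_le_one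
    linarith
  refine ⟨hBtBP, hDtBP, hB0BP, ?_, ?_, ?_, hB0, ?_⟩
  · -- Lipschitz in time
    obtain ⟨-, -, -, -, w5, w6, ⟨L1, w7⟩, ⟨L2, w8⟩, -, -⟩ := wx2_facts W h k hs
    obtain ⟨c1, -, -, -, ⟨L3, c5⟩⟩ := cc_facts W h k hs (W.r1 k) (W.q1 k) (Or.inl ⟨rfl, rfl⟩)
    obtain ⟨d1, -, -, -, ⟨L4, d5⟩⟩ := cc_facts W h k hs (W.r2 k) (fun _ => 0) (Or.inr ⟨rfl, rfl⟩)
    set Mc : ℝ := 2 * π * W.mm k + π * W.mm k + 2 * π * W.mm k * W.kap k / W.lam (k + 1) with hMc
    have hpi := Real.pi_pos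
    have hmk := hmm k
    have hkk := hkap k
    have hlk := hlam (k + 1)
    have hsum : ∀ ξ, 2 * π * W.mm k * (W.iU k true ξ + W.iU k false ξ)
      + π * W.mm k * (W.iV k true ξ + W.iV k false ξ)
      + 2 * π * W.mm k * W.kap k / W.lam (k + 1) * (W.iU (k + 1) true ξ + W.iU (k + 1) false ξ)
        ≤ Mc := by
      intro ξ
      obtain ⟨-, -, -, -, -, -, e7, -, e9⟩ := Btf_lev (h.lev k) ξ
      obtain ⟨-, -, -, -, -, -, e7', -, -⟩ := Btf_lev (h.lev (k + 1)) ξ
      have p1 : 0 ≤ 2 * π * W.mm k := by positivity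
      have p2 : 0 ≤ π * W.mm k := by positivity
      have p3 : 0 ≤ 2 * π * W.mm k * W.kap k / W.lam (k + 1) := by positivity
      have q1 := mul_le_mul_of_nonneg_left e7 p1
      have q2 := mul_le_mul_of_nonneg_left e9 p2
      have q3 := mul_le_mul_of_nonneg_left e7' p3
      rw [hMc]
      linarith
    have hK1b : ∀ ξ η, |W.K1 k ξ η| ≤ Mc + 2 * W.mm k * W.lam k := by
      intro ξ η
      unfold World.K1
      refine (abs_add_le _ _).trans (add_le_add ((c1 ξ η).trans (hsum ξ)) ?_)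
      rw [abs_mul, abs_of_nonneg (by have := hal k; positivity : 0 ≤ W.al k / 4)]
      exact w5 η
    have hK2b : ∀ ξ η, |W.K2 k ξ η| ≤ Mc + 2 * W.mm k * W.lam k := by
      intro ξ η
      unfold World.K2
      refine (abs_add_le _ _).trans (add_le_add ((d1 ξ η).trans (hsum ξ)) ?_)
      rw [abs_mul, abs_of_nonneg (by have := has k; positivity : 0 ≤ W.as k / 4)]
      exact w6 η
    have hK1l : ∀ ξ a b, |W.K1 k ξ a - W.K1 k ξ b| ≤ (L3 + W.al k / 4 * L1) * |a - b| := by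
      intro ξ a b
      unfold World.K1
      have e : W.cc k (W.r1 k) (W.q1 k) ξ a + W.al k / 4 * W.w2 k a -
          (W.cc k (W.r1 k) (W.q1 k) ξ b + W.al k / 4 * W.w2 k b) =
          (W.cc k (W.r1 k) (W.q1 k) ξ a - W.cc k (W.r1 k) (W.q1 k) ξ b) +
          W.al k / 4 * (W.w2 k a - W.w2 k b) := by ring
      rw [e]
      refine (abs_add_le _ _).trans ?_
      rw [abs_mul, abs_of_nonneg (by have := hal k; positivity : 0 ≤ W.al k / 4)]
      have p := mul_le_mul_of_nonneg_left (w7 a b)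
        (by have := hal k; positivity : 0 ≤ W.al k / 4)
      have q := c5 ξ a b
      linarith
    have hK2l : ∀ ξ a b, |W.K2 k ξ a - W.K2 k ξ b| ≤ (L4 + W.as k / 4 * L2) * |a - b| := by
      intro ξ a b
      unfold World.K2
      have e : W.cc k (W.r2 k) (fun _ => 0) ξ a + W.as k / 4 * W.x2 k a -
          (W.cc k (W.r2 k) (fun _ => 0) ξ b + W.as k / 4 * W.x2 k b) =
          (W.cc k (W.r2 k) (fun _ => 0) ξ a - W.cc k (W.r2 k) (fun _ => 0) ξ b) +
          W.as k / 4 * (W.x2 k a - W.x2 k b) := by ring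
      rw [e]
      refine (abs_add_le _ _).trans ?_
      rw [abs_mul, abs_of_nonneg (by have := has k; positivity : 0 ≤ W.as k / 4)]
      have p := mul_le_mul_of_nonneg_left (w8 a b)
        (by have := has k; positivity : 0 ≤ W.as k / 4)
      have q := d5 ξ a b
      linarith
    obtain ⟨hc1, hc2⟩ := Btf_cos (W.om0 k) hω
    obtain ⟨hs1, hs2⟩ := Btf_sin (W.om0 k) hω
    set M := Mc + 2 * W.mm k * W.lam k with hM
    set T1 := W.om0 k * W.al k + 0 with hT1
    set T2 := W.om0 k * (2 * W.as k) + 0 with hT2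
    set T3 := W.om0 k * M + (L3 + W.al k / 4 * L1) * 2 with hT3
    set T4 := W.om0 k * M + (L4 + W.as k / 4 * L2) * 2 with hT4
    have main : ∀ ξ a b, |W.Bt k a ξ - W.Bt k b ξ| ≤ (T1 + T2 + (T3 + T4)) * |a - b| := by
      intro ξ a b
      obtain ⟨-, -, -, e4, e5, -⟩ := Btf_lev (h.lev k) ξ
      obtain ⟨-, -, -, e4', -, -⟩ := Btf_lev (h.lev (k + 1)) ξ
      change |W.u k ξ| ≤ 1 at e4
      change |W.v k ξ| ≤ 1 at e5
      change |W.u (k + 1) ξ| ≤ 1 at e4'
      have k1 := Btf_lip (g := fun a => Real.cos (W.om0 k * a)) (f := fun _ => W.al k * W.u k ξ)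
        (M := W.al k) (L := 0) (ω := W.om0 k) hc1 hc2 (fun _ => by
          rw [abs_mul, abs_of_pos (hal k)]
          have := mul_le_mul_of_nonneg_left e4 (hal k).le
          linarith) (fun _ _ => by simp) a b
      have k2 := Btf_lip (g := fun a => Real.sin (W.om0 k * a))
        (f := fun _ => W.as k * (W.u (k + 1) ξ + W.v k ξ))
        (M := 2 * W.as k) (L := 0) (ω := W.om0 k) hs1 hs2 (fun _ => by
          rw [abs_mul, abs_of_pos (has k)]
          have h0 : |W.u (k + 1) ξ + W.v k ξ| ≤ 2 := (abs_add_le _ _).trans (by linarith)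
          have := mul_le_mul_of_nonneg_left h0 (has k).le
          linarith) (fun _ _ => by simp) a b
      have k3 := Btf_lip (g := fun a => Real.cos (W.om0 k * a))
        (f := fun t => W.K1 k ξ (2 * t - ξ))
        (M := M) (L := (L3 + W.al k / 4 * L1) * 2) (ω := W.om0 k) hc1 hc2
        (fun _ => hK1b _ _) (fun a b => by
          refine (hK1l ξ _ _).trans (le_of_eq ?_)
          have : 2 * a - ξ - (2 * b - ξ) = 2 * (a - b) := by ring
          rw [this, abs_mul, abs_of_pos (by norm_num : (0 : ℝ) < 2)]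
          ring) a b
      have k4 := Btf_lip (g := fun a => Real.sin (W.om0 k * a))
        (f := fun t => W.K2 k ξ (2 * t - ξ))
        (M := M) (L := (L4 + W.as k / 4 * L2) * 2) (ω := W.om0 k) hs1 hs2
        (fun _ => hK2b _ _) (fun a b => by
          refine (hK2l ξ _ _).trans (le_of_eq ?_)
          have : 2 * a - ξ - (2 * b - ξ) = 2 * (a - b) := by ring
          rw [this, abs_mul, abs_of_pos (by norm_num : (0 : ℝ) < 2)]
          ring) a b
      rw [← hT1] at k1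
      rw [← hT2] at k2
      rw [← hT3] at k3
      rw [← hT4] at k4
      unfold World.Bt World.B0 World.Co
      have e : ∀ a1 a2 a3 a4 b1 b2 b3 b4 : ℝ, a1 + a2 + (a3 + a4) - (b1 + b2 + (b3 + b4)) =
          (a1 - b1) + (a2 - b2) + ((a3 - b3) + (a4 - b4)) := by intros; ring
      rw [e]
      refine (abs_add_le _ _).trans ?_
      have j1 := abs_add_le (Real.cos (W.om0 k * a) * (W.al k * W.u k ξ) -
        Real.cos (W.om0 k * b) * (W.al k * W.u k ξ))
        (Real.sin (W.om0 k * a) * (W.as k * (W.u (k + 1) ξ + W.v k ξ)) -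
          Real.sin (W.om0 k * b) * (W.as k * (W.u (k + 1) ξ + W.v k ξ)))
      have j2 := abs_add_le (Real.cos (W.om0 k * a) * W.K1 k ξ (2 * a - ξ) -
        Real.cos (W.om0 k * b) * W.K1 k ξ (2 * b - ξ))
        (Real.sin (W.om0 k * a) * W.K2 k ξ (2 * a - ξ) -
          Real.sin (W.om0 k * b) * W.K2 k ξ (2 * b - ξ))
      have : (T1 + T2 + (T3 + T4)) * |a - b| =
        T1 * |a - b| + T2 * |a - b| + (T3 * |a - b| + T4 * |a - b|) := by ring
      rw [this]
      linarith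
    refine ⟨Real.toNNReal (T1 + T2 + (T3 + T4)), fun ξ => ?_⟩
    apply LipschitzWith.of_dist_le_mul
    intro a b
    rw [Real.dist_eq, Real.dist_eq, Real.coe_toNNReal']
    refine (main ξ a b).trans (mul_le_mul_of_nonneg_right (le_max_left _ _) (abs_nonneg _))
  · exact ⟨101 / 100 * W.as k + 13 * W.mm k, fun t ξ =>
      (abs_add_le _ _).trans (add_le_add (hB0 t ξ) (hKC t ξ))⟩
  · refine ⟨(W.al k * W.mu k + W.as k * W.nu k) + 1 / 2 * (36 * W.mm k / W.lam (k + 1)) +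
      W.om0 k * (13 * W.mm k), fun t ξ => ?_⟩
    unfold World.Dt
    have g1 := (Gh_facts W h k hs t).1 ξ (2 * t - ξ)
    have g2 := hFb t ξ
    have g3 := hFb t (2 * t - ξ)
    have g4 := mul_le_mul_of_nonneg_left (hKR t ξ) hω
    have g5 : |W.om0 k * W.Rs k t ξ| = W.om0 k * |W.Rs k t ξ| := by
      rw [abs_mul, abs_of_nonneg hω]
    rw [abs_le] at g1 g2 g3 ⊢
    have g6 := abs_le.1 (g5.le.trans g4)
    constructor <;> linarith [g1.1, g1.2, g2.1, g2.2, g3.1, g3.2, g6.1, g6.2]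
  · intro t
    have hpt : ∀ ξ, (W.B0 k t ξ) ^ 2 =
        Real.cos (W.om0 k * t) ^ 2 * W.al k ^ 2 * (W.iU k true ξ + W.iU k false ξ) +
        Real.sin (W.om0 k * t) ^ 2 * W.as k ^ 2 * ((W.iU (k + 1) true ξ + W.iU (k + 1) false ξ) +
          (W.iV k true ξ + W.iV k false ξ)) := by
      intro ξ
      obtain ⟨e1, e2, e3, -⟩ := Btf_lev (h.lev k) ξ
      obtain ⟨e1', -, -, -⟩ := Btf_lev (h.lev (k + 1)) ξ
      obtain ⟨f1, f2⟩ := Btf_two W h k ξ
      change W.u k ξ ^ 2 = _ at e1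
      change W.v k ξ ^ 2 = _ at e2
      change W.u k ξ * W.v k ξ = 0 at e3
      change W.u (k + 1) ξ ^ 2 = _ at e1'
      rw [← e1, ← e2, ← e1']
      unfold World.B0
      linear_combination (2 * Real.cos (W.om0 k * t) * Real.sin (W.om0 k * t) * W.al k * W.as k) *
        f1 + (2 * Real.cos (W.om0 k * t) * Real.sin (W.om0 k * t) * W.al k * W.as k) * e3 +
        (2 * Real.sin (W.om0 k * t) ^ 2 * W.as k ^ 2) * f2
    simp only [hpt]
    have i1 := Btf_ii ((h.lev k).bU true) 0 (2 * π)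
    have i2 := Btf_ii ((h.lev k).bU false) 0 (2 * π)
    have i3 := Btf_ii ((h.lev k).bV true) 0 (2 * π)
    have i4 := Btf_ii ((h.lev k).bV false) 0 (2 * π)
    have i5 := Btf_ii ((h.lev (k + 1)).bU true) 0 (2 * π)
    have i6 := Btf_ii ((h.lev (k + 1)).bU false) 0 (2 * π)
    rw [intervalIntegral.integral_add ((i1.add i2).const_mul _)
      (((i5.add i6).add (i3.add i4)).const_mul _),
      intervalIntegral.integral_const_mul, intervalIntegral.integral_const_mul,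
      intervalIntegral.integral_add i1 i2, intervalIntegral.integral_add (i5.add i6) (i3.add i4),
      intervalIntegral.integral_add i5 i6, intervalIntegral.integral_add i3 i4,
      (h.lev k).intU, (h.lev k).intU, (h.lev k).intV, (h.lev k).intV, (h.lev (k + 1)).intU,
      (h.lev (k + 1)).intU]
    have a1 := hal2 k
    have a2 := has2 k
    unfold World.lam at a1
    unfold World.lam World.kap at a2
    have a3 := Real.sin_sq_add_cos_sq (W.om0 k * t)
    linear_combination (2 * Real.cos (W.om0 k * t) ^ 2) * a1 +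
      (2 * Real.sin (W.om0 k * t) ^ 2) * a2 + a3

end Haraux
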