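import Pool.Agent.Helper27.Har.Base

set_option autoImplicit false

open MeasureTheory Set Real Filter Topology
open scoped ENNReal NNReal

namespace Haraux

/-- sign/margin condition between the particular velocity `P` and the pseudo-velocity `V0` -/
def Cond (P V0 e : ℝ) : Prop :=
  V0 = 0 ∨ (1 ≤ P ∧ 0 ≤ V0) ∨ (P ≤ -1 ∧ V0 ≤ 0) ∨ (1 + |V0| / e ≤ |P|)

/-- condition between the particular velocity `P` and the constraint force `Gh` -/
def TieCond (P Gh : ℝ) : Prop := Gh = 0 ∨ P = 0 ∨ (P = 1 ∧ Gh ≤ 0) ∨ (P = -1 ∧ 0 ≤ Gh)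

end Haraux
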