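import Pool.Agent.Helper27.Har.Base

set_option autoImplicit false

open MeasureTheory Set Real Filter Topology
open scoped ENNReal NNReal

namespace Haraux



/-- integration by parts: `Ec n t φ = Vc n t Φ`; mean zero -/
theorem Ec_prim (φ Φ : ℝ → ℝ) (h : BP φ) (hΦ : IsPrim φ Φ) :
    (∀ (n : ℕ) (t : ℝ), Ec n t φ = Vc n t Φ) ∧ ∫ x in (0:ℝ)..(2 * π), φ x = 0 := by
  have hper : Φ (2 * π) = Φ 0 := by
    have := hΦ.bp.per 0
    rwa [zero_add] at this
  have hint : IntervalIntegrable φ volume 0 (2 * π) := by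
    obtain ⟨C, hC⟩ := h.bdd
    refine (intervalIntegrable_const (c := C) (a := 0) (b := 2 * π)).mono_fun
      h.meas.aestronglyMeasurable ?_
    filter_upwards with x
    rw [Real.norm_eq_abs, Real.norm_eq_abs]
    exact (hC x).trans (le_abs_self C)
  refine ⟨?_, by rw [hΦ.prim, hper, sub_self]⟩
  intro n t
  have hn : ((n : ℝ) + 1) ≠ 0 := by positivity
  have hΦeq : Φ = fun x => Φ 0 + ∫ y in (0:ℝ)..x, φ y := by
    funext x
    rw [hΦ.prim]; ring
  have h2pi : (0:ℝ) ∈ uIcc 0 (2 * π) := left_mem_uIcc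
  have hAC1 : AbsolutelyContinuousOnInterval Φ 0 (2 * π) := by
    rw [hΦeq]
    have h1 := hint.absolutelyContinuousOnInterval_intervalIntegral (c := 0) h2pi
    have h2 : AbsolutelyContinuousOnInterval (fun _ : ℝ => Φ 0) 0 (2 * π) :=
      ContDiffOn.absolutelyContinuousOnInterval contDiffOn_const
    exact h2.add h1
  have hderΦ : ∀ᵐ x, x ∈ uIcc 0 (2 * π) → deriv Φ x = φ x := by
    filter_upwards [hint.ae_hasDerivAt_integral] with x hx hx2
    have := (hx hx2 0 h2pi).const_add (Φ 0)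
    rw [hΦeq]
    exact this.deriv
  have hg : ∀ x, HasDerivAt (fun x => Real.cos (((n : ℝ) + 1) * (x - t)))
      (-(((n : ℝ) + 1) * Real.sin (((n : ℝ) + 1) * (x - t)))) x := by
    intro x
    have h1 : HasDerivAt (fun x : ℝ => ((n : ℝ) + 1) * (x - t)) ((n : ℝ) + 1) x := by
      simpa using ((hasDerivAt_id x).sub_const t).const_mul ((n : ℝ) + 1)
    have h2 := h1.cos
    convert h2 using 1
    ring
  have hAC2 : AbsolutelyContinuousOnInterval (fun x => Real.cos (((n : ℝ) + 1) * (x - t))) 0 (2 * π) := by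
    apply ContDiffOn.absolutelyContinuousOnInterval
    apply ContDiff.contDiffOn
    fun_prop
  have key := hAC1.integral_mul_deriv_eq_deriv_mul hAC2
  have hcosper : Real.cos (((n : ℝ) + 1) * (2 * π - t)) = Real.cos (((n : ℝ) + 1) * (0 - t)) := by
    have : ((n : ℝ) + 1) * (2 * π - t) = ((n : ℝ) + 1) * (0 - t) + ((n + 1 : ℕ) : ℝ) * (2 * π) := by
      push_cast; ring
    rw [this, Real.cos_add_nat_mul_two_pi]
  rw [hcosper, hper, sub_self, zero_sub] at key
  have e1 : ∫ x in (0:ℝ)..(2 * π), deriv Φ x * Real.cos (((n : ℝ) + 1) * (x - t))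
      = ∫ x in (0:ℝ)..(2 * π), φ x * Real.cos (((n : ℝ) + 1) * (x - t)) := by
    apply intervalIntegral.integral_congr_ae
    filter_upwards [hderΦ] with x hx hx2
    rw [hx (uIoc_subset_uIcc hx2)]
  have e2 : ∫ x in (0:ℝ)..(2 * π), Φ x * deriv (fun x => Real.cos (((n : ℝ) + 1) * (x - t))) x
      = -(((n : ℝ) + 1) * ∫ x in (0:ℝ)..(2 * π), Φ x * Real.sin (((n : ℝ) + 1) * (x - t))) := by
    rw [← intervalIntegral.integral_const_mul, ← intervalIntegral.integral_neg]
    refine intervalIntegral.integral_congr (fun x _ => ?_)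
    show _ = _
    rw [(hg x).deriv]
    ring
  rw [e1, e2, neg_inj] at key
  unfold Ec Vc
  rw [← key]
  field_simp

end Haraux
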