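import Pool.Agent.Helper27.Har.Base

set_option autoImplicit false

open MeasureTheory Set Real Filter Topology
open scoped ENNReal NNReal

namespace Haraux



private theorem IsTest.zero' (Ω : Set (ℝ × ℝ)) : IsTest Ω (fun _ => 0) := by
  refine ⟨contDiff_const, HasCompactSupport.zero, ?_⟩
  have : tsupport (fun _ : ℝ × ℝ => (0 : ℝ)) = ∅ := by
    rw [tsupport_eq_empty_iff]; rfl
  rw [this]
  exact empty_subset _

private theorem IsTest.add' {Ω : Set (ℝ × ℝ)} {φ ψ : ℝ × ℝ → ℝ} (h1 : IsTest Ω φ) (h2 : IsTest Ω ψ) :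
    IsTest Ω (φ + ψ) := by
  refine ⟨h1.1.add h2.1, h1.2.1.add h2.2.1, ?_⟩
  refine (tsupport_add φ ψ).trans (union_subset h1.2.2 h2.2.2)

private theorem IsTest.smul' {Ω : Set (ℝ × ℝ)} {φ : ℝ × ℝ → ℝ} (c : ℝ) (h1 : IsTest Ω φ) :
    IsTest Ω (c • φ) := by
  refine ⟨h1.1.const_smul c, h1.2.1.mono ?_, ?_⟩
  · exact Function.support_const_smul_subset c φ
  · refine (closure_mono ?_).trans h1.2.2
    exact Function.support_const_smul_subset c φ

private theorem IsTest.diff' {Ω : Set (ℝ × ℝ)} {φ : ℝ × ℝ → ℝ} (h1 : IsTest Ω φ) : Differentiable ℝ φ :=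
  h1.1.differentiable (by simp)

private theorem pdx_add' {φ ψ : ℝ × ℝ → ℝ} (h1 : Differentiable ℝ φ) (h2 : Differentiable ℝ ψ) :
    pdx (φ + ψ) = pdx φ + pdx ψ := by
  funext q
  unfold pdx
  rw [fderiv_add (h1 q) (h2 q)]
  rfl

private theorem pdy_add' {φ ψ : ℝ × ℝ → ℝ} (h1 : Differentiable ℝ φ) (h2 : Differentiable ℝ ψ) :
    pdy (φ + ψ) = pdy φ + pdy ψ := by
  funext q
  unfold pdy
  rw [fderiv_add (h1 q) (h2 q)]
  rfl

private theorem pdx_smul' {φ : ℝ × ℝ → ℝ} (c : ℝ) (h1 : Differentiable ℝ φ) :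
    pdx (c • φ) = c • pdx φ := by
  funext q
  unfold pdx
  rw [fderiv_const_smul (h1 q)]
  rfl

private theorem pdy_smul' {φ : ℝ × ℝ → ℝ} (c : ℝ) (h1 : Differentiable ℝ φ) :
    pdy (c • φ) = c • pdy φ := by
  funext q
  unfold pdy
  rw [fderiv_const_smul (h1 q)]
  rfl

/-- `H10` is a closed linear subspace -/
theorem H10_closed (Ω : Set (ℝ × ℝ)) : IsClosed (H10 Ω) ∧
    (0 : L2 Ω × L2 Ω × L2 Ω) ∈ H10 Ω ∧
    (∀ a b, a ∈ H10 Ω → b ∈ H10 Ω → a + b ∈ H10 Ω) ∧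
    (∀ (c : ℝ) (a), a ∈ H10 Ω → c • a ∈ H10 Ω) := by
  refine ⟨isClosed_closure, ?_, ?_, ?_⟩
  · apply subset_closure
    refine ⟨fun _ => 0, IsTest.zero' Ω, ?_, ?_, ?_⟩
    · exact Lp.coeFn_zero ℝ 2 _
    · have : pdx (fun _ => 0) = fun _ => 0 := by
        funext q; simp [pdx]
      rw [this]
      exact Lp.coeFn_zero ℝ 2 _
    · have : pdy (fun _ => 0) = fun _ => 0 := by
        funext q; simp [pdy]
      rw [this]
      exact Lp.coeFn_zero ℝ 2 _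
  · intro a b ha hb
    apply map_mem_closure₂ (f := fun a b => a + b) continuous_add ha hb
    rintro a ⟨φ, hφ, a1, a2, a3⟩ b ⟨ψ, hψ, b1, b2, b3⟩
    refine ⟨φ + ψ, hφ.add' hψ, ?_, ?_, ?_⟩
    · exact (Lp.coeFn_add a.1 b.1).trans (a1.add b1)
    · rw [pdx_add' hφ.diff' hψ.diff']
      exact (Lp.coeFn_add a.2.1 b.2.1).trans (a2.add b2)
    · rw [pdy_add' hφ.diff' hψ.diff']
      exact (Lp.coeFn_add a.2.2 b.2.2).trans (a3.add b3)
  · intro c a ha
    apply map_mem_closure (f := fun a => c • a) (continuous_const_smul c) ha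
    rintro a ⟨φ, hφ, a1, a2, a3⟩
    refine ⟨c • φ, hφ.smul' c, ?_, ?_, ?_⟩
    · exact (Lp.coeFn_smul c a.1).trans (a1.const_smul c)
    · rw [pdx_smul' c hφ.diff']
      exact (Lp.coeFn_smul c a.2.1).trans (a2.const_smul c)
    · rw [pdy_smul' c hφ.diff']
      exact (Lp.coeFn_smul c a.2.2).trans (a3.const_smul c)

end Haraux
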