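import Pool.Agent.Helper27.Har.Base

set_option autoImplicit false

open MeasureTheory Set Real Filter Topology
open scoped ENNReal NNReal

namespace Haraux



private theorem cp_ii {φ : ℝ → ℝ} (h : BP φ) {g : ℝ → ℝ} (hg : Continuous g) :
    IntervalIntegrable (fun x => φ x * g x) volume 0 (2 * π) := by
  obtain ⟨C, hC⟩ := h.bdd
  have h1 : IntervalIntegrable φ volume 0 (2 * π) := by
    rw [intervalIntegrable_iff]
    apply Measure.integrableOn_of_bounded (M := C)
    · rw [uIoc_of_le Real.two_pi_pos.le]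
      exact measure_Ioc_lt_top.ne
    · exact h.meas.aestronglyMeasurable
    · exact Filter.Eventually.of_forall fun x => by rw [Real.norm_eq_abs]; exact hC x
  exact h1.mul_continuousOn hg.continuousOn

/-- cosine integral -/
private noncomputable def cpA (φ : ℝ → ℝ) (a : ℝ) : ℝ := ∫ x in (0:ℝ)..(2 * π), φ x * Real.cos (a * x)
/-- sine integral -/
private noncomputable def cpB (φ : ℝ → ℝ) (a : ℝ) : ℝ := ∫ x in (0:ℝ)..(2 * π), φ x * Real.sin (a * x)

private theorem cp_shift {φ : ℝ → ℝ} (h : BP φ) (a t : ℝ) :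
    (∫ x in (0:ℝ)..(2 * π), φ x * Real.cos (a * (x - t))) ^ 2 +
      (∫ x in (0:ℝ)..(2 * π), φ x * Real.sin (a * (x - t))) ^ 2 = cpA φ a ^ 2 + cpB φ a ^ 2 := by
  have hA := cp_ii h (g := fun x => Real.cos (a * x)) (by fun_prop)
  have hB := cp_ii h (g := fun x => Real.sin (a * x)) (by fun_prop)
  have e1 : (∫ x in (0:ℝ)..(2 * π), φ x * Real.cos (a * (x - t))) =
      Real.cos (a * t) * cpA φ a + Real.sin (a * t) * cpB φ a := by
    unfold cpA cpB
    rw [← intervalIntegral.integral_const_mul, ← intervalIntegral.integral_const_mul,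
      ← intervalIntegral.integral_add (hA.const_mul _) (hB.const_mul _)]
    apply intervalIntegral.integral_congr
    intro x _
    simp only
    rw [mul_sub, Real.cos_sub]
    ring
  have e2 : (∫ x in (0:ℝ)..(2 * π), φ x * Real.sin (a * (x - t))) =
      Real.cos (a * t) * cpB φ a - Real.sin (a * t) * cpA φ a := by
    unfold cpA cpB
    rw [← intervalIntegral.integral_const_mul, ← intervalIntegral.integral_const_mul,
      ← intervalIntegral.integral_sub (hB.const_mul _) (hA.const_mul _)]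
    apply intervalIntegral.integral_congr
    intro x _
    simp only
    rw [mul_sub, Real.sin_sub]
    ring
  rw [e1, e2]
  have h1 := Real.sin_sq_add_cos_sq (a * t)
  linear_combination (cpA φ a ^ 2 + cpB φ a ^ 2) * h1

private theorem cp_coeff {φ : ℝ → ℝ} (h : BP φ) (n : ℤ) :
    ‖fourierCoeffOn Real.two_pi_pos (fun x => (φ x : ℂ)) n‖ ^ 2 =
      (1 / (2 * π)) ^ 2 * (cpA φ n ^ 2 + cpB φ n ^ 2) := by
  have hA := cp_ii h (g := fun x => Real.cos (n * x)) (by fun_prop)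
  have hB := cp_ii h (g := fun x => Real.sin (n * x)) (by fun_prop)
  have e : (∫ x in (0:ℝ)..(2 * π), fourier (-n) (x : AddCircle (2 * π - 0)) • (φ x : ℂ)) =
      (cpA φ n : ℂ) - Complex.I * (cpB φ n : ℂ) := by
    unfold cpA cpB
    rw [← intervalIntegral.integral_ofReal, ← intervalIntegral.integral_ofReal,
      ← intervalIntegral.integral_const_mul, ← intervalIntegral.integral_sub]
    · apply intervalIntegral.integral_congr
      intro x _
      simp only
      rw [fourier_coe_apply, smul_eq_mul]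
      have e1 : (2 * (π : ℂ) * Complex.I * ((-n : ℤ) : ℂ) * (x : ℂ) / ((2 * π - 0 : ℝ) : ℂ)) =
          ((-(n * x) : ℝ) : ℂ) * Complex.I := by
        have hπ : (π : ℂ) ≠ 0 := by exact_mod_cast Real.pi_ne_zero
        push_cast
        rw [sub_zero]
        field_simp
      rw [e1, Complex.exp_mul_I, ← Complex.ofReal_cos, ← Complex.ofReal_sin, Real.cos_neg,
        Real.sin_neg]
      push_cast
      ring
    · exact ⟨hA.1.ofReal, hA.2.ofReal⟩
    · exact ⟨hB.1.ofReal.const_mul _, hB.2.ofReal.const_mul _⟩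
  rw [fourierCoeffOn_eq_integral, e, norm_smul, mul_pow]
  congr 1
  · rw [sub_zero, Real.norm_eq_abs, sq_abs]
  · rw [← Complex.normSq_eq_norm_sq, Complex.normSq_apply]
    simp
    ring

/-- Parseval identity on the circle -/
theorem circle_parseval (φ : ℝ → ℝ) (h : BP φ) (t : ℝ) :
    HasSum (fun n : ℕ => (((n : ℝ) + 1) * Ec n t φ) ^ 2 + (Vc n t φ) ^ 2)
      (π * (∫ x in (0:ℝ)..(2 * π), (φ x) ^ 2) - 1 / 2 * (∫ x in (0:ℝ)..(2 * π), φ x) ^ 2) := by
  obtain ⟨C, hC⟩ := h.bdd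
  have hL2 : MemLp (fun x => (φ x : ℂ)) 2 (volume.restrict (Ioc 0 (2 * π))) := by
    apply MemLp.of_bound (Complex.measurable_ofReal.comp h.meas).aestronglyMeasurable C
    exact Filter.Eventually.of_forall fun x => by
      simp only [Function.comp, Complex.norm_real, Real.norm_eq_abs]
      exact hC x
  have h1 := hasSum_sq_fourierCoeffOn Real.two_pi_pos hL2
  simp only [cp_coeff h] at h1
  have h2 := h1.nat_add_neg
  rw [← hasSum_nat_add_iff' 1] at h2
  have h3 := h2.mul_left (2 * π ^ 2)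
  have hπ : π ≠ 0 := Real.pi_ne_zero
  have hA0 : cpA φ ((0 : ℤ) : ℝ) = ∫ x in (0:ℝ)..(2 * π), φ x := by
    unfold cpA; simp
  have hB0 : cpB φ ((0 : ℤ) : ℝ) = 0 := by
    unfold cpB; simp
  have hAn : ∀ a, cpA φ (-a) = cpA φ a := by
    intro a
    unfold cpA
    simp only [neg_mul, Real.cos_neg]
  have hBn : ∀ a, cpB φ (-a) = -cpB φ a := by
    intro a
    unfold cpB
    simp only [neg_mul, Real.sin_neg, mul_neg, intervalIntegral.integral_neg]
  have hnorm : (∫ x in (0:ℝ)..(2 * π), ‖(φ x : ℂ)‖ ^ 2) = ∫ x in (0:ℝ)..(2 * π), (φ x) ^ 2 := by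
    apply intervalIntegral.integral_congr
    intro x _
    simp only [Complex.norm_real, Real.norm_eq_abs, sq_abs]
  have h5 : (π * (∫ x in (0:ℝ)..(2 * π), (φ x) ^ 2) - 1 / 2 * (∫ x in (0:ℝ)..(2 * π), φ x) ^ 2) =
      2 * π ^ 2 * ((2 * π - 0)⁻¹ • (∫ x in (0:ℝ)..(2 * π), ‖(φ x : ℂ)‖ ^ 2) +
        (1 / (2 * π)) ^ 2 * (cpA φ ((0 : ℤ) : ℝ) ^ 2 + cpB φ ((0 : ℤ) : ℝ) ^ 2) -
        ∑ i ∈ Finset.range 1, ((1 / (2 * π)) ^ 2 * (cpA φ (((i : ℕ) : ℤ) : ℝ) ^ 2 +
          cpB φ (((i : ℕ) : ℤ) : ℝ) ^ 2) + (1 / (2 * π)) ^ 2 * (cpA φ ((-((i : ℕ) : ℤ) : ℤ) : ℝ) ^ 2 +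
          cpB φ ((-((i : ℕ) : ℤ) : ℤ) : ℝ) ^ 2))) := by
    rw [hnorm, Finset.sum_range_one, smul_eq_mul]
    simp only [Nat.cast_zero, neg_zero]
    rw [hA0, hB0, sub_zero]
    field_simp
    ring
  rw [h5]
  refine h3.congr_fun fun n => ?_
  have e1 : ((n : ℝ) + 1) * Ec n t φ =
      ∫ x in (0:ℝ)..(2 * π), φ x * Real.cos (((n : ℝ) + 1) * (x - t)) := by
    unfold Ec
    have : (n : ℝ) + 1 ≠ 0 := by positivity
    field_simp
  rw [e1]
  unfold Vc
  rw [cp_shift h]
  push_cast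
  rw [hAn, hBn]
  field_simp
  ring

end Haraux
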