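import Pool.Agent.Helper27.Har.Base

set_option autoImplicit false

open MeasureTheory Set Real Filter Topology
open scoped ENNReal NNReal

namespace Haraux



private theorem prof_facts_pow (n : ℕ) (s : ℝ) :
    HasDerivAt (fun s : ℝ => (max 0 s) ^ (n + 2)) (((n + 2 : ℕ) : ℝ) * (max 0 s) ^ (n + 1)) s := by
  rcases lt_trichotomy s 0 with h | h | h
  · have h1 : (fun s : ℝ => (max 0 s) ^ (n + 2)) =ᶠ[𝓝 s] fun _ => (0 : ℝ) := by
      filter_upwards [Iio_mem_nhds h] with x hx
      rw [max_eq_left (le_of_lt hx)]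
      simp
    have h2 := (hasDerivAt_const s (0 : ℝ)).congr_of_eventuallyEq h1
    rw [max_eq_left h.le]
    simpa using h2
  · subst h
    rw [hasDerivAt_iff_isLittleO_nhds_zero]
    have h3 : (fun h : ℝ => (max 0 (0 + h)) ^ (n + 2) - (max (0:ℝ) 0) ^ (n + 2) -
        h • (((n + 2 : ℕ) : ℝ) * (max (0:ℝ) 0) ^ (n + 1))) = fun h : ℝ => (max 0 h) ^ (n + 2) := by
      funext h
      simp
    rw [h3]
    have h4 : (fun h : ℝ => (max 0 h) ^ (n + 2)) =O[𝓝 0] fun h : ℝ => h ^ (n + 2) := by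
      refine Asymptotics.IsBigO.of_bound 1 (Filter.Eventually.of_forall fun x => ?_)
      rw [one_mul, norm_pow, norm_pow]
      refine pow_le_pow_left₀ (norm_nonneg _) ?_ _
      rw [Real.norm_eq_abs, Real.norm_eq_abs, abs_of_nonneg (le_max_left 0 x)]
      exact max_le (abs_nonneg x) (le_abs_self x)
    exact h4.trans_isLittleO (Asymptotics.isLittleO_pow_id (by omega))
  · have h1 : (fun s : ℝ => (max 0 s) ^ (n + 2)) =ᶠ[𝓝 s] fun s => s ^ (n + 2) := by
      filter_upwards [Ioi_mem_nhds h] with x hx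
      rw [max_eq_right (le_of_lt hx)]
    have h2 := (hasDerivAt_pow (n + 2) s).congr_of_eventuallyEq h1
    rw [max_eq_right h.le]
    exact h2

/-- facts about the boundary layer profile -/
theorem prof_facts (d : ℝ) (hd : 0 < d) (hd1 : d ≤ 1) :
    Prof (prof d) (prof1 d) (prof2 d) ∧ Continuous (prof d) ∧
    (∀ y, 0 ≤ y → y ≤ π → 0 ≤ prof d y ∧ prof d y ≤ 1) ∧
    (∀ y, d ≤ y → y ≤ π - d → prof d y = 1) ∧
    (∀ y, 0 ≤ y → y ≤ π → |prof2 d y| ≤ 12 / d ^ 2) := by
  have hpi := Real.pi_gt_three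
  have hl1 : ∀ y : ℝ, HasDerivAt (fun y : ℝ => 1 - y / d) (-(1 / d)) y := fun y =>
    ((hasDerivAt_id y).div_const d).const_sub 1
  have hl2 : ∀ y : ℝ, HasDerivAt (fun y : ℝ => 1 - (π - y) / d) (1 / d) y := fun y => by
    have := (((hasDerivAt_id y).const_sub π).div_const d).const_sub 1
    have e : -(-1 / d) = 1 / d := by ring
    rw [e] at this
    exact this
  have hdd1 : ∀ y, HasDerivAt (prof d) (prof1 d y) y := by
    intro y
    have a1 := (prof_facts_pow 1 (1 - y / d)).comp y (hl1 y)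
    have a2 := (prof_facts_pow 1 (1 - (π - y) / d)).comp y (hl2 y)
    have a3 := ((hasDerivAt_const y (1 : ℝ)).sub a1).sub a2
    have e : prof1 d y = 0 - ((1 + 2 : ℕ) : ℝ) * max 0 (1 - y / d) ^ (1 + 1) * -(1 / d) -
        ((1 + 2 : ℕ) : ℝ) * max 0 (1 - (π - y) / d) ^ (1 + 1) * (1 / d) := by
      unfold prof1
      push_cast
      ring
    rw [e]
    exact a3
  have hdd2 : ∀ y, HasDerivAt (prof1 d) (prof2 d y) y := by
    intro y
    have a1 := (prof_facts_pow 0 (1 - y / d)).comp y (hl1 y)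
    have a2 := (prof_facts_pow 0 (1 - (π - y) / d)).comp y (hl2 y)
    have a3 := (a1.const_mul (3 / d)).sub (a2.const_mul (3 / d))
    have e : prof2 d y = 3 / d * (((0 + 2 : ℕ) : ℝ) * max 0 (1 - y / d) ^ (0 + 1) * -(1 / d)) -
        3 / d * (((0 + 2 : ℕ) : ℝ) * max 0 (1 - (π - y) / d) ^ (0 + 1) * (1 / d)) := by
      unfold prof2
      rw [zero_add, pow_one, pow_one]
      push_cast
      ring
    rw [e]
    exact a3
  have hcont2 : Continuous (prof2 d) := by
    unfold prof2
    fun_prop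
  have hz : prof d 0 = 0 := by
    unfold prof
    rw [zero_div, sub_zero, sub_zero, max_eq_right (zero_le_one (α := ℝ)), max_eq_left]
    · norm_num
    · have : 1 ≤ π / d := by rw [le_div_iff₀ hd]; linarith
      linarith
  have hp : prof d π = 0 := by
    unfold prof
    rw [sub_self, zero_div, sub_zero, max_eq_right (zero_le_one (α := ℝ)), max_eq_left]
    · norm_num
    · have : 1 ≤ π / d := by rw [le_div_iff₀ hd]; linarith
      linarith
  refine ⟨⟨hdd1, hdd2, hcont2, hz, hp⟩, ?_, ?_, ?_, ?_⟩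
  · exact continuous_iff_continuousAt.2 fun y => (hdd1 y).continuousAt
  · intro y hy0 hy1
    unfold prof
    obtain ⟨a, ha⟩ : ∃ a, a = max 0 (1 - y / d) := ⟨_, rfl⟩
    obtain ⟨b, hb⟩ : ∃ b, b = max 0 (1 - (π - y) / d) := ⟨_, rfl⟩
    rw [← ha, ← hb]
    have ha0 : 0 ≤ a := by rw [ha]; exact le_max_left _ _
    have hb0 : 0 ≤ b := by rw [hb]; exact le_max_left _ _
    have ha1 : a ≤ 1 := by
      rw [ha]; exact max_le zero_le_one (by have := div_nonneg hy0 hd.le; linarith)
    have hb1 : b ≤ 1 := by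
      rw [hb]
      exact max_le zero_le_one (by have := div_nonneg (sub_nonneg.2 hy1) hd.le; linarith)
    have ha3 : a ^ 3 ≤ 1 := pow_le_one₀ ha0 ha1
    have hb3 : b ^ 3 ≤ 1 := pow_le_one₀ hb0 hb1
    have ha4 : 0 ≤ a ^ 3 := pow_nonneg ha0 3
    have hb4 : 0 ≤ b ^ 3 := pow_nonneg hb0 3
    have hab : a = 0 ∨ b = 0 := by
      rcases le_or_gt d y with h | h
      · left
        rw [ha]
        apply max_eq_left
        have : 1 ≤ y / d := by rw [le_div_iff₀ hd]; linarith
        linarith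
      · right
        rw [hb]
        apply max_eq_left
        have : 1 ≤ (π - y) / d := by rw [le_div_iff₀ hd]; linarith
        linarith
    rcases hab with h | h
    · rw [h] at ha4 ⊢; constructor <;> linarith [zero_pow (M₀ := ℝ) (n := 3) (by norm_num)]
    · rw [h] at hb4 ⊢; constructor <;> linarith [zero_pow (M₀ := ℝ) (n := 3) (by norm_num)]
  · intro y hy0 hy1
    unfold prof
    rw [max_eq_left, max_eq_left]
    · norm_num
    · have : 1 ≤ (π - y) / d := by rw [le_div_iff₀ hd]; linarith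
      linarith
    · have : 1 ≤ y / d := by rw [le_div_iff₀ hd]; linarith
      linarith
  · intro y hy0 hy1
    unfold prof2
    have h1 : 0 ≤ 6 / d ^ 2 := by positivity
    have ha0 : 0 ≤ max 0 (1 - y / d) := le_max_left _ _
    have hb0 : 0 ≤ max 0 (1 - (π - y) / d) := le_max_left _ _
    have ha1 : max 0 (1 - y / d) ≤ 1 :=
      max_le zero_le_one (by have := div_nonneg hy0 hd.le; linarith)
    have hb1 : max 0 (1 - (π - y) / d) ≤ 1 :=
      max_le zero_le_one (by have := div_nonneg (sub_nonneg.2 hy1) hd.le; linarith)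
    have h2 := mul_le_mul_of_nonneg_left ha1 h1
    have h3 := mul_le_mul_of_nonneg_left hb1 h1
    have h4 := mul_nonneg h1 ha0
    have h5 := mul_nonneg h1 hb0
    have h6 : 12 / d ^ 2 = 6 / d ^ 2 + 6 / d ^ 2 := by ring
    rw [abs_le, h6]
    constructor <;> linarith

end Haraux
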