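import Pool.Agent.Helper27.Har.Base
import Pool.Agent.Helper27.Har.P_world_basic
import Pool.Agent.Helper27.Har.P_zone_disj
import Pool.Agent.Helper27.Har.P_level_facts
import Pool.Agent.Helper27.Har.P_prof_facts

set_option autoImplicit false

open MeasureTheory Set Real Filter Topology
open scoped ENNReal NNReal

namespace Haraux



private theorem sg_mul_self235 (s : Bool) : sg s * sg s = 1 := by
  cases s <;> simp [sg]

private theorem abs_sg235 (s : Bool) : |sg s| = 1 := by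
  cases s <;> simp [sg]

/-- the state of one level at a point -/
private theorem lvl_cases235 (W : World) (h : W.Reg) (j : ℕ) (ξ : ℝ) :
    ((∀ s, W.iU j s ξ = 0) ∧ (∀ s, W.iV j s ξ = 0) ∧ W.bl j ξ = 0) ∨
    ((∃ s, W.iU j s ξ = 1 ∧ W.iU j (!s) ξ = 0 ∧ (∀ s, W.iV j s ξ = 0) ∧
      W.bl j ξ = sg s * W.La j) ∨
    (∃ s, (∀ s, W.iU j s ξ = 0) ∧ W.iV j s ξ = 1 ∧ W.iV j (!s) ξ = 0 ∧
      W.bl j ξ = sg s * (W.La (j + 1) - 1))) := by
  have hd := (h.lev j).disj ξ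
  unfold World.bl World.u World.v
  rcases (h.lev j).zoU true ξ with h1 | h1 <;> rcases (h.lev j).zoU false ξ with h2 | h2 <;>
    rcases (h.lev j).zoV true ξ with h3 | h3 <;> rcases (h.lev j).zoV false ξ with h4 | h4
  · refine Or.inl ⟨?_, ?_, ?_⟩
    · intro s; cases s
      · exact h2
      · exact h1
    · intro s; cases s
      · exact h4
      · exact h3
    · rw [h1, h2, h3, h4]; ring
  · refine Or.inr (Or.inr ⟨false, ?_, h4, h3, ?_⟩)
    · intro s; cases s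
      · exact h2
      · exact h1
    · rw [h1, h2, h3, h4]; simp [sg]
  · refine Or.inr (Or.inr ⟨true, ?_, h3, h4, ?_⟩)
    · intro s; cases s
      · exact h2
      · exact h1
    · rw [h1, h2, h3, h4]; simp [sg]
  · rw [h1, h2, h3, h4] at hd; norm_num at hd
  · refine Or.inr (Or.inl ⟨false, h2, h1, ?_, ?_⟩)
    · intro s; cases s
      · exact h4
      · exact h3
    · rw [h1, h2, h3, h4]; simp [sg]
  · rw [h1, h2, h3, h4] at hd; norm_num at hd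
  · rw [h1, h2, h3, h4] at hd; norm_num at hd
  · rw [h1, h2, h3, h4] at hd; norm_num at hd
  · refine Or.inr (Or.inl ⟨true, h1, h2, ?_, ?_⟩)
    · intro s; cases s
      · exact h4
      · exact h3
    · rw [h1, h2, h3, h4]; simp [sg]
  · rw [h1, h2, h3, h4] at hd; norm_num at hd
  · rw [h1, h2, h3, h4] at hd; norm_num at hd
  · rw [h1, h2, h3, h4] at hd; norm_num at hd
  · rw [h1, h2, h3, h4] at hd; norm_num at hd
  · rw [h1, h2, h3, h4] at hd; norm_num at hd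
  · rw [h1, h2, h3, h4] at hd; norm_num at hd
  · rw [h1, h2, h3, h4] at hd; norm_num at hd

/-- outside its zone a level is in the trivial state -/
private theorem lvl_off235 (W : World) (h : W.Reg) (j : ℕ) (ξ : ℝ)
    (hz : ¬ zone (W.z j) (W.n j * (8 * W.mu j + 4 * W.nu j)) ξ) :
    (∀ s, W.iU j s ξ = 0) ∧ (∀ s, W.iV j s ξ = 0) ∧ W.bl j ξ = 0 := by
  have hs := (h.lev j).supp ξ hz
  have hU0 : ∀ s, 0 ≤ W.iU j s ξ := by
    intro s
    rcases (h.lev j).zoU s ξ with h1 | h1 <;> rw [h1]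
    norm_num
  have hV0 : ∀ s, 0 ≤ W.iV j s ξ := by
    intro s
    rcases (h.lev j).zoV s ξ with h1 | h1 <;> rw [h1]
    norm_num
  have a1 := hU0 true
  have a2 := hU0 false
  have a3 := hV0 true
  have a4 := hV0 false
  have b1 : W.iU j true ξ = 0 := by linarith
  have b2 : W.iU j false ξ = 0 := by linarith
  have b3 : W.iV j true ξ = 0 := by linarith
  have b4 : W.iV j false ξ = 0 := by linarith
  refine ⟨?_, ?_, ?_⟩
  · intro s; cases s
    · exact b2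
    · exact b1
  · intro s; cases s
    · exact b4
    · exact b3
  · unfold World.bl World.u World.v
    rw [b1, b2, b3, b4]; ring

/-- at most one level is active at a point -/
private theorem lvl_single235 (W : World) (h : W.Reg) (ξ : ℝ) :
    (∀ j, (∀ s, W.iU j s ξ = 0) ∧ (∀ s, W.iV j s ξ = 0) ∧ W.bl j ξ = 0) ∨
    ∃ j₀, ∀ j, j ≠ j₀ → (∀ s, W.iU j s ξ = 0) ∧ (∀ s, W.iV j s ξ = 0) ∧ W.bl j ξ = 0 := by
  by_cases hz : ∃ j₀, zone (W.z j₀) (W.n j₀ * (8 * W.mu j₀ + 4 * W.nu j₀)) ξ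
  · obtain ⟨j₀, hj₀⟩ := hz
    refine Or.inr ⟨j₀, fun j hj => lvl_off235 W h j ξ fun hzj => hj ?_⟩
    exact zone_disj W h.num j j₀ ξ hzj hj₀
  · push Not at hz
    exact Or.inl fun j => lvl_off235 W h j ξ (hz j)

/-- classification of the points at stage `k`, away from the boundary layers -/
theorem class_lemma (W : World) (h : W.Reg) (k : ℕ) (y : ℝ) (hy1 : W.d k ≤ y)
    (hy2 : y ≤ π - W.d k) (ξ : ℝ) :
    ((∀ s, W.iU k s ξ = 0) ∧ (∀ s, W.iV k s ξ = 0) ∧ (∀ s, W.iU (k + 1) s ξ = 0) ∧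
      |∑' j, prof (W.d j) y * W.bl j ξ| ≤ W.La k - 1) ∨
    (∃ s, W.iU k s ξ = 1 ∧ W.iU k (!s) ξ = 0 ∧ (∀ s, W.iV k s ξ = 0) ∧ (∀ s, W.iU (k + 1) s ξ = 0) ∧
      ∑' j, prof (W.d j) y * W.bl j ξ = sg s * W.La k) ∨
    (∃ s, (∀ s, W.iU k s ξ = 0) ∧ (∀ s, W.iV k s ξ = 0) ∧ W.iU (k + 1) s ξ = 1 ∧
      W.iU (k + 1) (!s) ξ = 0 ∧ ∑' j, prof (W.d j) y * W.bl j ξ = sg s * W.La (k + 1)) ∨
    (∃ s, (∀ s, W.iU k s ξ = 0) ∧ W.iV k s ξ = 1 ∧ W.iV k (!s) ξ = 0 ∧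
      (∀ s, W.iU (k + 1) s ξ = 0) ∧
      ∑' j, prof (W.d j) y * W.bl j ξ = sg s * (W.La (k + 1) - 1)) ∨
    (∃ s, (∀ s, W.iU k s ξ = 0) ∧ (∀ s, W.iV k s ξ = 0) ∧ (∀ s, W.iU (k + 1) s ξ = 0) ∧
      W.La (k + 2) - 1 ≤ sg s * ∑' j, prof (W.d j) y * W.bl j ξ) := by
  obtain ⟨-, -, -, -, -, -, -, -, -, -, -, -, -, hLa2, hLa1, hLam⟩ := world_basic W h.num
  have hdk := h.num.d_pos k
  have hy0 : 0 ≤ y := by linarith
  have hyπ : y ≤ π := by linarith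
  have hprof : ∀ j, 0 ≤ prof (W.d j) y ∧ prof (W.d j) y ≤ 1 := fun j =>
    (prof_facts (W.d j) (h.num.d_pos j) (h.num.d_le j)).2.2.1 y hy0 hyπ
  have hprof1 : ∀ j, k ≤ j → prof (W.d j) y = 1 := by
    intro j hj
    have h1 : W.d j ≤ W.d k := h.num.d_anti hj
    exact (prof_facts (W.d j) (h.num.d_pos j) (h.num.d_le j)).2.2.2.1 y (by linarith)
      (by linarith)
  rcases lvl_single235 W h ξ with hall | ⟨j₀, hj₀⟩
  · refine Or.inl ⟨(hall k).1, (hall k).2.1, (hall (k + 1)).1, ?_⟩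
    have h1 : ∀ j, prof (W.d j) y * W.bl j ξ = 0 := by
      intro j
      rw [(hall j).2.2, mul_zero]
    simp only [h1, tsum_zero, abs_zero]
    linarith [hLa1 k]
  have hsum : ∑' j, prof (W.d j) y * W.bl j ξ = prof (W.d j₀) y * W.bl j₀ ξ := by
    apply tsum_eq_single
    intro j hj
    rw [(hj₀ j hj).2.2, mul_zero]
  rw [hsum]
  rcases lt_trichotomy j₀ k with hlt | heq | hgt
  · -- `j₀ < k`
    have hk := hj₀ k (by omega)
    have hk1 := hj₀ (k + 1) (by omega)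
    refine Or.inl ⟨hk.1, hk.2.1, hk1.1, ?_⟩
    have hb : |W.bl j₀ ξ| ≤ W.La k - 1 := by
      have h1 := hLam (j₀ + 1) k (by omega)
      have h2 := hLa2 j₀
      have h3 := hLa1 j₀
      rcases lvl_cases235 W h j₀ ξ with ⟨_, _, hb⟩ | ⟨s, _, _, _, hb⟩ | ⟨s, _, _, _, hb⟩
      · rw [hb, abs_zero]; linarith [hLa1 k]
      · rw [hb, abs_mul, abs_sg235, one_mul, abs_of_nonneg (by linarith)]; linarith
      · rw [hb, abs_mul, abs_sg235, one_mul, abs_of_nonneg (by linarith)]; linarith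
    rw [abs_mul, abs_of_nonneg (hprof j₀).1]
    calc prof (W.d j₀) y * |W.bl j₀ ξ| ≤ 1 * |W.bl j₀ ξ| :=
          mul_le_mul_of_nonneg_right (hprof j₀).2 (abs_nonneg _)
      _ ≤ _ := by rw [one_mul]; exact hb
  · -- `j₀ = k`
    rw [heq] at hj₀ ⊢
    rw [hprof1 k le_rfl, one_mul]
    have hk1 := hj₀ (k + 1) (by omega)
    rcases lvl_cases235 W h k ξ with ⟨h1, h2, hb⟩ | ⟨s, h1, h2, h3, hb⟩ | ⟨s, h1, h2, h3, hb⟩
    · refine Or.inl ⟨h1, h2, hk1.1, ?_⟩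
      rw [hb, abs_zero]; linarith [hLa1 k]
    · exact Or.inr (Or.inl ⟨s, h1, h2, h3, hk1.1, hb⟩)
    · exact Or.inr (Or.inr (Or.inr (Or.inl ⟨s, h1, h2, h3, hk1.1, hb⟩)))
  · have hk := hj₀ k (by omega)
    rw [hprof1 j₀ hgt.le, one_mul]
    rcases (show k + 1 ≤ j₀ from hgt).eq_or_lt with heq | hgt2
    · -- `j₀ = k + 1`
      rw [← heq] at hj₀ ⊢
      rcases lvl_cases235 W h (k + 1) ξ with ⟨h1, h2, hb⟩ | ⟨s, h1, h2, h3, hb⟩ |
        ⟨s, h1, h2, h3, hb⟩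
      · refine Or.inl ⟨hk.1, hk.2.1, h1, ?_⟩
        rw [hb, abs_zero]; linarith [hLa1 k]
      · exact Or.inr (Or.inr (Or.inl ⟨s, hk.1, hk.2.1, h1, h2, hb⟩))
      · refine Or.inr (Or.inr (Or.inr (Or.inr ⟨s, hk.1, hk.2.1, h1, ?_⟩)))
        rw [hb, ← mul_assoc, sg_mul_self235, one_mul]
    · -- `k + 2 ≤ j₀`
      have hk1 := hj₀ (k + 1) (by omega)
      rcases lvl_cases235 W h j₀ ξ with ⟨h1, h2, hb⟩ | ⟨s, h1, h2, h3, hb⟩ |
        ⟨s, h1, h2, h3, hb⟩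
      · refine Or.inl ⟨hk.1, hk.2.1, hk1.1, ?_⟩
        rw [hb, abs_zero]; linarith [hLa1 k]
      · refine Or.inr (Or.inr (Or.inr (Or.inr ⟨s, hk.1, hk.2.1, hk1.1, ?_⟩)))
        rw [hb, ← mul_assoc, sg_mul_self235, one_mul]
        linarith [hLam (k + 2) j₀ (by omega)]
      · refine Or.inr (Or.inr (Or.inr (Or.inr ⟨s, hk.1, hk.2.1, hk1.1, ?_⟩)))
        rw [hb, ← mul_assoc, sg_mul_self235, one_mul]
        linarith [hLam (k + 2) (j₀ + 1) (by omega)]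

end Haraux
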