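import Pool.Agent.Helper27.Har.Base
import Pool.Agent.Helper27.Har.P_CondDefs
import Pool.Agent.Helper27.Har.P_world_basic
import Pool.Agent.Helper27.Har.P_stage_ineq
import Pool.Agent.Helper27.Har.P_class_lemma
import Pool.Agent.Helper27.Har.P_Gh_facts

set_option autoImplicit false

open MeasureTheory Set Real Filter Topology
open scoped ENNReal NNReal

namespace Haraux



/-- numerical classification of a point -/
private def CondCLa (L0 L1 L2 α γ b β : ℝ) : Prop :=
  (β = 0 ∧ |b| ≤ L0 - 1) ∨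
  (∃ s : Bool, β = sg s * α ∧ b = sg s * L0) ∨
  (∃ s : Bool, β = sg s * γ ∧ L1 - 1 ≤ sg s * b ∧ sg s * b ≤ L1) ∨
  (∃ s : Bool, β = 0 ∧ L2 - 1 ≤ sg s * b)

private theorem cond_lemma_of_le {P V0 e m : ℝ} (he : 0 < e) (h1 : |V0| ≤ m) (h2 : 1 + m / e ≤ |P|) :
    Cond P V0 e := by
  refine Or.inr (Or.inr (Or.inr (le_trans ?_ h2)))
  have : |V0| / e ≤ m / e := div_le_div_of_nonneg_right h1 he.le
  linarith

private theorem cond_lemma_num {L0 L1 L2 α γ am gm e b β b' β' : ℝ} (he : 0 < e) (hL0 : 1 ≤ L0)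
    (hα0 : 0 ≤ α) (hα1 : α ≤ am) (hγ0 : 0 ≤ γ) (hγ1 : γ ≤ gm)
    (h1 : L0 + 2 + am / e ≤ L1) (h2 : L1 + 2 + gm / e ≤ L2)
    (hb : CondCLa L0 L1 L2 α γ b β) (hb' : CondCLa L0 L1 L2 α γ b' β') :
    Cond (b - b') (β - β') e := by
  have hx : 0 ≤ am / e := div_nonneg (hα0.trans hα1) he.le
  have hy : 0 ≤ gm / e := div_nonneg (hγ0.trans hγ1) he.le
  rcases hb with ⟨rfl, hb⟩ | ⟨s, rfl, rfl⟩ | ⟨s, rfl, hb1, hb2⟩ | ⟨s, rfl, hb⟩ <;>
  rcases hb' with ⟨rfl, hb'⟩ | ⟨s', rfl, rfl⟩ | ⟨s', rfl, hb1', hb2'⟩ | ⟨s', rfl, hb'⟩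
  · exact Or.inl (by ring)
  · rw [abs_le] at hb
    rcases s' with _ | _
    · refine Or.inr (Or.inl ⟨?_, ?_⟩) <;> simp only [sg, Bool.false_eq_true, if_false] <;> linarith
    · refine Or.inr (Or.inr (Or.inl ⟨?_, ?_⟩)) <;> simp only [sg, if_true] <;> linarith
  · rw [abs_le] at hb
    rcases s' with _ | _
    · simp only [sg, Bool.false_eq_true, if_false] at hb1' hb2' ⊢
      refine Or.inr (Or.inl ⟨?_, ?_⟩) <;> linarith
    · simp only [sg, if_true] at hb1' hb2' ⊢
      refine Or.inr (Or.inr (Or.inl ⟨?_, ?_⟩)) <;> linarith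
  · exact Or.inl (by ring)
  · rw [abs_le] at hb'
    rcases s with _ | _
    · refine Or.inr (Or.inr (Or.inl ⟨?_, ?_⟩)) <;>
        simp only [sg, Bool.false_eq_true, if_false] <;> linarith
    · refine Or.inr (Or.inl ⟨?_, ?_⟩) <;> simp only [sg, if_true] <;> linarith
  · rcases s with _ | _ <;> rcases s' with _ | _
    · exact Or.inl (by ring)
    · refine Or.inr (Or.inr (Or.inl ⟨?_, ?_⟩)) <;>
        simp only [sg, Bool.false_eq_true, if_false, if_true] <;> linarith
    · refine Or.inr (Or.inl ⟨?_, ?_⟩) <;>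
        simp only [sg, Bool.false_eq_true, if_false, if_true] <;> linarith
    · exact Or.inl (by ring)
  · rcases s with _ | _ <;> rcases s' with _ | _ <;>
      simp only [sg, Bool.false_eq_true, if_false, if_true] at hb1' hb2' ⊢
    · rcases le_total (-1 * α - -1 * γ) 0 with hV | hV
      · refine cond_lemma_of_le he (m := am) ?_ ?_
        · rw [abs_le]; constructor <;> linarith
        · rw [le_abs]; left; linarith
      · exact Or.inr (Or.inl ⟨by linarith, hV⟩)
    · refine Or.inr (Or.inr (Or.inl ⟨?_, ?_⟩)) <;> linarith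
    · refine Or.inr (Or.inl ⟨?_, ?_⟩) <;> linarith
    · rcases le_total (1 * α - 1 * γ) 0 with hV | hV
      · exact Or.inr (Or.inr (Or.inl ⟨by linarith, hV⟩))
      · refine cond_lemma_of_le he (m := am) ?_ ?_
        · rw [abs_le]; constructor <;> linarith
        · rw [le_abs]; right; linarith
  · rcases s with _ | _ <;> rcases s' with _ | _ <;>
      simp only [sg, Bool.false_eq_true, if_false, if_true] at hb' ⊢ <;>
      refine cond_lemma_of_le he (m := am) ?_ ?_
    · rw [abs_le]; constructor <;> linarith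
    · rw [le_abs]; left; linarith
    · rw [abs_le]; constructor <;> linarith
    · rw [le_abs]; right; linarith
    · rw [abs_le]; constructor <;> linarith
    · rw [le_abs]; left; linarith
    · rw [abs_le]; constructor <;> linarith
    · rw [le_abs]; right; linarith
  · rw [abs_le] at hb'
    rcases s with _ | _ <;>
      simp only [sg, Bool.false_eq_true, if_false, if_true] at hb1 hb2 ⊢
    · refine Or.inr (Or.inr (Or.inl ⟨?_, ?_⟩)) <;> linarith
    · refine Or.inr (Or.inl ⟨?_, ?_⟩) <;> linarith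
  · rcases s with _ | _ <;> rcases s' with _ | _ <;>
      simp only [sg, Bool.false_eq_true, if_false, if_true] at hb1 hb2 ⊢
    · rcases le_total (-1 * γ - -1 * α) 0 with hV | hV
      · exact Or.inr (Or.inr (Or.inl ⟨by linarith, hV⟩))
      · refine cond_lemma_of_le he (m := am) ?_ ?_
        · rw [abs_le]; constructor <;> linarith
        · rw [le_abs]; right; linarith
    · refine Or.inr (Or.inr (Or.inl ⟨?_, ?_⟩)) <;> linarith
    · refine Or.inr (Or.inl ⟨?_, ?_⟩) <;> linarith
    · rcases le_total (1 * γ - 1 * α) 0 with hV | hV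
      · refine cond_lemma_of_le he (m := am) ?_ ?_
        · rw [abs_le]; constructor <;> linarith
        · rw [le_abs]; left; linarith
      · exact Or.inr (Or.inl ⟨by linarith, hV⟩)
  · rcases s with _ | _ <;> rcases s' with _ | _ <;>
      simp only [sg, Bool.false_eq_true, if_false, if_true] at hb1 hb2 hb1' hb2' ⊢
    · exact Or.inl (by ring)
    · refine Or.inr (Or.inr (Or.inl ⟨?_, ?_⟩)) <;> linarith
    · refine Or.inr (Or.inl ⟨?_, ?_⟩) <;> linarith
    · exact Or.inl (by ring)
  · rcases s with _ | _ <;> rcases s' with _ | _ <;>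
      simp only [sg, Bool.false_eq_true, if_false, if_true] at hb1 hb2 hb' ⊢ <;>
      refine cond_lemma_of_le he (m := gm) ?_ ?_
    · rw [abs_le]; constructor <;> linarith
    · rw [le_abs]; left; linarith
    · rw [abs_le]; constructor <;> linarith
    · rw [le_abs]; right; linarith
    · rw [abs_le]; constructor <;> linarith
    · rw [le_abs]; left; linarith
    · rw [abs_le]; constructor <;> linarith
    · rw [le_abs]; right; linarith
  · exact Or.inl (by ring)
  · rcases s with _ | _ <;> rcases s' with _ | _ <;>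
      simp only [sg, Bool.false_eq_true, if_false, if_true] at hb ⊢ <;>
      refine cond_lemma_of_le he (m := am) ?_ ?_
    · rw [abs_le]; constructor <;> linarith
    · rw [le_abs]; right; linarith
    · rw [abs_le]; constructor <;> linarith
    · rw [le_abs]; right; linarith
    · rw [abs_le]; constructor <;> linarith
    · rw [le_abs]; left; linarith
    · rw [abs_le]; constructor <;> linarith
    · rw [le_abs]; left; linarith
  · rcases s with _ | _ <;> rcases s' with _ | _ <;>
      simp only [sg, Bool.false_eq_true, if_false, if_true] at hb hb1' hb2' ⊢ <;>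
      refine cond_lemma_of_le he (m := gm) ?_ ?_
    · rw [abs_le]; constructor <;> linarith
    · rw [le_abs]; right; linarith
    · rw [abs_le]; constructor <;> linarith
    · rw [le_abs]; right; linarith
    · rw [abs_le]; constructor <;> linarith
    · rw [le_abs]; left; linarith
    · rw [abs_le]; constructor <;> linarith
    · rw [le_abs]; left; linarith
  · exact Or.inl (by ring)

private theorem cond_lemma_cla (W : World) (h : W.Reg) (k : ℕ) (t : ℝ) (y : ℝ) (hy1 : W.d k ≤ y)
    (hy2 : y ≤ π - W.d k) (ξ : ℝ) :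
    CondCLa (W.La k) (W.La (k + 1)) (W.La (k + 2)) (Real.cos (W.om0 k * t) * W.al k)
      (Real.sin (W.om0 k * t) * W.as k) (∑' j, prof (W.d j) y * W.bl j ξ) (W.B0 k t ξ) := by
  unfold World.B0 World.u World.v
  rcases class_lemma W h k y hy1 hy2 ξ with ⟨h1, h2, h3, h4⟩ | ⟨s, h1, h2, h3, h4, h5⟩ |
    ⟨s, h1, h2, h3, h4, h5⟩ | ⟨s, h1, h2, h3, h4, h5⟩ | ⟨s, h1, h2, h3, h4⟩
  · left
    refine ⟨?_, h4⟩
    rw [h1, h1, h2, h2, h3, h3]; ring
  · right; left
    refine ⟨s, ?_, h5⟩
    rw [h3, h3, h4, h4]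
    rcases s with _ | _
    · rw [Bool.not_false] at h2
      rw [h1, h2]; simp only [sg, Bool.false_eq_true, if_false]; ring
    · rw [Bool.not_true] at h2
      rw [h1, h2]; simp only [sg, if_true]; ring
  · right; right; left
    refine ⟨s, ?_, ?_⟩
    · rw [h1, h1, h2, h2]
      rcases s with _ | _
      · rw [Bool.not_false] at h4
        rw [h3, h4]; simp only [sg, Bool.false_eq_true, if_false]; ring
      · rw [Bool.not_true] at h4
        rw [h3, h4]; simp only [sg, if_true]; ring
    · rw [h5]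
      rcases s with _ | _ <;> simp only [sg, Bool.false_eq_true, if_false, if_true] <;>
        constructor <;> linarith
  · right; right; left
    refine ⟨s, ?_, ?_⟩
    · rw [h1, h1, h4, h4]
      rcases s with _ | _
      · rw [Bool.not_false] at h3
        rw [h2, h3]; simp only [sg, Bool.false_eq_true, if_false]; ring
      · rw [Bool.not_true] at h3
        rw [h2, h3]; simp only [sg, if_true]; ring
    · rw [h5]
      rcases s with _ | _ <;> simp only [sg, Bool.false_eq_true, if_false, if_true] <;>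
        constructor <;> linarith
  · right; right; right
    refine ⟨s, ?_, h4⟩
    rw [h1, h1, h2, h2, h3, h3]; ring

private theorem cond_lemma_val_A (W : World) (h : W.Reg) (k : ℕ) (y : ℝ) (hy1 : W.d k ≤ y)
    (hy2 : y ≤ π - W.d k) (ξ : ℝ) (s : Bool) (hs : W.iU k s ξ = 1) :
    ∑' j, prof (W.d j) y * W.bl j ξ = sg s * W.La k := by
  rcases class_lemma W h k y hy1 hy2 ξ with ⟨h1, h2, h3, h4⟩ | ⟨s', h1, h2, h3, h4, h5⟩ |
    ⟨s', h1, h2, h3, h4, h5⟩ | ⟨s', h1, h2, h3, h4, h5⟩ | ⟨s', h1, h2, h3, h4⟩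
  · rw [h1] at hs; norm_num at hs
  · have : s = s' := by
      by_contra hne
      have e1 : s = !s' := by
        cases s <;> cases s' <;> simp_all
      rw [e1, h2] at hs
      norm_num at hs
    rw [h5, this]
  · rw [h1] at hs; norm_num at hs
  · rw [h1] at hs; norm_num at hs
  · rw [h1] at hs; norm_num at hs

private theorem cond_lemma_val_U (W : World) (h : W.Reg) (k : ℕ) (y : ℝ) (hy1 : W.d k ≤ y)
    (hy2 : y ≤ π - W.d k) (ξ : ℝ) (s : Bool) (hs : W.iU (k + 1) s ξ = 1) :
    ∑' j, prof (W.d j) y * W.bl j ξ = sg s * W.La (k + 1) := by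
  rcases class_lemma W h k y hy1 hy2 ξ with ⟨h1, h2, h3, h4⟩ | ⟨s', h1, h2, h3, h4, h5⟩ |
    ⟨s', h1, h2, h3, h4, h5⟩ | ⟨s', h1, h2, h3, h4, h5⟩ | ⟨s', h1, h2, h3, h4⟩
  · rw [h3] at hs; norm_num at hs
  · rw [h4] at hs; norm_num at hs
  · have : s = s' := by
      by_contra hne
      have e1 : s = !s' := by
        cases s <;> cases s' <;> simp_all
      rw [e1, h4] at hs
      norm_num at hs
    rw [h5, this]
  · rw [h4] at hs; norm_num at hs
  · rw [h3] at hs; norm_num at hs

private theorem cond_lemma_val_V (W : World) (h : W.Reg) (k : ℕ) (y : ℝ) (hy1 : W.d k ≤ y)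
    (hy2 : y ≤ π - W.d k) (ξ : ℝ) (s : Bool) (hs : W.iV k s ξ = 1) :
    ∑' j, prof (W.d j) y * W.bl j ξ = sg s * (W.La (k + 1) - 1) := by
  rcases class_lemma W h k y hy1 hy2 ξ with ⟨h1, h2, h3, h4⟩ | ⟨s', h1, h2, h3, h4, h5⟩ |
    ⟨s', h1, h2, h3, h4, h5⟩ | ⟨s', h1, h2, h3, h4, h5⟩ | ⟨s', h1, h2, h3, h4⟩
  · rw [h2] at hs; norm_num at hs
  · rw [h3] at hs; norm_num at hs
  · rw [h2] at hs; norm_num at hs
  · have : s = s' := by
      by_contra hne
      have e1 : s = !s' := by
        cases s <;> cases s' <;> simp_all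
      rw [e1, h3] at hs
      norm_num at hs
    rw [h5, this]
  · rw [h2] at hs; norm_num at hs

/-- the conditions hold for all pairs of points, away from the layers -/
theorem cond_lemma (W : World) (h : W.Reg) (k : ℕ) (hs : W.Small k) (t : ℝ)
    (hc : W.ep k / 2 ≤ Real.cos (W.om0 k * t)) (hsn : 0 ≤ Real.sin (W.om0 k * t))
    (y : ℝ) (hy1 : W.d k ≤ y) (hy2 : y ≤ π - W.d k) (ξ η : ℝ) :
    Cond ((∑' j, prof (W.d j) y * W.bl j ξ) - (∑' j, prof (W.d j) y * W.bl j η))
      (W.B0 k t ξ - W.B0 k t η) (W.ep k) ∧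
    TieCond ((∑' j, prof (W.d j) y * W.bl j ξ) - (∑' j, prof (W.d j) y * W.bl j η))
      (W.Gh k t ξ η) := by
  have he := h.num.ep_pos k
  obtain ⟨hlam, hkap, hal, has, -, -, -, -, -, -, -, -, hasal, -, hLa, -⟩ :=
    world_basic W h.num
  constructor
  · refine cond_lemma_num (am := W.al k) (gm := W.as k) he (hLa k) ?_ ?_ ?_ ?_ ?_ ?_
      (cond_lemma_cla W h k t y hy1 hy2 ξ) (cond_lemma_cla W h k t y hy1 hy2 η)
    · exact mul_nonneg ((half_pos he).le.trans hc) (hal k).le
    · exact mul_le_of_le_one_left (hal k).le (Real.cos_le_one _)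
    · exact mul_nonneg hsn (has k).le
    · exact mul_le_of_le_one_left (has k).le (Real.sin_le_one _)
    · exact h.num.La1 k
    · have h1 := h.num.La1 (k + 1)
      have h2 : W.as k / W.ep k ≤ W.al (k + 1) / W.ep (k + 1) := by
        have h3 := h.num.ep_pos (k + 1)
        have h4 : W.ep (k + 1) ≤ W.ep k := h.num.ep_anti (Nat.le_succ k)
        exact div_le_div₀ (hal (k + 1)).le (hasal k) h3 h4
      have h5 : k + 1 + 1 = k + 2 := rfl
      rw [h5] at h1
      linarith
  · rcases (Gh_facts W h k hs t).2.2.2.2.2 hc hsn ξ η with h1 | ⟨s, h1, h2⟩ | ⟨s, h1, h2, h3⟩ |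
      ⟨s, h1, h2, h3⟩
    · exact Or.inl h1
    · right; left
      rw [cond_lemma_val_A W h k y hy1 hy2 ξ s h1, cond_lemma_val_A W h k y hy1 hy2 η s h2, sub_self]
    · right; right
      rw [cond_lemma_val_V W h k y hy1 hy2 ξ s h1, cond_lemma_val_U W h k y hy1 hy2 η s h2]
      rcases s with _ | _ <;>
        simp only [sg, Bool.false_eq_true, if_false, if_true] at h3 ⊢
      · left
        exact ⟨by ring, by linarith⟩
      · right
        exact ⟨by ring, by linarith⟩
    · right; right
      rw [cond_lemma_val_U W h k y hy1 hy2 ξ s h1, cond_lemma_val_V W h k y hy1 hy2 η s h2]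
      rcases s with _ | _ <;>
        simp only [sg, Bool.false_eq_true, if_false, if_true] at h3 ⊢
      · right
        exact ⟨by ring, by linarith⟩
      · left
        exact ⟨by ring, by linarith⟩

end Haraux
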