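import Pool.Agent.Helper27.Har.Base

set_option autoImplicit false

open MeasureTheory Set Real Filter Topology
open scoped ENNReal NNReal

namespace Haraux



/-- coordinates of a kick -/
theorem kick_apply (h : KK) (i : ℕ × ℕ) : kick h i = Complex.I * ((sineB.repr h i : ℝ) : ℂ) := rfl

end Haraux
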