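import Pool.Agent.Helper27.Har.Base

set_option autoImplicit false

open MeasureTheory Set Real Filter Topology
open scoped ENNReal NNReal

namespace Haraux



/-- coordinates of the velocity -/
theorem vel_repr (z : HZ) (i : ℕ × ℕ) : sineB.repr (vel z) i = (z i).im := by
  unfold vel
  rw [LinearIsometryEquiv.apply_symm_apply]

end Haraux
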