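import Pool.Agent.Helper27.Har.Base
import Pool.Agent.Helper27.Har.P_kick_apply
import Pool.Agent.Helper27.Har.P_vel_repr

set_option autoImplicit false

open MeasureTheory Set Real Filter Topology
open scoped ENNReal NNReal

namespace Haraux



/-- elementary facts about the real inner product and about `kick`, `vel` -/
theorem rin_facts :
    (∀ z w : HZ, rin z w = rin w z) ∧ (∀ z : HZ, rin z z = ‖z‖ ^ 2) ∧
    (∀ z w v : HZ, rin (z + w) v = rin z v + rin w v) ∧
    (∀ z w v : HZ, rin (z - w) v = rin z v - rin w v) ∧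
    (∀ z v : HZ, rin (-z) v = -rin z v) ∧
    (∀ z w : HZ, |rin z w| ≤ ‖z‖ * ‖w‖) ∧
    (∀ z w : HZ, HasSum (fun i => (z i).re * (w i).re + (z i).im * (w i).im) (rin z w)) ∧
    (∀ (z : HZ) (h : KK), rin z (kick h) = inner ℝ (vel z) h) ∧
    (∀ z w : HZ, vel (z + w) = vel z + vel w) ∧ (∀ z w : HZ, vel (z - w) = vel z - vel w) ∧
    (∀ z : HZ, ‖vel z‖ ≤ ‖z‖) ∧ Continuous vel ∧
    (∀ h k : KK, kick (h + k) = kick h + kick k) ∧ (∀ h k : KK, kick (h - k) = kick h - kick k) ∧
    (∀ h : KK, kick (-h) = -kick h) ∧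
    (∀ h : KK, ‖kick h‖ = ‖h‖) ∧ Continuous kick ∧ (∀ h : KK, vel (kick h) = h) := by
  have F1 : ∀ z w : HZ, rin z w = rin w z := fun z w => inner_re_symm (𝕜 := ℂ) z w
  have F2 : ∀ z : HZ, rin z z = ‖z‖ ^ 2 := fun z => inner_self_eq_norm_sq (𝕜 := ℂ) z
  have F3 : ∀ z w v : HZ, rin (z + w) v = rin z v + rin w v := by
    intro z w v
    unfold rin
    rw [inner_add_left, Complex.add_re]
  have F4 : ∀ z w v : HZ, rin (z - w) v = rin z v - rin w v := by
    intro z w v
    unfold rin
    rw [inner_sub_left, Complex.sub_re]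
  have F5 : ∀ z v : HZ, rin (-z) v = -rin z v := by
    intro z v
    unfold rin
    rw [inner_neg_left, Complex.neg_re]
  have F6 : ∀ z w : HZ, |rin z w| ≤ ‖z‖ * ‖w‖ := by
    intro z w
    unfold rin
    exact (Complex.abs_re_le_norm _).trans (norm_inner_le_norm z w)
  have F7 : ∀ z w : HZ, HasSum (fun i => (z i).re * (w i).re + (z i).im * (w i).im) (rin z w) := by
    intro z w
    have h := Complex.hasSum_re (lp.hasSum_inner (𝕜 := ℂ) z w)
    have e : (fun i => (z i).re * (w i).re + (z i).im * (w i).im) =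
        fun i => (inner ℂ (z i) (w i)).re := by
      funext i
      rw [RCLike.inner_apply]
      simp
      ring
    rw [e]
    exact h
  have F8 : ∀ (z : HZ) (h : KK), rin z (kick h) = inner ℝ (vel z) h := by
    intro z h
    have h1 := F7 z (kick h)
    have h2 := lp.hasSum_inner (𝕜 := ℝ) (sineB.repr (vel z)) (sineB.repr h)
    rw [LinearIsometryEquiv.inner_map_map] at h2
    have e : (fun i => (z i).re * (kick h i).re + (z i).im * (kick h i).im) =
        fun i => inner ℝ (sineB.repr (vel z) i) (sineB.repr h i) := by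
      funext i
      rw [kick_apply, vel_repr, RCLike.inner_apply]
      simp
      try ring
    rw [e] at h1
    exact h1.unique h2
  have F9 : ∀ z w : HZ, vel (z + w) = vel z + vel w := by
    intro z w
    apply sineB.repr.injective
    ext i
    rw [vel_repr, map_add, lp.coeFn_add, lp.coeFn_add, Pi.add_apply, Pi.add_apply, vel_repr,
      vel_repr, Complex.add_im]
  have F10 : ∀ z w : HZ, vel (z - w) = vel z - vel w := by
    intro z w
    apply sineB.repr.injective
    ext i
    rw [vel_repr, map_sub, lp.coeFn_sub, lp.coeFn_sub, Pi.sub_apply, Pi.sub_apply, vel_repr,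
      vel_repr, Complex.sub_im]
  have F18 : ∀ h : KK, vel (kick h) = h := by
    intro h
    apply sineB.repr.injective
    ext i
    rw [vel_repr, kick_apply]
    simp
  have F16 : ∀ h : KK, ‖kick h‖ = ‖h‖ := by
    intro h
    have h1 := F2 (kick h)
    rw [F8, F18, real_inner_self_eq_norm_sq] at h1
    exact ((pow_left_inj₀ (norm_nonneg _) (norm_nonneg _) two_ne_zero).1 h1).symm
  have F11 : ∀ z : HZ, ‖vel z‖ ≤ ‖z‖ := by
    intro z
    have h1 := F8 z (vel z)
    rw [real_inner_self_eq_norm_sq] at h1
    have h2 := F6 z (kick (vel z))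
    rw [h1, F16, abs_of_nonneg (sq_nonneg _)] at h2
    by_contra hcon
    push Not at hcon
    nlinarith [norm_nonneg z, norm_nonneg (vel z)]
  have F12 : Continuous vel := by
    have : LipschitzWith 1 vel := by
      apply LipschitzWith.of_dist_le_mul
      intro z w
      rw [dist_eq_norm, dist_eq_norm, ← F10, NNReal.coe_one, one_mul]
      exact F11 _
    exact this.continuous
  have F13 : ∀ h k : KK, kick (h + k) = kick h + kick k := by
    intro h k
    ext i
    rw [kick_apply, lp.coeFn_add, Pi.add_apply, kick_apply, kick_apply, map_add, lp.coeFn_add,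
      Pi.add_apply]
    push_cast
    ring
  have F14 : ∀ h k : KK, kick (h - k) = kick h - kick k := by
    intro h k
    ext i
    rw [kick_apply, lp.coeFn_sub, Pi.sub_apply, kick_apply, kick_apply, map_sub, lp.coeFn_sub,
      Pi.sub_apply]
    push_cast
    ring
  have F15 : ∀ h : KK, kick (-h) = -kick h := by
    intro h
    ext i
    rw [kick_apply, lp.coeFn_neg, Pi.neg_apply, kick_apply, map_neg, lp.coeFn_neg,
      Pi.neg_apply]
    push_cast
    ring
  have F17 : Continuous kick := by
    have : LipschitzWith 1 kick := by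
      apply LipschitzWith.of_dist_le_mul
      intro z w
      rw [dist_eq_norm, dist_eq_norm, ← F14, NNReal.coe_one, one_mul, F16]
    exact this.continuous
  exact ⟨F1, F2, F3, F4, F5, F6, F7, F8, F9, F10, F11, F12, F13, F14, F15, F16, F17, F18⟩

end Haraux
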