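import Pool.Agent.Helper27.Har.Base
import Pool.Agent.Helper27.Har.P_rin_facts

set_option autoImplicit false

open MeasureTheory Set Real Filter Topology
open scoped ENNReal NNReal

namespace Haraux



/-- product rule for two curves solving `z_i' = -I ω_i z_i + h_i` -/
theorem corr_identity (z1 z2 h1 h2 : ℝ → HZ) (a b M : ℝ) (hab : a ≤ b)
    (hz1 : ∀ (t : ℝ) (i : ℕ × ℕ),
      HasDerivAt (fun s => z1 s i) (-(Complex.I * (om i : ℂ)) * z1 t i + h1 t i) t)
    (hz2 : ∀ (t : ℝ) (i : ℕ × ℕ),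
      HasDerivAt (fun s => z2 s i) (-(Complex.I * (om i : ℂ)) * z2 t i + h2 t i) t)
    (hM : ∀ t ∈ Icc a b, ‖z1 t‖ ≤ M ∧ ‖z2 t‖ ≤ M ∧ ‖h1 t‖ ≤ M ∧ ‖h2 t‖ ≤ M) :
    IntervalIntegrable (fun t => rin (h1 t) (z2 t) + rin (z1 t) (h2 t)) volume a b ∧
    rin (z1 b) (z2 b) - rin (z1 a) (z2 a)
      = ∫ t in a..b, (rin (h1 t) (z2 t) + rin (z1 t) (h2 t)) := by
  obtain ⟨rsymm, rsq, -, -, -, rle, rsum, -⟩ := rin_facts
  let c : (ℝ → HZ) → (ℝ → HZ) → ℝ → ℕ × ℕ → ℝ :=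
    fun z w t i => (z t i).re * (w t i).re + (z t i).im * (w t i).im
  have hre : ∀ (z h : ℝ → HZ), (∀ (t : ℝ) (i : ℕ × ℕ),
      HasDerivAt (fun s => z s i) (-(Complex.I * (om i : ℂ)) * z t i + h t i) t) →
      ∀ t i, HasDerivAt (fun s => (z s i).re) (om i * (z t i).im + (h t i).re) t ∧
        HasDerivAt (fun s => (z s i).im) (-(om i * (z t i).re) + (h t i).im) t := by
    intro z h hz t i
    have e1 := Complex.reCLM.hasFDerivAt.comp_hasDerivAt t (hz t i)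
    have e2 := Complex.imCLM.hasFDerivAt.comp_hasDerivAt t (hz t i)
    constructor
    · refine HasDerivAt.congr_deriv e1 ?_
      simp
    · refine HasDerivAt.congr_deriv e2 ?_
      simp
  have hD : ∀ (S : Finset (ℕ × ℕ)) (t : ℝ), HasDerivAt (fun t => ∑ i ∈ S, c z1 z2 t i)
      (∑ i ∈ S, (c h1 z2 t i + c z1 h2 t i)) t := by
    intro S t
    refine HasDerivAt.fun_sum fun i _ => ?_
    obtain ⟨a1, b1⟩ := hre z1 h1 hz1 t i
    obtain ⟨a2, b2⟩ := hre z2 h2 hz2 t i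
    refine ((a1.mul a2).add (b1.mul b2)).congr_deriv ?_
    simp only [c]
    ring
  have hmeas : ∀ S : Finset (ℕ × ℕ), Measurable fun t => ∑ i ∈ S, (c h1 z2 t i + c z1 h2 t i) := by
    intro S
    have : (fun t => ∑ i ∈ S, (c h1 z2 t i + c z1 h2 t i)) =
        deriv (fun t => ∑ i ∈ S, c z1 z2 t i) := by
      funext t; exact (hD S t).deriv.symm
    rw [this]
    exact measurable_deriv _
  have hlim : ∀ (z w : ℝ → HZ) (t : ℝ), Tendsto (fun S : Finset (ℕ × ℕ) => ∑ i ∈ S, c z w t i)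
      atTop (𝓝 (rin (z t) (w t))) := fun z w t => rsum (z t) (w t)
  have hlimD : ∀ t : ℝ, Tendsto (fun S : Finset (ℕ × ℕ) => ∑ i ∈ S, (c h1 z2 t i + c z1 h2 t i))
      atTop (𝓝 (rin (h1 t) (z2 t) + rin (z1 t) (h2 t))) := by
    intro t
    simp only [Finset.sum_add_distrib]
    exact (hlim h1 z2 t).add (hlim z1 h2 t)
  have hmlim : Measurable fun t => rin (h1 t) (z2 t) + rin (z1 t) (h2 t) :=
    measurable_of_tendsto_metrizable' atTop hmeas (tendsto_pi_nhds.2 hlimD)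
  have hcb : ∀ (z w : ℝ → HZ) (t : ℝ) (S : Finset (ℕ × ℕ)), ‖z t‖ ≤ M → ‖w t‖ ≤ M →
      |∑ i ∈ S, c z w t i| ≤ M ^ 2 := by
    intro z w t S h1 h2
    have k1 : ∀ i, |c z w t i| ≤ (c z z t i + c w w t i) / 2 := by
      intro i
      simp only [c]
      rw [abs_le]
      constructor
      · nlinarith [sq_nonneg ((z t i).re + (w t i).re), sq_nonneg ((z t i).im + (w t i).im)]
      · nlinarith [sq_nonneg ((z t i).re - (w t i).re), sq_nonneg ((z t i).im - (w t i).im)]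
    have k2 : ∀ z : ℝ → HZ, ‖z t‖ ≤ M → ∑ i ∈ S, c z z t i ≤ M ^ 2 := by
      intro z hz
      have k3 := sum_le_hasSum S (fun i _ => by
        show (0 : ℝ) ≤ (z t i).re * (z t i).re + (z t i).im * (z t i).im
        exact add_nonneg (mul_self_nonneg _) (mul_self_nonneg _)) (rsum (z t) (z t))
      rw [rsq] at k3
      exact k3.trans (pow_le_pow_left₀ (norm_nonneg _) hz 2)
    refine (Finset.abs_sum_le_sum_abs _ _).trans ((Finset.sum_le_sum fun i _ => k1 i).trans ?_)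
    rw [← Finset.sum_div, Finset.sum_add_distrib]
    linarith [k2 z h1, k2 w h2]
  have hDb : ∀ (S : Finset (ℕ × ℕ)) (t : ℝ), t ∈ Icc a b →
      ‖∑ i ∈ S, (c h1 z2 t i + c z1 h2 t i)‖ ≤ 2 * M ^ 2 := by
    intro S t ht
    obtain ⟨m1, m2, m3, m4⟩ := hM t ht
    rw [Finset.sum_add_distrib, Real.norm_eq_abs]
    refine (abs_add_le _ _).trans ?_
    linarith [hcb h1 z2 t S m3 m2, hcb z1 h2 t S m1 m4]
  have hlb : ∀ t ∈ Icc a b, ‖rin (h1 t) (z2 t) + rin (z1 t) (h2 t)‖ ≤ 2 * M ^ 2 := by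
    intro t ht
    exact le_of_tendsto (hlimD t).norm (Eventually.of_forall fun S => hDb S t ht)
  have hint : ∀ F : ℝ → ℝ, Measurable F → (∀ t ∈ Icc a b, ‖F t‖ ≤ 2 * M ^ 2) →
      IntervalIntegrable F volume a b := by
    intro F hF hb
    rw [intervalIntegrable_iff_integrableOn_Ioc_of_le hab]
    refine Measure.integrableOn_of_bounded (M := 2 * M ^ 2) (by simp) hF.aestronglyMeasurable ?_
    exact (ae_restrict_iff' measurableSet_Ioc).2
      (Eventually.of_forall fun t ht => hb t (Ioc_subset_Icc_self ht))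
  refine ⟨hint _ hmlim hlb, ?_⟩
  have h1' : ∀ S : Finset (ℕ × ℕ), ∫ t in a..b, ∑ i ∈ S, (c h1 z2 t i + c z1 h2 t i) =
      (∑ i ∈ S, c z1 z2 b i) - ∑ i ∈ S, c z1 z2 a i := fun S =>
    intervalIntegral.integral_eq_sub_of_hasDerivAt (fun t _ => hD S t)
      (hint _ (hmeas S) (hDb S))
  have t1 : Tendsto (fun S : Finset (ℕ × ℕ) =>
      ∫ t in a..b, ∑ i ∈ S, (c h1 z2 t i + c z1 h2 t i)) atTop
      (𝓝 (∫ t in a..b, (rin (h1 t) (z2 t) + rin (z1 t) (h2 t)))) := by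
    refine intervalIntegral.tendsto_integral_filter_of_dominated_convergence
      (fun _ => 2 * M ^ 2) ?_ ?_ ?_ ?_
    · exact Eventually.of_forall fun S => (hmeas S).aestronglyMeasurable
    · refine Eventually.of_forall fun S => Eventually.of_forall fun t ht => ?_
      rw [uIoc_of_le hab] at ht
      exact hDb S t (Ioc_subset_Icc_self ht)
    · exact intervalIntegrable_const
    · exact Eventually.of_forall fun t _ => hlimD t
  have t2 : Tendsto (fun S : Finset (ℕ × ℕ) =>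
      ∫ t in a..b, ∑ i ∈ S, (c h1 z2 t i + c z1 h2 t i)) atTop
      (𝓝 (rin (z1 b) (z2 b) - rin (z1 a) (z2 a))) := by
    simp only [h1']
    exact (hlim z1 z2 b).sub (hlim z1 z2 a)
  exact tendsto_nhds_unique t2 t1

end Haraux
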