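import Pool.Agent.Helper27.Har.Base
import Pool.Agent.Helper27.Har.P_rin_facts
import Pool.Agent.Helper27.Har.P_corr_identity

set_option autoImplicit false

open MeasureTheory Set Real Filter Topology
open scoped ENNReal NNReal

namespace Haraux



private theorem j12721_rin_add_right (z a b : HZ) : rin z (a + b) = rin z a + rin z b := by
  unfold rin
  rw [inner_add_right, Complex.add_re]

private theorem j12721_fin (z w : HZ) (F : Finset (ℕ × ℕ)) :
    rin z (∑ i ∈ F, lp.single 2 i (w i)) = ∑ i ∈ F, (inner ℂ (z i) (w i)).re := by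
  unfold rin
  rw [inner_sum, Complex.re_sum]
  apply Finset.sum_congr rfl
  intro i _
  rw [lp.inner_single_right]

private theorem j12721_weak (z : ℝ → HZ) (s M : ℝ) (hb : ∀ᶠ t in 𝓝 s, ‖z t‖ ≤ M)
    (hc : ∀ i, ContinuousAt (fun t => z t i) s) (w : HZ) :
    Tendsto (fun t => rin (z t) w) (𝓝 s) (𝓝 (rin (z s) w)) := by
  obtain ⟨-, -, -, -, -, rabs, -⟩ := rin_facts
  have hs : ‖z s‖ ≤ M := hb.self_of_nhds
  have hM0 : 0 ≤ M := le_trans (norm_nonneg _) hs
  rw [Metric.tendsto_nhds]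
  intro ε hε
  have hsum : Tendsto (fun F : Finset (ℕ × ℕ) => ∑ i ∈ F, lp.single 2 i (w i)) atTop (𝓝 w) :=
    lp.hasSum_single (by norm_num) w
  obtain ⟨F, hF⟩ := (Metric.tendsto_nhds.1 hsum (ε / (4 * (M + 1))) (by positivity)).exists
  rw [dist_comm, dist_eq_norm] at hF
  obtain ⟨wF, hwF⟩ : ∃ wF : HZ, wF = ∑ i ∈ F, lp.single 2 i (w i) := ⟨_, rfl⟩
  have hfin : Tendsto (fun t => rin (z t) wF) (𝓝 s) (𝓝 (rin (z s) wF)) := by
    rw [hwF]
    simp_rw [j12721_fin]
    apply tendsto_finsetSum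
    intro i _
    exact (Complex.continuous_re.tendsto _).comp ((hc i).tendsto.inner tendsto_const_nhds)
  rw [← hwF] at hF
  filter_upwards [hb, Metric.tendsto_nhds.1 hfin (ε / 4) (by positivity)] with t ht ht2
  have hdec : ∀ v : HZ, rin v w = rin v (w - wF) + rin v wF := by
    intro v
    rw [← j12721_rin_add_right, sub_add_cancel]
  rw [Real.dist_eq] at ht2 ⊢
  rw [hdec (z t), hdec (z s)]
  have e1 : ∀ v : HZ, ‖v‖ ≤ M → |rin v (w - wF)| ≤ ε / 4 := by
    intro v hv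
    calc |rin v (w - wF)| ≤ ‖v‖ * ‖w - wF‖ := rabs _ _
      _ ≤ M * (ε / (4 * (M + 1))) := mul_le_mul hv hF.le (norm_nonneg _) hM0
      _ ≤ (M + 1) * (ε / (4 * (M + 1))) := by
          apply mul_le_mul_of_nonneg_right (by linarith) (by positivity)
      _ = ε / 4 := by field_simp
  have e2 := abs_le.1 (e1 _ ht)
  have e3 := abs_le.1 (e1 _ hs)
  have e4 := abs_lt.1 ht2
  rw [abs_lt]
  constructor <;> linarith [e2.1, e2.2, e3.1, e3.2, e4.1, e4.2]

private theorem j12721_norm (z h : ℝ → HZ)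
    (hz : ∀ (t : ℝ) (i : ℕ × ℕ),
      HasDerivAt (fun s => z s i) (-(Complex.I * (om i : ℂ)) * z t i + h t i) t)
    (a b M : ℝ) (hab : a ≤ b) (hM0 : 0 ≤ M) (hM : ∀ t ∈ Icc a b, ‖z t‖ ≤ M ∧ ‖h t‖ ≤ M) :
    |‖z b‖ ^ 2 - ‖z a‖ ^ 2| ≤ 2 * M ^ 2 * (b - a) := by
  obtain ⟨-, rself, -, -, -, rabs, -⟩ := rin_facts
  have h1 := (corr_identity z z h h a b M hab hz hz
    (fun t ht => ⟨(hM t ht).1, (hM t ht).1, (hM t ht).2, (hM t ht).2⟩)).2
  rw [rself, rself] at h1
  rw [h1]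
  have h2 := intervalIntegral.norm_integral_le_of_norm_le_const (a := a) (b := b)
    (f := fun t => rin (h t) (z t) + rin (z t) (h t)) (C := 2 * M ^ 2) (fun t ht => by
      rw [uIoc_of_le hab] at ht
      obtain ⟨h3, h4⟩ := hM t ⟨ht.1.le, ht.2⟩
      have e1 : |rin (h t) (z t)| ≤ M * M :=
        le_trans (rabs _ _) (mul_le_mul h4 h3 (norm_nonneg _) hM0)
      have e2 : |rin (z t) (h t)| ≤ M * M :=
        le_trans (rabs _ _) (mul_le_mul h3 h4 (norm_nonneg _) hM0)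
      rw [Real.norm_eq_abs]
      calc |rin (h t) (z t) + rin (z t) (h t)| ≤ |rin (h t) (z t)| + |rin (z t) (h t)| :=
            abs_add_le _ _
        _ ≤ 2 * M ^ 2 := by nlinarith)
  rw [Real.norm_eq_abs, abs_of_nonneg (by linarith : 0 ≤ b - a)] at h2
  exact h2

/-- a curve solving `z_i' = -I ω_i z_i + h_i` with locally bounded `z`, `h` is continuous -/
theorem cont_of_ode (z h : ℝ → HZ)
    (hz : ∀ (t : ℝ) (i : ℕ × ℕ),
      HasDerivAt (fun s => z s i) (-(Complex.I * (om i : ℂ)) * z t i + h t i) t)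
    (hM : ∀ R : ℝ, ∃ M : ℝ, ∀ t : ℝ, |t| ≤ R → ‖z t‖ ≤ M ∧ ‖h t‖ ≤ M) : Continuous z := by
  obtain ⟨rsymm, rself, radd, rsub, rneg, rabs, -⟩ := rin_facts
  rw [continuous_iff_continuousAt]
  intro s
  obtain ⟨M, hM⟩ := hM (|s| + 1)
  have hM0 : 0 ≤ M := (norm_nonneg _).trans (hM s (by linarith)).1
  have hnear : ∀ t, |t - s| ≤ 1 → ‖z t‖ ≤ M ∧ ‖h t‖ ≤ M := by
    intro t ht
    apply hM
    have : |t| ≤ |t - s| + |s| := by
      have := abs_add_le (t - s) s
      rwa [sub_add_cancel] at this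
    linarith
  have hev : ∀ᶠ t in 𝓝 s, |t - s| ≤ 1 := by
    have : Metric.closedBall s 1 ∈ 𝓝 s := Metric.closedBall_mem_nhds s one_pos
    filter_upwards [this] with t ht
    rwa [Metric.mem_closedBall, Real.dist_eq] at ht
  have hn : ∀ t, |t - s| ≤ 1 → |‖z t‖ ^ 2 - ‖z s‖ ^ 2| ≤ 2 * M ^ 2 * |t - s| := by
    intro t ht
    rcases le_total s t with hst | hst
    · have h1 := j12721_norm z h hz s t M hst hM0 (fun r hr => hnear r (by
        rw [abs_of_nonneg (by linarith [hr.1])]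
        rw [abs_of_nonneg (by linarith)] at ht
        linarith [hr.2]))
      rwa [abs_of_nonneg (by linarith : 0 ≤ t - s)]
    · have h1 := j12721_norm z h hz t s M hst hM0 (fun r hr => hnear r (by
        rw [abs_of_nonpos (by linarith [hr.2])]
        rw [abs_of_nonpos (by linarith)] at ht
        linarith [hr.1]))
      rw [abs_sub_comm, abs_sub_comm t s, abs_of_nonneg (by linarith : 0 ≤ s - t)]
      exact h1
  have hnt : Tendsto (fun t => ‖z t‖ ^ 2) (𝓝 s) (𝓝 (‖z s‖ ^ 2)) := by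
    rw [tendsto_iff_norm_sub_tendsto_zero]
    have hlin : Tendsto (fun t => 2 * M ^ 2 * |t - s|) (𝓝 s) (𝓝 0) := by
      have hc : Continuous (fun t : ℝ => 2 * M ^ 2 * |t - s|) := by fun_prop
      have := hc.tendsto s
      simpa using this
    refine squeeze_zero' (Filter.Eventually.of_forall fun t => norm_nonneg _) ?_ hlin
    filter_upwards [hev] with t ht
    rw [Real.norm_eq_abs]
    exact hn t ht
  have hw : Tendsto (fun t => rin (z t) (z s)) (𝓝 s) (𝓝 (rin (z s) (z s))) := by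
    apply j12721_weak z s M _ (fun i => (hz s i).continuousAt)
    filter_upwards [hev] with t ht
    exact (hnear t ht).1
  have h2 : Tendsto (fun t => ‖z t - z s‖ ^ 2) (𝓝 s) (𝓝 0) := by
    have h3 : ∀ t, ‖z t - z s‖ ^ 2 = ‖z t‖ ^ 2 + ‖z s‖ ^ 2 - 2 * rin (z t) (z s) := by
      intro t
      rw [← rself, rsub, rsymm (z t), rsymm (z s), rsub, rsub, rself, rself, rsymm (z s) (z t)]
      ring
    simp_rw [h3]
    have h4 := (hnt.add_const (‖z s‖ ^ 2)).sub (hw.const_mul 2)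
    rw [rself] at h4
    have h5 : ‖z s‖ ^ 2 + ‖z s‖ ^ 2 - 2 * ‖z s‖ ^ 2 = 0 := by ring
    rw [h5] at h4
    exact h4
  rw [ContinuousAt, tendsto_iff_norm_sub_tendsto_zero]
  have h6 := h2.sqrt
  rw [Real.sqrt_zero] at h6
  refine h6.congr fun t => ?_
  rw [Real.sqrt_sq (norm_nonneg _)]

end Haraux
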