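import Pool.Agent.Helper27.Har.Base
import Pool.Agent.Helper27.Har.P_rin_facts
import Pool.Agent.Helper27.Har.P_corr_identity

set_option autoImplicit false

open MeasureTheory Set Real Filter Topology
open scoped ENNReal NNReal

namespace Haraux



/-- energy identity for the difference of two solutions -/
theorem sol_diff (N : ℝ → KK → KK) (hN : Continuous (Function.uncurry N)) (z1 z2 : ℝ → HZ)
    (h1 : IsSol N z1) (h2 : IsSol N z2) (a b : ℝ) (hab : a ≤ b) :
    IntervalIntegrable (fun t => inner ℝ (N t (vel (z1 t)) - N t (vel (z2 t)))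
      (vel (z1 t) - vel (z2 t))) volume a b ∧
    ‖z1 b - z2 b‖ ^ 2 + 2 * (∫ t in a..b, inner ℝ (N t (vel (z1 t)) - N t (vel (z2 t)))
      (vel (z1 t) - vel (z2 t))) = ‖z1 a - z2 a‖ ^ 2 := by
  obtain ⟨rc, rs, radd, rsub, rneg, -, -, rk, -, vsub, -, vc, -, ksub, kneg, -, kc, -⟩ := rin_facts
  have c1 : Continuous fun t => N t (vel (z1 t)) :=
    hN.comp (continuous_id.prodMk (vc.comp h1.1))
  have c2 : Continuous fun t => N t (vel (z2 t)) :=
    hN.comp (continuous_id.prodMk (vc.comp h2.1))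
  have cD : Continuous fun t => N t (vel (z1 t)) - N t (vel (z2 t)) := c1.sub c2
  have cv : Continuous fun t => vel (z1 t) - vel (z2 t) := (vc.comp h1.1).sub (vc.comp h2.1)
  have cz : Continuous fun t => z1 t - z2 t := h1.1.sub h2.1
  have ch : Continuous fun t => -kick (N t (vel (z1 t)) - N t (vel (z2 t))) := (kc.comp cD).neg
  have hin : IntervalIntegrable (fun t => inner ℝ (N t (vel (z1 t)) - N t (vel (z2 t)))
      (vel (z1 t) - vel (z2 t))) volume a b := (cD.inner cv).intervalIntegrable a b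
  refine ⟨hin, ?_⟩
  obtain ⟨M1, hM1⟩ := isCompact_Icc.exists_bound_of_continuousOn (s := Icc a b) cz.continuousOn
  obtain ⟨M2, hM2⟩ := isCompact_Icc.exists_bound_of_continuousOn (s := Icc a b) ch.continuousOn
  have hd : ∀ (t : ℝ) (i : ℕ × ℕ),
      HasDerivAt (fun s => (z1 s - z2 s : HZ) i) (-(Complex.I * (om i : ℂ)) * (z1 t - z2 t : HZ) i
        + (-kick (N t (vel (z1 t)) - N t (vel (z2 t))) : HZ) i) t := by
    intro t i
    have e1 := (h1.2 t i).sub (h2.2 t i)
    have e2 : (fun s => (z1 s - z2 s : HZ) i) = (fun s => z1 s i) - (fun s => z2 s i) := by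
      funext s
      rw [lp.coeFn_sub]
      rfl
    have e3 : -(Complex.I * (om i : ℂ)) * (z1 t - z2 t : HZ) i
        + (-kick (N t (vel (z1 t)) - N t (vel (z2 t))) : HZ) i =
        -(Complex.I * (om i : ℂ)) * z1 t i - kick (N t (vel (z1 t))) i -
          (-(Complex.I * (om i : ℂ)) * z2 t i - kick (N t (vel (z2 t))) i) := by
      rw [ksub, lp.coeFn_sub, lp.coeFn_neg, lp.coeFn_sub, Pi.sub_apply, Pi.neg_apply, Pi.sub_apply]
      ring
    rw [e2, e3]
    exact e1
  obtain ⟨-, h3⟩ := corr_identity (fun t => z1 t - z2 t) (fun t => z1 t - z2 t)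
    (fun t => -kick (N t (vel (z1 t)) - N t (vel (z2 t))))
    (fun t => -kick (N t (vel (z1 t)) - N t (vel (z2 t)))) a b (max M1 M2) hab hd hd
    (fun t ht => ⟨(hM1 t ht).trans (le_max_left _ _), (hM1 t ht).trans (le_max_left _ _),
      (hM2 t ht).trans (le_max_right _ _), (hM2 t ht).trans (le_max_right _ _)⟩)
  have h4 : ∀ t, rin (-kick (N t (vel (z1 t)) - N t (vel (z2 t)))) (z1 t - z2 t)
      + rin (z1 t - z2 t) (-kick (N t (vel (z1 t)) - N t (vel (z2 t)))) =
      (-2) * inner ℝ (N t (vel (z1 t)) - N t (vel (z2 t))) (vel (z1 t) - vel (z2 t)) := by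
    intro t
    rw [rc (z1 t - z2 t) _, rneg, rc (kick _) _, rk, vsub, real_inner_comm]
    ring
  simp only [rs] at h3
  rw [intervalIntegral.integral_congr (g := fun t => (-2) *
    inner ℝ (N t (vel (z1 t)) - N t (vel (z2 t))) (vel (z1 t) - vel (z2 t)))
    (fun t _ => h4 t), intervalIntegral.integral_const_mul] at h3
  linarith

end Haraux
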