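import Pool.Agent.Helper27.Har.Base
import Pool.Agent.Helper27.Har.P_sol_diff

set_option autoImplicit false

open MeasureTheory Set Real Filter Topology
open scoped ENNReal NNReal

namespace Haraux



/-- two solutions of a monotone equation do not move apart -/
theorem contraction (N : ℝ → KK → KK) (hN : Continuous (Function.uncurry N))
    (hmono : ∀ t v w, 0 ≤ inner ℝ (N t v - N t w) (v - w)) (z1 z2 : ℝ → HZ)
    (h1 : IsSol N z1) (h2 : IsSol N z2) (a b : ℝ) (hab : a ≤ b) :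
    ‖z1 b - z2 b‖ ≤ ‖z1 a - z2 a‖ := by
  obtain ⟨-, h⟩ := sol_diff N hN z1 z2 h1 h2 a b hab
  have h0 : 0 ≤ ∫ t in a..b, inner ℝ (N t (vel (z1 t)) - N t (vel (z2 t)))
      (vel (z1 t) - vel (z2 t)) :=
    intervalIntegral.integral_nonneg hab (fun t _ => hmono t _ _)
  have h3 : ‖z1 b - z2 b‖ ^ 2 ≤ ‖z1 a - z2 a‖ ^ 2 := by linarith
  exact le_of_sq_le_sq h3 (norm_nonneg _)

end Haraux
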