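import Pool.Agent.Helper27.Har.Base

set_option autoImplicit false

open MeasureTheory Set Real Filter Topology
open scoped ENNReal NNReal

namespace Haraux



private theorem clip_sub_mul_ge (P V : ℝ) :
    (clip (P + V) - clip P) ^ 2 ≤ (clip (P + V) - clip P) * V := by
  have hL : |clip (P + V) - clip P| ≤ |V| := by
    have h := clip_lipschitz.dist_le_mul (P + V) P
    simpa [Real.dist_eq] using h
  rcases le_total 0 V with hV | hV
  · have h1 : 0 ≤ clip (P + V) - clip P := sub_nonneg.2 (clip_mono (by linarith))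
    rw [abs_of_nonneg h1, abs_of_nonneg hV] at hL
    nlinarith
  · have h1 : clip (P + V) - clip P ≤ 0 := sub_nonpos.2 (clip_mono (by linarith))
    rw [abs_of_nonpos h1, abs_of_nonpos hV] at hL
    nlinarith

/-- pointwise inequality in the layers -/
theorem real_layer (P V V0 Vc Gh s e : ℝ) (he : 0 < e) (hs0 : 0 ≤ s) (hs1 : s ≤ 1) :
    -(3 * e * ((clip (P + V) - clip P) * V)) - (V0 * s) ^ 2 / (4 * e) - Vc ^ 2 / (4 * e)
      - |V| * |Gh| ≤ -((clip (P + V) - clip P) * ((V0 + Vc) * s)) - V * (Gh * s) := by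
  have hG := clip_sub_mul_ge P V
  set G := clip (P + V) - clip P with hGdef
  clear_value G
  have h1 : G * (V0 * s) ≤ e * G ^ 2 + (V0 * s) ^ 2 / (4 * e) := by
    have h : e * G ^ 2 + (V0 * s) ^ 2 / (4 * e) - G * (V0 * s)
        = (2 * e * G - V0 * s) ^ 2 / (4 * e) := by field_simp; ring
    have : 0 ≤ (2 * e * G - V0 * s) ^ 2 / (4 * e) := by positivity
    linarith
  have h2 : G * (Vc * s) ≤ e * G ^ 2 + Vc ^ 2 / (4 * e) := by
    have h : e * G ^ 2 + (Vc * s) ^ 2 / (4 * e) - G * (Vc * s)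
        = (2 * e * G - Vc * s) ^ 2 / (4 * e) := by field_simp; ring
    have h' : 0 ≤ (2 * e * G - Vc * s) ^ 2 / (4 * e) := by positivity
    have h3 : (Vc * s) ^ 2 / (4 * e) ≤ Vc ^ 2 / (4 * e) := by
      apply div_le_div_of_nonneg_right _ (by positivity)
      have : s ^ 2 ≤ 1 := by nlinarith
      nlinarith [sq_nonneg Vc]
    linarith
  have h3 : V * (Gh * s) ≤ |V| * |Gh| := by
    have h4 : V * (Gh * s) ≤ |V * (Gh * s)| := le_abs_self _
    rw [abs_mul, abs_mul, abs_of_nonneg hs0] at h4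
    have h5 : |V| * (|Gh| * s) ≤ |V| * (|Gh| * 1) := by gcongr
    linarith
  have h6 : e * G ^ 2 ≤ e * (G * V) := by gcongr
  have h7 : 0 ≤ e * (G * V) := le_trans (by positivity) h6
  nlinarith

end Haraux
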