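import Pool.Agent.Helper27.Har.Base
import Pool.Agent.Helper27.Har.P_CondDefs

set_option autoImplicit false

open MeasureTheory Set Real Filter Topology
open scoped ENNReal NNReal

namespace Haraux



private lemma ro_cases (v : ℝ) : (v ≤ -1 ∧ clip v = -1) ∨ (-1 ≤ v ∧ v ≤ 1 ∧ clip v = v) ∨
    (1 ≤ v ∧ clip v = 1) := by
  unfold clip
  rcases le_total v (-1) with h | h
  · left
    exact ⟨h, by rw [min_eq_left (by linarith), max_eq_left h]⟩
  · right
    rcases le_total v 1 with h' | h'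
    · left
      exact ⟨h, h', by rw [min_eq_left h', max_eq_right h]⟩
    · right
      exact ⟨h', by rw [min_eq_right h', max_eq_right (by norm_num)]⟩

private lemma ro_GV (P V : ℝ) : (clip (P + V) - clip P) ^ 2 ≤ (clip (P + V) - clip P) * V := by
  rcases ro_cases P with ⟨h1, h2⟩ | ⟨h1, h1', h2⟩ | ⟨h1, h2⟩ <;>
    rcases ro_cases (P + V) with ⟨h3, h4⟩ | ⟨h3, h3', h4⟩ | ⟨h3, h4⟩ <;> rw [h2, h4] <;> nlinarith

private lemma ro_amgm (a b e : ℝ) (he : 0 < e) : a * b ≤ e * a ^ 2 + b ^ 2 / (4 * e) := by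
  have h1 : e * a ^ 2 + b ^ 2 / (4 * e) - a * b = (2 * e * a - b) ^ 2 / (4 * e) := by
    field_simp
    ring
  have h2 : 0 ≤ (2 * e * a - b) ^ 2 / (4 * e) := by positivity
  linarith

private lemma ro_one (P V V0 s e : ℝ) (he : 0 < e) (hs0 : 0 ≤ s) (hs1 : s ≤ 1) (hC : Cond P V0 e) :
    (clip (P + V) - clip P) * (V0 * s) ≤ e * ((clip (P + V) - clip P) * V) := by
  have hGV := ro_GV P V
  have hGV0 : 0 ≤ (clip (P + V) - clip P) * V := (sq_nonneg _).trans hGV
  have hr : 0 ≤ e * ((clip (P + V) - clip P) * V) := by positivity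
  rcases hC with h | ⟨h1, h2⟩ | ⟨h1, h2⟩ | h
  · rw [h]; simpa using hr
  · have hP : clip P = 1 := by
      rcases ro_cases P with ⟨h3, h4⟩ | ⟨h3, h3', h4⟩ | ⟨h3, h4⟩ <;> linarith
    have hPV : clip (P + V) ≤ 1 := by
      rcases ro_cases (P + V) with ⟨h3, h4⟩ | ⟨h3, h3', h4⟩ | ⟨h3, h4⟩ <;> linarith
    have : (clip (P + V) - clip P) * (V0 * s) ≤ 0 :=
      mul_nonpos_of_nonpos_of_nonneg (by linarith) (by positivity)
    linarith
  · have hP : clip P = -1 := by
      rcases ro_cases P with ⟨h3, h4⟩ | ⟨h3, h3', h4⟩ | ⟨h3, h4⟩ <;> linarith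
    have hPV : -1 ≤ clip (P + V) := by
      rcases ro_cases (P + V) with ⟨h3, h4⟩ | ⟨h3, h3', h4⟩ | ⟨h3, h4⟩ <;> linarith
    have : (clip (P + V) - clip P) * (V0 * s) ≤ 0 :=
      mul_nonpos_of_nonneg_of_nonpos (by linarith) (mul_nonpos_of_nonpos_of_nonneg h2 hs0)
    linarith
  · have hq : 0 ≤ |V0| / e := by positivity
    have hV0 : |V0| = e * (|V0| / e) := by field_simp
    have hb1 := neg_abs_le V0
    have hb2 := le_abs_self V0
    have hvs1 : V0 * s ≤ |V0| := by
      calc V0 * s ≤ |V0| * s := mul_le_mul_of_nonneg_right hb2 hs0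
        _ ≤ |V0| * 1 := mul_le_mul_of_nonneg_left hs1 (abs_nonneg _)
        _ = |V0| := mul_one _
    have hvs2 : -|V0| ≤ V0 * s := by
      have h5 : -(V0 * s) ≤ |V0| := by
        calc -(V0 * s) = (-V0) * s := by ring
          _ ≤ |V0| * s := mul_le_mul_of_nonneg_right (by linarith) hs0
          _ ≤ |V0| * 1 := mul_le_mul_of_nonneg_left hs1 (abs_nonneg _)
          _ = |V0| := mul_one _
      linarith
    rcases le_total 0 P with hP0 | hP0
    · rw [abs_of_nonneg hP0] at h
      have hP : clip P = 1 := by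
        rcases ro_cases P with ⟨h3, h4⟩ | ⟨h3, h3', h4⟩ | ⟨h3, h4⟩ <;> linarith
      rcases le_total 1 (P + V) with hPV | hPV
      · have : clip (P + V) = 1 := by
          rcases ro_cases (P + V) with ⟨h3, h4⟩ | ⟨h3, h3', h4⟩ | ⟨h3, h4⟩ <;> linarith
        rw [hP, this] at hr ⊢
        simp
      · have hG : clip (P + V) - clip P ≤ 0 := by
          rcases ro_cases (P + V) with ⟨h3, h4⟩ | ⟨h3, h3', h4⟩ | ⟨h3, h4⟩ <;> linarith
        have hV : V ≤ -(|V0| / e) := by linarith
        have h6 : e * V ≤ -|V0| := by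
          have := mul_le_mul_of_nonneg_left hV he.le
          rw [mul_neg, ← hV0] at this
          exact this
        have h7 : e * V ≤ V0 * s := h6.trans hvs2
        have h8 := mul_le_mul_of_nonpos_left h7 hG
        calc (clip (P + V) - clip P) * (V0 * s) ≤ (clip (P + V) - clip P) * (e * V) := h8
          _ = _ := by ring
    · rw [abs_of_nonpos hP0] at h
      have hP : clip P = -1 := by
        rcases ro_cases P with ⟨h3, h4⟩ | ⟨h3, h3', h4⟩ | ⟨h3, h4⟩ <;> linarith
      rcases le_total (P + V) (-1) with hPV | hPV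
      · have : clip (P + V) = -1 := by
          rcases ro_cases (P + V) with ⟨h3, h4⟩ | ⟨h3, h3', h4⟩ | ⟨h3, h4⟩ <;> linarith
        rw [hP, this] at hr ⊢
        simp
      · have hG : 0 ≤ clip (P + V) - clip P := by
          rcases ro_cases (P + V) with ⟨h3, h4⟩ | ⟨h3, h3', h4⟩ | ⟨h3, h4⟩ <;> linarith
        have hV : |V0| / e ≤ V := by linarith
        have h6 : |V0| ≤ e * V := by
          have := mul_le_mul_of_nonneg_left hV he.le
          rw [← hV0] at this
          exact this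
        have h7 : V0 * s ≤ e * V := hvs1.trans h6
        have h8 := mul_le_mul_of_nonneg_left h7 hG
        calc (clip (P + V) - clip P) * (V0 * s) ≤ (clip (P + V) - clip P) * (e * V) := h8
          _ = _ := by ring

private lemma ro_three (P V Gh s e : ℝ) (he : 0 < e) (hs0 : 0 ≤ s) (hs1 : s ≤ 1) (hG : |Gh| ≤ e)
    (hT : TieCond P Gh) :
    V * (Gh * s) ≤ e * ((clip (P + V) - clip P) * V) + Gh ^ 2 / (4 * e) := by
  have hGV := ro_GV P V
  have hGV0 : 0 ≤ (clip (P + V) - clip P) * V := (sq_nonneg _).trans hGV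
  have hr : 0 ≤ e * ((clip (P + V) - clip P) * V) := by positivity
  have hg2 : 0 ≤ Gh ^ 2 / (4 * e) := by positivity
  have habs : V * (Gh * s) ≤ |V| * |Gh| := by
    calc V * (Gh * s) ≤ |V * (Gh * s)| := le_abs_self _
      _ = |V| * (|Gh| * s) := by rw [abs_mul, abs_mul, abs_of_nonneg hs0]
      _ ≤ |V| * (|Gh| * 1) := by gcongr
      _ = |V| * |Gh| := by ring
  have hA : |V| * |Gh| ≤ e * V ^ 2 + Gh ^ 2 / (4 * e) := by
    have := ro_amgm |V| |Gh| e he
    rwa [sq_abs, sq_abs] at this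
  have hB : |V| * |Gh| ≤ e * |V| := by
    rw [mul_comm]
    exact mul_le_mul_of_nonneg_right hG (abs_nonneg _)
  rcases hT with h | h | ⟨h1, h2⟩ | ⟨h1, h2⟩
  · rw [h]; rw [h] at hg2; simpa using hr
  · have hc0 : clip P = 0 := by rw [h, clip_zero]
    rw [hc0, h, zero_add, sub_zero] at hGV hGV0 hr ⊢
    rcases ro_cases V with ⟨h3, h4⟩ | ⟨h3, h3', h4⟩ | ⟨h3, h4⟩
    · rw [h4]
      have : |V| = -V := abs_of_nonpos (by linarith)
      rw [this] at hB habs
      linarith
    · rw [h4]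
      have : e * (V * V) = e * V ^ 2 := by ring
      linarith
    · rw [h4]
      have : |V| = V := abs_of_nonneg (by linarith)
      rw [this] at hB habs
      linarith
  · have hc1 : clip P = 1 := by
      rw [h1]
      rcases ro_cases 1 with ⟨h3, h4⟩ | ⟨h3, h3', h4⟩ | ⟨h3, h4⟩ <;> linarith
    rcases le_total 0 V with hV | hV
    · have : V * (Gh * s) ≤ 0 :=
        mul_nonpos_of_nonneg_of_nonpos hV (mul_nonpos_of_nonpos_of_nonneg h2 hs0)
      linarith
    · rw [hc1, h1] at hGV hGV0 hr ⊢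
      have hav : |V| = -V := abs_of_nonpos hV
      rcases ro_cases (1 + V) with ⟨h3, h4⟩ | ⟨h3, h3', h4⟩ | ⟨h3, h4⟩
      · rw [h4]
        rw [hav] at hB habs
        have : e * ((-1 - 1) * V) = e * (-V) + e * (-V) := by ring
        have h9 : 0 ≤ e * (-V) := mul_nonneg he.le (by linarith)
        linarith
      · rw [h4]
        have : e * ((1 + V - 1) * V) = e * V ^ 2 := by ring
        linarith
      · have hV0 : V = 0 := by linarith
        rw [hV0]
        simpa using hg2
  · have hc1 : clip P = -1 := by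
      rw [h1]
      rcases ro_cases (-1) with ⟨h3, h4⟩ | ⟨h3, h3', h4⟩ | ⟨h3, h4⟩ <;> linarith
    rcases le_total V 0 with hV | hV
    · have : V * (Gh * s) ≤ 0 :=
        mul_nonpos_of_nonpos_of_nonneg hV (by positivity)
      linarith
    · rw [hc1, h1] at hGV hGV0 hr ⊢
      have hav : |V| = V := abs_of_nonneg hV
      rcases ro_cases (-1 + V) with ⟨h3, h4⟩ | ⟨h3, h3', h4⟩ | ⟨h3, h4⟩
      · have hV0 : V = 0 := by linarith
        rw [hV0]
        simpa using hg2
      · rw [h4]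
        have : e * ((-1 + V - -1) * V) = e * V ^ 2 := by ring
        linarith
      · rw [h4]
        rw [hav] at hB habs
        have : e * ((1 - -1) * V) = e * V + e * V := by ring
        have h9 : 0 ≤ e * V := mul_nonneg he.le hV
        linarith

/-- pointwise inequality away from the layers -/
theorem real_off (P V V0 Vc Gh s e : ℝ) (he : 0 < e) (hs0 : 0 ≤ s) (hs1 : s ≤ 1) (hG : |Gh| ≤ e)
    (hC : Cond P V0 e) (hT : TieCond P Gh) :
    -(3 * e * ((clip (P + V) - clip P) * V)) - Vc ^ 2 / (4 * e) - Gh ^ 2 / (4 * e)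
      ≤ -((clip (P + V) - clip P) * ((V0 + Vc) * s)) - V * (Gh * s) := by
  have h1 := ro_one P V V0 s e he hs0 hs1 hC
  have h3 := ro_three P V Gh s e he hs0 hs1 hG hT
  have hGV := ro_GV P V
  have h2 : (clip (P + V) - clip P) * (Vc * s) ≤ e * ((clip (P + V) - clip P) * V) + Vc ^ 2 / (4 * e) := by
    have h4 := ro_amgm (clip (P + V) - clip P) (Vc * s) e he
    have h5 : (Vc * s) ^ 2 / (4 * e) ≤ Vc ^ 2 / (4 * e) := by
      gcongr ?_ / _
      rw [mul_pow]
      have : s ^ 2 ≤ 1 := pow_le_one₀ hs0 hs1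
      nlinarith [sq_nonneg Vc]
    have h6 : e * (clip (P + V) - clip P) ^ 2 ≤ e * ((clip (P + V) - clip P) * V) :=
      mul_le_mul_of_nonneg_left hGV he.le
    linarith
  have h7 : (clip (P + V) - clip P) * ((V0 + Vc) * s) =
      (clip (P + V) - clip P) * (V0 * s) + (clip (P + V) - clip P) * (Vc * s) := by ring
  rw [h7]
  linarith

end Haraux
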