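import Pool.Agent.Helper27.Har.Base

set_option autoImplicit false

open MeasureTheory Set Real Filter Topology
open scoped ENNReal NNReal

namespace Haraux



theorem toK_ae (F : ℝ × ℝ → ℝ) (hF : MemLp F 2 (volume.restrict sq)) :
    (toK F : ℝ × ℝ → ℝ) =ᵐ[volume.restrict sq] F := by
  unfold toK
  rw [dif_pos hF]
  exact hF.coeFn_toLp

end Haraux
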