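import Pool.Agent.Helper27.Har.Base
import Pool.Agent.Helper27.Har.P_toK_ae

set_option autoImplicit false

open MeasureTheory Set Real Filter Topology
open scoped ENNReal NNReal

namespace Haraux



/-- inner products and coordinates of classes of bounded measurable functions -/
theorem toK_inner (F : ℝ × ℝ → ℝ) (hF : MemLp F 2 (volume.restrict sq)) :
    (∀ v : KK, inner ℝ v (toK F) = ∫ q in sq, v q * F q) ∧
    (∀ i, sineB.repr (toK F) i = ∫ q in sq, F q * sfun i q) ∧
    ‖toK F‖ ^ 2 = ∫ q in sq, (F q) ^ 2 := by
  have hae := toK_ae F hF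
  have h1 : ∀ v : KK, inner ℝ v (toK F) = ∫ q in sq, v q * F q := by
    intro v
    rw [MeasureTheory.L2.inner_def]
    apply integral_congr_ae
    filter_upwards [hae] with q hq
    rw [hq]
    simp [mul_comm]
  refine ⟨h1, ?_, ?_⟩
  · intro i
    rw [HilbertBasis.repr_apply_apply, h1]
    apply integral_congr_ae
    filter_upwards [sineB_ae i] with q hq
    rw [hq, mul_comm]
  · rw [← real_inner_self_eq_norm_sq, h1]
    apply integral_congr_ae
    filter_upwards [hae] with q hq
    rw [hq, pow_two]

end Haraux
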