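import Pool.Agent.Helper27.Har.Base

set_option autoImplicit false

open MeasureTheory Set Real Filter Topology
open scoped ENNReal NNReal

namespace Haraux



theorem toK_memLp (F : ℝ × ℝ → ℝ) (hF : Measurable F) (C : ℝ) (hC : ∀ q, |F q| ≤ C) :
    MemLp F 2 (volume.restrict sq) := by
  have hb : Bornology.IsBounded (sq : Set (ℝ × ℝ)) :=
    (Metric.isBounded_Ioo 0 π).prod (Metric.isBounded_Ioo 0 π)
  have hfin : IsFiniteMeasure ((volume : Measure (ℝ × ℝ)).restrict sq) := by
    refine ⟨?_⟩
    rw [Measure.restrict_apply_univ]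
    exact hb.measure_lt_top
  exact MemLp.of_bound hF.aestronglyMeasurable C (Eventually.of_forall hC)

end Haraux
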