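import Pool.Agent.Helper27.Har.Base
import Pool.Agent.Helper27.Har.P_toK_memLp
import Pool.Agent.Helper27.Har.P_toK_inner

set_option autoImplicit false

open MeasureTheory Set Real Filter Topology
open scoped ENNReal NNReal

namespace Haraux



/-- coordinates of the field `ψ(y)(φ(t+x)-φ(t-x))` -/
theorem field_coef (ψ φ : ℝ → ℝ) (hψ : Continuous ψ) (h : BP φ) (t : ℝ) (i : ℕ × ℕ) :
    MemLp (fun q : ℝ × ℝ => ψ q.2 * (φ (t + q.1) - φ (t - q.1))) 2 (volume.restrict sq) ∧
    sineB.repr (toK (fun q => ψ q.2 * (φ (t + q.1) - φ (t - q.1)))) i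
      = psc ψ i.2 * Vc i.1 t φ := by
  obtain ⟨C, hC⟩ := h.bdd
  have hm := h.meas
  have hsqm : MeasurableSet sq := measurableSet_Ioo.prod measurableSet_Ioo
  have hfin : IsFiniteMeasure (volume.restrict sq) := by
    refine ⟨?_⟩
    rw [Measure.restrict_apply_univ]
    have hb : Bornology.IsBounded (sq : Set (ℝ × ℝ)) :=
      (Metric.isBounded_Ioo 0 π).prod (Metric.isBounded_Ioo 0 π)
    exact hb.measure_lt_top
  obtain ⟨M, hM⟩ := (isCompact_Icc (a := (0:ℝ)) (b := π)).exists_bound_of_continuousOn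
    hψ.continuousOn
  have hmem : MemLp (fun q : ℝ × ℝ => ψ q.2 * (φ (t + q.1) - φ (t - q.1))) 2
      (volume.restrict sq) := by
    have hmeas : Measurable (fun q : ℝ × ℝ => ψ q.2 * (φ (t + q.1) - φ (t - q.1))) :=
      (hψ.measurable.comp measurable_snd).mul
        ((hm.comp (measurable_fst.const_add t)).sub (hm.comp (measurable_fst.const_sub t)))
    refine MemLp.of_bound hmeas.aestronglyMeasurable (M * (C + C)) ?_
    filter_upwards [ae_restrict_mem hsqm] with q hq
    rw [norm_mul]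
    have h1 : ‖ψ q.2‖ ≤ M := hM q.2 ⟨hq.2.1.le, hq.2.2.le⟩
    have h2 : ‖φ (t + q.1) - φ (t - q.1)‖ ≤ C + C :=
      (norm_sub_le _ _).trans (add_le_add (hC _) (hC _))
    exact mul_le_mul h1 h2 (norm_nonneg _) ((norm_nonneg _).trans h1)
  refine ⟨hmem, ?_⟩
  rw [(toK_inner _ hmem).2.1 i]
  have hsplit : ∀ q : ℝ × ℝ, ψ q.2 * (φ (t + q.1) - φ (t - q.1)) * sfun i q =
      ((φ (t + q.1) - φ (t - q.1)) * Real.sin (((i.1 : ℝ) + 1) * q.1)) *
        ((2 / π) * (ψ q.2 * Real.sin (((i.2 : ℝ) + 1) * q.2))) := by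
    intro q
    unfold sfun
    ring
  simp only [hsplit]
  have hprod := setIntegral_prod_mul (μ := (volume : Measure ℝ)) (ν := (volume : Measure ℝ))
    (L := ℝ) (fun x : ℝ => (φ (t + x) - φ (t - x)) * Real.sin (((i.1 : ℝ) + 1) * x))
    (fun y : ℝ => (2 / π) * (ψ y * Real.sin (((i.2 : ℝ) + 1) * y))) (Ioo 0 π) (Ioo 0 π)
  rw [← Measure.volume_eq_prod] at hprod
  rw [hprod, ← integral_Ioc_eq_integral_Ioo, ← integral_Ioc_eq_integral_Ioo,
    ← intervalIntegral.integral_of_le pi_pos.le, ← intervalIntegral.integral_of_le pi_pos.le,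
    intervalIntegral.integral_const_mul]
  have hB : (2 / π) * ∫ y in (0:ℝ)..π, ψ y * Real.sin (((i.2 : ℝ) + 1) * y) = psc ψ i.2 := rfl
  rw [hB, mul_comm]
  congr 1
  have hg_def : ∃ g : ℝ → ℝ, g = fun ξ => φ ξ * Real.sin (((i.1 : ℝ) + 1) * (ξ - t)) := ⟨_, rfl⟩
  obtain ⟨g, hg⟩ := hg_def
  have hgm : Measurable g := by
    rw [hg]
    exact hm.mul (by fun_prop)
  have hgb : ∀ x, ‖g x‖ ≤ C := by
    intro x
    rw [hg, norm_mul]
    calc ‖φ x‖ * ‖Real.sin (((i.1 : ℝ) + 1) * (x - t))‖ ≤ ‖φ x‖ * 1 :=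
          mul_le_mul_of_nonneg_left (Real.abs_sin_le_one _) (norm_nonneg _)
      _ ≤ C := by rw [mul_one]; exact hC x
  have hint : ∀ F : ℝ → ℝ, Measurable F → (∀ x, ‖F x‖ ≤ C) → ∀ a b : ℝ,
      IntervalIntegrable F volume a b := by
    intro F hF hFb a b
    rw [intervalIntegrable_iff]
    refine Measure.integrableOn_of_bounded (M := C) ?_ hF.aestronglyMeasurable
      (Filter.Eventually.of_forall hFb)
    rw [uIoc]
    exact measure_Ioc_lt_top.ne
  have hgp : Function.Periodic g (2 * π) := by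
    intro x
    rw [hg]
    show φ (x + 2 * π) * Real.sin (((i.1 : ℝ) + 1) * (x + 2 * π - t)) =
      φ x * Real.sin (((i.1 : ℝ) + 1) * (x - t))
    rw [h.per x]
    have : ((i.1 : ℝ) + 1) * (x + 2 * π - t) = ((i.1 : ℝ) + 1) * (x - t) +
        ((i.1 + 1 : ℕ) : ℝ) * (2 * π) := by push_cast; ring
    rw [this, Real.sin_add_nat_mul_two_pi]
  have hA : ∀ x : ℝ, (φ (t + x) - φ (t - x)) * Real.sin (((i.1 : ℝ) + 1) * x) =
      g (t + x) + g (t - x) := by
    intro x
    rw [hg]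
    show _ = φ (t + x) * Real.sin (((i.1 : ℝ) + 1) * (t + x - t)) +
      φ (t - x) * Real.sin (((i.1 : ℝ) + 1) * (t - x - t))
    rw [show ((i.1 : ℝ) + 1) * (t + x - t) = ((i.1 : ℝ) + 1) * x by ring,
      show ((i.1 : ℝ) + 1) * (t - x - t) = -(((i.1 : ℝ) + 1) * x) by ring, Real.sin_neg]
    ring
  simp only [hA]
  have hi1 : IntervalIntegrable (fun x => g (t + x)) volume 0 π :=
    hint _ (hgm.comp (measurable_id.const_add t)) (fun x => hgb _) _ _
  have hi2 : IntervalIntegrable (fun x => g (t - x)) volume 0 π :=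
    hint _ (hgm.comp (measurable_id.const_sub t)) (fun x => hgb _) _ _
  rw [intervalIntegral.integral_add hi1 hi2, intervalIntegral.integral_comp_add_left,
    intervalIntegral.integral_comp_sub_left, add_zero, sub_zero, add_comm,
    intervalIntegral.integral_add_adjacent_intervals (hint g hgm hgb _ _) (hint g hgm hgb _ _)]
  have hper := hgp.intervalIntegral_add_eq (t - π) 0
  rw [show t - π + 2 * π = t + π by ring, zero_add] at hper
  rw [hper, hg]
  rfl

end Haraux
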