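import Pool.Agent.Helper27.Har.Base
import Pool.Agent.Helper27.Har.P_circle_parseval
import Pool.Agent.Helper27.Har.P_sine_complete_1d

set_option autoImplicit false

open MeasureTheory Set Real Filter Topology
open scoped ENNReal NNReal

namespace Haraux



/-- splitting an integral over the circle -/
private theorem psc_parseval_split (F F1 F2 : ℝ → ℝ) (h1 : Continuous F1) (h2 : Continuous F2)
    (hF1 : ∀ x ∈ Ioo (0:ℝ) π, F x = F1 x) (hF2 : ∀ x ∈ Ioo (0:ℝ) π, F (2 * π - x) = F2 x) :
    ∫ x in (0:ℝ)..(2 * π), F x = (∫ x in (0:ℝ)..π, F1 x) + ∫ x in (0:ℝ)..π, F2 x := by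
  have hpi := Real.pi_pos
  have hF2' : ∀ x ∈ Ioo π (2 * π), F x = F2 (2 * π - x) := by
    intro x hx
    have h := hF2 (2 * π - x) ⟨by linarith [hx.2], by linarith [hx.1]⟩
    rw [← h]
    congr 1
    ring
  have i1 : IntervalIntegrable F volume 0 π := by
    refine (h1.intervalIntegrable 0 π).congr_uIoo ?_
    rw [uIoo_of_le hpi.le]
    exact fun x hx => (hF1 x hx).symm
  have i2 : IntervalIntegrable F volume π (2 * π) := by
    have hc : Continuous fun x => F2 (2 * π - x) := h2.comp (by fun_prop)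
    refine (hc.intervalIntegrable π (2 * π)).congr_uIoo ?_
    rw [uIoo_of_le (by linarith)]
    exact fun x hx => (hF2' x hx).symm
  rw [← intervalIntegral.integral_add_adjacent_intervals i1 i2]
  congr 1
  · exact intervalIntegral.integral_congr_Ioo_of_le hpi.le hF1
  · rw [intervalIntegral.integral_congr_Ioo_of_le (by linarith) hF2',
      intervalIntegral.integral_comp_sub_left (fun x => F2 x) (2 * π)]
    congr 1 <;> ring

/-- Parseval identity for the sine coefficients -/
theorem psc_parseval (ψ : ℝ → ℝ) (h : Continuous ψ) :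
    HasSum (fun l : ℕ => (psc ψ l) ^ 2) (2 / π * ∫ y in (0:ℝ)..π, (ψ y) ^ 2) := by
  have hpi := Real.pi_pos
  set φ : ℝ → ℝ := fun x => (if 0 ≤ Real.sin x then (1 : ℝ) else -1) *
    ψ (Real.arccos (Real.cos x)) with hφ
  have e1 : ∀ x ∈ Ioo (0:ℝ) π, φ x = ψ x := by
    intro x hx
    have h1 : 0 ≤ Real.sin x := (Real.sin_pos_of_pos_of_lt_pi hx.1 hx.2).le
    simp only [hφ, if_pos h1, one_mul]
    rw [Real.arccos_cos hx.1.le hx.2.le]
  have e2 : ∀ x ∈ Ioo (0:ℝ) π, φ (2 * π - x) = -ψ x := by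
    intro x hx
    have h1 : ¬ 0 ≤ Real.sin (2 * π - x) := by
      rw [Real.sin_two_pi_sub, not_le, neg_lt_zero]
      exact Real.sin_pos_of_pos_of_lt_pi hx.1 hx.2
    simp only [hφ, if_neg h1, Real.cos_two_pi_sub]
    rw [Real.arccos_cos hx.1.le hx.2.le]
    ring
  have hBP : BP φ := by
    refine ⟨?_, ?_, ?_⟩
    · refine Measurable.mul ?_ ?_
      · exact Measurable.ite (measurableSet_le measurable_const Real.measurable_sin)
          measurable_const measurable_const
      · exact (h.comp (Real.continuous_arccos.comp Real.continuous_cos)).measurable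
    · obtain ⟨C, hC⟩ := (isCompact_Icc (a := (0:ℝ)) (b := π)).exists_bound_of_continuousOn
        h.continuousOn
      refine ⟨C, fun x => ?_⟩
      have h1 := hC (Real.arccos (Real.cos x)) ⟨Real.arccos_nonneg _, Real.arccos_le_pi _⟩
      rw [Real.norm_eq_abs] at h1
      simp only [hφ, abs_mul]
      have h2 : |if 0 ≤ Real.sin x then (1:ℝ) else -1| = 1 := by
        split_ifs <;> simp
      rw [h2, one_mul]
      exact h1
    · intro x
      simp only [hφ, Real.sin_add_two_pi, Real.cos_add_two_pi]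
  have hP := circle_parseval φ hBP 0
  have hE : ∀ n : ℕ, Ec n 0 φ = 0 := by
    intro n
    unfold Ec
    rw [psc_parseval_split (fun x => φ x * Real.cos (((n : ℝ) + 1) * (x - 0)))
      (fun x => ψ x * Real.cos (((n : ℝ) + 1) * x))
      (fun x => -(ψ x * Real.cos (((n : ℝ) + 1) * x))) (by fun_prop) (by fun_prop)
      (fun x hx => by simp only [e1 x hx, sub_zero])
      (fun x hx => by
        simp only [e2 x hx, sub_zero]
        have h1 : ((n : ℝ) + 1) * (2 * π - x) = ((n + 1 : ℕ) : ℝ) * (2 * π) - ((n : ℝ) + 1) * x := by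
          push_cast
          ring
        rw [h1, Real.cos_nat_mul_two_pi_sub]
        ring)]
    rw [intervalIntegral.integral_neg]
    simp
  have hV : ∀ n : ℕ, Vc n 0 φ = π * psc ψ n := by
    intro n
    unfold Vc psc
    rw [psc_parseval_split (fun x => φ x * Real.sin (((n : ℝ) + 1) * (x - 0)))
      (fun x => ψ x * Real.sin (((n : ℝ) + 1) * x))
      (fun x => ψ x * Real.sin (((n : ℝ) + 1) * x)) (by fun_prop) (by fun_prop)
      (fun x hx => by simp only [e1 x hx, sub_zero])
      (fun x hx => by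
        simp only [e2 x hx, sub_zero]
        have h1 : ((n : ℝ) + 1) * (2 * π - x) = ((n + 1 : ℕ) : ℝ) * (2 * π) - ((n : ℝ) + 1) * x := by
          push_cast
          ring
        rw [h1, Real.sin_nat_mul_two_pi_sub]
        ring)]
    field_simp
    ring
  have h0 : ∫ x in (0:ℝ)..(2 * π), φ x = 0 := by
    rw [psc_parseval_split φ ψ (fun x => -ψ x) h h.neg e1 e2, intervalIntegral.integral_neg]
    ring
  have hsq : ∫ x in (0:ℝ)..(2 * π), (φ x) ^ 2 = 2 * ∫ y in (0:ℝ)..π, (ψ y) ^ 2 := by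
    rw [psc_parseval_split (fun x => (φ x) ^ 2) (fun x => (ψ x) ^ 2) (fun x => (ψ x) ^ 2)
      (by fun_prop) (by fun_prop) (fun x hx => by simp only [e1 x hx])
      (fun x hx => by simp only [e2 x hx]; ring)]
    ring
  rw [h0, hsq] at hP
  simp only [hE, hV] at hP
  have h2 := hP.mul_left (1 / π ^ 2)
  have hf : (fun l : ℕ => (psc ψ l) ^ 2) =
      fun i : ℕ => 1 / π ^ 2 * ((((i : ℝ) + 1) * 0) ^ 2 + (π * psc ψ i) ^ 2) := by
    funext l
    field_simp
    ring
  have hv : 2 / π * ∫ y in (0:ℝ)..π, (ψ y) ^ 2 =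
      1 / π ^ 2 * (π * (2 * ∫ y in (0:ℝ)..π, (ψ y) ^ 2) - 1 / 2 * 0 ^ 2) := by
    field_simp
    ring
  rw [hf, hv]
  exact h2

end Haraux
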