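import Pool.Agent.Helper27.Har.Base

set_option autoImplicit false

open MeasureTheory Set Real Filter Topology
open scoped ENNReal NNReal

namespace Haraux



private theorem psc_prof_one (ψ ψ1 ψ2 : ℝ → ℝ) (h : Prof ψ ψ1 ψ2) (l : ℕ) :
    psc ψ2 l = -((l : ℝ) + 1) ^ 2 * psc ψ l := by
  have hc0 : Continuous ψ := continuous_iff_continuousAt.2 fun y => (h.d1 y).continuousAt
  have hc1 : Continuous ψ1 := continuous_iff_continuousAt.2 fun y => (h.d2 y).continuousAt
  have hc2 := h.cont
  obtain ⟨m, hm⟩ : ∃ m : ℝ, m = (l : ℝ) + 1 := ⟨_, rfl⟩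
  have hs : Real.sin (m * π) = 0 := by
    have := Real.sin_nat_mul_pi (l + 1)
    rw [hm]
    push_cast at this
    exact this
  have hdm : ∀ y : ℝ, HasDerivAt (fun y => m * y) m y := by
    intro y
    simpa using (hasDerivAt_id y).const_mul m
  have hds : ∀ y : ℝ, HasDerivAt (fun y => Real.sin (m * y)) (m * Real.cos (m * y)) y := by
    intro y
    have := (hdm y).sin
    rw [mul_comm] at this
    exact this
  have hdc : ∀ y : ℝ, HasDerivAt (fun y => m * Real.cos (m * y)) (-(m ^ 2 * Real.sin (m * y))) y := by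
    intro y
    have := ((hdm y).cos).const_mul m
    have e : m * (-Real.sin (m * y) * m) = -(m ^ 2 * Real.sin (m * y)) := by ring
    rw [e] at this
    exact this
  have e1 := intervalIntegral.integral_mul_deriv_eq_deriv_mul (a := 0) (b := π)
    (u := fun y => Real.sin (m * y)) (u' := fun y => m * Real.cos (m * y)) (v := ψ1) (v' := ψ2)
    (fun y _ => hds y) (fun y _ => h.d2 y)
    (Continuous.intervalIntegrable (by fun_prop) _ _) (hc2.intervalIntegrable _ _)
  have e2 := intervalIntegral.integral_mul_deriv_eq_deriv_mul (a := 0) (b := π)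
    (u := fun y => m * Real.cos (m * y)) (u' := fun y => -(m ^ 2 * Real.sin (m * y)))
    (v := ψ) (v' := ψ1)
    (fun y _ => hdc y) (fun y _ => h.d1 y)
    (Continuous.intervalIntegrable (by fun_prop) _ _) (hc1.intervalIntegrable _ _)
  rw [e2, h.zero, h.pi, hs] at e1
  have e3 : ∫ y in (0:ℝ)..π, -(m ^ 2 * Real.sin (m * y)) * ψ y =
      -(m ^ 2) * ∫ y in (0:ℝ)..π, ψ y * Real.sin (m * y) := by
    rw [← intervalIntegral.integral_const_mul]
    congr 1
    ext y
    ring
  rw [e3] at e1
  have e4 : ∫ y in (0:ℝ)..π, Real.sin (m * y) * ψ2 y = ∫ y in (0:ℝ)..π, ψ2 y * Real.sin (m * y) := by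
    congr 1
    ext y
    ring
  rw [e4] at e1
  unfold psc
  rw [← hm, e1]
  simp
  ring

private theorem psc_prof_sin : Prof Real.sin Real.cos (fun y => -Real.sin y) where
  d1 := Real.hasDerivAt_sin
  d2 := Real.hasDerivAt_cos
  cont := Real.continuous_sin.neg
  zero := Real.sin_zero
  pi := Real.sin_pi

/-- sine coefficients of the second derivative; coefficients of `sin` -/
theorem psc_prof : (∀ ψ ψ1 ψ2 : ℝ → ℝ, Prof ψ ψ1 ψ2 → ∀ l : ℕ,
    psc ψ2 l = -((l : ℝ) + 1) ^ 2 * psc ψ l) ∧
    (∀ l : ℕ, psc Real.sin l = if l = 0 then 1 else 0) ∧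
    Prof Real.sin Real.cos (fun y => -Real.sin y) := by
  refine ⟨psc_prof_one, fun l => ?_, psc_prof_sin⟩
  by_cases hl : l = 0
  · rw [if_pos hl, hl]
    unfold psc
    have h1 : ∀ y : ℝ, Real.sin y * Real.sin ((((0 : ℕ) : ℝ) + 1) * y) = Real.sin y ^ 2 := by
      intro y
      rw [Nat.cast_zero, zero_add, one_mul, pow_two]
    simp_rw [h1]
    rw [integral_sin_sq]
    simp
  · rw [if_neg hl]
    have h1 := psc_prof_one _ _ _ psc_prof_sin l
    have h2 : psc (fun y => -Real.sin y) l = - psc Real.sin l := by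
      unfold psc
      simp [intervalIntegral.integral_neg]
    rw [h2] at h1
    have hl1 : (1:ℝ) ≤ l := by
      exact_mod_cast Nat.one_le_iff_ne_zero.2 hl
    have h3 : psc Real.sin l * (((l:ℝ) + 1) ^ 2 - 1) = 0 := by linarith
    rcases mul_eq_zero.1 h3 with h4 | h4
    · exact h4
    · nlinarith

end Haraux
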