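import Pool.Agent.Helper27.Har.Base
import Pool.Agent.Helper27.Har.P_circle_parseval
import Pool.Agent.Helper27.Har.P_psc_parseval
import Pool.Agent.Helper27.Har.P_psc_prof

set_option autoImplicit false

open MeasureTheory Set Real Filter Topology
open scoped ENNReal NNReal

namespace Haraux



/-- the lift is well defined -/
theorem glift_mem (ψ ψ1 ψ2 φ : ℝ → ℝ) (hψ : Prof ψ ψ1 ψ2) (h : BP φ) (t : ℝ) :
    Memℓp (fun i : ℕ × ℕ => ((psc ψ i.2 * (om i * Ec i.1 t φ) : ℝ) : ℂ)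
      + Complex.I * ((psc ψ i.2 * Vc i.1 t φ : ℝ) : ℂ)) 2 := by
  have hnorm : ∀ a b : ℝ, ‖((a : ℝ) : ℂ) + Complex.I * ((b : ℝ) : ℂ)‖ ^ 2 = a ^ 2 + b ^ 2 := by
    intro a b
    rw [← Complex.normSq_eq_norm_sq, mul_comm, Complex.normSq_add_mul_I]
  have hψc : Continuous ψ := continuous_iff_continuousAt.mpr (fun y => (hψ.d1 y).continuousAt)
  have hA := (circle_parseval φ h t).summable
  have hB := (psc_parseval ψ hψc).summable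
  have hC := (psc_parseval ψ2 hψ.cont).summable
  have h1 := (hA.mul_of_nonneg hB (fun n => by positivity) (fun n => by positivity)).add
    (hA.mul_of_nonneg hC (fun n => by positivity) (fun n => by positivity))
  rw [memℓp_gen_iff (by norm_num)]
  refine Summable.of_nonneg_of_le (fun i => by positivity) (fun i => ?_) h1
  have h2 : (2 : ℝ≥0∞).toReal = ((2 : ℕ) : ℝ) := by norm_num
  rw [h2, Real.rpow_natCast, hnorm]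
  have h3 : om i ^ 2 = ((i.1 : ℝ) + 1) ^ 2 + ((i.2 : ℝ) + 1) ^ 2 := by
    unfold om
    exact Real.sq_sqrt (by positivity)
  have h4 := psc_prof.1 ψ ψ1 ψ2 hψ i.2
  obtain ⟨E, hE⟩ : ∃ E : ℝ, E = Ec i.1 t φ := ⟨_, rfl⟩
  obtain ⟨V, hV⟩ : ∃ V : ℝ, V = Vc i.1 t φ := ⟨_, rfl⟩
  obtain ⟨c, hc⟩ : ∃ c : ℝ, c = psc ψ i.2 := ⟨_, rfl⟩
  obtain ⟨n, hn⟩ : ∃ n : ℝ, n = (i.1 : ℝ) + 1 := ⟨_, rfl⟩
  obtain ⟨l, hl⟩ : ∃ l : ℝ, l = (i.2 : ℝ) + 1 := ⟨_, rfl⟩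
  have hn1 : 1 ≤ n := by
    rw [hn]
    have : (0 : ℝ) ≤ (i.1 : ℝ) := Nat.cast_nonneg _
    linarith
  have hl1 : 1 ≤ l := by
    rw [hl]
    have : (0 : ℝ) ≤ (i.2 : ℝ) := Nat.cast_nonneg _
    linarith
  simp only [← hE, ← hV, ← hc, ← hn, ← hl] at h3 h4 ⊢
  rw [h4]
  have h5 : (c * (om i * E)) ^ 2 + (c * V) ^ 2 = c ^ 2 * ((n ^ 2 + l ^ 2) * E ^ 2 + V ^ 2) := by
    rw [← h3]
    ring
  rw [h5]
  have hl2 : 1 ≤ l ^ 2 := one_le_pow₀ hl1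
  have hn2 : 1 ≤ n ^ 2 := one_le_pow₀ hn1
  have e1 : c ^ 2 * (l ^ 2 * E ^ 2) ≤ (-l ^ 2 * c) ^ 2 * (n ^ 2 * E ^ 2) := by
    have e2 : l ^ 2 ≤ (l ^ 2) ^ 2 := by nlinarith
    have e3 : E ^ 2 ≤ n ^ 2 * E ^ 2 := le_mul_of_one_le_left (sq_nonneg _) hn2
    have e4 : l ^ 2 * E ^ 2 ≤ (l ^ 2) ^ 2 * (n ^ 2 * E ^ 2) :=
      mul_le_mul e2 e3 (sq_nonneg _) (by positivity)
    have e5 := mul_le_mul_of_nonneg_left e4 (sq_nonneg c)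
    calc c ^ 2 * (l ^ 2 * E ^ 2) ≤ c ^ 2 * ((l ^ 2) ^ 2 * (n ^ 2 * E ^ 2)) := e5
      _ = (-l ^ 2 * c) ^ 2 * (n ^ 2 * E ^ 2) := by ring
  have e6 : 0 ≤ (-l ^ 2 * c) ^ 2 * V ^ 2 := by positivity
  have e7 : ((n * E) ^ 2 + V ^ 2) * c ^ 2 + ((n * E) ^ 2 + V ^ 2) * (-l ^ 2 * c) ^ 2
      = c ^ 2 * (n ^ 2 * E ^ 2 + V ^ 2) + (-l ^ 2 * c) ^ 2 * (n ^ 2 * E ^ 2)
        + (-l ^ 2 * c) ^ 2 * V ^ 2 := by ring
  rw [e7]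
  have e8 : c ^ 2 * ((n ^ 2 + l ^ 2) * E ^ 2 + V ^ 2)
      = c ^ 2 * (n ^ 2 * E ^ 2 + V ^ 2) + c ^ 2 * (l ^ 2 * E ^ 2) := by ring
  rw [e8]
  linarith

end Haraux
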