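import Pool.Agent.Helper27.Har.Base
import Pool.Agent.Helper27.Har.P_glift_mem

set_option autoImplicit false

open MeasureTheory Set Real Filter Topology
open scoped ENNReal NNReal

namespace Haraux



/-- coordinates of the lift -/
theorem glift_apply (ψ ψ1 ψ2 φ : ℝ → ℝ) (hψ : Prof ψ ψ1 ψ2) (h : BP φ) (t : ℝ) (i : ℕ × ℕ) :
    glift ψ t φ i = ((psc ψ i.2 * (om i * Ec i.1 t φ) : ℝ) : ℂ)
      + Complex.I * ((psc ψ i.2 * Vc i.1 t φ : ℝ) : ℂ) := by
  unfold glift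
  rw [dif_pos (glift_mem ψ ψ1 ψ2 φ hψ h t)]

end Haraux
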