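import Pool.Agent.Helper27.Har.Base
import Pool.Agent.Helper27.Har.P_field_coef
import Pool.Agent.Helper27.Har.P_glift_apply
import Pool.Agent.Helper27.Har.P_vel_repr

set_option autoImplicit false

open MeasureTheory Set Real Filter Topology
open scoped ENNReal NNReal

namespace Haraux



/-- the velocity of a lift -/
theorem vel_glift (ψ ψ1 ψ2 φ : ℝ → ℝ) (hψ : Prof ψ ψ1 ψ2) (h : BP φ) (t : ℝ) :
    vel (glift ψ t φ) = toK (fun q => ψ q.2 * (φ (t + q.1) - φ (t - q.1))) := by
  have hc : Continuous ψ := continuous_iff_continuousAt.2 fun y => (hψ.d1 y).continuousAt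
  apply sineB.repr.injective
  ext i
  rw [vel_repr, (field_coef ψ φ hc h t i).2, glift_apply ψ ψ1 ψ2 φ hψ h t i]
  rw [Complex.add_im, Complex.ofReal_im, Complex.mul_im, Complex.I_re, Complex.I_im,
    Complex.ofReal_re, Complex.ofReal_im]
  ring

end Haraux
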