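import Pool.Agent.Helper27.Har.Base
import Pool.Agent.Helper27.Har.P_circle_parseval
import Pool.Agent.Helper27.Har.P_psc_parseval
import Pool.Agent.Helper27.Har.P_psc_prof
import Pool.Agent.Helper27.Har.P_glift_apply
import Pool.Agent.Helper27.Har.P_Ec_prim

set_option autoImplicit false

open MeasureTheory Set Real Filter Topology
open scoped ENNReal NNReal

namespace Haraux

/-! ### auxiliary statements for the target -/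

private theorem glift_norm_sq_coord (a b : ℝ) : ‖((a : ℝ) : ℂ) + Complex.I * ((b : ℝ) : ℂ)‖ ^ 2 =
    a ^ 2 + b ^ 2 := by
  rw [Complex.sq_norm, mul_comm, Complex.normSq_add_mul_I]

private theorem glift_norm_hasSum (z : HZ) : HasSum (fun i => ‖z i‖ ^ 2) (‖z‖ ^ 2) := by
  have h := lp.hasSum_norm (p := 2) (by norm_num) z
  simpa using h

private theorem glift_norm_pt (ψ ψ1 ψ2 φ Φ : ℝ → ℝ) (hψ : Prof ψ ψ1 ψ2) (h : BP φ) (hΦ : IsPrim φ Φ)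
    (t : ℝ) (n l : ℕ) : ‖glift ψ t φ (n, l)‖ ^ 2 ≤
      ((((n : ℝ) + 1) * Ec n t φ) ^ 2 + (Vc n t φ) ^ 2) * (psc ψ l) ^ 2 +
        ((((n : ℝ) + 1) * Ec n t Φ) ^ 2 + (Vc n t Φ) ^ 2) * (psc ψ2 l) ^ 2 := by
  rw [glift_apply ψ ψ1 ψ2 φ hψ h t (n, l), glift_norm_sq_coord, psc_prof.1 ψ ψ1 ψ2 hψ l]
  have hom : om (n, l) ^ 2 = ((n : ℝ) + 1) ^ 2 + ((l : ℝ) + 1) ^ 2 := by
    rw [om, Real.sq_sqrt (by positivity)]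
  have hE : Ec n t φ = Vc n t Φ := (Ec_prim φ Φ h hΦ).1 n t
  have h1 : (psc ψ l * (om (n, l) * Ec n t φ)) ^ 2 + (psc ψ l * Vc n t φ) ^ 2 =
      ((((n : ℝ) + 1) * Ec n t φ) ^ 2 + (Vc n t φ) ^ 2) * (psc ψ l) ^ 2 +
        (Vc n t Φ) ^ 2 * (((l : ℝ) + 1) ^ 2 * (psc ψ l) ^ 2) := by
    rw [← hE]
    linear_combination (psc ψ l) ^ 2 * (Ec n t φ) ^ 2 * hom
  have h2 : ((l : ℝ) + 1) ^ 2 * (psc ψ l) ^ 2 ≤ (-((l : ℝ) + 1) ^ 2 * psc ψ l) ^ 2 := by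
    have h3 : (1 : ℝ) ≤ ((l : ℝ) + 1) ^ 2 := by
      have : (0 : ℝ) ≤ l := Nat.cast_nonneg l
      nlinarith
    have h4 : (-((l : ℝ) + 1) ^ 2 * psc ψ l) ^ 2 =
        ((l : ℝ) + 1) ^ 2 * (((l : ℝ) + 1) ^ 2 * (psc ψ l) ^ 2) := by ring
    rw [h4]
    exact le_mul_of_one_le_left (by positivity) h3
  have h5 : (Vc n t Φ) ^ 2 * (((l : ℝ) + 1) ^ 2 * (psc ψ l) ^ 2) ≤
      ((((n : ℝ) + 1) * Ec n t Φ) ^ 2 + (Vc n t Φ) ^ 2) * (-((l : ℝ) + 1) ^ 2 * psc ψ l) ^ 2 := by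
    apply mul_le_mul _ h2 (by positivity) (by positivity)
    have := sq_nonneg (((n : ℝ) + 1) * Ec n t Φ)
    linarith
  exact h1.le.trans (add_le_add le_rfl h5)

private theorem glift_norm_mul {f g : ℕ → ℝ} {a b : ℝ} (hf : HasSum f a) (hg : HasSum g b)
    (h1 : ∀ n, 0 ≤ f n) (h2 : ∀ n, 0 ≤ g n) :
    HasSum (fun i : ℕ × ℕ => f i.1 * g i.2) (a * b) := by
  have hs : Summable (fun i : ℕ × ℕ => f i.1 * g i.2) :=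
    hf.summable.mul_of_nonneg hg.summable h1 h2
  exact hf.mul hg hs

private theorem glift_norm_cs (ψ φ : ℝ → ℝ) (h : BP φ) (hψ : Continuous ψ) (t : ℝ) :
    HasSum (fun i : ℕ × ℕ => ((((i.1 : ℝ) + 1) * Ec i.1 t φ) ^ 2 + (Vc i.1 t φ) ^ 2) *
      (psc ψ i.2) ^ 2) ((π * (∫ x in (0:ℝ)..(2 * π), (φ x) ^ 2)
        - 1 / 2 * (∫ x in (0:ℝ)..(2 * π), φ x) ^ 2) * (2 / π * ∫ y in (0:ℝ)..π, (ψ y) ^ 2)) :=
  glift_norm_mul (circle_parseval φ h t) (psc_parseval ψ hψ)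
    (fun _ => add_nonneg (sq_nonneg _) (sq_nonneg _)) (fun _ => sq_nonneg _)

private theorem glift_norm_int (ψ φ : ℝ → ℝ) :
    (π * (∫ x in (0:ℝ)..(2 * π), (φ x) ^ 2) - 1 / 2 * (∫ x in (0:ℝ)..(2 * π), φ x) ^ 2) *
        (2 / π * ∫ y in (0:ℝ)..π, (ψ y) ^ 2) ≤
      2 * (∫ y in (0:ℝ)..π, (ψ y) ^ 2) * (∫ x in (0:ℝ)..(2 * π), (φ x) ^ 2) := by
  have hpi := Real.pi_pos
  have i1 : 0 ≤ ∫ y in (0:ℝ)..π, (ψ y) ^ 2 :=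
    intervalIntegral.integral_nonneg hpi.le fun y _ => sq_nonneg _
  obtain ⟨A, hA⟩ : ∃ A, A = ∫ y in (0:ℝ)..π, (ψ y) ^ 2 := ⟨_, rfl⟩
  obtain ⟨B, hB⟩ : ∃ B, B = ∫ x in (0:ℝ)..(2 * π), (φ x) ^ 2 := ⟨_, rfl⟩
  obtain ⟨C, hC⟩ : ∃ C, C = ∫ x in (0:ℝ)..(2 * π), φ x := ⟨_, rfl⟩
  rw [← hA, ← hB, ← hC]
  rw [← hA] at i1
  have e1 : (π * B - 1 / 2 * C ^ 2) * (2 / π * A) = 2 * A * B - C ^ 2 * A / π := by
    field_simp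
  rw [e1]
  have : 0 ≤ C ^ 2 * A / π := by positivity
  linarith

/-- norm of general lifts -/
theorem glift_norm (ψ ψ1 ψ2 φ Φ : ℝ → ℝ) (hψ : Prof ψ ψ1 ψ2) (h : BP φ) (hΦ : IsPrim φ Φ) (t : ℝ) :
    ‖glift ψ t φ‖ ^ 2 ≤ 2 * (∫ y in (0:ℝ)..π, (ψ y) ^ 2) * (∫ x in (0:ℝ)..(2 * π), (φ x) ^ 2)
      + 2 * (∫ y in (0:ℝ)..π, (ψ2 y) ^ 2) * (∫ x in (0:ℝ)..(2 * π), (Φ x) ^ 2) := by
  have hψc : Continuous ψ := continuous_iff_continuousAt.2 fun y => (hψ.d1 y).continuousAt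
  have s1 := glift_norm_cs ψ φ h hψc t
  have s2 := glift_norm_cs ψ2 Φ hΦ.bp hψ.cont t
  have s3 := s1.add s2
  have s4 := glift_norm_hasSum (glift ψ t φ)
  have hle := hasSum_le (fun i : ℕ × ℕ => glift_norm_pt ψ ψ1 ψ2 φ Φ hψ h hΦ t i.1 i.2) s4 s3
  exact hle.trans (add_le_add (glift_norm_int ψ φ) (glift_norm_int ψ2 Φ))

end Haraux
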