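import Pool.Agent.Helper27.Har.Base
import Pool.Agent.Helper27.Har.P_toK_inner
import Pool.Agent.Helper27.Har.P_toK_ae

set_option autoImplicit false

open MeasureTheory Set Real Filter Topology
open scoped ENNReal NNReal

namespace Haraux



theorem toK_norm_le (F : ℝ × ℝ → ℝ) (C : ℝ) (hC : ∀ q, |F q| ≤ C) : ‖toK F‖ ≤ C * π := by
  have hC0 : 0 ≤ C := (abs_nonneg _).trans (hC 0)
  have hvol : volume (sq : Set (ℝ × ℝ)) = ENNReal.ofReal (π ^ 2) := by
    rw [Measure.volume_eq_prod, Measure.prod_prod, Real.volume_Ioo, sub_zero,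
      ← ENNReal.ofReal_mul Real.pi_pos.le, pow_two]
  by_cases hF : MemLp F 2 (volume.restrict sq)
  · have h1 := (toK_inner F hF).2.2
    have hfin : IsFiniteMeasure (volume.restrict sq) := by
      constructor
      rw [Measure.restrict_apply_univ, hvol]
      exact ENNReal.ofReal_lt_top
    have h2 : ∫ q in sq, (F q) ^ 2 ≤ ∫ q in sq, C ^ 2 := by
      refine integral_mono hF.integrable_sq (integrable_const _) ?_
      intro q
      show F q ^ 2 ≤ C ^ 2
      rw [← sq_abs (F q)]
      exact pow_le_pow_left₀ (abs_nonneg _) (hC q) 2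
    have h3 : ∫ q in sq, C ^ 2 = (C * π) ^ 2 := by
      rw [integral_const, smul_eq_mul, Measure.real, Measure.restrict_apply_univ, hvol,
        ENNReal.toReal_ofReal (by positivity)]
      ring
    rw [h3, ← h1] at h2
    exact le_of_sq_le_sq h2 (mul_nonneg hC0 Real.pi_pos.le)
  · unfold toK
    rw [dif_neg hF, norm_zero]
    exact mul_nonneg hC0 Real.pi_pos.le

end Haraux
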