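import Pool.Agent.Helper27.Har.Base
import Pool.Agent.Helper27.Har.P_world_basic
import Pool.Agent.Helper27.Har.P_level_facts
import Pool.Agent.Helper27.Har.P_prof_facts
import Pool.Agent.Helper27.Har.P_glift_norm
import Pool.Agent.Helper27.Har.P_toK_norm_le
import Pool.Agent.Helper27.Har.P_toK_inner
import Pool.Agent.Helper27.Har.P_toK_ae

set_option autoImplicit false

open MeasureTheory Set Real Filter Topology
open scoped ENNReal NNReal

namespace Haraux



private theorem zb_int_le {f : ℝ → ℝ} {a C : ℝ} (ha : 0 ≤ a)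
    (h : ∀ x, 0 ≤ x → x ≤ a → |f x| ≤ C) : ∫ x in (0:ℝ)..a, f x ≤ C * a := by
  have h1 := intervalIntegral.norm_integral_le_of_norm_le_const (a := 0) (b := a) (f := f) (C := C)
    (by
      intro x hx
      rw [uIoc_of_le ha] at hx
      exact h x hx.1.le hx.2)
  rw [sub_zero, abs_of_nonneg ha] at h1
  exact (le_abs_self _).trans h1

private theorem zb_vol : (volume : Measure (ℝ × ℝ)) sq = ENNReal.ofReal (π ^ 2) := by
  rw [Measure.volume_eq_prod, Measure.prod_prod, Real.volume_Ioo, sub_zero,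
    ← ENNReal.ofReal_mul Real.pi_pos.le, pow_two]

set_option maxHeartbeats 1000000 in
/-- bounds for the parts of the particular solution -/
theorem zpj_bound (W : World) (h : W.Reg) (j : ℕ) (t : ℝ) :
    ‖W.zpj j t‖ ≤ 100 * (W.La j * √(W.lam j) + W.La (j + 1) * √(W.kap j)
      + W.La (j + 1) * (W.mu j + W.nu j) / (W.d j) ^ 2) ∧
    ‖W.hj j t‖ ≤ 100 * (W.La j * √(W.lam j) + W.La (j + 1) * √(W.kap j)
      + W.La (j + 1) * (W.mu j + W.nu j) / (W.d j) ^ 2) := by
  have hd := h.num.d_pos j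
  have hd1 := h.num.d_le j
  have hmu := h.num.mu_pos j
  have hnu := h.num.nu_pos j
  obtain ⟨hlam, hkap, -, -, -, -, -, -, -, -, -, -, -, -, hLa, -⟩ := world_basic W h.num
  obtain ⟨-, -, hbp, -, -, hprim, hbl, hBl, -⟩ := level_facts W h j
  obtain ⟨hprof, hcont, hprof1, -, hprof2⟩ := prof_facts (W.d j) hd hd1
  have hL1 := hLa j
  have hL2 := hLa (j + 1)
  have hpi0 := Real.pi_pos
  have hpi : π < 3.15 := Real.pi_lt_d2
  obtain ⟨A, hA⟩ : ∃ A : ℝ, A = W.La j * √(W.lam j) := ⟨_, rfl⟩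
  obtain ⟨B, hB⟩ : ∃ B : ℝ, B = W.La (j + 1) * √(W.kap j) := ⟨_, rfl⟩
  obtain ⟨m, hm⟩ : ∃ m : ℝ, m = W.La (j + 1) * (W.mu j + W.nu j) := ⟨_, rfl⟩
  obtain ⟨D, hD⟩ : ∃ D : ℝ, D = m / (W.d j) ^ 2 := ⟨_, rfl⟩
  have hA0 : 0 ≤ A := by rw [hA]; positivity
  have hB0 : 0 ≤ B := by rw [hB]; positivity
  have hm0 : 0 ≤ m := by rw [hm]; positivity
  have hD0 : 0 ≤ D := by rw [hD]; positivity
  have hA2 : A ^ 2 = (W.La j) ^ 2 * W.lam j := by
    rw [hA, mul_pow, Real.sq_sqrt (hlam j).le]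
  have hB2 : B ^ 2 = (W.La (j + 1)) ^ 2 * W.kap j := by
    rw [hB, mul_pow, Real.sq_sqrt (hkap j).le]
  rw [← hA, ← hB, ← hm, ← hD]
  rw [← hm] at hBl
  constructor
  · have h1 := glift_norm (prof (W.d j)) (prof1 (W.d j)) (prof2 (W.d j)) (W.bl j) (W.Bl j)
      hprof hbp hprim t
    have i1 : ∫ y in (0:ℝ)..π, (prof (W.d j) y) ^ 2 ≤ 1 * π := by
      apply zb_int_le hpi0.le
      intro x hx0 hx1
      obtain ⟨h2, h3⟩ := hprof1 x hx0 hx1
      rw [abs_of_nonneg (by positivity)]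
      exact pow_le_one₀ h2 h3
    have i2 : ∫ y in (0:ℝ)..π, (prof2 (W.d j) y) ^ 2 ≤ (12 / (W.d j) ^ 2) ^ 2 * π := by
      apply zb_int_le hpi0.le
      intro x hx0 hx1
      rw [abs_of_nonneg (by positivity), ← sq_abs]
      exact pow_le_pow_left₀ (abs_nonneg _) (hprof2 x hx0 hx1) 2
    have i3 : ∫ x in (0:ℝ)..(2 * π), (W.Bl j x) ^ 2 ≤ m ^ 2 * (2 * π) := by
      apply zb_int_le (by positivity)
      intro x _ _
      rw [abs_of_nonneg (by positivity), ← sq_abs]
      exact pow_le_pow_left₀ (abs_nonneg _) (hBl x) 2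
    have i4 : ∫ ξ in (0:ℝ)..(2 * π), (W.bl j ξ) ^ 2 ≤ 2 * (A ^ 2 + B ^ 2) := by
      rw [hbl, hA2, hB2]
      have h2 : (W.La (j + 1) - 1) ^ 2 ≤ (W.La (j + 1)) ^ 2 :=
        pow_le_pow_left₀ (by linarith) (by linarith) 2
      have h3 := mul_le_mul_of_nonneg_right h2 (hkap j).le
      linarith
    have j1 : 0 ≤ ∫ ξ in (0:ℝ)..(2 * π), (W.bl j ξ) ^ 2 :=
      intervalIntegral.integral_nonneg (by positivity) (fun x _ => by positivity)
    have j2 : 0 ≤ ∫ x in (0:ℝ)..(2 * π), (W.Bl j x) ^ 2 :=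
      intervalIntegral.integral_nonneg (by positivity) (fun x _ => by positivity)
    have k1 : 2 * (∫ y in (0:ℝ)..π, (prof (W.d j) y) ^ 2) *
        (∫ x in (0:ℝ)..(2 * π), (W.bl j x) ^ 2) ≤ 2 * (1 * π) * (2 * (A ^ 2 + B ^ 2)) := by
      apply mul_le_mul _ i4 j1 (by positivity)
      linarith
    have k2 : 2 * (∫ y in (0:ℝ)..π, (prof2 (W.d j) y) ^ 2) *
        (∫ x in (0:ℝ)..(2 * π), (W.Bl j x) ^ 2) ≤
        2 * ((12 / (W.d j) ^ 2) ^ 2 * π) * (m ^ 2 * (2 * π)) := by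
      apply mul_le_mul _ i3 j2 (by positivity)
      linarith
    have k3 : 2 * ((12 / (W.d j) ^ 2) ^ 2 * π) * (m ^ 2 * (2 * π)) = 576 * π ^ 2 * D ^ 2 := by
      rw [hD]
      field_simp
      ring
    have k4 : π ^ 2 ≤ 10 := by nlinarith
    have k5 : 576 * π ^ 2 * D ^ 2 ≤ 5760 * D ^ 2 := by nlinarith [sq_nonneg D]
    have k6 : 2 * (1 * π) * (2 * (A ^ 2 + B ^ 2)) ≤ 16 * (A ^ 2 + B ^ 2) := by
      have e1 : 0 ≤ A ^ 2 + B ^ 2 := by positivity
      have e2 := mul_le_mul_of_nonneg_right hpi.le e1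
      linarith
    have k7 : ‖W.zpj j t‖ ^ 2 ≤ (100 * (A + B + D)) ^ 2 := by
      have k8 : ‖W.zpj j t‖ ^ 2 ≤ 16 * (A ^ 2 + B ^ 2) + 5760 * D ^ 2 := by
        unfold World.zpj
        linarith
      refine k8.trans ?_
      have e1 : (100 * (A + B + D)) ^ 2 = 10000 * (A ^ 2 + B ^ 2 + D ^ 2) +
          20000 * (A * B + A * D + B * D) := by ring
      have e2 := mul_nonneg hA0 hB0
      have e3 := mul_nonneg hA0 hD0
      have e4 := mul_nonneg hB0 hD0
      have e5 := sq_nonneg A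
      have e6 := sq_nonneg B
      have e7 := sq_nonneg D
      rw [e1]
      linarith
    exact (abs_le_of_sq_le_sq' k7 (by positivity)).2
  · have hcontF : Continuous (fun q : ℝ × ℝ =>
        -prof2 (W.d j) q.2 * (W.Bl j (t + q.1) - W.Bl j (t - q.1))) := by
      have c1 := hprof.cont
      have c2 := hprim.cont
      fun_prop
    have hbd : ∀ q ∈ sq, |-prof2 (W.d j) q.2 * (W.Bl j (t + q.1) - W.Bl j (t - q.1))| ≤
        24 * D := by
      intro q hq
      rw [abs_mul, abs_neg]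
      have h1 := hprof2 q.2 hq.2.1.le hq.2.2.le
      have h2 : |W.Bl j (t + q.1) - W.Bl j (t - q.1)| ≤ 2 * m := by
        refine (abs_sub _ _).trans ?_
        have := hBl (t + q.1)
        have := hBl (t - q.1)
        linarith
      calc |prof2 (W.d j) q.2| * |W.Bl j (t + q.1) - W.Bl j (t - q.1)| ≤
            12 / (W.d j) ^ 2 * (2 * m) := mul_le_mul h1 h2 (abs_nonneg _) (by positivity)
        _ = 24 * D := by rw [hD]; ring
    have hvol : (volume : Measure (ℝ × ℝ)) sq < ⊤ := by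
      rw [zb_vol]
      exact ENNReal.ofReal_lt_top
    have hms : MeasurableSet sq := measurableSet_Ioo.prod measurableSet_Ioo
    haveI : IsFiniteMeasure ((volume : Measure (ℝ × ℝ)).restrict sq) :=
      ⟨by rw [Measure.restrict_apply_univ]; exact hvol⟩
    have hF : MemLp (fun q : ℝ × ℝ =>
        -prof2 (W.d j) q.2 * (W.Bl j (t + q.1) - W.Bl j (t - q.1))) 2 (volume.restrict sq) := by
      apply MemLp.of_bound hcontF.aestronglyMeasurable (24 * D)
      rw [ae_restrict_iff' hms]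
      exact Filter.Eventually.of_forall (fun q hq => hbd q hq)
    obtain ⟨-, -, hnorm⟩ := toK_inner _ hF
    have hint : ∫ q in sq, (-prof2 (W.d j) q.2 * (W.Bl j (t + q.1) - W.Bl j (t - q.1))) ^ 2 ≤
        (24 * D) ^ 2 * π ^ 2 := by
      have h1 := norm_setIntegral_le_of_norm_le_const (μ := (volume : Measure (ℝ × ℝ))) (s := sq)
        (f := fun q : ℝ × ℝ =>
          (-prof2 (W.d j) q.2 * (W.Bl j (t + q.1) - W.Bl j (t - q.1))) ^ 2)
        (C := (24 * D) ^ 2) hvol (by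
          intro q hq
          rw [Real.norm_of_nonneg (by positivity), ← sq_abs]
          exact pow_le_pow_left₀ (abs_nonneg _) (hbd q hq) 2)
      have h2 : (volume : Measure (ℝ × ℝ)).real sq = π ^ 2 := by
        rw [measureReal_def, zb_vol, ENNReal.toReal_ofReal (by positivity)]
      rw [h2] at h1
      exact (le_abs_self _).trans h1
    have hfin : ‖W.hj j t‖ ^ 2 ≤ (100 * (A + B + D)) ^ 2 := by
      have h1 : ‖W.hj j t‖ ^ 2 ≤ (24 * D) ^ 2 * π ^ 2 := by
        unfold World.hj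
        rw [hnorm]
        exact hint
      refine h1.trans ?_
      rw [← mul_pow]
      apply pow_le_pow_left₀ (by positivity)
      nlinarith
    exact (abs_le_of_sq_le_sq' hfin (by positivity)).2

end Haraux
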