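import Pool.Agent.Helper27.Har.Base
import Pool.Agent.Helper27.Har.P_world_basic
import Pool.Agent.Helper27.Har.P_zone_disj
import Pool.Agent.Helper27.Har.P_level_facts
import Pool.Agent.Helper27.Har.P_prof_facts
import Pool.Agent.Helper27.Har.P_zpj_bound
import Pool.Agent.Helper27.Har.P_vel_glift
import Pool.Agent.Helper27.Har.P_rin_facts
import Pool.Agent.Helper27.Har.P_toK_ae
import Pool.Agent.Helper27.Har.P_field_coef

set_option autoImplicit false

open MeasureTheory Set Real Filter Topology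
open scoped ENNReal NNReal

namespace Haraux



private theorem j13376_hasSum (W : World) (h : W.Reg) (t : ℝ) :
    HasSum (fun j => vel (W.zpj j t)) (vel (W.zp t)) := by
  obtain ⟨-, -, -, -, -, -, -, -, vadd, -, -, vcont, -⟩ := rin_facts
  have hs : Summable (fun j => W.zpj j t) :=
    Summable.of_norm_bounded (h.num.summ.mul_left 100) (fun j => (zpj_bound W h j t).1)
  have h1 : HasSum (fun j => W.zpj j t) (W.zp t) := hs.hasSum
  exact h1.map (AddMonoidHom.mk' vel vadd) vcont

private theorem j13376_finsupp (W : World) (h : W.Reg) (y ξ : ℝ) :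
    Summable (fun j => prof (W.d j) y * W.bl j ξ) := by
  apply summable_of_finite_support
  apply Set.Subsingleton.finite
  intro i hi j hj
  rw [Function.mem_support] at hi hj
  have hi' : W.bl i ξ ≠ 0 := right_ne_zero_of_mul hi
  have hj' : W.bl j ξ ≠ 0 := right_ne_zero_of_mul hj
  obtain ⟨-, -, -, -, -, -, -, -, h1⟩ := level_facts W h i
  obtain ⟨-, -, -, -, -, -, -, -, h2⟩ := level_facts W h j
  exact zone_disj W h.num i j ξ (h1 ξ hi') (h2 ξ hj')

private theorem j13376_part (W : World) (h : W.Reg) (t : ℝ) (j : ℕ) :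
    (vel (W.zpj j t) : ℝ × ℝ → ℝ) =ᵐ[volume.restrict sq]
      fun q => prof (W.d j) q.2 * (W.bl j (t + q.1) - W.bl j (t - q.1)) := by
  have hd := h.num.d_pos j
  have hd1 := h.num.d_le j
  obtain ⟨hp, hpc, -⟩ := prof_facts (W.d j) hd hd1
  obtain ⟨-, -, hbl, -⟩ := level_facts W h j
  unfold World.zpj
  rw [vel_glift _ _ _ _ hp hbl]
  exact toK_ae _ (field_coef (prof (W.d j)) (W.bl j) hpc hbl t (0, 0)).1

/-- the velocity of the particular solution as a function -/
theorem vel_zp_ae (W : World) (h : W.Reg) (t : ℝ) :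
    (vel (W.zp t) : ℝ × ℝ → ℝ) =ᵐ[volume.restrict sq]
      fun q => (∑' j, prof (W.d j) q.2 * W.bl j (t + q.1))
        - (∑' j, prof (W.d j) q.2 * W.bl j (t - q.1)) := by
  have h1 := (j13376_hasSum W h t).tendsto_sum_nat
  obtain ⟨ns, hns, hae⟩ := (tendstoInMeasure_of_tendsto_Lp h1).exists_seq_tendsto_ae
  have h2 : ∀ᵐ q ∂(volume.restrict sq), ∀ n : ℕ,
      ((∑ j ∈ Finset.range n, vel (W.zpj j t) : KK) : ℝ × ℝ → ℝ) q =
        ∑ j ∈ Finset.range n, prof (W.d j) q.2 * (W.bl j (t + q.1) - W.bl j (t - q.1)) := by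
    rw [ae_all_iff]
    intro n
    have h3 := Lp.coeFn_finsetSum (Finset.range n) (fun j => vel (W.zpj j t))
    have h4 : ∀ᵐ q ∂(volume.restrict sq), ∀ j : ℕ, (vel (W.zpj j t) : ℝ × ℝ → ℝ) q =
        prof (W.d j) q.2 * (W.bl j (t + q.1) - W.bl j (t - q.1)) :=
      ae_all_iff.2 fun j => j13376_part W h t j
    filter_upwards [h3, h4] with q hq3 hq4
    rw [hq3, Finset.sum_apply]
    exact Finset.sum_congr rfl fun j _ => hq4 j
  filter_upwards [hae, h2] with q hq1 hq2
  have h5 : Tendsto (fun n : ℕ => ∑ j ∈ Finset.range n,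
      prof (W.d j) q.2 * (W.bl j (t + q.1) - W.bl j (t - q.1))) atTop
      (𝓝 ((∑' j, prof (W.d j) q.2 * W.bl j (t + q.1)) - (∑' j, prof (W.d j) q.2 * W.bl j (t - q.1)))) := by
    have h6 := ((j13376_finsupp W h q.2 (t + q.1)).hasSum.sub
      (j13376_finsupp W h q.2 (t - q.1)).hasSum).tendsto_sum_nat
    refine h6.congr fun n => ?_
    apply Finset.sum_congr rfl
    intro j _
    ring
  have h7 : Tendsto (fun i => ∑ j ∈ Finset.range (ns i),
      prof (W.d j) q.2 * (W.bl j (t + q.1) - W.bl j (t - q.1))) atTop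
      (𝓝 ((∑' j, prof (W.d j) q.2 * W.bl j (t + q.1)) - (∑' j, prof (W.d j) q.2 * W.bl j (t - q.1)))) :=
    h5.comp hns.tendsto_atTop
  apply tendsto_nhds_unique hq1
  refine h7.congr fun i => ?_
  exact (hq2 (ns i)).symm

end Haraux
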