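import Pool.Agent.Helper27.Har.Base
import Pool.Agent.Helper27.Har.P_CondDefs
import Pool.Agent.Helper27.Har.P_world_basic
import Pool.Agent.Helper27.Har.P_stage_ineq
import Pool.Agent.Helper27.Har.P_vel_zp_ae
import Pool.Agent.Helper27.Har.P_real_off
import Pool.Agent.Helper27.Har.P_real_layer
import Pool.Agent.Helper27.Har.P_cond_lemma
import Pool.Agent.Helper27.Har.P_K_bounds
import Pool.Agent.Helper27.Har.P_Gh_facts
import Pool.Agent.Helper27.Har.P_Bt_facts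

set_option autoImplicit false

open MeasureTheory Set Real Filter Topology
open scoped ENNReal NNReal

namespace Haraux



/-- the field inequality, pointwise -/
theorem field_pointwise (W : World) (h : W.Reg) (k : ℕ) (hs : W.Small k) (t : ℝ)
    (hc : W.ep k / 2 ≤ Real.cos (W.om0 k * t)) (hsn : 0 ≤ Real.sin (W.om0 k * t)) (Vel : KK) :
    ∀ᵐ q ∂(volume.restrict sq),
      -(3 * W.ep k * ((clip (Vel q) - clip ((vel (W.zp t) : KK) q)) * (Vel q - (vel (W.zp t) : KK) q)))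
        - 1 / (4 * W.ep k) * ((202 / 100 * W.as k * W.d k) ^ 2
            * (if q.2 < W.d k ∨ π - W.d k < q.2 then 1 else 0)
          + (26 * W.mm k) ^ 2 + (36 * W.mm k / W.lam (k + 1)) ^ 2)
        - 36 * W.mm k / W.lam (k + 1) * (|Vel q - (vel (W.zp t) : KK) q|
            * (if q.2 < W.d k ∨ π - W.d k < q.2 then 1 else 0))
      ≤ -((clip (Vel q) - clip ((vel (W.zp t) : KK) q))
            * ((W.Bt k t (t + q.1) - W.Bt k t (t - q.1)) * Real.sin q.2))
        - (Vel q - (vel (W.zp t) : KK) q) * (W.Gh k t (t + q.1) (t - q.1) * Real.sin q.2) := by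
  have he : 0 < W.ep k := h.num.ep_pos k
  obtain ⟨hlam, _, _, has, _, hmm, _⟩ := world_basic W h.num
  have hm := hmm k
  have hl := hlam (k + 1)
  have ha := has k
  have hd := h.num.d_pos k
  have hG0 : 0 ≤ 36 * W.mm k / W.lam (k + 1) := by positivity
  obtain ⟨hCo, _⟩ := K_bounds W h k hs
  obtain ⟨hGb, _⟩ := Gh_facts W h k hs t
  obtain ⟨_, _, _, _, _, _, hB0, _⟩ := Bt_facts W h k hs
  filter_upwards [vel_zp_ae W h t, ae_restrict_mem (measurableSet_Ioo.prod measurableSet_Ioo)]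
    with q hq hqsq
  obtain ⟨_, hq2⟩ := hqsq
  have hq2a : 0 < q.2 := hq2.1
  have hq2b : q.2 < π := hq2.2
  rw [hq]
  obtain ⟨P, hP⟩ : ∃ P, P = (∑' j, prof (W.d j) q.2 * W.bl j (t + q.1))
        - (∑' j, prof (W.d j) q.2 * W.bl j (t - q.1)) := ⟨_, rfl⟩
  obtain ⟨V, hV⟩ : ∃ V, V = Vel q - P := ⟨_, rfl⟩
  have hVel : Vel q = P + V := by rw [hV]; ring
  have hs0 : 0 ≤ Real.sin q.2 := (Real.sin_pos_of_pos_of_lt_pi hq2a hq2b).le
  have hs1 : Real.sin q.2 ≤ 1 := Real.sin_le_one _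
  obtain ⟨V0, hV0⟩ : ∃ V0, V0 = W.B0 k t (t + q.1) - W.B0 k t (t - q.1) := ⟨_, rfl⟩
  obtain ⟨Vc', hVc⟩ : ∃ Vc', Vc' = W.Co k t (t + q.1) - W.Co k t (t - q.1) := ⟨_, rfl⟩
  obtain ⟨G, hG⟩ : ∃ G, G = W.Gh k t (t + q.1) (t - q.1) := ⟨_, rfl⟩
  have hBt : W.Bt k t (t + q.1) - W.Bt k t (t - q.1) = V0 + Vc' := by
    rw [hV0, hVc]; unfold World.Bt; ring
  have hVcb : |Vc'| ≤ 26 * W.mm k := by
    have h1 := abs_le.1 (hCo t (t + q.1))
    have h2 := abs_le.1 (hCo t (t - q.1))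
    rw [hVc, abs_le]
    constructor <;> linarith [h1.1, h1.2, h2.1, h2.2]
  have hV0b : |V0| ≤ 202 / 100 * W.as k := by
    have h1 := abs_le.1 (hB0 t (t + q.1))
    have h2 := abs_le.1 (hB0 t (t - q.1))
    rw [hV0, abs_le]
    constructor <;> linarith [h1.1, h1.2, h2.1, h2.2]
  have hGb' : |G| ≤ 36 * W.mm k / W.lam (k + 1) := by rw [hG]; exact hGb _ _
  have hVc2 : Vc' ^ 2 ≤ (26 * W.mm k) ^ 2 := by
    rw [← sq_abs Vc']; exact pow_le_pow_left₀ (abs_nonneg _) hVcb 2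
  have hG2 : G ^ 2 ≤ (36 * W.mm k / W.lam (k + 1)) ^ 2 := by
    rw [← sq_abs G]; exact pow_le_pow_left₀ (abs_nonneg _) hGb' 2
  rw [← hP, ← hV, hVel, hBt, ← hG]
  have h4 : 0 < 1 / (4 * W.ep k) := by positivity
  have e1 : ∀ x : ℝ, x / (4 * W.ep k) = 1 / (4 * W.ep k) * x := fun x => by ring
  by_cases hlay : q.2 < W.d k ∨ π - W.d k < q.2
  · rw [if_pos hlay]
    have hsd : Real.sin q.2 ≤ W.d k := by
      rcases hlay with h1 | h1
      · exact (Real.sin_le hq2a.le).trans h1.le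
      · have : Real.sin (π - q.2) ≤ π - q.2 := Real.sin_le (by linarith)
        rw [Real.sin_pi_sub] at this
        linarith
    have hkey := real_layer P V V0 Vc' G (Real.sin q.2) (W.ep k) he hs0 hs1
    have h5 : (V0 * Real.sin q.2) ^ 2 ≤ (202 / 100 * W.as k * W.d k) ^ 2 := by
      rw [← sq_abs (V0 * _), abs_mul, abs_of_nonneg hs0]
      apply pow_le_pow_left₀ (by positivity)
      exact mul_le_mul hV0b hsd hs0 (by positivity)
    have h6 : |V| * |G| ≤ |V| * (36 * W.mm k / W.lam (k + 1)) :=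
      mul_le_mul_of_nonneg_left hGb' (abs_nonneg _)
    rw [e1 ((V0 * Real.sin q.2) ^ 2), e1 (Vc' ^ 2)] at hkey
    refine le_trans ?_ hkey
    have h7 : (1 / (4 * W.ep k)) * (V0 * Real.sin q.2) ^ 2 + 1 / (4 * W.ep k) * Vc' ^ 2
        ≤ 1 / (4 * W.ep k) * ((202 / 100 * W.as k * W.d k) ^ 2 * 1
          + (26 * W.mm k) ^ 2 + (36 * W.mm k / W.lam (k + 1)) ^ 2) := by
      rw [← mul_add]
      apply mul_le_mul_of_nonneg_left _ h4.le
      have := sq_nonneg (36 * W.mm k / W.lam (k + 1))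
      linarith
    rw [mul_one] at h7 ⊢
    rw [mul_one]
    have h8 : 36 * W.mm k / W.lam (k + 1) * |V| = |V| * (36 * W.mm k / W.lam (k + 1)) := mul_comm _ _
    linarith
  · rw [if_neg hlay]
    push Not at hlay
    obtain ⟨hcd, hct⟩ := cond_lemma W h k hs t hc hsn q.2 hlay.1 hlay.2 (t + q.1) (t - q.1)
    rw [← hP, ← hV0] at hcd
    rw [← hP, ← hG] at hct
    have hkey := real_off P V V0 Vc' G (Real.sin q.2) (W.ep k) he hs0 hs1 (hGb'.trans hs.c7) hcd hct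
    rw [e1 (Vc' ^ 2), e1 (G ^ 2)] at hkey
    refine le_trans ?_ hkey
    have h7 : (1 / (4 * W.ep k)) * Vc' ^ 2 + 1 / (4 * W.ep k) * G ^ 2
        ≤ 1 / (4 * W.ep k) * ((202 / 100 * W.as k * W.d k) ^ 2 * 0
          + (26 * W.mm k) ^ 2 + (36 * W.mm k / W.lam (k + 1)) ^ 2) := by
      rw [← mul_add]
      apply mul_le_mul_of_nonneg_left _ h4.le
      linarith
    rw [mul_zero, mul_zero]
    rw [mul_zero] at h7
    linarith

end Haraux
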