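import Pool.Agent.Helper27.Har.Base

set_option autoImplicit false

open MeasureTheory Set Real Filter Topology
open scoped ENNReal NNReal

namespace Haraux



/-- facts about the superposition operator `gL` -/
theorem gL_facts : LipschitzWith 1 gL ∧ (∀ v w : KK, 0 ≤ inner ℝ (gL v - gL w) (v - w)) ∧
    (∀ v : KK, (gL v : ℝ × ℝ → ℝ) =ᵐ[volume.restrict sq] fun q => clip (v q)) := by
  have hae : ∀ v : KK, (gL v : ℝ × ℝ → ℝ) =ᵐ[volume.restrict sq] fun q => clip (v q) :=
    fun v => clip_lipschitz.coeFn_compLp clip_zero v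
  refine ⟨clip_lipschitz.lipschitzWith_compLp clip_zero, ?_, hae⟩
  intro v w
  rw [MeasureTheory.L2.inner_def]
  apply integral_nonneg_of_ae
  filter_upwards [hae v, hae w, Lp.coeFn_sub (gL v) (gL w), Lp.coeFn_sub v w] with q h1 h2 h3 h4
  rw [h3, h4, Pi.sub_apply, Pi.sub_apply, h1, h2]
  have h5 : inner ℝ (clip (v q) - clip (w q)) (v q - w q) =
      (clip (v q) - clip (w q)) * (v q - w q) := by
    simp [mul_comm]
  rw [h5]
  show (0 : ℝ) ≤ _
  rcases le_total (v q) (w q) with h | h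
  · exact mul_nonneg_of_nonpos_of_nonpos (sub_nonpos.mpr (clip_mono h)) (sub_nonpos.mpr h)
  · exact mul_nonneg (sub_nonneg.mpr (clip_mono h)) (sub_nonneg.mpr h)

end Haraux
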