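import Pool.Agent.Helper27.Har.Base
import Pool.Agent.Helper27.Har.P_world_basic
import Pool.Agent.Helper27.Har.P_stage_ineq
import Pool.Agent.Helper27.Har.P_field_pointwise
import Pool.Agent.Helper27.Har.P_gL_facts
import Pool.Agent.Helper27.Har.P_toK_ae
import Pool.Agent.Helper27.Har.P_toK_memLp
import Pool.Agent.Helper27.Har.P_toK_inner
import Pool.Agent.Helper27.Har.P_Bt_facts
import Pool.Agent.Helper27.Har.P_Gh_facts

set_option autoImplicit false

open MeasureTheory Set Real Filter Topology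
open scoped ENNReal NNReal

namespace Haraux



private theorem lyint_13740 (d : ℝ) (hd : 0 < d) :
    Measurable (fun q : ℝ × ℝ => if q.2 < d ∨ π - d < q.2 then (1 : ℝ) else 0) ∧
    ∫ q in sq, (if q.2 < d ∨ π - d < q.2 then (1 : ℝ) else 0) ≤ 2 * π * d := by
  have hL : MeasurableSet {q : ℝ × ℝ | q.2 < d ∨ π - d < q.2} :=
    (measurableSet_lt measurable_snd measurable_const).union
      (measurableSet_lt measurable_const measurable_snd)
  refine ⟨Measurable.ite hL measurable_const measurable_const, ?_⟩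
  have e1 : (fun q : ℝ × ℝ => if q.2 < d ∨ π - d < q.2 then (1 : ℝ) else 0) =
      {q : ℝ × ℝ | q.2 < d ∨ π - d < q.2}.indicator 1 := by
    funext q
    rw [Set.indicator_apply]
    rfl
  rw [e1, integral_indicator_one hL]
  have h1 : (volume.restrict sq) {q : ℝ × ℝ | q.2 < d ∨ π - d < q.2} ≤ ENNReal.ofReal (2 * π * d) := by
    rw [Measure.restrict_apply hL]
    have hsub : {q : ℝ × ℝ | q.2 < d ∨ π - d < q.2} ∩ sq ⊆
        (Ioo 0 π ×ˢ Ioo 0 d) ∪ (Ioo 0 π ×ˢ Ioo (π - d) π) := by
      rintro q ⟨hq, hq1, hq2⟩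
      rcases hq with h | h
      · exact Or.inl ⟨hq1, hq2.1, h⟩
      · exact Or.inr ⟨hq1, h, hq2.2⟩
    refine (measure_mono hsub).trans ((measure_union_le _ _).trans ?_)
    rw [Measure.volume_eq_prod, Measure.prod_prod, Measure.prod_prod, Real.volume_Ioo,
      Real.volume_Ioo, Real.volume_Ioo, ← ENNReal.ofReal_mul (by linarith [Real.pi_pos]),
      ← ENNReal.ofReal_mul (by linarith [Real.pi_pos]), ← ENNReal.ofReal_add
        (by have := Real.pi_pos; have : π - 0 = π := by ring
            rw [this]; nlinarith) (by have := Real.pi_pos; have : π - (π - d) = d := by ring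
                                      rw [this]; nlinarith)]
    apply le_of_eq
    congr 1
    ring
  have h2 := ENNReal.toReal_mono ENNReal.ofReal_ne_top h1
  rw [ENNReal.toReal_ofReal (by have := Real.pi_pos; positivity)] at h2
  exact h2

private theorem int_13740 (G V : KK) (FB FG : ℝ × ℝ → ℝ) (hFB : MemLp FB 2 (volume.restrict sq))
    (hFG : MemLp FG 2 (volume.restrict sq)) (e c1 c2 c3 d : ℝ) (hd : 0 < d) (hc1 : 0 ≤ c1)
    (hc3 : 0 ≤ c3)
    (hpt : ∀ᵐ q ∂(volume.restrict sq), -(e * (G q * V q))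
      - (c1 * (if q.2 < d ∨ π - d < q.2 then (1 : ℝ) else 0) + c2)
      - c3 * (|V q| * (if q.2 < d ∨ π - d < q.2 then (1 : ℝ) else 0)) ≤ -(G q * FB q) - V q * FG q) :
    -(e * inner ℝ G V) - (c1 * (2 * π * d) + c2 * π ^ 2) - c3 * (‖V‖ * √(2 * π * d)) ≤
      -inner ℝ G (toK FB) - inner ℝ V (toK FG) := by
  obtain ⟨hlm, hli⟩ := lyint_13740 d hd
  set ly : ℝ × ℝ → ℝ := fun q => if q.2 < d ∨ π - d < q.2 then (1 : ℝ) else 0 with hly
  have hly01 : ∀ q, ly q = 0 ∨ ly q = 1 := by
    intro q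
    simp only [hly]
    split_ifs
    · exact Or.inr rfl
    · exact Or.inl rfl
  have hlyb : ∀ q, |ly q| ≤ 1 := by
    intro q
    rcases hly01 q with h | h <;> rw [h] <;> norm_num
  have hlyM : MemLp ly 2 (volume.restrict sq) := toK_memLp ly hlm 1 hlyb
  have hGm : MemLp (G : ℝ × ℝ → ℝ) 2 (volume.restrict sq) := Lp.memLp G
  have hVm : MemLp (V : ℝ × ℝ → ℝ) 2 (volume.restrict sq) := Lp.memLp V
  have hfin : IsFiniteMeasure (volume.restrict sq) := by
    constructor
    rw [Measure.restrict_apply MeasurableSet.univ, univ_inter, Measure.volume_eq_prod,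
      Measure.prod_prod, Real.volume_Ioo]
    exact ENNReal.mul_lt_top ENNReal.ofReal_lt_top ENNReal.ofReal_lt_top
  have I1 : Integrable (fun q => G q * V q) (volume.restrict sq) := hGm.integrable_mul hVm
  have I2 : Integrable ly (volume.restrict sq) := hlyM.integrable (by norm_num)
  have I3 : Integrable (fun q => |V q| * ly q) (volume.restrict sq) := hVm.abs.integrable_mul hlyM
  have I4 : Integrable (fun q => G q * FB q) (volume.restrict sq) := hGm.integrable_mul hFB
  have I5 : Integrable (fun q => V q * FG q) (volume.restrict sq) := hVm.integrable_mul hFG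
  have J1 : Integrable (fun q => -(e * (G q * V q))) (volume.restrict sq) := (I1.const_mul e).neg
  have J2 : Integrable (fun q => c1 * ly q) (volume.restrict sq) := I2.const_mul c1
  have J3 : Integrable (fun _ : ℝ × ℝ => c2) (volume.restrict sq) := integrable_const c2
  have J4 : Integrable (fun q => c1 * ly q + c2) (volume.restrict sq) := J2.add J3
  have J5 : Integrable (fun q => -(e * (G q * V q)) - (c1 * ly q + c2)) (volume.restrict sq) :=
    J1.sub J4
  have J6 : Integrable (fun q => c3 * (|V q| * ly q)) (volume.restrict sq) := I3.const_mul c3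
  have J7 : Integrable (fun q => -(e * (G q * V q)) - (c1 * ly q + c2) - c3 * (|V q| * ly q))
    (volume.restrict sq) := J5.sub J6
  have J8 : Integrable (fun q => -(G q * FB q)) (volume.restrict sq) := I4.neg
  have J9 : Integrable (fun q => -(G q * FB q) - V q * FG q) (volume.restrict sq) := J8.sub I5
  have hmono := integral_mono_ae J7 J9 hpt
  have e1 : ∫ q in sq, (-(e * (G q * V q)) - (c1 * ly q + c2) - c3 * (|V q| * ly q)) =
      -(e * ∫ q in sq, G q * V q) - (c1 * (∫ q in sq, ly q) + c2 * π ^ 2) -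
        c3 * ∫ q in sq, |V q| * ly q := by
    rw [integral_sub J5 J6, integral_sub J1 J4, integral_neg, integral_const_mul,
      integral_add J2 J3, integral_const_mul, integral_const_mul, integral_const]
    have hvol : (volume.restrict sq).real univ = π ^ 2 := by
      rw [Measure.real, Measure.restrict_apply MeasurableSet.univ, univ_inter,
        Measure.volume_eq_prod, Measure.prod_prod, Real.volume_Ioo, ENNReal.toReal_mul,
        ENNReal.toReal_ofReal (by linarith [Real.pi_pos])]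
      ring
    rw [hvol, smul_eq_mul]
    ring
  have e2 : ∫ q in sq, (-(G q * FB q) - V q * FG q) =
      -(∫ q in sq, G q * FB q) - ∫ q in sq, V q * FG q := by
    rw [integral_sub J8 I5, integral_neg]
  have hmono' : ∫ q in sq, (-(e * (G q * V q)) - (c1 * ly q + c2) - c3 * (|V q| * ly q)) ≤
      ∫ q in sq, (-(G q * FB q) - V q * FG q) := hmono
  rw [e1, e2] at hmono'
  have e3 : inner ℝ G V = ∫ q in sq, G q * V q := by
    rw [L2.inner_def]
    apply integral_congr_ae
    refine Eventually.of_forall fun q => ?_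
    simp [mul_comm]
  rw [e3, (toK_inner FB hFB).1 G, (toK_inner FG hFG).1 V]
  -- Cauchy-Schwarz
  have hCS : ∫ q in sq, |V q| * ly q ≤ ‖V‖ * √(2 * π * d) := by
    have h1 := (toK_inner ly hlyM).1 |V|
    have h2 : ∫ q in sq, (|V| : KK) q * ly q = ∫ q in sq, |V q| * ly q := by
      apply integral_congr_ae
      filter_upwards [Lp.coeFn_abs V] with q hq
      rw [hq]
    rw [← h2, ← h1]
    refine (real_inner_le_norm _ _).trans ?_
    rw [norm_abs_eq_norm]
    apply mul_le_mul_of_nonneg_left _ (norm_nonneg _)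
    apply Real.le_sqrt_of_sq_le
    rw [(toK_inner ly hlyM).2.2]
    have h3 : ∫ q in sq, (ly q) ^ 2 = ∫ q in sq, ly q := by
      apply integral_congr_ae
      refine Eventually.of_forall fun q => ?_
      rcases hly01 q with h | h <;> simp only [h] <;> norm_num
    rw [h3]
    exact hli
  have g1 := mul_le_mul_of_nonneg_left hCS hc3
  have g2 := mul_le_mul_of_nonneg_left hli hc1
  linarith

/-- the field inequality -/
theorem field_bound (W : World) (h : W.Reg) (k : ℕ) (hs : W.Small k) (t : ℝ)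
    (hc : W.ep k / 2 ≤ Real.cos (W.om0 k * t)) (hsn : 0 ≤ Real.sin (W.om0 k * t)) (Vel : KK) :
    -(3 * W.ep k * inner ℝ (gL Vel - gL (vel (W.zp t))) (Vel - vel (W.zp t)))
      - 1 / (4 * W.ep k) * (27 * (W.as k) ^ 2 * (W.d k) ^ 3
        + 19500 * (W.mm k) ^ 2 / (W.lam (k + 1)) ^ 2)
      - 91 * W.mm k * √(W.d k) / W.lam (k + 1) * ‖Vel - vel (W.zp t)‖
    ≤ -inner ℝ (gL Vel - gL (vel (W.zp t))) (W.fB k t) - inner ℝ (Vel - vel (W.zp t)) (W.fG k t) := by
  have hep : 0 < W.ep k := h.num.ep_pos k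
  have hd : 0 < W.d k := h.num.d_pos k
  obtain ⟨b1, -, -, b4, -, b6, -⟩ := world_basic W h.num
  have hlam : 0 < W.lam (k + 1) := b1 (k + 1)
  have hlam1 : W.lam (k + 1) ≤ 1 := (stage_ineq W h.num k hs).2.2.1
  have hmm : 0 < W.mm k := b6 k
  have has : 0 < W.as k := b4 k
  obtain ⟨g1, -, g3, -⟩ := Gh_facts W h k hs t
  have hBP : BP (W.Bt k t) := (Bt_facts W h k hs).1 t
  obtain ⟨CB, hCB⟩ := hBP.bdd
  set FB : ℝ × ℝ → ℝ := fun q => (W.Bt k t (t + q.1) - W.Bt k t (t - q.1)) * Real.sin q.2 with hFBd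
  set FG : ℝ × ℝ → ℝ := fun q => W.Gh k t (t + q.1) (t - q.1) * Real.sin q.2 with hFGd
  have hFB : MemLp FB 2 (volume.restrict sq) := by
    apply toK_memLp FB _ (CB + CB)
    · intro q
      simp only [hFBd]
      rw [abs_mul]
      have s1 : |Real.sin q.2| ≤ 1 := Real.abs_sin_le_one _
      have s2 : |W.Bt k t (t + q.1) - W.Bt k t (t - q.1)| ≤ CB + CB :=
        (abs_sub _ _).trans (add_le_add (hCB _) (hCB _))
      calc |W.Bt k t (t + q.1) - W.Bt k t (t - q.1)| * |Real.sin q.2| ≤
          (CB + CB) * 1 := mul_le_mul s2 s1 (abs_nonneg _) ((abs_nonneg _).trans s2)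
        _ = CB + CB := mul_one _
    · have m1 := hBP.meas
      have m2 : Measurable (fun q : ℝ × ℝ => W.Bt k t (t + q.1)) :=
        m1.comp (measurable_const.add measurable_fst)
      have m3 : Measurable (fun q : ℝ × ℝ => W.Bt k t (t - q.1)) :=
        m1.comp (measurable_const.sub measurable_fst)
      exact (m2.sub m3).mul (Real.measurable_sin.comp measurable_snd)
  have hFG : MemLp FG 2 (volume.restrict sq) := by
    apply toK_memLp FG _ (36 * W.mm k / W.lam (k + 1))
    · intro q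
      simp only [hFGd]
      rw [abs_mul]
      have s1 : |Real.sin q.2| ≤ 1 := Real.abs_sin_le_one _
      calc |W.Gh k t (t + q.1) (t - q.1)| * |Real.sin q.2| ≤
          (36 * W.mm k / W.lam (k + 1)) * 1 :=
            mul_le_mul (g1 _ _) s1 (abs_nonneg _) ((abs_nonneg _).trans (g1 0 0))
        _ = _ := mul_one _
    · have m2 : Measurable (fun q : ℝ × ℝ => W.Gh k t (t + q.1) (t - q.1)) :=
        g3.comp ((measurable_const.add measurable_fst).prodMk (measurable_const.sub measurable_fst))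
      exact m2.mul (Real.measurable_sin.comp measurable_snd)
  set P : KK := vel (W.zp t) with hP
  have hpt := field_pointwise W h k hs t hc hsn Vel
  rw [← hP] at hpt
  have key := int_13740 (gL Vel - gL P) (Vel - P) FB FG hFB hFG (3 * W.ep k)
    (1 / (4 * W.ep k) * (202 / 100 * W.as k * W.d k) ^ 2)
    (1 / (4 * W.ep k) * ((26 * W.mm k) ^ 2 + (36 * W.mm k / W.lam (k + 1)) ^ 2))
    (36 * W.mm k / W.lam (k + 1)) (W.d k) hd (by positivity) (by positivity) (by
      filter_upwards [hpt, Lp.coeFn_sub (gL Vel) (gL P), Lp.coeFn_sub Vel P, gL_facts.2.2 Vel,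
        gL_facts.2.2 P] with q q1 q2 q3 q4 q5
      rw [q2, q3, Pi.sub_apply, Pi.sub_apply, q4, q5]
      simp only [hFBd, hFGd]
      linarith)
  have hfB : W.fB k t = toK FB := rfl
  have hfG : W.fG k t = toK FG := rfl
  rw [hfB, hfG]
  refine le_trans ?_ key
  have hpi0 := Real.pi_pos
  have hpi1 : π < 3.1416 := Real.pi_lt_d4
  have hpi2 : π ^ 2 ≤ 9.8697 := by nlinarith
  have t1 : 1 / (4 * W.ep k) * (202 / 100 * W.as k * W.d k) ^ 2 * (2 * π * W.d k) +
      1 / (4 * W.ep k) * ((26 * W.mm k) ^ 2 + (36 * W.mm k / W.lam (k + 1)) ^ 2) * π ^ 2 ≤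
      1 / (4 * W.ep k) * (27 * (W.as k) ^ 2 * (W.d k) ^ 3
        + 19500 * (W.mm k) ^ 2 / (W.lam (k + 1)) ^ 2) := by
    have e0 : 1 / (4 * W.ep k) * (202 / 100 * W.as k * W.d k) ^ 2 * (2 * π * W.d k) +
      1 / (4 * W.ep k) * ((26 * W.mm k) ^ 2 + (36 * W.mm k / W.lam (k + 1)) ^ 2) * π ^ 2 =
      1 / (4 * W.ep k) * ((202 / 100 * W.as k * W.d k) ^ 2 * (2 * π * W.d k) +
        ((26 * W.mm k) ^ 2 + (36 * W.mm k / W.lam (k + 1)) ^ 2) * π ^ 2) := by ring
    rw [e0]
    apply mul_le_mul_of_nonneg_left _ (by positivity)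
    apply add_le_add
    · have e1 : (202 / 100 * W.as k * W.d k) ^ 2 * (2 * π * W.d k) =
          (2 * (202 / 100) ^ 2 * π) * ((W.as k) ^ 2 * (W.d k) ^ 3) := by ring
      have e2 : 27 * (W.as k) ^ 2 * (W.d k) ^ 3 = 27 * ((W.as k) ^ 2 * (W.d k) ^ 3) := by ring
      rw [e1, e2]
      apply mul_le_mul_of_nonneg_right _ (by positivity)
      linarith
    · have e1 : (26 * W.mm k) ^ 2 + (36 * W.mm k / W.lam (k + 1)) ^ 2 ≤
          1972 * ((W.mm k) ^ 2 / (W.lam (k + 1)) ^ 2) := by
        have f1 : (W.mm k) ^ 2 ≤ (W.mm k) ^ 2 / (W.lam (k + 1)) ^ 2 := by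
          rw [le_div_iff₀ (by positivity)]
          have : (W.lam (k + 1)) ^ 2 ≤ 1 := pow_le_one₀ hlam.le hlam1
          have : 0 ≤ (W.mm k) ^ 2 := sq_nonneg _
          nlinarith
        have f2 : (26 * W.mm k) ^ 2 + (36 * W.mm k / W.lam (k + 1)) ^ 2 =
            676 * (W.mm k) ^ 2 + 1296 * ((W.mm k) ^ 2 / (W.lam (k + 1)) ^ 2) := by
          rw [div_pow]
          ring
        rw [f2]
        linarith
      have e2 : ((26 * W.mm k) ^ 2 + (36 * W.mm k / W.lam (k + 1)) ^ 2) * π ^ 2 ≤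
          1972 * ((W.mm k) ^ 2 / (W.lam (k + 1)) ^ 2) * 9.8697 :=
        mul_le_mul e1 hpi2 (by positivity) (by positivity)
      refine e2.trans ?_
      have e3 : 19500 * (W.mm k) ^ 2 / (W.lam (k + 1)) ^ 2 =
        19500 * ((W.mm k) ^ 2 / (W.lam (k + 1)) ^ 2) := by ring
      rw [e3]
      have e4 : 0 ≤ (W.mm k) ^ 2 / (W.lam (k + 1)) ^ 2 := by positivity
      nlinarith
  have t2 : 36 * W.mm k / W.lam (k + 1) * (‖Vel - P‖ * √(2 * π * W.d k)) ≤
      91 * W.mm k * √(W.d k) / W.lam (k + 1) * ‖Vel - P‖ := by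
    have f1 : √(2 * π * W.d k) = √(2 * π) * √(W.d k) := Real.sqrt_mul (by positivity) _
    have f2 : 36 * √(2 * π) ≤ 91 := by
      have : √(2 * π) ≤ 91 / 36 := by
        rw [Real.sqrt_le_left (by norm_num)]
        nlinarith
      linarith
    rw [f1]
    have f3 : 36 * W.mm k / W.lam (k + 1) * (‖Vel - P‖ * (√(2 * π) * √(W.d k))) =
        (36 * √(2 * π)) * (W.mm k * √(W.d k) / W.lam (k + 1) * ‖Vel - P‖) := by ring
    have f4 : 91 * W.mm k * √(W.d k) / W.lam (k + 1) * ‖Vel - P‖ =
        91 * (W.mm k * √(W.d k) / W.lam (k + 1) * ‖Vel - P‖) := by ring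
    rw [f3, f4]
    exact mul_le_mul_of_nonneg_right f2 (by positivity)
  linarith

end Haraux
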