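import Pool.Agent.Helper27.Har.Base
import Pool.Agent.Helper27.Har.P_circle_parseval

set_option autoImplicit false

open MeasureTheory Set Real Filter Topology
open scoped ENNReal NNReal

namespace Haraux



private theorem mkick_aux_int (φ : ℝ → ℝ) (h : BP φ) :
    IntervalIntegrable φ volume 0 (2 * π) := by
  obtain ⟨C, hC⟩ := h.bdd
  rw [intervalIntegrable_iff]
  refine Measure.integrableOn_of_bounded (M := C) ?_ h.meas.aestronglyMeasurable ?_
  · simp [ENNReal.mul_eq_top]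
  · exact Filter.Eventually.of_forall fun x => by simpa using hC x

private theorem mkick_aux_Ec (φ : ℝ → ℝ) (h : BP φ) (t : ℝ) (n : ℕ) :
    |Ec n t φ| ≤ (∫ x in (0:ℝ)..(2 * π), |φ x|) * (1 / ((n : ℝ) + 1)) := by
  have hn : (0:ℝ) < (n:ℝ) + 1 := by positivity
  have h2 : (0:ℝ) ≤ 2 * π := by positivity
  unfold Ec
  rw [abs_div, abs_of_pos hn, div_eq_mul_one_div]
  refine mul_le_mul_of_nonneg_right ?_ (by positivity)
  have h1 := intervalIntegral.abs_integral_le_integral_abs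
    (f := fun x => φ x * Real.cos (((n : ℝ) + 1) * (x - t))) (μ := volume) h2
  refine h1.trans ?_
  have hφ := mkick_aux_int φ h
  refine intervalIntegral.integral_mono_on h2 ?_ hφ.abs ?_
  · refine (hφ.mul_continuousOn ?_).abs
    fun_prop
  · intro x _
    rw [abs_mul]
    exact mul_le_of_le_one_right (abs_nonneg _) (Real.abs_cos_le_one _)

private theorem mkick_aux_sum :
    HasSum (fun n : ℕ => (1 / ((n : ℝ) + 1)) ^ 2) (π ^ 2 / 6) := by
  have h := (hasSum_nat_add_iff' 1).2 hasSum_zeta_two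
  simp only [Finset.range_one, Finset.sum_singleton, CharP.cast_eq_zero, ne_eq,
    OfNat.ofNat_ne_zero, not_false_eq_true, zero_pow, div_zero, sub_zero, Nat.cast_add,
    Nat.cast_one] at h
  refine h.congr_fun ?_ |> fun h => h
  intro n
  rw [one_div, one_div, inv_pow]

private theorem mkick_aux_hasSum (φ : ℝ → ℝ) (h : BP φ) (t : ℝ) :
    Summable (fun n : ℕ => (Ec n t φ) ^ 2) ∧
    ∑' n : ℕ, (Ec n t φ) ^ 2 ≤ (∫ x in (0:ℝ)..(2 * π), |φ x|) ^ 2 * (π ^ 2 / 6) := by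
  set A := ∫ x in (0:ℝ)..(2 * π), |φ x| with hA
  have hA0 : 0 ≤ A := by
    rw [hA]
    exact intervalIntegral.integral_nonneg (by positivity) fun x _ => abs_nonneg _
  have hS : HasSum (fun n : ℕ => A ^ 2 * (1 / ((n : ℝ) + 1)) ^ 2) (A ^ 2 * (π ^ 2 / 6)) :=
    mkick_aux_sum.mul_left _
  have hle : ∀ n : ℕ, (Ec n t φ) ^ 2 ≤ A ^ 2 * (1 / ((n : ℝ) + 1)) ^ 2 := by
    intro n
    have := mkick_aux_Ec φ h t n
    rw [← mul_pow, ← sq_abs]
    exact pow_le_pow_left₀ (abs_nonneg _) this 2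
  have hs : Summable (fun n : ℕ => (Ec n t φ) ^ 2) :=
    Summable.of_nonneg_of_le (fun n => by positivity) hle hS.summable
  refine ⟨hs, ?_⟩
  calc ∑' n : ℕ, (Ec n t φ) ^ 2 ≤ ∑' n : ℕ, A ^ 2 * (1 / ((n : ℝ) + 1)) ^ 2 :=
        hs.tsum_le_tsum hle hS.summable
    _ = _ := hS.tsum_eq

private theorem mkick_aux_inj : Function.Injective (fun n : ℕ => ((n, 0) : ℕ × ℕ)) := by
  intro a b hab
  exact (Prod.mk.inj hab).1

private theorem mkick_aux_norm (φ : ℝ → ℝ) (t : ℝ) (i : ℕ × ℕ) :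
    ‖Complex.I * (((if i.2 = 0 then Ec i.1 t φ else 0 : ℝ)) : ℂ)‖ ^ (2:ℝ)
      = if i.2 = 0 then (Ec i.1 t φ) ^ 2 else 0 := by
  rw [Real.rpow_two, norm_mul, Complex.norm_I, one_mul, Complex.norm_real, Real.norm_eq_abs,
    sq_abs]
  split_ifs <;> simp

private theorem mkick_aux_hasSum2 (φ : ℝ → ℝ) (h : BP φ) (t : ℝ) :
    HasSum (fun i : ℕ × ℕ => if i.2 = 0 then (Ec i.1 t φ) ^ 2 else 0)
      (∑' n : ℕ, (Ec n t φ) ^ 2) := by
  refine (mkick_aux_inj.hasSum_iff ?_).1 ?_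
  · intro i hi
    have : i.2 ≠ 0 := by
      intro h0
      exact hi ⟨i.1, by ext <;> simp [h0]⟩
    simp [this]
  · simpa [Function.comp_def] using (mkick_aux_hasSum φ h t).1.hasSum

private theorem mkick_aux_mem (φ : ℝ → ℝ) (h : BP φ) (t : ℝ) :
    Memℓp (fun i : ℕ × ℕ => Complex.I * (((if i.2 = 0 then Ec i.1 t φ else 0 : ℝ)) : ℂ)) 2 := by
  rw [memℓp_gen_iff (by norm_num)]
  simp only [ENNReal.toReal_ofNat]
  exact ((mkick_aux_hasSum2 φ h t).summable).congr fun i => (mkick_aux_norm φ t i).symm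

/-- the mass kick -/
theorem mkick_mem (φ : ℝ → ℝ) (h : BP φ) (t : ℝ) :
    (∀ i, mkick t φ i = Complex.I * (((if i.2 = 0 then Ec i.1 t φ else 0 : ℝ)) : ℂ)) ∧
    ‖mkick t φ‖ ≤ 13 / 10 * ∫ x in (0:ℝ)..(2 * π), |φ x| := by
  have hm := mkick_aux_mem φ h t
  have hi : ∀ i, mkick t φ i = Complex.I * (((if i.2 = 0 then Ec i.1 t φ else 0 : ℝ)) : ℂ) := by
    intro i
    unfold mkick
    rw [dif_pos hm]
  refine ⟨hi, ?_⟩
  have hA0 : 0 ≤ ∫ x in (0:ℝ)..(2 * π), |φ x| :=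
    intervalIntegral.integral_nonneg (by positivity) fun x _ => abs_nonneg _
  have h1 := lp.norm_rpow_eq_tsum (p := 2) (by norm_num) (mkick t φ)
  simp only [ENNReal.toReal_ofNat] at h1
  have h2 : ∑' i, ‖mkick t φ i‖ ^ (2:ℝ) = ∑' n : ℕ, (Ec n t φ) ^ 2 := by
    rw [← (mkick_aux_hasSum2 φ h t).tsum_eq]
    refine tsum_congr fun i => ?_
    rw [hi, mkick_aux_norm]
  rw [h2, Real.rpow_two] at h1
  have h3 := (mkick_aux_hasSum φ h t).2
  have hpi : π ^ 2 / 6 ≤ (13 / 10) ^ 2 := by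
    have := Real.pi_lt_d4
    have h0 := Real.pi_pos
    nlinarith
  refine abs_le_of_sq_le_sq' ?_ (by positivity) |>.2
  rw [h1, mul_pow]
  refine h3.trans ?_
  rw [mul_comm]
  exact mul_le_mul_of_nonneg_right hpi (by positivity)

end Haraux
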