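import Pool.Agent.Helper27.Har.Base
import Pool.Agent.Helper27.Har.P_glift_apply
import Pool.Agent.Helper27.Har.P_psc_prof
import Pool.Agent.Helper27.Har.P_mkick_mem

set_option autoImplicit false

open MeasureTheory Set Real Filter Topology
open scoped ENNReal NNReal

namespace Haraux



private theorem lift_ode_ii (φ : ℝ → ℝ) (h : BP φ) (κ : ℝ → ℝ) (hκ : Continuous κ) (t : ℝ) :
    IntervalIntegrable (fun x => φ x * κ (x - t)) volume 0 (2 * π) := by
  obtain ⟨C, hC⟩ := h.bdd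
  have h1 : IntervalIntegrable (fun x => κ (x - t)) volume 0 (2 * π) :=
    (hκ.comp (continuous_id.sub continuous_const)).intervalIntegrable _ _
  refine (h1.const_mul C).mono_fun ?_ ?_
  · exact (h.meas.mul (hκ.measurable.comp (measurable_id.sub_const t))).aestronglyMeasurable
  · refine Filter.Eventually.of_forall fun x => ?_
    simp only [norm_mul, Real.norm_eq_abs]
    refine mul_le_mul_of_nonneg_right ?_ (abs_nonneg _)
    exact (hC x).trans (le_abs_self C)

private theorem lift_ode_aux (B D : ℝ → ℝ → ℝ) (hB : ∀ t, BP (B t)) (hD : ∀ t, BP (D t)) (L : NNReal)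
    (hL : ∀ ξ, LipschitzWith L (fun t => B t ξ))
    (hBM : ∃ M : ℝ, ∀ t ξ, |B t ξ| ≤ M)
    (hd : ∀ t, ∀ᵐ ξ : ℝ, HasDerivAt (fun s => B s ξ) (D t ξ) t) (κ κ' : ℝ → ℝ) (K : NNReal)
    (h1 : ∀ x, |κ x| ≤ 1) (hlip : LipschitzWith K κ) (hκ : ∀ x, HasDerivAt κ (κ' x) x)
    (hκc : Continuous κ') (t : ℝ) :
    HasDerivAt (fun s => ∫ x in (0:ℝ)..(2 * π), B s x * κ (x - s))
      ((∫ x in (0:ℝ)..(2 * π), D t x * κ (x - t)) -
        ∫ x in (0:ℝ)..(2 * π), B t x * κ' (x - t)) t := by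
  obtain ⟨M, hM⟩ := hBM
  have hM0 : 0 ≤ M := (abs_nonneg _).trans (hM 0 0)
  have hκ0 : Continuous κ := hlip.continuous
  have key := intervalIntegral.hasDerivAt_integral_of_dominated_loc_of_lip (𝕜 := ℝ)
    (μ := volume) (a := 0) (b := 2 * π) (x₀ := t) (s := Set.univ)
    (F := fun s x => B s x * κ (x - s))
    (F' := fun x => D t x * κ (x - t) - B t x * κ' (x - t))
    (bound := fun _ => (L : ℝ) + M * K) Filter.univ_mem ?_ ?_ ?_ ?_ ?_ ?_
  · refine key.2.congr_deriv ?_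
    exact intervalIntegral.integral_sub (lift_ode_ii _ (hD t) κ hκ0 t)
      (lift_ode_ii _ (hB t) κ' hκc t)
  · refine Filter.Eventually.of_forall fun s => ?_
    exact ((hB s).meas.mul
      (hκ0.measurable.comp (measurable_id.sub_const s))).aestronglyMeasurable
  · exact lift_ode_ii _ (hB t) κ hκ0 t
  · exact (((hD t).meas.mul (hκ0.measurable.comp (measurable_id.sub_const t))).sub
      ((hB t).meas.mul (hκc.measurable.comp (measurable_id.sub_const t)))).aestronglyMeasurable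
  · refine Filter.Eventually.of_forall fun x _ => ?_
    refine LipschitzOnWith.of_dist_le_mul fun s _ s' _ => ?_
    have hnn : ((Real.nnabs ((L : ℝ) + M * K) : NNReal) : ℝ) = (L : ℝ) + M * K := by
      rw [Real.coe_nnabs, abs_of_nonneg (by positivity)]
    rw [hnn, Real.dist_eq, Real.dist_eq]
    have e : B s x * κ (x - s) - B s' x * κ (x - s') =
        (B s x - B s' x) * κ (x - s) + B s' x * (κ (x - s) - κ (x - s')) := by ring
    have b1 : |B s x - B s' x| ≤ L * |s - s'| := by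
      have := (hL x).dist_le_mul s s'
      rwa [Real.dist_eq, Real.dist_eq] at this
    have b2 : |κ (x - s) - κ (x - s')| ≤ K * |s - s'| := by
      have := hlip.dist_le_mul (x - s) (x - s')
      rw [Real.dist_eq, Real.dist_eq] at this
      have e2 : x - s - (x - s') = -(s - s') := by ring
      rwa [e2, abs_neg] at this
    calc |B s x * κ (x - s) - B s' x * κ (x - s')| ≤
        |(B s x - B s' x) * κ (x - s)| + |B s' x * (κ (x - s) - κ (x - s'))| := by
          rw [e]; exact abs_add_le _ _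
      _ = |B s x - B s' x| * |κ (x - s)| + |B s' x| * |κ (x - s) - κ (x - s')| := by
          rw [abs_mul, abs_mul]
      _ ≤ (L * |s - s'|) * 1 + M * (K * |s - s'|) :=
          add_le_add (mul_le_mul b1 (h1 _) (abs_nonneg _) (by positivity))
            (mul_le_mul (hM _ _) b2 (abs_nonneg _) hM0)
      _ = ((L : ℝ) + M * K) * |s - s'| := by ring
  · exact intervalIntegrable_const
  · filter_upwards [hd t] with x hx _
    have h2 : HasDerivAt (fun s => κ (x - s)) (κ' (x - t) * (-1)) t := by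
      have h3 : HasDerivAt (fun s : ℝ => x - s) (-1) t := by
        simpa using (hasDerivAt_id t).const_sub x
      exact (hκ (x - t)).comp t h3
    refine (hx.mul h2).congr_deriv ?_
    ring

private theorem Ec_deriv (B D : ℝ → ℝ → ℝ) (hB : ∀ t, BP (B t)) (hD : ∀ t, BP (D t)) (L : NNReal)
    (hL : ∀ ξ, LipschitzWith L (fun t => B t ξ))
    (hBM : ∃ M : ℝ, ∀ t ξ, |B t ξ| ≤ M)
    (hd : ∀ t, ∀ᵐ ξ : ℝ, HasDerivAt (fun s => B s ξ) (D t ξ) t) (n : ℕ) (t : ℝ) :
    HasDerivAt (fun s => Ec n s (B s)) (Ec n t (D t) + Vc n t (B t)) t := by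
  have hN : ((n : ℝ) + 1) ≠ 0 := by positivity
  have hN0 : (0 : ℝ) ≤ (n : ℝ) + 1 := by positivity
  have hder : ∀ x : ℝ, HasDerivAt (fun x => Real.cos (((n : ℝ) + 1) * x))
      (-((n : ℝ) + 1) * Real.sin (((n : ℝ) + 1) * x)) x := by
    intro x
    have h3 : HasDerivAt (fun x : ℝ => ((n : ℝ) + 1) * x) ((n : ℝ) + 1) x := by
      simpa using (hasDerivAt_id x).const_mul ((n : ℝ) + 1)
    refine h3.cos.congr_deriv ?_
    ring
  have hlip : LipschitzWith ((n : NNReal) + 1) (fun x => Real.cos (((n : ℝ) + 1) * x)) := by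
    refine lipschitzWith_of_nnnorm_deriv_le (fun x => (hder x).differentiableAt) fun x => ?_
    rw [(hder x).deriv, ← NNReal.coe_le_coe, coe_nnnorm, Real.norm_eq_abs, abs_mul, abs_neg,
      abs_of_nonneg hN0]
    push_cast
    exact mul_le_of_le_one_right hN0 (Real.abs_sin_le_one _)
  have h := lift_ode_aux B D hB hD L hL hBM hd _ _ _ (fun x => Real.abs_cos_le_one _) hlip hder
    (by fun_prop) t
  have h2 := h.div_const ((n : ℝ) + 1)
  refine h2.congr_deriv ?_
  unfold Ec Vc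
  have e : ∫ x in (0:ℝ)..(2 * π), B t x * (-((n : ℝ) + 1) * Real.sin (((n : ℝ) + 1) * (x - t))) =
      -((n : ℝ) + 1) * ∫ x in (0:ℝ)..(2 * π), B t x * Real.sin (((n : ℝ) + 1) * (x - t)) := by
    rw [← intervalIntegral.integral_const_mul]
    congr 1
    funext x
    ring
  rw [e]
  field_simp
  ring

private theorem Vc_deriv (B D : ℝ → ℝ → ℝ) (hB : ∀ t, BP (B t)) (hD : ∀ t, BP (D t)) (L : NNReal)
    (hL : ∀ ξ, LipschitzWith L (fun t => B t ξ))
    (hBM : ∃ M : ℝ, ∀ t ξ, |B t ξ| ≤ M)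
    (hd : ∀ t, ∀ᵐ ξ : ℝ, HasDerivAt (fun s => B s ξ) (D t ξ) t) (n : ℕ) (t : ℝ) :
    HasDerivAt (fun s => Vc n s (B s)) (Vc n t (D t) - ((n : ℝ) + 1) ^ 2 * Ec n t (B t)) t := by
  have hN : ((n : ℝ) + 1) ≠ 0 := by positivity
  have hN0 : (0 : ℝ) ≤ (n : ℝ) + 1 := by positivity
  have hder : ∀ x : ℝ, HasDerivAt (fun x => Real.sin (((n : ℝ) + 1) * x))
      (((n : ℝ) + 1) * Real.cos (((n : ℝ) + 1) * x)) x := by
    intro x
    have h3 : HasDerivAt (fun x : ℝ => ((n : ℝ) + 1) * x) ((n : ℝ) + 1) x := by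
      simpa using (hasDerivAt_id x).const_mul ((n : ℝ) + 1)
    refine h3.sin.congr_deriv ?_
    ring
  have hlip : LipschitzWith ((n : NNReal) + 1) (fun x => Real.sin (((n : ℝ) + 1) * x)) := by
    refine lipschitzWith_of_nnnorm_deriv_le (fun x => (hder x).differentiableAt) fun x => ?_
    rw [(hder x).deriv, ← NNReal.coe_le_coe, coe_nnnorm, Real.norm_eq_abs, abs_mul,
      abs_of_nonneg hN0]
    push_cast
    exact mul_le_of_le_one_right hN0 (Real.abs_cos_le_one _)
  have h := lift_ode_aux B D hB hD L hL hBM hd _ _ _ (fun x => Real.abs_sin_le_one _) hlip hder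
    (by fun_prop) t
  refine h.congr_deriv ?_
  unfold Ec Vc
  have e : ∫ x in (0:ℝ)..(2 * π), B t x * (((n : ℝ) + 1) * Real.cos (((n : ℝ) + 1) * (x - t))) =
      ((n : ℝ) + 1) * ∫ x in (0:ℝ)..(2 * π), B t x * Real.cos (((n : ℝ) + 1) * (x - t)) := by
    rw [← intervalIntegral.integral_const_mul]
    congr 1
    funext x
    ring
  rw [e]
  field_simp

/-- the lift of a moving function -/
theorem lift_ode (B D : ℝ → ℝ → ℝ) (hB : ∀ t, BP (B t)) (hD : ∀ t, BP (D t)) (L : NNReal)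
    (hL : ∀ ξ, LipschitzWith L (fun t => B t ξ))
    (hBM : ∃ M : ℝ, ∀ t ξ, |B t ξ| ≤ M)
    (hd : ∀ t, ∀ᵐ ξ : ℝ, HasDerivAt (fun s => B s ξ) (D t ξ) t) (t : ℝ) (i : ℕ × ℕ) :
    HasDerivAt (fun s => lift s (B s) i) (-(Complex.I * (om i : ℂ)) * lift t (B t) i
      + (lift t (D t) i + mkick t (B t) i)) t := by
  have hpr := psc_prof.2.2
  have hl : ∀ (s : ℝ) (φ : ℝ → ℝ), BP φ → lift s φ i =
      ((psc Real.sin i.2 * (om i * Ec i.1 s φ) : ℝ) : ℂ)
        + Complex.I * ((psc Real.sin i.2 * Vc i.1 s φ : ℝ) : ℂ) := fun s φ h =>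
    glift_apply Real.sin _ _ φ hpr h s i
  have hfun : (fun s => lift s (B s) i) = fun s =>
      ((psc Real.sin i.2 * (om i * Ec i.1 s (B s)) : ℝ) : ℂ)
        + Complex.I * ((psc Real.sin i.2 * Vc i.1 s (B s) : ℝ) : ℂ) := by
    funext s
    exact hl s (B s) (hB s)
  rw [hfun, hl t (B t) (hB t), hl t (D t) (hD t), (mkick_mem (B t) (hB t) t).1 i, psc_prof.2.1]
  have dE := Ec_deriv B D hB hD L hL hBM hd i.1 t
  have dV := Vc_deriv B D hB hD L hL hBM hd i.1 t
  have d1 := ((dE.const_mul (om i)).const_mul (if i.2 = 0 then (1:ℝ) else 0)).ofReal_comp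
  have d2 := ((dV.const_mul (if i.2 = 0 then (1:ℝ) else 0)).ofReal_comp).const_mul Complex.I
  refine (d1.add d2).congr_deriv ?_
  by_cases hi : i.2 = 0
  · simp only [hi, if_true, one_mul]
    have hom : ((om i : ℝ) : ℂ) * ((om i : ℝ) : ℂ) = (((i.1 : ℝ) + 1) ^ 2 + 1 : ℝ) := by
      have : om i * om i = ((i.1 : ℝ) + 1) ^ 2 + 1 := by
        unfold om
        rw [hi, Real.mul_self_sqrt (by positivity)]
        simp
      rw [← this]
      push_cast
      ring
    have hI := Complex.I_mul_I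
    push_cast at hom ⊢
    linear_combination (Complex.I * (Ec i.1 t (B t) : ℂ)) * hom +
      ((om i : ℂ) * (Vc i.1 t (B t) : ℂ)) * hI
  · simp [hi]

end Haraux
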