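import Pool.Agent.Helper27.Har.Base
import Pool.Agent.Helper27.Har.P_glift_apply
import Pool.Agent.Helper27.Har.P_field_coef
import Pool.Agent.Helper27.Har.P_psc_prof
import Pool.Agent.Helper27.Har.P_kick_apply

set_option autoImplicit false

open MeasureTheory Set Real Filter Topology
open scoped ENNReal NNReal

namespace Haraux



private lemma Ec_zero352 (φ : ℝ → ℝ) (h : BP φ) (t : ℝ) (ha : ∀ ξ, φ (2 * t - ξ) = -φ ξ) (n : ℕ) :
    Ec n t φ = 0 := by
  unfold Ec
  set g : ℝ → ℝ := fun x => φ x * Real.cos (((n : ℝ) + 1) * (x - t)) with hg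
  have hper : Function.Periodic g (2 * π) := by
    intro x
    simp only [hg]
    rw [h.per x]
    congr 1
    have : ((n : ℝ) + 1) * (x + 2 * π - t) = ((n : ℝ) + 1) * (x - t) + ((n + 1 : ℕ) : ℝ) * (2 * π) := by
      push_cast; ring
    rw [this, Real.cos_add_nat_mul_two_pi]
  have hanti : ∀ x, g (2 * t - x) = - g x := by
    intro x
    simp only [hg]
    rw [ha x]
    have : ((n : ℝ) + 1) * (2 * t - x - t) = -(((n : ℝ) + 1) * (x - t)) := by ring
    rw [this, Real.cos_neg]
    ring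
  have h1 : ∫ x in (0:ℝ)..(2 * π), g (2 * t - x) = ∫ x in (2 * t - 2 * π)..(2 * t - 0), g x :=
    intervalIntegral.integral_comp_sub_left g (2 * t)
  have h2 : ∫ x in (2 * t - 2 * π)..(2 * t - 0), g x = ∫ x in (0:ℝ)..(2 * π), g x := by
    have := hper.intervalIntegral_add_eq (2 * t - 2 * π) 0
    rw [sub_add_cancel, zero_add] at this
    rw [sub_zero, this]
  have h3 : ∫ x in (0:ℝ)..(2 * π), g (2 * t - x) = - ∫ x in (0:ℝ)..(2 * π), g x := by
    simp only [hanti]
    exact intervalIntegral.integral_neg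
  have h4 : ∫ x in (0:ℝ)..(2 * π), g x = 0 := by linarith
  rw [h4, zero_div]

/-- lifts of antisymmetric functions are velocity kicks -/
theorem lift_antisymm (φ : ℝ → ℝ) (h : BP φ) (t : ℝ) (ha : ∀ ξ, φ (2 * t - ξ) = -φ ξ) :
    lift t φ = kick (toK (fun q => (φ (t + q.1) - φ (t - q.1)) * Real.sin q.2)) := by
  have h1 : (fun q : ℝ × ℝ => (φ (t + q.1) - φ (t - q.1)) * Real.sin q.2)
      = fun q : ℝ × ℝ => Real.sin q.2 * (φ (t + q.1) - φ (t - q.1)) := by
    funext q; rw [mul_comm]
  ext i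
  rw [h1, kick_apply, (field_coef Real.sin φ Real.continuous_sin h t i).2]
  unfold lift
  rw [glift_apply Real.sin Real.cos (fun y => -Real.sin y) φ psc_prof.2.2 h t i, Ec_zero352 φ h t ha]
  simp

end Haraux
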