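import Pool.Agent.Helper27.Har.Base
import Pool.Agent.Helper27.Har.P_glift_apply
import Pool.Agent.Helper27.Har.P_psc_prof
import Pool.Agent.Helper27.Har.P_mkick_mem

set_option autoImplicit false

open MeasureTheory Set Real Filter Topology
open scoped ENNReal NNReal

namespace Haraux



private theorem ll_int (φ : ℝ → ℝ) (h : BP φ) (τ : ℝ → ℝ) (hτ : Continuous τ) (a b : ℝ) :
    IntervalIntegrable (fun x => φ x * τ x) volume a b := by
  obtain ⟨C, hC⟩ := h.bdd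
  have h1 : IntervalIntegrable τ volume a b := hτ.intervalIntegrable a b
  have h2 : IntervalIntegrable (fun x => τ x * φ x) volume a b := by
    constructor
    · exact h1.1.mul_bdd (c := C) h.meas.aestronglyMeasurable
        (Filter.Eventually.of_forall fun x => by rw [Real.norm_eq_abs]; exact hC x)
    · exact h1.2.mul_bdd (c := C) h.meas.aestronglyMeasurable
        (Filter.Eventually.of_forall fun x => by rw [Real.norm_eq_abs]; exact hC x)
  have h3 : (fun x => φ x * τ x) = fun x => τ x * φ x := by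
    funext x; ring
  rw [h3]
  exact h2

private theorem ll_add (φ1 φ2 : ℝ → ℝ) (h1 : BP φ1) (h2 : BP φ2) (τ : ℝ → ℝ) (hτ : Continuous τ)
    (a b : ℝ) : ∫ x in a..b, (φ1 x + φ2 x) * τ x =
      (∫ x in a..b, φ1 x * τ x) + ∫ x in a..b, φ2 x * τ x := by
  rw [← intervalIntegral.integral_add (ll_int φ1 h1 τ hτ a b) (ll_int φ2 h2 τ hτ a b)]
  congr 1
  funext x
  ring

private theorem ll_sub (φ1 φ2 : ℝ → ℝ) (h1 : BP φ1) (h2 : BP φ2) (τ : ℝ → ℝ) (hτ : Continuous τ)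
    (a b : ℝ) : ∫ x in a..b, (φ1 x - φ2 x) * τ x =
      (∫ x in a..b, φ1 x * τ x) - ∫ x in a..b, φ2 x * τ x := by
  rw [← intervalIntegral.integral_sub (ll_int φ1 h1 τ hτ a b) (ll_int φ2 h2 τ hτ a b)]
  congr 1
  funext x
  ring

private theorem ll_mul (c : ℝ) (φ : ℝ → ℝ) (τ : ℝ → ℝ)
    (a b : ℝ) : ∫ x in a..b, (c * φ x) * τ x = c * ∫ x in a..b, φ x * τ x := by
  rw [← intervalIntegral.integral_const_mul]
  congr 1
  funext x
  ring

private theorem ll_cos (n : ℕ) (t : ℝ) :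
    Continuous fun x : ℝ => Real.cos (((n : ℝ) + 1) * (x - t)) := by fun_prop

private theorem ll_sin (n : ℕ) (t : ℝ) :
    Continuous fun x : ℝ => Real.sin (((n : ℝ) + 1) * (x - t)) := by fun_prop

private theorem ll_bp_add (φ1 φ2 : ℝ → ℝ) (h1 : BP φ1) (h2 : BP φ2) :
    BP (fun ξ => φ1 ξ + φ2 ξ) := by
  obtain ⟨C1, hC1⟩ := h1.bdd
  obtain ⟨C2, hC2⟩ := h2.bdd
  exact ⟨h1.meas.add h2.meas, ⟨C1 + C2, fun x => (abs_add_le _ _).trans (add_le_add (hC1 x) (hC2 x))⟩,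
    fun x => by
      change φ1 (x + 2 * π) + φ2 (x + 2 * π) = φ1 x + φ2 x
      rw [h1.per x, h2.per x]⟩

private theorem ll_bp_mul (c : ℝ) (φ : ℝ → ℝ) (h : BP φ) : BP (fun ξ => c * φ ξ) := by
  obtain ⟨C, hC⟩ := h.bdd
  exact ⟨h.meas.const_mul c, ⟨|c| * C, fun x => by
      rw [abs_mul]
      exact mul_le_mul_of_nonneg_left (hC x) (abs_nonneg _)⟩,
    fun x => by
      change c * φ (x + 2 * π) = c * φ x
      rw [h.per x]⟩

private theorem ll_bp_sub (φ1 φ2 : ℝ → ℝ) (h1 : BP φ1) (h2 : BP φ2) :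
    BP (fun ξ => φ1 ξ - φ2 ξ) := by
  have := ll_bp_add φ1 (fun ξ => (-1) * φ2 ξ) h1 (ll_bp_mul (-1) φ2 h2)
  have e : (fun ξ => φ1 ξ - φ2 ξ) = fun ξ => φ1 ξ + (-1) * φ2 ξ := by
    funext ξ; ring
  rw [e]
  exact this

private theorem ll_lift_apply (φ : ℝ → ℝ) (h : BP φ) (t : ℝ) (i : ℕ × ℕ) :
    lift t φ i = ((psc Real.sin i.2 * (om i * Ec i.1 t φ) : ℝ) : ℂ)
      + Complex.I * ((psc Real.sin i.2 * Vc i.1 t φ : ℝ) : ℂ) :=
  glift_apply Real.sin Real.cos (fun y => -Real.sin y) φ psc_prof.2.2 h t i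

/-- linearity -/
theorem lift_linear (φ1 φ2 : ℝ → ℝ) (h1 : BP φ1) (h2 : BP φ2) (t c : ℝ) :
    lift t (fun ξ => φ1 ξ + φ2 ξ) = lift t φ1 + lift t φ2 ∧
    lift t (fun ξ => φ1 ξ - φ2 ξ) = lift t φ1 - lift t φ2 ∧
    lift t (fun ξ => c * φ1 ξ) = c • lift t φ1 ∧
    mkick t (fun ξ => φ1 ξ + φ2 ξ) = mkick t φ1 + mkick t φ2 := by
  have hEadd : ∀ n, Ec n t (fun ξ => φ1 ξ + φ2 ξ) = Ec n t φ1 + Ec n t φ2 := by
    intro n
    unfold Ec
    rw [ll_add φ1 φ2 h1 h2 _ (ll_cos n t), add_div]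
  have hVadd : ∀ n, Vc n t (fun ξ => φ1 ξ + φ2 ξ) = Vc n t φ1 + Vc n t φ2 := by
    intro n
    unfold Vc
    rw [ll_add φ1 φ2 h1 h2 _ (ll_sin n t)]
  have hEsub : ∀ n, Ec n t (fun ξ => φ1 ξ - φ2 ξ) = Ec n t φ1 - Ec n t φ2 := by
    intro n
    unfold Ec
    rw [ll_sub φ1 φ2 h1 h2 _ (ll_cos n t), sub_div]
  have hVsub : ∀ n, Vc n t (fun ξ => φ1 ξ - φ2 ξ) = Vc n t φ1 - Vc n t φ2 := by
    intro n
    unfold Vc
    rw [ll_sub φ1 φ2 h1 h2 _ (ll_sin n t)]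
  have hEmul : ∀ n, Ec n t (fun ξ => c * φ1 ξ) = c * Ec n t φ1 := by
    intro n
    unfold Ec
    rw [ll_mul, mul_div_assoc]
  have hVmul : ∀ n, Vc n t (fun ξ => c * φ1 ξ) = c * Vc n t φ1 := by
    intro n
    unfold Vc
    rw [ll_mul]
  refine ⟨?_, ?_, ?_, ?_⟩
  · apply lp.ext
    funext i
    rw [lp.coeFn_add, Pi.add_apply, ll_lift_apply _ (ll_bp_add φ1 φ2 h1 h2),
      ll_lift_apply _ h1, ll_lift_apply _ h2, hEadd, hVadd]
    push_cast
    ring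
  · apply lp.ext
    funext i
    rw [lp.coeFn_sub, Pi.sub_apply, ll_lift_apply _ (ll_bp_sub φ1 φ2 h1 h2),
      ll_lift_apply _ h1, ll_lift_apply _ h2, hEsub, hVsub]
    push_cast
    ring
  · apply lp.ext
    funext i
    rw [lp.coeFn_smul, Pi.smul_apply, ll_lift_apply _ (ll_bp_mul c φ1 h1),
      ll_lift_apply _ h1, hEmul, hVmul, Complex.real_smul]
    push_cast
    ring
  · apply lp.ext
    funext i
    rw [lp.coeFn_add, Pi.add_apply, (mkick_mem _ (ll_bp_add φ1 φ2 h1 h2) t).1,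
      (mkick_mem _ h1 t).1, (mkick_mem _ h2 t).1, hEadd]
    by_cases hi : i.2 = 0
    · simp only [hi, if_true]
      push_cast
      ring
    · simp only [hi, if_false]
      push_cast
      ring

end Haraux
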