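import Pool.Agent.Helper27.Har.Base
import Pool.Agent.Helper27.Har.P_mkick_mem
import Pool.Agent.Helper27.Har.P_Ec_prim
import Pool.Agent.Helper27.Har.P_field_coef
import Pool.Agent.Helper27.Har.P_psc_prof
import Pool.Agent.Helper27.Har.P_kick_apply

set_option autoImplicit false

open MeasureTheory Set Real Filter Topology
open scoped ENNReal NNReal

namespace Haraux



/-- the mass kick of a function with a primitive -/
theorem mkick_prim (φ Φ : ℝ → ℝ) (h : BP φ) (hΦ : IsPrim φ Φ) (t : ℝ) :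
    mkick t φ = kick (toK (fun q => (Φ (t + q.1) - Φ (t - q.1)) * Real.sin q.2)) := by
  have hfun : (fun q : ℝ × ℝ => (Φ (t + q.1) - Φ (t - q.1)) * Real.sin q.2) =
      fun q : ℝ × ℝ => Real.sin q.2 * (Φ (t + q.1) - Φ (t - q.1)) := by
    funext q
    exact mul_comm _ _
  rw [hfun]
  refine lp.ext (funext fun i => ?_)
  rw [(mkick_mem φ h t).1 i, kick_apply,
    (field_coef Real.sin Φ Real.continuous_sin hΦ.bp t i).2, psc_prof.2.1,
    (Ec_prim φ Φ h hΦ).1]
  by_cases hi : i.2 = 0
  · simp [hi]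
  · simp [hi]

end Haraux
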