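import Pool.Agent.Helper27.Har.Base
import Pool.Agent.Helper27.Har.P_world_basic
import Pool.Agent.Helper27.Har.P_level_facts
import Pool.Agent.Helper27.Har.P_K_bounds
import Pool.Agent.Helper27.Har.P_Gh_facts
import Pool.Agent.Helper27.Har.P_Bt_facts
import Pool.Agent.Helper27.Har.P_lift_linear
import Pool.Agent.Helper27.Har.P_lift_antisymm
import Pool.Agent.Helper27.Har.P_mkick_prim
import Pool.Agent.Helper27.Har.P_mkick_mem
import Pool.Agent.Helper27.Har.P_rin_facts
import Pool.Agent.Helper27.Har.P_toK_add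
import Pool.Agent.Helper27.Har.P_toK_memLp

set_option autoImplicit false

open MeasureTheory Set Real Filter Topology
open scoped ENNReal NNReal

namespace Haraux



private theorem res_BP_add {f g : ℝ → ℝ} (hf : BP f) (hg : BP g) : BP (fun ξ => f ξ + g ξ) := by
  obtain ⟨C, hC⟩ := hf.bdd
  obtain ⟨D, hD⟩ := hg.bdd
  refine ⟨hf.meas.add hg.meas, ⟨C + D, fun x => ?_⟩, fun x => ?_⟩
  · exact (abs_add_le _ _).trans (add_le_add (hC x) (hD x))
  · rw [hf.per x, hg.per x]

private theorem res_BP_cmul {f : ℝ → ℝ} (c : ℝ) (hf : BP f) : BP (fun ξ => c * f ξ) := by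
  obtain ⟨C, hC⟩ := hf.bdd
  refine ⟨hf.meas.const_mul c, ⟨|c| * C, fun x => ?_⟩, fun x => ?_⟩
  · rw [abs_mul]
    exact mul_le_mul_of_nonneg_left (hC x) (abs_nonneg c)
  · rw [hf.per x]

private theorem res_BP_refl {f : ℝ → ℝ} (c : ℝ) (hf : BP f) : BP (fun ξ => f (c - ξ)) := by
  obtain ⟨C, hC⟩ := hf.bdd
  refine ⟨hf.meas.comp (measurable_const.sub measurable_id), ⟨C, fun x => hC _⟩, fun x => ?_⟩
  rw [← hf.per (c - (x + 2 * π))]
  congr 1
  ring

private theorem res_memLp {f : ℝ → ℝ} (hf : BP f) (t : ℝ) :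
    MemLp (fun q : ℝ × ℝ => (f (t + q.1) - f (t - q.1)) * Real.sin q.2) 2
      (volume.restrict sq) := by
  obtain ⟨C, hC⟩ := hf.bdd
  refine toK_memLp _ ?_ (2 * C) fun q => ?_
  · have h1 : Measurable (fun q : ℝ × ℝ => f (t + q.1)) :=
      hf.meas.comp (measurable_const.add measurable_fst)
    have h2 : Measurable (fun q : ℝ × ℝ => f (t - q.1)) :=
      hf.meas.comp (measurable_const.sub measurable_fst)
    exact (h1.sub h2).mul (Real.measurable_sin.comp measurable_snd)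
  · have h0 : 0 ≤ C := (abs_nonneg _).trans (hC 0)
    rw [abs_mul]
    have h1 : |f (t + q.1) - f (t - q.1)| ≤ 2 * C := by
      refine (abs_sub _ _).trans ?_
      have := hC (t + q.1)
      have := hC (t - q.1)
      linarith
    calc |f (t + q.1) - f (t - q.1)| * |Real.sin q.2| ≤ 2 * C * 1 :=
          mul_le_mul h1 (Real.abs_sin_le_one _) (abs_nonneg _) (by linarith)
      _ = 2 * C := mul_one _

private theorem res_ii {f : ℝ → ℝ} (hf : BP f) (a b : ℝ) : IntervalIntegrable f volume a b := by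
  obtain ⟨C, hC⟩ := hf.bdd
  refine (intervalIntegrable_const (c := C)).mono_fun hf.meas.aestronglyMeasurable ?_
  refine Filter.Eventually.of_forall fun x => ?_
  change |f x| ≤ |C|
  exact (hC x).trans (le_abs_self C)

private theorem res_prim_add {f F g G : ℝ → ℝ} (hf : BP f) (hg : BP g) (h1 : IsPrim f F)
    (h2 : IsPrim g G) : IsPrim (fun ξ => f ξ + g ξ) (fun ξ => F ξ + G ξ) := by
  refine ⟨res_BP_add h1.bp h2.bp, h1.cont.add h2.cont, fun a b => ?_⟩
  rw [intervalIntegral.integral_add (res_ii hf a b) (res_ii hg a b), h1.prim, h2.prim]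
  ring

private theorem res_prim_cmul {f F : ℝ → ℝ} (c : ℝ) (h1 : IsPrim f F) :
    IsPrim (fun ξ => c * f ξ) (fun ξ => c * F ξ) := by
  refine ⟨res_BP_cmul c h1.bp, continuous_const.mul h1.cont, fun a b => ?_⟩
  rw [intervalIntegral.integral_const_mul, h1.prim]
  ring

/-- primitive of `B0` -/
private theorem res_prim_B0 (W : World) (h : W.Reg) (k : ℕ) (t : ℝ) :
    IsPrim (W.B0 k t) (fun ξ => W.Ff k t ξ +
      W.as k * Real.sin (W.om0 k * t) * W.w (k + 1) ξ) := by
  obtain ⟨bu, bv, -, pu, pv, -⟩ := level_facts W h k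
  obtain ⟨bu', -, -, pu', -⟩ := level_facts W h (k + 1)
  have h1 := res_prim_cmul (Real.cos (W.om0 k * t)) (res_prim_cmul (W.al k) pu)
  have h2 := res_prim_cmul (Real.sin (W.om0 k * t)) (res_prim_cmul (W.as k)
    (res_prim_add bu' bv pu' pv))
  have h3 := res_prim_add (res_BP_cmul _ (res_BP_cmul _ bu))
    (res_BP_cmul _ (res_BP_cmul _ (res_BP_add bu' bv))) h1 h2
  have e1 : (fun ξ => W.Ff k t ξ + W.as k * Real.sin (W.om0 k * t) * W.w (k + 1) ξ) =
      fun ξ => Real.cos (W.om0 k * t) * (W.al k * W.w k ξ) +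
        Real.sin (W.om0 k * t) * (W.as k * (W.w (k + 1) ξ + W.x k ξ)) := by
    funext ξ
    unfold World.Ff
    ring
  rw [e1]
  exact h3

private theorem res_BP_Ff (W : World) (h : W.Reg) (k : ℕ) (t : ℝ) : BP (W.Ff k t) := by
  obtain ⟨-, -, -, pu, pv, -⟩ := level_facts W h k
  exact res_BP_add (res_BP_cmul _ (res_BP_cmul _ pu.bp)) (res_BP_cmul _ (res_BP_cmul _ pv.bp))

private theorem res_BP_Gh (W : World) (h : W.Reg) (k : ℕ) (hs : W.Small k) (t : ℝ) :
    BP (fun ξ => W.Gh k t ξ (2 * t - ξ)) := by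
  obtain ⟨hb, -, hm, hp1, hp2, -⟩ := Gh_facts W h k hs t
  refine ⟨?_, ⟨_, fun x => hb _ _⟩, fun x => ?_⟩
  · exact hm.comp (measurable_id.prodMk (measurable_const.sub measurable_id))
  · rw [hp1, ← hp2 x (2 * t - (x + 2 * π))]
    congr 1
    ring

/-- the residual of the pseudo-orbit -/
theorem residual (W : World) (h : W.Reg) (k : ℕ) (hs : W.Small k) (t : ℝ) :
    lift t (W.Dt k t) + mkick t (W.Bt k t) = -kick (W.fG k t)
      + (W.om0 k • lift t (W.Rs k t) + kick (W.fW k t) + mkick t (W.Co k t)) := by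
  obtain ⟨-, -, -, -, -, -, -, -, -, -, -, -, kadd, -, kneg, -, -, -⟩ := rin_facts
  obtain ⟨-, hanti, -, -, -, -⟩ := Gh_facts W h k hs t
  obtain ⟨-, -, hCo, hRs, -⟩ := K_bounds W h k hs
  obtain ⟨-, -, hB0, -⟩ := Bt_facts W h k hs
  have bF := res_BP_Ff W h k t
  have bG := res_BP_Gh W h k hs t
  set φa : ℝ → ℝ := fun ξ => -(1 / 2) * (W.Ff k t ξ + (-1) * W.Ff k t (2 * t - ξ)) with hφa
  set φb : ℝ → ℝ := fun ξ => -(1 / 2) * W.Gh k t ξ (2 * t - ξ) with hφb
  have ba : BP φa := res_BP_cmul _ (res_BP_add bF (res_BP_cmul _ (res_BP_refl _ bF)))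
  have bb : BP φb := res_BP_cmul _ bG
  have hDt : W.Dt k t = fun ξ => (fun ξ => φa ξ + φb ξ) ξ + (fun ξ => W.om0 k * W.Rs k t ξ) ξ := by
    funext ξ
    simp only [World.Dt, hφa, hφb]
    ring
  have hl1 : lift t (W.Dt k t) = lift t φa + lift t φb + W.om0 k • lift t (W.Rs k t) := by
    rw [hDt, (lift_linear _ _ (res_BP_add ba bb) (res_BP_cmul _ (hRs t)) t 0).1,
      (lift_linear _ _ ba bb t 0).1, (lift_linear _ _ (hRs t) (hRs t) t (W.om0 k)).2.2.1]
  have aa : ∀ ξ, φa (2 * t - ξ) = -φa ξ := by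
    intro ξ
    simp only [hφa]
    rw [show 2 * t - (2 * t - ξ) = ξ by ring]
    ring
  have ab : ∀ ξ, φb (2 * t - ξ) = -φb ξ := by
    intro ξ
    simp only [hφb]
    rw [show 2 * t - (2 * t - ξ) = ξ by ring, hanti ξ (2 * t - ξ)]
    ring
  have la := lift_antisymm φa ba t aa
  have lb := lift_antisymm φb bb t ab
  have hBt : W.Bt k t = fun ξ => W.B0 k t ξ + W.Co k t ξ := rfl
  have hm1 : mkick t (W.Bt k t) = mkick t (W.B0 k t) + mkick t (W.Co k t) := by
    rw [hBt, (lift_linear _ _ (hB0 t) (hCo t) t 0).2.2.2]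
  have pB := res_prim_B0 W h k t
  have hm2 := mkick_prim _ _ (hB0 t) pB t
  have mA := res_memLp ba t
  have mB := res_memLp bb t
  have mD := res_memLp pB.bp t
  have hfG : W.fG k t = -toK (fun q => (φb (t + q.1) - φb (t - q.1)) * Real.sin q.2) := by
    rw [← (toK_add _ _ mB mB).2.2.1]
    unfold World.fG
    congr 1
    funext q
    have e1 := ab (t + q.1)
    rw [show 2 * t - (t + q.1) = t - q.1 by ring] at e1
    rw [e1]
    simp only [hφb]
    rw [show 2 * t - (t + q.1) = t - q.1 by ring]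
    ring
  have hfW : W.fW k t = toK (fun q => (φa (t + q.1) - φa (t - q.1)) * Real.sin q.2) +
      toK (fun q => ((fun ξ => W.Ff k t ξ + W.as k * Real.sin (W.om0 k * t) * W.w (k + 1) ξ)
        (t + q.1) - (fun ξ => W.Ff k t ξ + W.as k * Real.sin (W.om0 k * t) * W.w (k + 1) ξ)
        (t - q.1)) * Real.sin q.2) := by
    rw [← (toK_add _ _ mA mD).1]
    unfold World.fW
    congr 1
    funext q
    have e1 := aa (t + q.1)
    rw [show 2 * t - (t + q.1) = t - q.1 by ring] at e1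
    rw [e1]
    simp only [hφa]
    rw [show 2 * t - (t + q.1) = t - q.1 by ring]
    ring
  rw [hl1, hm1, la, lb, hm2, hfG, hfW, kadd, kneg]
  abel

end Haraux
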