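import Pool.Agent.Helper27.Har.Base
import Pool.Agent.Helper27.Har.P_Bt_facts
import Pool.Agent.Helper27.Har.P_Bt_deriv
import Pool.Agent.Helper27.Har.P_lift_ode
import Pool.Agent.Helper27.Har.P_residual
import Pool.Agent.Helper27.Har.P_rin_facts

set_option autoImplicit false

open MeasureTheory Set Real Filter Topology
open scoped ENNReal NNReal

namespace Haraux



/-- equation of the pseudo-orbit in coordinates -/
theorem pseudo_ode (W : World) (h : W.Reg) (k : ℕ) (hs : W.Small k) (t : ℝ) (i : ℕ × ℕ) :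
    HasDerivAt (fun s => lift s (W.Bt k s) i) (-(Complex.I * (om i : ℂ)) * lift t (W.Bt k t) i
      + (-kick (W.fG k t)
      + (W.om0 k • lift t (W.Rs k t) + kick (W.fW k t) + mkick t (W.Co k t))) i) t := by
  obtain ⟨hB, hD, _, ⟨L, hL⟩, hM, _, _, _⟩ := Bt_facts W h k hs
  have h1 := lift_ode (W.Bt k) (W.Dt k) hB hD L hL hM (Bt_deriv W h k hs) t i
  have h2 : lift t (W.Dt k t) i + mkick t (W.Bt k t) i =
      (-kick (W.fG k t)
      + (W.om0 k • lift t (W.Rs k t) + kick (W.fW k t) + mkick t (W.Co k t))) i := by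
    rw [← residual W h k hs t, lp.coeFn_add, Pi.add_apply]
  rw [h2] at h1
  exact h1

end Haraux
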