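import Pool.Agent.Helper27.Har.Base
import Pool.Agent.Helper27.Har.P_circle_parseval
import Pool.Agent.Helper27.Har.P_psc_prof
import Pool.Agent.Helper27.Har.P_glift_apply
import Pool.Agent.Helper27.Har.P_Ec_prim

set_option autoImplicit false

open MeasureTheory Set Real Filter Topology
open scoped ENNReal NNReal

namespace Haraux



private theorem lift_norm_hasSum (φ : ℝ → ℝ) (h : BP φ) (t : ℝ) :
    HasSum (fun n : ℕ => (((n : ℝ) + 1) ^ 2 + 1) * (Ec n t φ) ^ 2 + (Vc n t φ) ^ 2)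
      (‖lift t φ‖ ^ 2) := by
  obtain ⟨_, hs, hp⟩ := psc_prof
  have h1 := lp.hasSum_norm (p := 2) (by norm_num) (lift t φ)
  have h2 : HasSum (fun i => ‖lift t φ i‖ ^ 2) (‖lift t φ‖ ^ 2) := by
    simpa using h1
  have hc : ∀ i : ℕ × ℕ, lift t φ i = ((psc Real.sin i.2 * (om i * Ec i.1 t φ) : ℝ) : ℂ)
      + Complex.I * ((psc Real.sin i.2 * Vc i.1 t φ : ℝ) : ℂ) :=
    fun i => glift_apply Real.sin Real.cos (fun y => -Real.sin y) φ hp h t i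
  have hinj : Function.Injective (fun n : ℕ => ((n, 0) : ℕ × ℕ)) := fun a b hab =>
    (Prod.mk.injEq _ _ _ _ ▸ hab).1
  have hzero : ∀ i ∉ Set.range (fun n : ℕ => ((n, 0) : ℕ × ℕ)), ‖lift t φ i‖ ^ 2 = 0 := by
    rintro ⟨a, b⟩ hi
    have hb : b ≠ 0 := by
      rintro rfl
      exact hi ⟨a, rfl⟩
    rw [hc, hs, if_neg hb]
    simp
  have h3 := (hinj.hasSum_iff hzero).2 h2
  refine h3.congr_fun ?_ |> fun x => x
  intro n
  simp only [Function.comp]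
  rw [hc, hs, if_pos rfl, one_mul, one_mul]
  have hom : om (n, 0) ^ 2 = ((n : ℝ) + 1) ^ 2 + 1 := by
    unfold om
    rw [Real.sq_sqrt (by positivity)]
    simp
  rw [← Complex.normSq_eq_norm_sq, Complex.normSq_apply]
  simp
  rw [← hom]
  ring

/-- norms of lifts -/
theorem lift_norm (φ : ℝ → ℝ) (h : BP φ) (t : ℝ) :
    ‖lift t φ‖ ^ 2 ≤ 2 * π * (∫ x in (0:ℝ)..(2 * π), (φ x) ^ 2) ∧
    π * (∫ x in (0:ℝ)..(2 * π), (φ x) ^ 2) - 1 / 2 * (∫ x in (0:ℝ)..(2 * π), φ x) ^ 2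
      ≤ ‖lift t φ‖ ^ 2 ∧
    (∀ Φ : ℝ → ℝ, IsPrim φ Φ → ‖lift t φ‖ ^ 2 ≤ π * (∫ x in (0:ℝ)..(2 * π), (φ x) ^ 2)
      + π * (∫ x in (0:ℝ)..(2 * π), (Φ x) ^ 2)) := by
  have H := lift_norm_hasSum φ h t
  have Pp := circle_parseval φ h t
  have hn : ∀ n : ℕ, (1 : ℝ) ≤ ((n : ℝ) + 1) ^ 2 := by
    intro n
    have : (0 : ℝ) ≤ n := Nat.cast_nonneg n
    nlinarith
  refine ⟨?_, ?_, ?_⟩
  · have h1 := hasSum_le (fun n => ?_) H (Pp.mul_left 2)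
    · have h2 := sq_nonneg (∫ x in (0:ℝ)..(2 * π), φ x)
      linarith
    · show (((n : ℝ) + 1) ^ 2 + 1) * (Ec n t φ) ^ 2 + (Vc n t φ) ^ 2 ≤
        2 * ((((n : ℝ) + 1) * Ec n t φ) ^ 2 + (Vc n t φ) ^ 2)
      have h2 := hn n
      have h3 := sq_nonneg (Ec n t φ)
      have h4 := sq_nonneg (Vc n t φ)
      nlinarith
  · refine hasSum_le (fun n => ?_) Pp H
    have h3 := sq_nonneg (Ec n t φ)
    show (((n : ℝ) + 1) * Ec n t φ) ^ 2 + (Vc n t φ) ^ 2 ≤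
      (((n : ℝ) + 1) ^ 2 + 1) * (Ec n t φ) ^ 2 + (Vc n t φ) ^ 2
    nlinarith
  · intro Φ hΦ
    have PΦ := circle_parseval Φ hΦ.bp t
    have hE := (Ec_prim φ Φ h hΦ).1
    have h1 := hasSum_le (fun n => ?_) H (Pp.add PΦ)
    · have h2 := sq_nonneg (∫ x in (0:ℝ)..(2 * π), φ x)
      have h3 := sq_nonneg (∫ x in (0:ℝ)..(2 * π), Φ x)
      linarith
    · show (((n : ℝ) + 1) ^ 2 + 1) * (Ec n t φ) ^ 2 + (Vc n t φ) ^ 2 ≤
        ((((n : ℝ) + 1) * Ec n t φ) ^ 2 + (Vc n t φ) ^ 2) +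
        ((((n : ℝ) + 1) * Ec n t Φ) ^ 2 + (Vc n t Φ) ^ 2)
      have h5 : (Ec n t φ) ^ 2 = (Vc n t Φ) ^ 2 := by rw [hE]
      have h6 := sq_nonneg (((n : ℝ) + 1) * Ec n t Φ)
      nlinarith

end Haraux
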