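import Pool.Agent.Helper27.Har.Base
import Pool.Agent.Helper27.Har.P_world_basic
import Pool.Agent.Helper27.Har.P_stage_ineq
import Pool.Agent.Helper27.Har.P_level_facts
import Pool.Agent.Helper27.Har.P_lift_norm
import Pool.Agent.Helper27.Har.P_lift_linear
import Pool.Agent.Helper27.Har.P_K_bounds
import Pool.Agent.Helper27.Har.P_Bt_facts

set_option autoImplicit false

open MeasureTheory Set Real Filter Topology
open scoped ENNReal NNReal

namespace Haraux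



private lemma BP_cmul616 {φ : ℝ → ℝ} (h : BP φ) (c : ℝ) : BP (fun x => c * φ x) := by
  obtain ⟨C, hC⟩ := h.bdd
  refine ⟨h.meas.const_mul c, ⟨|c| * C, fun x => ?_⟩, fun x => ?_⟩
  · rw [abs_mul]; exact mul_le_mul_of_nonneg_left (hC x) (abs_nonneg c)
  · show c * φ (x + 2 * π) = c * φ x
    rw [h.per x]

private lemma IsPrim_cmul616 {φ Φ : ℝ → ℝ} (h : IsPrim φ Φ) (c : ℝ) :
    IsPrim (fun x => c * φ x) (fun x => c * Φ x) := by
  refine ⟨BP_cmul616 h.bp c, continuous_const.mul h.cont, fun a b => ?_⟩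
  rw [intervalIntegral.integral_const_mul, h.prim]
  ring

private lemma int_sq_le616 {φ : ℝ → ℝ} (C : ℝ) (hC : ∀ x, |φ x| ≤ C) :
    ∫ x in (0:ℝ)..(2 * π), (φ x) ^ 2 ≤ 2 * π * C ^ 2 := by
  have h1 := intervalIntegral.norm_integral_le_of_norm_le_const (a := (0:ℝ)) (b := 2 * π)
    (C := C ^ 2) (f := fun x => (φ x) ^ 2) (fun x _ => by
      rw [Real.norm_eq_abs, abs_pow]
      exact pow_le_pow_left₀ (abs_nonneg _) (hC x) 2)
  have h2 : (0:ℝ) ≤ 2 * π := by positivity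
  rw [sub_zero, abs_of_nonneg h2] at h1
  have := (le_abs_self _).trans h1
  linarith

/-- the initial state of the stage -/
theorem start_state (W : World) (h : W.Reg) (k : ℕ) (hs : W.Small k) :
    π ≤ ‖lift 0 (fun ξ => W.al k * W.u k ξ)‖ ^ 2 ∧
    ‖lift 0 (fun ξ => W.al k * W.u k ξ)‖ ^ 2 ≤ π + 80 * (W.mm k) ^ 2 ∧
    ‖lift 0 (W.Bt k 0) - lift 0 (fun ξ => W.al k * W.u k ξ)‖ ≤ 82 * W.mm k := by
  obtain ⟨hu, _, _, hpw, _⟩ := level_facts W h k
  have hφ : BP (fun ξ => W.al k * W.u k ξ) := BP_cmul616 hu _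
  have hΦ : IsPrim (fun ξ => W.al k * W.u k ξ) (fun ξ => W.al k * W.w k ξ) := IsPrim_cmul616 hpw _
  have hB0 : ∀ ξ, W.B0 k 0 ξ = W.al k * W.u k ξ := by
    intro ξ
    unfold World.B0
    rw [mul_zero, Real.cos_zero, Real.sin_zero]
    ring
  have hint1 : ∫ x in (0:ℝ)..(2 * π), (W.al k * W.u k x) ^ 2 = 1 := by
    have := (Bt_facts W h k hs).2.2.2.2.2.2.2 0
    simpa only [hB0] using this
  have hint0 : ∫ x in (0:ℝ)..(2 * π), W.al k * W.u k x = 0 := by
    rw [hΦ.prim]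
    have := hΦ.bp.per 0
    rw [zero_add] at this
    rw [this, sub_self]
  obtain ⟨_, l2, l3⟩ := lift_norm _ hφ 0
  have l4 := l3 _ hΦ
  rw [hint1, hint0] at l2
  rw [hint1] at l4
  have hpi := Real.pi_pos
  have hpi2 : π < 3.1416 := Real.pi_lt_d4
  have hmm : 0 < W.mm k := (world_basic W h.num).2.2.2.2.2.1 k
  have hal : 0 < W.al k := (world_basic W h.num).2.2.1 k
  have hmmd : W.al k * W.mu k = 2 * W.mm k := by unfold World.mm; ring
  have hw2 : ∫ x in (0:ℝ)..(2 * π), (W.al k * W.w k x) ^ 2 ≤ 2 * π * (2 * W.mm k) ^ 2 := by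
    refine int_sq_le616 _ fun x => ?_
    rw [abs_mul, abs_of_pos hal, ← hmmd]
    exact mul_le_mul_of_nonneg_left ((h.lev k).wle x) hal.le
  refine ⟨by linarith, ?_, ?_⟩
  · have e1 : π * (∫ x in (0:ℝ)..(2 * π), (W.al k * W.w k x) ^ 2) ≤
        π * (2 * π * (2 * W.mm k) ^ 2) := mul_le_mul_of_nonneg_left hw2 hpi.le
    have e2 : π * (2 * π * (2 * W.mm k) ^ 2) = 8 * π ^ 2 * (W.mm k) ^ 2 := by ring
    have e3 : 8 * π ^ 2 ≤ 80 := by nlinarith
    have e4 : 8 * π ^ 2 * (W.mm k) ^ 2 ≤ 80 * (W.mm k) ^ 2 :=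
      mul_le_mul_of_nonneg_right e3 (by positivity)
    linarith
  · obtain ⟨k1, _, k3, _, _⟩ := K_bounds W h k hs
    have e1 : lift 0 (W.Bt k 0) = lift 0 (fun ξ => W.al k * W.u k ξ) + lift 0 (W.Co k 0) := by
      rw [← (lift_linear _ _ hφ (k3 0) 0 0).1]
      congr 1
      funext ξ
      unfold World.Bt
      rw [hB0]
    rw [e1, add_sub_cancel_left]
    have e2 := (lift_norm _ (k3 0) 0).1
    have e3 := int_sq_le616 (φ := W.Co k 0) _ (k1 0)
    have e4 : ‖lift 0 (W.Co k 0)‖ ^ 2 ≤ (82 * W.mm k) ^ 2 := by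
      calc ‖lift 0 (W.Co k 0)‖ ^ 2 ≤ 2 * π * (2 * π * (13 * W.mm k) ^ 2) :=
            e2.trans (mul_le_mul_of_nonneg_left e3 (by positivity))
        _ = 676 * π ^ 2 * (W.mm k) ^ 2 := by ring
        _ ≤ 6724 * (W.mm k) ^ 2 := by
            refine mul_le_mul_of_nonneg_right ?_ (by positivity)
            nlinarith
        _ = _ := by ring
    exact (pow_le_pow_iff_left₀ (norm_nonneg _) (by positivity) two_ne_zero).1 e4

end Haraux
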