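import Pool.Agent.Helper27.Har.Base

set_option autoImplicit false

open MeasureTheory Set Real Filter Topology
open scoped ENNReal NNReal

namespace Haraux



theorem toK_add (F G : ℝ × ℝ → ℝ) (hF : MemLp F 2 (volume.restrict sq))
    (hG : MemLp G 2 (volume.restrict sq)) : toK (fun q => F q + G q) = toK F + toK G ∧
    toK (fun q => F q - G q) = toK F - toK G ∧ toK (fun q => -F q) = -toK F ∧
    (∀ c : ℝ, toK (fun q => c * F q) = c • toK F) := by
  have hadd : MemLp (fun q => F q + G q) 2 (volume.restrict sq) := hF.add hG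
  have hsub : MemLp (fun q => F q - G q) 2 (volume.restrict sq) := hF.sub hG
  have hneg : MemLp (fun q => -F q) 2 (volume.restrict sq) := hF.neg
  have hsm : ∀ c : ℝ, MemLp (fun q => c * F q) 2 (volume.restrict sq) := fun c => hF.const_mul c
  unfold toK
  rw [dif_pos hadd, dif_pos hsub, dif_pos hneg, dif_pos hF, dif_pos hG]
  refine ⟨?_, ?_, ?_, ?_⟩
  · exact MemLp.toLp_add hF hG
  · exact MemLp.toLp_sub hF hG
  · exact MemLp.toLp_neg hF
  · intro c
    rw [dif_pos (hsm c)]
    exact MemLp.toLp_const_smul c hF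

end Haraux
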