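import Pool.Agent.Helper27.Har.Base
import Pool.Agent.Helper27.Har.P_world_basic
import Pool.Agent.Helper27.Har.P_level_facts
import Pool.Agent.Helper27.Har.P_prof_facts
import Pool.Agent.Helper27.Har.P_zpj_bound
import Pool.Agent.Helper27.Har.P_toK_inner
import Pool.Agent.Helper27.Har.P_toK_ae
import Pool.Agent.Helper27.Har.P_toK_add
import Pool.Agent.Helper27.Har.P_field_coef

set_option autoImplicit false

open MeasureTheory Set Real Filter Topology
open scoped ENNReal NNReal

namespace Haraux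



/-- continuity and periodicity of the linear part of the forcing -/
theorem hp_cont (W : World) (h : W.Reg) : Continuous W.hp ∧
    (∀ (t : ℝ) (m : ℕ), W.hp (t + 2 * π * m) = W.hp t) ∧
    (∀ t, Summable (fun j => W.hj j t)) := by
  haveI hfin : IsFiniteMeasure (volume.restrict sq : Measure (ℝ × ℝ)) := by
    refine ⟨?_⟩
    rw [Measure.restrict_apply_univ, Measure.volume_eq_prod, Measure.prod_prod, Real.volume_Ioo]
    exact ENNReal.mul_lt_top ENNReal.ofReal_lt_top ENNReal.ofReal_lt_top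
  have hsum : Summable (fun j => 100 * (W.La j * √(W.lam j) + W.La (j + 1) * √(W.kap j)
      + W.La (j + 1) * (W.mu j + W.nu j) / (W.d j) ^ 2)) := h.num.summ.mul_left 100
  have hcont : ∀ j, Continuous (W.hj j) := by
    intro j
    obtain ⟨-, -, hbp, -, -, hprim, -, -, -⟩ := level_facts W h j
    obtain ⟨C, hC⟩ := hbp.bdd
    obtain ⟨hprof, -, -, -, hp2⟩ := prof_facts (W.d j) (h.num.d_pos j) (h.num.d_le j)
    have hC0 : 0 ≤ C := (abs_nonneg _).trans (hC 0)
    have hLip : ∀ a b : ℝ, |W.Bl j b - W.Bl j a| ≤ C * |b - a| := by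
      intro a b
      rw [← hprim.prim a b]
      have := intervalIntegral.norm_integral_le_of_norm_le_const (a := a) (b := b) (f := W.bl j) (C := C)
        (fun x _ => by rw [Real.norm_eq_abs]; exact hC x)
      rw [Real.norm_eq_abs] at this
      exact this
    have hd2 : 0 < 12 / (W.d j) ^ 2 := by have := h.num.d_pos j; positivity
    have hm : ∀ t, MemLp (fun q : ℝ × ℝ => -prof2 (W.d j) q.2 * (W.Bl j (t + q.1) - W.Bl j (t - q.1))) 2
        (volume.restrict sq) := fun t =>
      (field_coef (fun y => -prof2 (W.d j) y) (W.Bl j) hprof.cont.neg hprim.bp t (0, 0)).1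
    refine (LipschitzWith.of_dist_le' (K := (measureUnivNNReal (volume.restrict sq : Measure (ℝ × ℝ)) : ℝ) ^
      (ENNReal.toReal 2)⁻¹ * (12 / (W.d j) ^ 2 * (2 * C))) ?_).continuous
    intro t s
    rw [dist_eq_norm, Real.dist_eq]
    have e : W.hj j t - W.hj j s = toK (fun q : ℝ × ℝ =>
        (-prof2 (W.d j) q.2 * (W.Bl j (t + q.1) - W.Bl j (t - q.1))) -
        (-prof2 (W.d j) q.2 * (W.Bl j (s + q.1) - W.Bl j (s - q.1)))) := by
      rw [(toK_add _ _ (hm t) (hm s)).2.1]
      rfl
    rw [e]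
    have hmm := (hm t).sub (hm s)
    have hb := Lp.norm_le_of_ae_bound (μ := (volume.restrict sq : Measure (ℝ × ℝ))) (p := 2)
      (f := toK (fun q : ℝ × ℝ =>
        (-prof2 (W.d j) q.2 * (W.Bl j (t + q.1) - W.Bl j (t - q.1))) -
        (-prof2 (W.d j) q.2 * (W.Bl j (s + q.1) - W.Bl j (s - q.1)))))
      (C := 12 / (W.d j) ^ 2 * (2 * C * |t - s|)) (by positivity) ?_
    · refine hb.trans (le_of_eq ?_)
      ring
    · have hae := toK_ae _ hmm
      have hmem : ∀ᵐ q ∂(volume.restrict sq : Measure (ℝ × ℝ)), q ∈ sq :=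
        ae_restrict_mem (measurableSet_Ioo.prod measurableSet_Ioo)
      filter_upwards [hae, hmem] with q hq hqs
      have hq' : (toK (fun q : ℝ × ℝ =>
        (-prof2 (W.d j) q.2 * (W.Bl j (t + q.1) - W.Bl j (t - q.1))) -
        (-prof2 (W.d j) q.2 * (W.Bl j (s + q.1) - W.Bl j (s - q.1)))) : ℝ × ℝ → ℝ) q =
        (-prof2 (W.d j) q.2 * (W.Bl j (t + q.1) - W.Bl j (t - q.1))) -
        (-prof2 (W.d j) q.2 * (W.Bl j (s + q.1) - W.Bl j (s - q.1))) := hq
      rw [hq', Real.norm_eq_abs]
      have e2 : (-prof2 (W.d j) q.2 * (W.Bl j (t + q.1) - W.Bl j (t - q.1))) -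
        (-prof2 (W.d j) q.2 * (W.Bl j (s + q.1) - W.Bl j (s - q.1))) =
        (-prof2 (W.d j) q.2) * ((W.Bl j (t + q.1) - W.Bl j (s + q.1)) -
          (W.Bl j (t - q.1) - W.Bl j (s - q.1))) := by ring
      rw [e2, abs_mul, abs_neg]
      have b1 : |prof2 (W.d j) q.2| ≤ 12 / (W.d j) ^ 2 := hp2 _ hqs.2.1.le hqs.2.2.le
      have b2 := hLip (s + q.1) (t + q.1)
      have b3 := hLip (s - q.1) (t - q.1)
      have e3 : t + q.1 - (s + q.1) = t - s := by ring
      have e4 : t - q.1 - (s - q.1) = t - s := by ring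
      rw [e3] at b2
      rw [e4] at b3
      have b4 : |(W.Bl j (t + q.1) - W.Bl j (s + q.1)) - (W.Bl j (t - q.1) - W.Bl j (s - q.1))| ≤
          2 * C * |t - s| := by
        refine (abs_sub _ _).trans ?_
        linarith
      exact mul_le_mul b1 b4 (abs_nonneg _) hd2.le
  refine ⟨?_, ?_, ?_⟩
  · show Continuous (fun t => ∑' j, W.hj j t)
    exact continuous_tsum hcont hsum (fun j t => (zpj_bound W h j t).2)
  · intro t m
    show ∑' j, W.hj j (t + 2 * π * m) = ∑' j, W.hj j t
    congr 1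
    funext j
    obtain ⟨-, -, hbp, -, -, hprim, -, -, -⟩ := level_facts W h j
    have hper := hprim.bp.per.nat_mul m
    show toK _ = toK _
    congr 1
    funext q
    have e1 : t + 2 * π * m + q.1 = (t + q.1) + m * (2 * π) := by ring
    have e2 : t + 2 * π * m - q.1 = (t - q.1) + m * (2 * π) := by ring
    rw [e1, e2, hper, hper]
  · intro t
    exact Summable.of_norm_bounded hsum (fun j => (zpj_bound W h j t).2)

end Haraux
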