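import Pool.Agent.Helper27.Har.Base

set_option autoImplicit false

open MeasureTheory Set Real Filter Topology
open scoped ENNReal NNReal

namespace Haraux



private theorem Ec_period (n : ℕ) (t : ℝ) (φ : ℝ → ℝ) (m : ℕ) :
    Ec n (t + 2 * π * m) φ = Ec n t φ := by
  unfold Ec
  congr 1
  apply intervalIntegral.integral_congr
  intro x _
  show φ x * Real.cos (((n : ℝ) + 1) * (x - (t + 2 * π * m))) =
    φ x * Real.cos (((n : ℝ) + 1) * (x - t))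
  have h : ((n : ℝ) + 1) * (x - (t + 2 * π * m)) =
      ((n : ℝ) + 1) * (x - t) - ((n + 1) * m : ℕ) * (2 * π) := by
    push_cast; ring
  rw [h, Real.cos_sub_nat_mul_two_pi]

private theorem Vc_period (n : ℕ) (t : ℝ) (φ : ℝ → ℝ) (m : ℕ) :
    Vc n (t + 2 * π * m) φ = Vc n t φ := by
  unfold Vc
  apply intervalIntegral.integral_congr
  intro x _
  show φ x * Real.sin (((n : ℝ) + 1) * (x - (t + 2 * π * m))) =
    φ x * Real.sin (((n : ℝ) + 1) * (x - t))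
  have h : ((n : ℝ) + 1) * (x - (t + 2 * π * m)) =
      ((n : ℝ) + 1) * (x - t) - ((n + 1) * m : ℕ) * (2 * π) := by
    push_cast; ring
  rw [h, Real.sin_sub_nat_mul_two_pi]

/-- lifts are `2π`-periodic in time -/
theorem lift_period (ψ φ : ℝ → ℝ) (t : ℝ) (m : ℕ) : glift ψ (t + 2 * π * m) φ = glift ψ t φ := by
  have h1 : (fun i : ℕ × ℕ => Ec i.1 (t + 2 * π * m) φ) = fun i : ℕ × ℕ => Ec i.1 t φ := by
    funext i; exact Ec_period _ _ _ _
  have h : (fun i : ℕ × ℕ => ((psc ψ i.2 * (om i * Ec i.1 (t + 2 * π * m) φ) : ℝ) : ℂ)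
      + Complex.I * ((psc ψ i.2 * Vc i.1 (t + 2 * π * m) φ : ℝ) : ℂ)) =
      (fun i : ℕ × ℕ => ((psc ψ i.2 * (om i * Ec i.1 t φ) : ℝ) : ℂ)
      + Complex.I * ((psc ψ i.2 * Vc i.1 t φ : ℝ) : ℂ)) := by
    funext i
    rw [Ec_period, Vc_period]
  by_cases hm : Memℓp (fun i : ℕ × ℕ => ((psc ψ i.2 * (om i * Ec i.1 t φ) : ℝ) : ℂ)
      + Complex.I * ((psc ψ i.2 * Vc i.1 t φ : ℝ) : ℂ)) 2
  · have hm' : Memℓp (fun i : ℕ × ℕ => ((psc ψ i.2 * (om i * Ec i.1 (t + 2 * π * m) φ) : ℝ) : ℂ)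
      + Complex.I * ((psc ψ i.2 * Vc i.1 (t + 2 * π * m) φ : ℝ) : ℂ)) 2 := by
      rw [h]; exact hm
    unfold glift
    rw [dif_pos hm, dif_pos hm']
    apply Subtype.ext
    exact h
  · have hm' : ¬ Memℓp (fun i : ℕ × ℕ => ((psc ψ i.2 * (om i * Ec i.1 (t + 2 * π * m) φ) : ℝ) : ℂ)
      + Complex.I * ((psc ψ i.2 * Vc i.1 (t + 2 * π * m) φ : ℝ) : ℂ)) 2 := by
      rw [h]; exact hm
    unfold glift
    rw [dif_neg hm, dif_neg hm']

end Haraux
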