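import Pool.Agent.Helper27.Har.Base
import Pool.Agent.Helper27.Har.P_glift_apply
import Pool.Agent.Helper27.Har.P_Ec_prim
import Pool.Agent.Helper27.Har.P_field_coef
import Pool.Agent.Helper27.Har.P_psc_prof
import Pool.Agent.Helper27.Har.P_kick_apply

set_option autoImplicit false

open MeasureTheory Set Real Filter Topology
open scoped ENNReal NNReal

namespace Haraux



private theorem j12973_ii (φ : ℝ → ℝ) (h : BP φ) : IntervalIntegrable φ volume 0 (2 * π) := by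
  obtain ⟨C, hC⟩ := h.bdd
  refine (intervalIntegrable_const (c := C)).mono_fun h.meas.aestronglyMeasurable ?_
  refine Filter.Eventually.of_forall fun x => ?_
  show |φ x| ≤ |C|
  exact (hC x).trans (le_abs_self C)

private theorem j12973_Ec (φ : ℝ → ℝ) (h : BP φ) (n : ℕ) (s : ℝ) :
    Ec n s φ = (Real.cos (((n : ℝ) + 1) * s) * (∫ x in (0:ℝ)..(2 * π), φ x * Real.cos (((n : ℝ) + 1) * x))
      + Real.sin (((n : ℝ) + 1) * s) * (∫ x in (0:ℝ)..(2 * π), φ x * Real.sin (((n : ℝ) + 1) * x)))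
        / ((n : ℝ) + 1) := by
  have h1 : IntervalIntegrable (fun x => φ x * Real.cos (((n : ℝ) + 1) * x)) volume 0 (2 * π) :=
    (j12973_ii φ h).mul_continuousOn (by fun_prop)
  have h2 : IntervalIntegrable (fun x => φ x * Real.sin (((n : ℝ) + 1) * x)) volume 0 (2 * π) :=
    (j12973_ii φ h).mul_continuousOn (by fun_prop)
  unfold Ec
  congr 1
  rw [← intervalIntegral.integral_const_mul, ← intervalIntegral.integral_const_mul,
    ← intervalIntegral.integral_add (h1.const_mul _) (h2.const_mul _)]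
  refine intervalIntegral.integral_congr fun x _ => ?_
  rw [mul_sub, Real.cos_sub]
  ring

private theorem j12973_Vc (φ : ℝ → ℝ) (h : BP φ) (n : ℕ) (s : ℝ) :
    Vc n s φ = Real.cos (((n : ℝ) + 1) * s) * (∫ x in (0:ℝ)..(2 * π), φ x * Real.sin (((n : ℝ) + 1) * x))
      - Real.sin (((n : ℝ) + 1) * s) * (∫ x in (0:ℝ)..(2 * π), φ x * Real.cos (((n : ℝ) + 1) * x)) := by
  have h1 : IntervalIntegrable (fun x => φ x * Real.cos (((n : ℝ) + 1) * x)) volume 0 (2 * π) :=
    (j12973_ii φ h).mul_continuousOn (by fun_prop)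
  have h2 : IntervalIntegrable (fun x => φ x * Real.sin (((n : ℝ) + 1) * x)) volume 0 (2 * π) :=
    (j12973_ii φ h).mul_continuousOn (by fun_prop)
  unfold Vc
  rw [← intervalIntegral.integral_const_mul, ← intervalIntegral.integral_const_mul,
    ← intervalIntegral.integral_sub (h2.const_mul _) (h1.const_mul _)]
  refine intervalIntegral.integral_congr fun x _ => ?_
  rw [mul_sub, Real.sin_sub]
  ring

private theorem j12973_dcos (N t : ℝ) :
    HasDerivAt (fun s => Real.cos (N * s)) (-(N * Real.sin (N * t))) t := by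
  have h1 : HasDerivAt (fun s : ℝ => N * s) N t := by
    simpa using (hasDerivAt_id t).const_mul N
  have h2 := h1.cos
  convert h2 using 1
  ring

private theorem j12973_dsin (N t : ℝ) :
    HasDerivAt (fun s => Real.sin (N * s)) (N * Real.cos (N * t)) t := by
  have h1 : HasDerivAt (fun s : ℝ => N * s) N t := by
    simpa using (hasDerivAt_id t).const_mul N
  have h2 := h1.sin
  convert h2 using 1
  ring

private theorem j12973_dEc (φ : ℝ → ℝ) (h : BP φ) (n : ℕ) (t : ℝ) :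
    HasDerivAt (fun s => Ec n s φ) (Vc n t φ) t := by
  have hN : (n : ℝ) + 1 ≠ 0 := by positivity
  have h1 := (((j12973_dcos ((n : ℝ) + 1) t).mul_const
      (∫ x in (0:ℝ)..(2 * π), φ x * Real.cos (((n : ℝ) + 1) * x))).add
    ((j12973_dsin ((n : ℝ) + 1) t).mul_const
      (∫ x in (0:ℝ)..(2 * π), φ x * Real.sin (((n : ℝ) + 1) * x)))).div_const ((n : ℝ) + 1)
  have h2 : (fun s => Ec n s φ) = fun s => (Real.cos (((n : ℝ) + 1) * s) *
      (∫ x in (0:ℝ)..(2 * π), φ x * Real.cos (((n : ℝ) + 1) * x))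
      + Real.sin (((n : ℝ) + 1) * s) * (∫ x in (0:ℝ)..(2 * π), φ x * Real.sin (((n : ℝ) + 1) * x)))
        / ((n : ℝ) + 1) := funext fun s => j12973_Ec φ h n s
  rw [h2, j12973_Vc φ h]
  refine h1.congr_deriv ?_
  field_simp
  ring

private theorem j12973_dVc (φ : ℝ → ℝ) (h : BP φ) (n : ℕ) (t : ℝ) :
    HasDerivAt (fun s => Vc n s φ) (-((n : ℝ) + 1) ^ 2 * Ec n t φ) t := by
  have hN : (n : ℝ) + 1 ≠ 0 := by positivity
  have h1 := (((j12973_dcos ((n : ℝ) + 1) t).mul_const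
      (∫ x in (0:ℝ)..(2 * π), φ x * Real.sin (((n : ℝ) + 1) * x))).sub
    ((j12973_dsin ((n : ℝ) + 1) t).mul_const
      (∫ x in (0:ℝ)..(2 * π), φ x * Real.cos (((n : ℝ) + 1) * x))))
  have h2 : (fun s => Vc n s φ) = fun s => Real.cos (((n : ℝ) + 1) * s) *
      (∫ x in (0:ℝ)..(2 * π), φ x * Real.sin (((n : ℝ) + 1) * x))
      - Real.sin (((n : ℝ) + 1) * s) * (∫ x in (0:ℝ)..(2 * π), φ x * Real.cos (((n : ℝ) + 1) * x)) :=
    funext fun s => j12973_Vc φ h n s
  rw [h2, j12973_Ec φ h]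
  refine h1.congr_deriv ?_
  field_simp
  ring

private theorem j12973_psc (ψ : ℝ → ℝ) (l : ℕ) : psc (fun y => -ψ y) l = -psc ψ l := by
  unfold psc
  simp only [neg_mul, intervalIntegral.integral_neg]
  ring

/-- the lift of a fixed function solves the wave equation with a right-hand side -/
theorem glift_ode (ψ ψ1 ψ2 φ Φ : ℝ → ℝ) (hψ : Prof ψ ψ1 ψ2) (h : BP φ) (hΦ : IsPrim φ Φ)
    (t : ℝ) (i : ℕ × ℕ) :
    HasDerivAt (fun s => glift ψ s φ i) (-(Complex.I * (om i : ℂ)) * glift ψ t φ i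
      + kick (toK (fun q => -ψ2 q.2 * (Φ (t + q.1) - Φ (t - q.1)))) i) t := by
  have hom : (om i) ^ 2 = ((i.1 : ℝ) + 1) ^ 2 + ((i.2 : ℝ) + 1) ^ 2 := by
    unfold om
    rw [Real.sq_sqrt (by positivity)]
  have h0 : (fun s => glift ψ s φ i) = fun s => ((psc ψ i.2 * (om i * Ec i.1 s φ) : ℝ) : ℂ)
      + Complex.I * ((psc ψ i.2 * Vc i.1 s φ : ℝ) : ℂ) :=
    funext fun s => glift_apply ψ ψ1 ψ2 φ hψ h s i
  rw [h0, glift_apply ψ ψ1 ψ2 φ hψ h t i, kick_apply,
    (field_coef (fun y => -ψ2 y) Φ hψ.cont.neg hΦ.bp t i).2, j12973_psc,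
    psc_prof.1 ψ ψ1 ψ2 hψ, ← (Ec_prim φ Φ h hΦ).1]
  have h1 := (((j12973_dEc φ h i.1 t).const_mul (om i)).const_mul (psc ψ i.2)).ofReal_comp
  have h2 := ((((j12973_dVc φ h i.1 t).const_mul (psc ψ i.2)).ofReal_comp).const_mul Complex.I)
  refine (h1.add h2).congr_deriv ?_
  have h3 : ((om i : ℝ) : ℂ) ^ 2 = ((i.1 : ℂ) + 1) ^ 2 + ((i.2 : ℂ) + 1) ^ 2 := by
    have := congrArg (fun r : ℝ => (r : ℂ)) hom
    push_cast at this
    exact this
  push_cast
  linear_combination (Complex.I * (psc ψ i.2 : ℂ) * (Ec i.1 t φ : ℂ)) * h3 +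
    ((om i : ℂ) * (psc ψ i.2 : ℂ) * (Vc i.1 t φ : ℂ)) * Complex.I_sq

end Haraux
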