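import Pool.Agent.Helper27.Har.Base
import Pool.Agent.Helper27.Har.P_world_basic
import Pool.Agent.Helper27.Har.P_level_facts
import Pool.Agent.Helper27.Har.P_prof_facts
import Pool.Agent.Helper27.Har.P_zpj_bound
import Pool.Agent.Helper27.Har.P_glift_ode
import Pool.Agent.Helper27.Har.P_rin_facts
import Pool.Agent.Helper27.Har.P_kick_apply
import Pool.Agent.Helper27.Har.P_hp_cont

set_option autoImplicit false

open MeasureTheory Set Real Filter Topology
open scoped ENNReal NNReal

namespace Haraux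



/-- the particular solution: equation in coordinates -/
theorem zp_ode (W : World) (h : W.Reg) (t : ℝ) (i : ℕ × ℕ) :
    HasDerivAt (fun s => W.zp s i) (-(Complex.I * (om i : ℂ)) * W.zp t i + kick (W.hp t) i) t := by
  obtain ⟨_, _, hsumh⟩ := hp_cont W h
  obtain ⟨_, _, _, _, _, _, _, _, _, _, _, _, hkadd, _, _, hknorm, hkc, _⟩ := rin_facts
  set b : ℕ → ℝ := fun j => W.La j * √(W.lam j) + W.La (j + 1) * √(W.kap j)
    + W.La (j + 1) * (W.mu j + W.nu j) / (W.d j) ^ 2 with hb
  have hbs : Summable b := h.num.summ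
  have hz : ∀ j s, ‖W.zpj j s‖ ≤ 100 * b j := fun j s => (zpj_bound W h j s).1
  have hh : ∀ j s, ‖W.hj j s‖ ≤ 100 * b j := fun j s => (zpj_bound W h j s).2
  have hzs : ∀ s, Summable (fun j => W.zpj j s) := fun s =>
    Summable.of_norm_bounded (hbs.mul_left 100) (fun j => hz j s)
  have hev : ∀ z : HZ, ‖z i‖ ≤ ‖z‖ := fun z => lp.norm_apply_le_norm (by norm_num) z i
  let ev : HZ →L[ℂ] ℂ := LinearMap.mkContinuous
    { toFun := fun z => z i
      map_add' := fun _ _ => rfl
      map_smul' := fun _ _ => rfl } 1 (fun z => by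
        rw [one_mul]
        exact hev z)
  have hevf : ∀ z : HZ, ev z = z i := fun _ => rfl
  have hzev : ∀ s, HasSum (fun j => W.zpj j s i) (W.zp s i) := fun s =>
    ev.hasSum (hzs s).hasSum
  have hkick : HasSum (fun j => kick (W.hj j t) i) (kick (W.hp t) i) := by
    have h1 : HasSum (fun j => W.hj j t) (W.hp t) := (hsumh t).hasSum
    have h2 := h1.map (AddMonoidHom.mk' kick hkadd) hkc
    exact ev.hasSum h2
  have hom : 0 ≤ om i := Real.sqrt_nonneg _
  have key := hasDerivAt_tsum (𝕜 := ℝ) (F := ℂ) (u := fun j => (om i + 1) * (100 * b j))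
    (g := fun j s => W.zpj j s i)
    (g' := fun j s => -(Complex.I * (om i : ℂ)) * W.zpj j s i + kick (W.hj j s) i)
    ((hbs.mul_left 100).mul_left _)
    (fun j s => by
      obtain ⟨_, _, hbp, _, _, hprim, _, _, _⟩ := level_facts W h j
      exact glift_ode (prof (W.d j)) (prof1 (W.d j)) (prof2 (W.d j)) (W.bl j) (W.Bl j)
        (prof_facts (W.d j) (h.num.d_pos j) (h.num.d_le j)).1 hbp hprim s i)
    (fun j s => by
      have h1 : ‖-(Complex.I * (om i : ℂ)) * W.zpj j s i‖ ≤ om i * (100 * b j) := by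
        rw [norm_mul, norm_neg, norm_mul, Complex.norm_I, one_mul, Complex.norm_real,
          Real.norm_of_nonneg hom]
        exact mul_le_mul_of_nonneg_left ((hev _).trans (hz j s)) hom
      have h2 : ‖kick (W.hj j s) i‖ ≤ 100 * b j :=
        (hev _).trans (by rw [hknorm]; exact hh j s)
      calc _ ≤ ‖-(Complex.I * (om i : ℂ)) * W.zpj j s i‖ + ‖kick (W.hj j s) i‖ := norm_add_le _ _
        _ ≤ om i * (100 * b j) + 100 * b j := add_le_add h1 h2
        _ = (om i + 1) * (100 * b j) := by ring)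
    (y₀ := t) (hzev t).summable t
  have e1 : (fun s => ∑' j, W.zpj j s i) = fun s => W.zp s i := by
    funext s
    exact (hzev s).tsum_eq
  have e2 : ∑' j, (-(Complex.I * (om i : ℂ)) * W.zpj j t i + kick (W.hj j t) i)
      = -(Complex.I * (om i : ℂ)) * W.zp t i + kick (W.hp t) i :=
    (((hzev t).mul_left _).add hkick).tsum_eq
  rw [e1, e2] at key
  exact key

end Haraux
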