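import Pool.Agent.Helper27.Har.Base
import Pool.Agent.Helper27.Har.P_world_basic
import Pool.Agent.Helper27.Har.P_zpj_bound
import Pool.Agent.Helper27.Har.P_hp_cont
import Pool.Agent.Helper27.Har.P_zp_ode
import Pool.Agent.Helper27.Har.P_cont_of_ode
import Pool.Agent.Helper27.Har.P_rin_facts
import Pool.Agent.Helper27.Har.P_gL_facts
import Pool.Agent.Helper27.Har.P_lift_period

set_option autoImplicit false

open MeasureTheory Set Real Filter Topology
open scoped ENNReal NNReal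

namespace Haraux



/-- the particular solution -/
theorem zp_sol (W : World) (h : W.Reg) : IsSol W.NN W.zp ∧ Continuous W.f ∧
    (∀ (t : ℝ) (m : ℕ), W.zp (t + 2 * π * m) = W.zp t) ∧
    (∀ (t : ℝ) (m : ℕ), W.f (t + 2 * π * m) = W.f t) ∧
    Continuous (Function.uncurry W.NN) ∧ (∀ t, LipschitzWith 1 (W.NN t)) ∧
    (∀ t v w, 0 ≤ inner ℝ (W.NN t v - W.NN t w) (v - w)) ∧
    (∃ C, ∀ t, ‖W.zp t‖ ≤ C) := by
  obtain ⟨hhpc, hhpp, hsumh⟩ := hp_cont W h
  obtain ⟨_, _, _, _, _, _, _, _, _, _, _, hvelc, hkadd, _, hkneg, hknorm, hkc, _⟩ := rin_facts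
  obtain ⟨hgl, hgm, _⟩ := gL_facts
  set b : ℕ → ℝ := fun j => W.La j * √(W.lam j) + W.La (j + 1) * √(W.kap j)
    + W.La (j + 1) * (W.mu j + W.nu j) / (W.d j) ^ 2 with hb
  have hbs : Summable b := h.num.summ
  have hz : ∀ j s, ‖W.zpj j s‖ ≤ 100 * b j := fun j s => (zpj_bound W h j s).1
  have hh : ∀ j s, ‖W.hj j s‖ ≤ 100 * b j := fun j s => (zpj_bound W h j s).2
  have hzb : ∀ s, ‖W.zp s‖ ≤ ∑' j, 100 * b j := fun s =>
    tsum_of_norm_bounded (hbs.mul_left 100).hasSum (fun j => hz j s)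
  have hhb : ∀ s, ‖W.hp s‖ ≤ ∑' j, 100 * b j := fun s =>
    tsum_of_norm_bounded (hbs.mul_left 100).hasSum (fun j => hh j s)
  have hzc : Continuous W.zp := by
    refine cont_of_ode W.zp (fun t => kick (W.hp t)) (fun t i => zp_ode W h t i) ?_
    intro R
    refine ⟨∑' j, 100 * b j, fun t _ => ⟨hzb t, ?_⟩⟩
    rw [hknorm]
    exact hhb t
  have hfc : Continuous W.f := by
    have h1 : Continuous (fun t => gL (vel (W.zp t))) := hgl.continuous.comp (hvelc.comp hzc)
    exact hhpc.add h1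
  have hzp : ∀ (t : ℝ) (m : ℕ), W.zp (t + 2 * π * m) = W.zp t := by
    intro t m
    exact tsum_congr fun j => lift_period (prof (W.d j)) (W.bl j) t m
  refine ⟨⟨hzc, ?_⟩, hfc, hzp, ?_, ?_, ?_, ?_, ⟨_, hzb⟩⟩
  · intro t i
    have h1 := zp_ode W h t i
    have h2 : W.NN t (vel (W.zp t)) = -W.hp t := by
      change gL (vel (W.zp t)) - (W.hp t + gL (vel (W.zp t))) = -W.hp t
      abel
    have h3 : kick (W.NN t (vel (W.zp t))) i = -kick (W.hp t) i := by
      rw [h2, hkneg]
      rfl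
    rw [h3, sub_neg_eq_add]
    exact h1
  · intro t m
    change W.hp (t + 2 * π * m) + gL (vel (W.zp (t + 2 * π * m))) = W.hp t + gL (vel (W.zp t))
    rw [hhpp, hzp]
  · have h1 : Continuous (fun p : ℝ × KK => gL p.2 - W.f p.1) :=
      (hgl.continuous.comp continuous_snd).sub (hfc.comp continuous_fst)
    exact h1
  · intro t
    refine LipschitzWith.of_dist_le_mul fun v w => ?_
    change dist (gL v - W.f t) (gL w - W.f t) ≤ _
    rw [dist_sub_right]
    exact hgl.dist_le_mul v w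
  · intro t v w
    have h1 : W.NN t v - W.NN t w = gL v - gL w := by
      change (gL v - W.f t) - (gL w - W.f t) = _
      abel
    rw [h1]
    exact hgm v w

end Haraux
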