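import Pool.Agent.Helper27.Har.Base
import Pool.Agent.Helper27.Har.P_world_basic
import Pool.Agent.Helper27.Har.P_stage_ineq
import Pool.Agent.Helper27.Har.P_zp_sol
import Pool.Agent.Helper27.Har.P_corr_identity
import Pool.Agent.Helper27.Har.P_sol_diff
import Pool.Agent.Helper27.Har.P_contraction
import Pool.Agent.Helper27.Har.P_rin_facts
import Pool.Agent.Helper27.Har.P_pseudo_ode
import Pool.Agent.Helper27.Har.P_field_bound
import Pool.Agent.Helper27.Har.P_residual_norm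
import Pool.Agent.Helper27.Har.P_vel_glift
import Pool.Agent.Helper27.Har.P_psc_prof
import Pool.Agent.Helper27.Har.P_Bt_facts
import Pool.Agent.Helper27.Har.P_start_state

set_option autoImplicit false

open MeasureTheory Set Real Filter Topology
open scoped ENNReal NNReal

namespace Haraux



private theorem cl_bound_of_ode (z h : ℝ → HZ) (T C : ℝ)
    (hz : ∀ (t : ℝ) (i : ℕ × ℕ),
      HasDerivAt (fun s => z s i) (-(Complex.I * (om i : ℂ)) * z t i + h t i) t)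
    (hh : ∀ t, ‖h t‖ ≤ C) (t : ℝ) (ht : t ∈ Icc 0 T) :
    ‖z t‖ ^ 2 ≤ (‖z 0‖ ^ 2 + C ^ 2) * Real.exp T := by
  obtain ⟨-, f2, -, -, -, -, f7, -⟩ := rin_facts
  have hC : 0 ≤ C := (norm_nonneg _).trans (hh 0)
  rw [← f2 (z t)]
  refine hasSum_le_of_sum_le (f7 (z t) (z t)) ?_
  intro F
  set e : ℝ → ℝ := fun s => ∑ i ∈ F, ((z s i).re * (z s i).re + (z s i).im * (z s i).im) with he
  have hde : ∀ s, HasDerivAt e
      (∑ i ∈ F, 2 * ((z s i).re * (h s i).re + (z s i).im * (h s i).im)) s := by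
    intro s
    refine HasDerivAt.fun_sum (fun i _ => ?_)
    have hi := hz s i
    have hre : HasDerivAt (fun r => (z r i).re)
        ((-(Complex.I * (om i : ℂ)) * z s i + h s i).re) s :=
      Complex.reCLM.hasFDerivAt.comp_hasDerivAt s hi
    have him : HasDerivAt (fun r => (z r i).im)
        ((-(Complex.I * (om i : ℂ)) * z s i + h s i).im) s :=
      Complex.imCLM.hasFDerivAt.comp_hasDerivAt s hi
    have h3 := (hre.mul hre).add (him.mul him)
    have h4 : 2 * ((z s i).re * (h s i).re + (z s i).im * (h s i).im)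
        = (-(Complex.I * (om i : ℂ)) * z s i + h s i).re * (z s i).re +
          (z s i).re * (-(Complex.I * (om i : ℂ)) * z s i + h s i).re +
        ((-(Complex.I * (om i : ℂ)) * z s i + h s i).im * (z s i).im +
          (z s i).im * (-(Complex.I * (om i : ℂ)) * z s i + h s i).im) := by
      simp only [Complex.add_re, Complex.add_im, Complex.neg_re, Complex.neg_im, Complex.mul_re,
        Complex.mul_im, Complex.I_re, Complex.I_im, Complex.ofReal_re, Complex.ofReal_im]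
      ring
    rw [h4]
    exact h3
  have hsum : ∀ s, ∑ i ∈ F, ((h s i).re * (h s i).re + (h s i).im * (h s i).im) ≤ C ^ 2 := by
    intro s
    have h1 := sum_le_hasSum F (fun i _ => by nlinarith [mul_self_nonneg (h s i).re, mul_self_nonneg (h s i).im])
      (f7 (h s) (h s))
    rw [f2] at h1
    refine h1.trans ?_
    exact pow_le_pow_left₀ (norm_nonneg _) (hh s) 2
  have hdle : ∀ s, ∑ i ∈ F, 2 * ((z s i).re * (h s i).re + (z s i).im * (h s i).im)
      ≤ e s + C ^ 2 := by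
    intro s
    refine le_trans ?_ (add_le_add le_rfl (hsum s))
    rw [he, ← Finset.sum_add_distrib]
    refine Finset.sum_le_sum (fun i _ => ?_)
    nlinarith [sq_nonneg ((z s i).re - (h s i).re), sq_nonneg ((z s i).im - (h s i).im)]
  have hg : Antitone (fun s => (e s + C ^ 2) * Real.exp (-s)) := by
    refine antitone_of_hasDerivAt_nonpos (f' := fun s =>
      (∑ i ∈ F, 2 * ((z s i).re * (h s i).re + (z s i).im * (h s i).im)) * Real.exp (-s)
        + (e s + C ^ 2) * (Real.exp (-s) * (-1))) ?_ ?_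
    · intro s
      refine ((hde s).add_const _).mul ?_
      exact (hasDerivAt_id s).neg.exp
    · intro s
      have h1 := hdle s
      have h2 := Real.exp_pos (-s)
      simp only [Pi.zero_apply]
      nlinarith [mul_le_mul_of_nonneg_right h1 h2.le]
  have h1 := hg ht.1
  simp only [neg_zero, Real.exp_zero, mul_one] at h1
  have h2 : e 0 ≤ ‖z 0‖ ^ 2 := by
    rw [← f2 (z 0)]
    exact sum_le_hasSum F (fun i _ => by nlinarith [mul_self_nonneg (z 0 i).re, mul_self_nonneg (z 0 i).im])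
      (f7 (z 0) (z 0))
  have h3 : e t + C ^ 2 ≤ (e 0 + C ^ 2) * Real.exp t := by
    have h4 := mul_le_mul_of_nonneg_right h1 (Real.exp_pos t).le
    rwa [mul_assoc, ← Real.exp_add, neg_add_cancel, Real.exp_zero, mul_one] at h4
  have h5 : (e 0 + C ^ 2) * Real.exp t ≤ (‖z 0‖ ^ 2 + C ^ 2) * Real.exp T := by
    have h6 : Real.exp t ≤ Real.exp T := Real.exp_le_exp.2 ht.2
    have h7 : 0 ≤ Real.exp t := (Real.exp_pos t).le
    have h8 : 0 ≤ ‖z 0‖ ^ 2 + C ^ 2 := by positivity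
    calc (e 0 + C ^ 2) * Real.exp t ≤ (‖z 0‖ ^ 2 + C ^ 2) * Real.exp t :=
          mul_le_mul_of_nonneg_right (by linarith) h7
      _ ≤ _ := mul_le_mul_of_nonneg_left h6 h8
  have h6 : 0 ≤ C ^ 2 := by positivity
  have h7 : e t ≤ (‖z 0‖ ^ 2 + C ^ 2) * Real.exp T := by linarith
  exact h7

private theorem cl_toK_bdd (C : ℝ) : ∃ M : ℝ, ∀ F : ℝ × ℝ → ℝ, (∀ q, |F q| ≤ C) → ‖toK F‖ ≤ M := by
  have hfin : IsFiniteMeasure (volume.restrict sq) := by
    constructor
    rw [Measure.restrict_apply_univ, Measure.volume_eq_prod, Measure.prod_prod]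
    simp only [Real.volume_Ioo]
    exact ENNReal.mul_lt_top ENNReal.ofReal_lt_top ENNReal.ofReal_lt_top
  refine ⟨(measureUnivNNReal (volume.restrict sq) : ℝ) ^ (2:ℝ≥0∞).toReal⁻¹ * |C|, ?_⟩
  intro F hF
  unfold toK
  split_ifs with hm
  · refine Lp.norm_le_of_ae_bound (abs_nonneg C) ?_
    filter_upwards [hm.coeFn_toLp] with q hq
    rw [hq, Real.norm_eq_abs]
    exact (hF q).trans (le_abs_self C)
  · rw [norm_zero]
    positivity

private theorem cl_Gg_bdd (W : World) (h : W.Reg) (k : ℕ) (r : ℝ → ℝ) (C : ℝ)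
    (hr : ∀ ξ, |r ξ| ≤ C) : ∀ ξ η, |W.Gg k r ξ η| ≤
      2 * (4 * π / W.lam k * (2 * C) + 4 * π / W.lam (k + 1) * (2 * C)) := by
  obtain ⟨b1, -⟩ := world_basic W h.num
  intro ξ η
  have hC : 0 ≤ C := (abs_nonneg _).trans (hr 0)
  have hb1 := b1 k
  have hb2 := b1 (k + 1)
  have hπ := Real.pi_pos
  have ind : ∀ a b : ℝ, (a = 0 ∨ a = 1) → (b = 0 ∨ b = 1) → 0 ≤ a * b ∧ a * b ≤ 1 := by
    intro a b ha hb
    rcases ha with e | e <;> rcases hb with e' | e' <;> rw [e, e'] <;> norm_num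
  have hi : ∀ s, |4 * π / W.lam k * (W.iU k s ξ * W.iU k s η * (r ξ - r η))
    + 4 * π / W.lam (k + 1) * (W.iV k s ξ * W.iU (k + 1) s η * r ξ
      - W.iU (k + 1) s ξ * W.iV k s η * r η)| ≤
      4 * π / W.lam k * (2 * C) + 4 * π / W.lam (k + 1) * (2 * C) := by
    intro s
    obtain ⟨p1, p1'⟩ := ind _ _ ((h.lev k).zoU s ξ) ((h.lev k).zoU s η)
    obtain ⟨p2, p2'⟩ := ind _ _ ((h.lev k).zoV s ξ) ((h.lev (k + 1)).zoU s η)
    obtain ⟨p3, p3'⟩ := ind _ _ ((h.lev (k + 1)).zoU s ξ) ((h.lev k).zoV s η)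
    have bb : ∀ a x D : ℝ, 0 ≤ a → a ≤ 1 → |x| ≤ D → |a * x| ≤ D := by
      intro a x D ha ha1 hx
      rw [abs_mul, abs_of_nonneg ha]
      calc a * |x| ≤ 1 * |x| := mul_le_mul_of_nonneg_right ha1 (abs_nonneg _)
        _ ≤ D := by rw [one_mul]; exact hx
    have hrr : |r ξ - r η| ≤ 2 * C := by
      have := abs_sub (r ξ) (r η)
      have h1 := hr ξ
      have h2 := hr η
      linarith
    have q1 := bb _ _ _ p1 p1' hrr
    have q2 := bb _ _ _ p2 p2' (hr ξ)
    have q3 := bb _ _ _ p3 p3' (hr η)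
    have q4 : |W.iV k s ξ * W.iU (k + 1) s η * r ξ - W.iU (k + 1) s ξ * W.iV k s η * r η|
        ≤ 2 * C := by
      have := abs_sub (W.iV k s ξ * W.iU (k + 1) s η * r ξ) (W.iU (k + 1) s ξ * W.iV k s η * r η)
      linarith
    have c1 : 0 ≤ 4 * π / W.lam k := by positivity
    have c2 : 0 ≤ 4 * π / W.lam (k + 1) := by positivity
    refine (abs_add_le _ _).trans ?_
    rw [abs_mul, abs_mul (4 * π / W.lam (k + 1)), abs_of_nonneg c1, abs_of_nonneg c2]
    exact add_le_add (mul_le_mul_of_nonneg_left q1 c1) (mul_le_mul_of_nonneg_left q4 c2)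
  unfold World.Gg
  rw [Fintype.sum_bool]
  refine (abs_add_le _ _).trans ?_
  have h1 := hi true
  have h2 := hi false
  linarith

private theorem cl_fG_bdd (W : World) (h : W.Reg) (k : ℕ) : ∃ M : ℝ, ∀ t, ‖W.fG k t‖ ≤ M := by
  have lev := h.lev k
  have hv : ∀ ξ, |W.v k ξ| ≤ 1 := by
    intro ξ
    unfold World.v
    rcases lev.zoV true ξ with e1 | e1 <;> rcases lev.zoV false ξ with e2 | e2 <;>
      rw [e1, e2] <;> norm_num
  have hu : ∀ ξ, |W.u k ξ| ≤ 1 := by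
    intro ξ
    unfold World.u
    rcases lev.zoU true ξ with e1 | e1 <;> rcases lev.zoU false ξ with e2 | e2 <;>
      rw [e1, e2] <;> norm_num
  have key : ∀ a x D : ℝ, |x| ≤ D → |a * x| ≤ |a| * D := by
    intro a x D hx
    rw [abs_mul]
    exact mul_le_mul_of_nonneg_left hx (abs_nonneg _)
  have h1 : ∀ ξ, |W.r1 k ξ| ≤ |-(W.om0 k * W.as k)| * 1 + |W.al k / 2| * W.mu k := by
    intro ξ
    unfold World.r1
    refine (abs_sub _ _).trans ?_
    exact add_le_add (key _ _ _ (hv ξ)) (key _ _ _ (lev.wle ξ))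
  have h2 : ∀ ξ, |W.r2 k ξ| ≤ |W.om0 k * W.al k| * 1 + |W.as k / 2| * W.nu k := by
    intro ξ
    unfold World.r2
    refine (abs_sub _ _).trans ?_
    exact add_le_add (key _ _ _ (hu ξ)) (key _ _ _ (lev.xle ξ))
  have g1 := cl_Gg_bdd W h k _ _ h1
  have g2 := cl_Gg_bdd W h k _ _ h2
  set D1 := 2 * (4 * π / W.lam k * (2 * (|-(W.om0 k * W.as k)| * 1 + |W.al k / 2| * W.mu k))
    + 4 * π / W.lam (k + 1) * (2 * (|-(W.om0 k * W.as k)| * 1 + |W.al k / 2| * W.mu k))) with hD1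
  set D2 := 2 * (4 * π / W.lam k * (2 * (|W.om0 k * W.al k| * 1 + |W.as k / 2| * W.nu k))
    + 4 * π / W.lam (k + 1) * (2 * (|W.om0 k * W.al k| * 1 + |W.as k / 2| * W.nu k))) with hD2
  have bb : ∀ a x D : ℝ, |a| ≤ 1 → |x| ≤ D → |a * x| ≤ D := by
    intro a x D ha hx
    rw [abs_mul]
    calc |a| * |x| ≤ 1 * |x| := mul_le_mul_of_nonneg_right ha (abs_nonneg _)
      _ ≤ D := by rw [one_mul]; exact hx
  have hG : ∀ t ξ η, |W.Gh k t ξ η| ≤ D1 + D2 := by
    intro t ξ η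
    unfold World.Gh
    refine (abs_add_le _ _).trans ?_
    exact add_le_add (bb _ _ _ (Real.abs_cos_le_one _) (g1 ξ η))
      (bb _ _ _ (Real.abs_sin_le_one _) (g2 ξ η))
  obtain ⟨M, hM⟩ := cl_toK_bdd (D1 + D2)
  refine ⟨M, fun t => hM _ (fun q => ?_)⟩
  rw [mul_comm]
  exact bb _ _ _ (Real.abs_sin_le_one _) (hG _ _ _)

/-- the correlation does not decrease much during a stage -/
theorem corr_lower (W : World) (h : W.Reg) (k : ℕ) (hs : W.Small k) (T : ℝ) (hT0 : 0 ≤ T)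
    (hT : T ≤ W.Tm k) (hcs : ∀ t, 0 ≤ t → t ≤ T →
      W.ep k / 2 ≤ Real.cos (W.om0 k * t) ∧ 0 ≤ Real.sin (W.om0 k * t))
    (Y : ℝ → HZ) (hY : IsSol W.NN Y)
    (hY0 : Y 0 = W.zp 0 + lift 0 (fun ξ => W.al k * W.u k ξ)) :
    rin (Y 0 - W.zp 0) (lift 0 (W.Bt k 0)) - 12 * W.ep k
      ≤ rin (Y T - W.zp T) (lift T (W.Bt k T)) := by
  obtain ⟨f1, f2, f3, f4, f5, f6, f7, f8, f9, f10, f11, f12, f13, f14, f15, f16, f17, f18⟩ :=
    rin_facts
  obtain ⟨zs, zc, -, -, zN, zL, zm, -⟩ := zp_sol W h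
  obtain ⟨b1, b2, b3, b4, b5, b6, b7, -⟩ := world_basic W h.num
  obtain ⟨-, start2, -⟩ := start_state W h k hs
  obtain ⟨B1, -⟩ := Bt_facts W h k hs
  have hep := h.num.ep_pos k
  have hep' := h.num.ep_le k
  have hlam := b1 k
  have hlam' := b1 (k + 1)
  have hal := b3 k
  have has := b4 k
  have hom := b5 k
  have hmm := b6 k
  have hTm := b7 k
  have hd := h.num.d_pos k
  have hμ' := h.num.mu_pos (k + 1)
  set ε := W.ep k with hε
  -- the two curves
  set z1 : ℝ → HZ := fun t => Y t - W.zp t with hz1def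
  set z2 : ℝ → HZ := fun t => lift t (W.Bt k t) with hz2def
  set h1 : ℝ → HZ := fun t => -kick (gL (vel (Y t)) - gL (vel (W.zp t))) with hh1def
  set R : ℝ → HZ := fun t => W.om0 k • lift t (W.Rs k t) + kick (W.fW k t) + mkick t (W.Co k t)
    with hRdef
  set h2 : ℝ → HZ := fun t => -kick (W.fG k t) + R t with hh2def
  have hNN : ∀ t v w, W.NN t v - W.NN t w = gL v - gL w := by
    intro t v w
    unfold World.NN
    abel
  have hz1 : ∀ (t : ℝ) (i : ℕ × ℕ),
      HasDerivAt (fun s => z1 s i) (-(Complex.I * (om i : ℂ)) * z1 t i + h1 t i) t := by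
    intro t i
    have d := (hY.2 t i).sub (zs.2 t i)
    have e1 : (fun s => z1 s i) = fun s => Y s i - W.zp s i := by
      funext s; rfl
    have e2 : -(Complex.I * (om i : ℂ)) * z1 t i + h1 t i
        = (-(Complex.I * (om i : ℂ)) * Y t i - kick (W.NN t (vel (Y t))) i)
          - (-(Complex.I * (om i : ℂ)) * W.zp t i - kick (W.NN t (vel (W.zp t))) i) := by
      have e3 : h1 t i = -(kick (W.NN t (vel (Y t))) i - kick (W.NN t (vel (W.zp t))) i) := by
        simp only [hh1def]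
        rw [← hNN t, f14]
        rfl
      have e4 : z1 t i = Y t i - W.zp t i := rfl
      rw [e3, e4]
      ring
    rw [e1, e2]
    exact d
  have hz2 : ∀ (t : ℝ) (i : ℕ × ℕ),
      HasDerivAt (fun s => z2 s i) (-(Complex.I * (om i : ℂ)) * z2 t i + h2 t i) t := by
    intro t i
    exact pseudo_ode W h k hs t i
  -- bounds
  have hz10 : z1 0 = lift 0 (fun ξ => W.al k * W.u k ξ) := by
    simp only [hz1def]
    rw [hY0]; abel
  have hmm' : W.mm k ≤ 1 / 100000 := by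
    have := hs.c6
    linarith
  have hz10n : ‖z1 0‖ ^ 2 ≤ 4 := by
    rw [hz10]
    refine start2.trans ?_
    have h3 : W.mm k ^ 2 ≤ (1 / 100000) ^ 2 := pow_le_pow_left₀ hmm.le hmm' 2
    have h4 := Real.pi_lt_d2
    norm_num at h3 h4 ⊢
    linarith
  have hz10n' : ‖z1 0‖ ≤ 2 := by
    have := abs_le_of_sq_le_sq (a := ‖z1 0‖) (b := 2) (by norm_num; exact hz10n) (by norm_num)
    exact (le_abs_self _).trans this
  have hz1n : ∀ t, 0 ≤ t → ‖z1 t‖ ≤ 2 := by
    intro t ht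
    exact (contraction W.NN zN zm Y W.zp hY zs 0 t ht).trans hz10n'
  have hh1n : ∀ t, 0 ≤ t → ‖h1 t‖ ≤ 2 := by
    intro t ht
    simp only [hh1def]
    rw [norm_neg, f16, ← hNN t]
    have h3 := (zL t).norm_sub_le (vel (Y t)) (vel (W.zp t))
    rw [NNReal.coe_one, one_mul, ← f10] at h3
    exact h3.trans ((f11 _).trans (hz1n t ht))
  have hRn : ∀ t, ‖R t‖ ≤ 82 * (W.om0 k * W.mm k) + 63 / 10 * (W.as k * W.mu (k + 1))
      + 82 * (W.mm k * W.lam k) := fun t => residual_norm W h k hs t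
  obtain ⟨MG, hMG⟩ := cl_fG_bdd W h k
  set ρ := 82 * (W.om0 k * W.mm k) + 63 / 10 * (W.as k * W.mu (k + 1))
      + 82 * (W.mm k * W.lam k) with hρ
  have hh2n : ∀ t, ‖h2 t‖ ≤ MG + ρ := by
    intro t
    simp only [hh2def]
    refine (norm_add_le _ _).trans ?_
    rw [norm_neg, f16]
    exact add_le_add (hMG t) (hRn t)
  have hz2n := cl_bound_of_ode z2 h2 T (MG + ρ) hz2 hh2n
  set M2 := (‖z2 0‖ ^ 2 + (MG + ρ) ^ 2) * Real.exp T with hM2
  have hM2' : 0 ≤ M2 := by positivity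
  have hz2n' : ∀ t ∈ Icc 0 T, ‖z2 t‖ ≤ 1 + M2 := by
    intro t ht
    have h3 := hz2n t ht
    nlinarith [sq_nonneg (‖z2 t‖ - 1), norm_nonneg (z2 t)]
  set M := 2 + (1 + M2) + |MG + ρ| with hM
  obtain ⟨ci1, ci2⟩ := corr_identity z1 z2 h1 h2 0 T M hT0 hz1 hz2 (by
    intro t ht
    have a1 := hz1n t ht.1
    have a2 := hz2n' t ht
    have a3 := hh1n t ht.1
    have a4 := (hh2n t).trans (le_abs_self _)
    have a5 := abs_nonneg (MG + ρ)
    refine ⟨?_, ?_, ?_, ?_⟩ <;> linarith)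
  obtain ⟨sd1, sd2⟩ := sol_diff W.NN zN Y W.zp hY zs 0 T hT0
  -- lower bound of the integrand
  set K := 1 / (4 * ε) * (27 * (W.as k) ^ 2 * (W.d k) ^ 3
        + 19500 * (W.mm k) ^ 2 / (W.lam (k + 1)) ^ 2)
      + 91 * W.mm k * √(W.d k) / W.lam (k + 1) * 2 + 2 * ρ with hK
  have hlow : ∀ t ∈ Icc 0 T, -(3 * ε) * inner ℝ (W.NN t (vel (Y t)) - W.NN t (vel (W.zp t)))
      (vel (Y t) - vel (W.zp t)) - K ≤ rin (h1 t) (z2 t) + rin (z1 t) (h2 t) := by
    intro t ht
    obtain ⟨hc, hsn⟩ := hcs t ht.1 ht.2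
    have fb := field_bound W h k hs t hc hsn (vel (Y t))
    rw [hNN]
    have v2 : vel (z2 t) = W.fB k t := by
      have h3 := vel_glift Real.sin Real.cos _ (W.Bt k t) psc_prof.2.2 (B1 t) t
      simp only [hz2def]
      unfold lift
      rw [h3]
      unfold World.fB
      congr 1
      funext q
      ring
    have v1 : vel (z1 t) = vel (Y t) - vel (W.zp t) := f10 _ _
    have e1 : rin (h1 t) (z2 t) = -inner ℝ (gL (vel (Y t)) - gL (vel (W.zp t))) (W.fB k t) := by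
      simp only [hh1def]
      rw [f5, f1, f8, v2, real_inner_comm]
    have e2 : rin (z1 t) (h2 t) = -inner ℝ (vel (Y t) - vel (W.zp t)) (W.fG k t)
        + rin (z1 t) (R t) := by
      simp only [hh2def]
      rw [f1, f3, f5, f1 (kick _), f8, f1 (R t)]
      rw [v1]
    have e3 : -(2 * ρ) ≤ rin (z1 t) (R t) := by
      have h3 := f6 (z1 t) (R t)
      have h4 : ‖z1 t‖ * ‖R t‖ ≤ 2 * ρ := mul_le_mul (hz1n t ht.1) (hRn t) (norm_nonneg _)
        (by norm_num)
      have h5 := neg_abs_le (rin (z1 t) (R t))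
      linarith
    have e4 : ‖vel (Y t) - vel (W.zp t)‖ ≤ 2 := by
      rw [← v1]
      exact (f11 _).trans (hz1n t ht.1)
    have e5 : 91 * W.mm k * √(W.d k) / W.lam (k + 1) * ‖vel (Y t) - vel (W.zp t)‖
        ≤ 91 * W.mm k * √(W.d k) / W.lam (k + 1) * 2 :=
      mul_le_mul_of_nonneg_left e4 (by positivity)
    rw [e1, e2, hK]
    linarith
  have hint : (∫ t in (0:ℝ)..T, (-(3 * ε) * inner ℝ (W.NN t (vel (Y t)) - W.NN t (vel (W.zp t)))
      (vel (Y t) - vel (W.zp t)) - K)) ≤ ∫ t in (0:ℝ)..T, (rin (h1 t) (z2 t) + rin (z1 t) (h2 t)) :=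
    intervalIntegral.integral_mono_on hT0 ((sd1.const_mul _).sub intervalIntegrable_const) ci1 hlow
  rw [intervalIntegral.integral_sub (sd1.const_mul _) intervalIntegrable_const,
    intervalIntegral.integral_const_mul, intervalIntegral.integral_const, smul_eq_mul, sub_zero,
    ← ci2] at hint
  set J := ∫ t in (0:ℝ)..T, inner ℝ (W.NN t (vel (Y t)) - W.NN t (vel (W.zp t)))
      (vel (Y t) - vel (W.zp t)) with hJ
  have hJ2 : J ≤ 2 := by
    have h3 : 0 ≤ ‖Y T - W.zp T‖ ^ 2 := by positivity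
    have h4 : ‖Y 0 - W.zp 0‖ ^ 2 ≤ 4 := hz10n
    linarith
  have hJ3 : 3 * ε * J ≤ 6 * ε := by nlinarith
  -- the constants
  have hρ0 : 0 ≤ ρ := by
    rw [hρ]; positivity
  have hK0 : 0 ≤ K := by
    rw [hK]; positivity
  have hTK : T * K ≤ W.Tm k * K := mul_le_mul_of_nonneg_right hT hK0
  have hom2 : W.Tm k * W.om0 k = π / 2 := by
    unfold World.Tm
    field_simp
  have k1 : 1 / (4 * ε) * (27 * (W.Tm k * (W.as k) ^ 2 * (W.d k) ^ 3)) ≤ 27 / 400 * ε := by
    have h3 := hs.c8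
    calc 1 / (4 * ε) * (27 * (W.Tm k * (W.as k) ^ 2 * (W.d k) ^ 3))
        ≤ 1 / (4 * ε) * (27 * (ε ^ 2 / 100)) :=
          mul_le_mul_of_nonneg_left (mul_le_mul_of_nonneg_left h3 (by norm_num)) (by positivity)
      _ = 27 / 400 * ε := by field_simp; ring
  have k2 : 1 / (4 * ε) * (19500 * (W.Tm k * (W.mm k) ^ 2 / (W.lam (k + 1)) ^ 2))
      ≤ 19500 / 80000 * ε := by
    have h3 := hs.c9
    calc 1 / (4 * ε) * (19500 * (W.Tm k * (W.mm k) ^ 2 / (W.lam (k + 1)) ^ 2))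
        ≤ 1 / (4 * ε) * (19500 * (ε ^ 2 / 20000)) :=
          mul_le_mul_of_nonneg_left (mul_le_mul_of_nonneg_left h3 (by norm_num)) (by positivity)
      _ = 19500 / 80000 * ε := by field_simp; ring
  have k3 := hs.c10
  have k4 : W.Tm k * W.om0 k * W.mm k ≤ π / 2 * (ε / 100) := by
    rw [hom2]
    exact mul_le_mul_of_nonneg_left hs.c6 (by positivity)
  have k5 := hs.c12
  have k6 := hs.c11
  have hexp : W.Tm k * K = 1 / (4 * ε) * (27 * (W.Tm k * (W.as k) ^ 2 * (W.d k) ^ 3))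
      + 1 / (4 * ε) * (19500 * (W.Tm k * (W.mm k) ^ 2 / (W.lam (k + 1)) ^ 2))
      + 182 * (W.Tm k * W.mm k * √(W.d k) / W.lam (k + 1))
      + 164 * (W.Tm k * W.om0 k * W.mm k) + 63 / 5 * (W.Tm k * W.as k * W.mu (k + 1))
      + 164 * (W.Tm k * W.mm k * W.lam k) := by
    rw [hK, hρ]; ring
  have hpi : π / 2 * (ε / 100) ≤ 158 / 10000 * ε := by
    have h3 := Real.pi_lt_d2
    nlinarith
  have hfin : W.Tm k * K ≤ 6 * ε := by
    rw [hexp]
    linarith
  have e0 : rin (z1 0) (z2 0) = rin (Y 0 - W.zp 0) (lift 0 (W.Bt k 0)) := rfl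
  have eT : rin (z1 T) (z2 T) = rin (Y T - W.zp T) (lift T (W.Bt k T)) := rfl
  rw [← e0, ← eT]
  have : -(3 * ε) * J = -(3 * ε * J) := by ring
  rw [this] at hint
  linarith

end Haraux
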