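import Pool.Agent.Helper27.Har.Base

set_option autoImplicit false

open MeasureTheory Set Real Filter Topology
open scoped ENNReal NNReal

namespace Haraux



private theorem cut_approx_S (y : ℝ) : (y ≤ 0 → deriv Real.smoothTransition y = 0) ∧
    (1 ≤ y → deriv Real.smoothTransition y = 0) := by
  constructor
  · intro hy
    have h : IsLocalMin Real.smoothTransition y := by
      refine Filter.Eventually.of_forall fun x => ?_
      rw [Real.smoothTransition.zero_of_nonpos hy]
      exact Real.smoothTransition.nonneg x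
    exact h.deriv_eq_zero
  · intro hy
    have h : IsLocalMax Real.smoothTransition y := by
      refine Filter.Eventually.of_forall fun x => ?_
      rw [Real.smoothTransition.one_of_one_le hy]
      exact Real.smoothTransition.le_one x
    exact h.deriv_eq_zero

private theorem cut_approx_S2 : ∃ C : ℝ, 0 ≤ C ∧ ∀ y, |deriv Real.smoothTransition y| ≤ C := by
  have hc : Continuous (deriv Real.smoothTransition) :=
    (Real.smoothTransition.contDiff (n := 1)).continuous_deriv le_rfl
  obtain ⟨C, hC⟩ := (isCompact_Icc (a := (0 : ℝ)) (b := 1)).exists_bound_of_continuousOn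
    hc.continuousOn
  have hC0 : 0 ≤ C := (norm_nonneg _).trans (hC 0 ⟨le_rfl, zero_le_one⟩)
  refine ⟨C, hC0, fun y => ?_⟩
  rcases le_or_gt y 0 with h | h
  · rw [(cut_approx_S y).1 h, abs_zero]; exact hC0
  · rcases le_or_gt 1 y with h' | h'
    · rw [(cut_approx_S y).2 h', abs_zero]; exact hC0
    · exact hC y ⟨h.le, h'.le⟩

private theorem cut_approx_int (g : ℝ → ℝ) (hg : Continuous g) (δ M : ℝ) (hδ : 0 < δ) (hδ' : δ ≤ 1 / 2)
    (h1 : ∀ x, 0 ≤ x → x ≤ π → (x ≤ δ ∨ π - δ ≤ x) → |g x| ≤ M)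
    (h2 : ∀ x, δ ≤ x → x ≤ π - δ → g x = 0) : ∫ x in (0:ℝ)..π, g x ≤ 2 * M * δ := by
  have hpi := Real.pi_gt_three
  have hi : ∀ a b : ℝ, IntervalIntegrable g volume a b := fun a b => hg.intervalIntegrable a b
  rw [← intervalIntegral.integral_add_adjacent_intervals (hi 0 δ) (hi δ π),
    ← intervalIntegral.integral_add_adjacent_intervals (hi δ (π - δ)) (hi (π - δ) π)]
  have e1 : ‖∫ x in (0:ℝ)..δ, g x‖ ≤ M * |δ - 0| := by
    refine intervalIntegral.norm_integral_le_of_norm_le_const fun x hx => ?_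
    rw [Set.uIoc_of_le hδ.le] at hx
    exact h1 x hx.1.le (by linarith [hx.2]) (Or.inl hx.2)
  have e2 : ‖∫ x in δ..(π - δ), g x‖ ≤ 0 * |π - δ - δ| := by
    refine intervalIntegral.norm_integral_le_of_norm_le_const fun x hx => ?_
    rw [Set.uIoc_of_le (by linarith)] at hx
    rw [h2 x hx.1.le hx.2, norm_zero]
  have e3 : ‖∫ x in (π - δ)..π, g x‖ ≤ M * |π - (π - δ)| := by
    refine intervalIntegral.norm_integral_le_of_norm_le_const fun x hx => ?_
    rw [Set.uIoc_of_le (by linarith)] at hx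
    exact h1 x (by linarith [hx.1]) hx.2 (Or.inr hx.1.le)
  rw [sub_zero, abs_of_pos hδ] at e1
  rw [zero_mul] at e2
  rw [show π - (π - δ) = δ by ring, abs_of_pos hδ] at e3
  have f1 := (le_abs_self _).trans e1
  have f2 := (le_abs_self _).trans e2
  have f3 := (le_abs_self _).trans e3
  linarith

private theorem cut_approx_chi (k C : ℝ) (hk : 4 ≤ k) (hC0 : 0 ≤ C)
    (hC : ∀ y, |deriv Real.smoothTransition y| ≤ C) :
    ∃ χ : ℝ → ℝ, ContDiff ℝ (⊤ : ℕ∞) χ ∧ HasCompactSupport χ ∧ tsupport χ ⊆ Ioo 0 π ∧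
      (∀ x, |χ x - 1| ≤ 1) ∧ (∀ x, |deriv χ x| ≤ 2 * C * k) ∧
      (∀ x, 2 / k ≤ x → x ≤ π - 2 / k → χ x = 1 ∧ deriv χ x = 0) := by
  have hpi := Real.pi_gt_three
  have hk0 : 0 < k := by linarith
  obtain ⟨χ, hχ⟩ : ∃ χ : ℝ → ℝ, χ = fun x => Real.smoothTransition (k * x - 1) *
    Real.smoothTransition (k * (π - x) - 1) := ⟨_, rfl⟩
  have hd : ∀ x, HasDerivAt χ (deriv Real.smoothTransition (k * x - 1) * k *
      Real.smoothTransition (k * (π - x) - 1) + Real.smoothTransition (k * x - 1) *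
        (deriv Real.smoothTransition (k * (π - x) - 1) * (-k))) x := by
    intro x
    have hS : ∀ y, HasDerivAt Real.smoothTransition (deriv Real.smoothTransition y) y := fun y =>
      ((Real.smoothTransition.contDiff (n := 1)).differentiable one_ne_zero _).hasDerivAt
    have g1 : HasDerivAt (fun x : ℝ => k * x - 1) k x := by
      simpa using ((hasDerivAt_id x).const_mul k).sub_const 1
    have g2 : HasDerivAt (fun x : ℝ => k * (π - x) - 1) (-k) x := by
      simpa using (((hasDerivAt_id x).const_sub π).const_mul k).sub_const 1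
    rw [hχ]
    exact ((hS _).comp x g1).mul ((hS _).comp x g2)
  have hS01 : ∀ y, 0 ≤ Real.smoothTransition y ∧ Real.smoothTransition y ≤ 1 := fun y =>
    ⟨Real.smoothTransition.nonneg y, Real.smoothTransition.le_one y⟩
  have hsupp : tsupport χ ⊆ Icc (1 / k) (π - 1 / k) := by
    refine closure_minimal ?_ isClosed_Icc
    intro x hx
    by_contra hcon
    refine hx ?_
    rw [hχ]
    show Real.smoothTransition (k * x - 1) * Real.smoothTransition (k * (π - x) - 1) = 0
    rw [mem_Icc, not_and_or, not_le, not_le] at hcon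
    rcases hcon with h | h
    · rw [Real.smoothTransition.zero_of_nonpos, zero_mul]
      rw [lt_div_iff₀ hk0] at h
      linarith
    · have h' : π - x < 1 / k := by linarith
      rw [lt_div_iff₀ hk0] at h'
      rw [Real.smoothTransition.zero_of_nonpos (x := k * (π - x) - 1), mul_zero]
      linarith
  refine ⟨χ, ?_, ?_, ?_, ?_, ?_, ?_⟩
  · rw [hχ]
    refine ContDiff.mul ?_ ?_
    · exact Real.smoothTransition.contDiff.comp ((contDiff_const.mul contDiff_id).sub contDiff_const)
    · exact Real.smoothTransition.contDiff.comp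
        ((contDiff_const.mul (contDiff_const.sub contDiff_id)).sub contDiff_const)
  · exact isCompact_Icc.of_isClosed_subset (isClosed_tsupport χ) hsupp
  · intro x hx
    have h := hsupp hx
    have h1 : 0 < 1 / k := by positivity
    exact ⟨by linarith [h.1], by linarith [h.2]⟩
  · intro x
    have h1 := hS01 (k * x - 1)
    have h2 := hS01 (k * (π - x) - 1)
    have h3 : 0 ≤ χ x := by rw [hχ]; exact mul_nonneg h1.1 h2.1
    have h4 : χ x ≤ 1 := by rw [hχ]; exact mul_le_one₀ h1.2 h2.1 h2.2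
    rw [abs_le]
    constructor <;> linarith
  · intro x
    rw [(hd x).deriv]
    have h1 := hS01 (k * x - 1)
    have h2 := hS01 (k * (π - x) - 1)
    refine (abs_add_le _ _).trans ?_
    rw [abs_mul, abs_mul, abs_mul, abs_mul, abs_neg, abs_of_nonneg h1.1, abs_of_nonneg h2.1,
      abs_of_pos hk0]
    have h3 : |deriv Real.smoothTransition (k * x - 1)| * k *
        Real.smoothTransition (k * (π - x) - 1) ≤ C * k * 1 :=
      mul_le_mul (mul_le_mul_of_nonneg_right (hC _) hk0.le) h2.2 h2.1 (by positivity)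
    have h4 : Real.smoothTransition (k * x - 1) *
        (|deriv Real.smoothTransition (k * (π - x) - 1)| * k) ≤ 1 * (C * k) :=
      mul_le_mul h1.2 (mul_le_mul_of_nonneg_right (hC _) hk0.le) (by positivity) zero_le_one
    linarith
  · intro x hx1 hx2
    rw [div_le_iff₀ hk0] at hx1
    have hx2' : 2 / k ≤ π - x := by linarith
    rw [div_le_iff₀ hk0] at hx2'
    have h1 : 1 ≤ k * x - 1 := by linarith
    have h2 : 1 ≤ k * (π - x) - 1 := by linarith
    constructor
    · rw [hχ]
      show Real.smoothTransition (k * x - 1) * Real.smoothTransition (k * (π - x) - 1) = 1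
      rw [Real.smoothTransition.one_of_one_le h1, Real.smoothTransition.one_of_one_le h2, mul_one]
    · rw [(hd x).deriv, (cut_approx_S _).2 h1, (cut_approx_S _).2 h2]
      ring

/-- cutoffs of a smooth function vanishing at the end points of `(0,π)` -/
theorem cut_approx (s : ℝ → ℝ) (hs : ContDiff ℝ (⊤ : ℕ∞) s) (h0 : s 0 = 0) (h1 : s π = 0) (e : ℝ)
    (he : 0 < e) : ∃ σ : ℝ → ℝ, ContDiff ℝ (⊤ : ℕ∞) σ ∧ HasCompactSupport σ ∧
    tsupport σ ⊆ Ioo 0 π ∧ (∫ x in (0:ℝ)..π, (σ x - s x) ^ 2) ≤ e ∧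
    (∫ x in (0:ℝ)..π, (deriv σ x - deriv s x) ^ 2) ≤ e := by
  have hpi := Real.pi_gt_three
  obtain ⟨C, hC0, hC⟩ := cut_approx_S2
  have hs1 : ContDiff ℝ 1 s := hs.of_le (by exact_mod_cast le_top)
  have hsd : Continuous (deriv s) := hs1.continuous_deriv le_rfl
  have hsD : Differentiable ℝ s := hs1.differentiable one_ne_zero
  obtain ⟨A, hA⟩ := (isCompact_Icc (a := (0 : ℝ)) (b := π)).exists_bound_of_continuousOn
    hsd.continuousOn
  have hA0 : 0 ≤ A := (norm_nonneg _).trans (hA 0 ⟨le_rfl, by linarith⟩)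
  have hl : ∀ x, 0 ≤ x → x ≤ π → |s x| ≤ A * x := by
    intro x hx0 hx1
    have := Convex.norm_image_sub_le_of_norm_deriv_le (f := s) (s := Icc 0 π) (x := 0) (y := x)
      (fun z _ => hsD z) hA (convex_Icc _ _) ⟨le_rfl, by linarith⟩ ⟨hx0, hx1⟩
    rwa [h0, sub_zero, sub_zero, Real.norm_eq_abs, Real.norm_eq_abs, abs_of_nonneg hx0] at this
  have hr : ∀ x, 0 ≤ x → x ≤ π → |s x| ≤ A * (π - x) := by
    intro x hx0 hx1
    have := Convex.norm_image_sub_le_of_norm_deriv_le (f := s) (s := Icc 0 π) (x := π) (y := x)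
      (fun z _ => hsD z) hA (convex_Icc _ _) ⟨by linarith, le_rfl⟩ ⟨hx0, hx1⟩
    rwa [h1, sub_zero, Real.norm_eq_abs, Real.norm_eq_abs, abs_sub_comm,
      abs_of_nonneg (by linarith : 0 ≤ π - x)] at this
  obtain ⟨D, hD⟩ : ∃ D, D = A * (1 + 4 * C) + A * π := ⟨_, rfl⟩
  have hD1 : A * (1 + 4 * C) ≤ D := by rw [hD]; have := mul_nonneg hA0 Real.pi_pos.le; linarith
  have hD2 : A * π ≤ D := by
    rw [hD]
    have : 0 ≤ A * (1 + 4 * C) := by positivity
    linarith
  have hD0 : 0 ≤ D := le_trans (by positivity) hD2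
  obtain ⟨k, hk⟩ : ∃ k, k = max 4 (4 * D ^ 2 / e) := ⟨_, rfl⟩
  have hk4 : 4 ≤ k := by rw [hk]; exact le_max_left _ _
  have hk0 : 0 < k := by linarith
  have hke : 4 * D ^ 2 / e ≤ k := by rw [hk]; exact le_max_right _ _
  have hfin : 2 * D ^ 2 * (2 / k) ≤ e := by
    rw [div_le_iff₀ he] at hke
    have : 2 * D ^ 2 * (2 / k) = 4 * D ^ 2 / k := by ring
    rw [this, div_le_iff₀ hk0]
    linarith
  have hδ : 0 < 2 / k := by positivity
  have hδ' : 2 / k ≤ 1 / 2 := by
    rw [div_le_iff₀ hk0]; linarith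
  obtain ⟨χ, c1, c2, c3, c4, c5, c6⟩ := cut_approx_chi k C hk4 hC0 hC
  have c1' : ContDiff ℝ 1 χ := c1.of_le (by exact_mod_cast le_top)
  have hχD : Differentiable ℝ χ := c1'.differentiable one_ne_zero
  have hderiv : ∀ x, deriv (fun x => χ x * s x) x = deriv χ x * s x + χ x * deriv s x := fun x =>
    ((hχD x).hasDerivAt.mul (hsD x).hasDerivAt).deriv
  refine ⟨fun x => χ x * s x, c1.mul hs, c2.mul_right, ?_, ?_, ?_⟩
  · exact (tsupport_mul_subset_left (f := χ) (g := s)).trans c3
  · refine (cut_approx_int _ ?_ (2 / k) (D ^ 2) hδ hδ' ?_ ?_).trans hfin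
    · exact (((c1'.continuous).mul hs1.continuous).sub hs1.continuous).pow 2
    · intro x hx0 hx1 _
      have h2 : |χ x * s x - s x| ≤ D := by
        have : χ x * s x - s x = (χ x - 1) * s x := by ring
        rw [this, abs_mul]
        have h3 : |s x| ≤ A * π := (hl x hx0 hx1).trans (mul_le_mul_of_nonneg_left hx1 hA0)
        calc |χ x - 1| * |s x| ≤ 1 * (A * π) := mul_le_mul (c4 x) h3 (abs_nonneg _) zero_le_one
          _ ≤ D := by linarith
      rw [abs_pow]
      exact pow_le_pow_left₀ (abs_nonneg _) h2 2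
    · intro x hx1 hx2
      show (χ x * s x - s x) ^ 2 = 0
      rw [(c6 x hx1 hx2).1]
      ring
  · refine (cut_approx_int _ ?_ (2 / k) (D ^ 2) hδ hδ' ?_ ?_).trans hfin
    · have : Continuous (deriv fun x => χ x * s x) := (c1'.mul hs1).continuous_deriv le_rfl
      exact (this.sub hsd).pow 2
    · intro x hx0 hx1 hor
      have h2 : |deriv (fun x => χ x * s x) x - deriv s x| ≤ D := by
        rw [hderiv]
        have h3 : deriv χ x * s x + χ x * deriv s x - deriv s x =
          (χ x - 1) * deriv s x + deriv χ x * s x := by ring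
        rw [h3]
        refine (abs_add_le _ _).trans ?_
        rw [abs_mul, abs_mul]
        have h4 : |s x| ≤ A * (2 / k) := by
          rcases hor with h | h
          · exact (hl x hx0 hx1).trans (mul_le_mul_of_nonneg_left h hA0)
          · exact (hr x hx0 hx1).trans (mul_le_mul_of_nonneg_left (by linarith) hA0)
        have h5 : |χ x - 1| * |deriv s x| ≤ 1 * A :=
          mul_le_mul (c4 x) (hA x ⟨hx0, hx1⟩) (abs_nonneg _) zero_le_one
        have h6 : |deriv χ x| * |s x| ≤ 2 * C * k * (A * (2 / k)) :=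
          mul_le_mul (c5 x) h4 (abs_nonneg _) (by positivity)
        have h7 : 2 * C * k * (A * (2 / k)) = 4 * C * A := by
          field_simp
          ring
        rw [h7] at h6
        linarith
      rw [abs_pow]
      exact pow_le_pow_left₀ (abs_nonneg _) h2 2
    · intro x hx1 hx2
      rw [hderiv, (c6 x hx1 hx2).1, (c6 x hx1 hx2).2]
      ring

end Haraux
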