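import Pool.Agent.Helper27.Har.Base
import Pool.Agent.Helper27.Har.P_world_basic
import Pool.Agent.Helper27.Har.P_stage_ineq
import Pool.Agent.Helper27.Har.P_level_facts
import Pool.Agent.Helper27.Har.P_lift_norm
import Pool.Agent.Helper27.Har.P_lift_linear
import Pool.Agent.Helper27.Har.P_K_bounds
import Pool.Agent.Helper27.Har.P_Bt_facts

set_option autoImplicit false

open MeasureTheory Set Real Filter Topology
open scoped ENNReal NNReal

namespace Haraux



private theorem es_ii {φ : ℝ → ℝ} (h : BP φ) (a b : ℝ) : IntervalIntegrable φ volume a b := by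
  obtain ⟨C, hC⟩ := h.bdd
  rw [intervalIntegrable_iff]
  refine Measure.integrableOn_of_bounded (M := C) ?_ h.meas.aestronglyMeasurable ?_
  · simp
  · filter_upwards with x
    rw [Real.norm_eq_abs]; exact hC x

private theorem es_cmul {φ : ℝ → ℝ} (h : BP φ) (c : ℝ) : BP (fun ξ => c * φ ξ) := by
  obtain ⟨C, hC⟩ := h.bdd
  refine ⟨h.meas.const_mul c, ⟨|c| * C, fun x => ?_⟩, fun x => ?_⟩
  · rw [abs_mul]; exact mul_le_mul_of_nonneg_left (hC x) (abs_nonneg c)
  · show c * φ (x + 2 * π) = c * φ x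
    rw [h.per x]

private theorem es_add {φ ψ : ℝ → ℝ} (h : BP φ) (h' : BP ψ) : BP (fun ξ => φ ξ + ψ ξ) := by
  obtain ⟨C, hC⟩ := h.bdd
  obtain ⟨C', hC'⟩ := h'.bdd
  refine ⟨h.meas.add h'.meas, ⟨C + C', fun x => ?_⟩, fun x => ?_⟩
  · exact (abs_add_le _ _).trans (add_le_add (hC x) (hC' x))
  · show φ (x + 2 * π) + ψ (x + 2 * π) = φ x + ψ x
    rw [h.per x, h'.per x]

private theorem es_u2 (W : World) (h : W.Reg) (j : ℕ) :
    ∫ ξ in (0:ℝ)..(2 * π), (W.u j ξ) ^ 2 = 2 * W.lam j := by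
  have hl := h.lev j
  have e : (fun ξ => (W.u j ξ) ^ 2) = fun ξ => W.iU j true ξ + W.iU j false ξ := by
    funext ξ
    have h1 := hl.disj ξ
    unfold World.u
    rcases hl.zoU true ξ with a | a <;> rcases hl.zoU false ξ with b | b <;>
      rcases hl.zoV true ξ with c | c <;> rcases hl.zoV false ξ with d | d <;>
      rw [a, b, c, d] at h1 <;> rw [a, b] <;> first | (exfalso; linarith) | norm_num
  rw [e, intervalIntegral.integral_add (es_ii (hl.bU true) _ _) (es_ii (hl.bU false) _ _),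
    hl.intU, hl.intU]
  unfold World.lam
  ring

private theorem es_v2 (W : World) (h : W.Reg) (j : ℕ) :
    ∫ ξ in (0:ℝ)..(2 * π), (W.v j ξ) ^ 2 = 2 * W.kap j := by
  have hl := h.lev j
  have e : (fun ξ => (W.v j ξ) ^ 2) = fun ξ => W.iV j true ξ + W.iV j false ξ := by
    funext ξ
    have h1 := hl.disj ξ
    unfold World.v
    rcases hl.zoV true ξ with a | a <;> rcases hl.zoV false ξ with b | b <;>
      rcases hl.zoU true ξ with c | c <;> rcases hl.zoU false ξ with d | d <;>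
      rw [a, b, c, d] at h1 <;> rw [a, b] <;> first | (exfalso; linarith) | norm_num
  rw [e, intervalIntegral.integral_add (es_ii (hl.bV true) _ _) (es_ii (hl.bV false) _ _),
    hl.intV, hl.intV]
  unfold World.kap
  ring

private theorem es_norm {φ : ℝ → ℝ} (h : BP φ) (t I : ℝ) (hI : ∫ x in (0:ℝ)..(2 * π), (φ x) ^ 2 ≤ I) :
    ‖lift t φ‖ ≤ 251 / 100 * √I := by
  have h1 := (lift_norm φ h t).1
  have hI0 : 0 ≤ I := by
    refine le_trans ?_ hI
    apply intervalIntegral.integral_nonneg (by positivity)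
    intro x _; positivity
  have h2 : ‖lift t φ‖ ^ 2 ≤ (251 / 100 * √I) ^ 2 := by
    rw [mul_pow, Real.sq_sqrt hI0]
    have h3 : 2 * π ≤ (251 / 100) ^ 2 := by
      have := Real.pi_lt_d2
      norm_num; linarith
    have h4 : 2 * π * (∫ x in (0:ℝ)..(2 * π), (φ x) ^ 2) ≤ 2 * π * I :=
      mul_le_mul_of_nonneg_left hI (by positivity)
    have h5 : 2 * π * I ≤ (251 / 100) ^ 2 * I := mul_le_mul_of_nonneg_right h3 hI0
    linarith
  exact abs_le_of_sq_le_sq' h2 (by positivity) |>.2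

set_option maxHeartbeats 2000000 in
/-- the final state of the stage -/
theorem end_state (W : World) (h : W.Reg) (k : ℕ) (hs : W.Small k) (t : ℝ)
    (hc : 0 ≤ Real.cos (W.om0 k * t)) (hc2 : Real.cos (W.om0 k * t) ≤ 2 * W.ep k)
    (hsn : 0 ≤ Real.sin (W.om0 k * t)) :
    ‖lift t (W.Bt k t) - lift t (fun ξ => W.al (k + 1) * W.u (k + 1) ξ)‖ ≤ 9 * W.ep k := by
  obtain ⟨hlam, hkap, hal, has, -, hmm, -, -, hal2, has2, -, -, hasal, -⟩ := world_basic W h.num
  obtain ⟨bu, bv, -⟩ := level_facts W h k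
  obtain ⟨bu', -⟩ := level_facts W h (k + 1)
  obtain ⟨hCo, -, bCo', -⟩ := K_bounds W h k hs
  have bCo := bCo' t
  set c := Real.cos (W.om0 k * t) with hcdef
  set s := Real.sin (W.om0 k * t) with hsdef
  have hcs : s ^ 2 + c ^ 2 = 1 := by rw [hsdef, hcdef]; exact Real.sin_sq_add_cos_sq _
  set e := W.ep k with he
  have he0 : 0 < e := h.num.ep_pos k
  have he1 : e ≤ 1 / 1000 := h.num.ep_le k
  -- decomposition
  have hB : W.Bt k t = fun ξ => (fun ξ => (fun ξ => (c * W.al k) * W.u k ξ) ξ +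
      (fun ξ => (fun ξ => (s * W.as k) * W.u (k + 1) ξ) ξ + (fun ξ => (s * W.as k) * W.v k ξ) ξ) ξ) ξ
      + W.Co k t ξ := by
    funext ξ
    unfold World.Bt World.B0
    simp only [← hcdef, ← hsdef]
    ring
  have l1 := (lift_linear _ _ (es_add (es_cmul bu (c * W.al k))
    (es_add (es_cmul bu' (s * W.as k)) (es_cmul bv (s * W.as k)))) bCo t 0).1
  have l2 := (lift_linear _ _ (es_cmul bu (c * W.al k))
    (es_add (es_cmul bu' (s * W.as k)) (es_cmul bv (s * W.as k))) t 0).1
  have l3 := (lift_linear _ _ (es_cmul bu' (s * W.as k)) (es_cmul bv (s * W.as k)) t 0).1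
  have m1 := (lift_linear _ _ bu bu t (c * W.al k)).2.2.1
  have m2 := (lift_linear _ _ bu' bu' t (s * W.as k)).2.2.1
  have m3 := (lift_linear _ _ bv bv t (s * W.as k)).2.2.1
  have m4 := (lift_linear _ _ bu' bu' t (W.al (k + 1))).2.2.1
  have hdec : lift t (W.Bt k t) - lift t (fun ξ => W.al (k + 1) * W.u (k + 1) ξ) =
      (c * W.al k) • lift t (W.u k) + (s * W.as k - W.al (k + 1)) • lift t (W.u (k + 1))
        + (s * W.as k) • lift t (W.v k) + lift t (W.Co k t) := by
    rw [hB, l1, l2, l3, m1, m2, m3, m4, sub_smul]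
    abel
  have n1 := es_norm bu t _ (es_u2 W h k).le
  have n2 := es_norm bu' t _ (es_u2 W h (k + 1)).le
  have n3 := es_norm bv t _ (es_v2 W h k).le
  have n4 : ‖lift t (W.Co k t)‖ ≤ 251 / 100 * √(2 * π * (13 * W.mm k) ^ 2) := by
    apply es_norm bCo
    have h1 : ∫ x in (0:ℝ)..(2 * π), (W.Co k t x) ^ 2 ≤
        ∫ x in (0:ℝ)..(2 * π), (13 * W.mm k) ^ 2 := by
      apply intervalIntegral.integral_mono_on (by positivity)
      · have : BP (fun x => (W.Co k t x) ^ 2) := by
          obtain ⟨C, hC⟩ := bCo.bdd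
          refine ⟨bCo.meas.pow_const 2, ⟨C ^ 2, fun x => ?_⟩, fun x => ?_⟩
          · rw [abs_pow]
            exact pow_le_pow_left₀ (abs_nonneg _) (hC x) 2
          · show (W.Co k t (x + 2 * π)) ^ 2 = (W.Co k t x) ^ 2
            rw [bCo.per x]
        exact es_ii this _ _
      · exact intervalIntegrable_const
      · intro x _
        have := pow_le_pow_left₀ (abs_nonneg _) (hCo t x) 2
        rwa [sq_abs] at this
    rw [intervalIntegral.integral_const] at h1
    simpa using h1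
  -- numerical bounds
  have hal0 := hal k
  have hal1 := hal (k + 1)
  have has0 := has k
  have hl0 := hlam k
  have hl1 := hlam (k + 1)
  have hk0 := hkap k
  have hm0 := hmm k
  have p1 : W.al k * √(2 * W.lam k) = 1 := by
    unfold World.al
    rw [one_div, inv_mul_cancel₀]
    exact (Real.sqrt_pos.2 (by positivity)).ne'
  have p2 : W.al (k + 1) * √(2 * W.lam (k + 1)) = 1 := by
    unfold World.al
    rw [one_div, inv_mul_cancel₀]
    exact (Real.sqrt_pos.2 (by positivity)).ne'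
  set ρ := W.as k * √(2 * W.lam (k + 1)) with hρ
  have hρ0 : 0 ≤ ρ := by positivity
  have hkl : W.kap k ≤ e ^ 2 * W.lam (k + 1) := hs.c1
  have hρ2 : ρ ^ 2 = 1 - 2 * (W.as k) ^ 2 * W.kap k := by
    rw [hρ, mul_pow, Real.sq_sqrt (by positivity)]
    have := has2 k
    nlinarith
  have hask : 2 * (W.as k) ^ 2 * W.kap k ≤ e ^ 2 := by
    have h1 := has2 k
    have h2 : 0 < (W.as k) ^ 2 := by positivity
    have h3 : 2 * (W.as k) ^ 2 * W.kap k ≤ 2 * (W.as k) ^ 2 * (e ^ 2 * W.lam (k + 1)) :=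
      mul_le_mul_of_nonneg_left hkl (by positivity)
    have h4 : 2 * (W.as k) ^ 2 * W.lam (k + 1) ≤ 1 := by nlinarith
    have h5 : 2 * (W.as k) ^ 2 * (e ^ 2 * W.lam (k + 1)) ≤ e ^ 2 * 1 := by
      have := mul_le_mul_of_nonneg_left h4 (by positivity : 0 ≤ e ^ 2)
      linarith
    linarith
  have hρ1 : ρ ≤ 1 := by
    have : ρ ^ 2 ≤ 1 ^ 2 := by
      rw [hρ2]
      have : 0 ≤ 2 * (W.as k) ^ 2 * W.kap k := by positivity
      linarith
    exact abs_le_of_sq_le_sq' this zero_le_one |>.2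
  have hρe : 1 - ρ ≤ e ^ 2 := by nlinarith
  have hs1 : s ≤ 1 := by nlinarith [sq_nonneg c]
  have hse : 1 - s ≤ 4 * e ^ 2 := by nlinarith
  have q1 : ‖(c * W.al k) • lift t (W.u k)‖ ≤ 251 / 100 * (2 * e) := by
    rw [norm_smul, Real.norm_of_nonneg (by positivity)]
    calc c * W.al k * ‖lift t (W.u k)‖ ≤ c * W.al k * (251 / 100 * √(2 * W.lam k)) :=
          mul_le_mul_of_nonneg_left n1 (by positivity)
      _ = 251 / 100 * (c * (W.al k * √(2 * W.lam k))) := by ring
      _ ≤ _ := by rw [p1, mul_one]; linarith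
  have q2 : ‖(s * W.as k - W.al (k + 1)) • lift t (W.u (k + 1))‖ ≤ 251 / 100 * (5 * e ^ 2) := by
    rw [norm_smul, Real.norm_eq_abs]
    have hneg : s * W.as k - W.al (k + 1) ≤ 0 := by
      have h1 := hasal k
      have h2 : s * W.as k ≤ 1 * W.as k := mul_le_mul_of_nonneg_right hs1 has0.le
      linarith
    rw [abs_of_nonpos hneg]
    calc -(s * W.as k - W.al (k + 1)) * ‖lift t (W.u (k + 1))‖
        ≤ -(s * W.as k - W.al (k + 1)) * (251 / 100 * √(2 * W.lam (k + 1))) :=
          mul_le_mul_of_nonneg_left n2 (by linarith)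
      _ = 251 / 100 * (W.al (k + 1) * √(2 * W.lam (k + 1)) - s * ρ) := by rw [hρ]; ring
      _ ≤ _ := by
        rw [p2]
        have : 0 ≤ (1 - s) * (1 - ρ) := mul_nonneg (by linarith) (by linarith)
        nlinarith
  have q3 : ‖(s * W.as k) • lift t (W.v k)‖ ≤ 251 / 100 * e := by
    rw [norm_smul, Real.norm_of_nonneg (by positivity)]
    have h1 : W.as k * √(2 * W.kap k) ≤ e := by
      have : (W.as k * √(2 * W.kap k)) ^ 2 ≤ e ^ 2 := by
        rw [mul_pow, Real.sq_sqrt (by positivity)]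
        linarith
      exact abs_le_of_sq_le_sq' this he0.le |>.2
    calc s * W.as k * ‖lift t (W.v k)‖ ≤ s * W.as k * (251 / 100 * √(2 * W.kap k)) :=
          mul_le_mul_of_nonneg_left n3 (by positivity)
      _ = 251 / 100 * (s * (W.as k * √(2 * W.kap k))) := by ring
      _ ≤ _ := by
        have h2 : s * (W.as k * √(2 * W.kap k)) ≤ 1 * e :=
          mul_le_mul hs1 h1 (by positivity) zero_le_one
        linarith
  have q4 : ‖lift t (W.Co k t)‖ ≤ 251 / 100 * (34 / 100 * e) := by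
    refine n4.trans ?_
    have h1 : √(2 * π * (13 * W.mm k) ^ 2) ≤ 34 / 100 * e := by
      rw [Real.sqrt_le_left (by positivity)]
      have hm : W.mm k ≤ e / 100 := hs.c6
      have h2 : (13 * W.mm k) ^ 2 ≤ (13 * (e / 100)) ^ 2 :=
        pow_le_pow_left₀ (by positivity) (by linarith) 2
      have h3 : 2 * π * (13 * W.mm k) ^ 2 ≤ 2 * π * (13 * (e / 100)) ^ 2 :=
        mul_le_mul_of_nonneg_left h2 (by positivity)
      have h4 : 2 * π * (13 * (e / 100)) ^ 2 ≤ 6.3 * (13 * (e / 100)) ^ 2 := by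
        apply mul_le_mul_of_nonneg_right _ (by positivity)
        have := Real.pi_lt_d2
        linarith
      have h5 : (6.3 : ℝ) * (13 * (e / 100)) ^ 2 ≤ (34 / 100 * e) ^ 2 := by
        nlinarith [sq_nonneg e]
      linarith
    linarith
  rw [hdec]
  have t1 := norm_add_le ((c * W.al k) • lift t (W.u k)
    + (s * W.as k - W.al (k + 1)) • lift t (W.u (k + 1))
        + (s * W.as k) • lift t (W.v k)) (lift t (W.Co k t))
  have t2 := norm_add_le ((c * W.al k) • lift t (W.u k)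
    + (s * W.as k - W.al (k + 1)) • lift t (W.u (k + 1))) ((s * W.as k) • lift t (W.v k))
  have t3 := norm_add_le ((c * W.al k) • lift t (W.u k))
    ((s * W.as k - W.al (k + 1)) • lift t (W.u (k + 1)))
  nlinarith

end Haraux
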