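import Pool.Agent.Helper27.Har.Base

set_option autoImplicit false

open MeasureTheory Set Real Filter Topology
open scoped ENNReal NNReal

namespace Haraux



private noncomputable def hc_cl (a b t : ℝ) : ℝ := max 0 (min (t - a) (b - a))

private noncomputable def hc_ic (a b t : ℝ) : ℝ := (Ico a b).indicator (fun _ => (1:ℝ)) t

private theorem hc_cl_l {a b t : ℝ} (h : t ≤ a) : hc_cl a b t = 0 := by
  unfold hc_cl
  exact max_eq_left (le_trans (min_le_left _ _) (by linarith))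

private theorem hc_cl_m {a b t : ℝ} (h : a ≤ t) (h' : t ≤ b) : hc_cl a b t = t - a := by
  unfold hc_cl
  rw [min_eq_left (by linarith), max_eq_right (by linarith)]

private theorem hc_cl_r {a b t : ℝ} (hab : a ≤ b) (h : b ≤ t) : hc_cl a b t = b - a := by
  unfold hc_cl
  rw [min_eq_right (by linarith), max_eq_right (by linarith)]

private theorem hc_cl_cont (a b : ℝ) : Continuous (hc_cl a b) := by
  unfold hc_cl
  fun_prop

private theorem hc_ic_in {a b t : ℝ} (h : a ≤ t) (h' : t < b) : hc_ic a b t = 1 :=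
  indicator_of_mem (show t ∈ Ico a b from ⟨h, h'⟩) _

private theorem hc_ic_l {a b t : ℝ} (h : t < a) : hc_ic a b t = 0 :=
  indicator_of_notMem (fun hh : t ∈ Ico a b => absurd hh.1 (not_le.2 h)) _

private theorem hc_ic_r {a b t : ℝ} (h : b ≤ t) : hc_ic a b t = 0 :=
  indicator_of_notMem (fun hh : t ∈ Ico a b => absurd hh.2 (not_lt.2 h)) _

private theorem hc_ic_meas (a b : ℝ) : Measurable (hc_ic a b) :=
  measurable_const.indicator measurableSet_Ico

private theorem hc_ic_mul (a b : ℝ) (f : ℝ → ℝ) :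
    (fun ξ => hc_ic a b ξ * f ξ) = (Ico a b).indicator f := by
  funext ξ
  unfold hc_ic
  by_cases h : ξ ∈ Ico a b
  · rw [indicator_of_mem h, indicator_of_mem h, one_mul]
  · rw [indicator_of_notMem h, indicator_of_notMem h, zero_mul]

private theorem hc_lin {a b : ℝ} (hab : a ≤ b) (f : ℝ → ℝ) (α β : ℝ)
    (h : ∀ t, a ≤ t → t < b → f t = α * t + β) :
    Integrable (fun ξ => hc_ic a b ξ * f ξ) ∧
      ∫ ξ, hc_ic a b ξ * f ξ = α * (b ^ 2 - a ^ 2) / 2 + β * (b - a) := by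
  have hf : (fun ξ => hc_ic a b ξ * f ξ) = (Ico a b).indicator (fun t => α * t + β) := by
    rw [hc_ic_mul]
    funext ξ
    by_cases hξ : ξ ∈ Ico a b
    · rw [indicator_of_mem hξ, indicator_of_mem hξ, h ξ hξ.1 hξ.2]
    · rw [indicator_of_notMem hξ, indicator_of_notMem hξ]
  have hc : Continuous (fun t : ℝ => α * t + β) := by fun_prop
  constructor
  · rw [hf, integrable_indicator_iff measurableSet_Ico]
    exact (hc.integrableOn_Icc).mono_set Ico_subset_Icc_self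
  · rw [hf, integral_indicator measurableSet_Ico, integral_Ico_eq_integral_Ioc,
      ← intervalIntegral.integral_of_le hab]
    rw [intervalIntegral.integral_add (by apply Continuous.intervalIntegrable; fun_prop)
      (by apply Continuous.intervalIntegrable; fun_prop)]
    rw [intervalIntegral.integral_const_mul, integral_id, intervalIntegral.integral_const]
    simp only [smul_eq_mul]
    ring

private theorem hc_ic_intable (a b : ℝ) : Integrable (hc_ic a b) := by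
  unfold hc_ic
  rw [integrable_indicator_iff measurableSet_Ico]
  exact integrableOn_const (by simp)

private theorem hc_ic_int {a b : ℝ} (hab : a ≤ b) : ∫ ξ, hc_ic a b ξ = b - a := by
  have := (hc_lin hab (fun _ => 1) 0 1 (fun t _ _ => by simp)).2
  simpa using this

private theorem hc_deriv (a b x : ℝ) (hab : a ≤ b) :
    HasDerivWithinAt (hc_cl a b) (hc_ic a b x) (Ioi x) x := by
  rcases lt_or_ge x a with h | h
  · rw [hc_ic_l h]
    refine ((hasDerivAt_const x (0:ℝ)).congr_of_eventuallyEq ?_).hasDerivWithinAt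
    filter_upwards [Iio_mem_nhds h] with t ht
    exact hc_cl_l (le_of_lt ht)
  · rcases lt_or_ge x b with h' | h'
    · rw [hc_ic_in h h']
      have h1 : HasDerivWithinAt (fun t : ℝ => t - a) 1 (Ioi x) x :=
        ((hasDerivAt_id x).sub_const a).hasDerivWithinAt
      refine h1.congr_of_eventuallyEq ?_ (hc_cl_m h h'.le)
      filter_upwards [self_mem_nhdsWithin, mem_nhdsWithin_of_mem_nhds (Iio_mem_nhds h')]
        with t ht ht'
      exact hc_cl_m (le_trans h (le_of_lt ht)) (le_of_lt ht')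
    · rw [hc_ic_r h']
      have h1 : HasDerivWithinAt (fun _ : ℝ => b - a) 0 (Ioi x) x :=
        (hasDerivAt_const x (b - a)).hasDerivWithinAt
      refine h1.congr_of_eventuallyEq ?_ (hc_cl_r hab h')
      filter_upwards [self_mem_nhdsWithin] with t ht
      exact hc_cl_r hab (le_trans h' (le_of_lt ht))

private theorem hc_prim {a b : ℝ} (hab : a ≤ b) (s t : ℝ) :
    ∫ ξ in s..t, hc_ic a b ξ = hc_cl a b t - hc_cl a b s :=
  intervalIntegral.integral_eq_sub_of_hasDeriv_right (hc_cl_cont a b).continuousOn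
    (fun x _ => hc_deriv a b x hab) (hc_ic_intable a b).intervalIntegrable

private noncomputable def hc_w (z μ ν t : ℝ) : ℝ :=
  hc_cl z (z + μ) t - hc_cl (z + μ + ν) (z + 3 * μ + ν) t
    + hc_cl (z + 3 * μ + 2 * ν) (z + 4 * μ + 2 * ν) t

private noncomputable def hc_x (z μ ν t : ℝ) : ℝ :=
  hc_cl (z + 3 * μ + ν) (z + 3 * μ + 2 * ν) t - hc_cl (z + μ) (z + μ + ν) t

private noncomputable def hc_iU (z μ ν : ℝ) (s : Bool) (t : ℝ) : ℝ :=
  if s then hc_ic z (z + μ) t + hc_ic (z + 3 * μ + 2 * ν) (z + 4 * μ + 2 * ν) t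
  else hc_ic (z + μ + ν) (z + 3 * μ + ν) t

private noncomputable def hc_iV (z μ ν : ℝ) (s : Bool) (t : ℝ) : ℝ :=
  if s then hc_ic (z + 3 * μ + ν) (z + 3 * μ + 2 * ν) t
  else hc_ic (z + μ) (z + μ + ν) t

private theorem hc_vals (z μ ν : ℝ) (hμ : 0 < μ) (hν : 0 < ν) (t : ℝ) :
    (t < z ∧ hc_iU z μ ν true t = 0 ∧ hc_iU z μ ν false t = 0 ∧ hc_iV z μ ν true t = 0 ∧
      hc_iV z μ ν false t = 0 ∧ hc_w z μ ν t = 0 ∧ hc_x z μ ν t = 0) ∨
    (z ≤ t ∧ t < z + μ ∧ hc_iU z μ ν true t = 1 ∧ hc_iU z μ ν false t = 0 ∧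
      hc_iV z μ ν true t = 0 ∧ hc_iV z μ ν false t = 0 ∧ hc_w z μ ν t = t - z ∧
      hc_x z μ ν t = 0) ∨
    (z + μ ≤ t ∧ t < z + μ + ν ∧ hc_iU z μ ν true t = 0 ∧ hc_iU z μ ν false t = 0 ∧
      hc_iV z μ ν true t = 0 ∧ hc_iV z μ ν false t = 1 ∧ hc_w z μ ν t = μ ∧
      hc_x z μ ν t = -(t - (z + μ))) ∨
    (z + μ + ν ≤ t ∧ t < z + 3 * μ + ν ∧ hc_iU z μ ν true t = 0 ∧ hc_iU z μ ν false t = 1 ∧
      hc_iV z μ ν true t = 0 ∧ hc_iV z μ ν false t = 0 ∧
      hc_w z μ ν t = μ - (t - (z + μ + ν)) ∧ hc_x z μ ν t = -ν) ∨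
    (z + 3 * μ + ν ≤ t ∧ t < z + 3 * μ + 2 * ν ∧ hc_iU z μ ν true t = 0 ∧
      hc_iU z μ ν false t = 0 ∧ hc_iV z μ ν true t = 1 ∧ hc_iV z μ ν false t = 0 ∧
      hc_w z μ ν t = -μ ∧ hc_x z μ ν t = -ν + (t - (z + 3 * μ + ν))) ∨
    (z + 3 * μ + 2 * ν ≤ t ∧ t < z + 4 * μ + 2 * ν ∧ hc_iU z μ ν true t = 1 ∧
      hc_iU z μ ν false t = 0 ∧ hc_iV z μ ν true t = 0 ∧ hc_iV z μ ν false t = 0 ∧
      hc_w z μ ν t = -μ + (t - (z + 3 * μ + 2 * ν)) ∧ hc_x z μ ν t = 0) ∨
    (z + 4 * μ + 2 * ν ≤ t ∧ hc_iU z μ ν true t = 0 ∧ hc_iU z μ ν false t = 0 ∧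
      hc_iV z μ ν true t = 0 ∧ hc_iV z μ ν false t = 0 ∧ hc_w z μ ν t = 0 ∧
      hc_x z μ ν t = 0) := by
  simp only [hc_iU, hc_iV, hc_w, hc_x, if_true, Bool.false_eq_true, if_false]
  rcases lt_or_ge t z with h0 | h0
  · left
    rw [hc_ic_l (by linarith), hc_ic_l (by linarith), hc_ic_l (by linarith),
      hc_ic_l (by linarith), hc_ic_l (by linarith), hc_cl_l (by linarith),
      hc_cl_l (by linarith), hc_cl_l (by linarith), hc_cl_l (by linarith),
      hc_cl_l (by linarith)]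
    refine ⟨h0, ?_, ?_, ?_, ?_, ?_, ?_⟩ <;> ring
  right
  rcases lt_or_ge t (z + μ) with h1 | h1
  · left
    rw [hc_ic_in (a := z) (by linarith) (by linarith),
      hc_ic_l (a := z + 3 * μ + 2 * ν) (by linarith),
      hc_ic_l (a := z + μ + ν) (by linarith), hc_ic_l (a := z + 3 * μ + ν) (by linarith),
      hc_ic_l (a := z + μ) (by linarith), hc_cl_m (a := z) (by linarith) (by linarith),
      hc_cl_l (a := z + μ + ν) (by linarith), hc_cl_l (a := z + 3 * μ + 2 * ν) (by linarith),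
      hc_cl_l (a := z + 3 * μ + ν) (by linarith), hc_cl_l (a := z + μ) (by linarith)]
    refine ⟨h0, h1, ?_, ?_, ?_, ?_, ?_, ?_⟩ <;> ring
  right
  rcases lt_or_ge t (z + μ + ν) with h2 | h2
  · left
    rw [hc_ic_r (b := z + μ) (by linarith),
      hc_ic_l (a := z + 3 * μ + 2 * ν) (by linarith),
      hc_ic_l (a := z + μ + ν) (by linarith), hc_ic_l (a := z + 3 * μ + ν) (by linarith),
      hc_ic_in (a := z + μ) (by linarith) (by linarith),
      hc_cl_r (b := z + μ) (by linarith) (by linarith),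
      hc_cl_l (a := z + μ + ν) (by linarith), hc_cl_l (a := z + 3 * μ + 2 * ν) (by linarith),
      hc_cl_l (a := z + 3 * μ + ν) (by linarith),
      hc_cl_m (a := z + μ) (by linarith) (by linarith)]
    refine ⟨h1, h2, ?_, ?_, ?_, ?_, ?_, ?_⟩ <;> ring
  right
  rcases lt_or_ge t (z + 3 * μ + ν) with h3 | h3
  · left
    rw [hc_ic_r (b := z + μ) (by linarith),
      hc_ic_l (a := z + 3 * μ + 2 * ν) (by linarith),
      hc_ic_in (a := z + μ + ν) (by linarith) (by linarith),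
      hc_ic_l (a := z + 3 * μ + ν) (by linarith),
      hc_ic_r (b := z + μ + ν) (by linarith),
      hc_cl_r (b := z + μ) (by linarith) (by linarith),
      hc_cl_m (a := z + μ + ν) (by linarith) (by linarith),
      hc_cl_l (a := z + 3 * μ + 2 * ν) (by linarith),
      hc_cl_l (a := z + 3 * μ + ν) (by linarith),
      hc_cl_r (b := z + μ + ν) (by linarith) (by linarith)]
    refine ⟨h2, h3, ?_, ?_, ?_, ?_, ?_, ?_⟩ <;> ring
  right
  rcases lt_or_ge t (z + 3 * μ + 2 * ν) with h4 | h4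
  · left
    rw [hc_ic_r (b := z + μ) (by linarith),
      hc_ic_l (a := z + 3 * μ + 2 * ν) (by linarith),
      hc_ic_r (b := z + 3 * μ + ν) (by linarith),
      hc_ic_in (a := z + 3 * μ + ν) (by linarith) (by linarith),
      hc_ic_r (b := z + μ + ν) (by linarith),
      hc_cl_r (b := z + μ) (by linarith) (by linarith),
      hc_cl_r (b := z + 3 * μ + ν) (by linarith) (by linarith),
      hc_cl_l (a := z + 3 * μ + 2 * ν) (by linarith),
      hc_cl_m (a := z + 3 * μ + ν) (by linarith) (by linarith),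
      hc_cl_r (b := z + μ + ν) (by linarith) (by linarith)]
    refine ⟨h3, h4, ?_, ?_, ?_, ?_, ?_, ?_⟩ <;> ring
  right
  rcases lt_or_ge t (z + 4 * μ + 2 * ν) with h5 | h5
  · left
    rw [hc_ic_r (b := z + μ) (by linarith),
      hc_ic_in (a := z + 3 * μ + 2 * ν) (by linarith) (by linarith),
      hc_ic_r (b := z + 3 * μ + ν) (by linarith),
      hc_ic_r (b := z + 3 * μ + 2 * ν) (by linarith),
      hc_ic_r (b := z + μ + ν) (by linarith),
      hc_cl_r (b := z + μ) (by linarith) (by linarith),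
      hc_cl_r (b := z + 3 * μ + ν) (by linarith) (by linarith),
      hc_cl_m (a := z + 3 * μ + 2 * ν) (by linarith) (by linarith),
      hc_cl_r (b := z + 3 * μ + 2 * ν) (by linarith) (by linarith),
      hc_cl_r (b := z + μ + ν) (by linarith) (by linarith)]
    refine ⟨h4, h5, ?_, ?_, ?_, ?_, ?_, ?_⟩ <;> ring
  right
  rw [hc_ic_r (b := z + μ) (by linarith),
      hc_ic_r (b := z + 4 * μ + 2 * ν) (by linarith),
      hc_ic_r (b := z + 3 * μ + ν) (by linarith),
      hc_ic_r (b := z + 3 * μ + 2 * ν) (by linarith),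
      hc_ic_r (b := z + μ + ν) (by linarith),
      hc_cl_r (b := z + μ) (by linarith) (by linarith),
      hc_cl_r (b := z + 3 * μ + ν) (by linarith) (by linarith),
      hc_cl_r (b := z + 4 * μ + 2 * ν) (by linarith) (by linarith),
      hc_cl_r (b := z + 3 * μ + 2 * ν) (by linarith) (by linarith),
      hc_cl_r (b := z + μ + ν) (by linarith) (by linarith)]
  refine ⟨h5, ?_, ?_, ?_, ?_, ?_, ?_⟩ <;> ring

private theorem hc_w1 (z μ ν : ℝ) (hμ : 0 < μ) (hν : 0 < ν) :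
    ∀ t, z ≤ t → t < z + μ → hc_w z μ ν t = 1 * t + (-z) := by
  intro t ha hb
  rcases hc_vals z μ ν hμ hν t with h | h | h | h | h | h | h <;> obtain ⟨h1, h2⟩ := h <;>
    first
      | (exfalso; linarith)
      | (exfalso; linarith [h2.1])
      | (rw [h2.2.2.2.2.2.1]; ring)

private theorem hc_w2 (z μ ν : ℝ) (hμ : 0 < μ) (hν : 0 < ν) :
    ∀ t, z + μ ≤ t → t < z + μ + ν → hc_w z μ ν t = 0 * t + μ := by
  intro t ha hb
  rcases hc_vals z μ ν hμ hν t with h | h | h | h | h | h | h <;> obtain ⟨h1, h2⟩ := h <;>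
    first
      | (exfalso; linarith)
      | (exfalso; linarith [h2.1])
      | (rw [h2.2.2.2.2.2.1]; ring)

private theorem hc_w3 (z μ ν : ℝ) (hμ : 0 < μ) (hν : 0 < ν) :
    ∀ t, z + μ + ν ≤ t → t < z + 3 * μ + ν →
      hc_w z μ ν t = (-1) * t + (2 * μ + ν + z) := by
  intro t ha hb
  rcases hc_vals z μ ν hμ hν t with h | h | h | h | h | h | h <;> obtain ⟨h1, h2⟩ := h <;>
    first
      | (exfalso; linarith)
      | (exfalso; linarith [h2.1])
      | (rw [h2.2.2.2.2.2.1]; ring)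

private theorem hc_w4 (z μ ν : ℝ) (hμ : 0 < μ) (hν : 0 < ν) :
    ∀ t, z + 3 * μ + ν ≤ t → t < z + 3 * μ + 2 * ν →
      hc_w z μ ν t = 0 * t + (-μ) := by
  intro t ha hb
  rcases hc_vals z μ ν hμ hν t with h | h | h | h | h | h | h <;> obtain ⟨h1, h2⟩ := h <;>
    first
      | (exfalso; linarith)
      | (exfalso; linarith [h2.1])
      | (rw [h2.2.2.2.2.2.1]; ring)

private theorem hc_w5 (z μ ν : ℝ) (hμ : 0 < μ) (hν : 0 < ν) :
    ∀ t, z + 3 * μ + 2 * ν ≤ t → t < z + 4 * μ + 2 * ν →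
      hc_w z μ ν t = 1 * t + (-μ - (z + 3 * μ + 2 * ν)) := by
  intro t ha hb
  rcases hc_vals z μ ν hμ hν t with h | h | h | h | h | h | h <;> obtain ⟨h1, h2⟩ := h <;>
    first
      | (exfalso; linarith)
      | (exfalso; linarith [h2.1])
      | (rw [h2.2.2.2.2.2.1]; ring)

private theorem hc_x1 (z μ ν : ℝ) (hμ : 0 < μ) (hν : 0 < ν) :
    ∀ t, z ≤ t → t < z + μ → hc_x z μ ν t = 0 * t + 0 := by
  intro t ha hb
  rcases hc_vals z μ ν hμ hν t with h | h | h | h | h | h | h <;> obtain ⟨h1, h2⟩ := h <;>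
    first
      | (exfalso; linarith)
      | (exfalso; linarith [h2.1])
      | (rw [h2.2.2.2.2.2.2]; ring)

private theorem hc_x2 (z μ ν : ℝ) (hμ : 0 < μ) (hν : 0 < ν) :
    ∀ t, z + μ ≤ t → t < z + μ + ν → hc_x z μ ν t = (-1) * t + (z + μ) := by
  intro t ha hb
  rcases hc_vals z μ ν hμ hν t with h | h | h | h | h | h | h <;> obtain ⟨h1, h2⟩ := h <;>
    first
      | (exfalso; linarith)
      | (exfalso; linarith [h2.1])
      | (rw [h2.2.2.2.2.2.2]; ring)

private theorem hc_x3 (z μ ν : ℝ) (hμ : 0 < μ) (hν : 0 < ν) :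
    ∀ t, z + μ + ν ≤ t → t < z + 3 * μ + ν →
      hc_x z μ ν t = 0 * t + (-ν) := by
  intro t ha hb
  rcases hc_vals z μ ν hμ hν t with h | h | h | h | h | h | h <;> obtain ⟨h1, h2⟩ := h <;>
    first
      | (exfalso; linarith)
      | (exfalso; linarith [h2.1])
      | (rw [h2.2.2.2.2.2.2]; ring)

private theorem hc_x4 (z μ ν : ℝ) (hμ : 0 < μ) (hν : 0 < ν) :
    ∀ t, z + 3 * μ + ν ≤ t → t < z + 3 * μ + 2 * ν →
      hc_x z μ ν t = 1 * t + (-ν - (z + 3 * μ + ν)) := by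
  intro t ha hb
  rcases hc_vals z μ ν hμ hν t with h | h | h | h | h | h | h <;> obtain ⟨h1, h2⟩ := h <;>
    first
      | (exfalso; linarith)
      | (exfalso; linarith [h2.1])
      | (rw [h2.2.2.2.2.2.2]; ring)

private theorem hc_x5 (z μ ν : ℝ) (hμ : 0 < μ) (hν : 0 < ν) :
    ∀ t, z + 3 * μ + 2 * ν ≤ t → t < z + 4 * μ + 2 * ν →
      hc_x z μ ν t = 0 * t + 0 := by
  intro t ha hb
  rcases hc_vals z μ ν hμ hν t with h | h | h | h | h | h | h <;> obtain ⟨h1, h2⟩ := h <;>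
    first
      | (exfalso; linarith)
      | (exfalso; linarith [h2.1])
      | (rw [h2.2.2.2.2.2.2]; ring)

private theorem hc_hsum (z μ ν : ℝ) (hμ : 0 < μ) (hν : 0 < ν) :
    ∀ f : ℝ → ℝ, (∀ t, hc_iU z μ ν true t + hc_iU z μ ν false t + hc_iV z μ ν true t
      + hc_iV z μ ν false t = 0 → f t = 0) → ∀ t, f t =
      hc_ic z (z + μ) t * f t + hc_ic (z + μ) (z + μ + ν) t * f t
      + hc_ic (z + μ + ν) (z + 3 * μ + ν) t * f t
      + hc_ic (z + 3 * μ + ν) (z + 3 * μ + 2 * ν) t * f t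
      + hc_ic (z + 3 * μ + 2 * ν) (z + 4 * μ + 2 * ν) t * f t := by
  intro f hf t
  have key : hc_ic z (z + μ) t * f t + hc_ic (z + μ) (z + μ + ν) t * f t
    + hc_ic (z + μ + ν) (z + 3 * μ + ν) t * f t
    + hc_ic (z + 3 * μ + ν) (z + 3 * μ + 2 * ν) t * f t
    + hc_ic (z + 3 * μ + 2 * ν) (z + 4 * μ + 2 * ν) t * f t =
    (hc_iU z μ ν true t + hc_iU z μ ν false t + hc_iV z μ ν true t
    + hc_iV z μ ν false t) * f t := by
    simp only [hc_iU, hc_iV, if_true, Bool.false_eq_true, if_false]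
    ring
  rw [key]
  by_cases h : hc_iU z μ ν true t + hc_iU z μ ν false t + hc_iV z μ ν true t
    + hc_iV z μ ν false t = 0
  · rw [hf t h, mul_zero]
  · have : hc_iU z μ ν true t + hc_iU z μ ν false t + hc_iV z μ ν true t
      + hc_iV z μ ν false t = 1 := by
      rcases hc_vals z μ ν hμ hν t with h' | h' | h' | h' | h' | h' | h'
      · obtain ⟨_, a1, a2, a3, a4, _⟩ := h'
        rw [a1, a2, a3, a4] at h; norm_num at h
      · obtain ⟨_, _, a1, a2, a3, a4, _⟩ := h'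
        rw [a1, a2, a3, a4]; norm_num
      · obtain ⟨_, _, a1, a2, a3, a4, _⟩ := h'
        rw [a1, a2, a3, a4]; norm_num
      · obtain ⟨_, _, a1, a2, a3, a4, _⟩ := h'
        rw [a1, a2, a3, a4]; norm_num
      · obtain ⟨_, _, a1, a2, a3, a4, _⟩ := h'
        rw [a1, a2, a3, a4]; norm_num
      · obtain ⟨_, _, a1, a2, a3, a4, _⟩ := h'
        rw [a1, a2, a3, a4]; norm_num
      · obtain ⟨_, a1, a2, a3, a4, _⟩ := h'
        rw [a1, a2, a3, a4] at h; norm_num at h
    rw [this, one_mul]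

private theorem hc_hoff (z μ ν : ℝ) (hμ : 0 < μ) (hν : 0 < ν) :
    ∀ t, hc_iU z μ ν true t + hc_iU z μ ν false t + hc_iV z μ ν true t
      + hc_iV z μ ν false t = 0 → hc_w z μ ν t = 0 ∧ hc_x z μ ν t = 0 := by
  intro t h
  rcases hc_vals z μ ν hμ hν t with h' | h' | h' | h' | h' | h' | h'
  · exact ⟨h'.2.2.2.2.2.1, h'.2.2.2.2.2.2⟩
  · obtain ⟨_, _, a1, a2, a3, a4, _⟩ := h'
    rw [a1, a2, a3, a4] at h; norm_num at h
  · obtain ⟨_, _, a1, a2, a3, a4, _⟩ := h'
    rw [a1, a2, a3, a4] at h; norm_num at h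
  · obtain ⟨_, _, a1, a2, a3, a4, _⟩ := h'
    rw [a1, a2, a3, a4] at h; norm_num at h
  · obtain ⟨_, _, a1, a2, a3, a4, _⟩ := h'
    rw [a1, a2, a3, a4] at h; norm_num at h
  · obtain ⟨_, _, a1, a2, a3, a4, _⟩ := h'
    rw [a1, a2, a3, a4] at h; norm_num at h
  · exact ⟨h'.2.2.2.2.2.1, h'.2.2.2.2.2.2⟩

private theorem hc_sum5 (f1 f2 f3 f4 f5 : ℝ → ℝ) (h1 : Integrable f1) (h2 : Integrable f2)
    (h3 : Integrable f3) (h4 : Integrable f4) (h5 : Integrable f5) :
    ∫ t, (f1 t + f2 t + f3 t + f4 t + f5 t) =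
      (∫ t, f1 t) + (∫ t, f2 t) + (∫ t, f3 t) + (∫ t, f4 t) + ∫ t, f5 t := by
  have e4 : Integrable (fun t => f1 t + f2 t + f3 t + f4 t) := ((h1.add h2).add h3).add h4
  have e3 : Integrable (fun t => f1 t + f2 t + f3 t) := (h1.add h2).add h3
  have e2 : Integrable (fun t => f1 t + f2 t) := h1.add h2
  rw [integral_add e4 h5, integral_add e3 h4, integral_add e2 h3, integral_add h1 h2]

private theorem hc_w0 (z μ ν : ℝ) (hμ : 0 < μ) (hν : 0 < ν) : ∫ t, hc_w z μ ν t = 0 := by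
  obtain ⟨iw1, vw1⟩ := hc_lin (by linarith) _ _ _ (hc_w1 z μ ν hμ hν)
  obtain ⟨iw2, vw2⟩ := hc_lin (by linarith) _ _ _ (hc_w2 z μ ν hμ hν)
  obtain ⟨iw3, vw3⟩ := hc_lin (by linarith) _ _ _ (hc_w3 z μ ν hμ hν)
  obtain ⟨iw4, vw4⟩ := hc_lin (by linarith) _ _ _ (hc_w4 z μ ν hμ hν)
  obtain ⟨iw5, vw5⟩ := hc_lin (by linarith) _ _ _ (hc_w5 z μ ν hμ hν)
  have := hc_hsum z μ ν hμ hν (hc_w z μ ν) (fun t h => (hc_hoff z μ ν hμ hν t h).1)
  rw [integral_congr_ae (Filter.Eventually.of_forall this), hc_sum5 _ _ _ _ _ iw1 iw2 iw3 iw4 iw5,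
    vw1, vw2, vw3, vw4, vw5]
  ring

private theorem hc_x0 (z μ ν : ℝ) (hμ : 0 < μ) (hν : 0 < ν) :
    ∫ t, hc_x z μ ν t = -(2 * μ * ν + ν ^ 2) := by
  obtain ⟨iw1, vw1⟩ := hc_lin (by linarith) _ _ _ (hc_x1 z μ ν hμ hν)
  obtain ⟨iw2, vw2⟩ := hc_lin (by linarith) _ _ _ (hc_x2 z μ ν hμ hν)
  obtain ⟨iw3, vw3⟩ := hc_lin (by linarith) _ _ _ (hc_x3 z μ ν hμ hν)
  obtain ⟨iw4, vw4⟩ := hc_lin (by linarith) _ _ _ (hc_x4 z μ ν hμ hν)
  obtain ⟨iw5, vw5⟩ := hc_lin (by linarith) _ _ _ (hc_x5 z μ ν hμ hν)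
  have := hc_hsum z μ ν hμ hν (hc_x z μ ν) (fun t h => (hc_hoff z μ ν hμ hν t h).2)
  rw [integral_congr_ae (Filter.Eventually.of_forall this), hc_sum5 _ _ _ _ _ iw1 iw2 iw3 iw4 iw5,
    vw1, vw2, vw3, vw4, vw5]
  ring

/-- half a cell, on `[z, z+4μ+2ν)` -/
theorem half_cell (z μ ν : ℝ) (hμ : 0 < μ) (hν : 0 < ν) :
    ∃ (iU iV : Bool → ℝ → ℝ) (w x : ℝ → ℝ),
      LineProps z (4 * μ + 2 * ν) μ (2 * μ) ν (fun s => if s then 0 else -(2 * μ * ν))
        (fun _ => -(ν ^ 2 / 2)) (-(2 * μ * ν + ν ^ 2)) iU iV w x ν := by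
  refine ⟨hc_iU z μ ν, hc_iV z μ ν, hc_w z μ ν, hc_x z μ ν, ?_⟩
  refine
    { mU := ?_, mV := ?_, zoU := ?_, zoV := ?_, disj := ?_, supp := ?_, off := hc_hoff z μ ν hμ hν,
      intU := ?_, intV := ?_, contw := ?_, contx := ?_, primw := ?_, primx := ?_, wle := ?_,
      xle := ?_, wV := ?_, Uw := ?_, Ux := ?_, Vx := ?_, w0 := ?_, x0 := ?_ }
  · intro s
    cases s
    · exact hc_ic_meas _ _
    · exact (hc_ic_meas _ _).add (hc_ic_meas _ _)
  · intro s
    cases s
    · exact hc_ic_meas _ _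
    · exact hc_ic_meas _ _
  · intro s t
    rcases hc_vals z μ ν hμ hν t with h' | h' | h' | h' | h' | h' | h'
    · obtain ⟨_, a1, a2, a3, a4, _⟩ := h'
      cases s <;> simp [a1, a2]
    all_goals
      first
      | (obtain ⟨_, _, a1, a2, a3, a4, _⟩ := h'
         cases s <;> simp [a1, a2])
      | (obtain ⟨_, a1, a2, a3, a4, _⟩ := h'
         cases s <;> simp [a1, a2])
  · intro s t
    rcases hc_vals z μ ν hμ hν t with h' | h' | h' | h' | h' | h' | h'
    · obtain ⟨_, a1, a2, a3, a4, _⟩ := h'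
      cases s <;> simp [a3, a4]
    all_goals
      first
      | (obtain ⟨_, _, a1, a2, a3, a4, _⟩ := h'
         cases s <;> simp [a3, a4])
      | (obtain ⟨_, a1, a2, a3, a4, _⟩ := h'
         cases s <;> simp [a3, a4])
  · intro t
    rcases hc_vals z μ ν hμ hν t with h' | h' | h' | h' | h' | h' | h'
    · obtain ⟨_, a1, a2, a3, a4, _⟩ := h'
      rw [a1, a2, a3, a4]; norm_num
    · obtain ⟨_, _, a1, a2, a3, a4, _⟩ := h'
      rw [a1, a2, a3, a4]; norm_num
    · obtain ⟨_, _, a1, a2, a3, a4, _⟩ := h'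
      rw [a1, a2, a3, a4]; norm_num
    · obtain ⟨_, _, a1, a2, a3, a4, _⟩ := h'
      rw [a1, a2, a3, a4]; norm_num
    · obtain ⟨_, _, a1, a2, a3, a4, _⟩ := h'
      rw [a1, a2, a3, a4]; norm_num
    · obtain ⟨_, _, a1, a2, a3, a4, _⟩ := h'
      rw [a1, a2, a3, a4]; norm_num
    · obtain ⟨_, a1, a2, a3, a4, _⟩ := h'
      rw [a1, a2, a3, a4]; norm_num
  · intro t ht
    have ht' : ¬ (z ≤ t ∧ t < z + (4 * μ + 2 * ν)) := ht
    rcases hc_vals z μ ν hμ hν t with h' | h' | h' | h' | h' | h' | h'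
    · obtain ⟨_, a1, a2, a3, a4, _⟩ := h'
      rw [a1, a2, a3, a4]; norm_num
    · exact absurd ⟨by linarith [h'.1], by linarith [h'.2.1]⟩ ht'
    · exact absurd ⟨by linarith [h'.1], by linarith [h'.2.1]⟩ ht'
    · exact absurd ⟨by linarith [h'.1], by linarith [h'.2.1]⟩ ht'
    · exact absurd ⟨by linarith [h'.1], by linarith [h'.2.1]⟩ ht'
    · exact absurd ⟨by linarith [h'.1], by linarith [h'.2.1]⟩ ht'
    · obtain ⟨_, a1, a2, a3, a4, _⟩ := h'
      rw [a1, a2, a3, a4]; norm_num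
  · intro s
    cases s
    · simp only [hc_iU, Bool.false_eq_true, if_false]
      rw [hc_ic_int (by linarith)]; ring
    · simp only [hc_iU, if_true]
      rw [integral_add (hc_ic_intable _ _) (hc_ic_intable _ _), hc_ic_int (by linarith),
        hc_ic_int (by linarith)]
      ring
  · intro s
    cases s
    · simp only [hc_iV, Bool.false_eq_true, if_false]
      rw [hc_ic_int (by linarith)]; ring
    · simp only [hc_iV, if_true]
      rw [hc_ic_int (by linarith)]; ring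
  · exact ((hc_cl_cont _ _).sub (hc_cl_cont _ _)).add (hc_cl_cont _ _)
  · exact (hc_cl_cont _ _).sub (hc_cl_cont _ _)
  · intro a b
    simp only [hc_iU, hc_w, if_true, Bool.false_eq_true, if_false]
    rw [intervalIntegral.integral_sub
      ((hc_ic_intable _ _).intervalIntegrable.add (hc_ic_intable _ _).intervalIntegrable)
      (hc_ic_intable _ _).intervalIntegrable,
      intervalIntegral.integral_add (hc_ic_intable _ _).intervalIntegrable
        (hc_ic_intable _ _).intervalIntegrable,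
      hc_prim (by linarith), hc_prim (by linarith), hc_prim (by linarith)]
    ring
  · intro a b
    simp only [hc_iV, hc_x, if_true, Bool.false_eq_true, if_false]
    rw [intervalIntegral.integral_sub
      (hc_ic_intable _ _).intervalIntegrable
      (hc_ic_intable _ _).intervalIntegrable,
      hc_prim (by linarith), hc_prim (by linarith)]
    ring
  · intro t
    rw [abs_le]
    rcases hc_vals z μ ν hμ hν t with h' | h' | h' | h' | h' | h' | h'
    · rw [h'.2.2.2.2.2.1]; constructor <;> linarith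
    · rw [h'.2.2.2.2.2.2.1]; constructor <;> linarith [h'.1, h'.2.1]
    · rw [h'.2.2.2.2.2.2.1]; constructor <;> linarith [h'.1, h'.2.1]
    · rw [h'.2.2.2.2.2.2.1]; constructor <;> linarith [h'.1, h'.2.1]
    · rw [h'.2.2.2.2.2.2.1]; constructor <;> linarith [h'.1, h'.2.1]
    · rw [h'.2.2.2.2.2.2.1]; constructor <;> linarith [h'.1, h'.2.1]
    · rw [h'.2.2.2.2.2.1]; constructor <;> linarith
  · intro t
    rw [abs_le]
    rcases hc_vals z μ ν hμ hν t with h' | h' | h' | h' | h' | h' | h'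
    · rw [h'.2.2.2.2.2.2]; constructor <;> linarith
    · rw [h'.2.2.2.2.2.2.2]; constructor <;> linarith [h'.1, h'.2.1]
    · rw [h'.2.2.2.2.2.2.2]; constructor <;> linarith [h'.1, h'.2.1]
    · rw [h'.2.2.2.2.2.2.2]; constructor <;> linarith [h'.1, h'.2.1]
    · rw [h'.2.2.2.2.2.2.2]; constructor <;> linarith [h'.1, h'.2.1]
    · rw [h'.2.2.2.2.2.2.2]; constructor <;> linarith [h'.1, h'.2.1]
    · rw [h'.2.2.2.2.2.2]; constructor <;> linarith
  · intro s t hs
    rcases hc_vals z μ ν hμ hν t with h' | h' | h' | h' | h' | h' | h'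
    · obtain ⟨_, a1, a2, a3, a4, a5, a6⟩ := h'
      cases s
      · rw [a4] at hs; norm_num at hs
      · rw [a3] at hs; norm_num at hs
    · obtain ⟨_, _, a1, a2, a3, a4, a5, a6⟩ := h'
      cases s
      · rw [a4] at hs; norm_num at hs
      · rw [a3] at hs; norm_num at hs
    · obtain ⟨_, _, a1, a2, a3, a4, a5, a6⟩ := h'
      cases s
      · rw [a5]; simp [sg]
      · rw [a3] at hs; norm_num at hs
    · obtain ⟨_, _, a1, a2, a3, a4, a5, a6⟩ := h'
      cases s
      · rw [a4] at hs; norm_num at hs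
      · rw [a3] at hs; norm_num at hs
    · obtain ⟨_, _, a1, a2, a3, a4, a5, a6⟩ := h'
      cases s
      · rw [a4] at hs; norm_num at hs
      · rw [a5]; simp [sg]
    · obtain ⟨_, _, a1, a2, a3, a4, a5, a6⟩ := h'
      cases s
      · rw [a4] at hs; norm_num at hs
      · rw [a3] at hs; norm_num at hs
    · obtain ⟨_, a1, a2, a3, a4, a5, a6⟩ := h'
      cases s
      · rw [a4] at hs; norm_num at hs
      · rw [a3] at hs; norm_num at hs
  · intro s
    cases s
    · simp only [hc_iU, Bool.false_eq_true, if_false]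
      rw [(hc_lin (by linarith) _ _ _ (hc_w3 z μ ν hμ hν)).2]; ring
    · simp only [hc_iU, if_true, add_mul]
      obtain ⟨iw1, vw1⟩ := hc_lin (by linarith) _ _ _ (hc_w1 z μ ν hμ hν)
      obtain ⟨iw5, vw5⟩ := hc_lin (by linarith) _ _ _ (hc_w5 z μ ν hμ hν)
      rw [integral_add iw1 iw5, vw1, vw5]; ring
  · intro s
    cases s
    · simp only [hc_iU, Bool.false_eq_true, if_false]
      rw [(hc_lin (by linarith) _ _ _ (hc_x3 z μ ν hμ hν)).2]; ring
    · simp only [hc_iU, if_true, add_mul]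
      obtain ⟨ix1, vx1⟩ := hc_lin (by linarith) _ _ _ (hc_x1 z μ ν hμ hν)
      obtain ⟨ix5, vx5⟩ := hc_lin (by linarith) _ _ _ (hc_x5 z μ ν hμ hν)
      rw [integral_add ix1 ix5, vx1, vx5]; ring
  · intro s
    cases s
    · simp only [hc_iV, Bool.false_eq_true, if_false]
      rw [(hc_lin (by linarith) _ _ _ (hc_x2 z μ ν hμ hν)).2]; ring
    · simp only [hc_iV, if_true]
      rw [(hc_lin (by linarith) _ _ _ (hc_x4 z μ ν hμ hν)).2]; ring
  · exact hc_w0 z μ ν hμ hν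
  · exact hc_x0 z μ ν hμ hν

end Haraux
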