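import Pool.Agent.Helper27.Har.Base

set_option autoImplicit false

open MeasureTheory Set Real Filter Topology
open scoped ENNReal NNReal

namespace Haraux



private theorem j13306_zero {z L μ aU aV c ν : ℝ} {bU bV : Bool → ℝ} {iU iV : Bool → ℝ → ℝ}
    {w x : ℝ → ℝ} (h : LineProps z L μ aU aV bU bV c iU iV w x ν) {ξ : ℝ}
    (hξ : ξ ∉ Ico z (z + L)) : (∀ s, iU s ξ = 0) ∧ (∀ s, iV s ξ = 0) ∧ w ξ = 0 ∧ x ξ = 0 := by
  have hs := h.supp ξ hξ
  have h1 : ∀ s, 0 ≤ iU s ξ := by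
    intro s
    rcases h.zoU s ξ with e | e <;> rw [e]
    exact zero_le_one
  have h2 : ∀ s, 0 ≤ iV s ξ := by
    intro s
    rcases h.zoV s ξ with e | e <;> rw [e]
    exact zero_le_one
  have a1 := h1 true
  have a2 := h1 false
  have a3 := h2 true
  have a4 := h2 false
  refine ⟨?_, ?_, h.off ξ hs⟩
  · intro s
    cases s
    · linarith
    · linarith
  · intro s
    cases s
    · linarith
    · linarith

private theorem j13306_int {f : ℝ → ℝ} (hf : Measurable f) {C z L : ℝ} (hC : ∀ ξ, |f ξ| ≤ C)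
    (h0 : ∀ ξ, ξ ∉ Ico z (z + L) → f ξ = 0) : Integrable f := by
  have h1 : f = (Ico z (z + L)).indicator f := by
    funext ξ
    by_cases h : ξ ∈ Ico z (z + L)
    · rw [Set.indicator_of_mem h]
    · rw [Set.indicator_of_notMem h, h0 ξ h]
  rw [h1]
  refine IntegrableOn.integrable_indicator ?_ measurableSet_Ico
  refine Measure.integrableOn_of_bounded (M := C) ?_ hf.aestronglyMeasurable ?_
  · rw [Real.volume_Ico]; exact ENNReal.ofReal_ne_top
  · exact Filter.Eventually.of_forall hC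

private theorem j13306_all {z L μ aU aV c ν : ℝ} {bU bV : Bool → ℝ} {iU iV : Bool → ℝ → ℝ}
    {w x : ℝ → ℝ} (h : LineProps z L μ aU aV bU bV c iU iV w x ν) :
    (∀ s, Integrable (iU s)) ∧ (∀ s, Integrable (iV s)) ∧ Integrable w ∧ Integrable x ∧
    (∀ s, Integrable (fun ξ => iU s ξ * w ξ)) ∧ (∀ s, Integrable (fun ξ => iU s ξ * x ξ)) ∧
    (∀ s, Integrable (fun ξ => iV s ξ * x ξ)) := by
  have hU1 : ∀ s ξ, |iU s ξ| ≤ 1 := by
    intro s ξ
    rcases h.zoU s ξ with e | e <;> rw [e] <;> simp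
  have hV1 : ∀ s ξ, |iV s ξ| ≤ 1 := by
    intro s ξ
    rcases h.zoV s ξ with e | e <;> rw [e] <;> simp
  have hmul : ∀ a b B : ℝ, |a| ≤ 1 → |b| ≤ B → |a * b| ≤ B := by
    intro a b B ha hb
    rw [abs_mul]
    calc |a| * |b| ≤ 1 * |b| := mul_le_mul_of_nonneg_right ha (abs_nonneg _)
      _ ≤ B := by rw [one_mul]; exact hb
  refine ⟨fun s => ?_, fun s => ?_, ?_, ?_, fun s => ?_, fun s => ?_, fun s => ?_⟩
  · exact j13306_int (h.mU s) (hU1 s) fun ξ hξ => (j13306_zero h hξ).1 s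
  · exact j13306_int (h.mV s) (hV1 s) fun ξ hξ => (j13306_zero h hξ).2.1 s
  · exact j13306_int h.contw.measurable h.wle fun ξ hξ => (j13306_zero h hξ).2.2.1
  · exact j13306_int h.contx.measurable h.xle fun ξ hξ => (j13306_zero h hξ).2.2.2
  · exact j13306_int ((h.mU s).mul h.contw.measurable)
      (fun ξ => hmul _ _ _ (hU1 s ξ) (h.wle ξ)) fun ξ hξ => by
        rw [(j13306_zero h hξ).1 s, zero_mul]
  · exact j13306_int ((h.mU s).mul h.contx.measurable)
      (fun ξ => hmul _ _ _ (hU1 s ξ) (h.xle ξ)) fun ξ hξ => by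
        rw [(j13306_zero h hξ).1 s, zero_mul]
  · exact j13306_int ((h.mV s).mul h.contx.measurable)
      (fun ξ => hmul _ _ _ (hV1 s ξ) (h.xle ξ)) fun ξ hξ => by
        rw [(j13306_zero h hξ).2.1 s, zero_mul]

/-- juxtaposition of two patterns with the same `μ`, `ν` on consecutive intervals -/
theorem line_add (z L1 L2 μ ν aU1 aU2 aV1 aV2 c1 c2 : ℝ) (bU1 bU2 bV1 bV2 : Bool → ℝ)
    (hL1 : 0 ≤ L1) (hL2 : 0 ≤ L2) (iU1 iV1 iU2 iV2 : Bool → ℝ → ℝ) (w1 x1 w2 x2 : ℝ → ℝ)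
    (h1 : LineProps z L1 μ aU1 aV1 bU1 bV1 c1 iU1 iV1 w1 x1 ν)
    (h2 : LineProps (z + L1) L2 μ aU2 aV2 bU2 bV2 c2 iU2 iV2 w2 x2 ν) :
    LineProps z (L1 + L2) μ (aU1 + aU2) (aV1 + aV2) (fun s => bU1 s + bU2 s)
      (fun s => bV1 s + bV2 s) (c1 + c2) (fun s ξ => iU1 s ξ + iU2 s ξ)
      (fun s ξ => iV1 s ξ + iV2 s ξ) (fun ξ => w1 ξ + w2 ξ) (fun ξ => x1 ξ + x2 ξ) ν := by
  obtain ⟨iU1', iV1', iw1, ix1, iUw1, iUx1, iVx1⟩ := j13306_all h1
  obtain ⟨iU2', iV2', iw2, ix2, iUw2, iUx2, iVx2⟩ := j13306_all h2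
  have key : ∀ ξ, ((∀ s, iU1 s ξ = 0) ∧ (∀ s, iV1 s ξ = 0) ∧ w1 ξ = 0 ∧ x1 ξ = 0) ∨
      ((∀ s, iU2 s ξ = 0) ∧ (∀ s, iV2 s ξ = 0) ∧ w2 ξ = 0 ∧ x2 ξ = 0) := by
    intro ξ
    by_cases hξ : ξ ∈ Ico z (z + L1)
    · right
      apply j13306_zero h2
      intro h
      exact absurd hξ.2 (not_lt.2 h.1)
    · left
      exact j13306_zero h1 hξ
  refine
    { mU := fun s => (h1.mU s).add (h2.mU s)
      mV := fun s => (h1.mV s).add (h2.mV s)
      zoU := ?_
      zoV := ?_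
      disj := ?_
      supp := ?_
      off := ?_
      intU := ?_
      intV := ?_
      contw := h1.contw.add h2.contw
      contx := h1.contx.add h2.contx
      primw := ?_
      primx := ?_
      wle := ?_
      xle := ?_
      wV := ?_
      Uw := ?_
      Ux := ?_
      Vx := ?_
      w0 := ?_
      x0 := ?_ }
  · intro s ξ
    rcases key ξ with ⟨k1, k2, k3, k4⟩ | ⟨k1, k2, k3, k4⟩
    · simp only [k1, zero_add]; exact h2.zoU s ξ
    · simp only [k1, add_zero]; exact h1.zoU s ξ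
  · intro s ξ
    rcases key ξ with ⟨k1, k2, k3, k4⟩ | ⟨k1, k2, k3, k4⟩
    · simp only [k2, zero_add]; exact h2.zoV s ξ
    · simp only [k2, add_zero]; exact h1.zoV s ξ
  · intro ξ
    rcases key ξ with ⟨k1, k2, k3, k4⟩ | ⟨k1, k2, k3, k4⟩
    · simp only [k1, k2, zero_add]; exact h2.disj ξ
    · simp only [k1, k2, add_zero]; exact h1.disj ξ
  · intro ξ hξ
    have n1 : ξ ∉ Ico z (z + L1) := fun h => hξ ⟨h.1, by linarith [h.2]⟩
    have n2 : ξ ∉ Ico (z + L1) (z + L1 + L2) := fun h => hξ ⟨by linarith [h.1], by linarith [h.2]⟩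
    obtain ⟨k1, k2, _, _⟩ := j13306_zero h1 n1
    obtain ⟨l1, l2, _, _⟩ := j13306_zero h2 n2
    simp only [k1, k2, l1, l2, add_zero]
  · intro ξ hξ
    rcases key ξ with ⟨k1, k2, k3, k4⟩ | ⟨k1, k2, k3, k4⟩
    · simp only [k1, k2, k3, k4, zero_add] at hξ ⊢; exact h2.off ξ hξ
    · simp only [k1, k2, k3, k4, add_zero] at hξ ⊢; exact h1.off ξ hξ
  · intro s
    rw [integral_add (iU1' s) (iU2' s), h1.intU, h2.intU]
  · intro s
    rw [integral_add (iV1' s) (iV2' s), h1.intV, h2.intV]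
  · intro a b
    have e1 : (fun ξ => iU1 true ξ + iU2 true ξ - (iU1 false ξ + iU2 false ξ)) =
        fun ξ => (iU1 true ξ - iU1 false ξ) + (iU2 true ξ - iU2 false ξ) := by
      funext ξ; ring
    simp only [e1]
    have e2 := intervalIntegral.integral_add (μ := volume) (a := a) (b := b)
      (f := fun ξ => iU1 true ξ - iU1 false ξ) (g := fun ξ => iU2 true ξ - iU2 false ξ)
      ((iU1' true).sub (iU1' false)).intervalIntegrable
      ((iU2' true).sub (iU2' false)).intervalIntegrable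
    rw [e2]
    have p1 := h1.primw a b
    have p2 := h2.primw a b
    linarith
  · intro a b
    have e1 : (fun ξ => iV1 true ξ + iV2 true ξ - (iV1 false ξ + iV2 false ξ)) =
        fun ξ => (iV1 true ξ - iV1 false ξ) + (iV2 true ξ - iV2 false ξ) := by
      funext ξ; ring
    simp only [e1]
    have e2 := intervalIntegral.integral_add (μ := volume) (a := a) (b := b)
      (f := fun ξ => iV1 true ξ - iV1 false ξ) (g := fun ξ => iV2 true ξ - iV2 false ξ)
      ((iV1' true).sub (iV1' false)).intervalIntegrable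
      ((iV2' true).sub (iV2' false)).intervalIntegrable
    rw [e2]
    have p1 := h1.primx a b
    have p2 := h2.primx a b
    linarith
  · intro ξ
    rcases key ξ with ⟨k1, k2, k3, k4⟩ | ⟨k1, k2, k3, k4⟩
    · simp only [k3, zero_add]; exact h2.wle ξ
    · simp only [k3, add_zero]; exact h1.wle ξ
  · intro ξ
    rcases key ξ with ⟨k1, k2, k3, k4⟩ | ⟨k1, k2, k3, k4⟩
    · simp only [k4, zero_add]; exact h2.xle ξ
    · simp only [k4, add_zero]; exact h1.xle ξ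
  · intro s ξ hξ
    rcases key ξ with ⟨k1, k2, k3, k4⟩ | ⟨k1, k2, k3, k4⟩
    · simp only [k2, k3, zero_add] at hξ ⊢; exact h2.wV s ξ hξ
    · simp only [k2, k3, add_zero] at hξ ⊢; exact h1.wV s ξ hξ
  · intro s
    have e1 : (fun ξ => (iU1 s ξ + iU2 s ξ) * (w1 ξ + w2 ξ)) =
        fun ξ => iU1 s ξ * w1 ξ + iU2 s ξ * w2 ξ := by
      funext ξ
      rcases key ξ with ⟨k1, k2, k3, k4⟩ | ⟨k1, k2, k3, k4⟩
      · simp only [k1, k3]; ring
      · simp only [k1, k3]; ring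
    simp only [e1]
    rw [integral_add (iUw1 s) (iUw2 s), h1.Uw, h2.Uw, add_zero]
  · intro s
    have e1 : (fun ξ => (iU1 s ξ + iU2 s ξ) * (x1 ξ + x2 ξ)) =
        fun ξ => iU1 s ξ * x1 ξ + iU2 s ξ * x2 ξ := by
      funext ξ
      rcases key ξ with ⟨k1, k2, k3, k4⟩ | ⟨k1, k2, k3, k4⟩
      · simp only [k1, k4]; ring
      · simp only [k1, k4]; ring
    simp only [e1]
    rw [integral_add (iUx1 s) (iUx2 s), h1.Ux, h2.Ux]
  · intro s
    have e1 : (fun ξ => (iV1 s ξ + iV2 s ξ) * (x1 ξ + x2 ξ)) =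
        fun ξ => iV1 s ξ * x1 ξ + iV2 s ξ * x2 ξ := by
      funext ξ
      rcases key ξ with ⟨k1, k2, k3, k4⟩ | ⟨k1, k2, k3, k4⟩
      · simp only [k2, k4]; ring
      · simp only [k2, k4]; ring
    simp only [e1]
    rw [integral_add (iVx1 s) (iVx2 s), h1.Vx, h2.Vx]
  · rw [integral_add iw1 iw2, h1.w0, h2.w0, add_zero]
  · rw [integral_add ix1 ix2, h1.x0, h2.x0]

end Haraux
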