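import Pool.Agent.Helper27.Har.Base

set_option autoImplicit false

open MeasureTheory Set Real Filter Topology
open scoped ENNReal NNReal

namespace Haraux



private theorem line_flip_sg (s : Bool) : sg (!s) = - sg s := by
  cases s <;> simp [sg]

/-- the flipped pattern -/
theorem line_flip (z L μ ν aU aV c : ℝ) (bU bV : Bool → ℝ) (iU iV : Bool → ℝ → ℝ) (w x : ℝ → ℝ)
    (h : LineProps z L μ aU aV bU bV c iU iV w x ν) :
    LineProps z L μ aU aV (fun s => -bU (!s)) (fun s => -bV (!s)) (-c) (fun s => iU (!s))
      (fun s => iV (!s)) (fun ξ => -w ξ) (fun ξ => -x ξ) ν := by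
  constructor
  · intro s; exact h.mU (!s)
  · intro s; exact h.mV (!s)
  · intro s ξ; exact h.zoU (!s) ξ
  · intro s ξ; exact h.zoV (!s) ξ
  · intro ξ
    have := h.disj ξ
    simp only [Bool.not_true, Bool.not_false]
    linarith
  · intro ξ hξ
    have := h.supp ξ hξ
    simp only [Bool.not_true, Bool.not_false]
    linarith
  · intro ξ hξ
    simp only [Bool.not_true, Bool.not_false] at hξ
    have := h.off ξ (by linarith)
    exact ⟨by rw [this.1, neg_zero], by rw [this.2, neg_zero]⟩
  · intro s; exact h.intU (!s)
  · intro s; exact h.intV (!s)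
  · exact h.contw.neg
  · exact h.contx.neg
  · intro a b
    have := h.primw a b
    simp only [Bool.not_true, Bool.not_false]
    rw [show (fun ξ => iU false ξ - iU true ξ) = (fun ξ => -(iU true ξ - iU false ξ)) from by
      funext ξ; ring, intervalIntegral.integral_neg, this]
    ring
  · intro a b
    have := h.primx a b
    simp only [Bool.not_true, Bool.not_false]
    rw [show (fun ξ => iV false ξ - iV true ξ) = (fun ξ => -(iV true ξ - iV false ξ)) from by
      funext ξ; ring, intervalIntegral.integral_neg, this]
    ring
  · intro ξ; rw [abs_neg]; exact h.wle ξ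
  · intro ξ; rw [abs_neg]; exact h.xle ξ
  · intro s ξ hs
    have := h.wV (!s) ξ hs
    rw [this, line_flip_sg]
    ring
  · intro s
    have := h.Uw (!s)
    simp only [mul_neg]
    rw [MeasureTheory.integral_neg, this, neg_zero]
  · intro s
    have := h.Ux (!s)
    simp only [mul_neg]
    rw [MeasureTheory.integral_neg, this]
  · intro s
    have := h.Vx (!s)
    simp only [mul_neg]
    rw [MeasureTheory.integral_neg, this]
  · rw [MeasureTheory.integral_neg, h.w0, neg_zero]
  · rw [MeasureTheory.integral_neg, h.x0]

end Haraux
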