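import Pool.Agent.Helper27.Har.Base
import Pool.Agent.Helper27.Har.P_half_cell
import Pool.Agent.Helper27.Har.P_line_add
import Pool.Agent.Helper27.Har.P_line_flip

set_option autoImplicit false

open MeasureTheory Set Real Filter Topology
open scoped ENNReal NNReal

namespace Haraux



private theorem line_pattern_congr {z L μ aU aV c ν L' aU' aV' c' : ℝ} {bU bV bU' bV' : Bool → ℝ}
    {iU iV : Bool → ℝ → ℝ} {w x : ℝ → ℝ} (h : LineProps z L μ aU aV bU bV c iU iV w x ν)
    (eL : L = L') (eU : aU = aU') (eV : aV = aV') (eb : bU = bU') (ebV : bV = bV') (ec : c = c') :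
    ∃ (iU iV : Bool → ℝ → ℝ) (w x : ℝ → ℝ), LineProps z L' μ aU' aV' bU' bV' c' iU iV w x ν := by
  subst eL eU eV eb ebV ec
  exact ⟨iU, iV, w, x, h⟩

private theorem line_pattern_cell (z μ ν : ℝ) (hμ : 0 < μ) (hν : 0 < ν) :
    ∃ (iU iV : Bool → ℝ → ℝ) (w x : ℝ → ℝ),
      LineProps z (8 * μ + 4 * ν) μ (4 * μ) (2 * ν) (fun s => sg s * (2 * μ * ν))
        (fun _ => 0) 0 iU iV w x ν := by
  obtain ⟨iU1, iV1, w1, x1, h1⟩ := half_cell z μ ν hμ hν
  obtain ⟨iU2, iV2, w2, x2, h2⟩ := half_cell (z + (4 * μ + 2 * ν)) μ ν hμ hν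
  have h3 := line_flip _ _ _ _ _ _ _ _ _ _ _ _ _ h2
  have hL : (0 : ℝ) ≤ 4 * μ + 2 * ν := by positivity
  have h4 := line_add z _ _ _ _ _ _ _ _ _ _ _ _ _ _ hL hL _ _ _ _ _ _ _ _ h1 h3
  refine line_pattern_congr h4 (by ring) (by ring) (by ring) ?_ ?_ (by ring)
  · funext s
    cases s
    · simp [sg]
    · simp [sg]
  · funext s
    ring

/-- `n` cells -/
theorem line_pattern (z μ ν : ℝ) (n : ℕ) (hμ : 0 < μ) (hν : 0 < ν) :
    ∃ (iU iV : Bool → ℝ → ℝ) (w x : ℝ → ℝ),
      LineProps z (n * (8 * μ + 4 * ν)) μ (4 * μ * n) (2 * ν * n) (fun s => sg s * (2 * μ * ν * n))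
        (fun _ => 0) 0 iU iV w x ν := by
  induction n with
  | zero =>
    refine ⟨fun _ _ => 0, fun _ _ => 0, fun _ => 0, fun _ => 0, ?_⟩
    exact {
      mU := fun s => measurable_const
      mV := fun s => measurable_const
      zoU := fun s ξ => Or.inl rfl
      zoV := fun s ξ => Or.inl rfl
      disj := fun ξ => by norm_num
      supp := fun ξ _ => by norm_num
      off := fun ξ _ => ⟨rfl, rfl⟩
      intU := fun s => by simp
      intV := fun s => by simp
      contw := continuous_const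
      contx := continuous_const
      primw := fun a b => by simp
      primx := fun a b => by simp
      wle := fun ξ => by simpa using hμ.le
      xle := fun ξ => by simpa using hν.le
      wV := fun s ξ h => by norm_num at h
      Uw := fun s => by simp
      Ux := fun s => by simp
      Vx := fun s => by simp
      w0 := by simp
      x0 := by simp }
  | succ n ih =>
    obtain ⟨iU1, iV1, w1, x1, h1⟩ := ih
    obtain ⟨iU2, iV2, w2, x2, h2⟩ := line_pattern_cell (z + n * (8 * μ + 4 * ν)) μ ν hμ hν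
    have hL1 : (0 : ℝ) ≤ n * (8 * μ + 4 * ν) := by positivity
    have hL2 : (0 : ℝ) ≤ 8 * μ + 4 * ν := by positivity
    have h4 := line_add z _ _ _ _ _ _ _ _ _ _ _ _ _ _ hL1 hL2 _ _ _ _ _ _ _ _ h1 h2
    refine line_pattern_congr h4 (by push_cast; ring) (by push_cast; ring) (by push_cast; ring)
      ?_ ?_ (by ring)
    · funext s
      push_cast
      ring
    · funext s
      ring

end Haraux
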