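import Pool.Agent.Helper27.Har.Base
import Pool.Agent.Helper27.Har.P_line_pattern

set_option autoImplicit false

open MeasureTheory Set Real Filter Topology
open scoped ENNReal NNReal

namespace Haraux


/-! private lemmas -/

private theorem perP_mem (ξ : ℝ) : toIcoMod Real.two_pi_pos 0 ξ ∈ Ico (0:ℝ) (2 * π) := by
  have := toIcoMod_mem_Ico Real.two_pi_pos (0:ℝ) ξ
  simpa using this

private theorem perP_id {ξ : ℝ} (h : ξ ∈ Ico (0:ℝ) (2 * π)) :
    toIcoMod Real.two_pi_pos 0 ξ = ξ := by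
  rw [toIcoMod_eq_self]
  simpa using h

private theorem perP_per : Function.Periodic (fun ξ : ℝ => toIcoMod Real.two_pi_pos 0 ξ) (2 * π) := by
  intro ξ
  exact toIcoMod_add_right Real.two_pi_pos 0 ξ

private theorem perP_meas : Measurable (fun ξ : ℝ => toIcoMod Real.two_pi_pos 0 ξ) := by
  have : (fun ξ : ℝ => toIcoMod Real.two_pi_pos 0 ξ) =
      fun ξ => Int.fract (ξ / (2 * π)) * (2 * π) := by
    funext ξ
    have := toIcoMod_eq_add_fract_mul Real.two_pi_pos (0:ℝ) ξ
    rw [this]; simp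
  rw [this]
  exact (measurable_fract.comp (measurable_id.div_const _)).mul_const _

private theorem per_int (g : ℝ → ℝ) (hg : ∀ ξ, ξ ∉ Ico (0:ℝ) (2 * π) → g ξ = 0) :
    ∫ ξ in (0:ℝ)..(2 * π), g (toIcoMod Real.two_pi_pos 0 ξ) = ∫ ξ, g ξ := by
  rw [intervalIntegral.integral_of_le Real.two_pi_pos.le, ← integral_Ico_eq_integral_Ioc]
  rw [setIntegral_congr_fun (g := g) measurableSet_Ico
    (fun ξ hξ => by simp only [perP_id hξ])]
  exact setIntegral_eq_integral_of_forall_compl_eq_zero hg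

private theorem per_cont (w : ℝ → ℝ) (hw : Continuous w) (h0 : w 0 = w (2 * π)) :
    Continuous (fun ξ => w (toIcoMod Real.two_pi_pos 0 ξ)) := by
  have : Fact (0 < 2 * π) := ⟨Real.two_pi_pos⟩
  have h1 : Continuous (AddCircle.liftIco (2 * π) 0 w) :=
    AddCircle.liftIco_continuous (by simpa using h0) hw.continuousOn
  have h2 : (fun ξ => w (toIcoMod Real.two_pi_pos 0 ξ)) =
      fun ξ : ℝ => AddCircle.liftIco (2 * π) 0 w (ξ : AddCircle (2 * π)) := by
    funext ξ
    rfl
  rw [h2]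
  exact h1.comp (AddCircle.continuous_mk' _)

private theorem per_prim (φ w : ℝ → ℝ) (hφ : Measurable φ) (C : ℝ) (hC : ∀ x, |φ x| ≤ C)
    (hp : ∀ a b : ℝ, ∫ ξ in a..b, φ ξ = w b - w a) (h0 : w 0 = 0) (h1 : w (2 * π) = 0)
    (a b : ℝ) :
    ∫ ξ in a..b, φ (toIcoMod Real.two_pi_pos 0 ξ) =
      w (toIcoMod Real.two_pi_pos 0 b) - w (toIcoMod Real.two_pi_pos 0 a) := by
  set F : ℝ → ℝ := fun ξ => φ (toIcoMod Real.two_pi_pos 0 ξ) with hF
  have hFm : Measurable F := hφ.comp perP_meas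
  have hFi : ∀ a b : ℝ, IntervalIntegrable F volume a b := by
    intro a b
    refine (intervalIntegrable_const (c := C)).mono_fun hFm.aestronglyMeasurable ?_
    filter_upwards with x
    rw [Real.norm_eq_abs, Real.norm_eq_abs]
    exact (hC _).trans (le_abs_self C)
  have hFp : Function.Periodic F (2 * π) := by
    intro ξ
    exact congrArg φ (perP_per ξ)
  have hlow : ∀ b ∈ Ico (0:ℝ) (2 * π), ∫ ξ in (0:ℝ)..b, F ξ = w b := by
    intro b hb
    have : ∫ ξ in (0:ℝ)..b, F ξ = ∫ ξ in (0:ℝ)..b, φ ξ := by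
      apply intervalIntegral.integral_congr
      intro ξ hξ
      rw [uIcc_of_le hb.1] at hξ
      simp only [hF]
      rw [perP_id ⟨hξ.1, hξ.2.trans_lt hb.2⟩]
    rw [this, hp, h0, sub_zero]
  have hfull : ∫ ξ in (0:ℝ)..(2 * π), F ξ = 0 := by
    have : ∫ ξ in (0:ℝ)..(2 * π), F ξ = ∫ ξ in (0:ℝ)..(2 * π), φ ξ := by
      rw [intervalIntegral.integral_of_le Real.two_pi_pos.le,
        intervalIntegral.integral_of_le Real.two_pi_pos.le,
        ← integral_Ico_eq_integral_Ioc, ← integral_Ico_eq_integral_Ioc]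
      apply setIntegral_congr_fun measurableSet_Ico
      intro ξ hξ
      simp only [hF]
      rw [perP_id hξ]
    rw [this, hp, h0, h1, sub_zero]
  set G : ℝ → ℝ := fun b => (∫ ξ in (0:ℝ)..b, F ξ) - w (toIcoMod Real.two_pi_pos 0 b) with hG
  have hGp : Function.Periodic G (2 * π) := by
    intro b
    have e : toIcoMod Real.two_pi_pos 0 (b + 2 * π) = toIcoMod Real.two_pi_pos 0 b := perP_per b
    simp only [hG]
    rw [e, ← intervalIntegral.integral_add_adjacent_intervals (hFi 0 b)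
      (hFi b (b + 2 * π)), hFp.intervalIntegral_add_eq b 0, zero_add, hfull, add_zero]
  have hG0 : ∀ b, G b = 0 := by
    intro b
    have h2 : G (toIcoMod Real.two_pi_pos 0 b) = G b := by
      have : toIcoMod Real.two_pi_pos 0 b = b - toIcoDiv Real.two_pi_pos 0 b • (2 * π) := by
        rw [← self_sub_toIcoDiv_zsmul]
      rw [this]
      exact hGp.sub_zsmul_eq _
    rw [← h2]
    simp only [hG]
    rw [perP_id (perP_mem b), hlow _ (perP_mem b), sub_self]
  have hb := hG0 b
  have ha := hG0 a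
  simp only [hG] at hb ha
  rw [← intervalIntegral.integral_add_adjacent_intervals (hFi a 0) (hFi 0 b),
    intervalIntegral.integral_symm]
  linarith

/-- existence of the pattern of a level -/
theorem exists_level (z μ ν : ℝ) (n : ℕ) (hz : 0 ≤ z) (hμ : 0 < μ) (hν : 0 < ν)
    (hL : z + n * (8 * μ + 4 * ν) ≤ 2 * π) :
    ∃ (iU iV : Bool → ℝ → ℝ) (w x : ℝ → ℝ), LevelProps z μ ν n iU iV w x := by
  obtain ⟨iU, iV, w, x, H⟩ := line_pattern z μ ν n hμ hν
  have hsupp : ∀ ξ, ξ ∉ Ico (0:ℝ) (2 * π) →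
      iU true ξ + iU false ξ + iV true ξ + iV false ξ = 0 := by
    intro ξ hξ
    apply H.supp
    intro h
    exact hξ ⟨hz.trans h.1, h.2.trans_le hL⟩
  have nU : ∀ s ξ, 0 ≤ iU s ξ := by
    intro s ξ
    rcases H.zoU s ξ with h | h <;> rw [h] <;> norm_num
  have nV : ∀ s ξ, 0 ≤ iV s ξ := by
    intro s ξ
    rcases H.zoV s ξ with h | h <;> rw [h] <;> norm_num
  have sU : ∀ s ξ, ξ ∉ Ico (0:ℝ) (2 * π) → iU s ξ = 0 := by
    intro s ξ hξ
    have h := hsupp ξ hξ
    have h1 := nU true ξ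
    have h2 := nU false ξ
    have h3 := nV true ξ
    have h4 := nV false ξ
    cases s <;> linarith
  have sV : ∀ s ξ, ξ ∉ Ico (0:ℝ) (2 * π) → iV s ξ = 0 := by
    intro s ξ hξ
    have h := hsupp ξ hξ
    have h1 := nU true ξ
    have h2 := nU false ξ
    have h3 := nV true ξ
    have h4 := nV false ξ
    cases s <;> linarith
  have sw : ∀ ξ, ξ ∉ Ico (0:ℝ) (2 * π) → w ξ = 0 := fun ξ hξ => (H.off ξ (hsupp ξ hξ)).1
  have sx : ∀ ξ, ξ ∉ Ico (0:ℝ) (2 * π) → x ξ = 0 := fun ξ hξ => (H.off ξ (hsupp ξ hξ)).2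
  have zero_of : ∀ f : ℝ → ℝ, Continuous f → (∀ ξ, ξ ∉ Ico (0:ℝ) (2 * π) → f ξ = 0) →
      f 0 = 0 := by
    intro f hf hz
    have hcl : (0:ℝ) ∈ closure (Iio (0:ℝ)) := by
      rw [closure_Iio]; simp
    have : IsClosed {y | f y = 0} := isClosed_eq hf continuous_const
    have hsub : closure (Iio (0:ℝ)) ⊆ {y | f y = 0} := by
      apply closure_minimal _ this
      intro y hy
      exact hz y (fun h => absurd h.1 (not_le.mpr hy))
    exact hsub hcl
  have h2pi : (2 * π) ∉ Ico (0:ℝ) (2 * π) := by simp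
  have w0 : w 0 = 0 := zero_of w H.contw sw
  have x0 : x 0 = 0 := zero_of x H.contx sx
  have wp : w (2 * π) = 0 := sw _ h2pi
  have xp : x (2 * π) = 0 := sx _ h2pi
  have aU : ∀ s ξ, |iU s ξ| ≤ 1 := by
    intro s ξ
    rcases H.zoU s ξ with h | h <;> rw [h] <;> norm_num
  have aV : ∀ s ξ, |iV s ξ| ≤ 1 := by
    intro s ξ
    rcases H.zoV s ξ with h | h <;> rw [h] <;> norm_num
  have per : ∀ f : ℝ → ℝ, Function.Periodic (fun ξ => f (toIcoMod Real.two_pi_pos 0 ξ)) (2 * π) := by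
    intro f ξ
    show f (toIcoMod Real.two_pi_pos 0 (ξ + 2 * π)) = f (toIcoMod Real.two_pi_pos 0 ξ)
    exact congrArg f (perP_per ξ)
  refine ⟨fun s ξ => iU s (toIcoMod Real.two_pi_pos 0 ξ),
    fun s ξ => iV s (toIcoMod Real.two_pi_pos 0 ξ),
    fun ξ => w (toIcoMod Real.two_pi_pos 0 ξ), fun ξ => x (toIcoMod Real.two_pi_pos 0 ξ), ?_⟩
  constructor
  case bU => exact fun s => ⟨(H.mU s).comp perP_meas, ⟨1, fun ξ => aU s _⟩, per (iU s)⟩
  case bV => exact fun s => ⟨(H.mV s).comp perP_meas, ⟨1, fun ξ => aV s _⟩, per (iV s)⟩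
  case zoU => exact fun s ξ => H.zoU s _
  case zoV => exact fun s ξ => H.zoV s _
  case disj => exact fun ξ => H.disj _
  case supp =>
    intro ξ hξ
    apply H.supp
    intro h
    apply hξ
    refine ⟨toIcoDiv Real.two_pi_pos 0 ξ, ?_⟩
    have e : toIcoMod Real.two_pi_pos 0 ξ = ξ - toIcoDiv Real.two_pi_pos 0 ξ • (2 * π) := by
      rw [← self_sub_toIcoDiv_zsmul]
    rw [e, zsmul_eq_mul] at h
    rw [mul_comm (2 * π)]
    exact h
  case off => exact fun ξ h => H.off _ h
  case intU =>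
    intro s
    rw [per_int (iU s) (sU s)]
    exact H.intU s
  case intV =>
    intro s
    rw [per_int (iV s) (sV s)]
    exact H.intV s
  case primw =>
    refine ⟨⟨?_, ⟨μ, fun ξ => H.wle _⟩, per w⟩, per_cont w H.contw (by rw [w0, wp]), ?_⟩
    · exact H.contw.measurable.comp perP_meas
    · intro a b
      have := per_prim (fun ξ => iU true ξ - iU false ξ) w ((H.mU true).sub (H.mU false)) 2
        (fun ξ => by
          have h1 := aU true ξ
          have h2 := aU false ξ
          have := abs_sub (iU true ξ) (iU false ξ)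
          linarith) H.primw w0 wp a b
      exact this
  case primx =>
    refine ⟨⟨?_, ⟨ν, fun ξ => H.xle _⟩, per x⟩, per_cont x H.contx (by rw [x0, xp]), ?_⟩
    · exact H.contx.measurable.comp perP_meas
    · intro a b
      have := per_prim (fun ξ => iV true ξ - iV false ξ) x ((H.mV true).sub (H.mV false)) 2
        (fun ξ => by
          have h1 := aV true ξ
          have h2 := aV false ξ
          have := abs_sub (iV true ξ) (iV false ξ)
          linarith) H.primx x0 xp a b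
      exact this
  case wle => exact fun ξ => H.wle _
  case xle => exact fun ξ => H.xle _
  case wV => exact fun s ξ h => H.wV s _ h
  case Uw =>
    intro s
    rw [per_int (fun ξ => iU s ξ * w ξ) (fun ξ hξ => by simp [sU s ξ hξ])]
    exact H.Uw s
  case Ux =>
    intro s
    rw [per_int (fun ξ => iU s ξ * x ξ) (fun ξ hξ => by simp [sU s ξ hξ])]
    exact H.Ux s
  case Vx =>
    intro s
    rw [per_int (fun ξ => iV s ξ * x ξ) (fun ξ hξ => by simp [sV s ξ hξ])]
    exact H.Vx s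
  case w0 =>
    rw [per_int w sw]
    exact H.w0
  case x0 =>
    rw [per_int x sx]
    exact H.x0

end Haraux
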