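import Pool.Agent.Helper27.Har.Base

set_option autoImplicit false

open MeasureTheory Set Real Filter Topology
open scoped ENNReal NNReal

namespace Haraux



private theorem pe_ev (C b : ℝ) (hb : 0 < b) (j : ℕ) (hj : j ≠ 0) :
    ∀ᶠ m : ℕ in atTop, C / (m : ℝ) ^ j ≤ b := by
  have h : Tendsto (fun m : ℕ => C / (m : ℝ) ^ j) atTop (𝓝 0) :=
    Tendsto.div_atTop tendsto_const_nhds
      ((tendsto_pow_atTop hj).comp tendsto_natCast_atTop_atTop)
  exact h.eventually_le_const hb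

/-- choice of the number of cells at a level -/
theorem param_eventually (lam kap lam' La' e : ℝ) (h1 : 0 < lam) (h2 : 0 < kap) (h3 : 0 < lam')
    (h4 : 0 < e) (h5 : π / 4 * (lam / kap) * √(2 * (lam' + kap)) ≤ e / 200) :
    ∀ᶠ m : ℕ in atTop, ∀ al as mu nu d om0 mm Tm : ℝ, al = 1 / √(2 * lam) →
      as = 1 / √(2 * (lam' + kap)) → mu = lam / (4 * (m : ℝ) ^ 5) → nu = kap / (2 * (m : ℝ) ^ 5) →
      d = 1 / (m : ℝ) ^ 2 → om0 = as * nu / (4 * al) → mm = al * mu / 2 → Tm = π / (2 * om0) →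
      2 * π * om0 ≤ e ∧ mm ≤ e / 100 ∧ 36 * mm / lam' ≤ e ∧ Tm * as ^ 2 * d ^ 3 ≤ e ^ 2 / 100 ∧
      Tm * mm ^ 2 / lam' ^ 2 ≤ e ^ 2 / 20000 ∧ Tm * mm * √d / lam' ≤ e / 200 ∧
      Tm * mm * lam ≤ e / 200 ∧ La' * (mu + nu) / d ^ 2 ≤ e := by
  set A : ℝ := √(2 * lam) with hA
  set S : ℝ := √(2 * (lam' + kap)) with hS
  have hA0 : 0 < A := Real.sqrt_pos.2 (by positivity)
  have hS0 : 0 < S := Real.sqrt_pos.2 (by positivity)
  have hA2 : A ^ 2 = 2 * lam := Real.sq_sqrt (by positivity)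
  have hpi := Real.pi_pos
  filter_upwards [eventually_ge_atTop 1, pe_ev (2 * π * A * kap / (8 * S)) e h4 5 (by norm_num),
    pe_ev (lam / (8 * A)) (e / 100) (by positivity) 5 (by norm_num),
    pe_ev (36 * lam / (8 * A * lam')) e h4 5 (by norm_num),
    pe_ev (4 * π / (A * kap * S)) (e ^ 2 / 100) (by positivity) 1 (by norm_num),
    pe_ev (4 * π * S * lam ^ 2 / (64 * A ^ 3 * kap * lam' ^ 2)) (e ^ 2 / 20000) (by positivity) 5
      (by norm_num),
    pe_ev (π * S * lam / (2 * A ^ 2 * kap * lam')) (e / 200) (by positivity) 1 (by norm_num),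
    pe_ev (La' * (lam / 4 + kap / 2)) e h4 1 (by norm_num)]
    with m hm k1 k2 k3 k4 k5 k6 k8
  intro al as mu nu d om0 mm Tm hal has hmu hnu hd hom hmm hTm
  have hx : (0 : ℝ) < m := by
    have : 0 < m := hm
    exact_mod_cast this
  set x : ℝ := (m : ℝ) with hxdef
  have hd' : √d = 1 / x := by
    rw [hd, ← one_div_pow, Real.sqrt_sq (by positivity)]
  have e0 : om0 = A * kap / (8 * S * x ^ 5) := by
    rw [hom, has, hnu, hal]; field_simp; try ring
  have e2 : mm = lam / (8 * A * x ^ 5) := by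
    rw [hmm, hal, hmu]; field_simp; try ring
  have e3 : Tm = 4 * π * S * x ^ 5 / (A * kap) := by
    rw [hTm, e0]; field_simp; try ring
  refine ⟨?_, ?_, ?_, ?_, ?_, ?_, ?_, ?_⟩
  · refine le_trans (le_of_eq ?_) k1
    rw [e0]; field_simp
  · refine le_trans (le_of_eq ?_) k2
    rw [e2]; field_simp
  · refine le_trans (le_of_eq ?_) k3
    rw [e2]; field_simp
  · refine le_trans (le_of_eq ?_) k4
    rw [e3, has, hd]; field_simp; try ring
  · refine le_trans (le_of_eq ?_) k5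
    rw [e3, e2]; field_simp; try ring
  · refine le_trans (le_of_eq ?_) k6
    rw [e3, e2, hd']; field_simp; try ring
  · refine le_trans (le_of_eq ?_) h5
    rw [e3, e2]; field_simp
    rw [hA2]; ring
  · refine le_trans (le_of_eq ?_) k8
    rw [hmu, hnu, hd]; field_simp; try ring

end Haraux
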