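import Pool.Agent.Helper27.Har.Base
import Pool.Agent.Helper27.Har.P_param_eventually

set_option autoImplicit false

open MeasureTheory Set Real Filter Topology
open scoped ENNReal NNReal

namespace Haraux



/-- square roots of the measures -/
private noncomputable def xpS (k : ℕ) : ℝ := (1 / 2) ^ (2 * (k + 8) ^ 2)
private noncomputable def xpE (k : ℕ) : ℝ := 1 / 10 ^ 6 / 4 ^ k
private noncomputable def xpL (k : ℕ) : ℝ := (xpS k) ^ 2
private noncomputable def xpK (k : ℕ) : ℝ := (xpE k) ^ 2 * xpL (k + 1)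
private noncomputable def xpA (k : ℕ) : ℝ := 1 / √(2 * xpL k)
private noncomputable def xpB (k : ℕ) : ℝ := 1 / √(2 * (xpL (k + 1) + xpK k))
private noncomputable def xpLa : ℕ → ℝ
  | 0 => 1
  | k + 1 => xpLa k + 2 + xpA k / xpE k

private theorem xpS_pos (k : ℕ) : 0 < xpS k := by unfold xpS; positivity
private theorem xpE_pos (k : ℕ) : 0 < xpE k := by unfold xpE; positivity
private theorem xpL_pos (k : ℕ) : 0 < xpL k := by
  have := xpS_pos k
  unfold xpL; positivity
private theorem xpK_pos (k : ℕ) : 0 < xpK k := by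
  have h1 := xpE_pos k
  have h2 := xpL_pos (k + 1)
  unfold xpK; positivity

private theorem xpS_succ (k : ℕ) : xpS (k + 1) = xpS k * (1 / 2) ^ (4 * k + 34) := by
  unfold xpS
  rw [← pow_add]
  congr 1
  ring

private theorem xpL_eq (k : ℕ) : xpL k = xpS (k + 1) * (1 / 2) ^ (2 * k ^ 2 + 28 * k + 94) := by
  unfold xpL xpS
  rw [← pow_add, ← pow_mul]
  congr 1
  ring

private theorem xpS_le_one (k : ℕ) : xpS k ≤ 1 := by
  unfold xpS
  exact pow_le_one₀ (by norm_num) (by norm_num)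

private theorem xpS_anti (k : ℕ) : xpS (k + 1) ≤ xpS k := by
  rw [xpS_succ]
  calc xpS k * (1 / 2) ^ (4 * k + 34) ≤ xpS k * 1 := by
        have := xpS_pos k
        gcongr
        exact pow_le_one₀ (by norm_num) (by norm_num)
    _ = xpS k := mul_one _

private theorem xpL_anti (k : ℕ) : xpL (k + 1) ≤ xpL k := by
  unfold xpL
  have := xpS_pos (k + 1)
  have := xpS_anti k
  gcongr

private theorem xpL_le (k : ℕ) : xpL k ≤ (1 / 2) ^ (k + 3) := by
  unfold xpL xpS
  rw [← pow_mul]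
  refine pow_le_pow_of_le_one (by norm_num) (by norm_num) ?_
  nlinarith

private theorem xpL_le_one (k : ℕ) : xpL k ≤ 1 := by
  unfold xpL
  exact pow_le_one₀ (xpS_pos k).le (xpS_le_one k)

private theorem xpE_le (k : ℕ) : xpE k ≤ 1 / 10 ^ 6 := by
  unfold xpE
  exact div_le_self (by norm_num) (one_le_pow₀ (by norm_num))

private theorem xpE_eq (k : ℕ) : xpE k = 1 / 10 ^ 6 * (1 / 4) ^ k := by
  unfold xpE
  rw [div_eq_mul_inv, one_div_pow, one_div ((4 : ℝ) ^ k)]

private theorem xpE_anti (k : ℕ) : xpE (k + 1) ≤ xpE k := by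
  rw [xpE_eq, xpE_eq, pow_succ (1 / 4 : ℝ) k]
  have : (0 : ℝ) < (1 / 4) ^ k := by positivity
  nlinarith

private theorem xpK_le (k : ℕ) : xpK k ≤ xpL (k + 1) := by
  unfold xpK
  have h1 := xpE_le k
  have h2 := xpE_pos k
  have h3 := xpL_pos (k + 1)
  have h4 : (xpE k) ^ 2 ≤ 1 := pow_le_one₀ h2.le (by linarith)
  nlinarith

private theorem xp_sqrtL (k : ℕ) : √(xpL k) = xpS k := by
  unfold xpL
  exact Real.sqrt_sq (xpS_pos k).le

private theorem xp_sqrtK (k : ℕ) : √(xpK k) = xpE k * xpS (k + 1) := by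
  unfold xpK xpL
  rw [← mul_pow]
  exact Real.sqrt_sq (mul_pos (xpE_pos k) (xpS_pos _)).le

private theorem xpA_le (k : ℕ) : xpA k ≤ 1 / xpS k := by
  unfold xpA
  have h1 := xpS_pos k
  have h2 : xpS k ≤ √(2 * xpL k) := by
    rw [← xp_sqrtL k]
    refine Real.sqrt_le_sqrt ?_
    have := xpL_pos k
    linarith
  exact one_div_le_one_div_of_le h1 h2

private theorem xpA_pos (k : ℕ) : 0 < xpA k := by
  unfold xpA
  have := xpL_pos k
  positivity

private theorem xpB_pos (k : ℕ) : 0 < xpB k := by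
  unfold xpB
  have := xpL_pos (k + 1)
  have := xpK_pos k
  positivity

private theorem xpLa_pos (k : ℕ) : 1 ≤ xpLa k := by
  induction k with
  | zero => exact le_rfl
  | succ k ih =>
    show 1 ≤ xpLa k + 2 + xpA k / xpE k
    have := div_pos (xpA_pos k) (xpE_pos k)
    linarith

private theorem xp_ratio (k : ℕ) : xpA k / xpE k ≤ 10 ^ 6 * 4 ^ k / xpS k := by
  have h1 := xpA_le k
  have h2 := xpE_pos k
  have h3 := xpS_pos k
  calc xpA k / xpE k ≤ (1 / xpS k) / xpE k := by gcongr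
    _ = 10 ^ 6 * 4 ^ k / xpS k := by
      unfold xpE
      field_simp

private theorem xpLa_le (k : ℕ) : xpLa (k + 1) ≤ 10 ^ 7 * 4 ^ k / xpS k := by
  induction k with
  | zero =>
    show xpLa 0 + 2 + xpA 0 / xpE 0 ≤ _
    have h1 := xp_ratio 0
    have h2 : 1 ≤ 1 / xpS 0 := by
      rw [le_div_iff₀ (xpS_pos 0), one_mul]
      exact xpS_le_one 0
    have h3 : xpLa 0 = 1 := rfl
    rw [h3]
    calc 1 + 2 + xpA 0 / xpE 0 ≤ 3 * (1 / xpS 0) + 10 ^ 6 * 4 ^ 0 / xpS 0 := by linarith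
      _ = (3 + 10 ^ 6) * (1 / xpS 0) := by ring
      _ ≤ 10 ^ 7 * (1 / xpS 0) := by
        have := xpS_pos 0
        gcongr
        norm_num
      _ = 10 ^ 7 * 4 ^ 0 / xpS 0 := by ring
  | succ k ih =>
    show xpLa (k + 1) + 2 + xpA (k + 1) / xpE (k + 1) ≤ _
    have h1 := xp_ratio (k + 1)
    have h0 := xpS_pos (k + 1)
    have h2 : 1 ≤ 1 / xpS (k + 1) := by
      rw [le_div_iff₀ h0, one_mul]
      exact xpS_le_one _
    have h3 : 10 ^ 7 * 4 ^ k / xpS k ≤ 10 ^ 7 * 4 ^ k / xpS (k + 1) := by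
      have := xpS_anti k
      gcongr
    have h4 : (1 : ℝ) ≤ 4 ^ k := one_le_pow₀ (by norm_num)
    calc xpLa (k + 1) + 2 + xpA (k + 1) / xpE (k + 1)
        ≤ 10 ^ 7 * 4 ^ k / xpS (k + 1) + 2 * (1 / xpS (k + 1)) +
          10 ^ 6 * 4 ^ (k + 1) / xpS (k + 1) := by linarith
      _ = (10 ^ 7 * 4 ^ k + 2 + 10 ^ 6 * 4 ^ (k + 1)) / xpS (k + 1) := by ring
      _ ≤ 10 ^ 7 * 4 ^ (k + 1) / xpS (k + 1) := by
        gcongr
        rw [pow_succ (4 : ℝ) k]
        nlinarith

private theorem xp_LaS (k : ℕ) : xpLa k * xpS k ≤ 10 ^ 8 * (1 / 4) ^ k := by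
  rcases k with _ | k
  · have h1 : xpLa 0 = 1 := rfl
    rw [h1, one_mul, pow_zero, mul_one]
    exact (xpS_le_one 0).trans (by norm_num)
  · have h1 := xpLa_le k
    have h2 := xpS_pos k
    have h3 := xpS_pos (k + 1)
    calc xpLa (k + 1) * xpS (k + 1) ≤ (10 ^ 7 * 4 ^ k / xpS k) * xpS (k + 1) := by gcongr
      _ = 10 ^ 7 * 4 ^ k * (1 / 2) ^ (4 * k + 34) := by
        rw [xpS_succ]
        field_simp
      _ = 10 ^ 7 * (1 / 2) ^ 34 * (1 / 4) ^ k := by
        rw [pow_add, pow_mul]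
        have e1 : ((1 / 2 : ℝ) ^ 4) ^ k = (1 / 4) ^ k * (1 / 4) ^ k := by
          rw [← mul_pow]; norm_num
        have e2 : (4 : ℝ) ^ k * (1 / 4) ^ k = 1 := by
          rw [← mul_pow]; norm_num
        rw [e1]
        calc (10 : ℝ) ^ 7 * 4 ^ k * ((1 / 4) ^ k * (1 / 4) ^ k * (1 / 2) ^ 34)
            = 10 ^ 7 * (1 / 2) ^ 34 * (1 / 4) ^ k * (4 ^ k * (1 / 4) ^ k) := by ring
          _ = _ := by rw [e2, mul_one]
      _ ≤ 10 ^ 8 * (1 / 4) ^ (k + 1) := by
        rw [pow_succ (1 / 4 : ℝ) k]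
        have : (0 : ℝ) < (1 / 4) ^ k := by positivity
        have h5 : (10 : ℝ) ^ 7 * (1 / 2) ^ 34 ≤ 10 ^ 8 * (1 / 4) := by norm_num
        calc (10 : ℝ) ^ 7 * (1 / 2) ^ 34 * (1 / 4) ^ k ≤ (10 ^ 8 * (1 / 4)) * (1 / 4) ^ k := by
              gcongr
          _ = 10 ^ 8 * ((1 / 4) ^ k * (1 / 4)) := by ring

private theorem xp_h5 (k : ℕ) :
    π / 4 * (xpL k / xpK k) * √(2 * (xpL (k + 1) + xpK k)) ≤ xpE k / 200 := by
  have hE := xpE_pos k
  have hS := xpS_pos (k + 1)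
  have hL := xpL_pos k
  have hL' := xpL_pos (k + 1)
  have hK := xpK_pos k
  have h1 : √(2 * (xpL (k + 1) + xpK k)) ≤ 2 * xpS (k + 1) := by
    rw [show 2 * xpS (k + 1) = √((2 * xpS (k + 1)) ^ 2) from
      (Real.sqrt_sq (by positivity)).symm]
    refine Real.sqrt_le_sqrt ?_
    have := xpK_le k
    have e : (2 * xpS (k + 1)) ^ 2 = 4 * xpL (k + 1) := by unfold xpL; ring
    rw [e]; linarith
  have h2 : π / 4 * (xpL k / xpK k) * √(2 * (xpL (k + 1) + xpK k)) ≤
      π / 4 * (xpL k / xpK k) * (2 * xpS (k + 1)) := by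
    have : 0 ≤ π / 4 * (xpL k / xpK k) := by
      have := Real.pi_pos
      positivity
    gcongr
  refine h2.trans ?_
  have h3 : π / 4 * (xpL k / xpK k) * (2 * xpS (k + 1)) =
      π / 2 * (1 / 2) ^ (2 * k ^ 2 + 28 * k + 94) / (xpE k) ^ 2 := by
    have e1 : xpK k = (xpE k) ^ 2 * (xpS (k + 1)) ^ 2 := rfl
    rw [e1, xpL_eq k]
    field_simp
    ring
  rw [h3, div_le_div_iff₀ (by positivity) (by norm_num)]
  have h4 : (1 / 2 : ℝ) ^ (2 * k ^ 2 + 28 * k + 94) ≤ (1 / 2) ^ 94 * ((1 / 4) ^ k) ^ 3 := by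
    have e1 : ((1 / 4 : ℝ) ^ k) ^ 3 = (1 / 2) ^ (6 * k) := by
      rw [← pow_mul, mul_comm k 3, pow_mul, pow_mul]
      norm_num
    rw [e1, ← pow_add]
    refine pow_le_pow_of_le_one (by norm_num) (by norm_num) ?_
    nlinarith
  have h5 : π ≤ 4 := Real.pi_le_four
  have h6 : xpE k * xpE k ^ 2 = (1 / 10 ^ 6) ^ 3 * ((1 / 4) ^ k) ^ 3 := by
    rw [xpE_eq]; ring
  rw [h6]
  have h7 : (0 : ℝ) < ((1 / 4) ^ k) ^ 3 := by positivity
  calc π / 2 * (1 / 2) ^ (2 * k ^ 2 + 28 * k + 94) * 200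
      ≤ 4 / 2 * ((1 / 2) ^ 94 * ((1 / 4) ^ k) ^ 3) * 200 := by gcongr
    _ = (400 * (1 / 2) ^ 94) * ((1 / 4) ^ k) ^ 3 := by ring
    _ ≤ (1 / 10 ^ 6) ^ 3 * ((1 / 4) ^ k) ^ 3 := by
      gcongr
      norm_num

/-- a sequence chosen recursively -/
private theorem xp_seq (P : ℕ → ℕ → Prop) (Q : ℕ → ℕ → ℕ → Prop) (hP : ∀ k, ∀ᶠ m in atTop, P k m)
    (hQ : ∀ k a, ∀ᶠ b in atTop, Q k a b) :
    ∃ m : ℕ → ℕ, (∀ k, P k (m k)) ∧ (∀ k, 1 ≤ m k) ∧ (∀ k, m k ≤ m (k + 1)) ∧
      ∀ k, Q k (m k) (m (k + 1)) := by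
  have h0 : ∃ a, P 0 a ∧ 1 ≤ a := ((hP 0).and (eventually_ge_atTop 1)).exists
  have h1 : ∀ (k a : ℕ), ∃ b, P (k + 1) b ∧ a ≤ b ∧ Q k a b := fun k a =>
    ((hP (k + 1)).and ((eventually_ge_atTop a).and (hQ k a))).exists
  choose a0 ha0 using h0
  choose nx hnx using h1
  let m : ℕ → ℕ := fun k => Nat.rec a0 (fun k a => nx k a) k
  have hm : ∀ k, m (k + 1) = nx k (m k) := fun k => rfl
  have hmono : ∀ k, m k ≤ m (k + 1) := fun k => by rw [hm]; exact (hnx k (m k)).2.1
  refine ⟨m, ?_, ?_, hmono, ?_⟩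
  · intro k
    rcases k with _ | k
    · exact ha0.1
    · rw [hm]; exact (hnx k (m k)).1
  · intro k
    induction k with
    | zero => exact ha0.2
    | succ k ih => exact ih.trans (hmono k)
  · intro k
    rw [hm]; exact (hnx k (m k)).2.2

private noncomputable def xpMu (k m : ℕ) : ℝ := xpL k / (4 * (m : ℝ) ^ 5)
private noncomputable def xpNu (k m : ℕ) : ℝ := xpK k / (2 * (m : ℝ) ^ 5)
private noncomputable def xpD (m : ℕ) : ℝ := 1 / (m : ℝ) ^ 2
private noncomputable def xpOm (k m : ℕ) : ℝ := xpB k * xpNu k m / (4 * xpA k)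
private noncomputable def xpMm (k m : ℕ) : ℝ := xpA k * xpMu k m / 2
private noncomputable def xpTm (k m : ℕ) : ℝ := π / (2 * xpOm k m)

private def xpP (k m : ℕ) : Prop :=
  2 * π * xpOm k m ≤ xpE k ∧ xpMm k m ≤ xpE k / 100 ∧ 36 * xpMm k m / xpL (k + 1) ≤ xpE k ∧
  xpTm k m * xpB k ^ 2 * xpD m ^ 3 ≤ xpE k ^ 2 / 100 ∧
  xpTm k m * xpMm k m ^ 2 / xpL (k + 1) ^ 2 ≤ xpE k ^ 2 / 20000 ∧
  xpTm k m * xpMm k m * √(xpD m) / xpL (k + 1) ≤ xpE k / 200 ∧
  xpTm k m * xpMm k m * xpL k ≤ xpE k / 200 ∧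
  xpLa (k + 1) * (xpMu k m + xpNu k m) / xpD m ^ 2 ≤ xpE k

private theorem xpP_ev (k : ℕ) : ∀ᶠ m in atTop, xpP k m := by
  have h := param_eventually (xpL k) (xpK k) (xpL (k + 1)) (xpLa (k + 1)) (xpE k) (xpL_pos k)
    (xpK_pos k) (xpL_pos (k + 1)) (xpE_pos k) (xp_h5 k)
  exact h.mono (fun m hm => hm _ _ _ _ _ _ _ _ rfl rfl rfl rfl rfl rfl rfl rfl)

private theorem xpQ_ev (k a : ℕ) : ∀ᶠ b in atTop, xpTm k a * xpB k * xpMu (k + 1) b ≤ xpE k / 20 := by
  have h1 : Tendsto (fun b : ℕ => xpMu (k + 1) b) atTop (𝓝 0) := by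
    unfold xpMu
    refine Tendsto.const_div_atTop ?_ _
    refine Tendsto.const_mul_atTop (by norm_num) ?_
    exact (tendsto_pow_atTop (by norm_num)).comp tendsto_natCast_atTop_atTop
  have h2 := h1.const_mul (xpTm k a * xpB k)
  rw [mul_zero] at h2
  have h3 : (0 : ℝ) < xpE k / 20 := by
    have := xpE_pos k
    positivity
  exact (h2.eventually (gt_mem_nhds h3)).mono (fun b hb => le_of_lt hb)

/-- existence of the parameters -/
theorem exists_params : ∃ W : World, W.RegN ∧ (∀ k, W.Small k) ∧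
    ∀ k, W.ep k = 1 / 10 ^ 6 / 4 ^ k := by
  obtain ⟨m, hP, hm1, hmono, hQ⟩ := xp_seq xpP
    (fun k a b => xpTm k a * xpB k * xpMu (k + 1) b ≤ xpE k / 20) xpP_ev xpQ_ev
  let W : World :=
    { z := fun k => 1 - (1 / 2) ^ k
      mu := fun k => xpMu k (m k)
      nu := fun k => xpNu k (m k)
      n := fun k => (m k) ^ 5
      La := xpLa
      d := fun k => xpD (m k)
      ep := xpE
      iU := fun _ _ _ => 0
      iV := fun _ _ _ => 0
      w := fun _ _ => 0
      x := fun _ _ => 0 }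
  have hmp : ∀ k, (0 : ℝ) < (m k : ℝ) := fun k => by exact_mod_cast hm1 k
  have hlam : ∀ k, W.lam k = xpL k := by
    intro k
    show 4 * (xpL k / (4 * (m k : ℝ) ^ 5)) * (((m k) ^ 5 : ℕ) : ℝ) = xpL k
    have := hmp k
    push_cast
    field_simp
  have hkap : ∀ k, W.kap k = xpK k := by
    intro k
    show 2 * (xpK k / (2 * (m k : ℝ) ^ 5)) * (((m k) ^ 5 : ℕ) : ℝ) = xpK k
    have := hmp k
    push_cast
    field_simp
  have hal : ∀ k, W.al k = xpA k := by
    intro k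
    show 1 / √(2 * W.lam k) = _
    rw [hlam]
    rfl
  have has : ∀ k, W.as k = xpB k := by
    intro k
    show 1 / √(2 * (W.lam (k + 1) + W.kap k)) = _
    rw [hlam, hkap]
    rfl
  have hom : ∀ k, W.om0 k = xpOm k (m k) := by
    intro k
    show W.as k * xpNu k (m k) / (4 * W.al k) = _
    rw [hal, has]
    rfl
  have hmm : ∀ k, W.mm k = xpMm k (m k) := by
    intro k
    show W.al k * xpMu k (m k) / 2 = _
    rw [hal]
    rfl
  have hTm : ∀ k, W.Tm k = xpTm k (m k) := by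
    intro k
    show π / (2 * W.om0 k) = _
    rw [hom]
    rfl
  have hMu : ∀ k, 0 < xpMu k (m k) := fun k => by
    have := xpL_pos k
    have := hmp k
    unfold xpMu; positivity
  have hNu : ∀ k, 0 < xpNu k (m k) := fun k => by
    have := xpK_pos k
    have := hmp k
    unfold xpNu; positivity
  refine ⟨W, ?_, ?_, fun k => rfl⟩
  · constructor
    · exact hMu
    · exact hNu
    · intro j
      exact Nat.one_le_pow _ _ (hm1 j)
    · intro j
      show (0 : ℝ) ≤ 1 - (1 / 2) ^ j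
      have : (1 / 2 : ℝ) ^ j ≤ 1 := pow_le_one₀ (by norm_num) (by norm_num)
      linarith
    · intro j
      show (1 : ℝ) - (1 / 2) ^ j + (((m j) ^ 5 : ℕ) : ℝ) * (8 * xpMu j (m j) + 4 * xpNu j (m j)) ≤
        1 - (1 / 2) ^ (j + 1)
      have e1 : (((m j) ^ 5 : ℕ) : ℝ) * (8 * xpMu j (m j) + 4 * xpNu j (m j)) =
          2 * xpL j + 2 * xpK j := by
        unfold xpMu xpNu
        have := hmp j
        push_cast
        field_simp
        ring
      rw [e1]
      have h1 := xpL_le j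
      have h2 := xpK_le j
      have h3 := (xpL_anti j).trans h1
      have e2 : (1 / 2 : ℝ) ^ (j + 3) = (1 / 2) ^ j / 8 := by rw [pow_add]; norm_num; ring
      have e3 : (1 / 2 : ℝ) ^ (j + 1) = (1 / 2) ^ j / 2 := by rw [pow_succ]; ring
      rw [e3]
      rw [e2] at h1 h3
      linarith
    · intro j
      show (1 : ℝ) - (1 / 2) ^ j ≤ 2 * π
      have : (0 : ℝ) < (1 / 2) ^ j := by positivity
      have := Real.pi_gt_three
      linarith
    · intro j
      show (0 : ℝ) < 1 / (m j : ℝ) ^ 2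
      have := hmp j
      positivity
    · intro j
      show 1 / (m j : ℝ) ^ 2 ≤ 1
      rw [div_le_one (by have := hmp j; positivity)]
      exact one_le_pow₀ (by exact_mod_cast hm1 j)
    · refine antitone_nat_of_succ_le ?_
      intro j
      show 1 / (m (j + 1) : ℝ) ^ 2 ≤ 1 / (m j : ℝ) ^ 2
      have h1 := hmp j
      have h2 : (m j : ℝ) ≤ m (j + 1) := by exact_mod_cast hmono j
      gcongr
    · exact xpE_pos
    · intro j
      exact (xpE_le j).trans (by norm_num)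
    · exact antitone_nat_of_succ_le xpE_anti
    · exact le_rfl
    · intro j
      show xpLa j + 2 + W.al j / xpE j ≤ xpLa (j + 1)
      rw [hal]
      exact le_rfl
    · have hs : Summable (fun j : ℕ => (3 * 10 ^ 8 : ℝ) * (1 / 4) ^ j) :=
        (summable_geometric_of_lt_one (by norm_num) (by norm_num)).mul_left _
      refine Summable.of_nonneg_of_le ?_ ?_ hs
      · intro j
        have h1 : 0 < xpLa j := lt_of_lt_of_le one_pos (xpLa_pos j)
        have h2 : 0 < xpLa (j + 1) := lt_of_lt_of_le one_pos (xpLa_pos (j + 1))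
        have h3 := hMu j
        have h4 := hNu j
        show 0 ≤ xpLa j * √(W.lam j) + xpLa (j + 1) * √(W.kap j)
          + xpLa (j + 1) * (xpMu j (m j) + xpNu j (m j)) / (xpD (m j)) ^ 2
        positivity
      · intro j
        show xpLa j * √(W.lam j) + xpLa (j + 1) * √(W.kap j)
          + xpLa (j + 1) * (xpMu j (m j) + xpNu j (m j)) / (xpD (m j)) ^ 2 ≤ _
        rw [hlam, hkap, xp_sqrtL, xp_sqrtK]
        have h1 := xp_LaS j
        have h2 := xp_LaS (j + 1)
        have h3 := (hP j).2.2.2.2.2.2.2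
        have h4 := xpE_eq j
        have h5 := xpE_pos j
        have h6 := xpE_le j
        have h7 : (0 : ℝ) < (1 / 4) ^ j := by positivity
        have h8 : xpLa (j + 1) * (xpE j * xpS (j + 1)) ≤ 10 ^ 8 * (1 / 4) ^ j := by
          calc xpLa (j + 1) * (xpE j * xpS (j + 1)) = xpE j * (xpLa (j + 1) * xpS (j + 1)) := by
                ring
            _ ≤ 1 * (10 ^ 8 * (1 / 4) ^ (j + 1)) := by
                have : xpE j ≤ 1 := h6.trans (by norm_num)
                have hx : 0 ≤ xpLa (j + 1) * xpS (j + 1) :=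
                  mul_nonneg (by linarith [xpLa_pos (j + 1)]) (xpS_pos _).le
                gcongr
            _ ≤ 10 ^ 8 * (1 / 4) ^ j := by
                rw [pow_succ (1 / 4 : ℝ) j]
                nlinarith
        have h9 : xpE j ≤ 10 ^ 8 * (1 / 4) ^ j := by
          rw [h4]
          gcongr
          norm_num
        linarith
  · intro k
    obtain ⟨p1, p2, p3, p4, p5, p6, p7, p8⟩ := hP k
    constructor
    · rw [hkap, hlam]; exact le_rfl
    · rw [hlam, hlam]; exact xpL_anti k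
    · rw [hlam]; exact xpL_le_one k
    · rw [has, hal, hlam, hkap]
      show xpB k * xpNu k (m k) ≤ xpE k / 2 * (xpA k * xpMu k (m k)) *
        (xpL (k + 1) / (xpL (k + 1) + xpK k))
      have hE := xpE_pos k
      have hL := xpL_pos k
      have hL' := xpL_pos (k + 1)
      have hK := xpK_pos k
      have hM := hmp k
      have ha : 0 < √(2 * xpL k) := Real.sqrt_pos.mpr (by positivity)
      have hb : 0 < √(2 * (xpL (k + 1) + xpK k)) := Real.sqrt_pos.mpr (by positivity)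
      have ha2 : √(2 * xpL k) ^ 2 = 2 * xpL k := Real.sq_sqrt (by positivity)
      have hb2 : √(2 * (xpL (k + 1) + xpK k)) ^ 2 = 2 * (xpL (k + 1) + xpK k) :=
        Real.sq_sqrt (by positivity)
      unfold xpB xpNu xpA xpMu
      set a := √(2 * xpL k)
      set b := √(2 * (xpL (k + 1) + xpK k))
      have hab : b ≤ 2 * a := by
        refine (pow_le_pow_iff_left₀ hb.le (by positivity) two_ne_zero).mp ?_
        rw [mul_pow, ha2, hb2]
        have := xpK_le k
        have := xpL_anti k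
        linarith
      have h8 : 4 * xpE k * b ≤ a := by
        have h6 := xpE_le k
        nlinarith
      have e1 : xpL (k + 1) + xpK k = b ^ 2 / 2 := by linarith
      have e2 : xpL k = a ^ 2 / 2 := by linarith
      have e3 : xpK k = xpE k ^ 2 * xpL (k + 1) := rfl
      rw [e1, e2]
      have e4 : xpE k / 2 * (1 / a * (a ^ 2 / 2 / (4 * (m k : ℝ) ^ 5))) *
          (xpL (k + 1) / (b ^ 2 / 2)) =
          (a * (xpE k * xpL (k + 1))) / (8 * b ^ 2 * (m k : ℝ) ^ 5) := by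
        field_simp
        ring
      have e5 : 1 / b * (xpK k / (2 * (m k : ℝ) ^ 5)) =
          ((4 * xpE k * b) * (xpE k * xpL (k + 1))) / (8 * b ^ 2 * (m k : ℝ) ^ 5) := by
        rw [e3]
        field_simp
        ring
      rw [e4, e5]
      gcongr
    · rw [hom]; exact p1
    · rw [hmm]; exact p2
    · rw [hmm, hlam]; exact p3
    · rw [hTm, has]; exact p4
    · rw [hTm, hmm, hlam]; exact p5
    · rw [hTm, hmm, hlam]; exact p6
    · rw [hTm, hmm, hlam]; exact p7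
    · rw [hTm, has]; exact hQ k

end Haraux
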