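import Pool.Agent.Helper27.Har.Base

set_option autoImplicit false

open MeasureTheory Set Real Filter Topology
open scoped ENNReal NNReal

namespace Haraux



private theorem rot_nrm (i : ℕ × ℕ) (t : ℝ) :
    ‖Complex.exp (Complex.I * (om i : ℂ) * (t : ℂ))‖ = 1 := by
  have h : Complex.I * (om i : ℂ) * (t : ℂ) = ((om i * t : ℝ) : ℂ) * Complex.I := by
    push_cast; ring
  rw [h, Complex.norm_exp_ofReal_mul_I]

private theorem rot_mem (t : ℝ) (z : HZ) :
    Memℓp (fun i : ℕ × ℕ => Complex.exp (Complex.I * (om i : ℂ) * (t : ℂ)) * z i) 2 := by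
  have := lp.memℓp z
  rw [memℓp_gen_iff (by norm_num)] at this ⊢
  refine this.congr (fun i => ?_)
  rw [norm_mul, rot_nrm, one_mul]

private noncomputable def rot0 (t : ℝ) (z : HZ) : HZ := ⟨_, rot_mem t z⟩

private theorem rot0_apply (t : ℝ) (z : HZ) (i : ℕ × ℕ) :
    rot0 t z i = Complex.exp (Complex.I * (om i : ℂ) * (t : ℂ)) * z i := rfl

private theorem rot0_sub (t : ℝ) (z w : HZ) : rot0 t (z - w) = rot0 t z - rot0 t w := by
  ext i
  rw [rot0_apply, lp.coeFn_sub, lp.coeFn_sub, Pi.sub_apply, Pi.sub_apply, rot0_apply, rot0_apply,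
    mul_sub]

private theorem hz_norm_sq (z : HZ) : ‖z‖ ^ (2:ℝ) = ∑' i, ‖z i‖ ^ (2:ℝ) := by
  have h := lp.norm_rpow_eq_tsum (p := 2) (by norm_num) z
  simpa using h

private theorem hz_summable (z : HZ) : Summable (fun i => ‖z i‖ ^ (2:ℝ)) := by
  have := lp.memℓp z
  rw [memℓp_gen_iff (by norm_num)] at this
  simpa using this

private theorem rot0_norm (t : ℝ) (z : HZ) : ‖rot0 t z‖ = ‖z‖ := by
  have h : ‖rot0 t z‖ ^ (2:ℝ) = ‖z‖ ^ (2:ℝ) := by
    rw [hz_norm_sq, hz_norm_sq]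
    refine tsum_congr (fun i => ?_)
    rw [rot0_apply, norm_mul, rot_nrm, one_mul]
  rw [Real.rpow_two, Real.rpow_two] at h
  exact (pow_left_inj₀ (norm_nonneg _) (norm_nonneg _) (by norm_num)).1 h

private theorem rot0_tendsto (w : HZ) (s : ℝ) :
    Tendsto (fun t => ‖rot0 t w - rot0 s w‖) (𝓝 s) (𝓝 0) := by
  have h2 : Tendsto (fun t => ‖rot0 t w - rot0 s w‖ ^ (2:ℝ)) (𝓝 s) (𝓝 0) := by
    have h0 : (0:ℝ) = ∑' i : ℕ × ℕ, (0:ℝ) := by simp
    rw [h0]
    have hfun : (fun t => ‖rot0 t w - rot0 s w‖ ^ (2:ℝ)) =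
        fun t => ∑' i, ‖(rot0 t w - rot0 s w) i‖ ^ (2:ℝ) := by
      funext t; exact hz_norm_sq _
    rw [hfun]
    refine tendsto_tsum_of_dominated_convergence (bound := fun i => 4 * ‖w i‖ ^ (2:ℝ))
      ((hz_summable w).mul_left 4) (fun i => ?_) (Eventually.of_forall (fun t i => ?_))
    · have hc : Continuous (fun t : ℝ => ‖(rot0 t w - rot0 s w) i‖ ^ (2:ℝ)) := by
        have : (fun t : ℝ => ‖(rot0 t w - rot0 s w) i‖ ^ (2:ℝ)) = fun t : ℝ =>
            ‖Complex.exp (Complex.I * (om i : ℂ) * (t : ℂ)) * w i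
              - Complex.exp (Complex.I * (om i : ℂ) * (s : ℂ)) * w i‖ ^ (2:ℕ) := by
          funext t
          rw [lp.coeFn_sub, Pi.sub_apply, rot0_apply, rot0_apply, Real.rpow_two]
        rw [this]
        fun_prop
      have := hc.tendsto s
      simpa using this
    · rw [Real.norm_of_nonneg (by positivity), lp.coeFn_sub, Pi.sub_apply, rot0_apply, rot0_apply,
        Real.rpow_two, Real.rpow_two]
      have h3 : ‖Complex.exp (Complex.I * (om i : ℂ) * (t : ℂ)) * w i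
              - Complex.exp (Complex.I * (om i : ℂ) * (s : ℂ)) * w i‖ ≤ 2 * ‖w i‖ := by
        refine (norm_sub_le _ _).trans ?_
        rw [norm_mul, norm_mul, rot_nrm, rot_nrm]
        linarith
      have h4 := pow_le_pow_left₀ (norm_nonneg _) h3 2
      calc _ ≤ _ := h4
        _ = 4 * ‖w i‖ ^ 2 := by ring
  have h5 := h2.sqrt
  rw [Real.sqrt_zero] at h5
  refine h5.congr (fun t => ?_)
  rw [Real.rpow_two, Real.sqrt_sq (norm_nonneg _)]

/-- the unitary group -/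
theorem exists_rot : ∃ rot : ℝ → HZ → HZ,
    (∀ t z i, rot t z i = Complex.exp (Complex.I * (om i : ℂ) * (t : ℂ)) * z i) ∧
    (∀ t z w, rot t (z - w) = rot t z - rot t w) ∧ (∀ t z, ‖rot t z‖ = ‖z‖) ∧
    Continuous (fun p : ℝ × HZ => rot p.1 p.2) := by
  refine ⟨rot0, rot0_apply, rot0_sub, rot0_norm, ?_⟩
  rw [continuous_iff_continuousAt]
  rintro ⟨s, w⟩
  have hgoal : Tendsto (fun p : ℝ × HZ => ‖p.2 - w‖ + ‖rot0 p.1 w - rot0 s w‖)
      (𝓝 (s, w)) (𝓝 0) := by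
    have h1 : Tendsto (fun p : ℝ × HZ => ‖p.2 - w‖) (𝓝 (s, w)) (𝓝 0) := by
      have hc : Continuous (fun p : ℝ × HZ => ‖p.2 - w‖) := by fun_prop
      have := hc.tendsto (s, w)
      simpa using this
    have h2 : Tendsto (fun p : ℝ × HZ => ‖rot0 p.1 w - rot0 s w‖) (𝓝 (s, w)) (𝓝 0) :=
      (rot0_tendsto w s).comp (continuous_fst.tendsto (s, w))
    simpa using h1.add h2
  refine tendsto_iff_norm_sub_tendsto_zero.2 ?_
  refine squeeze_zero (fun _ => norm_nonneg _) (fun p => ?_) hgoal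
  have h3 : rot0 p.1 p.2 - rot0 s w = rot0 p.1 (p.2 - w) + (rot0 p.1 w - rot0 s w) := by
    rw [rot0_sub]; abel
  calc ‖rot0 p.1 p.2 - rot0 s w‖ = ‖rot0 p.1 (p.2 - w) + (rot0 p.1 w - rot0 s w)‖ := by rw [h3]
    _ ≤ ‖rot0 p.1 (p.2 - w)‖ + ‖rot0 p.1 w - rot0 s w‖ := norm_add_le _ _
    _ = ‖p.2 - w‖ + ‖rot0 p.1 w - rot0 s w‖ := by rw [rot0_norm]

end Haraux
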