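import Mathlib

set_option autoImplicit false

open MeasureTheory Complex Set Filter Topology

namespace Haraux

section GO

variable {E : Type*} [NormedAddCommGroup E] [NormedSpace ℝ E]

theorem g3_go_local [CompleteSpace E] (F : ℝ → E → E) (L : NNReal) (hL : ∀ t, LipschitzWith L (F t))
    (hc : Continuous (Function.uncurry F)) : ∃ τ > (0:ℝ), ∀ (t0 : ℝ) (x : E), ∃ α : ℝ → E, α t0 = x ∧
      ∀ t ∈ Ioo (t0 - τ) (t0 + τ), HasDerivAt α (F t (α t)) t := by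
  set τ : ℝ := 1 / (2 * ((L:ℝ) + 1)) with hτ
  have hL0 : (0:ℝ) ≤ L := L.2
  have hτ0 : 0 < τ := by positivity
  have hLτ : 2 * (L:ℝ) * τ ≤ 1 := by
    rw [hτ, mul_one_div, div_le_one (by positivity)]
    linarith
  refine ⟨τ, hτ0, fun t0 x => ?_⟩
  have hcx : ∀ y : E, Continuous (fun t => F t y) := fun y =>
    hc.comp (Continuous.prodMk continuous_id continuous_const)
  obtain ⟨M, hM⟩ := isCompact_Icc.exists_bound_of_continuousOn
    ((hcx x).continuousOn (s := Icc (t0 - τ) (t0 + τ)))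
  have ht0 : t0 ∈ Icc (t0 - τ) (t0 + τ) := ⟨by linarith, by linarith⟩
  have hM0 : 0 ≤ M := (norm_nonneg _).trans (hM t0 ht0)
  let M' : NNReal := ⟨M, hM0⟩
  let τ' : NNReal := ⟨τ, hτ0.le⟩
  have hpl : IsPicardLindelof F (⟨t0, ht0⟩ : Icc (t0 - τ) (t0 + τ)) x (2 * M' * τ') 0
      (M' + L * (2 * M' * τ')) L := by
    constructor
    · exact fun t _ => (hL t).lipschitzOnWith
    · exact fun y _ => (hcx y).continuousOn
    · intro t ht y hy
      have h1 : ‖F t y - F t x‖ ≤ L * ‖y - x‖ := (hL t).norm_sub_le y x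
      have h2 : ‖F t x‖ ≤ M := hM t ht
      have h3 : ‖y - x‖ ≤ 2 * M * τ := by
        rw [← dist_eq_norm]
        exact hy
      have h4 : ‖F t y‖ ≤ ‖F t x‖ + ‖F t y - F t x‖ := by
        calc ‖F t y‖ = ‖F t x + (F t y - F t x)‖ := by rw [add_sub_cancel]
          _ ≤ _ := norm_add_le _ _
      show ‖F t y‖ ≤ M + L * (2 * M * τ)
      have h5 : (L:ℝ) * ‖y - x‖ ≤ L * (2 * M * τ) := mul_le_mul_of_nonneg_left h3 hL0
      linarith
    · have h1 : t0 + τ - t0 = τ := by ring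
      have h2 : t0 - (t0 - τ) = τ := by ring
      show (M + L * (2 * M * τ)) * max (t0 + τ - t0) (t0 - (t0 - τ)) ≤ 2 * M * τ - 0
      rw [h1, h2, max_self]
      have h3 : (2 * (L:ℝ) * τ) * (M * τ) ≤ 1 * (M * τ) :=
        mul_le_mul_of_nonneg_right hLτ (by positivity)
      nlinarith
  obtain ⟨α, h1, h2⟩ := hpl.exists_eq_forall_mem_Icc_hasDerivWithinAt₀
  exact ⟨α, h1, fun t ht => (h2 t (Ioo_subset_Icc_self ht)).hasDerivAt (Icc_mem_nhds ht.1 ht.2)⟩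

theorem g3_go_glue (F : ℝ → E → E) (L : NNReal) (hL : ∀ t, LipschitzWith L (F t)) {a b c d p : ℝ}
    (hac : a ≤ c) (hbd : b ≤ d) (hp : p ∈ Ioo c b) (f g : ℝ → E)
    (hf : ∀ t ∈ Ioo a b, HasDerivAt f (F t (f t)) t)
    (hg : ∀ t ∈ Ioo c d, HasDerivAt g (F t (g t)) t) (hfg : f p = g p) :
    ∃ h : ℝ → E, (∀ t ∈ Ioo a d, HasDerivAt h (F t (h t)) t) ∧ EqOn h f (Ioo a b) ∧
      EqOn h g (Ioo c d) := by
  have hu : EqOn f g (Ioo c b) := by
    refine ODE_solution_unique_of_mem_Ioo (v := F) (s := fun _ => univ) (K := L) (t₀ := p)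
      (fun t _ => (hL t).lipschitzOnWith) hp (fun t ht => ⟨hf t ⟨lt_of_le_of_lt hac ht.1, ht.2⟩, trivial⟩)
      (fun t ht => ⟨hg t ⟨ht.1, lt_of_lt_of_le ht.2 hbd⟩, trivial⟩) hfg
  have e1 : EqOn (fun t => if t < p then f t else g t) f (Ioo a b) := by
    intro t ht
    simp only
    by_cases h : t < p
    · rw [if_pos h]
    · rw [if_neg h]
      exact (hu ⟨lt_of_lt_of_le hp.1 (not_lt.mp h), ht.2⟩).symm
  have e2 : EqOn (fun t => if t < p then f t else g t) g (Ioo c d) := by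
    intro t ht
    simp only
    by_cases h : t < p
    · rw [if_pos h]
      exact hu ⟨ht.1, lt_trans h hp.2⟩
    · rw [if_neg h]
  refine ⟨fun t => if t < p then f t else g t, ?_, e1, e2⟩
  intro t ht
  rcases lt_or_ge t b with h | h
  · have ht' : t ∈ Ioo a b := ⟨ht.1, h⟩
    have h1 : (fun t => if t < p then f t else g t) =ᶠ[𝓝 t] f :=
      Filter.eventuallyEq_of_mem (Ioo_mem_nhds ht'.1 ht'.2) e1
    have h2 := e1 ht'
    rw [h2]
    exact (hf t ht').congr_of_eventuallyEq h1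
  · have ht' : t ∈ Ioo c d := ⟨lt_of_lt_of_le (lt_trans hp.1 hp.2) h, ht.2⟩
    have h1 : (fun t => if t < p then f t else g t) =ᶠ[𝓝 t] g :=
      Filter.eventuallyEq_of_mem (Ioo_mem_nhds ht'.1 ht'.2) e2
    have h2 := e2 ht'
    rw [h2]
    exact (hg t ht').congr_of_eventuallyEq h1

theorem g3_go_steps (F : ℝ → E → E) (L : NNReal) (hL : ∀ t, LipschitzWith L (F t)) {h0 : ℝ} (hh0 : 0 < h0)
    (hloc : ∀ (t0 : ℝ) (x : E), ∃ α : ℝ → E, α t0 = x ∧
      ∀ t ∈ Ioo (t0 - 2 * h0) (t0 + 2 * h0), HasDerivAt α (F t (α t)) t) (x0 : E) (n : ℕ) :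
    ∃ ξ : ℝ → E, ξ 0 = x0 ∧
      ∀ t ∈ Ioo (-(2 * h0 + n * h0)) (2 * h0 + n * h0), HasDerivAt ξ (F t (ξ t)) t := by
  induction n with
  | zero =>
    obtain ⟨α, h1, h2⟩ := hloc 0 x0
    refine ⟨α, h1, fun t ht => h2 t ⟨?_, ?_⟩⟩
    · have := ht.1
      push_cast at this
      linarith
    · have := ht.2
      push_cast at this
      linarith
  | succ n ih =>
    obtain ⟨ξ, hξ0, hξ⟩ := ih
    obtain ⟨T, hT⟩ : ∃ T, T = 2 * h0 + n * h0 := ⟨_, rfl⟩
    rw [← hT] at hξ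
    have hn : (0:ℝ) ≤ n * h0 := by positivity
    have hT2 : 2 * h0 ≤ T := by linarith
    have hT' : 2 * h0 + ((n + 1 : ℕ) : ℝ) * h0 = T + h0 := by
      push_cast
      linarith
    rw [hT']
    obtain ⟨α, hα1, hα2⟩ := hloc (T - h0) (ξ (T - h0))
    obtain ⟨ξ1, a1, a2, -⟩ := g3_go_glue F L hL (a := -T) (b := T) (c := T - 3 * h0) (d := T + h0)
      (p := T - h0) (by linarith) (by linarith) ⟨by linarith, by linarith⟩ ξ α hξ
      (fun t ht => hα2 t ⟨by linarith [ht.1], by linarith [ht.2]⟩) hα1.symm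
    have hξ10 : ξ1 0 = x0 := by
      rw [a2 ⟨by linarith, by linarith⟩, hξ0]
    obtain ⟨β, hβ1, hβ2⟩ := hloc (-T + h0) (ξ1 (-T + h0))
    obtain ⟨ξ2, b1, -, b3⟩ := g3_go_glue F L hL (a := -(T + h0)) (b := -T + 3 * h0) (c := -T) (d := T + h0)
      (p := -T + h0) (by linarith) (by linarith) ⟨by linarith, by linarith⟩ β ξ1
      (fun t ht => hβ2 t ⟨by linarith [ht.1], by linarith [ht.2]⟩) a1 hβ1
    refine ⟨ξ2, ?_, b1⟩
    rw [b3 ⟨by linarith, by linarith⟩, hξ10]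

end GO

theorem global_ode {E : Type*} [NormedAddCommGroup E] [NormedSpace ℝ E] [CompleteSpace E]
    (F : ℝ → E → E) (L : NNReal) (hL : ∀ t, LipschitzWith L (F t))
    (hc : Continuous (Function.uncurry F)) (x0 : E) :
    ∃ ξ : ℝ → E, ξ 0 = x0 ∧ ∀ t, HasDerivAt ξ (F t (ξ t)) t := by
  obtain ⟨τ, hτ, hloc⟩ := g3_go_local F L hL hc
  have hex : ∀ n : ℕ, ∃ γ : ℝ → E, γ 0 = x0 ∧
      ∀ t ∈ Ioo (-((n:ℝ) + 1)) ((n:ℝ) + 1), HasDerivAt γ (F t (γ t)) t := by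
    intro n
    obtain ⟨m, hm⟩ := exists_nat_ge (((n:ℝ) + 1) / (τ / 2))
    rw [div_le_iff₀ (by positivity)] at hm
    obtain ⟨ξ, h1, h2⟩ := g3_go_steps F L hL (h0 := τ / 2) (by positivity) (by
      intro t0 x
      obtain ⟨α, h3, h4⟩ := hloc t0 x
      exact ⟨α, h3, fun t ht => h4 t ⟨by linarith [ht.1], by linarith [ht.2]⟩⟩) x0 m
    exact ⟨ξ, h1, fun t ht => h2 t ⟨by linarith [ht.1], by linarith [ht.2]⟩⟩
  choose γ h0 h1 using hex
  have hun : ∀ n k : ℕ, n ≤ k → EqOn (γ n) (γ k) (Ioo (-((n:ℝ) + 1)) ((n:ℝ) + 1)) := by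
    intro n k hnk
    have hnk' : (n:ℝ) ≤ k := by exact_mod_cast hnk
    have hn : (0:ℝ) ≤ n := n.cast_nonneg
    refine ODE_solution_unique_of_mem_Ioo (v := F) (s := fun _ => univ) (K := L) (t₀ := 0)
      (fun t _ => (hL t).lipschitzOnWith) ⟨by linarith, by linarith⟩
      (fun t ht => ⟨h1 n t ht, trivial⟩) (fun t ht => ⟨h1 k t ⟨?_, ?_⟩, trivial⟩) ?_
    · linarith [ht.1]
    · linarith [ht.2]
    · rw [h0, h0]
  refine ⟨fun t => γ ⌈|t|⌉₊ t, ?_, ?_⟩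
  · simp only
    rw [h0]
  · intro t
    set N : ℕ := ⌈|t|⌉₊ + 1 with hN
    have hval : ∀ s : ℝ, |s| < |t| + 1 → γ ⌈|s|⌉₊ s = γ N s := by
      intro s hs
      have h2 : ⌈|s|⌉₊ ≤ N := by
        have h3 : |s| ≤ ((⌈|t|⌉₊ + 1 : ℕ) : ℝ) := by
          push_cast
          linarith [Nat.le_ceil |t|]
        exact Nat.ceil_le.2 h3
      refine hun _ _ h2 ?_
      have h3 := Nat.le_ceil |s|
      exact abs_lt.1 (by linarith : |s| < (⌈|s|⌉₊:ℝ) + 1)
    have h3 : HasDerivAt (γ N) (F t (γ N t)) t := by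
      apply h1
      have h4 := Nat.le_ceil |t|
      refine abs_lt.1 ?_
      rw [hN]
      push_cast
      linarith
    have h4 : (fun s => γ ⌈|s|⌉₊ s) =ᶠ[𝓝 t] γ N := by
      have : ∀ᶠ s in 𝓝 t, |s| < |t| + 1 :=
        (continuous_abs.tendsto t).eventually (gt_mem_nhds (by linarith))
      exact this.mono hval
    change HasDerivAt _ (F t (γ ⌈|t|⌉₊ t)) t
    rw [hval t (by linarith)]
    exact h3.congr_of_eventuallyEq h4


end Haraux
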