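import Pool.Agent.Helper27.Har.Base
import Pool.Agent.Helper27.Har.P_rin_facts
import Pool.Agent.Helper27.Har.P_kick_apply
import Pool.Agent.Helper27.Har.P_exists_rot
import Pool.Agent.Helper27.Har.P_global_ode

set_option autoImplicit false

open MeasureTheory Set Real Filter Topology
open scoped ENNReal NNReal

namespace Haraux



/-- evaluation of a coordinate as a continuous linear map -/
private noncomputable def es836_ev (i : ℕ × ℕ) : HZ →L[ℝ] ℂ :=
  LinearMap.mkContinuous
    { toFun := fun z => z i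
      map_add' := fun z w => by rw [lp.coeFn_add]; rfl
      map_smul' := fun c z => by rw [lp.coeFn_smul]; rfl }
    1 (by
      intro z
      rw [one_mul]
      exact lp.norm_apply_le_norm (by norm_num) z i)

private theorem es836_ev_apply (i : ℕ × ℕ) (z : HZ) : es836_ev i z = z i := rfl

/-- existence of global solutions -/
theorem exists_sol (N : ℝ → KK → KK) (hN : Continuous (Function.uncurry N))
    (hL : ∀ t, LipschitzWith 1 (N t)) (z0 : HZ) : ∃ z, IsSol N z ∧ z 0 = z0 := by
  obtain ⟨-, -, -, -, -, -, -, -, -, hvsub, hvle, hvc, -, hksub, -, hkn, hkc, -⟩ := rin_facts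
  obtain ⟨rot, hr, hrsub, hrn, hrc⟩ := exists_rot
  have hF1 : ∀ t, LipschitzWith 1 (fun W : HZ => - rot t (kick (N t (vel (rot (-t) W))))) := by
    intro t
    apply LipschitzWith.of_dist_le_mul
    intro W W'
    rw [dist_eq_norm, dist_eq_norm, NNReal.coe_one, one_mul]
    have e1 : - rot t (kick (N t (vel (rot (-t) W)))) - - rot t (kick (N t (vel (rot (-t) W'))))
        = - rot t (kick (N t (vel (rot (-t) W)) - N t (vel (rot (-t) W')))) := by
      rw [hksub, hrsub]; abel
    rw [e1, norm_neg, hrn, hkn]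
    have h1 := (hL t).dist_le_mul (vel (rot (-t) W)) (vel (rot (-t) W'))
    rw [dist_eq_norm, dist_eq_norm, NNReal.coe_one, one_mul, ← hvsub, ← hrsub] at h1
    refine h1.trans ((hvle _).trans ?_)
    rw [hrn]
  have hF2 : Continuous (Function.uncurry
      (fun (t : ℝ) (W : HZ) => - rot t (kick (N t (vel (rot (-t) W)))))) := by
    have h1 : Continuous (fun p : ℝ × HZ => rot (-p.1) p.2) :=
      hrc.comp ((continuous_fst.neg).prodMk continuous_snd)
    have h2 : Continuous (fun p : ℝ × HZ => N p.1 (vel (rot (-p.1) p.2))) :=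
      hN.comp (continuous_fst.prodMk (hvc.comp h1))
    have h3 : Continuous (fun p : ℝ × HZ => rot p.1 (kick (N p.1 (vel (rot (-p.1) p.2))))) :=
      hrc.comp (continuous_fst.prodMk (hkc.comp h2))
    exact h3.neg
  obtain ⟨ξ, hξ0, hξ⟩ := global_ode _ 1 hF1 hF2 z0
  have hξc : Continuous ξ := continuous_iff_continuousAt.2 fun t => (hξ t).continuousAt
  refine ⟨fun t => rot (-t) (ξ t), ⟨?_, ?_⟩, ?_⟩
  · exact hrc.comp (continuous_neg.prodMk hξc)
  · intro t i
    have h1 : HasDerivAt (fun s => ξ s i)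
        ((- rot t (kick (N t (vel (rot (-t) (ξ t))))) : HZ) i) t :=
      (es836_ev i).hasFDerivAt.comp_hasDerivAt t (hξ t)
    have e1 : ((- rot t (kick (N t (vel (rot (-t) (ξ t))))) : HZ) i)
        = -(Complex.exp (Complex.I * (om i : ℂ) * (t : ℂ))
          * kick (N t (vel (rot (-t) (ξ t)))) i) := by
      rw [lp.coeFn_neg, Pi.neg_apply, hr]
    rw [e1] at h1
    have h0 : HasDerivAt (fun s : ℝ => Complex.I * (om i : ℂ) * (((-s : ℝ)) : ℂ))
        (Complex.I * (om i : ℂ) * (-1)) t := by
      have h00 : HasDerivAt (fun s : ℝ => (((-s : ℝ)) : ℂ)) (((-1 : ℝ)) : ℂ) t :=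
        (hasDerivAt_neg t).ofReal_comp
      have h01 := h00.const_mul (Complex.I * (om i : ℂ))
      refine h01.congr_deriv ?_
      push_cast
      ring
    have h2 : HasDerivAt (fun s : ℝ => Complex.exp (Complex.I * (om i : ℂ) * (((-s : ℝ)) : ℂ)))
        (Complex.exp (Complex.I * (om i : ℂ) * (((-t : ℝ)) : ℂ))
          * (Complex.I * (om i : ℂ) * (-1))) t := h0.cexp
    have h3 := h2.mul h1
    have e2 : (fun s => (rot (-s) (ξ s) : HZ) i)
        = fun s => Complex.exp (Complex.I * (om i : ℂ) * (((-s : ℝ)) : ℂ)) * ξ s i := by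
      funext s
      rw [hr]
    change HasDerivAt (fun s => (rot (-s) (ξ s) : HZ) i) _ t
    rw [e2]
    refine HasDerivAt.congr_deriv h3 ?_
    change _ = -(Complex.I * (om i : ℂ)) * (rot (-t) (ξ t) : HZ) i
      - kick (N t (vel (rot (-t) (ξ t)))) i
    rw [hr (-t) (ξ t) i]
    have e3 : Complex.exp (Complex.I * (om i : ℂ) * (((-t : ℝ)) : ℂ))
        * Complex.exp (Complex.I * (om i : ℂ) * (t : ℂ)) = 1 := by
      rw [← Complex.exp_add]
      push_cast
      rw [mul_neg, neg_add_cancel, Complex.exp_zero]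
    linear_combination (-(kick (N t (vel (rot (-t) (ξ t)))) i)) * e3
  · change rot (-0) (ξ 0) = z0
    apply lp.ext
    funext i
    rw [hr, hξ0]
    simp

end Haraux
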