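import Pool.Agent.Helper27.Har.Base
import Pool.Agent.Helper27.Har.P_toK_ae
import Pool.Agent.Helper27.Har.P_toK_memLp
import Pool.Agent.Helper27.Har.P_toK_inner

set_option autoImplicit false

open MeasureTheory Set Real Filter Topology
open scoped ENNReal NNReal

namespace Haraux



private theorem go_cos_int (k : ℤ) : ∫ x in (0:ℝ)..π, Real.cos ((k : ℝ) * x) = if k = 0 then π else 0 := by
  by_cases hk : k = 0
  · subst hk
    simp
  · rw [if_neg hk]
    have hk' : (k : ℝ) ≠ 0 := by exact_mod_cast hk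
    rw [intervalIntegral.integral_comp_mul_left (fun x => Real.cos x) hk', integral_cos,
      mul_zero, Real.sin_zero, Real.sin_int_mul_pi]
    simp

private theorem go_cc (a b : ℕ) : ∫ x in Ioo (0:ℝ) π, Real.cos (((a : ℝ) + 1) * x) * Real.cos (((b : ℝ) + 1) * x) =
    if a = b then π / 2 else 0 := by
  rw [← integral_Ioc_eq_integral_Ioo, ← intervalIntegral.integral_of_le Real.pi_pos.le]
  have h1 : ∀ x : ℝ, Real.cos (((a : ℝ) + 1) * x) * Real.cos (((b : ℝ) + 1) * x) =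
      (1 / 2) * (Real.cos (((((a : ℤ) - b : ℤ)) : ℝ) * x) + Real.cos (((((a : ℤ) + b + 2 : ℤ)) : ℝ) * x)) := by
    intro x
    have e1 : (((((a : ℤ) - b : ℤ)) : ℝ) * x) = ((a : ℝ) + 1) * x - ((b : ℝ) + 1) * x := by
      push_cast; ring
    have e2 : (((((a : ℤ) + b + 2 : ℤ)) : ℝ) * x) = ((a : ℝ) + 1) * x + ((b : ℝ) + 1) * x := by
      push_cast; ring
    rw [e1, e2, Real.cos_sub, Real.cos_add]
    ring
  simp_rw [h1]
  rw [intervalIntegral.integral_const_mul, intervalIntegral.integral_add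
    ((by fun_prop : Continuous fun x : ℝ => Real.cos (((((a : ℤ) - b : ℤ)) : ℝ) * x)).intervalIntegrable _ _)
    ((by fun_prop : Continuous fun x : ℝ => Real.cos (((((a : ℤ) + b + 2 : ℤ)) : ℝ) * x)).intervalIntegrable _ _),
    go_cos_int, go_cos_int, if_neg (by omega : (a : ℤ) + b + 2 ≠ 0)]
  by_cases hab : a = b
  · rw [if_pos hab, if_pos (by omega)]
    ring
  · rw [if_neg hab, if_neg (by omega)]
    ring

private theorem go_ss (a b : ℕ) : ∫ x in Ioo (0:ℝ) π, Real.sin (((a : ℝ) + 1) * x) * Real.sin (((b : ℝ) + 1) * x) =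
    if a = b then π / 2 else 0 := by
  rw [← integral_Ioc_eq_integral_Ioo, ← intervalIntegral.integral_of_le Real.pi_pos.le]
  have h1 : ∀ x : ℝ, Real.sin (((a : ℝ) + 1) * x) * Real.sin (((b : ℝ) + 1) * x) =
      (1 / 2) * (Real.cos (((((a : ℤ) - b : ℤ)) : ℝ) * x) - Real.cos (((((a : ℤ) + b + 2 : ℤ)) : ℝ) * x)) := by
    intro x
    have e1 : (((((a : ℤ) - b : ℤ)) : ℝ) * x) = ((a : ℝ) + 1) * x - ((b : ℝ) + 1) * x := by
      push_cast; ring
    have e2 : (((((a : ℤ) + b + 2 : ℤ)) : ℝ) * x) = ((a : ℝ) + 1) * x + ((b : ℝ) + 1) * x := by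
      push_cast; ring
    rw [e1, e2, Real.cos_sub, Real.cos_add]
    ring
  simp_rw [h1]
  rw [intervalIntegral.integral_const_mul, intervalIntegral.integral_sub
    ((by fun_prop : Continuous fun x : ℝ => Real.cos (((((a : ℤ) - b : ℤ)) : ℝ) * x)).intervalIntegrable _ _)
    ((by fun_prop : Continuous fun x : ℝ => Real.cos (((((a : ℤ) + b + 2 : ℤ)) : ℝ) * x)).intervalIntegrable _ _),
    go_cos_int, go_cos_int, if_neg (by omega : (a : ℤ) + b + 2 ≠ 0)]
  by_cases hab : a = b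
  · rw [if_pos hab, if_pos (by omega)]
    ring
  · rw [if_neg hab, if_neg (by omega)]
    ring

private theorem go_fderiv (i : ℕ × ℕ) (q : ℝ × ℝ) : HasFDerivAt (sfun i)
    ((2 / π) • (Real.sin (((i.1 : ℝ) + 1) * q.1) • (Real.cos (((i.2 : ℝ) + 1) * q.2) •
        (((i.2 : ℝ) + 1) • ContinuousLinearMap.snd ℝ ℝ ℝ)) +
      Real.sin (((i.2 : ℝ) + 1) * q.2) • (Real.cos (((i.1 : ℝ) + 1) * q.1) •
        (((i.1 : ℝ) + 1) • ContinuousLinearMap.fst ℝ ℝ ℝ)))) q := by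
  have h1 : HasFDerivAt (fun q : ℝ × ℝ => Real.sin (((i.1 : ℝ) + 1) * q.1))
      (Real.cos (((i.1 : ℝ) + 1) * q.1) • (((i.1 : ℝ) + 1) • ContinuousLinearMap.fst ℝ ℝ ℝ)) q :=
    (hasFDerivAt_fst.const_mul ((i.1 : ℝ) + 1)).sin
  have h2 : HasFDerivAt (fun q : ℝ × ℝ => Real.sin (((i.2 : ℝ) + 1) * q.2))
      (Real.cos (((i.2 : ℝ) + 1) * q.2) • (((i.2 : ℝ) + 1) • ContinuousLinearMap.snd ℝ ℝ ℝ)) q :=
    (hasFDerivAt_snd.const_mul ((i.2 : ℝ) + 1)).sin
  exact (h1.mul h2).const_mul (2 / π)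

private theorem go_pdx (i : ℕ × ℕ) : pdx (sfun i) = fun q => (2 / π) * ((((i.1 : ℝ) + 1) *
    Real.cos (((i.1 : ℝ) + 1) * q.1)) * Real.sin (((i.2 : ℝ) + 1) * q.2)) := by
  funext q
  rw [pdx, (go_fderiv i q).fderiv]
  simp only [_root_.add_apply, _root_.smul_apply, ContinuousLinearMap.coe_fst',
    ContinuousLinearMap.coe_snd', smul_eq_mul]
  ring

private theorem go_pdy (i : ℕ × ℕ) : pdy (sfun i) = fun q => (2 / π) * (Real.sin (((i.1 : ℝ) + 1) * q.1) *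
    (((i.2 : ℝ) + 1) * Real.cos (((i.2 : ℝ) + 1) * q.2))) := by
  funext q
  rw [pdy, (go_fderiv i q).fderiv]
  simp only [_root_.add_apply, _root_.smul_apply, ContinuousLinearMap.coe_fst',
    ContinuousLinearMap.coe_snd', smul_eq_mul]
  ring

private theorem go_inner (F G : ℝ × ℝ → ℝ) (hF : MemLp F 2 (volume.restrict sq))
    (hG : MemLp G 2 (volume.restrict sq)) :
    (inner ℝ (toK F) (toK G) : ℝ) = ∫ q in sq, F q * G q := by
  rw [(toK_inner G hG).1 (toK F)]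
  refine integral_congr_ae ?_
  filter_upwards [toK_ae F hF] with q hq
  rw [hq]

private theorem go_memLp_x (i : ℕ × ℕ) : MemLp (pdx (sfun i)) 2 (volume.restrict sq) := by
  refine toK_memLp _ ?_ ((2 / π) * (((i.1 : ℝ) + 1) * 1 * 1)) ?_
  · rw [go_pdx]
    exact (by fun_prop : Continuous fun q : ℝ × ℝ => (2 / π) * ((((i.1 : ℝ) + 1) *
      Real.cos (((i.1 : ℝ) + 1) * q.1)) * Real.sin (((i.2 : ℝ) + 1) * q.2))).measurable
  · intro q
    rw [go_pdx]
    have hp := Real.pi_pos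
    have h0 : (0:ℝ) ≤ (i.1 : ℝ) + 1 := by positivity
    simp only [abs_mul]
    rw [abs_of_pos (by positivity : (0:ℝ) < 2 / π), abs_of_nonneg h0]
    have h1 := Real.abs_cos_le_one (((i.1 : ℝ) + 1) * q.1)
    have h2 := Real.abs_sin_le_one (((i.2 : ℝ) + 1) * q.2)
    gcongr

private theorem go_memLp_y (i : ℕ × ℕ) : MemLp (pdy (sfun i)) 2 (volume.restrict sq) := by
  refine toK_memLp _ ?_ ((2 / π) * (1 * (((i.2 : ℝ) + 1) * 1))) ?_
  · rw [go_pdy]
    exact (by fun_prop : Continuous fun q : ℝ × ℝ => (2 / π) * (Real.sin (((i.1 : ℝ) + 1) * q.1) *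
    (((i.2 : ℝ) + 1) * Real.cos (((i.2 : ℝ) + 1) * q.2)))).measurable
  · intro q
    rw [go_pdy]
    have hp := Real.pi_pos
    have h0 : (0:ℝ) ≤ (i.2 : ℝ) + 1 := by positivity
    simp only [abs_mul]
    rw [abs_of_pos (by positivity : (0:ℝ) < 2 / π), abs_of_nonneg h0]
    have h1 := Real.abs_sin_le_one (((i.1 : ℝ) + 1) * q.1)
    have h2 := Real.abs_cos_le_one (((i.2 : ℝ) + 1) * q.2)
    gcongr

private theorem go_prod (f g : ℝ → ℝ) (c : ℝ) :
    ∫ q in sq, c * (f q.1 * g q.2) = c * ((∫ x in Ioo (0:ℝ) π, f x) * ∫ y in Ioo (0:ℝ) π, g y) := by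
  rw [integral_const_mul, ← setIntegral_prod_mul f g]
  rfl

/-- orthogonality of the gradients -/
theorem grad_orth (i j : ℕ × ℕ) :
    (inner ℝ (toK (pdx (sfun i))) (toK (pdx (sfun j))) : ℝ) = (if i = j then ((i.1 : ℝ) + 1) ^ 2 else 0) ∧
    (inner ℝ (toK (pdy (sfun i))) (toK (pdy (sfun j))) : ℝ) = (if i = j then ((i.2 : ℝ) + 1) ^ 2 else 0) := by
  have hp := Real.pi_pos
  constructor
  · rw [go_inner _ _ (go_memLp_x i) (go_memLp_x j), go_pdx, go_pdx]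
    have h1 : ∀ q : ℝ × ℝ, (2 / π) * ((((i.1 : ℝ) + 1) *
        Real.cos (((i.1 : ℝ) + 1) * q.1)) * Real.sin (((i.2 : ℝ) + 1) * q.2)) *
        ((2 / π) * ((((j.1 : ℝ) + 1) *
        Real.cos (((j.1 : ℝ) + 1) * q.1)) * Real.sin (((j.2 : ℝ) + 1) * q.2))) =
        ((2 / π) ^ 2 * (((i.1 : ℝ) + 1) * ((j.1 : ℝ) + 1))) *
        ((Real.cos (((i.1 : ℝ) + 1) * q.1) * Real.cos (((j.1 : ℝ) + 1) * q.1)) *
        (Real.sin (((i.2 : ℝ) + 1) * q.2) * Real.sin (((j.2 : ℝ) + 1) * q.2))) := by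
      intro q; ring
    simp_rw [h1]
    rw [go_prod (fun x => Real.cos (((i.1 : ℝ) + 1) * x) * Real.cos (((j.1 : ℝ) + 1) * x))
      (fun y => Real.sin (((i.2 : ℝ) + 1) * y) * Real.sin (((j.2 : ℝ) + 1) * y)), go_cc, go_ss]
    by_cases hij : i = j
    · subst hij
      simp only [if_true]
      field_simp
    · rw [if_neg hij]
      by_cases h2 : i.1 = j.1
      · have h3 : i.2 ≠ j.2 := fun h3 => hij (Prod.ext h2 h3)
        rw [if_neg h3]
        ring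
      · rw [if_neg h2]
        ring
  · rw [go_inner _ _ (go_memLp_y i) (go_memLp_y j), go_pdy, go_pdy]
    have h1 : ∀ q : ℝ × ℝ, (2 / π) * (Real.sin (((i.1 : ℝ) + 1) * q.1) *
        (((i.2 : ℝ) + 1) * Real.cos (((i.2 : ℝ) + 1) * q.2))) *
        ((2 / π) * (Real.sin (((j.1 : ℝ) + 1) * q.1) *
        (((j.2 : ℝ) + 1) * Real.cos (((j.2 : ℝ) + 1) * q.2)))) =
        ((2 / π) ^ 2 * (((i.2 : ℝ) + 1) * ((j.2 : ℝ) + 1))) *
        ((Real.sin (((i.1 : ℝ) + 1) * q.1) * Real.sin (((j.1 : ℝ) + 1) * q.1)) *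
        (Real.cos (((i.2 : ℝ) + 1) * q.2) * Real.cos (((j.2 : ℝ) + 1) * q.2))) := by
      intro q; ring
    simp_rw [h1]
    rw [go_prod (fun x => Real.sin (((i.1 : ℝ) + 1) * x) * Real.sin (((j.1 : ℝ) + 1) * x))
      (fun y => Real.cos (((i.2 : ℝ) + 1) * y) * Real.cos (((j.2 : ℝ) + 1) * y)), go_cc, go_ss]
    by_cases hij : i = j
    · subst hij
      simp only [if_true]
      field_simp
    · rw [if_neg hij]
      by_cases h2 : i.1 = j.1
      · have h3 : i.2 ≠ j.2 := fun h3 => hij (Prod.ext h2 h3)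
        rw [if_neg h3]
        ring
      · rw [if_neg h2]
        ring

end Haraux
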