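import Pool.Agent.Helper27.Har.Base
import Pool.Agent.Helper27.Har.P_cut_approx
import Pool.Agent.Helper27.Har.P_toK_ae
import Pool.Agent.Helper27.Har.P_toK_memLp
import Pool.Agent.Helper27.Har.P_toK_inner
import Pool.Agent.Helper27.Har.P_toK_add

set_option autoImplicit false

open MeasureTheory Set Real Filter Topology
open scoped ENNReal NNReal

namespace Haraux



private theorem sfun_H10_pd (A B : ℝ → ℝ) (hA : Differentiable ℝ A) (hB : Differentiable ℝ B) (c : ℝ) :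
    pdx (fun q => c * (A q.1 * B q.2)) = (fun q => c * (deriv A q.1 * B q.2)) ∧
    pdy (fun q => c * (A q.1 * B q.2)) = (fun q => c * (A q.1 * deriv B q.2)) := by
  have key : ∀ q : ℝ × ℝ, HasFDerivAt (fun q : ℝ × ℝ => c * (A q.1 * B q.2))
      (c • (A q.1 • ((deriv B q.2) • ContinuousLinearMap.snd ℝ ℝ ℝ) +
        B q.2 • ((deriv A q.1) • ContinuousLinearMap.fst ℝ ℝ ℝ))) q := by
    intro q
    have h1 : HasFDerivAt (fun q : ℝ × ℝ => A q.1) ((deriv A q.1) • ContinuousLinearMap.fst ℝ ℝ ℝ) q :=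
      (hA q.1).hasDerivAt.comp_hasFDerivAt q hasFDerivAt_fst
    have h2 : HasFDerivAt (fun q : ℝ × ℝ => B q.2) ((deriv B q.2) • ContinuousLinearMap.snd ℝ ℝ ℝ) q :=
      (hB q.2).hasDerivAt.comp_hasFDerivAt q hasFDerivAt_snd
    exact (h1.mul h2).const_mul c
  constructor
  · funext q
    unfold pdx
    rw [(key q).fderiv]
    simp
    left
    ring
  · funext q
    unfold pdy
    rw [(key q).fderiv]
    simp

private theorem sfun_H10_key (A a B b : ℝ → ℝ) (hA : Continuous A) (ha : Continuous a) (hB : Continuous B)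
    (hb : Continuous b) (M : ℝ) (haM : ∀ x, |a x| ≤ M) (hbM : ∀ x, |b x| ≤ M) (e : ℝ) (he0 : 0 ≤ e)
    (he1 : e ≤ 1) (h1 : (∫ x in (0:ℝ)..π, (A x - a x) ^ 2) ≤ e)
    (h2 : (∫ x in (0:ℝ)..π, (B x - b x) ^ 2) ≤ e) :
    (∫ q in sq, (2 / π * (A q.1 * B q.2) - 2 / π * (a q.1 * b q.2)) ^ 2) ≤
      (4 / π ^ 2 * (4 + 6 * π * M ^ 2)) * e := by
  have hpi := Real.pi_pos
  have hM0 : 0 ≤ M := le_trans (abs_nonneg _) (haM 0)
  have hint1 : ∀ g : ℝ → ℝ, Continuous g → IntegrableOn g (Ioo 0 π) volume := fun g hg =>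
    (hg.continuousOn.integrableOn_compact isCompact_Icc).mono_set Ioo_subset_Icc_self
  have hint2 : ∀ g : ℝ × ℝ → ℝ, Continuous g → IntegrableOn g sq volume := fun g hg =>
    (hg.continuousOn.integrableOn_compact (isCompact_Icc.prod isCompact_Icc)).mono_set
      (Set.prod_mono Ioo_subset_Icc_self Ioo_subset_Icc_self)
  have hconv : ∀ g : ℝ → ℝ, (∫ x in (0:ℝ)..π, g x) = ∫ x in Ioo 0 π, g x := by
    intro g
    rw [intervalIntegral.integral_of_le hpi.le, integral_Ioc_eq_integral_Ioo]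
  have hprod : ∀ f g : ℝ → ℝ, (∫ q in sq, f q.1 * g q.2) = (∫ x in Ioo 0 π, f x) * ∫ y in Ioo 0 π, g y := by
    intro f g
    rw [Measure.volume_eq_prod, setIntegral_prod_mul]
  rw [hconv] at h1 h2
  -- bound of squares
  have hsq : ∀ g : ℝ → ℝ, Continuous g → (∀ x, |g x| ≤ M) → (∫ x in Ioo 0 π, (g x) ^ 2) ≤ π * M ^ 2 := by
    intro g hg hgM
    have t : (∫ x in Ioo 0 π, (g x) ^ 2) ≤ ∫ x in Ioo (0:ℝ) π, M ^ 2 := by
      apply integral_mono (hint1 _ (by fun_prop)) (hint1 _ continuous_const)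
      intro x
      have := hgM x
      have h3 : (g x) ^ 2 = |g x| ^ 2 := (sq_abs _).symm
      show (g x) ^ 2 ≤ M ^ 2
      rw [h3]
      exact pow_le_pow_left₀ (abs_nonneg _) this 2
    rw [setIntegral_const] at t
    have e1 : (volume.real (Ioo (0:ℝ) π)) = π := by
      rw [Real.volume_real_Ioo_of_le hpi.le]; ring
    rw [e1, smul_eq_mul] at t
    exact t
  have hB2 : (∫ x in Ioo 0 π, (B x) ^ 2) ≤ 2 * e + 2 * (π * M ^ 2) := by
    have t : (∫ x in Ioo 0 π, (B x) ^ 2) ≤ ∫ x in Ioo 0 π, (2 * (B x - b x) ^ 2 + 2 * (b x) ^ 2) := by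
      apply integral_mono (hint1 _ (by fun_prop)) (hint1 _ (by fun_prop))
      intro x
      show (B x) ^ 2 ≤ 2 * (B x - b x) ^ 2 + 2 * (b x) ^ 2
      nlinarith [sq_nonneg (B x - 2 * b x)]
    rw [integral_add (hint1 (fun x => 2 * (B x - b x) ^ 2) (by fun_prop))
      (hint1 (fun x => 2 * (b x) ^ 2) (by fun_prop)), integral_const_mul, integral_const_mul] at t
    have := hsq b hb hbM
    linarith
  have hmain : (∫ q in sq, (2 / π * (A q.1 * B q.2) - 2 / π * (a q.1 * b q.2)) ^ 2) ≤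
      ∫ q in sq, (4 / π ^ 2 * 2 * ((A q.1 - a q.1) ^ 2 * (B q.2) ^ 2) +
        4 / π ^ 2 * 2 * ((a q.1) ^ 2 * (B q.2 - b q.2) ^ 2)) := by
    apply integral_mono (hint2 _ (by fun_prop)) (hint2 _ (by fun_prop))
    intro q
    show (2 / π * (A q.1 * B q.2) - 2 / π * (a q.1 * b q.2)) ^ 2 ≤
      4 / π ^ 2 * 2 * ((A q.1 - a q.1) ^ 2 * (B q.2) ^ 2) +
        4 / π ^ 2 * 2 * ((a q.1) ^ 2 * (B q.2 - b q.2) ^ 2)
    have e1 : (2 / π * (A q.1 * B q.2) - 2 / π * (a q.1 * b q.2)) ^ 2 =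
      4 / π ^ 2 * ((A q.1 - a q.1) * B q.2 + a q.1 * (B q.2 - b q.2)) ^ 2 := by
      field_simp
      ring
    rw [e1]
    have e2 : 4 / π ^ 2 * 2 * ((A q.1 - a q.1) ^ 2 * (B q.2) ^ 2) +
        4 / π ^ 2 * 2 * ((a q.1) ^ 2 * (B q.2 - b q.2) ^ 2) =
        4 / π ^ 2 * (2 * ((A q.1 - a q.1) * B q.2) ^ 2 + 2 * (a q.1 * (B q.2 - b q.2)) ^ 2) := by ring
    rw [e2]
    apply mul_le_mul_of_nonneg_left _ (by positivity)
    nlinarith [sq_nonneg ((A q.1 - a q.1) * B q.2 - a q.1 * (B q.2 - b q.2))]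
  rw [integral_add (hint2 (fun q => 4 / π ^ 2 * 2 * ((A q.1 - a q.1) ^ 2 * (B q.2) ^ 2)) (by fun_prop))
    (hint2 (fun q => 4 / π ^ 2 * 2 * ((a q.1) ^ 2 * (B q.2 - b q.2) ^ 2)) (by fun_prop)),
    integral_const_mul, integral_const_mul, hprod (fun x => (A x - a x) ^ 2) (fun y => (B y) ^ 2),
    hprod (fun x => (a x) ^ 2) (fun y => (B y - b y) ^ 2)] at hmain
  have n1 : 0 ≤ ∫ x in Ioo 0 π, (A x - a x) ^ 2 := integral_nonneg (fun x => sq_nonneg _)
  have n2 : 0 ≤ ∫ x in Ioo 0 π, (B x) ^ 2 := integral_nonneg (fun x => sq_nonneg _)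
  have n3 : 0 ≤ ∫ x in Ioo 0 π, (a x) ^ 2 := integral_nonneg (fun x => sq_nonneg _)
  have n4 : 0 ≤ ∫ x in Ioo 0 π, (B x - b x) ^ 2 := integral_nonneg (fun x => sq_nonneg _)
  have m1 : (∫ x in Ioo 0 π, (A x - a x) ^ 2) * (∫ x in Ioo 0 π, (B x) ^ 2) ≤
      e * (2 * e + 2 * (π * M ^ 2)) := mul_le_mul h1 hB2 n2 he0
  have m2 : (∫ x in Ioo 0 π, (a x) ^ 2) * (∫ x in Ioo 0 π, (B x - b x) ^ 2) ≤
      (π * M ^ 2) * e := mul_le_mul (hsq a ha haM) h2 n4 (by positivity)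
  have hc : 0 ≤ 4 / π ^ 2 := by positivity
  have m3 : e * (2 * e + 2 * (π * M ^ 2)) ≤ e * (2 + 2 * (π * M ^ 2)) := by
    apply mul_le_mul_of_nonneg_left _ he0
    linarith
  calc _ ≤ _ := hmain
    _ ≤ 4 / π ^ 2 * 2 * (e * (2 + 2 * (π * M ^ 2))) + 4 / π ^ 2 * 2 * ((π * M ^ 2) * e) := by
        apply add_le_add
        · apply mul_le_mul_of_nonneg_left (le_trans m1 m3) (by positivity)
        · apply mul_le_mul_of_nonneg_left m2 (by positivity)
    _ = (4 / π ^ 2 * (4 + 6 * π * M ^ 2)) * e := by ring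

private theorem sfun_H10_mem (A B : ℝ → ℝ) (hA : Continuous A) (hB : Continuous B) (CA CB : ℝ)
    (hCA : ∀ x, |A x| ≤ CA) (hCB : ∀ x, |B x| ≤ CB) :
    MemLp (fun q : ℝ × ℝ => 2 / π * (A q.1 * B q.2)) 2 (volume.restrict sq) := by
  have hpi := Real.pi_pos
  have h0 : 0 ≤ CA := le_trans (abs_nonneg _) (hCA 0)
  apply toK_memLp _ (by fun_prop) (2 / π * (CA * CB))
  intro q
  rw [abs_mul, abs_mul, abs_of_pos (by positivity : 0 < 2 / π)]
  apply mul_le_mul_of_nonneg_left _ (by positivity)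
  exact mul_le_mul (hCA _) (hCB _) (abs_nonneg _) h0

private theorem sfun_H10_dist (A a B b : ℝ → ℝ) (hA : Continuous A) (ha : Continuous a) (hB : Continuous B)
    (hb : Continuous b) (CA CB : ℝ) (hCA : ∀ x, |A x| ≤ CA) (hCB : ∀ x, |B x| ≤ CB)
    (M : ℝ) (haM : ∀ x, |a x| ≤ M) (hbM : ∀ x, |b x| ≤ M) (e : ℝ) (he0 : 0 ≤ e)
    (he1 : e ≤ 1) (h1 : (∫ x in (0:ℝ)..π, (A x - a x) ^ 2) ≤ e)
    (h2 : (∫ x in (0:ℝ)..π, (B x - b x) ^ 2) ≤ e) :
    dist (toK (fun q => 2 / π * (a q.1 * b q.2))) (toK (fun q => 2 / π * (A q.1 * B q.2))) ^ 2 ≤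
      (4 / π ^ 2 * (4 + 6 * π * M ^ 2)) * e := by
  have m1 := sfun_H10_mem A B hA hB CA CB hCA hCB
  have m2 := sfun_H10_mem a b ha hb M M haM hbM
  rw [dist_comm, dist_eq_norm, ← (toK_add _ _ m1 m2).2.1]
  have hn := (toK_inner (fun q : ℝ × ℝ => 2 / π * (A q.1 * B q.2) - 2 / π * (a q.1 * b q.2))
    (m1.sub m2)).2.2
  rw [hn]
  exact sfun_H10_key A a B b hA ha hB hb M haM hbM e he0 he1 h1 h2

/-- the eigenfunctions with their gradients belong to `H10` -/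
theorem sfun_H10 (i : ℕ × ℕ) : (toK (sfun i), toK (pdx (sfun i)), toK (pdy (sfun i))) ∈ H10 sq := by
  have hpi := Real.pi_pos
  obtain ⟨n, l⟩ := i
  obtain ⟨s, hs⟩ : ∃ s : ℝ → ℝ, s = fun x => Real.sin (((n : ℝ) + 1) * x) := ⟨_, rfl⟩
  obtain ⟨r, hr⟩ : ∃ r : ℝ → ℝ, r = fun x => Real.sin (((l : ℝ) + 1) * x) := ⟨_, rfl⟩
  have hsC : ContDiff ℝ (⊤ : ℕ∞) s := by
    rw [hs]
    exact Real.contDiff_sin.comp (contDiff_const.mul contDiff_id)
  have hrC : ContDiff ℝ (⊤ : ℕ∞) r := by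
    rw [hr]
    exact Real.contDiff_sin.comp (contDiff_const.mul contDiff_id)
  have hzero : ∀ k : ℕ, Real.sin (((k : ℝ) + 1) * π) = 0 := by
    intro k
    have := Real.sin_nat_mul_pi (k + 1)
    push_cast at this
    exact this
  have hder : ∀ k : ℝ, deriv (fun x => Real.sin (k * x)) = fun x => k * Real.cos (k * x) := by
    intro k
    funext x
    have h1 : HasDerivAt (fun x : ℝ => k * x) k x := by
      simpa using (hasDerivAt_id x).const_mul k
    have h2 := h1.sin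
    rw [h2.deriv]
    ring
  obtain ⟨M, hM⟩ : ∃ M : ℝ, M = ((n : ℝ) + 1) + ((l : ℝ) + 1) := ⟨_, rfl⟩
  have hn0 : (0:ℝ) ≤ n := Nat.cast_nonneg n
  have hl0 : (0:ℝ) ≤ l := Nat.cast_nonneg l
  have hM1 : 1 ≤ M := by rw [hM]; linarith
  have bs : ∀ x, |s x| ≤ M := by
    intro x
    rw [hs]
    exact le_trans (Real.abs_sin_le_one _) hM1
  have br : ∀ x, |r x| ≤ M := by
    intro x
    rw [hr]
    exact le_trans (Real.abs_sin_le_one _) hM1
  have bds : ∀ x, |deriv s x| ≤ M := by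
    intro x
    rw [hs, hder]
    show |((n : ℝ) + 1) * Real.cos (((n : ℝ) + 1) * x)| ≤ M
    rw [abs_mul, abs_of_nonneg (by linarith : (0:ℝ) ≤ (n : ℝ) + 1)]
    calc ((n : ℝ) + 1) * |Real.cos (((n : ℝ) + 1) * x)| ≤ ((n : ℝ) + 1) * 1 := by
          apply mul_le_mul_of_nonneg_left (Real.abs_cos_le_one _) (by linarith)
      _ ≤ M := by rw [hM]; linarith
  have bdr : ∀ x, |deriv r x| ≤ M := by
    intro x
    rw [hr, hder]
    show |((l : ℝ) + 1) * Real.cos (((l : ℝ) + 1) * x)| ≤ M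
    rw [abs_mul, abs_of_nonneg (by linarith : (0:ℝ) ≤ (l : ℝ) + 1)]
    calc ((l : ℝ) + 1) * |Real.cos (((l : ℝ) + 1) * x)| ≤ ((l : ℝ) + 1) * 1 := by
          apply mul_le_mul_of_nonneg_left (Real.abs_cos_le_one _) (by linarith)
      _ ≤ M := by rw [hM]; linarith
  have hsf : sfun (n, l) = fun q : ℝ × ℝ => 2 / π * (s q.1 * r q.2) := by
    funext q
    rw [hs, hr]
    rfl
  have hsd : Differentiable ℝ s := hsC.differentiable (by simp)
  have hrd : Differentiable ℝ r := hrC.differentiable (by simp)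
  have hsc' : Continuous (deriv s) := hsC.continuous_deriv (by simp)
  have hrc' : Continuous (deriv r) := hrC.continuous_deriv (by simp)
  obtain ⟨p1, p2⟩ := sfun_H10_pd s r hsd hrd (2 / π)
  rw [hsf, p1, p2]
  unfold H10
  rw [Metric.mem_closure_iff]
  intro ε hε
  obtain ⟨Cc, hCc⟩ : ∃ Cc : ℝ, Cc = 4 / π ^ 2 * (4 + 6 * π * M ^ 2) := ⟨_, rfl⟩
  have hCc0 : 0 < Cc := by
    rw [hCc]
    positivity
  obtain ⟨e, he⟩ : ∃ e : ℝ, e = min 1 (ε ^ 2 / (2 * Cc)) := ⟨_, rfl⟩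
  have he0 : 0 < e := by
    rw [he]
    exact lt_min one_pos (by positivity)
  have he1 : e ≤ 1 := by
    rw [he]
    exact min_le_left _ _
  have he2 : Cc * e < ε ^ 2 := by
    have : e ≤ ε ^ 2 / (2 * Cc) := by
      rw [he]
      exact min_le_right _ _
    have h3 : Cc * e ≤ Cc * (ε ^ 2 / (2 * Cc)) := mul_le_mul_of_nonneg_left this hCc0.le
    have h4 : Cc * (ε ^ 2 / (2 * Cc)) = ε ^ 2 / 2 := by
      field_simp
    rw [h4] at h3
    have : 0 < ε ^ 2 := by positivity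
    linarith
  obtain ⟨σ1, c1, k1, t1, i1, j1⟩ := cut_approx s hsC (by rw [hs]; simp) (by rw [hs]; exact hzero n) e he0
  obtain ⟨σ2, c2, k2, t2, i2, j2⟩ := cut_approx r hrC (by rw [hr]; simp) (by rw [hr]; exact hzero l) e he0
  have d1 : Differentiable ℝ σ1 := c1.differentiable (by simp)
  have d2 : Differentiable ℝ σ2 := c2.differentiable (by simp)
  have e1 : Continuous (deriv σ1) := c1.continuous_deriv (by simp)
  have e2 : Continuous (deriv σ2) := c2.continuous_deriv (by simp)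
  obtain ⟨C1, hC1⟩ := c1.continuous.bounded_above_of_compact_support k1
  obtain ⟨C2, hC2⟩ := c2.continuous.bounded_above_of_compact_support k2
  obtain ⟨D1, hD1⟩ := e1.bounded_above_of_compact_support k1.deriv
  obtain ⟨D2, hD2⟩ := e2.bounded_above_of_compact_support k2.deriv
  obtain ⟨q1, q2⟩ := sfun_H10_pd σ1 σ2 d1 d2 (2 / π)
  have dist1 := sfun_H10_dist σ1 s σ2 r c1.continuous hsC.continuous c2.continuous hrC.continuous
    C1 C2 hC1 hC2 M bs br e he0.le he1 i1 i2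
  have dist2 := sfun_H10_dist (deriv σ1) (deriv s) σ2 r e1 hsc' c2.continuous hrC.continuous
    D1 C2 hD1 hC2 M bds br e he0.le he1 j1 i2
  have dist3 := sfun_H10_dist σ1 s (deriv σ2) (deriv r) c1.continuous hsC.continuous e2 hrc'
    C1 D2 hC1 hD2 M bs bdr e he0.le he1 i1 j2
  rw [← hCc] at dist1 dist2 dist3
  refine ⟨(toK (fun q => 2 / π * (σ1 q.1 * σ2 q.2)), toK (fun q => 2 / π * (deriv σ1 q.1 * σ2 q.2)),
    toK (fun q => 2 / π * (σ1 q.1 * deriv σ2 q.2))), ?_, ?_⟩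
  · refine ⟨fun q => 2 / π * (σ1 q.1 * σ2 q.2), ⟨?_, ?_, ?_⟩, ?_, ?_, ?_⟩
    · exact contDiff_const.mul ((c1.comp contDiff_fst).mul (c2.comp contDiff_snd))
    · apply HasCompactSupport.intro (K := tsupport σ1 ×ˢ tsupport σ2) (IsCompact.prod k1 k2)
      intro x hx
      rw [Set.mem_prod, not_and_or] at hx
      rcases hx with hx | hx
      · rw [image_eq_zero_of_notMem_tsupport hx]
        ring
      · rw [image_eq_zero_of_notMem_tsupport hx]
        ring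
    · have hsub : tsupport (fun q : ℝ × ℝ => 2 / π * (σ1 q.1 * σ2 q.2)) ⊆ tsupport σ1 ×ˢ tsupport σ2 := by
        apply closure_minimal _ ((isClosed_tsupport σ1).prod (isClosed_tsupport σ2))
        intro x hx
        rw [Set.mem_prod]
        constructor
        · by_contra hcon
          apply hx
          show 2 / π * (σ1 x.1 * σ2 x.2) = 0
          rw [image_eq_zero_of_notMem_tsupport hcon]
          ring
        · by_contra hcon
          apply hx
          show 2 / π * (σ1 x.1 * σ2 x.2) = 0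
          rw [image_eq_zero_of_notMem_tsupport hcon]
          ring
      exact hsub.trans (Set.prod_mono t1 t2)
    · exact toK_ae _ (sfun_H10_mem σ1 σ2 c1.continuous c2.continuous C1 C2 hC1 hC2)
    · rw [q1]
      exact toK_ae _ (sfun_H10_mem (deriv σ1) σ2 e1 c2.continuous D1 C2 hD1 hC2)
    · rw [q2]
      exact toK_ae _ (sfun_H10_mem σ1 (deriv σ2) c1.continuous e2 C1 D2 hC1 hD2)
  · rw [Prod.dist_eq, Prod.dist_eq]
    refine max_lt ?_ (max_lt ?_ ?_)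
    · exact lt_of_pow_lt_pow_left₀ 2 hε.le (lt_of_le_of_lt dist1 he2)
    · exact lt_of_pow_lt_pow_left₀ 2 hε.le (lt_of_le_of_lt dist2 he2)
    · exact lt_of_pow_lt_pow_left₀ 2 hε.le (lt_of_le_of_lt dist3 he2)

end Haraux
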