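import Pool.Agent.Helper27.Har.Base
import Pool.Agent.Helper27.Har.P_toK_ae
import Pool.Agent.Helper27.Har.P_toK_memLp
import Pool.Agent.Helper27.Har.P_toK_inner

set_option autoImplicit false

open MeasureTheory Set Real Filter Topology
open scoped ENNReal NNReal

namespace Haraux



private theorem tc_test_dir {Ω : Set (ℝ × ℝ)} {φ : ℝ × ℝ → ℝ} (h : IsTest Ω φ) (v : ℝ × ℝ) :
    IsTest Ω (fun q => fderiv ℝ φ q v) := by
  refine ⟨?_, h.2.1.fderiv_apply (𝕜 := ℝ) v, (tsupport_fderiv_apply_subset ℝ v).trans h.2.2⟩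
  exact (h.1.fderiv_right (m := ((⊤ : ℕ∞) : WithTop ℕ∞)) (by simp)).clm_apply contDiff_const

private theorem tc_pdx_prod (c : ℝ) (A B A' B' : ℝ → ℝ) (hA : ∀ x, HasDerivAt A (A' x) x)
    (hB : ∀ y, HasDerivAt B (B' y) y) :
    pdx (fun q => c * (A q.1 * B q.2)) = fun q => c * (A' q.1 * B q.2) := by
  funext q
  unfold pdx
  have h1 : HasFDerivAt (fun q : ℝ × ℝ => A q.1) (A' q.1 • ContinuousLinearMap.fst ℝ ℝ ℝ) q :=
    (hA q.1).comp_hasFDerivAt q hasFDerivAt_fst
  have h2 : HasFDerivAt (fun q : ℝ × ℝ => B q.2) (B' q.2 • ContinuousLinearMap.snd ℝ ℝ ℝ) q :=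
    (hB q.2).comp_hasFDerivAt q hasFDerivAt_snd
  have h3 : HasFDerivAt (fun q : ℝ × ℝ => c * (A q.1 * B q.2)) _ q := (h1.mul h2).const_mul c
  rw [h3.fderiv]
  simp
  left
  ring

private theorem tc_pdy_prod (c : ℝ) (A B A' B' : ℝ → ℝ) (hA : ∀ x, HasDerivAt A (A' x) x)
    (hB : ∀ y, HasDerivAt B (B' y) y) :
    pdy (fun q => c * (A q.1 * B q.2)) = fun q => c * (A q.1 * B' q.2) := by
  funext q
  unfold pdy
  have h1 : HasFDerivAt (fun q : ℝ × ℝ => A q.1) (A' q.1 • ContinuousLinearMap.fst ℝ ℝ ℝ) q :=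
    (hA q.1).comp_hasFDerivAt q hasFDerivAt_fst
  have h2 : HasFDerivAt (fun q : ℝ × ℝ => B q.2) (B' q.2 • ContinuousLinearMap.snd ℝ ℝ ℝ) q :=
    (hB q.2).comp_hasFDerivAt q hasFDerivAt_snd
  have h3 : HasFDerivAt (fun q : ℝ × ℝ => c * (A q.1 * B q.2)) _ q := (h1.mul h2).const_mul c
  rw [h3.fderiv]
  simp

private theorem tc_ibp (g s : ℝ × ℝ → ℝ) (hg : IsTest sq g) (hs : ContDiff ℝ (⊤ : ℕ∞) s)
    (v : ℝ × ℝ) :
    ∫ q in sq, fderiv ℝ g q v * s q = -∫ q in sq, g q * fderiv ℝ s q v := by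
  have hg' := tc_test_dir hg v
  have hs' : Continuous (fun q => fderiv ℝ s q v) :=
    ((hs.fderiv_right (m := ((⊤ : ℕ∞) : WithTop ℕ∞)) (by simp)).clm_apply contDiff_const).continuous
  have hgc : Continuous g := hg.1.continuous
  have hg'c : Continuous (fun q => fderiv ℝ g q v) := hg'.1.continuous
  have hsc : Continuous s := hs.continuous
  rw [setIntegral_eq_integral_of_forall_compl_eq_zero (f := fun q => fderiv ℝ g q v * s q)
    (fun q hq => by
      have : (fun q => fderiv ℝ g q v) q = 0 := by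
        by_contra h
        exact hq (hg'.2.2 (subset_tsupport _ h))
      simp only at this
      simp [this])]
  rw [setIntegral_eq_integral_of_forall_compl_eq_zero (f := fun q => g q * fderiv ℝ s q v)
    (fun q hq => by
      have : g q = 0 := by
        by_contra h
        exact hq (hg.2.2 (subset_tsupport _ h))
      simp [this])]
  have hI1 : Integrable (fun q => fderiv ℝ g q v * s q) (volume : Measure (ℝ × ℝ)) :=
    (hg'c.mul hsc).integrable_of_hasCompactSupport (HasCompactSupport.mul_right hg'.2.1)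
  have hI2 : Integrable (fun q => g q * fderiv ℝ s q v) (volume : Measure (ℝ × ℝ)) :=
    (hgc.mul hs').integrable_of_hasCompactSupport (HasCompactSupport.mul_right hg.2.1)
  have hI3 : Integrable (fun q => g q * s q) (volume : Measure (ℝ × ℝ)) :=
    (hgc.mul hsc).integrable_of_hasCompactSupport (HasCompactSupport.mul_right hg.2.1)
  have hgd : Differentiable ℝ g := hg.1.differentiable (by simp)
  have hsd : Differentiable ℝ s := hs.differentiable (by simp)
  have key := integral_mul_fderiv_eq_neg_fderiv_mul_of_integrable hI1 hI2 hI3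
    (fun x _ => hgd x) (fun x _ => hsd x)
  rw [key]
  ring

/-- the coordinates of a test function decay -/
theorem test_coef (φ : ℝ × ℝ → ℝ) (hφ : IsTest sq φ) :
    Memℓp (fun i : ℕ × ℕ => (om i) ^ 2 * sineB.repr (toK φ) i) 2 := by
  have hx : IsTest sq (pdx φ) := tc_test_dir hφ (1, 0)
  have hxx : IsTest sq (pdx (pdx φ)) := tc_test_dir hx (1, 0)
  have hy : IsTest sq (pdy φ) := tc_test_dir hφ (0, 1)
  have hyy : IsTest sq (pdy (pdy φ)) := tc_test_dir hy (0, 1)
  set F : ℝ × ℝ → ℝ := fun q => -(pdx (pdx φ) q + pdy (pdy φ) q) with hF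
  have hFc : Continuous F := (hxx.1.continuous.add hyy.1.continuous).neg
  have hmem : ∀ g : ℝ × ℝ → ℝ, IsTest sq g → MemLp g 2 (volume.restrict sq) := by
    intro g hg
    obtain ⟨C, hC⟩ := hg.2.1.exists_bound_of_continuous hg.1.continuous
    exact toK_memLp g hg.1.continuous.measurable C (fun q => by simpa using hC q)
  have hFm : MemLp F 2 (volume.restrict sq) := ((hmem _ hxx).add (hmem _ hyy)).neg
  have hφm := hmem φ hφ
  have hkey : ∀ i : ℕ × ℕ, (om i) ^ 2 * sineB.repr (toK φ) i = sineB.repr (toK F) i := by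
    intro i
    rw [(toK_inner φ hφm).2.1 i, (toK_inner F hFm).2.1 i]
    have hom : (om i) ^ 2 = ((i.1 : ℝ) + 1) ^ 2 + ((i.2 : ℝ) + 1) ^ 2 := by
      unfold om
      exact Real.sq_sqrt (by positivity)
    -- the sine functions
    set a : ℝ := (i.1 : ℝ) + 1 with ha
    set b : ℝ := (i.2 : ℝ) + 1 with hb
    have dsin : ∀ (c : ℝ) (x : ℝ), HasDerivAt (fun x => Real.sin (c * x)) (c * Real.cos (c * x)) x := by
      intro c x
      have h := ((hasDerivAt_id x).const_mul c).sin
      simp only [id, mul_one] at h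
      convert h using 1
      ring
    have dcos : ∀ (c : ℝ) (x : ℝ),
        HasDerivAt (fun x => c * Real.cos (c * x)) (-(c ^ 2) * Real.sin (c * x)) x := by
      intro c x
      have h0 : HasDerivAt (fun x => c * x) c x := by
        simpa using (hasDerivAt_id x).const_mul c
      have h : HasDerivAt (fun x => c * Real.cos (c * x)) (c * (-Real.sin (c * x) * c)) x :=
        (h0.cos).const_mul c
      convert h using 1
      ring
    have hsf : sfun i = fun q : ℝ × ℝ => (2 / π) * (Real.sin (a * q.1) * Real.sin (b * q.2)) := rfl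
    have hsx : pdx (sfun i) = fun q : ℝ × ℝ => (2 / π) * ((a * Real.cos (a * q.1)) * Real.sin (b * q.2)) := by
      rw [hsf]
      exact tc_pdx_prod (2 / π) (fun x => Real.sin (a * x)) (fun y => Real.sin (b * y))
        (fun x => a * Real.cos (a * x)) (fun y => b * Real.cos (b * y)) (dsin a) (dsin b)
    have hsxx : pdx (pdx (sfun i)) = fun q : ℝ × ℝ => -(a ^ 2) * sfun i q := by
      rw [hsx]
      rw [tc_pdx_prod (2 / π) (fun x => a * Real.cos (a * x)) (fun y => Real.sin (b * y))
        (fun x => -(a ^ 2) * Real.sin (a * x)) (fun y => b * Real.cos (b * y)) (dcos a) (dsin b)]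
      funext q
      rw [hsf]
      ring
    have hsy : pdy (sfun i) = fun q : ℝ × ℝ => (2 / π) * (Real.sin (a * q.1) * (b * Real.cos (b * q.2))) := by
      rw [hsf]
      exact tc_pdy_prod (2 / π) (fun x => Real.sin (a * x)) (fun y => Real.sin (b * y))
        (fun x => a * Real.cos (a * x)) (fun y => b * Real.cos (b * y)) (dsin a) (dsin b)
    have hsyy : pdy (pdy (sfun i)) = fun q : ℝ × ℝ => -(b ^ 2) * sfun i q := by
      rw [hsy]
      rw [tc_pdy_prod (2 / π) (fun x => Real.sin (a * x)) (fun y => b * Real.cos (b * y))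
        (fun x => a * Real.cos (a * x)) (fun y => -(b ^ 2) * Real.sin (b * y)) (dsin a) (dcos b)]
      funext q
      rw [hsf]
      ring
    have hs0 : ContDiff ℝ (⊤ : ℕ∞) (sfun i) := by
      rw [hsf]
      fun_prop
    have hs1 : ContDiff ℝ (⊤ : ℕ∞) (pdx (sfun i)) := by
      rw [hsx]
      fun_prop
    have hs2 : ContDiff ℝ (⊤ : ℕ∞) (pdy (sfun i)) := by
      rw [hsy]
      fun_prop
    have e1 : ∫ q in sq, pdx (pdx φ) q * sfun i q = -(a ^ 2) * ∫ q in sq, φ q * sfun i q := by
      have h1 : ∫ q in sq, pdx (pdx φ) q * sfun i q = -∫ q in sq, pdx φ q * pdx (sfun i) q :=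
        tc_ibp (pdx φ) (sfun i) hx hs0 (1, 0)
      have h2 : ∫ q in sq, pdx φ q * pdx (sfun i) q = -∫ q in sq, φ q * pdx (pdx (sfun i)) q :=
        tc_ibp φ (pdx (sfun i)) hφ hs1 (1, 0)
      rw [h1, h2, neg_neg, hsxx, ← integral_const_mul]
      congr 1
      funext q
      ring
    have e2 : ∫ q in sq, pdy (pdy φ) q * sfun i q = -(b ^ 2) * ∫ q in sq, φ q * sfun i q := by
      have h1 : ∫ q in sq, pdy (pdy φ) q * sfun i q = -∫ q in sq, pdy φ q * pdy (sfun i) q :=
        tc_ibp (pdy φ) (sfun i) hy hs0 (0, 1)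
      have h2 : ∫ q in sq, pdy φ q * pdy (sfun i) q = -∫ q in sq, φ q * pdy (pdy (sfun i)) q :=
        tc_ibp φ (pdy (sfun i)) hφ hs2 (0, 1)
      rw [h1, h2, neg_neg, hsyy, ← integral_const_mul]
      congr 1
      funext q
      ring
    have hint : ∀ g : ℝ × ℝ → ℝ, IsTest sq g →
        Integrable (fun q => g q * sfun i q) (volume.restrict sq) := by
      intro g hg
      exact ((hg.1.continuous.mul hs0.continuous).integrable_of_hasCompactSupport
        (HasCompactSupport.mul_right hg.2.1)).integrableOn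
    have e3 : ∫ q in sq, F q * sfun i q
        = -((∫ q in sq, pdx (pdx φ) q * sfun i q) + ∫ q in sq, pdy (pdy φ) q * sfun i q) := by
      rw [← integral_add (hint _ hxx) (hint _ hyy), ← integral_neg]
      congr 1
      funext q
      simp only [hF]
      ring
    rw [e3, e1, e2, hom]
    ring
  have : (fun i : ℕ × ℕ => (om i) ^ 2 * sineB.repr (toK φ) i) = fun i => sineB.repr (toK F) i := by
    funext i
    exact hkey i
  rw [this]
  exact lp.memℓp (sineB.repr (toK F))

end Haraux
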