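import Pool.Agent.Helper27.Har.Base
import Pool.Agent.Helper27.Har.P_toK_ae
import Pool.Agent.Helper27.Har.P_toK_memLp
import Pool.Agent.Helper27.Har.P_toK_inner

set_option autoImplicit false

open MeasureTheory Set Real Filter Topology
open scoped ENNReal NNReal

namespace Haraux



private theorem test_ibp_tensor (c : ℝ) {f g f' g' : ℝ → ℝ} (hf : ∀ x, HasDerivAt f (f' x) x)
    (hg : ∀ x, HasDerivAt g (g' x) x) (q : ℝ × ℝ) :
    HasFDerivAt (fun q : ℝ × ℝ => c * (f q.1 * g q.2))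
      (c • (f q.1 • (g' q.2 • ContinuousLinearMap.snd ℝ ℝ ℝ) +
        g q.2 • (f' q.1 • ContinuousLinearMap.fst ℝ ℝ ℝ))) q := by
  have h1 : HasFDerivAt (fun q : ℝ × ℝ => f q.1) (f' q.1 • ContinuousLinearMap.fst ℝ ℝ ℝ) q :=
    (hf q.1).comp_hasFDerivAt q hasFDerivAt_fst
  have h2 : HasFDerivAt (fun q : ℝ × ℝ => g q.2) (g' q.2 • ContinuousLinearMap.snd ℝ ℝ ℝ) q :=
    (hg q.2).comp_hasFDerivAt q hasFDerivAt_snd
  exact (h1.mul h2).const_mul c

private theorem test_ibp_pdx (c : ℝ) {f g f' g' : ℝ → ℝ} (hf : ∀ x, HasDerivAt f (f' x) x)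
    (hg : ∀ x, HasDerivAt g (g' x) x) (q : ℝ × ℝ) :
    fderiv ℝ (fun q : ℝ × ℝ => c * (f q.1 * g q.2)) q (1, 0) = c * (f' q.1 * g q.2) := by
  rw [(test_ibp_tensor c hf hg q).fderiv]
  simp only [_root_.smul_apply, _root_.add_apply, ContinuousLinearMap.coe_fst',
    ContinuousLinearMap.coe_snd', smul_eq_mul]
  ring

private theorem test_ibp_pdy (c : ℝ) {f g f' g' : ℝ → ℝ} (hf : ∀ x, HasDerivAt f (f' x) x)
    (hg : ∀ x, HasDerivAt g (g' x) x) (q : ℝ × ℝ) :
    fderiv ℝ (fun q : ℝ × ℝ => c * (f q.1 * g q.2)) q (0, 1) = c * (f q.1 * g' q.2) := by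
  rw [(test_ibp_tensor c hf hg q).fderiv]
  simp only [_root_.smul_apply, _root_.add_apply, ContinuousLinearMap.coe_fst',
    ContinuousLinearMap.coe_snd', smul_eq_mul]
  ring

private theorem test_ibp_gen (K φ : ℝ × ℝ → ℝ) (hφ : IsTest sq φ) (v : ℝ × ℝ) (hK : Differentiable ℝ K)
    (hKc : Continuous (fun q => fderiv ℝ K q v)) :
    (∫ q in sq, K q * fderiv ℝ φ q v) = - ∫ q in sq, fderiv ℝ K q v * φ q := by
  obtain ⟨h1, h2, h3⟩ := hφ
  have hφd : Differentiable ℝ φ := h1.differentiable (by simp)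
  have hφc : Continuous (fun q => fderiv ℝ φ q v) :=
    (h1.continuous_fderiv (by simp)).clm_apply continuous_const
  have e1 : (∫ q in sq, K q * fderiv ℝ φ q v) = ∫ q, K q * fderiv ℝ φ q v := by
    refine setIntegral_eq_integral_of_forall_compl_eq_zero fun q hq => ?_
    rw [fderiv_of_notMem_tsupport ℝ (fun h => hq (h3 h))]
    simp
  have e2 : (∫ q in sq, fderiv ℝ K q v * φ q) = ∫ q, fderiv ℝ K q v * φ q := by
    refine setIntegral_eq_integral_of_forall_compl_eq_zero fun q hq => ?_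
    rw [image_eq_zero_of_notMem_tsupport (fun h => hq (h3 h)), mul_zero]
  rw [e1, e2]
  have hφ' : HasCompactSupport (fun q => fderiv ℝ φ q v) := by
    refine (h2.fderiv (𝕜 := ℝ)).comp_left (g := fun L : ℝ × ℝ →L[ℝ] ℝ => L v) ?_
    simp
  refine integral_mul_fderiv_eq_neg_fderiv_mul_of_integrable ?_ ?_ ?_ (fun x _ => hK x) (fun x _ => hφd x)
  · exact (hKc.mul h1.continuous).integrable_of_hasCompactSupport h2.mul_left
  · exact (hK.continuous.mul hφc).integrable_of_hasCompactSupport hφ'.mul_left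
  · exact (hK.continuous.mul h1.continuous).integrable_of_hasCompactSupport h2.mul_left

/-- integration by parts against the eigenfunctions -/
theorem test_ibp (φ : ℝ × ℝ → ℝ) (hφ : IsTest sq φ) (i : ℕ × ℕ) :
    (∫ q in sq, pdx (sfun i) q * pdx φ q) = ((i.1 : ℝ) + 1) ^ 2 * ∫ q in sq, sfun i q * φ q ∧
    (∫ q in sq, pdy (sfun i) q * pdy φ q) = ((i.2 : ℝ) + 1) ^ 2 * ∫ q in sq, sfun i q * φ q := by
  set a : ℝ := (i.1 : ℝ) + 1 with ha
  set b : ℝ := (i.2 : ℝ) + 1 with hb
  have hs : ∀ (a x : ℝ), HasDerivAt (fun x => Real.sin (a * x)) (a * Real.cos (a * x)) x := by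
    intro a x
    have h := ((hasDerivAt_id x).const_mul a).sin
    simp only [id, mul_one] at h
    rw [mul_comm]
    exact h
  have hc : ∀ (a x : ℝ), HasDerivAt (fun x => a * Real.cos (a * x))
      (-(a ^ 2) * Real.sin (a * x)) x := by
    intro a x
    have h := (((hasDerivAt_id x).const_mul a).cos).const_mul a
    simp only [id, mul_one] at h
    have e : a * (-Real.sin (a * x) * a) = -(a ^ 2) * Real.sin (a * x) := by ring
    rw [e] at h
    exact h
  have hsf : sfun i = fun q : ℝ × ℝ => (2 / π) * (Real.sin (a * q.1) * Real.sin (b * q.2)) := by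
    funext q
    rfl
  constructor
  · have h1 : pdx (sfun i) = fun q : ℝ × ℝ =>
        (2 / π) * ((a * Real.cos (a * q.1)) * Real.sin (b * q.2)) := by
      funext q
      rw [hsf]
      exact test_ibp_pdx (2 / π) (hs a) (hs b) q
    rw [h1]
    have h2 : ∀ q : ℝ × ℝ, fderiv ℝ (fun q : ℝ × ℝ =>
        (2 / π) * ((a * Real.cos (a * q.1)) * Real.sin (b * q.2))) q (1, 0) =
        (2 / π) * ((-(a ^ 2) * Real.sin (a * q.1)) * Real.sin (b * q.2)) := fun q =>
      test_ibp_pdx (2 / π) (hc a) (hs b) q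
    have h3 := test_ibp_gen (fun q : ℝ × ℝ =>
        (2 / π) * ((a * Real.cos (a * q.1)) * Real.sin (b * q.2))) φ hφ (1, 0)
      (fun q => (test_ibp_tensor (2 / π) (hc a) (hs b) q).differentiableAt)
      (by
        simp only [h2]
        fun_prop)
    simp only [h2] at h3
    show (∫ q in sq, (2 / π) * ((a * Real.cos (a * q.1)) * Real.sin (b * q.2)) *
      fderiv ℝ φ q (1, 0)) = _
    rw [h3, ← integral_const_mul, ← integral_neg, hsf]
    refine integral_congr_ae (Filter.Eventually.of_forall fun q => ?_)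
    simp only
    ring
  · have h1 : pdy (sfun i) = fun q : ℝ × ℝ =>
        (2 / π) * (Real.sin (a * q.1) * (b * Real.cos (b * q.2))) := by
      funext q
      rw [hsf]
      exact test_ibp_pdy (2 / π) (hs a) (hs b) q
    rw [h1]
    have h2 : ∀ q : ℝ × ℝ, fderiv ℝ (fun q : ℝ × ℝ =>
        (2 / π) * (Real.sin (a * q.1) * (b * Real.cos (b * q.2)))) q (0, 1) =
        (2 / π) * (Real.sin (a * q.1) * (-(b ^ 2) * Real.sin (b * q.2))) := fun q =>
      test_ibp_pdy (2 / π) (hs a) (hc b) q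
    have h3 := test_ibp_gen (fun q : ℝ × ℝ =>
        (2 / π) * (Real.sin (a * q.1) * (b * Real.cos (b * q.2)))) φ hφ (0, 1)
      (fun q => (test_ibp_tensor (2 / π) (hs a) (hc b) q).differentiableAt)
      (by
        simp only [h2]
        fun_prop)
    simp only [h2] at h3
    show (∫ q in sq, (2 / π) * (Real.sin (a * q.1) * (b * Real.cos (b * q.2))) *
      fderiv ℝ φ q (0, 1)) = _
    rw [h3, ← integral_const_mul, ← integral_neg, hsf]
    refine integral_congr_ae (Filter.Eventually.of_forall fun q => ?_)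
    simp only
    ring

end Haraux
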