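import Pool.Agent.Helper27.Har.Base
import Pool.Agent.Helper27.Har.P_sfun_H10
import Pool.Agent.Helper27.Har.P_H10_closed
import Pool.Agent.Helper27.Har.P_grad_orth
import Pool.Agent.Helper27.Har.P_test_ibp
import Pool.Agent.Helper27.Har.P_test_coef
import Pool.Agent.Helper27.Har.P_rin_facts
import Pool.Agent.Helper27.Har.P_vel_repr
import Pool.Agent.Helper27.Har.P_toK_ae
import Pool.Agent.Helper27.Har.P_toK_memLp
import Pool.Agent.Helper27.Har.P_toK_inner

set_option autoImplicit false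

open MeasureTheory Set Real Filter Topology
open scoped ENNReal NNReal

namespace Haraux


private theorem th_hsc {E : Type*} [AddCommMonoid E] [TopologicalSpace E] {f g : ℕ × ℕ → E} {a : E}
    (h : ∀ i, f i = g i) : HasSum f a ↔ HasSum g a := by rw [funext h]
private theorem th_reM_mem (m : ℕ × ℕ → ℝ) (hm : ∀ i, |m i| ≤ 1) (z : HZ) :
    Memℓp (fun i : ℕ × ℕ => m i * (z i).re) 2 := by
  have := lp.memℓp z
  rw [memℓp_gen_iff (by norm_num)] at this ⊢
  refine Summable.of_nonneg_of_le (fun i => by positivity) (fun i => ?_) this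
  refine Real.rpow_le_rpow (norm_nonneg _) ?_ (by norm_num)
  rw [norm_mul, Real.norm_eq_abs, Real.norm_eq_abs]
  calc |m i| * |(z i).re| ≤ 1 * ‖z i‖ :=
        mul_le_mul (hm i) (Complex.abs_re_le_norm (z i)) (abs_nonneg _) zero_le_one
    _ = ‖z i‖ := one_mul _

private noncomputable def th_reL (m : ℕ × ℕ → ℝ) (hm : ∀ i, |m i| ≤ 1) :
    HZ →ₗ[ℝ] lp (fun _ : ℕ × ℕ => ℝ) 2 where
  toFun z := ⟨fun i => m i * (z i).re, th_reM_mem m hm z⟩
  map_add' z w := by
    ext i
    show m i * ((z + w) i).re = m i * (z i).re + m i * (w i).re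
    rw [lp.coeFn_add, Pi.add_apply, Complex.add_re]; ring
  map_smul' c z := by
    ext i
    show m i * ((c • z) i).re = c * (m i * (z i).re)
    rw [lp.coeFn_smul, Pi.smul_apply, Complex.real_smul, Complex.re_ofReal_mul]; ring

private noncomputable def th_reM (m : ℕ × ℕ → ℝ) (hm : ∀ i, |m i| ≤ 1) :
    HZ →L[ℝ] lp (fun _ : ℕ × ℕ => ℝ) 2 :=
  LinearMap.mkContinuous (th_reL m hm) 1 (fun z => by
    rw [one_mul]
    refine lp.norm_mono (by norm_num) fun i => ?_
    show ‖m i * (z i).re‖ ≤ ‖z i‖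
    rw [norm_mul, Real.norm_eq_abs, Real.norm_eq_abs]
    calc |m i| * |(z i).re| ≤ 1 * ‖z i‖ :=
          mul_le_mul (hm i) (Complex.abs_re_le_norm (z i)) (abs_nonneg _) zero_le_one
      _ = ‖z i‖ := one_mul _)

private theorem th_reM_apply (m : ℕ × ℕ → ℝ) (hm : ∀ i, |m i| ≤ 1) (z : HZ) (i : ℕ × ℕ) :
    th_reM m hm z i = m i * (z i).re := rfl

private theorem th_om_sq (i : ℕ × ℕ) : om i ^ 2 = ((i.1 : ℝ) + 1) ^ 2 + ((i.2 : ℝ) + 1) ^ 2 := by
  unfold om
  rw [Real.sq_sqrt (by positivity)]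

private theorem th_om_pos (i : ℕ × ℕ) : 0 < om i := by
  unfold om
  positivity

private theorem th_m0 (i : ℕ × ℕ) : |1 / om i| ≤ 1 := by
  have h := th_om_pos i
  rw [abs_of_pos (by positivity), div_le_one h]
  have h2 := th_om_sq i
  have h3 : (0 : ℝ) ≤ i.1 := Nat.cast_nonneg _
  have h4 : (0 : ℝ) ≤ i.2 := Nat.cast_nonneg _
  nlinarith

private theorem th_m1 (i : ℕ × ℕ) : |((i.1 : ℝ) + 1) / om i| ≤ 1 := by
  have h := th_om_pos i
  rw [abs_of_pos (by positivity), div_le_one h]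
  have h2 := th_om_sq i
  have h3 : (0 : ℝ) ≤ i.1 := Nat.cast_nonneg _
  have h4 : (0 : ℝ) ≤ i.2 := Nat.cast_nonneg _
  refine le_of_sq_le_sq ?_ h.le
  nlinarith [sq_nonneg ((i.2 : ℝ) + 1)]

private theorem th_m2 (i : ℕ × ℕ) : |((i.2 : ℝ) + 1) / om i| ≤ 1 := by
  have h := th_om_pos i
  rw [abs_of_pos (by positivity), div_le_one h]
  have h2 := th_om_sq i
  refine le_of_sq_le_sq ?_ h.le
  nlinarith [sq_nonneg ((i.1 : ℝ) + 1)]

private noncomputable def th_ex (i : ℕ × ℕ) : KK := (1 / ((i.1 : ℝ) + 1)) • toK (pdx (sfun i))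
private noncomputable def th_ey (i : ℕ × ℕ) : KK := (1 / ((i.2 : ℝ) + 1)) • toK (pdy (sfun i))

private theorem th_ex_on : Orthonormal ℝ th_ex := by
  classical
  rw [orthonormal_iff_ite]
  intro i j
  unfold th_ex
  rw [real_inner_smul_left, real_inner_smul_right, (grad_orth i j).1]
  by_cases h : i = j
  · subst h
    rw [if_pos rfl, if_pos rfl]
    have : (i.1 : ℝ) + 1 ≠ 0 := by positivity
    field_simp
  · rw [if_neg h, if_neg h]; ring

private theorem th_ey_on : Orthonormal ℝ th_ey := by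
  classical
  rw [orthonormal_iff_ite]
  intro i j
  unfold th_ey
  rw [real_inner_smul_left, real_inner_smul_right, (grad_orth i j).2]
  by_cases h : i = j
  · subst h
    rw [if_pos rfl, if_pos rfl]
    have : (i.2 : ℝ) + 1 ≠ 0 := by positivity
    field_simp
  · rw [if_neg h, if_neg h]; ring

private noncomputable def th_G0 : HZ →L[ℝ] KK :=
  (sineB.repr.symm.toContinuousLinearEquiv : lp (fun _ : ℕ × ℕ => ℝ) 2 →L[ℝ] KK).comp
    (th_reM (fun i => 1 / om i) th_m0)

private noncomputable def th_Gx : HZ →L[ℝ] KK :=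
  (th_ex_on.orthogonalFamily.linearIsometry.toContinuousLinearMap).comp
    (th_reM (fun i => ((i.1 : ℝ) + 1) / om i) th_m1)

private noncomputable def th_Gy : HZ →L[ℝ] KK :=
  (th_ey_on.orthogonalFamily.linearIsometry.toContinuousLinearMap).comp
    (th_reM (fun i => ((i.2 : ℝ) + 1) / om i) th_m2)

private noncomputable def th_vel : HZ →L[ℝ] KK :=
  AddMonoidHom.toRealLinearMap
    { toFun := vel
      map_zero' := by
        have h := rin_facts.2.2.2.2.2.2.2.2.1 0 0
        rw [add_zero] at h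
        simpa using h
      map_add' := rin_facts.2.2.2.2.2.2.2.2.1 } rin_facts.2.2.2.2.2.2.2.2.2.2.2.1

private theorem th_vel_apply (z : HZ) : th_vel z = vel z := rfl

private theorem th_sfun_memLp (i : ℕ × ℕ) : MemLp (sfun i) 2 (volume.restrict sq) := by
  refine toK_memLp (sfun i) ?_ (2 / π) ?_
  · unfold sfun; fun_prop
  · intro q
    unfold sfun
    rw [abs_mul, abs_mul, abs_of_pos (by positivity : (0 : ℝ) < 2 / π)]
    have h1 := Real.abs_sin_le_one (((i.1 : ℝ) + 1) * q.1)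
    have h2 := Real.abs_sin_le_one (((i.2 : ℝ) + 1) * q.2)
    have h3 : |Real.sin (((i.1 : ℝ) + 1) * q.1)| * |Real.sin (((i.2 : ℝ) + 1) * q.2)| ≤ 1 := by
      calc _ ≤ (1 : ℝ) * 1 := mul_le_mul h1 h2 (abs_nonneg _) zero_le_one
        _ = 1 := one_mul 1
    have h4 : (0 : ℝ) < 2 / π := by positivity
    nlinarith

private theorem th_toK_sfun (i : ℕ × ℕ) : toK (sfun i) = sineB i := by
  apply Lp.ext
  exact (toK_ae _ (th_sfun_memLp i)).trans (sineB_ae i).symm

private theorem th_G0_sum (z : HZ) : HasSum (fun i => ((z i).re / om i) • toK (sfun i)) (th_G0 z) := by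
  have h := sineB.hasSum_repr_symm (th_reM (fun i => 1 / om i) th_m0 z)
  refine (th_hsc fun i => ?_).mp h
  rw [th_reM_apply, th_toK_sfun]
  congr 1
  ring

private theorem th_Gx_sum (z : HZ) : HasSum (fun i => ((z i).re / om i) • toK (pdx (sfun i))) (th_Gx z) := by
  have h := th_ex_on.orthogonalFamily.hasSum_linearIsometry
    (th_reM (fun i => ((i.1 : ℝ) + 1) / om i) th_m1 z)
  refine (th_hsc fun i => ?_).mp h
  rw [LinearIsometry.toSpanSingleton_apply, th_reM_apply]
  unfold th_ex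
  rw [smul_smul]
  congr 1
  have : (i.1 : ℝ) + 1 ≠ 0 := by positivity
  field_simp

private theorem th_Gy_sum (z : HZ) : HasSum (fun i => ((z i).re / om i) • toK (pdy (sfun i))) (th_Gy z) := by
  have h := th_ey_on.orthogonalFamily.hasSum_linearIsometry
    (th_reM (fun i => ((i.2 : ℝ) + 1) / om i) th_m2 z)
  refine (th_hsc fun i => ?_).mp h
  rw [LinearIsometry.toSpanSingleton_apply, th_reM_apply]
  unfold th_ey
  rw [smul_smul]
  congr 1
  have : (i.2 : ℝ) + 1 ≠ 0 := by positivity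
  field_simp

private theorem th_mem (z : HZ) : (th_G0 z, th_Gx z, th_Gy z) ∈ H10 sq := by
  obtain ⟨hcl, hzero, hadd, hsmul⟩ := H10_closed sq
  have hs : HasSum (fun i => ((z i).re / om i) •
      ((toK (sfun i), toK (pdx (sfun i)), toK (pdy (sfun i))) : KK × KK × KK))
      (th_G0 z, th_Gx z, th_Gy z) :=
    (th_G0_sum z).prodMk ((th_Gx_sum z).prodMk (th_Gy_sum z))
  refine hcl.mem_of_tendsto hs (Filter.Eventually.of_forall fun s => ?_)
  classical
  induction s using Finset.induction_on with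
  | empty => simpa using hzero
  | insert i s hi ih =>
    rw [Finset.sum_insert hi]
    exact hadd _ _ (hsmul _ _ (sfun_H10 i)) ih

private theorem th_sq_sum {E : Type*} [NormedAddCommGroup E] (f : lp (fun _ : ℕ × ℕ => E) 2) :
    HasSum (fun i => ‖f i‖ ^ 2) (‖f‖ ^ 2) := by
  have h := lp.hasSum_norm (p := 2) (by norm_num) f
  simpa using h

private theorem th_norm (z : HZ) : ‖z‖ ^ 2 = ‖th_Gx z‖ ^ 2 + ‖th_Gy z‖ ^ 2 + ‖vel z‖ ^ 2 := by
  have h1 : HasSum (fun i => (((i.1 : ℝ) + 1) / om i * (z i).re) ^ 2) (‖th_Gx z‖ ^ 2) := by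
    have h := th_sq_sum (th_reM (fun i => ((i.1 : ℝ) + 1) / om i) th_m1 z)
    have h2 : ‖th_Gx z‖ = ‖th_reM (fun i => ((i.1 : ℝ) + 1) / om i) th_m1 z‖ :=
      th_ex_on.orthogonalFamily.linearIsometry.norm_map _
    rw [h2]
    refine (th_hsc fun i => ?_).mp h
    rw [th_reM_apply, Real.norm_eq_abs, sq_abs]
  have h2 : HasSum (fun i => (((i.2 : ℝ) + 1) / om i * (z i).re) ^ 2) (‖th_Gy z‖ ^ 2) := by
    have h := th_sq_sum (th_reM (fun i => ((i.2 : ℝ) + 1) / om i) th_m2 z)
    have h2 : ‖th_Gy z‖ = ‖th_reM (fun i => ((i.2 : ℝ) + 1) / om i) th_m2 z‖ :=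
      th_ey_on.orthogonalFamily.linearIsometry.norm_map _
    rw [h2]
    refine (th_hsc fun i => ?_).mp h
    rw [th_reM_apply, Real.norm_eq_abs, sq_abs]
  have h3 : HasSum (fun i => ((z i).im) ^ 2) (‖vel z‖ ^ 2) := by
    have h := th_sq_sum (sineB.repr (vel z))
    rw [LinearIsometryEquiv.norm_map] at h
    refine (th_hsc fun i => ?_).mp h
    rw [vel_repr, Real.norm_eq_abs, sq_abs]
  have h4 := th_sq_sum z
  refine h4.unique ?_
  refine (th_hsc fun i => ?_).mp ((h1.add h2).add h3)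
  have hp := th_om_pos i
  have hq := th_om_sq i
  rw [← Complex.normSq_eq_norm_sq, Complex.normSq_apply]
  have h5 : (((i.1 : ℝ) + 1) / om i * (z i).re) ^ 2 + (((i.2 : ℝ) + 1) / om i * (z i).re) ^ 2 =
      ((((i.1 : ℝ) + 1) ^ 2 + ((i.2 : ℝ) + 1) ^ 2) / om i ^ 2) * (z i).re ^ 2 := by
    field_simp
  rw [h5, ← hq, div_self (by positivity)]
  ring

private theorem th_pdx_ne (i : ℕ × ℕ) : MemLp (pdx (sfun i)) 2 (volume.restrict sq) := by
  by_contra h
  have h1 : toK (pdx (sfun i)) = 0 := by unfold toK; exact dif_neg h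
  have h2 := (grad_orth i i).1
  rw [h1, inner_zero_left, if_pos rfl] at h2
  have : (0 : ℝ) < ((i.1 : ℝ) + 1) ^ 2 := by positivity
  linarith

private theorem th_pdy_ne (i : ℕ × ℕ) : MemLp (pdy (sfun i)) 2 (volume.restrict sq) := by
  by_contra h
  have h1 : toK (pdy (sfun i)) = 0 := by unfold toK; exact dif_neg h
  have h2 := (grad_orth i i).2
  rw [h1, inner_zero_left, if_pos rfl] at h2
  have : (0 : ℝ) < ((i.2 : ℝ) + 1) ^ 2 := by positivity
  linarith

private theorem th_test_d {φ : ℝ × ℝ → ℝ} (hφ : IsTest sq φ) (w : ℝ × ℝ) :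
    MemLp (fun q => fderiv ℝ φ q w) 2 (volume.restrict sq) := by
  obtain ⟨h1, h2, h3⟩ := hφ
  have hc : Continuous (fun q => fderiv ℝ φ q w) := by
    have := h1.continuous_fderiv (by simp)
    exact this.clm_apply continuous_const
  have hs : HasCompactSupport (fun q => fderiv ℝ φ q w) := by
    have h4 := h2.fderiv (𝕜 := ℝ)
    exact h4.comp_left (g := fun L : (ℝ × ℝ) →L[ℝ] ℝ => L w) (by simp)
  obtain ⟨C, hC⟩ := hc.bounded_above_of_compact_support hs
  exact toK_memLp _ hc.measurable C hC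

private theorem th_test_m {φ : ℝ × ℝ → ℝ} (hφ : IsTest sq φ) : MemLp φ 2 (volume.restrict sq) := by
  obtain ⟨h1, h2, h3⟩ := hφ
  obtain ⟨C, hC⟩ := h1.continuous.bounded_above_of_compact_support h2
  exact toK_memLp _ h1.continuous.measurable C hC

private theorem th_inner_int (F G : ℝ × ℝ → ℝ) (hF : MemLp F 2 (volume.restrict sq))
    (hG : MemLp G 2 (volume.restrict sq)) :
    (inner ℝ (toK F) (toK G) : ℝ) = ∫ q in sq, F q * G q := by
  rw [(toK_inner G hG).1]
  refine integral_congr_ae ?_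
  filter_upwards [toK_ae F hF] with q hq
  rw [hq]

private theorem th_pair (z : HZ) (φ : ℝ × ℝ → ℝ) (hφ : IsTest sq φ) :
    HasSum (fun i => (z i).re * om i * sineB.repr (toK φ) i)
      (∫ q in sq, ((th_Gx z) q * pdx φ q + (th_Gy z) q * pdy φ q)) := by
  have hx : MemLp (pdx φ) 2 (volume.restrict sq) := th_test_d hφ (1, 0)
  have hy : MemLp (pdy φ) 2 (volume.restrict sq) := th_test_d hφ (0, 1)
  have hm := th_test_m hφ
  have hix : Integrable (fun q => (th_Gx z) q * pdx φ q) (volume.restrict sq) :=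
    MemLp.integrable_mul (Lp.memLp _) hx
  have hiy : Integrable (fun q => (th_Gy z) q * pdy φ q) (volume.restrict sq) :=
    MemLp.integrable_mul (Lp.memLp _) hy
  rw [integral_add hix hiy, ← (toK_inner _ hx).1, ← (toK_inner _ hy).1]
  have sx : HasSum (fun i => (inner ℝ (((z i).re / om i) • toK (pdx (sfun i))) (toK (pdx φ)) : ℝ))
      (inner ℝ (th_Gx z) (toK (pdx φ))) := by
    have := (th_Gx_sum z).mapL (innerSL ℝ (toK (pdx φ)))
    simpa only [innerSL_apply_apply, real_inner_comm] using this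
  have sy : HasSum (fun i => (inner ℝ (((z i).re / om i) • toK (pdy (sfun i))) (toK (pdy φ)) : ℝ))
      (inner ℝ (th_Gy z) (toK (pdy φ))) := by
    have := (th_Gy_sum z).mapL (innerSL ℝ (toK (pdy φ)))
    simpa only [innerSL_apply_apply, real_inner_comm] using this
  refine (th_hsc fun i => ?_).mp (sx.add sy)
  rw [real_inner_smul_left, real_inner_smul_left, th_inner_int _ _ (th_pdx_ne i) hx,
    th_inner_int _ _ (th_pdy_ne i) hy, (test_ibp φ hφ i).1, (test_ibp φ hφ i).2,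
    (toK_inner φ hm).2.1]
  have h6 : ∫ q in sq, φ q * sfun i q = ∫ q in sq, sfun i q * φ q := by
    congr 1; funext q; ring
  rw [h6]
  have hp := th_om_pos i
  have hq := th_om_sq i
  generalize ∫ q in sq, sfun i q * φ q = c
  have h7 : (z i).re * om i * c = (z i).re / om i * (om i ^ 2 * c) := by
    field_simp
  rw [h7, hq]
  ring

/-- the passage from coordinates to functions -/
theorem exists_theta : ∃ Θ : HZ →L[ℝ] (KK × KK × KK × KK),
    (∀ z, ((Θ z).1, (Θ z).2.1, (Θ z).2.2.1) ∈ H10 sq) ∧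
    (∀ z, (Θ z).2.2.2 = vel z) ∧
    (∀ z, ‖z‖ ^ 2 = ‖(Θ z).2.1‖ ^ 2 + ‖(Θ z).2.2.1‖ ^ 2 + ‖vel z‖ ^ 2) ∧
    (∀ z i, sineB.repr (Θ z).1 i = (z i).re / om i) ∧
    (∀ z φ, IsTest sq φ → HasSum (fun i => (z i).re * om i * sineB.repr (toK φ) i)
      (∫ q in sq, ((Θ z).2.1 q * pdx φ q + (Θ z).2.2.1 q * pdy φ q))) := by
  refine ⟨th_G0.prod (th_Gx.prod (th_Gy.prod th_vel)), th_mem, fun z => rfl, th_norm, ?_, th_pair⟩
  intro z i
  show sineB.repr (sineB.repr.symm (th_reM (fun i => 1 / om i) th_m0 z)) i = _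
  rw [LinearIsometryEquiv.apply_symm_apply, th_reM_apply]
  ring

end Haraux
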