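import Pool.Agent.Helper27.Har.Base
import Pool.Agent.Helper27.Har.P_exists_params
import Pool.Agent.Helper27.Har.P_exists_level

set_option autoImplicit false

open MeasureTheory Set Real Filter Topology
open scoped ENNReal NNReal

namespace Haraux



/-- existence of the data -/
theorem exists_world : ∃ W : World, W.Reg ∧ (∀ k, W.Small k) ∧
    ∀ k, W.ep k = 1 / 10 ^ 6 / 4 ^ k := by
  obtain ⟨W, hN, hS, hep⟩ := exists_params
  have hlev : ∀ j, ∃ (iU iV : Bool → ℝ → ℝ) (w x : ℝ → ℝ),
      LevelProps (W.z j) (W.mu j) (W.nu j) (W.n j) iU iV w x := fun j =>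
    exists_level (W.z j) (W.mu j) (W.nu j) (W.n j) (hN.z0 j) (hN.mu_pos j) (hN.nu_pos j)
      ((hN.z1 j).trans (hN.z2 (j + 1)))
  choose iU iV w x h using hlev
  refine ⟨{ W with iU := iU, iV := iV, w := w, x := x }, ⟨?_, h⟩, ?_, hep⟩
  · exact
      { mu_pos := hN.mu_pos
        nu_pos := hN.nu_pos
        n_pos := hN.n_pos
        z0 := hN.z0
        z1 := hN.z1
        z2 := hN.z2
        d_pos := hN.d_pos
        d_le := hN.d_le
        d_anti := hN.d_anti
        ep_pos := hN.ep_pos
        ep_le := hN.ep_le
        ep_anti := hN.ep_anti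
        La0 := hN.La0
        La1 := hN.La1
        summ := hN.summ }
  · intro k
    exact
      { c1 := (hS k).c1
        c2 := (hS k).c2
        c3 := (hS k).c3
        c4 := (hS k).c4
        c5 := (hS k).c5
        c6 := (hS k).c6
        c7 := (hS k).c7
        c8 := (hS k).c8
        c9 := (hS k).c9
        c10 := (hS k).c10
        c11 := (hS k).c11
        c12 := (hS k).c12 }

end Haraux
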