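import Pool.Agent.Helper27.Har.Base
import Pool.Agent.Helper27.Har.P_world_basic
import Pool.Agent.Helper27.Har.P_zone_disj
import Pool.Agent.Helper27.Har.P_level_facts
import Pool.Agent.Helper27.Har.P_lift_norm
import Pool.Agent.Helper27.Har.P_lift_linear

set_option autoImplicit false

open MeasureTheory Set Real Filter Topology
open scoped ENNReal NNReal

namespace Haraux



private theorem separation_int (φ : ℝ → ℝ) (h : BP φ) (a b : ℝ) : IntervalIntegrable φ volume a b := by
  obtain ⟨C, hC⟩ := h.bdd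
  rw [intervalIntegrable_iff]
  exact Measure.integrableOn_of_bounded (M := C) (by simp) h.meas.aestronglyMeasurable
    (Eventually.of_forall fun x => by rw [Real.norm_eq_abs]; exact hC x)

private theorem separation_BPc (φ : ℝ → ℝ) (h : BP φ) (c : ℝ) : BP (fun ξ => c * φ ξ) := by
  obtain ⟨C, hC⟩ := h.bdd
  refine ⟨h.meas.const_mul c, ⟨|c| * C, fun x => ?_⟩, fun x => ?_⟩
  · rw [abs_mul]
    exact mul_le_mul_of_nonneg_left (hC x) (abs_nonneg c)
  · show c * φ (x + 2 * π) = c * φ x
    rw [h.per x]

private theorem separation_BPs (φ ψ : ℝ → ℝ) (h : BP φ) (h' : BP ψ) : BP (fun ξ => φ ξ - ψ ξ) := by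
  obtain ⟨C, hC⟩ := h.bdd
  obtain ⟨D, hD⟩ := h'.bdd
  refine ⟨h.meas.sub h'.meas, ⟨C + D, fun x => ?_⟩, fun x => ?_⟩
  · have := abs_sub (φ x) (ψ x)
    linarith [hC x, hD x]
  · show φ (x + 2 * π) - ψ (x + 2 * π) = φ x - ψ x
    rw [h.per x, h'.per x]

private theorem separation_sq (W : World) (h : W.Reg) (j : ℕ) (ξ : ℝ) :
    W.u j ξ ^ 2 = W.iU j true ξ + W.iU j false ξ := by
  have h1 := (h.lev j).zoU true ξ
  have h2 := (h.lev j).zoU false ξ
  have h3 := (h.lev j).zoV true ξ
  have h4 := (h.lev j).zoV false ξ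
  have h5 := (h.lev j).disj ξ
  unfold World.u
  have h3' : 0 ≤ W.iV j true ξ := by rcases h3 with h | h <;> rw [h]; norm_num
  have h4' : 0 ≤ W.iV j false ξ := by rcases h4 with h | h <;> rw [h]; norm_num
  rcases h1 with h1 | h1 <;> rcases h2 with h2 | h2 <;> rw [h1, h2] at h5 ⊢ <;> norm_num
  linarith

private theorem separation_zone (W : World) (h : W.Reg) (j : ℕ) (ξ : ℝ) (hu : W.u j ξ ≠ 0) :
    zone (W.z j) (W.n j * (8 * W.mu j + 4 * W.nu j)) ξ := by
  by_contra hz
  have h0 := (h.lev j).supp ξ hz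
  have h1 := (h.lev j).zoU true ξ
  have h2 := (h.lev j).zoU false ξ
  have h3 := (h.lev j).zoV true ξ
  have h4 := (h.lev j).zoV false ξ
  have h1' : 0 ≤ W.iU j true ξ := by rcases h1 with h | h <;> rw [h]; norm_num
  have h2' : 0 ≤ W.iU j false ξ := by rcases h2 with h | h <;> rw [h]; norm_num
  have h3' : 0 ≤ W.iV j true ξ := by rcases h3 with h | h <;> rw [h]; norm_num
  have h4' : 0 ≤ W.iV j false ξ := by rcases h4 with h | h <;> rw [h]; norm_num
  apply hu
  unfold World.u
  linarith

private theorem separation_cross (W : World) (h : W.Reg) (j k : ℕ) (hjk : j ≠ k) (ξ : ℝ) :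
    W.u j ξ * W.u k ξ = 0 := by
  by_contra hne
  exact hjk (zone_disj W h.num j k ξ (separation_zone W h j ξ (left_ne_zero_of_mul hne))
    (separation_zone W h k ξ (right_ne_zero_of_mul hne)))

private theorem separation_intsq (W : World) (h : W.Reg) (j : ℕ) :
    ∫ ξ in (0:ℝ)..(2 * π), W.u j ξ ^ 2 = 2 * W.lam j := by
  have h1 : (fun ξ => W.u j ξ ^ 2) = fun ξ => W.iU j true ξ + W.iU j false ξ :=
    funext fun ξ => separation_sq W h j ξ
  rw [h1, intervalIntegral.integral_add (separation_int _ ((h.lev j).bU true) _ _)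
    (separation_int _ ((h.lev j).bU false) _ _), (h.lev j).intU, (h.lev j).intU]
  unfold World.lam
  ring

private theorem separation_int0 (W : World) (h : W.Reg) (j : ℕ) :
    ∫ ξ in (0:ℝ)..(2 * π), W.u j ξ = 0 := by
  unfold World.u
  rw [intervalIntegral.integral_sub (separation_int _ ((h.lev j).bU true) _ _)
    (separation_int _ ((h.lev j).bU false) _ _), (h.lev j).intU, (h.lev j).intU]
  ring

private theorem separation_BPu (W : World) (h : W.Reg) (j : ℕ) : BP (W.u j) :=
  separation_BPs _ _ ((h.lev j).bU true) ((h.lev j).bU false)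

/-- the states of the stages are far apart -/
theorem separation (W : World) (h : W.Reg) (j k : ℕ) (hjk : j ≠ k) :
    2 ≤ ‖lift 0 (fun ξ => W.al j * W.u j ξ) - lift 0 (fun ξ => W.al k * W.u k ξ)‖ := by
  have hj := separation_BPc _ (separation_BPu W h j) (W.al j)
  have hk := separation_BPc _ (separation_BPu W h k) (W.al k)
  rw [← (lift_linear _ _ hj hk 0 0).2.1]
  have hφ := separation_BPs _ _ hj hk
  have h1 := (lift_norm _ hφ 0).2.1
  have h2 : ∫ x in (0:ℝ)..(2 * π), (W.al j * W.u j x - W.al k * W.u k x) = 0 := by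
    rw [intervalIntegral.integral_sub (separation_int _ hj _ _) (separation_int _ hk _ _),
      intervalIntegral.integral_const_mul, intervalIntegral.integral_const_mul,
      separation_int0 W h, separation_int0 W h]
    ring
  have hu2 : ∀ i, IntervalIntegrable (fun ξ => W.u i ξ ^ 2) volume 0 (2 * π) := by
    intro i
    have e : (fun ξ => W.u i ξ ^ 2) = fun ξ => W.iU i true ξ + W.iU i false ξ :=
      funext fun ξ => separation_sq W h i ξ
    rw [e]
    exact (separation_int _ ((h.lev i).bU true) _ _).add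
      (separation_int _ ((h.lev i).bU false) _ _)
  have hal := (world_basic W h.num).2.2.2.2.2.2.2.2.1
  have h3 : ∫ x in (0:ℝ)..(2 * π), (W.al j * W.u j x - W.al k * W.u k x) ^ 2 = 2 := by
    have e : (fun x => (W.al j * W.u j x - W.al k * W.u k x) ^ 2) =
        fun x => (W.al j) ^ 2 * W.u j x ^ 2 + (W.al k) ^ 2 * W.u k x ^ 2 := by
      ext x
      have := separation_cross W h j k hjk x
      linear_combination (-2 * W.al j * W.al k) * this
    rw [e, intervalIntegral.integral_add ((hu2 j).const_mul _) ((hu2 k).const_mul _),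
      intervalIntegral.integral_const_mul, intervalIntegral.integral_const_mul,
      separation_intsq W h, separation_intsq W h]
    have e1 := hal j
    have e2 := hal k
    linarith
  rw [h2, h3] at h1
  have h4 := Real.pi_gt_three
  have h5 : (2:ℝ) ^ 2 ≤ ‖lift 0 (fun ξ => W.al j * W.u j ξ - W.al k * W.u k ξ)‖ ^ 2 := by
    refine le_trans ?_ h1
    linarith
  exact (pow_le_pow_iff_left₀ (by norm_num) (norm_nonneg _) two_ne_zero).1 h5

end Haraux
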