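import Pool.Agent.Helper27.Har.Base
import Pool.Agent.Helper27.Har.P_world_basic

set_option autoImplicit false

open MeasureTheory Set Real Filter Topology
open scoped ENNReal NNReal

namespace Haraux



/-- choice of the duration of the stage -/
theorem time_choice (W : World) (h : W.RegN) (k : ℕ) (hs : W.Small k) : ∃ m : ℕ,
    2 * π * m ≤ W.Tm k ∧ Real.cos (W.om0 k * (2 * π * m)) ≤ 2 * W.ep k ∧
    (∀ t, 0 ≤ t → t ≤ 2 * π * m →
      W.ep k / 2 ≤ Real.cos (W.om0 k * t) ∧ 0 ≤ Real.sin (W.om0 k * t)) := by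
  obtain ⟨_, _, _, _, hom, _⟩ := world_basic W h
  have hω : 0 < W.om0 k := hom k
  have he0 : 0 < W.ep k := h.ep_pos k
  have he1 : W.ep k ≤ 1 / 1000 := h.ep_le k
  have hc5 := hs.c5
  set ω := W.om0 k with hωdef
  set e := W.ep k with hedef
  have hpi3 := Real.pi_gt_three
  have hpi4 := Real.pi_le_four
  have hpos : 0 < 2 * π * ω := by positivity
  set X : ℝ := (π / 2 - e) / (2 * π * ω) with hX
  have hX0 : 0 ≤ X := div_nonneg (by linarith) hpos.le
  refine ⟨⌊X⌋₊, ?_⟩
  have h1 : (⌊X⌋₊ : ℝ) ≤ X := Nat.floor_le hX0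
  have h2 : X < ⌊X⌋₊ + 1 := Nat.lt_floor_add_one X
  set m : ℝ := (⌊X⌋₊ : ℝ) with hm
  have h3 : m * (2 * π * ω) ≤ π / 2 - e := by
    rw [hX, le_div_iff₀ hpos] at h1
    exact h1
  have h4 : π / 2 - e < (m + 1) * (2 * π * ω) := by
    rw [hX, div_lt_iff₀ hpos] at h2
    exact h2
  have hθ1 : ω * (2 * π * m) ≤ π / 2 - e := by linarith
  have hθ2 : π / 2 - 2 * e ≤ ω * (2 * π * m) := by nlinarith
  refine ⟨?_, ?_, ?_⟩
  · have : W.Tm k = π / (2 * ω) := rfl
    rw [this, le_div_iff₀ (by positivity)]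
    linarith
  · rw [← Real.sin_pi_div_two_sub]
    refine (Real.sin_le (by linarith)).trans (by linarith)
  · intro t ht0 ht1
    have h5 : ω * t ≤ ω * (2 * π * m) := mul_le_mul_of_nonneg_left ht1 hω.le
    have h6 : 0 ≤ ω * t := by positivity
    have h7 : ω * t ≤ π / 2 - e := h5.trans hθ1
    constructor
    · have h8 : Real.cos (π / 2 - e) ≤ Real.cos (ω * t) :=
        Real.cos_le_cos_of_nonneg_of_le_pi h6 (by linarith) h7
      rw [Real.cos_pi_div_two_sub] at h8
      refine le_trans ?_ h8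
      have h9 := Real.mul_le_sin he0.le (by linarith)
      refine le_trans ?_ h9
      rw [div_mul_eq_mul_div, div_le_div_iff₀ (by norm_num) (by positivity)]
      nlinarith
    · exact Real.sin_nonneg_of_nonneg_of_le_pi h6 (by linarith)

end Haraux
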