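import Pool.Agent.Helper27.Har.Base
import Pool.Agent.Helper27.Har.P_world_basic
import Pool.Agent.Helper27.Har.P_stage_ineq
import Pool.Agent.Helper27.Har.P_zp_sol
import Pool.Agent.Helper27.Har.P_contraction
import Pool.Agent.Helper27.Har.P_rin_facts
import Pool.Agent.Helper27.Har.P_lift_period
import Pool.Agent.Helper27.Har.P_start_state
import Pool.Agent.Helper27.Har.P_end_state
import Pool.Agent.Helper27.Har.P_time_choice
import Pool.Agent.Helper27.Har.P_corr_lower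

set_option autoImplicit false

open MeasureTheory Set Real Filter Topology
open scoped ENNReal NNReal

namespace Haraux



/-- one stage -/
theorem stage (W : World) (h : W.Reg) (hs : ∀ k, W.Small k) (k : ℕ) : ∃ m : ℕ,
    ∀ Y : ℝ → HZ, IsSol W.NN Y → Y 0 = W.zp 0 + lift 0 (fun ξ => W.al k * W.u k ξ) →
      ‖Y (2 * π * m) - W.zp (2 * π * m) - lift 0 (fun ξ => W.al (k + 1) * W.u (k + 1) ξ)‖ ^ 2
        ≤ 200 * W.ep k := by
  obtain ⟨rcomm, rself, radd, rsub, rneg, rabs, -, -, -, -, -, -, -, -, -, -, -, -⟩ := rin_facts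
  obtain ⟨m, hm1, hm2, hm3⟩ := time_choice W h.num k (hs k)
  refine ⟨m, ?_⟩
  intro Y hY hY0
  obtain ⟨hzp, -, -, -, hNc, -, hmono, -⟩ := zp_sol W h
  have hT0 : (0 : ℝ) ≤ 2 * π * m := by positivity
  obtain ⟨hs1, hs2, hs3⟩ := start_state W h k (hs k)
  obtain ⟨ht1, ht2, ht3⟩ := start_state W h (k + 1) (hs (k + 1))
  have hcT := hm3 (2 * π * m) hT0 le_rfl
  have hep := h.num.ep_pos k
  have hen := end_state W h k (hs k) (2 * π * m) (by linarith [hcT.1]) hm2 hcT.2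
  have hper : lift (2 * π * m) (fun ξ => W.al (k + 1) * W.u (k + 1) ξ)
      = lift 0 (fun ξ => W.al (k + 1) * W.u (k + 1) ξ) := by
    have := lift_period Real.sin (fun ξ => W.al (k + 1) * W.u (k + 1) ξ) 0 m
    rw [zero_add] at this
    exact this
  rw [hper] at hen
  have hcorr := corr_lower W h k (hs k) (2 * π * m) hT0 hm1 hm3 Y hY hY0
  have hcontr := contraction W.NN hNc hmono Y W.zp hY hzp 0 (2 * π * m) hT0
  have hz0 : Y 0 - W.zp 0 = lift 0 (fun ξ => W.al k * W.u k ξ) := by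
    rw [hY0]
    abel
  rw [hz0] at hcorr hcontr
  have hmm : W.mm k ≤ W.ep k / 100 := (hs k).c6
  have hmm1 : W.mm (k + 1) ≤ W.ep k / 100 := by
    have h1 : W.mm (k + 1) ≤ W.ep (k + 1) / 100 := (hs (k + 1)).c6
    have h2 : W.ep (k + 1) ≤ W.ep k := h.num.ep_anti (Nat.le_succ k)
    linarith
  have hmp : 0 < W.mm k := (world_basic W h.num).2.2.2.2.2.1 k
  have hmp1 : 0 < W.mm (k + 1) := (world_basic W h.num).2.2.2.2.2.1 (k + 1)
  have hepl : W.ep k ≤ 1 / 1000 := h.num.ep_le k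
  have hpi : π ≤ 3.15 := Real.pi_lt_d2.le
  generalize hq : lift 0 (fun ξ => W.al k * W.u k ξ) = q at *
  generalize hq' : lift 0 (fun ξ => W.al (k + 1) * W.u (k + 1) ξ) = q' at *
  generalize hB0 : lift 0 (W.Bt k 0) = B0 at *
  generalize hBT : lift (2 * π * m) (W.Bt k (2 * π * m)) = BT at *
  generalize hzT : Y (2 * π * m) - W.zp (2 * π * m) = zT at *
  generalize W.ep k = e at *
  generalize W.mm k = a at *
  generalize W.mm (k + 1) = b at *
  have hN0 : ‖q‖ ≤ 2 := by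
    have h1 : ‖q‖ ^ 2 ≤ 2 ^ 2 := by nlinarith
    exact abs_le_of_sq_le_sq' h1 (by norm_num) |>.2
  have e1 : rin q B0 = ‖q‖ ^ 2 + rin (B0 - q) q := by
    rw [rcomm q B0]
    have : rin (B0 - q) q = rin B0 q - rin q q := rsub _ _ _
    rw [this, rself]
    ring
  have e2 : -(82 * a * 2) ≤ rin (B0 - q) q := by
    have h1 := rabs (B0 - q) q
    have h2 : ‖B0 - q‖ * ‖q‖ ≤ 82 * a * 2 :=
      mul_le_mul hs3 hN0 (norm_nonneg _) (by positivity)
    have h3 := (abs_le.1 (h1.trans h2)).1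
    exact h3
  have e3 : rin zT BT = rin zT q' + rin (BT - q') zT := by
    have : rin (BT - q') zT = rin BT zT - rin q' zT := rsub _ _ _
    rw [this, rcomm BT zT, rcomm q' zT]
    ring
  have hzTn : ‖zT‖ ≤ 2 := hcontr.trans hN0
  have e4 : rin (BT - q') zT ≤ 9 * e * 2 := by
    have h1 := rabs (BT - q') zT
    have h2 : ‖BT - q'‖ * ‖zT‖ ≤ 9 * e * 2 :=
      mul_le_mul hen hzTn (norm_nonneg _) (by positivity)
    exact (abs_le.1 (h1.trans h2)).2
  have e5 : ‖zT - q'‖ ^ 2 = ‖zT‖ ^ 2 + ‖q'‖ ^ 2 - 2 * rin zT q' := by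
    rw [← rself (zT - q'), rsub, rcomm zT (zT - q'), rcomm q' (zT - q'), rsub, rsub, rself, rself,
      rcomm q' zT]
    ring
  have e6 : ‖zT‖ ^ 2 ≤ ‖q‖ ^ 2 := by
    have := norm_nonneg zT
    nlinarith
  rw [e5]
  have e7 : b ^ 2 ≤ e / 100 * (e / 100) := by nlinarith
  have e8 : e / 100 * (e / 100) ≤ e / 100 * 1 := by
    apply mul_le_mul_of_nonneg_left _ (by positivity)
    linarith
  rw [e1, e3] at hcorr
  linarith

end Haraux
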