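import Pool.Agent.Helper27.Har.Base
import Pool.Agent.Helper27.Har.P_world_basic
import Pool.Agent.Helper27.Har.P_zp_sol
import Pool.Agent.Helper27.Har.P_contraction
import Pool.Agent.Helper27.Har.P_exists_sol
import Pool.Agent.Helper27.Har.P_stage
import Pool.Agent.Helper27.Har.P_separation
import Pool.Agent.Helper27.Har.P_rin_facts
import Pool.Agent.Helper27.Har.P_start_state

set_option autoImplicit false

open MeasureTheory Set Real Filter Topology
open scoped ENNReal NNReal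

namespace Haraux



/-- a bounded solution with a separated sequence -/
theorem final_orbit (W : World) (h : W.Reg) (hs : ∀ k, W.Small k)
    (he : ∀ k, W.ep k = 1 / 10 ^ 6 / 4 ^ k) : ∃ (Z : ℝ → HZ) (tk : ℕ → ℝ), IsSol W.NN Z ∧
    (∃ C, ∀ t, 0 ≤ t → ‖Z t‖ ≤ C) ∧ (∀ k, 0 ≤ tk k) ∧
    (∀ j k, j ≠ k → 1 ≤ ‖Z (tk j) - Z (tk k)‖) := by
  obtain ⟨zps, fc, zpp, fp, NNc, NNL, NNm, C0, hC0⟩ := zp_sol W h
  let q : ℕ → HZ := fun k => lift 0 (fun ξ => W.al k * W.u k ξ)
  choose m hm using stage W h hs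
  obtain ⟨Z, hZ, hZ0⟩ := exists_sol W.NN NNc NNL (W.zp 0 + q 0)
  let Mk : ℕ → ℕ := fun k => ∑ j ∈ Finset.range k, m j
  have hNNp : ∀ (t : ℝ) (n : ℕ) v, W.NN (2 * π * n + t) v = W.NN t v := by
    intro t n v
    unfold World.NN
    rw [add_comm, fp]
  have hzp0 : ∀ n : ℕ, W.zp (2 * π * n) = W.zp 0 := by
    intro n
    have := zpp 0 n
    rwa [zero_add] at this
  have shift : ∀ n : ℕ, IsSol W.NN (fun s => Z (2 * π * n + s)) := by
    intro n
    refine ⟨hZ.1.comp (continuous_const.add continuous_id), fun t i => ?_⟩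
    have h1 := (hZ.2 (2 * π * n + t) i).comp_const_add (2 * π * n) t
    rw [hNNp] at h1
    exact h1
  have claim : ∀ k, ‖Z (2 * π * (Mk k)) - W.zp (2 * π * (Mk k)) - q k‖ ≤
      ∑ j ∈ Finset.range k, √(200 * W.ep j) := by
    intro k
    induction k with
    | zero => simp [Mk, hZ0]
    | succ k ih =>
      obtain ⟨Y, hY, hY0⟩ := exists_sol W.NN NNc NNL (W.zp 0 + q k)
      have h1 := hm k Y hY hY0
      have h2 : ‖Y (2 * π * m k) - W.zp (2 * π * m k) - q (k + 1)‖ ≤ √(200 * W.ep k) :=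
        Real.le_sqrt_of_sq_le h1
      have h3 := contraction W.NN NNc NNm _ Y (shift (Mk k)) hY 0 (2 * π * m k) (by positivity)
      simp only [add_zero] at h3
      have e1 : (2 * π * (Mk (k + 1) : ℕ) : ℝ) = 2 * π * (Mk k) + 2 * π * m k := by
        simp only [Mk, Finset.sum_range_succ]
        push_cast
        ring
      rw [Finset.sum_range_succ, hzp0, e1]
      rw [hzp0] at h2 ih
      rw [hY0, ← sub_sub] at h3
      have e2 : Z (2 * π * Mk k + 2 * π * m k) - W.zp 0 - q (k + 1) =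
          (Z (2 * π * Mk k + 2 * π * m k) - Y (2 * π * m k)) +
            (Y (2 * π * m k) - W.zp 0 - q (k + 1)) := by abel
      rw [e2]
      exact (norm_add_le _ _).trans (add_le_add (h3.trans ih) h2)
  have hsum : ∀ k, ∑ j ∈ Finset.range k, √(200 * W.ep j) ≤ 1 / 10 := by
    intro k
    have h1 : ∀ j ∈ Finset.range k, √(200 * W.ep j) ≤ 1 / 50 * (1 / (2 : ℝ)) ^ j := by
      intro j _
      apply Real.sqrt_le_iff.2
      refine ⟨by positivity, ?_⟩
      rw [he j, mul_pow, ← pow_mul, mul_comm j 2, pow_mul]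
      have h2 : ((1 / (2 : ℝ)) ^ 2) ^ j = 1 / 4 ^ j := by
        rw [show ((1 / (2 : ℝ)) ^ 2) = 1 / 4 by norm_num, div_pow, one_pow]
      rw [h2]
      have h3 : (0 : ℝ) ≤ 1 / 4 ^ j := by positivity
      have h4 : (1 : ℝ) / 10 ^ 6 / 4 ^ j = 1 / 10 ^ 6 * (1 / 4 ^ j) := by ring
      rw [h4]
      linarith
    refine (Finset.sum_le_sum h1).trans ?_
    rw [← Finset.mul_sum]
    have := sum_geometric_two_le k
    linarith
  refine ⟨Z, fun k => 2 * π * (Mk k), hZ, ⟨‖Z 0 - W.zp 0‖ + C0, fun t ht => ?_⟩,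
    fun k => by positivity, fun j k hjk => ?_⟩
  · have h1 := contraction W.NN NNc NNm Z W.zp hZ zps 0 t ht
    have h2 : ‖Z t‖ ≤ ‖Z t - W.zp t‖ + ‖W.zp t‖ := by
      have := norm_add_le (Z t - W.zp t) (W.zp t)
      rwa [sub_add_cancel] at this
    linarith [hC0 t]
  · have a1 := (claim j).trans (hsum j)
    have a2 := (claim k).trans (hsum k)
    have a3 := separation W h j k hjk
    rw [hzp0] at a1 a2
    show 1 ≤ ‖Z (2 * π * (Mk j)) - Z (2 * π * (Mk k))‖
    have e : q j - q k = (Z (2 * π * (Mk j)) - Z (2 * π * (Mk k))) -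
        (Z (2 * π * (Mk j)) - W.zp 0 - q j) + (Z (2 * π * (Mk k)) - W.zp 0 - q k) := by abel
    have a4 : ‖q j - q k‖ ≤ ‖Z (2 * π * (Mk j)) - Z (2 * π * (Mk k))‖ +
        ‖Z (2 * π * (Mk j)) - W.zp 0 - q j‖ + ‖Z (2 * π * (Mk k)) - W.zp 0 - q k‖ := by
      rw [e]
      exact (norm_add_le _ _).trans (add_le_add_left (norm_sub_le _ _) _)
    have a5 : 2 ≤ ‖q j - q k‖ := a3
    linarith

end Haraux
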