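import Pool.Agent.Helper27.Har.Base
import Pool.Agent.Helper27.Har.P_rin_facts
import Pool.Agent.Helper27.Har.P_kick_apply
import Pool.Agent.Helper27.Har.P_vel_repr
import Pool.Agent.Helper27.Har.P_corr_identity
import Pool.Agent.Helper27.Har.P_gL_facts
import Pool.Agent.Helper27.Har.P_test_coef
import Pool.Agent.Helper27.Har.P_toK_ae
import Pool.Agent.Helper27.Har.P_toK_memLp
import Pool.Agent.Helper27.Har.P_toK_inner

set_option autoImplicit false

open MeasureTheory Set Real Filter Topology
open scoped ENNReal NNReal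

namespace Haraux



/-- solutions of the abstract equation are energy solutions -/
theorem theta_solution (Θ : HZ →L[ℝ] (KK × KK × KK × KK))
    (h1 : ∀ z, ((Θ z).1, (Θ z).2.1, (Θ z).2.2.1) ∈ H10 sq)
    (h2 : ∀ z, (Θ z).2.2.2 = vel z)
    (h3 : ∀ z i, sineB.repr (Θ z).1 i = (z i).re / om i)
    (h4 : ∀ z φ, IsTest sq φ → HasSum (fun i => (z i).re * om i * sineB.repr (toK φ) i)
      (∫ q in sq, ((Θ z).2.1 q * pdx φ q + (Θ z).2.2.1 q * pdy φ q)))
    (fz : ℝ → KK) (hf : Continuous fz) (z : ℝ → HZ)
    (hz : IsSol (fun t v => gL v - fz t) z) :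
    IsSolution sq clip fz (fun t => Θ (z t)) := by
  obtain ⟨rcomm, rself, radd, rsub, rneg, rbd, rsum, rkick, vadd, vsub, vnorm, vcont, kadd, ksub, kneg,
    knorm, kcont, vkick⟩ := rin_facts
  obtain ⟨gLip, gmono, gae⟩ := gL_facts
  have hompos : ∀ i : ℕ × ℕ, 1 ≤ om i := by
    intro i
    unfold om
    rw [Real.one_le_sqrt]
    have h1 : (0 : ℝ) ≤ (i.1 : ℝ) := Nat.cast_nonneg _
    have h2 : (0 : ℝ) ≤ (i.2 : ℝ) := Nat.cast_nonneg _
    nlinarith
  have hvz : Continuous (fun t => vel (z t)) := vcont.comp hz.1
  have hzi : ∀ i, Continuous (fun t => z t i) := by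
    intro i
    rw [continuous_iff_continuousAt]
    intro t
    exact (hz.2 t i).continuousAt
  -- derivative of the first component
  have hF : ∀ s : ℝ, (Θ (z s)).1 = (Θ (z 0)).1 + ∫ r in (0:ℝ)..s, vel (z r) := by
    intro s
    apply sineB.repr.injective
    apply lp.ext
    funext i
    have hre : ∀ t, HasDerivAt (fun s => (z s i).re / om i) ((z t i).im) t := by
      intro t
      have h := hz.2 t i
      have h' := (Complex.reCLM.hasFDerivAt.comp_hasDerivAt t h).div_const (om i)
      have hom : om i ≠ 0 := by have := hompos i; positivity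
      refine h'.congr_deriv ?_
      simp only [kick_apply, Complex.reCLM_apply, Complex.sub_re, Complex.mul_re, Complex.neg_re,
        Complex.I_re, Complex.I_im, Complex.ofReal_re, Complex.ofReal_im, Complex.neg_im, Complex.mul_im]
      field_simp
      ring
    have hint : ∫ r in (0:ℝ)..s, (z r i).im = (z s i).re / om i - (z 0 i).re / om i :=
      intervalIntegral.integral_eq_sub_of_hasDerivAt (fun t _ => hre t)
        ((Complex.continuous_im.comp (hzi i)).intervalIntegrable _ _)
    let ell : KK →L[ℝ] ℝ := innerSL ℝ (sineB i)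
    have hell : ∀ v : KK, sineB.repr v i = ell v := by
      intro v
      rw [HilbertBasis.repr_apply_apply]
      rfl
    rw [h3]
    rw [hell, map_add, ← hell, h3]
    have h5 : ell (∫ r in (0:ℝ)..s, vel (z r)) = ∫ r in (0:ℝ)..s, ell (vel (z r)) :=
      (ell.intervalIntegral_comp_comm (hvz.intervalIntegrable _ _)).symm
    rw [h5]
    have h6 : ∀ r, ell (vel (z r)) = (z r i).im := by
      intro r
      rw [← hell, vel_repr]
    rw [intervalIntegral.integral_congr (fun r _ => h6 r), hint]
    ring
  have hDer : ∀ t : ℝ, HasDerivAt (fun s => (Θ (z s)).1) (vel (z t)) t := by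
    intro t
    have h5 : HasDerivAt (fun s => ∫ r in (0:ℝ)..s, vel (z r)) (vel (z t)) t :=
      intervalIntegral.integral_hasDerivAt_right (hvz.intervalIntegrable _ _)
        (hvz.stronglyMeasurableAtFilter _ _) hvz.continuousAt
    have h6 := h5.const_add ((Θ (z 0)).1)
    have h7 : (fun s => (Θ (z s)).1) = fun s => (Θ (z 0)).1 + ∫ r in (0:ℝ)..s, vel (z r) := funext hF
    rw [h7]
    exact h6
  refine ⟨(Θ.continuous.comp hz.1).continuousOn, fun t _ => h1 (z t), ?_, ?_⟩
  · intro t _
    show HasDerivWithinAt (fun s => (Θ (z s)).1) (Θ (z t)).2.2.2 (Ici 0) t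
    rw [h2]
    exact (hDer t).hasDerivWithinAt
  · intro φ hφ t _
    have hmem : MemLp φ 2 (volume.restrict sq) :=
      (hφ.1.continuous.memLp_of_hasCompactSupport (μ := volume) hφ.2.1).restrict sq
    obtain ⟨hin, hco, hno⟩ := toK_inner φ hmem
    let p : HZ := kick (toK φ)
    have hm2 : Memℓp (fun i : ℕ × ℕ => ((-(om i * sineB.repr (toK φ) i) : ℝ) : ℂ)) 2 := by
      have h5 := test_coef φ hφ
      rw [memℓp_gen_iff (by norm_num)] at h5 ⊢
      refine Summable.of_nonneg_of_le (fun i => by positivity) (fun i => ?_) h5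
      refine Real.rpow_le_rpow (norm_nonneg _) ?_ (by norm_num)
      rw [Complex.norm_real, norm_neg, norm_mul, norm_mul, norm_pow]
      have h6 : 1 ≤ ‖om i‖ := by
        rw [Real.norm_eq_abs, abs_of_pos (by linarith [hompos i])]
        exact hompos i
      have h7 : ‖om i‖ ≤ ‖om i‖ ^ 2 := by nlinarith
      exact mul_le_mul_of_nonneg_right h7 (norm_nonneg _)
    let H2 : HZ := ⟨_, hm2⟩
    have hH2 : ∀ i, H2 i = ((-(om i * sineB.repr (toK φ) i) : ℝ) : ℂ) := fun i => rfl
    let G : ℝ → KK := fun t => gL (vel (z t)) - fz t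
    have hG : Continuous G := (gLip.continuous.comp hvz).sub hf
    let H1 : ℝ → HZ := fun t => - kick (G t)
    have hH1 : Continuous H1 := (kcont.comp hG).neg
    let D : ℝ → ℝ := fun t => rin (H1 t) p + rin (z t) H2
    have hrc : ∀ w : HZ, Continuous (fun u : HZ => rin u w) := by
      intro w
      unfold rin
      exact Complex.continuous_re.comp (continuous_id.inner continuous_const)
    have hDc : Continuous D := ((hrc p).comp hH1).add ((hrc H2).comp hz.1)
    have hid : ∀ a b : ℝ, a ≤ b → rin (z b) p - rin (z a) p = ∫ t in a..b, D t := by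
      intro a b hab
      obtain ⟨M1, hM1⟩ := (isCompact_Icc (a := a) (b := b)).exists_bound_of_continuousOn hz.1.continuousOn
      obtain ⟨M2, hM2⟩ := (isCompact_Icc (a := a) (b := b)).exists_bound_of_continuousOn hH1.continuousOn
      have := (corr_identity z (fun _ => p) H1 (fun _ => H2) a b (max (max M1 M2) (max ‖p‖ ‖H2‖)) hab ?_ ?_ ?_).2
      · exact this
      · intro t i
        have h := hz.2 t i
        have e : (-(Complex.I * (om i : ℂ)) * z t i + H1 t i) =
            (-(Complex.I * (om i : ℂ)) * z t i - kick ((fun t v => gL v - fz t) t (vel (z t))) i) := by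
          show _ + (- kick (G t)) i = _
          rw [lp.coeFn_neg]
          simp only [Pi.neg_apply, G]
          ring
        rw [e]
        exact h
      · intro t i
        have e : (-(Complex.I * (om i : ℂ)) * p i + H2 i) = 0 := by
          show (-(Complex.I * (om i : ℂ)) * kick (toK φ) i + H2 i) = 0
          rw [hH2, kick_apply]
          push_cast
          linear_combination (-(om i : ℂ) * ((sineB.repr (toK φ) i : ℝ) : ℂ)) * Complex.I_mul_I
        simp only [e]
        exact hasDerivAt_const _ _
      · intro t ht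
        exact ⟨(hM1 t ht).trans ((le_max_left _ _).trans (le_max_left _ _)),
          (le_max_left _ _).trans (le_max_right _ _),
          (hM2 t ht).trans ((le_max_right _ _).trans (le_max_left _ _)),
          (le_max_right _ _).trans (le_max_right _ _)⟩
    have hc : ∀ s, (∫ q in sq, (Θ (z s)).2.2.2 q * φ q) = rin (z 0) p + ∫ r in (0:ℝ)..s, D r := by
      intro s
      rw [h2, ← hin, ← rkick]
      rcases le_total 0 s with hs | hs
      · have := hid 0 s hs
        show rin (z s) p = _
        linarith
      · have := hid s 0 hs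
        rw [intervalIntegral.integral_symm] at this
        show rin (z s) p = _
        linarith
    have hder : HasDerivAt (fun s => ∫ q in sq, (Θ (z s)).2.2.2 q * φ q) (D t) t := by
      have h5 : HasDerivAt (fun s => ∫ r in (0:ℝ)..s, D r) (D t) t :=
        intervalIntegral.integral_hasDerivAt_right (hDc.intervalIntegrable _ _)
          (hDc.stronglyMeasurableAtFilter _ _) hDc.continuousAt
      have h7 : (fun s => ∫ q in sq, (Θ (z s)).2.2.2 q * φ q) =
          fun s => rin (z 0) p + ∫ r in (0:ℝ)..s, D r := funext hc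
      rw [h7]
      exact h5.const_add _
    have hDt : D t = -(∫ q in sq, ((Θ (z t)).2.1 q * pdx φ q + (Θ (z t)).2.2.1 q * pdy φ q))
        - (∫ q in sq, clip ((Θ (z t)).2.2.2 q) * φ q) + (∫ q in sq, fz t q * φ q) := by
      have e1 : rin (H1 t) p = - ((∫ q in sq, clip ((Θ (z t)).2.2.2 q) * φ q) - ∫ q in sq, fz t q * φ q) := by
        show rin (- kick (G t)) (kick (toK φ)) = _
        rw [rneg, rkick, vkick]
        show - inner ℝ (gL (vel (z t)) - fz t) (toK φ) = _
        rw [inner_sub_left, hin, hin]
        congr 2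
        apply integral_congr_ae
        rw [h2]
        filter_upwards [gae (vel (z t))] with q hq
        rw [hq]
      have e2 : rin (z t) H2 = - ∫ q in sq, ((Θ (z t)).2.1 q * pdx φ q + (Θ (z t)).2.2.1 q * pdy φ q) := by
        have h5 := rsum (z t) H2
        have h6 := (h4 (z t) φ hφ).neg
        have e3 : (fun i => (z t i).re * (H2 i).re + (z t i).im * (H2 i).im) =
            fun i => -((z t i).re * om i * sineB.repr (toK φ) i) := by
          funext i
          rw [hH2, Complex.ofReal_re, Complex.ofReal_im]
          ring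
        rw [e3] at h5
        exact h5.unique h6
      show rin (H1 t) p + rin (z t) H2 = _
      rw [e1, e2]
      ring
    have h8 := hder.hasDerivWithinAt (s := Ici (0 : ℝ))
    rw [hDt] at h8
    exact h8

end Haraux
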