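import Pool.Agent.Helper27.Har.Base
import Pool.Agent.Helper27.Har.P_exists_theta
import Pool.Agent.Helper27.Har.P_theta_solution
import Pool.Agent.Helper27.Har.P_final_orbit
import Pool.Agent.Helper27.Har.P_exists_world
import Pool.Agent.Helper27.Har.P_zp_sol

set_option autoImplicit false

open MeasureTheory Set Real Filter Topology
open scoped ENNReal NNReal

namespace Haraux



/-- the counterexample -/
theorem main_thm : ∃ Ω : Set (ℝ × ℝ), IsOpen Ω ∧ IsConnected Ω ∧ Bornology.IsBounded Ω ∧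
    ∃ g : ℝ → ℝ, Monotone g ∧ (∃ K : ℝ≥0, LipschitzWith K g) ∧
    ∃ f : ℝ → L2 Ω, Continuous f ∧ (∃ τ : ℝ, 0 < τ ∧ ∀ t, f (t + τ) = f t) ∧
    ∃ U : ℝ → L2 Ω × L2 Ω × L2 Ω × L2 Ω, IsSolution Ω g f U ∧
      (∃ C : ℝ, ∀ t : ℝ, 0 ≤ t → ‖U t‖ ≤ C) ∧ ¬ IsCompact (closure (U '' Ici 0)) := by
  obtain ⟨Θ, h1, h2, hn, h3, h4⟩ := exists_theta
  obtain ⟨W, hreg, hsm, hep⟩ := exists_world
  obtain ⟨_, hfc, _, hfper, _, _, _, _⟩ := zp_sol W hreg
  obtain ⟨Z, tk, hZ, ⟨C, hC⟩, htk, hsep⟩ := final_orbit W hreg hsm hep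
  refine ⟨sq, isOpen_Ioo.prod isOpen_Ioo,
    (isConnected_Ioo Real.pi_pos).prod (isConnected_Ioo Real.pi_pos),
    (Metric.isBounded_Ioo 0 π).prod (Metric.isBounded_Ioo 0 π), clip, clip_mono,
    ⟨1, clip_lipschitz⟩, W.f, hfc, ⟨2 * π, by positivity, fun t => ?_⟩,
    fun t => Θ (Z t), theta_solution Θ h1 h2 h3 h4 W.f hfc Z hZ, ⟨‖Θ‖ * C, fun t ht => ?_⟩, ?_⟩
  · have := hfper t 1
    rw [Nat.cast_one, mul_one] at this
    exact this
  · exact (Θ.le_opNorm _).trans (mul_le_mul_of_nonneg_left (hC t ht) (norm_nonneg _))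
  · intro hK
    obtain ⟨a, _, φ, hφ, hlim⟩ := hK.tendsto_subseq (x := fun n => Θ (Z (tk n)))
      (fun n => subset_closure ⟨tk n, htk n, rfl⟩)
    have hcau := hlim.cauchySeq
    rw [Metric.cauchySeq_iff] at hcau
    obtain ⟨N, hN⟩ := hcau (1 / 2) (by norm_num)
    have hd := hN N le_rfl (N + 1) (Nat.le_succ N)
    have hne : φ N ≠ φ (N + 1) := (hφ (Nat.lt_succ_self N)).ne
    have hs := hsep _ _ hne
    have hd' : ‖Θ (Z (tk (φ N)) - Z (tk (φ (N + 1))))‖ < 1 / 2 := by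
      rw [map_sub, ← dist_eq_norm]
      exact hd
    have e := hn (Z (tk (φ N)) - Z (tk (φ (N + 1))))
    set w := Z (tk (φ N)) - Z (tk (φ (N + 1))) with hw
    have e1 : ‖(Θ w).2.1‖ ≤ ‖Θ w‖ := (norm_fst_le _).trans (norm_snd_le _)
    have e2 : ‖(Θ w).2.2.1‖ ≤ ‖Θ w‖ :=
      (norm_fst_le _).trans ((norm_snd_le _).trans (norm_snd_le _))
    have e3 : ‖vel w‖ ≤ ‖Θ w‖ := by
      rw [← h2 w]
      exact (norm_snd_le _).trans ((norm_snd_le _).trans (norm_snd_le _))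
    have e4 := norm_nonneg (Θ w).2.1
    have e5 := norm_nonneg (Θ w).2.2.1
    have e6 := norm_nonneg (vel w)
    have e7 := norm_nonneg (Θ w)
    nlinarith

end Haraux
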