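import Pool.Agent.Helper27.Har.Base
import Pool.Agent.Helper27.Har.P_world_basic
import Pool.Agent.Helper27.Har.P_stage_ineq
import Pool.Agent.Helper27.Har.P_level_facts
import Pool.Agent.Helper27.Har.P_K_bounds
import Pool.Agent.Helper27.Har.P_lift_norm
import Pool.Agent.Helper27.Har.P_mkick_mem
import Pool.Agent.Helper27.Har.P_toK_norm_le
import Pool.Agent.Helper27.Har.P_rin_facts

set_option autoImplicit false

open MeasureTheory Set Real Filter Topology
open scoped ENNReal NNReal

namespace Haraux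



/-- size of the residual -/
theorem residual_norm (W : World) (h : W.Reg) (k : ℕ) (hs : W.Small k) (t : ℝ) :
    ‖W.om0 k • lift t (W.Rs k t) + kick (W.fW k t) + mkick t (W.Co k t)‖
      ≤ 82 * (W.om0 k * W.mm k) + 63 / 10 * (W.as k * W.mu (k + 1)) + 82 * (W.mm k * W.lam k) := by
  obtain ⟨hlam, hkap, hal, has, hom, hmm, -⟩ := world_basic W h.num
  obtain ⟨hCo, hRs, hBCo, hBRs, hint⟩ := K_bounds W h k hs
  have h2 := hs.c2
  have hpi := Real.pi_pos
  have hpi2 : π < 3.1416 := Real.pi_lt_d4
  have hm := hmm k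
  have hl := hlam k
  have ho := hom k
  have ha := has k
  have hmu : 0 < W.mu (k + 1) := h.num.mu_pos (k + 1)
  -- first term
  have e1 : ‖lift t (W.Rs k t)‖ ≤ 82 * W.mm k := by
    have hl1 := (lift_norm (W.Rs k t) (hBRs t) t).1
    have hb : ∫ x in (0:ℝ)..(2 * π), (W.Rs k t x) ^ 2 ≤ ∫ x in (0:ℝ)..(2 * π), (13 * W.mm k) ^ 2 := by
      have hmeas : Measurable (fun x => (W.Rs k t x) ^ 2) := (hBRs t).meas.pow_const 2
      apply intervalIntegral.integral_mono_on (by positivity)
      · rw [intervalIntegrable_iff]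
        apply MeasureTheory.Integrable.mono' (g := fun _ => (13 * W.mm k) ^ 2)
        · exact (intervalIntegrable_iff.1 intervalIntegrable_const)
        · exact hmeas.aestronglyMeasurable
        · refine Filter.Eventually.of_forall (fun x => ?_)
          rw [Real.norm_eq_abs, abs_of_nonneg (sq_nonneg _)]
          rw [← sq_abs]
          exact pow_le_pow_left₀ (abs_nonneg _) (hRs t x) 2
      · exact intervalIntegrable_const
      · intro x _
        rw [← sq_abs]
        exact pow_le_pow_left₀ (abs_nonneg _) (hRs t x) 2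
    rw [intervalIntegral.integral_const, smul_eq_mul, sub_zero] at hb
    have h3 : ‖lift t (W.Rs k t)‖ ^ 2 ≤ (82 * W.mm k) ^ 2 := by
      calc ‖lift t (W.Rs k t)‖ ^ 2 ≤ 2 * π * (2 * π * (13 * W.mm k) ^ 2) :=
            hl1.trans (mul_le_mul_of_nonneg_left hb (by positivity))
        _ = (2 * π * 13 * W.mm k) ^ 2 := by ring
        _ ≤ (82 * W.mm k) ^ 2 := by
            apply pow_le_pow_left₀ (by positivity)
            apply mul_le_mul_of_nonneg_right _ hm.le
            nlinarith
    exact le_of_sq_le_sq h3 (by positivity)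
  have e2 : ‖kick (W.fW k t)‖ ≤ 63 / 10 * (W.as k * W.mu (k + 1)) := by
    have hk := rin_facts.2.2.2.2.2.2.2.2.2.2.2.2.2.2.2.1 (W.fW k t)
    rw [hk]
    unfold World.fW
    refine (toK_norm_le _ (W.as k * (2 * W.mu (k + 1))) ?_).trans ?_
    · intro q
      have hw := (h.lev (k + 1)).wle
      have h1 : |W.w (k + 1) (t + q.1) - W.w (k + 1) (t - q.1)| ≤ 2 * W.mu (k + 1) := by
        have := abs_sub (W.w (k + 1) (t + q.1)) (W.w (k + 1) (t - q.1))
        linarith [hw (t + q.1), hw (t - q.1)]
      rw [abs_mul, abs_mul, abs_mul, abs_of_pos ha]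
      calc W.as k * |Real.sin (W.om0 k * t)| * |W.w (k + 1) (t + q.1) - W.w (k + 1) (t - q.1)|
              * |Real.sin q.2| ≤ W.as k * 1 * (2 * W.mu (k + 1)) * 1 := by
            gcongr
            · exact Real.abs_sin_le_one _
            · exact Real.abs_sin_le_one _
        _ = W.as k * (2 * W.mu (k + 1)) := by ring
    · have : 0 < W.as k * W.mu (k + 1) := mul_pos ha hmu
      nlinarith
  have e3 : ‖mkick t (W.Co k t)‖ ≤ 82 * (W.mm k * W.lam k) := by
    have h1 := (mkick_mem (W.Co k t) (hBCo t) t).2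
    have h3 := hint t
    have : 0 < W.mm k * W.lam k := mul_pos hm hl
    nlinarith
  have e0 : ‖W.om0 k • lift t (W.Rs k t)‖ ≤ 82 * (W.om0 k * W.mm k) := by
    rw [norm_smul, Real.norm_eq_abs, abs_of_pos ho]
    nlinarith
  calc _ ≤ ‖W.om0 k • lift t (W.Rs k t)‖ + ‖kick (W.fW k t)‖ + ‖mkick t (W.Co k t)‖ :=
        norm_add₃_le
    _ ≤ _ := by linarith

end Haraux
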