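import Mathlib

set_option autoImplicit false

open MeasureTheory Set

namespace Haraux.St

/-- The space `L²(Ω)` for a subset `Ω` of the plane, with Lebesgue measure. -/
def L2 (Ω : Set (ℝ × ℝ)) : Type := Lp ℝ 2 (volume.restrict Ω)

/-- its norm -/
@[instance_reducible] noncomputable def instN (Ω : Set (ℝ × ℝ)) : NormedAddCommGroup (L2 Ω) :=
  (inferInstance : NormedAddCommGroup (Lp ℝ 2 (volume.restrict Ω)))
attribute [instance] instN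

/-- its real vector space structure -/
@[instance_reducible] noncomputable def instS (Ω : Set (ℝ × ℝ)) : NormedSpace ℝ (L2 Ω) :=
  (inferInstance : NormedSpace ℝ (Lp ℝ 2 (volume.restrict Ω)))
attribute [instance] instS

/-- a function representing an element of `L²(Ω)` -/
noncomputable def L2.fn {Ω : Set (ℝ × ℝ)} (v : L2 Ω) : ℝ × ℝ → ℝ :=
  let w : Lp ℝ 2 (volume.restrict Ω) := v
  w

/-- Test functions on `Ω`: smooth, with compact support contained in `Ω`. -/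
def IsTest (Ω : Set (ℝ × ℝ)) (φ : ℝ × ℝ → ℝ) : Prop :=
  ContDiff ℝ (⊤ : ℕ∞) φ ∧ HasCompactSupport φ ∧ tsupport φ ⊆ Ω

/-- first partial derivative -/
noncomputable def pdx (φ : ℝ × ℝ → ℝ) (q : ℝ × ℝ) : ℝ := fderiv ℝ φ q (1, 0)

/-- second partial derivative -/
noncomputable def pdy (φ : ℝ × ℝ → ℝ) (q : ℝ × ℝ) : ℝ := fderiv ℝ φ q (0, 1)

/-- the triple `(φ, ∂ₓφ, ∂_yφ)` of a test function, as an element of `L²(Ω)³` -/
def IsTestTriple (Ω : Set (ℝ × ℝ)) (w : L2 Ω × L2 Ω × L2 Ω) : Prop :=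
  ∃ φ : ℝ × ℝ → ℝ, IsTest Ω φ ∧ w.1.fn =ᵐ[volume.restrict Ω] φ ∧
    w.2.1.fn =ᵐ[volume.restrict Ω] pdx φ ∧ w.2.2.fn =ᵐ[volume.restrict Ω] pdy φ

/-- `H¹₀(Ω)`: the closure in `L²(Ω)³` of the triples `(φ, ∂ₓφ, ∂_yφ)`, `φ` a test function. -/
def H10 (Ω : Set (ℝ × ℝ)) : Set (L2 Ω × L2 Ω × L2 Ω) := closure {w | IsTestTriple Ω w}

/-- A state: `(u, ∂ₓu, ∂_y u, ∂ₜu)` in `L²(Ω)⁴`. -/
abbrev State (Ω : Set (ℝ × ℝ)) : Type := L2 Ω × L2 Ω × L2 Ω × L2 Ω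

/-- The weak form of the equation at time `t` against the test function `φ`: the function
`s ↦ ∫ u_t(s) φ` has at `t` the derivative `-∫ ∇u(t)·∇φ - ∫ g(u_t(t)) φ + ∫ f(t) φ`
(one-sided at `t = 0`). -/
def WeakEq (Ω : Set (ℝ × ℝ)) (g : ℝ → ℝ) (f : ℝ → L2 Ω) (U : ℝ → State Ω)
    (φ : ℝ × ℝ → ℝ) (t : ℝ) : Prop :=
  HasDerivWithinAt (fun s => ∫ q in Ω, (U s).2.2.2.fn q * φ q)
    (-(∫ q in Ω, ((U t).2.1.fn q * pdx φ q + (U t).2.2.1.fn q * pdy φ q))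
      - (∫ q in Ω, g ((U t).2.2.2.fn q) * φ q) + (∫ q in Ω, (f t).fn q * φ q)) (Ici 0) t

/-- `U t = (u, ∂ₓu, ∂_y u, ∂ₜu)` is, for `t ≥ 0`, a solution in the energy space
`H¹₀(Ω) × L²(Ω)` of `∂ₜ²u - Δu + g(∂ₜu) = f(t)` on `Ω`, `u = 0` on `∂Ω`. -/
structure IsSolution (Ω : Set (ℝ × ℝ)) (g : ℝ → ℝ) (f : ℝ → L2 Ω) (U : ℝ → State Ω) : Prop where
  cont : ContinuousOn U (Ici 0)
  mem : ∀ t : ℝ, 0 ≤ t → ((U t).1, (U t).2.1, (U t).2.2.1) ∈ H10 Ω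
  deriv : ∀ t : ℝ, 0 ≤ t → HasDerivWithinAt (fun s => (U s).1) (U t).2.2.2 (Ici 0) t
  weak : ∀ φ : ℝ × ℝ → ℝ, IsTest Ω φ → ∀ t : ℝ, 0 ≤ t → WeakEq Ω g f U φ t

/-- bounded for `t ≥ 0` -/
def IsBddSol (Ω : Set (ℝ × ℝ)) (U : ℝ → State Ω) : Prop := ∃ C : ℝ, ∀ t : ℝ, 0 ≤ t → ‖U t‖ ≤ C

/-- the positive orbit has compact closure -/
def PrecompactOrbit (Ω : Set (ℝ × ℝ)) (U : ℝ → State Ω) : Prop := IsCompact (closure (U '' Ici 0))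

end Haraux.St
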